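import Pool.Agent.Lib.MP_d0d59f_nt.PZ.K015

section

/-! Row pw-Q23a: linear growth towards the first bad element. -/

namespace Pool.Agent.Lib.MP_d0d59f_nt.PW

open Finset

/-- The odd part: `z ≠ 0` is `2^v w` with `w` odd; `T^i (2^v w) = 2^(v-i) w` for `i ≤ v`. -/
theorem odd_part (d : ℤ) {z : ℤ} (hz : z ≠ 0) : ∃ (v : ℕ) (w : ℤ), Odd w ∧ z = 2 ^ v * w ∧
    ∀ i ≤ v, (T d)^[i] z = 2 ^ (v - i) * w := by
  obtain ⟨v, w, hw, hz2⟩ : ∃ (v : ℕ) (w : ℤ), Odd w ∧ z = 2 ^ v * w := by
    by_cases he : Even z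
    · obtain ⟨a, M, _, h2, h3⟩ := AA.b1_oddpart hz he
      exact ⟨a, M, h3, h2.symm⟩
    · exact ⟨0, z, Int.not_even_iff_odd.mp he, by simp⟩
  refine ⟨v, w, hw, hz2, ?_⟩
  intro i
  induction i with
  | zero => intro _; simpa using hz2
  | succ i ih =>
    intro hi
    rw [Function.iterate_succ_apply', ih (by omega)]
    have e : v - i = (v - (i + 1)) + 1 := by omega
    have h0 : (2 : ℤ) ^ (v - i) * w % 2 = 0 := by
      rw [e, pow_succ, show (2 : ℤ) ^ (v - (i + 1)) * 2 * w = 2 * (2 ^ (v - (i + 1)) * w) by ring]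
      exact Int.mul_emod_right 2 _
    have h1 := T_even (d := d) h0
    have h3 : (2 : ℤ) ^ (v - i) * w = 2 * (2 ^ (v - (i + 1)) * w) := by
      rw [e, pow_succ]
      have : v - (i + 1) + 1 - 1 = v - (i + 1) := by omega
      ring
    rw [h3] at h1 ⊢
    linarith only [h1]

end Pool.Agent.Lib.MP_d0d59f_nt.PW

end

section

/-! Row px-X19: linear growth towards the first bad element (compare PW/Q23a). -/

namespace Pool.Agent.Lib.MP_d0d59f_nt.PX

open Finset
open Pool.Agent.Lib.MP_b27257_nt.BT (st ee)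

/-- As `PW.chain_growth`: strong induction on `t`; `h = ht d w`, `g = gg N h`, `h' = ht d y`; `w` is not bad: let
`k ≤ 2 h` be the first time with `ht d (T^k w) < g`. If `t < k`: `h' < h` (otherwise `y` bad gives
`ht d (T^(k-t) y) ≥ gg N h' ≥ g`, `k - t ≤ 2 h ≤ 2 h'`), `t + (M-2) h' ≤ 2 h + (M-2)(h-1) ≤ M h`. If `t ≥ k`:
`T^k w = 2^v w'`, `t ≥ k + v`. `t = k + v`: `y = w'`, `v + h' ≤ g - 1`,
`t + (M-2) h' ≤ 2 h + g - 1 + (M-3) h' ≤ 2 h + (M-2) g ≤ M h`. `t > k + v`: induction:
`t + (M-2) h' ≤ 2 h + v + M ht(w') ≤ 2 h + M (g - 1) ≤ M h` since `M (h - g) ≥ 2 (N+1) (h - g) ≥ 2 h`. -/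
theorem chain_growth2 {d : ℤ} (hd : Odd d) {N M : ℕ} (hN : 21 ≤ N) (hM : 2 * (N + 1) ≤ M) {w y : ℤ} {t : ℕ}
    (ht0 : 1 ≤ t) (hw : Odd w) (hy : Odd y) (hty : (T d)^[t] w = y) (hyb : isBad2 d N y) (hy2 : 2 ≤ PW.ht d y)
    (hfirst : ∀ s < t, Odd ((T d)^[s] w) → ¬ isBad2 d N ((T d)^[s] w)) :
    t + (M - 2) * PW.ht d y ≤ M * PW.ht d w := by
  obtain ⟨n, rfl⟩ : ∃ n, N = n + 1 := ⟨N - 1, by omega⟩
  obtain ⟨m, rfl⟩ : ∃ m, M = m + 2 := ⟨M - 2, by omega⟩
  have hn : 20 ≤ n := by omega
  simp only [Nat.add_sub_cancel]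
  have hd0 : d ≠ 0 := by
    rintro rfl
    exact absurd hd (by decide)
  induction t using Nat.strong_induction_on generalizing w with
  | _ t ih =>
  have hnb : ¬ isBad2 d (n + 1) w := by
    have := hfirst 0 (by omega)
    simpa using this hw
  unfold isBad2 at hnb
  push Not at hnb
  obtain ⟨k, hk, hkg⟩ := hnb
  obtain ⟨g, hg⟩ : ∃ g, g = PW.gg (n + 1) (PW.ht d w) := ⟨_, rfl⟩
  obtain ⟨h, hh⟩ : ∃ h, h = PW.ht d w := ⟨_, rfl⟩
  obtain ⟨h', hh'⟩ : ∃ h', h' = PW.ht d y := ⟨_, rfl⟩
  rw [← hg] at hkg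
  rw [← hh] at hk
  have hh1 : 1 ≤ h := by
    by_contra hc
    have h0 : h = 0 := by omega
    have : g = 0 := by
      rw [hg, ← hh, h0]; simp [PW.gg]
    omega
  have hgh : g < h := by
    rw [hg, ← hh]
    exact PW.gg_lt hh1
  have hgm : (n + 1 + 1) * g ≤ (n + 1) * h := by
    rw [hg, ← hh]
    exact PW.gg_mul_le _ _
  rw [← hh, ← hh']
  rw [← hh'] at hy2
  rcases Nat.lt_or_ge t k with htk | htk
  · -- `t < k`
    have hlt : h' < h := by
      by_contra hc
      push Not at hc
      have h1 : g ≤ PW.gg (n + 1) (PW.ht d y) := by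
        rw [hg]
        exact PW.gg_mono _ (by rw [← hh', ← hh]; exact hc)
      have h2 := hyb (k - t) (by rw [← hh']; omega)
      have h3 : (T d)^[k - t] y = (T d)^[k] w := by
        rw [← hty, ← Function.iterate_add_apply]
        congr 1
        omega
      rw [h3] at h2
      omega
    nlinarith only [hN, hM, hk, htk, hlt]
  · -- `k ≤ t`
    have hk1 : 1 ≤ k := by
      by_contra hc
      have h0 : k = 0 := by omega
      rw [h0] at hkg
      simp only [Function.iterate_zero, id_eq] at hkg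
      omega
    have hz0 : (T d)^[k] w ≠ 0 := by
      intro hz0
      have h1 : (T d)^[t - k] ((T d)^[k] w) = y := by
        rw [← Function.iterate_add_apply, ← hty]
        congr 1
        omega
      rw [hz0] at h1
      have h2 : ∀ j : ℕ, (T d)^[j] 0 = 0 := by
        intro j
        induction j with
        | zero => rfl
        | succ j ihj => rw [Function.iterate_succ_apply', ihj]; simp [T]
      rw [h2] at h1
      rw [← h1] at hy
      exact absurd hy (by decide)
    obtain ⟨v, w', hw', hz, hit⟩ := PW.odd_part d hz0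
    have hsplit : (T d)^[t - k] ((T d)^[k] w) = y := by
      rw [← Function.iterate_add_apply, ← hty]
      congr 1
      omega
    have hvt : v ≤ t - k := by
      by_contra hc
      push Not at hc
      have h1 := hit (t - k) hc.le
      rw [hsplit] at h1
      obtain ⟨c, hc2⟩ : ∃ c, v - (t - k) = c + 1 := ⟨v - (t - k) - 1, by omega⟩
      rw [h1, hc2, pow_succ, show (2 : ℤ) ^ c * 2 * w' = 2 * (2 ^ c * w') by ring] at hy
      exact (Int.not_even_iff_odd.mpr hy) (even_two_mul _)
    have hvv : (T d)^[v + k] w = w' := by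
      rw [Function.iterate_add_apply, hit v le_rfl]
      simp
    rcases Nat.eq_or_lt_of_le hvt with hteq | htlt
    · -- `t = k + v`
      have hyw : y = w' := by
        rw [← hvv, ← hty]
        congr 1
        omega
      have hdy : |d| ≤ |w'| := by
        have h1 := (PW.le_ht_iff (z := w') hd0 (le_refl 1)).mp (by rw [← hyw, ← hh']; omega)
        have := abs_nonneg d
        linarith only [h1, this]
      have h3 := PW.ht_pow_mul hd0 hdy v
      rw [← hz, ← hyw, ← hh'] at h3
      have h4 : v + h' ≤ g - 1 := by omega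
      obtain ⟨g', rfl⟩ : ∃ g', g = g' + 1 := ⟨g - 1, by omega⟩
      have h5 : v + h' ≤ g' := by omega
      have h6 : t = k + v := by omega
      obtain ⟨m', rfl⟩ : ∃ m', m = m' + 1 := ⟨m - 1, by omega⟩
      have h8 : m' * h' ≤ m' * g' := Nat.mul_le_mul_left _ (by omega)
      have h9 : (m' + 1) * g' ≤ (m' + 1) * h := Nat.mul_le_mul_left _ (by omega)
      nlinarith only [hk, h3, hkg, h6, h8, h9]
    · -- induction
      have hIH := ih (t - k - v) (by omega) (by omega) hw' (by
          rw [← hvv, ← Function.iterate_add_apply, ← hty]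
          congr 1
          omega) (by
          intro s hs
          have h1 := hfirst (s + (v + k)) (by omega)
          rw [Function.iterate_add_apply, hvv] at h1
          exact h1)
      rw [← hh'] at hIH
      have hw1 : 1 ≤ PW.ht d w' := by
        by_contra hc
        have h0 : PW.ht d w' = 0 := by omega
        rw [h0] at hIH
        nlinarith only [hN, hM, hIH, hy2]
      have hdy : |d| ≤ |w'| := by
        have h1 := (PW.le_ht_iff (z := w') hd0 (le_refl 1)).mp hw1
        have := abs_nonneg d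
        linarith only [h1, this]
      have h3 := PW.ht_pow_mul hd0 hdy v
      rw [← hz] at h3
      obtain ⟨g', rfl⟩ : ∃ g', g = g' + 1 := ⟨g - 1, by omega⟩
      have h5 : v + PW.ht d w' ≤ g' := by omega
      have h7 : t = (t - k - v) + k + v := by omega
      obtain ⟨u, hu⟩ : ∃ u, u = PW.ht d w' := ⟨_, rfl⟩
      rw [← hu] at hIH h5 hw1
      obtain ⟨e, he⟩ : ∃ e, h = g' + 1 + e := ⟨h - (g' + 1), by omega⟩
      -- `h ≤ (n + 2) e`
      have h10 : h ≤ (n + 2) * e := by
        rw [he] at hgm ⊢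
        nlinarith only [hgm]
      have h11 : 2 * h ≤ (m + 2) * e := by
        have : 2 * (n + 2) * e ≤ (m + 2) * e := Nat.mul_le_mul_right _ (by omega)
        nlinarith only [h10, this]
      have h12 : (m + 2) * u + (m + 2) * v ≤ (m + 2) * g' := by
        rw [← Nat.mul_add]
        exact Nat.mul_le_mul_left _ (by omega)
      have h13 : v ≤ (m + 2) * v := Nat.le_mul_of_pos_left _ (by omega)
      have h14 : (m + 2) * h = (m + 2) * g' + (m + 2) + (m + 2) * e := by
        rw [he]; ring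
      omega

end Pool.Agent.Lib.MP_d0d59f_nt.PX

end

section

/-! Row px-X20: existence of a bad element (compare PW/Q23b). -/

namespace Pool.Agent.Lib.MP_d0d59f_nt.PX

open Finset
open Pool.Agent.Lib.MP_b27257_nt.BT (st ee)

theorem x20_ht_zero (d : ℤ) : PW.ht d 0 = 0 := by
  simp [PW.ht]

/-- As `PW.exists_bad`: if `x` is not bad, first `k ≤ 2 h` with `ht < g`, `T^k x = 2^v x'`, `v < g` (otherwise height
`0` at time `k + g ≤ 3 h ≤ M h`), and `k + v + M ht(x') ≤ 2 h + M (g - 1) ≤ M h`. -/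
theorem exists_bad2 {d : ℤ} (hd : Odd d) {N M : ℕ} (hN : 21 ≤ N) (hM : 2 * (N + 1) ≤ M) {b : ℕ} (hb : 2 ≤ b)
    {x : ℤ} (hx : Odd x) (hall : ∀ k ≤ M * PW.ht d x, b ≤ PW.ht d ((T d)^[k] x)) :
    ∃ t ≤ M * PW.ht d x, Odd ((T d)^[t] x) ∧ isBad2 d N ((T d)^[t] x) := by
  have hd0 : d ≠ 0 := by
    rintro rfl
    exact absurd hd (by decide)
  obtain ⟨h, hh⟩ : ∃ h, PW.ht d x = h := ⟨_, rfl⟩
  induction h using Nat.strong_induction_on generalizing x with
  | _ h ih =>
    by_cases hbad : isBad2 d N x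
    · exact ⟨0, Nat.zero_le _, by simpa using hx, by simpa using hbad⟩
    · have hbx : b ≤ PW.ht d x := by simpa using hall 0 (Nat.zero_le _)
      rw [hh] at hall hbx ⊢
      simp only [isBad2, hh] at hbad
      push Not at hbad
      obtain ⟨k, hk, hkg⟩ := hbad
      have hg : PW.gg N h < h := PW.gg_lt (by omega)
      have hgm := PW.gg_mul_le N h
      have hNh : 44 * h ≤ M * h := Nat.mul_le_mul_right _ (by omega)
      have hMg : 2 * h + M * PW.gg N h ≤ M * h := by
        obtain ⟨c, hc⟩ : ∃ c, h = PW.gg N h + c := ⟨h - PW.gg N h, by omega⟩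
        have e1 : h ≤ (N + 1) * c := by
          have e2 : (N + 1) * PW.gg N h + (N + 1) * c = (N + 1) * h := by
            rw [← Nat.mul_add, ← hc]
          have e3 : (N + 1) * h = N * h + h := by ring
          omega
        have e4 : 2 * (N + 1) * c ≤ M * c := Nat.mul_le_mul_right _ hM
        have e5 : M * h = M * PW.gg N h + M * c := by rw [← Nat.mul_add, ← hc]
        have e6 : 2 * (N + 1) * c = 2 * ((N + 1) * c) := by ring
        omega
      have hne : (T d)^[k] x ≠ 0 := by
        intro h0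
        have := hall k (by omega)
        rw [h0, x20_ht_zero] at this
        omega
      obtain ⟨v, x', hx', hz, hit⟩ := PW.odd_part d hne
      have hvg : v < PW.gg N h := by
        by_contra hcon
        push Not at hcon
        have h1 := hall (PW.gg N h + k) (by omega)
        rw [Function.iterate_add_apply, hit _ hcon] at h1
        have h2 := PW.abs_lt_of_ht hd0 ((T d)^[k] x)
        have h3 : |(T d)^[k] x| < 2 ^ PW.gg N h * |d| :=
          lt_of_lt_of_le h2 (mul_le_mul_of_nonneg_right (pow_le_pow_right₀ (by norm_num) (by omega)) (abs_nonneg d))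
        rw [hz, abs_mul, abs_of_pos (by positivity : (0 : ℤ) < 2 ^ v)] at h3
        have h4 : (2 : ℤ) ^ v = 2 ^ PW.gg N h * 2 ^ (v - PW.gg N h) := by
          rw [← pow_add]; congr 1; omega
        rw [h4, mul_assoc] at h3
        have h5 := lt_of_mul_lt_mul_left h3 (by positivity)
        have h6 : |2 ^ (v - PW.gg N h) * x'| < |d| := by
          rw [abs_mul, abs_of_pos (by positivity : (0 : ℤ) < 2 ^ (v - PW.gg N h))]; exact h5
        rw [PW.ht_zero_of_lt h6] at h1
        omega
      have hxe : (T d)^[v + k] x = x' := by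
        rw [Function.iterate_add_apply, hit v le_rfl]; simp
      have hbx' : b ≤ PW.ht d x' := by
        have := hall (v + k) (by omega)
        rwa [hxe] at this
      have hdx' : |d| ≤ |x'| := by
        have h1 : (2 : ℤ) ^ 1 * |d| ≤ |x'| := (PW.le_ht_iff hd0 (le_refl 1) (z := x')).1 (by omega)
        have h2 := abs_nonneg d
        linarith
      have hvh := PW.ht_pow_mul hd0 hdx' v
      rw [← hz] at hvh
      have hkey : M * PW.ht d x' + (v + k) ≤ M * h := by
        have e1 : M * PW.ht d x' + M * v + M ≤ M * PW.gg N h := by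
          have : PW.ht d x' + v + 1 ≤ PW.gg N h := by omega
          calc M * PW.ht d x' + M * v + M = M * (PW.ht d x' + v + 1) := by ring
            _ ≤ _ := Nat.mul_le_mul_left _ this
        have e3 : v ≤ M * v := Nat.le_mul_of_pos_left _ (by omega)
        omega
      obtain ⟨t, ht1, ht2, ht3⟩ := ih (PW.ht d x') (by omega) hx' (by
        intro j hj
        have := hall (j + (v + k)) (by omega)
        rwa [Function.iterate_add_apply, hxe] at this) rfl
      refine ⟨t + (v + k), by omega, ?_, ?_⟩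
      · rwa [Function.iterate_add_apply, hxe]
      · rwa [Function.iterate_add_apply, hxe]

/-- As `PW.first_bad`. -/
theorem first_bad2 {d : ℤ} (hd : Odd d) {N M : ℕ} (hN : 21 ≤ N) (hM : 2 * (N + 1) ≤ M) {b : ℕ} (hb : 2 ≤ b)
    {x : ℤ} (hx : Odd x) (hall : ∀ k ≤ M * PW.ht d x, b ≤ PW.ht d ((T d)^[k] x)) :
    ∃ t : ℕ, ∃ y : ℤ, (T d)^[t] x = y ∧ Odd y ∧ isBad2 d N y ∧ b ≤ PW.ht d y ∧
      ∀ s ≤ t, Odd ((T d)^[s] x) → t - s + (M - 2) * PW.ht d y ≤ M * PW.ht d ((T d)^[s] x) := by
  classical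
  obtain ⟨t0, ht0, hP⟩ := exists_bad2 hd hN hM hb hx hall
  have hex : ∃ t, Odd ((T d)^[t] x) ∧ isBad2 d N ((T d)^[t] x) := ⟨t0, hP⟩
  have hle : Nat.find hex ≤ t0 := Nat.find_min' hex hP
  have hsp := Nat.find_spec hex
  have hbt : b ≤ PW.ht d ((T d)^[Nat.find hex] x) := hall _ (hle.trans ht0)
  refine ⟨Nat.find hex, _, rfl, hsp.1, hsp.2, hbt, ?_⟩
  intro s hs hodd
  rcases Nat.lt_or_ge s (Nat.find hex) with hlt | hge
  · have he : (T d)^[Nat.find hex - s] ((T d)^[s] x) = (T d)^[Nat.find hex] x := by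
      rw [← Function.iterate_add_apply]
      congr 1
      omega
    refine chain_growth2 hd hN hM (by omega) hodd hsp.1 he hsp.2 (by omega) ?_
    intro r hr hro hrb
    rw [← Function.iterate_add_apply] at hro hrb
    exact Nat.find_min hex (by omega : r + s < Nat.find hex) ⟨hro, hrb⟩
  · have : s = Nat.find hex := le_antisymm hs hge
    rw [← this]
    have : (M - 2) * PW.ht d ((T d)^[s] x) ≤ M * PW.ht d ((T d)^[s] x) := Nat.mul_le_mul_right _ (by omega)
    omega

end Pool.Agent.Lib.MP_d0d59f_nt.PX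

end
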