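import Pool.Agent.Lib.MP_d0d59f_nt.PZ.K003

section

/-! Row pd-P16a. -/

namespace Pool.Agent.Lib.MP_d0d59f_nt.PD

open Finset

theorem VV_nonneg (M n j : ℕ) : 0 ≤ VV M n j := by
  unfold VV
  split_ifs <;> norm_num

theorem VV_le_one (M n j : ℕ) : VV M n j ≤ 1 := by
  unfold VV
  split_ifs <;> norm_num

/-- `2 (M 3^n) ≤ M 3^(n+1)`, `Nat.log_mul_base`, `Nat.log_mono_right`. -/
theorem lev_succ {M : ℕ} (hM : 1 ≤ M) (n : ℕ) : lev M n + 1 ≤ lev M (n + 1) := by
  unfold lev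
  have h1 : M * 3 ^ n ≠ 0 := by positivity
  rw [← Nat.log_mul_base (by norm_num : 1 < 2) h1]
  refine Nat.log_mono_right ?_
  rw [pow_succ, ← mul_assoc]
  exact Nat.mul_le_mul_left _ (by norm_num)

theorem p16_geom (g : ℕ) : ∑ a ∈ Icc 1 g, (1 / 2 : ℝ) ^ a = 1 - (1 / 2) ^ g := by
  induction g with
  | zero => simp
  | succ g ih =>
    rw [Finset.sum_Icc_succ_top (by omega), ih, pow_succ]
    ring

/-- Memorylessness. If `j < lev M n` then `g = lev M (n+1) - j ≥ 2` and the sum is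
`∑_{a=1}^{g-1} 2^{-a}/2 + 2^{-g} = (1 - 2^{1-g})/2 + 2^{-g} = 1/2` (`g ≤ A`). If `j ≥ lev M n`: trivial. -/
theorem VV_step {M : ℕ} (hM : 1 ≤ M) {n j A : ℕ} (hA : lev M (n + 1) ≤ j + A) :
    VV M n j ≤ (if j = lev M n then 1 else 0) + ∑ a ∈ Icc 1 A, (1 / 2 : ℝ) ^ a * VV M (n + 1) (j + a) := by
  have hs : 0 ≤ ∑ a ∈ Icc 1 A, (1 / 2 : ℝ) ^ a * VV M (n + 1) (j + a) :=
    sum_nonneg fun a _ => mul_nonneg (by positivity) (VV_nonneg _ _ _)
  rcases lt_trichotomy j (lev M n) with h | h | h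
  · have h1 := lev_succ hM n
    obtain ⟨g, hg⟩ : ∃ g, lev M (n + 1) = j + (g + 1) := ⟨lev M (n + 1) - j - 1, by omega⟩
    have hV : VV M n j = 1 / 2 := by
      unfold VV
      rw [if_pos h]
    rw [hV, if_neg (by omega), zero_add]
    have h2 : ∑ a ∈ Icc 1 (g + 1), (1 / 2 : ℝ) ^ a * VV M (n + 1) (j + a) ≤
        ∑ a ∈ Icc 1 A, (1 / 2 : ℝ) ^ a * VV M (n + 1) (j + a) := by
      refine sum_le_sum_of_subset_of_nonneg (Icc_subset_Icc le_rfl (by omega)) ?_
      intro a _ _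
      exact mul_nonneg (by positivity) (VV_nonneg _ _ _)
    refine le_trans (le_of_eq ?_) h2
    rw [Finset.sum_Icc_succ_top (by omega)]
    have h3 : ∑ a ∈ Icc 1 g, (1 / 2 : ℝ) ^ a * VV M (n + 1) (j + a) =
        ∑ a ∈ Icc 1 g, (1 / 2 : ℝ) ^ a * (1 / 2) := by
      refine sum_congr rfl fun a ha => ?_
      have ha' := (mem_Icc.1 ha).2
      congr 1
      unfold VV
      rw [if_pos (by omega)]
    have h4 : VV M (n + 1) (j + (g + 1)) = 1 := by
      unfold VV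
      rw [if_neg (by omega), if_pos hg.symm]
    rw [h3, h4, ← sum_mul, p16_geom, pow_succ]
    ring
  · rw [if_pos h]
    have := VV_le_one M n j
    linarith
  · have hV : VV M n j = 0 := by
      unfold VV
      rw [if_neg (by omega), if_neg (by omega)]
    rw [hV, if_neg (by omega), zero_add]
    exact hs

end Pool.Agent.Lib.MP_d0d59f_nt.PD

end

section

/-! Row pd-P01: words, barrier. -/

namespace Pool.Agent.Lib.MP_d0d59f_nt.PD

open Finset

/-- `AA.mem_comps`. -/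
theorem mem_Wd {n L : ℕ} {α : List ℕ} :
    α ∈ Wd n L ↔ α.length = n ∧ α.sum ≤ L ∧ ∀ a ∈ α, 1 ≤ a := by
  unfold Wd
  rw [mem_biUnion]
  constructor
  · rintro ⟨l, hl, h⟩
    obtain ⟨h1, h2, h3⟩ := AA.mem_comps.1 h
    rw [mem_range] at hl
    exact ⟨h1, by omega, h3⟩
  · rintro ⟨h1, h2, h3⟩
    exact ⟨α.sum, mem_range.2 (by omega), AA.mem_comps.2 ⟨h1, rfl, h3⟩⟩

/-- The sum condition of `Wd n (3n+100)` is `bar` with `i = n` (`List.take_length`). -/
theorem mem_Rn {n : ℕ} {α : List ℕ} :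
    α ∈ Rn n ↔ α.length = n ∧ (∀ a ∈ α, 1 ≤ a) ∧ bar α := by
  classical
  unfold Rn
  rw [mem_filter, mem_Wd]
  constructor
  · rintro ⟨⟨h1, _, h3⟩, h4⟩
    exact ⟨h1, h3, h4⟩
  · rintro ⟨h1, h3, h4⟩
    refine ⟨⟨h1, ?_, h3⟩, h4⟩
    have h := (h4 α.length le_rfl).2
    rw [List.take_length, h1] at h
    exact h

/-- The sets `comps n l` are disjoint for different `l` (`AA.mem_comps`), `sum_biUnion`. -/
theorem sum_Wd (n L : ℕ) (f : List ℕ → ℝ) :
    ∑ α ∈ Wd n L, f α = ∑ l ∈ range (L + 1), ∑ α ∈ AA.comps n l, f α := by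
  unfold Wd
  rw [sum_biUnion]
  intro l _ l' _ hne
  rw [Function.onFun, Finset.disjoint_left]
  intro α h h'
  exact hne ((AA.mem_comps.1 h).2.1.symm.trans (AA.mem_comps.1 h').2.1)

/-- `take i (α ++ β) = take i α` for `i ≤ α.length`. -/
theorem bar_prefix {α β : List ℕ} (h : bar (α ++ β)) : bar α := by
  intro i hi
  have h1 := h i (by rw [List.length_append]; omega)
  rw [List.take_append_of_le_length hi] at h1
  exact h1

theorem bar_nil : bar [] := by
  intro i hi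
  have : i = 0 := by simpa using hi
  subst this
  simp

/-- `bar (α ++ β)` says: `bar α` and the conditions for the times `α.length + j`, `j ≤ β.length`
(`List.take_append`, `List.sum_append`). -/
theorem bar_append_iff {α β : List ℕ} : bar (α ++ β) ↔ bar α ∧ ∀ j ≤ β.length,
    5 * (α.length + j) ≤ 3 * (α.sum + (β.take j).sum) + 100 ∧
      α.sum + (β.take j).sum ≤ 3 * (α.length + j) + 100 := by
  have key : ∀ j, ((α ++ β).take (α.length + j)).sum = α.sum + (β.take j).sum := by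
    intro j
    have e : (α ++ β).take (α.length + j) = α ++ β.take j := by
      simp [List.take_append]
    rw [e, List.sum_append]
  constructor
  · intro h
    refine ⟨bar_prefix h, fun j hj => ?_⟩
    have h1 := h (α.length + j) (by rw [List.length_append]; omega)
    rw [key] at h1
    exact h1
  · rintro ⟨h1, h2⟩ i hi
    rw [List.length_append] at hi
    rcases le_total i α.length with h | h
    · rw [List.take_append_of_le_length h]
      exact h1 i h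
    · obtain ⟨j, rfl⟩ := Nat.exists_eq_add_of_le h
      rw [key]
      exact h2 j (by omega)

/-- The words of length one. -/
theorem sum_Wd_one (L : ℕ) (f : List ℕ → ℝ) : ∑ β ∈ Wd 1 L, f β = ∑ a ∈ Icc 1 L, f [a] := by
  have e : Wd 1 L = (Icc 1 L).image fun a => [a] := by
    ext α
    rw [mem_Wd, mem_image]
    constructor
    · rintro ⟨h1, h2, h3⟩
      obtain ⟨a, rfl⟩ := List.length_eq_one_iff.1 h1
      refine ⟨a, mem_Icc.2 ⟨h3 a (by simp), ?_⟩, rfl⟩
      simpa using h2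
    · rintro ⟨a, ha, rfl⟩
      rw [mem_Icc] at ha
      refine ⟨rfl, by simpa using ha.2, ?_⟩
      intro b hb
      rw [List.mem_singleton] at hb
      exact hb ▸ ha.1
  rw [e, sum_image]
  intro a _ b _ h
  simpa using h

end Pool.Agent.Lib.MP_d0d59f_nt.PD

end

section

/-! Row pw-Q11: the supersolution. -/

namespace Pool.Agent.Lib.MP_d0d59f_nt.PW

open Finset

theorem phi_nonneg (M : ℝ) (n j : ℕ) : 0 ≤ phi M n j := by
  unfold phi
  have h : 0 ≤ min 1 (Real.sqrt (M * 3 ^ n / 2 ^ j)) := le_min zero_le_one (Real.sqrt_nonneg _)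
  linarith only [h]

theorem phi_le (M : ℝ) (n j : ℕ) : phi M n j ≤ 40 := by
  unfold phi
  have h : min 1 (Real.sqrt (M * 3 ^ n / 2 ^ j)) ≤ 1 := min_le_left _ _
  linarith only [h]

theorem q11_geom (q : ℝ) (A : ℕ) :
    (1 - q) * ∑ a ∈ Icc 1 A, q ^ a = q - q ^ (A + 1) := by
  induction A with
  | zero => simp
  | succ A ih =>
    rw [Finset.sum_Icc_succ_top (by omega), mul_add, ih]
    ring

theorem q11_half (A : ℕ) : ∑ a ∈ Icc 1 A, (1 / 2 : ℝ) ^ a ≤ 1 := by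
  have h := q11_geom (1 / 2) A
  have h1 : (0 : ℝ) ≤ (1 / 2) ^ (A + 1) := by positivity
  linarith only [h, h1]

theorem q11_next (M : ℝ) (n j a : ℕ) :
    phi M (n + 1) (j + a) = 40 * min 1 (Real.sqrt (3 * (M * 3 ^ n / 2 ^ j) / 2 ^ a)) := by
  unfold phi
  congr 3
  rw [pow_succ, pow_add]
  field_simp

open Classical in
/-- Let `v = M 3^n/2^j`, so `phi M (n+1) (j+a) = 40 min 1 (sqrt (3 v/2^a))`.
`v < 1`: not on the curve, `phi M n j = 40 sqrt v`, and the sum is at most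
`40 sqrt v * sqrt 3 * ∑_a (1/2)^a (sqrt (1/2))^a ≤ 40 sqrt v * 0.948` (`∑_{a≥1} (2 sqrt 2)^(-a) = 1/(2 sqrt 2 - 1) ≤
0.547`, `sqrt 3 ≤ 1.7321`). `1 ≤ v < 2` (the curve): `phi = 40`; the terms `a = 1, 2` are at most `40 (3/4)`
together; for `a ≥ 3` `sqrt (3 v/2^a) ≤ sqrt (3/4) ≤ 0.867`, together at most `40 (1/4) 0.867`; `1 + 30 + 8.67 ≤ 40`.
`v ≥ 2`: `∑ (1/2)^a 40 ≤ 40`. -/
theorem phi_step {M : ℝ} (hM : 0 < M) (n j A : ℕ) :
    (if onc M n j then (1 : ℝ) else 0) + ∑ a ∈ Icc 1 A, (1 / 2 : ℝ) ^ a * phi M (n + 1) (j + a) ≤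
      phi M n j := by
  set v : ℝ := M * 3 ^ n / 2 ^ j with hv
  have h2j : (0 : ℝ) < 2 ^ j := by positivity
  have hv0 : 0 < v := by rw [hv]; positivity
  have hphi : phi M n j = 40 * min 1 (Real.sqrt v) := rfl
  have hnext : ∀ a, phi M (n + 1) (j + a) = 40 * min 1 (Real.sqrt (3 * v / 2 ^ a)) :=
    fun a => q11_next M n j a
  have hmul : M * 3 ^ n = v * 2 ^ j := by rw [hv]; field_simp
  have honc : onc M n j ↔ 1 ≤ v ∧ v < 2 := by
    unfold onc
    rw [hmul, pow_succ]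
    constructor
    · rintro ⟨h1, h2⟩
      constructor
      · by_contra h
        push Not at h
        have := mul_lt_mul_of_pos_right h h2j
        linarith only [h1, this]
      · by_contra h
        push Not at h
        have := mul_le_mul_of_nonneg_right h h2j.le
        linarith only [h2, this]
    · rintro ⟨h1, h2⟩
      constructor
      · have := mul_le_mul_of_nonneg_right h1 h2j.le
        linarith only [this]
      · have := mul_lt_mul_of_pos_right h2 h2j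
        linarith only [this]
  rcases lt_or_ge v 1 with h1 | h1
  · -- v < 1
    have hn : ¬ onc M n j := fun h => absurd (honc.mp h).1 (not_le.mpr h1)
    rw [if_neg hn, zero_add, hphi]
    have hs1 : Real.sqrt v ≤ 1 := by
      rw [Real.sqrt_le_iff]
      exact ⟨zero_le_one, by linarith only [h1]⟩
    rw [min_eq_right hs1]
    set r : ℝ := Real.sqrt (1 / 2) with hr
    have hr0 : 0 ≤ r := Real.sqrt_nonneg _
    have hr2 : r ^ 2 = 1 / 2 := Real.sq_sqrt (by norm_num)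
    have hr1 : r ≤ 0.7072 := by
      rw [hr, Real.sqrt_le_iff]
      constructor <;> norm_num
    have hterm : ∀ a ∈ Icc 1 A, (1 / 2 : ℝ) ^ a * phi M (n + 1) (j + a) ≤
        (40 * 1.7321 * Real.sqrt v) * (r / 2) ^ a := by
      intro a _
      rw [hnext a]
      have hle : Real.sqrt (3 * v / 2 ^ a) ≤ 1.7321 * Real.sqrt v * r ^ a := by
        rw [Real.sqrt_le_iff]
        refine ⟨by positivity, ?_⟩
        have e1 : (1.7321 * Real.sqrt v * r ^ a) ^ 2 = 1.7321 ^ 2 * v * (1 / 2) ^ a := by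
          rw [mul_pow, mul_pow, Real.sq_sqrt hv0.le, ← pow_mul, mul_comm a 2, pow_mul, hr2]
        rw [e1]
        have e2 : 3 * v / 2 ^ a = 3 * v * (1 / 2) ^ a := by
          rw [one_div, inv_pow]
          rfl
        rw [e2]
        have hp : (0 : ℝ) < (1 / 2) ^ a := by positivity
        have : 3 * v ≤ 1.7321 ^ 2 * v := by
          apply mul_le_mul_of_nonneg_right _ hv0.le
          norm_num
        exact mul_le_mul_of_nonneg_right this hp.le
      have hm : min 1 (Real.sqrt (3 * v / 2 ^ a)) ≤ 1.7321 * Real.sqrt v * r ^ a :=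
        (min_le_right _ _).trans hle
      have hp : (0 : ℝ) < (1 / 2) ^ a := by positivity
      calc (1 / 2 : ℝ) ^ a * (40 * min 1 (Real.sqrt (3 * v / 2 ^ a)))
          ≤ (1 / 2 : ℝ) ^ a * (40 * (1.7321 * Real.sqrt v * r ^ a)) := by
            apply mul_le_mul_of_nonneg_left _ hp.le
            linarith only [hm]
        _ = (40 * 1.7321 * Real.sqrt v) * (r / 2) ^ a := by
            rw [div_pow r 2 a, div_pow 1 2 a, one_pow]
            ring
    refine (Finset.sum_le_sum hterm).trans ?_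
    rw [← Finset.mul_sum]
    have hg := q11_geom (r / 2) A
    have hq0 : 0 ≤ r / 2 := by linarith only [hr0]
    have hgp : 0 ≤ (r / 2) ^ (A + 1) := pow_nonneg hq0 _
    have hS0 : 0 ≤ ∑ a ∈ Icc 1 A, (r / 2) ^ a := Finset.sum_nonneg fun a _ => pow_nonneg hq0 a
    have hS : ∑ a ∈ Icc 1 A, (r / 2) ^ a ≤ 0.5471 := by
      nlinarith only [hr2, hr1, hg, hgp, hv0, h1, hr0, hS0]
    have hsv : 0 ≤ Real.sqrt v := Real.sqrt_nonneg _
    calc 40 * 1.7321 * Real.sqrt v * ∑ a ∈ Icc 1 A, (r / 2) ^ a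
        ≤ 40 * 1.7321 * Real.sqrt v * 0.5471 := by
          apply mul_le_mul_of_nonneg_left hS
          positivity
      _ ≤ 40 * Real.sqrt v := by nlinarith only [hsv]
  · have hs1 : 1 ≤ Real.sqrt v := by
      rw [Real.one_le_sqrt]
      exact h1
    rw [hphi, min_eq_left hs1, mul_one]
    rcases lt_or_ge v 2 with h2 | h2
    · -- on the curve
      rw [if_pos (honc.mpr ⟨h1, h2⟩)]
      have hterm : ∀ a ∈ Icc 1 A, (1 / 2 : ℝ) ^ a * phi M (n + 1) (j + a) ≤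
          34.68 * (1 / 2) ^ a + ((if a = 1 then 2.66 else 0) + (if a = 2 then 1.33 else 0)) := by
        intro a ha
        rw [hnext a]
        have hm1 : min 1 (Real.sqrt (3 * v / 2 ^ a)) ≤ 1 := min_le_left _ _
        obtain ⟨ha1, _⟩ := Finset.mem_Icc.mp ha
        by_cases e1 : a = 1
        · subst e1
          have e : (1 / 2 : ℝ) ^ 1 = 1 / 2 := by norm_num
          rw [if_pos rfl, if_neg (by norm_num), e]
          linarith only [hm1]
        · by_cases e2 : a = 2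
          · subst e2
            have e : (1 / 2 : ℝ) ^ 2 = 1 / 4 := by norm_num
            rw [if_neg (by norm_num), if_pos rfl, e]
            linarith only [hm1]
          · rw [if_neg e1, if_neg e2]
            have ha3 : 3 ≤ a := by omega
            have hle : Real.sqrt (3 * v / 2 ^ a) ≤ 0.867 := by
              rw [Real.sqrt_le_iff]
              refine ⟨by norm_num, ?_⟩
              have hp : (2 : ℝ) ^ 3 ≤ 2 ^ a := pow_le_pow_right₀ (by norm_num) ha3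
              have hp0 : (0 : ℝ) < 2 ^ a := by positivity
              rw [div_le_iff₀ hp0]
              nlinarith only [h2, hp]
            have hm2 : min 1 (Real.sqrt (3 * v / 2 ^ a)) ≤ 0.867 := (min_le_right _ _).trans hle
            have hp : (0 : ℝ) < (1 / 2) ^ a := by positivity
            nlinarith only [hm2, hp]
      have hsum := Finset.sum_le_sum hterm
      rw [Finset.sum_add_distrib, Finset.sum_add_distrib, ← Finset.mul_sum,
        Finset.sum_ite_eq', Finset.sum_ite_eq'] at hsum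
      have hh := q11_half A
      have c1 : (if 1 ∈ Icc 1 A then (2.66 : ℝ) else 0) ≤ 2.66 := by
        split_ifs <;> norm_num
      have c2 : (if 2 ∈ Icc 1 A then (1.33 : ℝ) else 0) ≤ 1.33 := by
        split_ifs <;> norm_num
      linarith only [hsum, hh, c1, c2]
    · have hn : ¬ onc M n j := fun h => absurd (honc.mp h).2 (not_lt.mpr h2)
      rw [if_neg hn, zero_add]
      have hterm : ∀ a ∈ Icc 1 A, (1 / 2 : ℝ) ^ a * phi M (n + 1) (j + a) ≤ 40 * (1 / 2) ^ a := by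
        intro a _
        have := phi_le M (n + 1) (j + a)
        have hp : (0 : ℝ) < (1 / 2) ^ a := by positivity
        nlinarith only [this, hp]
      refine (Finset.sum_le_sum hterm).trans ?_
      rw [← Finset.mul_sum]
      have := q11_half A
      linarith only [this]

end Pool.Agent.Lib.MP_d0d59f_nt.PW

end

section

/-! Row pw-Q20: heights. -/

namespace Pool.Agent.Lib.MP_d0d59f_nt.PW

open Finset

theorem q20_pow_le_div {d z : ℤ} (hd : d ≠ 0) (b : ℕ) :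
    2 ^ b ≤ z.natAbs / d.natAbs ↔ 2 ^ b * |d| ≤ |z| := by
  have hd' : 0 < d.natAbs := Int.natAbs_pos.mpr hd
  rw [Nat.le_div_iff_mul_le hd', Int.abs_eq_natAbs d, Int.abs_eq_natAbs z]
  constructor
  · intro h
    exact_mod_cast h
  · intro h
    exact_mod_cast h

/-- `Nat.le_log_iff_pow_le`, `Nat.le_div_iff_mul_le`. -/
theorem le_ht_iff {d z : ℤ} (hd : d ≠ 0) {b : ℕ} (hb : 1 ≤ b) : b ≤ ht d z ↔ 2 ^ b * |d| ≤ |z| := by
  rw [← q20_pow_le_div hd b]
  unfold ht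
  by_cases hq : z.natAbs / d.natAbs = 0
  · rw [hq]
    have h2 : 0 < 2 ^ b := by positivity
    simp only [Nat.log_zero_right]
    omega
  · exact Nat.le_log_iff_pow_le (by norm_num) hq

theorem abs_lt_of_ht {d : ℤ} (hd : d ≠ 0) (z : ℤ) : |z| < 2 ^ (ht d z + 1) * |d| := by
  by_contra hcon
  push Not at hcon
  have := (le_ht_iff (z := z) hd (b := ht d z + 1) (by omega)).mpr hcon
  omega

/-- `⌊2^v |w|/|d|⌋ ≥ 2^v ⌊|w|/|d|⌋`, `Nat.log_mul_pow`-type. -/
theorem ht_pow_mul {d w : ℤ} (hd : d ≠ 0) (hw : |d| ≤ |w|) (v : ℕ) : v + ht d w ≤ ht d (2 ^ v * w) := by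
  rcases Nat.eq_zero_or_pos (v + ht d w) with h0 | h0
  · omega
  · rw [le_ht_iff hd h0]
    have h1 : 2 ^ (ht d w) * |d| ≤ |w| := by
      rcases Nat.eq_zero_or_pos (ht d w) with h | h
      · rw [h]; simpa using hw
      · exact (le_ht_iff hd h).mp le_rfl
    rw [abs_mul, abs_pow, abs_two, pow_add, mul_assoc]
    exact mul_le_mul_of_nonneg_left h1 (by positivity)

theorem ht_zero_of_lt {d z : ℤ} (h : |z| < |d|) : ht d z = 0 := by
  unfold ht
  have : z.natAbs < d.natAbs := by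
    rw [Int.abs_eq_natAbs, Int.abs_eq_natAbs] at h
    exact_mod_cast h
  rw [Nat.div_eq_of_lt this]
  simp

theorem ht_mono {d z w : ℤ} (h : |z| ≤ |w|) : ht d z ≤ ht d w := by
  unfold ht
  have : z.natAbs ≤ w.natAbs := by
    rw [Int.abs_eq_natAbs, Int.abs_eq_natAbs] at h
    exact_mod_cast h
  exact Nat.log_mono_right (Nat.div_le_div_right this)

theorem gg_mul_le (N h : ℕ) : (N + 1) * gg N h ≤ N * h := by
  unfold gg
  exact Nat.mul_div_le _ _

theorem gg_lt {N h : ℕ} (hh : 1 ≤ h) : gg N h < h := by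
  unfold gg
  rw [Nat.div_lt_iff_lt_mul (by omega)]
  nlinarith

theorem gg_mono (N : ℕ) {h h' : ℕ} (hh : h ≤ h') : gg N h ≤ gg N h' := by
  unfold gg
  exact Nat.div_le_div_right (Nat.mul_le_mul_left _ hh)

theorem one_le_gg {N h : ℕ} (hN : 1 ≤ N) (hh : 2 ≤ h) : 1 ≤ gg N h := by
  unfold gg
  rw [Nat.le_div_iff_mul_le (by omega)]
  nlinarith

end Pool.Agent.Lib.MP_d0d59f_nt.PW

end

section

/-! Row pw-Q01: barrier words. -/

namespace Pool.Agent.Lib.MP_d0d59f_nt.PW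

open Finset

theorem mem_Rq {N e n L : ℕ} {α : List ℕ} :
    α ∈ Rq N e n L ↔ α.length = n ∧ α.sum ≤ L ∧ (∀ a ∈ α, 1 ≤ a) ∧ lbar N e α := by
  classical
  unfold Rq
  rw [mem_filter, PD.mem_Wd]
  tauto

theorem lbar_nil (N e : ℕ) : lbar N e [] := by
  intro i hi
  have h0 : i = 0 := by simpa using hi
  subst h0
  rw [Nat.mul_zero, pow_zero]
  exact Nat.one_le_two_pow

theorem lbar_prefix {N e : ℕ} {α β : List ℕ} (h : lbar N e (α ++ β)) : lbar N e α := by
  intro i hi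
  have h1 := h i (by rw [List.length_append]; omega)
  rw [List.take_append_of_le_length hi] at h1
  exact h1

theorem q01_pow {N : ℕ} (hN : 21 ≤ N) : 27 ^ N ≤ 32 ^ (N - 1) := by
  induction N, hN using Nat.le_induction with
  | base => norm_num
  | succ n hn ih =>
    have e1 : n + 1 - 1 = (n - 1) + 1 := by omega
    rw [e1, pow_succ, pow_succ]
    exact Nat.mul_le_mul ih (by norm_num)

/-- If `5 j ≤ 3 s` then `3^(N j) ≤ 2^((N-1) s)`. -/
theorem q01_key {N : ℕ} (hN : 21 ≤ N) {j s : ℕ} (h : 5 * j ≤ 3 * s) :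
    3 ^ (N * j) ≤ 2 ^ ((N - 1) * s) := by
  have h1 : (3 ^ (N * j)) ^ 3 ≤ (2 ^ ((N - 1) * s)) ^ 3 := by
    calc (3 ^ (N * j)) ^ 3 = (27 ^ N) ^ j := by
          rw [← pow_mul, ← pow_mul, show (27 : ℕ) = 3 ^ 3 by norm_num, ← pow_mul]
          congr 1
          ring
      _ ≤ (32 ^ (N - 1)) ^ j := Nat.pow_le_pow_left (q01_pow hN) j
      _ = 2 ^ ((N - 1) * (5 * j)) := by
          rw [show (32 : ℕ) = 2 ^ 5 by norm_num, ← pow_mul, ← pow_mul]
          congr 1
          ring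
      _ ≤ 2 ^ ((N - 1) * (3 * s)) :=
          Nat.pow_le_pow_right (by norm_num) (Nat.mul_le_mul_left _ h)
      _ = (2 ^ ((N - 1) * s)) ^ 3 := by
          rw [← pow_mul]
          congr 1
          ring
  exact (Nat.pow_le_pow_iff_left (by norm_num)).1 h1

/-- The violated time is `i = α.length + j` with `j > γ.length` (`h1`), `j ≤ γ.length + β.length`. From
`3^(N α.length) ≤ 2^((N-1)(e + α.sum))` (`h1` at `α.length`) and `3^(N i) > 2^((N-1)(e + α.sum + s_j))` one gets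
`3^(N j) > 2^((N-1) s_j)`, `s_j = ((γ ++ β).take j).sum`. If `5 j ≤ 3 s_j` then
`(3^(N j))^3 = 27^(N j) ≤ 32^((N-1) j) ≤ 2^(3 (N-1) s_j)`, contradiction; `27^N ≤ 32^(N-1)` for `N ≥ 21` by
induction from `27^21 ≤ 32^20`. So `3 s_j < 5 j`: first alternative of `PD.bad`. -/
theorem bad_of_exit {N e : ℕ} (hN : 21 ≤ N) {α γ β : List ℕ} (h1 : lbar N e (α ++ γ))
    (h2 : ¬ lbar N e (α ++ γ ++ β)) :
    PD.bad γ.length (γ.length + β.length) (γ ++ β) := by
  unfold lbar at h2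
  push Not at h2
  obtain ⟨i, hi, h3⟩ := h2
  rw [List.length_append, List.length_append] at hi
  have hig : α.length + γ.length < i := by
    by_contra hc
    have hc1 : i ≤ (α ++ γ).length := by rw [List.length_append]; omega
    have h4 := h1 i hc1
    rw [List.take_append_of_le_length hc1] at h3
    omega
  obtain ⟨j, rfl⟩ := Nat.exists_eq_add_of_le (show α.length ≤ i by omega)
  refine ⟨j, by omega, by omega, Or.inl ?_⟩
  by_contra hc
  push Not at hc
  have h5 := q01_key hN hc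
  have h6 := h1 α.length (by rw [List.length_append]; omega)
  rw [List.take_left'] at h6
  · have e1 : (α ++ γ ++ β).take (α.length + j) = α ++ (γ ++ β).take j := by
      rw [List.append_assoc]
      simp [List.take_append]
    rw [e1, List.sum_append] at h3
    have h7 : 3 ^ (N * (α.length + j)) ≤ 2 ^ ((N - 1) * (e + (α.sum + ((γ ++ β).take j).sum))) := by
      calc 3 ^ (N * (α.length + j)) = 3 ^ (N * α.length) * 3 ^ (N * j) := by
            rw [← pow_add, Nat.mul_add]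
        _ ≤ 2 ^ ((N - 1) * (e + α.sum)) * 2 ^ ((N - 1) * ((γ ++ β).take j).sum) :=
            Nat.mul_le_mul h6 h5
        _ = 2 ^ ((N - 1) * (e + (α.sum + ((γ ++ β).take j).sum))) := by
            rw [← pow_add, ← Nat.mul_add, Nat.add_assoc]
    omega
  · rfl

end Pool.Agent.Lib.MP_d0d59f_nt.PW

end

section

/-! Row px-X16: bad integers have many odd steps. -/

namespace Pool.Agent.Lib.MP_d0d59f_nt.PX

open Finset
open Pool.Agent.Lib.MP_b27257_nt.BT (st ee)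

theorem x16_bern (N : ℤ) (hN : 0 ≤ N) (o : ℕ) (ho : (o : ℤ) ≤ N) :
    (N + 1) ^ o * (N - o) ≤ N ^ (o + 1) := by
  induction o with
  | zero => simp
  | succ o ih =>
    have ho' : (o : ℤ) ≤ N := by push_cast at ho; linarith
    have h1 := ih ho'
    have h2 : (N + 1) * (N - ((o + 1 : ℕ) : ℤ)) ≤ N * (N - o) := by
      push_cast
      nlinarith [Int.natCast_nonneg o]
    calc (N + 1) ^ (o + 1) * (N - ((o + 1 : ℕ) : ℤ))
        = (N + 1) ^ o * ((N + 1) * (N - ((o + 1 : ℕ) : ℤ))) := by ring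
      _ ≤ (N + 1) ^ o * (N * (N - o)) := mul_le_mul_of_nonneg_left h2 (by positivity)
      _ = N * ((N + 1) ^ o * (N - o)) := by ring
      _ ≤ N * N ^ (o + 1) := mul_le_mul_of_nonneg_left h1 hN
      _ = N ^ (o + 1 + 1) := by ring

theorem x16_two (N : ℤ) (hN : 0 < N) (o : ℕ) (ho : 2 * (o : ℤ) ≤ N) :
    (N + 1) ^ o ≤ 2 * N ^ o := by
  have h1 := x16_bern N hN.le o (by linarith [Int.natCast_nonneg o])
  have h2 : N ≤ 2 * (N - o) := by linarith
  have h3 : (N + 1) ^ o * N ≤ (2 * N ^ o) * N := by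
    calc (N + 1) ^ o * N ≤ (N + 1) ^ o * (2 * (N - o)) :=
          mul_le_mul_of_nonneg_left h2 (by positivity)
      _ = 2 * ((N + 1) ^ o * (N - o)) := by ring
      _ ≤ 2 * N ^ (o + 1) := by linarith
      _ = (2 * N ^ o) * N := by ring
  exact le_of_mul_le_mul_right h3 hN

theorem x16_iter {d : ℤ} (hd : Odd d) {g m : ℕ} (hg : 1 ≤ g) {z : ℤ}
    (hk : ∀ k ≤ m, g ≤ PW.ht d ((T d)^[k] z)) : ∀ j ≤ m,
    2 ^ j * (2 ^ g) ^ ones d z j * |(T d)^[j] z| ≤ 3 ^ ones d z j * (2 ^ g + 1) ^ ones d z j * |z| := by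
  have hd0 : d ≠ 0 := by rintro rfl; simp at hd
  intro j
  induction j with
  | zero => intro _; simp [ones_zero]
  | succ j ih =>
    intro hj
    have ih' := ih (by omega)
    have hy := (PW.le_ht_iff hd0 hg).1 (hk j (by omega))
    rw [Function.iterate_succ_apply', ones_succ]
    set y := (T d)^[j] z with hydef
    set o := ones d z j with hodef
    rcases Int.emod_two_eq_zero_or_one y with h0 | h1
    · have e1 := T_even (d := d) h0
      rw [if_neg (by omega), add_zero]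
      have e2 : 2 * |T d y| = |y| := by rw [← e1, abs_mul, abs_two, e1]
      calc 2 ^ (j + 1) * (2 ^ g) ^ o * |T d y| = 2 ^ j * (2 ^ g) ^ o * (2 * |T d y|) := by ring
        _ = 2 ^ j * (2 ^ g) ^ o * |y| := by rw [e2]
        _ ≤ _ := ih'
    · have e1 := T_odd hd h1
      rw [if_pos h1]
      have e2 : 2 * |T d y| ≤ 3 * |y| + |d| := by
        have : 2 * |T d y| = |3 * y + d| := by rw [← e1, abs_mul, abs_two]
        rw [this]
        refine (abs_add_le _ _).trans ?_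
        rw [abs_mul]
        norm_num
      have e3 : 2 ^ g * (2 * |T d y|) ≤ 3 * (2 ^ g + 1) * |y| := by
        have h5 : (0 : ℤ) < 2 ^ g := by positivity
        have h6 : 2 ^ g * (2 * |T d y|) ≤ 2 ^ g * (3 * |y| + |d|) := mul_le_mul_of_nonneg_left e2 h5.le
        have h7 : 0 ≤ |y| := abs_nonneg y
        nlinarith
      calc 2 ^ (j + 1) * (2 ^ g) ^ (o + 1) * |T d y|
          = 2 ^ j * (2 ^ g) ^ o * (2 ^ g * (2 * |T d y|)) := by ring
        _ ≤ 2 ^ j * (2 ^ g) ^ o * (3 * (2 ^ g + 1) * |y|) :=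
            mul_le_mul_of_nonneg_left e3 (by positivity)
        _ = 3 * (2 ^ g + 1) * (2 ^ j * (2 ^ g) ^ o * |y|) := by ring
        _ ≤ 3 * (2 ^ g + 1) * (3 ^ o * (2 ^ g + 1) ^ o * |z|) :=
            mul_le_mul_of_nonneg_left ih' (by positivity)
        _ = _ := by ring

/-- For an odd `y` with `|y| ≥ 2^g |d|`: `2 |T y| = |3 y + d| ≤ 3 |y| (1 + 2^(-g))`; so
`2^m |T^m z| ≤ 3^(ones) (1 + 2^(-g))^(ones) |z|` if `|T^k z| ≥ 2^g |d|` for `k < m` (induction), and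
`(1 + 2^(-g))^m ≤ exp(m/2^g) ≤ 2` if `2 m ≤ 2^g`. With `|T^m z| ≥ 2^g |d|`, `|z| < 2^(h+1) |d|`. -/
theorem ones_of_high {d : ℤ} (hd : Odd d) {g h m : ℕ} (hg : 1 ≤ g) {z : ℤ} (hz : PW.ht d z = h)
    (hk : ∀ k ≤ m, g ≤ PW.ht d ((T d)^[k] z)) (hm : 2 * m ≤ 2 ^ g) :
    2 ^ (m + g) ≤ 3 ^ ones d z m * 2 ^ (h + 2) := by
  have hd0 : d ≠ 0 := by rintro rfl; simp at hd
  have h1 := x16_iter hd hg hk m le_rfl
  have h2 := (PW.le_ht_iff hd0 hg).1 (hk m le_rfl)
  have h3 := PW.abs_lt_of_ht hd0 z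
  rw [hz] at h3
  set o := ones d z m with ho
  have ho' : o ≤ m := ones_le d z m
  have h4 : ((2 : ℤ) ^ g + 1) ^ o ≤ 2 * (2 ^ g) ^ o := by
    refine x16_two _ (by positivity) o ?_
    have : ((2 * m : ℕ) : ℤ) ≤ ((2 ^ g : ℕ) : ℤ) := by exact_mod_cast hm
    push_cast at this
    have : (o : ℤ) ≤ m := by exact_mod_cast ho'
    linarith
  have hdp : 0 < |d| := abs_pos.2 hd0
  have h5 : (2 : ℤ) ^ m * (2 ^ g) ^ o * (2 ^ g * |d|) ≤
      3 ^ o * (2 * (2 ^ g) ^ o) * (2 ^ (h + 1) * |d|) := by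
    calc (2 : ℤ) ^ m * (2 ^ g) ^ o * (2 ^ g * |d|) ≤ 2 ^ m * (2 ^ g) ^ o * |(T d)^[m] z| :=
          mul_le_mul_of_nonneg_left h2 (by positivity)
      _ ≤ 3 ^ o * (2 ^ g + 1) ^ o * |z| := h1
      _ ≤ 3 ^ o * (2 * (2 ^ g) ^ o) * |z| :=
          mul_le_mul_of_nonneg_right (mul_le_mul_of_nonneg_left h4 (by positivity)) (abs_nonneg z)
      _ ≤ 3 ^ o * (2 * (2 ^ g) ^ o) * (2 ^ (h + 1) * |d|) :=
          mul_le_mul_of_nonneg_left h3.le (by positivity)
  have h6 : (2 : ℤ) ^ (m + g) * ((2 ^ g) ^ o * |d|) ≤ (3 ^ o * 2 ^ (h + 2)) * ((2 ^ g) ^ o * |d|) := by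
    calc (2 : ℤ) ^ (m + g) * ((2 ^ g) ^ o * |d|) = 2 ^ m * (2 ^ g) ^ o * (2 ^ g * |d|) := by ring
      _ ≤ _ := h5
      _ = _ := by ring
  have h7 : (2 : ℤ) ^ (m + g) ≤ 3 ^ o * 2 ^ (h + 2) :=
    le_of_mul_le_mul_right h6 (by positivity)
  exact_mod_cast h7

end Pool.Agent.Lib.MP_d0d59f_nt.PX

end

section

/-! Row pw-Q12: the increment of the supersolution (compare PD/P16b). -/

namespace Pool.Agent.Lib.MP_d0d59f_nt.PW

open Finset

theorem q12_pht_nonneg (L : ℕ) (M : ℝ) (n j : ℕ) : 0 ≤ pht L M n j := by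
  unfold pht
  split_ifs
  · exact phi_nonneg M n j
  · exact le_refl 0

theorem q12_pht_le (L : ℕ) (M : ℝ) (n j : ℕ) : pht L M n j ≤ 40 := by
  unfold pht
  split_ifs
  · exact phi_le M n j
  · norm_num

/-- `|3 - 1| ≤ 2`, `pht ≤ 40`, `∑ 2^{-a} ≤ 1`. -/
theorem DU_abs (L : ℕ) (M : ℝ) (n j : ℕ) (z : ℤ) : |DU L M n j z / 40| ≤ 2 := by
  rw [abs_div, abs_of_pos (by norm_num : (0 : ℝ) < 40), div_le_iff₀ (by norm_num)]
  unfold DU
  split_ifs with hj
  · refine (abs_sum_le_sum_abs _ _).trans ?_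
    have h1 : ∀ a ∈ Icc 1 L, |((if (3 : ℤ) ∣ 2 ^ a * z - 1 then 3 else 0) - 1) *
        (1 / 2 : ℝ) ^ a * pht L M (n + 1) (j + a)| ≤ 80 * (1 / 2 : ℝ) ^ a := by
      intro a _
      rw [abs_mul, abs_mul, abs_of_nonneg (by positivity : (0 : ℝ) ≤ (1 / 2) ^ a),
        abs_of_nonneg (q12_pht_nonneg _ _ _ _)]
      have h2 : |((if (3 : ℤ) ∣ 2 ^ a * z - 1 then (3 : ℝ) else 0) - 1)| ≤ 2 := by
        split_ifs <;> norm_num
      have h3 := q12_pht_le L M (n + 1) (j + a)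
      have h4 := q12_pht_nonneg L M (n + 1) (j + a)
      have h5 : (0 : ℝ) ≤ (1 / 2) ^ a := by positivity
      calc |((if (3 : ℤ) ∣ 2 ^ a * z - 1 then (3 : ℝ) else 0) - 1)| * (1 / 2) ^ a *
            pht L M (n + 1) (j + a)
          ≤ 2 * (1 / 2) ^ a * 40 := by
            refine mul_le_mul (mul_le_mul_of_nonneg_right h2 h5) h3 h4 (by positivity)
        _ = 80 * (1 / 2) ^ a := by ring
    refine (sum_le_sum h1).trans ?_
    rw [← mul_sum, PD.p16_geom]
    have : (0 : ℝ) ≤ (1 / 2) ^ L := by positivity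
    linarith
  · rw [abs_zero]; norm_num

theorem DU_congr (L : ℕ) (M : ℝ) (n j : ℕ) {z z' : ℤ} (h : z ≡ z' [ZMOD 3]) :
    DU L M n j z / 40 = DU L M n j z' / 40 := by
  congr 1
  unfold DU
  split_ifs with hj
  · refine sum_congr rfl fun a _ => ?_
    have h1 : (3 : ℤ) ∣ 2 ^ a * z - 1 ↔ (3 : ℤ) ∣ 2 ^ a * z' - 1 := by
      have h2 : (3 : ℤ) ∣ (2 ^ a * z' - 1) - (2 ^ a * z - 1) := by
        have h3 := h.dvd
        have e : (2 ^ a * z' - 1) - (2 ^ a * z - 1) = 2 ^ a * (z' - z) := by ring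
        rw [e]
        exact Dvd.dvd.mul_left h3 _
      constructor
      · intro h4
        have := dvd_add h2 h4
        rwa [sub_add_cancel] at this
      · intro h4
        have := dvd_sub h4 h2
        rwa [sub_sub_cancel] at this
    by_cases h4 : (3 : ℤ) ∣ 2 ^ a * z - 1
    · rw [if_pos h4, if_pos (h1.1 h4)]
    · rw [if_neg h4, if_neg (fun h5 => h4 (h1.2 h5))]
  · rfl

theorem q12_mod (a : ℕ) : (2 : ℤ) ^ a % 3 = 1 ∨ (2 : ℤ) ^ a % 3 = 2 := by
  induction a with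
  | zero => left; norm_num
  | succ a ih =>
    rw [pow_succ]
    omega

theorem DU_zero (L : ℕ) (M : ℝ) (n j : ℕ) :
    DU L M n j 0 / 40 + DU L M n j 1 / 40 + DU L M n j 2 / 40 = 0 := by
  have key : DU L M n j 0 + DU L M n j 1 + DU L M n j 2 = 0 := by
    unfold DU
    split_ifs with hj
    · rw [← sum_add_distrib, ← sum_add_distrib]
      refine sum_eq_zero fun a _ => ?_
      have h0 : ¬ (3 : ℤ) ∣ 2 ^ a * 0 - 1 := by norm_num
      rw [if_neg h0]
      rcases q12_mod a with h | h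
      · have h1 : (3 : ℤ) ∣ 2 ^ a * 1 - 1 := by omega
        have h2 : ¬ (3 : ℤ) ∣ 2 ^ a * 2 - 1 := by omega
        rw [if_pos h1, if_neg h2]
        ring
      · have h1 : ¬ (3 : ℤ) ∣ 2 ^ a * 1 - 1 := by omega
        have h2 : (3 : ℤ) ∣ 2 ^ a * 2 - 1 := by omega
        rw [if_neg h1, if_pos h2]
        ring
    · norm_num
  linarith

theorem DU_trunc (L : ℕ) (M : ℝ) (n j : ℕ) (z : ℤ) (h : L < j) : DU L M n j z / 40 = 0 := by
  unfold DU
  rw [if_neg (by omega), zero_div]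

end Pool.Agent.Lib.MP_d0d59f_nt.PW

end

section

/-! Row pw-Q04: weights in the barrier. -/

namespace Pool.Agent.Lib.MP_d0d59f_nt.PW

open Finset

theorem q04_rho {N : ℕ} (hN : 21 ≤ N) : (1 / 3 : ℝ) ≤ (1 - 1 / (2 * (N : ℝ))) ^ (N - 1) := by
  have hN' : (21 : ℝ) ≤ N := by exact_mod_cast hN
  have h0 : (0 : ℝ) < 2 * N := by linarith
  have h1 : (-2 : ℝ) ≤ -(1 / (2 * (N : ℝ))) := by
    have : 1 / (2 * (N : ℝ)) ≤ 1 := by
      rw [div_le_one h0]; linarith
    linarith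
  have h2 := one_add_mul_le_pow h1 (N - 1)
  have h3 : ((N - 1 : ℕ) : ℝ) = (N : ℝ) - 1 := by
    rw [Nat.cast_sub (by omega)]; simp
  rw [h3] at h2
  have h4 : (1 / 3 : ℝ) ≤ 1 + ((N : ℝ) - 1) * -(1 / (2 * (N : ℝ))) := by
    have : ((N : ℝ) - 1) * (1 / (2 * (N : ℝ))) ≤ 1 / 2 := by
      rw [mul_one_div, div_le_iff₀ h0]; linarith
    linarith
  calc (1 / 3 : ℝ) ≤ _ := h4
    _ ≤ _ := h2
    _ = _ := by ring

/-- `(1 - 1/(2N))^(N-1) ≥ 1 - (N-1)/(2N) ≥ 1/3` (Bernoulli), so `3^(N n) ≤ 2^((N-1)(e+s))` gives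
`(3^n/2^s)^(N-1) ≤ 2^((N-1)e) 3^(-n) ≤ (2^e (1 - 1/(2N))^n)^(N-1)`; take roots (`lt_of_pow_lt_pow_left₀`,
`N - 1 ≠ 0`). -/
theorem wt_le_rho {N e n L : ℕ} (hN : 21 ≤ N) {α : List ℕ} (h : α ∈ Rq N e n L) :
    PD.wt α ≤ 2 ^ e * (1 - 1 / (2 * (N : ℝ))) ^ n := by
  obtain ⟨hl, _, _, hb⟩ := mem_Rq.1 h
  have hN' : (21 : ℝ) ≤ N := by exact_mod_cast hN
  have hρ0 : (0 : ℝ) ≤ 1 - 1 / (2 * (N : ℝ)) := by
    have : 1 / (2 * (N : ℝ)) ≤ 1 := by
      rw [div_le_one (by linarith)]; linarith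
    linarith
  have hb1 := hb n hl.ge
  rw [← hl, List.take_length, hl] at hb1
  have hb2 : (3 : ℝ) ^ (N * n) ≤ 2 ^ ((N - 1) * (e + α.sum)) := by exact_mod_cast hb1
  unfold PD.wt
  rw [hl]
  refine le_of_pow_le_pow_left₀ (n := N - 1) (by omega) (by positivity) ?_
  rw [div_pow, mul_pow, div_le_iff₀ (by positivity)]
  have h1 : ((1 : ℝ) / 3) ^ n ≤ ((1 - 1 / (2 * (N : ℝ))) ^ n) ^ (N - 1) := by
    rw [← pow_mul, mul_comm n, pow_mul]
    exact pow_le_pow_left₀ (by norm_num) (q04_rho hN) n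
  have h2 : ((3 : ℝ) ^ n) ^ (N - 1) * 3 ^ n = 3 ^ (N * n) := by
    rw [← pow_mul, ← pow_add]
    congr 1
    obtain ⟨k, rfl⟩ : ∃ k, N = k + 1 := ⟨N - 1, by omega⟩
    simp only [Nat.add_sub_cancel]; ring
  have h3 : (2 : ℝ) ^ ((N - 1) * (e + α.sum)) = ((2 : ℝ) ^ e) ^ (N - 1) * ((2 : ℝ) ^ α.sum) ^ (N - 1) := by
    rw [← pow_mul, ← pow_mul, ← pow_add]
    congr 1; ring
  have h4 : ((3 : ℝ) ^ n) ^ (N - 1) ≤ ((2 : ℝ) ^ e) ^ (N - 1) * ((2 : ℝ) ^ α.sum) ^ (N - 1) * (1 / 3) ^ n := by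
    rw [← h3, one_div, inv_pow, ← div_eq_mul_inv, le_div_iff₀ (by positivity), h2]
    exact hb2
  calc ((3 : ℝ) ^ n) ^ (N - 1) ≤ _ := h4
    _ ≤ ((2 : ℝ) ^ e) ^ (N - 1) * ((2 : ℝ) ^ α.sum) ^ (N - 1) * ((1 - 1 / (2 * (N : ℝ))) ^ n) ^ (N - 1) :=
        mul_le_mul_of_nonneg_left h1 (by positivity)
    _ = _ := by ring

/-- `(1 - 1/(2N))^(4N) ≤ exp(-2) ≤ 1/3` (`Real.add_one_le_exp`), and `4 N k ≤ n`. -/
theorem rho_pow {N k n : ℕ} (hN : 21 ≤ N) (hk : 4 * N * k ≤ n) :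
    (1 - 1 / (2 * (N : ℝ))) ^ n * 3 ^ k ≤ 1 := by
  have hN' : (21 : ℝ) ≤ N := by exact_mod_cast hN
  have hρ0 : (0 : ℝ) ≤ 1 - 1 / (2 * (N : ℝ)) := by
    have : 1 / (2 * (N : ℝ)) ≤ 1 := by
      rw [div_le_one (by linarith)]; linarith
    linarith
  have hρ1 : 1 - 1 / (2 * (N : ℝ)) ≤ 1 := by
    have : 0 ≤ 1 / (2 * (N : ℝ)) := by positivity
    linarith
  have h1 : 1 - 1 / (2 * (N : ℝ)) ≤ Real.exp (-(1 / (2 * (N : ℝ)))) := by
    have := Real.add_one_le_exp (-(1 / (2 * (N : ℝ))))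
    linarith
  have h2 : (1 - 1 / (2 * (N : ℝ))) ^ (4 * N) ≤ Real.exp (-2) := by
    calc _ ≤ (Real.exp (-(1 / (2 * (N : ℝ))))) ^ (4 * N) := pow_le_pow_left₀ hρ0 h1 _
      _ = Real.exp (-2) := by
          rw [← Real.exp_nat_mul]
          congr 1
          push_cast
          field_simp
          norm_num
  have h3 : Real.exp (-2) ≤ 1 / 3 := by
    rw [Real.exp_neg, inv_eq_one_div]
    apply one_div_le_one_div_of_le (by norm_num)
    have := Real.add_one_le_exp (2 : ℝ)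
    linarith
  calc (1 - 1 / (2 * (N : ℝ))) ^ n * 3 ^ k ≤ (1 - 1 / (2 * (N : ℝ))) ^ (4 * N * k) * 3 ^ k :=
        mul_le_mul_of_nonneg_right (pow_le_pow_of_le_one hρ0 hρ1 hk) (by positivity)
    _ = ((1 - 1 / (2 * (N : ℝ))) ^ (4 * N) * 3) ^ k := by rw [pow_mul, mul_pow]
    _ ≤ 1 ^ k := by
        refine pow_le_pow_left₀ (by positivity) ?_ k
        linarith
    _ = 1 := one_pow k

end Pool.Agent.Lib.MP_d0d59f_nt.PW

end
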