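import Pool.Agent.Lib.MP_d0d59f_nt.PZ.K008
import Pool.Agent.Lib.MP_d0d59f_nt.PZ.K011

section

/-! Row pd-P10a. -/

namespace Pool.Agent.Lib.MP_d0d59f_nt.PD

open Finset

open Classical in
/-- Marginal: for `j ≤ k`, `f ≥ 0`: `∑_{γ ∈ Wd k L} 2^{-|γ|} f (|γ.take j|) ≤ ∑_{l ≤ L} nb j l * f l`.
(Split `γ = γ.take j ++ γ.drop j`, the second parts have total mass `≤ 1` by `AA.sum_nb_le_one`; compare
`AA.marginal_le`, `AA.sum_comps_add`.) -/
theorem prefix_le {j k L : ℕ} (hj : j ≤ k) (f : ℕ → ℝ) (hf : ∀ l, 0 ≤ f l) :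
    ∑ γ ∈ Wd k L, (1 / 2 : ℝ) ^ γ.sum * f (γ.take j).sum ≤ ∑ l ∈ range (L + 1), AA.nb j l * f l := by
  obtain ⟨n, rfl⟩ := Nat.exists_eq_add_of_le hj
  rw [sum_Wd]
  have h1 : ∀ l ∈ range (L + 1), ∑ γ ∈ AA.comps (j + n) l, (1 / 2 : ℝ) ^ γ.sum * f (γ.take j).sum =
      (1 / 2 : ℝ) ^ l * ∑ γ ∈ AA.comps (j + n) l, f (γ.take j).sum := by
    intro l _
    rw [Finset.mul_sum]
    refine Finset.sum_congr rfl fun γ hγ => ?_
    rw [(AA.mem_comps.1 hγ).2.1]
  rw [Finset.sum_congr rfl h1]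
  refine (AA.marginal_le j n L (fun e => f e.sum) (fun e => hf _)).trans (le_of_eq ?_)
  refine Finset.sum_congr rfl fun l _ => ?_
  have h2 : ∀ e ∈ AA.comps j l, f e.sum = f l := by
    intro e he
    rw [(AA.mem_comps.1 he).2.1]
  rw [Finset.sum_congr rfl h2, Finset.sum_const, nsmul_eq_mul]
  unfold AA.nb
  ring

end Pool.Agent.Lib.MP_d0d59f_nt.PD

end

section

/-! Row pd-P10b. -/

namespace Pool.Agent.Lib.MP_d0d59f_nt.PD

open Finset

open Classical in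
/-- With `s = 93/100`: the indicator of `3 l + c < 5 j` is at most `s^(3l+c)/s^(5j)`; `prefix_le` and
`AA.sum_nb_mul_pow_le` with `x = s^3`: `≤ s^c (s^3/((2-s^3) s^5))^j`, and `1/(s^2 (2 - s^3)) ≤ 97/100`. -/
theorem low_tail {j k L : ℕ} (hj : j ≤ k) (c : ℕ) :
    ∑ γ ∈ Wd k L, (if 3 * (γ.take j).sum + c < 5 * j then (1 / 2 : ℝ) ^ γ.sum else 0) ≤
      (93 / 100) ^ c * (97 / 100) ^ j := by
  have h0 : ∀ γ ∈ Wd k L, (if 3 * (γ.take j).sum + c < 5 * j then (1 / 2 : ℝ) ^ γ.sum else 0) ≤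
      (1 / 2 : ℝ) ^ γ.sum * (fun l : ℕ => (93 / 100 : ℝ) ^ (3 * l + c) * ((93 / 100 : ℝ)⁻¹) ^ (5 * j))
        (γ.take j).sum := by
    intro γ _
    simp only
    split_ifs with h
    · refine le_mul_of_one_le_right (by positivity) ?_
      obtain ⟨m, hm⟩ := Nat.exists_eq_add_of_le h.le
      rw [hm, pow_add ((93 / 100 : ℝ)⁻¹), ← mul_assoc, ← mul_pow, mul_inv_cancel₀ (by norm_num), one_pow,
        one_mul]
      exact one_le_pow₀ (by norm_num)
    · positivity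
  refine (Finset.sum_le_sum h0).trans ((prefix_le hj
    (fun l : ℕ => (93 / 100 : ℝ) ^ (3 * l + c) * ((93 / 100 : ℝ)⁻¹) ^ (5 * j))
    (fun l => by positivity)).trans ?_)
  have h1 : ∀ l ∈ range (L + 1), AA.nb j l *
      (fun l : ℕ => (93 / 100 : ℝ) ^ (3 * l + c) * ((93 / 100 : ℝ)⁻¹) ^ (5 * j)) l =
      ((93 / 100 : ℝ) ^ c * ((93 / 100 : ℝ)⁻¹) ^ (5 * j)) * (AA.nb j l * ((93 / 100 : ℝ) ^ 3) ^ l) := by
    intro l _
    simp only
    rw [pow_add, pow_mul]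
    ring
  rw [Finset.sum_congr rfl h1, ← Finset.mul_sum]
  have h2 := AA.sum_nb_mul_pow_le j L ((93 / 100 : ℝ) ^ 3) (by norm_num) (by norm_num)
  refine (mul_le_mul_of_nonneg_left h2 (by positivity)).trans ?_
  rw [mul_assoc, pow_mul, ← mul_pow]
  refine mul_le_mul_of_nonneg_left (pow_le_pow_left₀ (by norm_num) ?_ j) (by positivity)
  norm_num

open Classical in
/-- The indicator of `3 j + c < l` is at most `(3/2)^l/(3/2)^(3j+c)`; `AA.sum_nb_mul_pow_le` with `x = 3/2`: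
`(3 (8/27))^j = (8/9)^j ≤ (97/100)^j`. -/
theorem high_tail {j k L : ℕ} (hj : j ≤ k) (c : ℕ) :
    ∑ γ ∈ Wd k L, (if 3 * j + c < (γ.take j).sum then (1 / 2 : ℝ) ^ γ.sum else 0) ≤
      (2 / 3) ^ c * (97 / 100) ^ j := by
  have h0 : ∀ γ ∈ Wd k L, (if 3 * j + c < (γ.take j).sum then (1 / 2 : ℝ) ^ γ.sum else 0) ≤
      (1 / 2 : ℝ) ^ γ.sum * (fun l : ℕ => (2 / 3 : ℝ) ^ (3 * j + c) * (3 / 2 : ℝ) ^ l)
        (γ.take j).sum := by
    intro γ _
    simp only
    split_ifs with h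
    · refine le_mul_of_one_le_right (by positivity) ?_
      obtain ⟨m, hm⟩ := Nat.exists_eq_add_of_le h.le
      rw [hm, pow_add (3 / 2 : ℝ), ← mul_assoc, ← mul_pow]
      norm_num
      exact one_le_pow₀ (by norm_num)
    · positivity
  refine (Finset.sum_le_sum h0).trans ((prefix_le hj
    (fun l : ℕ => (2 / 3 : ℝ) ^ (3 * j + c) * (3 / 2 : ℝ) ^ l)
    (fun l => by positivity)).trans ?_)
  have h1 : ∀ l ∈ range (L + 1), AA.nb j l *
      (fun l : ℕ => (2 / 3 : ℝ) ^ (3 * j + c) * (3 / 2 : ℝ) ^ l) l =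
      (2 / 3 : ℝ) ^ (3 * j + c) * (AA.nb j l * (3 / 2 : ℝ) ^ l) := by
    intro l _
    simp only
    ring
  rw [Finset.sum_congr rfl h1, ← Finset.mul_sum]
  have h2 := AA.sum_nb_mul_pow_le j L (3 / 2 : ℝ) (by norm_num) (by norm_num)
  refine (mul_le_mul_of_nonneg_left h2 (by positivity)).trans ?_
  rw [pow_add, mul_comm ((2 / 3 : ℝ) ^ (3 * j)), mul_assoc, pow_mul, ← mul_pow]
  refine mul_le_mul_of_nonneg_left (pow_le_pow_left₀ (by norm_num) ?_ j) (by positivity)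
  norm_num

end Pool.Agent.Lib.MP_d0d59f_nt.PD

end

section

/-! Row pw-Q05: words with large sums. -/

namespace Pool.Agent.Lib.MP_d0d59f_nt.PW

open Finset

/-- `∑_{Wd n L, 10 n < sum} 2^{-sum} ≤ (2/3)^(10 n) ∑_l nb n l (3/2)^l ≤ (2/3)^(10 n) 3^n ≤ (1/15)^n`
(`PD.sum_Wd`, `AA.sum_nb_mul_pow_le` with `x = 3/2`; `(2/3)^10 * 3 ≤ 1/15`: `(2/3)^10 = 1024/59049`, times `3` is
`0.0520`). -/
theorem big_half (n L : ℕ) :
    ∑ α ∈ PD.Wd n L, (if 10 * n < α.sum then (1 / 2 : ℝ) ^ α.sum else 0) ≤ (1 / 15) ^ n := by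
  rw [PD.sum_Wd]
  have h1 : ∀ l ∈ range (L + 1), ∑ α ∈ AA.comps n l,
      (if 10 * n < α.sum then (1 / 2 : ℝ) ^ α.sum else 0) ≤
      (2 / 3 : ℝ) ^ (10 * n) * (AA.nb n l * (3 / 2) ^ l) := by
    intro l _
    have h2 : ∀ α ∈ AA.comps n l, (if 10 * n < α.sum then (1 / 2 : ℝ) ^ α.sum else 0) ≤
        (2 / 3 : ℝ) ^ (10 * n) * ((1 / 2 : ℝ) ^ l * (3 / 2) ^ l) := by
      intro α hα
      have hs : α.sum = l := (AA.mem_comps.1 hα).2.1
      rw [hs]
      split_ifs with h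
      · have h3 : (1 : ℝ) ≤ (2 / 3 : ℝ) ^ (10 * n) * (3 / 2) ^ l := by
          have h4 : ((3 : ℝ) / 2) ^ (10 * n) ≤ (3 / 2) ^ l :=
            pow_le_pow_right₀ (by norm_num) h.le
          have h5 : (2 / 3 : ℝ) ^ (10 * n) * (3 / 2) ^ (10 * n) = 1 := by
            rw [← mul_pow]; norm_num
          calc (1 : ℝ) = (2 / 3 : ℝ) ^ (10 * n) * (3 / 2) ^ (10 * n) := h5.symm
            _ ≤ _ := by gcongr
        have h6 : (0 : ℝ) ≤ (1 / 2 : ℝ) ^ l := by positivity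
        nlinarith
      · positivity
    refine (Finset.sum_le_sum h2).trans (le_of_eq ?_)
    rw [Finset.sum_const, nsmul_eq_mul]
    unfold AA.nb
    ring
  refine (Finset.sum_le_sum h1).trans ?_
  rw [← Finset.mul_sum]
  have h7 := AA.sum_nb_mul_pow_le n L (3 / 2) (by norm_num) (by norm_num)
  calc (2 / 3 : ℝ) ^ (10 * n) * ∑ l ∈ range (L + 1), AA.nb n l * (3 / 2) ^ l
      ≤ (2 / 3 : ℝ) ^ (10 * n) * ((3 / 2) / (2 - 3 / 2)) ^ n := by gcongr
    _ = (((2 / 3 : ℝ) ^ 10) * 3) ^ n := by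
        rw [mul_pow, pow_mul]; norm_num
    _ ≤ (1 / 15) ^ n := by
        apply pow_le_pow_left₀ (by norm_num)
        norm_num

/-- `wt α = 3^n (1/2)^α.sum`. -/
theorem big_wt (n L : ℕ) :
    ∑ α ∈ PD.Wd n L, (if 10 * n < α.sum then PD.wt α else 0) ≤ (1 / 5) ^ n := by
  have h1 : ∀ α ∈ PD.Wd n L, (if 10 * n < α.sum then PD.wt α else 0) =
      3 ^ n * (if 10 * n < α.sum then (1 / 2 : ℝ) ^ α.sum else 0) := by
    intro α hα
    have hl : α.length = n := (PD.mem_Wd.1 hα).1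
    split_ifs with h
    · unfold PD.wt
      rw [hl, one_div, inv_pow, div_eq_mul_inv]
    · simp
  rw [Finset.sum_congr rfl h1, ← Finset.mul_sum]
  calc (3 : ℝ) ^ n * ∑ α ∈ PD.Wd n L, (if 10 * n < α.sum then (1 / 2 : ℝ) ^ α.sum else 0)
      ≤ 3 ^ n * (1 / 15) ^ n := by
        gcongr
        exact big_half n L
    _ = (1 / 5) ^ n := by rw [← mul_pow]; norm_num

end Pool.Agent.Lib.MP_d0d59f_nt.PW

end

section

/-! Row pw-Q02: splitting the sums (compare PD/P03a). -/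

namespace Pool.Agent.Lib.MP_d0d59f_nt.PW

open Finset

open Classical in
theorem q02_split {N e p m L : ℕ} (f : List ℕ → ℝ) :
    ∑ α ∈ Rq N e (p + m) L, f α =
      ∑ α ∈ Rq N e p L, ∑ β ∈ PD.Wd m L,
        if lbar N e (α ++ β) ∧ (α ++ β).sum ≤ L then f (α ++ β) else 0 := by
  rw [← Finset.sum_product' (Rq N e p L) (PD.Wd m L)
      fun α β => if lbar N e (α ++ β) ∧ (α ++ β).sum ≤ L then f (α ++ β) else 0,
    ← Finset.sum_filter]
  refine Finset.sum_bij' (fun γ _ => (γ.take p, γ.drop p)) (fun q _ => q.1 ++ q.2) ?_ ?_ ?_ ?_ ?_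
  · intro γ hγ
    rw [mem_Rq] at hγ
    obtain ⟨h1, h2, h3, h4⟩ := hγ
    have hsplit : γ.take p ++ γ.drop p = γ := List.take_append_drop p γ
    have h5 : (γ.take p).sum + (γ.drop p).sum = γ.sum := by
      rw [← List.sum_append, hsplit]
    rw [mem_filter, mem_product, mem_Rq, PD.mem_Wd]
    refine ⟨⟨⟨?_, ?_, ?_, ?_⟩, ?_, ?_, ?_⟩, ?_, ?_⟩
    · simp only [List.length_take, h1]
      omega
    · simp only
      omega
    · intro a ha
      exact h3 a (List.mem_of_mem_take ha)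
    · refine lbar_prefix (β := γ.drop p) ?_
      simp only [hsplit]
      exact h4
    · simp only [List.length_drop, h1]
      omega
    · simp only
      omega
    · intro a ha
      exact h3 a (List.mem_of_mem_drop ha)
    · simp only [hsplit]
      exact h4
    · simp only [hsplit]
      exact h2
  · intro q hq
    rw [mem_filter, mem_product, mem_Rq, PD.mem_Wd] at hq
    obtain ⟨⟨⟨h1, _, h2, _⟩, h4, _, h6⟩, h7, h8⟩ := hq
    rw [mem_Rq]
    refine ⟨by rw [List.length_append, h1, h4], h8, ?_, h7⟩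
    intro a ha
    rcases List.mem_append.mp ha with h | h
    · exact h2 a h
    · exact h6 a h
  · intro γ _
    exact List.take_append_drop p γ
  · intro q hq
    rw [mem_filter, mem_product, mem_Rq, PD.mem_Wd] at hq
    obtain ⟨⟨⟨h1, _, _⟩, _⟩, _⟩ := hq
    ext1
    · simp only
      rw [← h1, List.take_left]
    · simp only
      rw [← h1, List.drop_left]
  · intro γ _
    simp only [List.take_append_drop]

open Classical in
theorem q02_EQ {N e p m L : ℕ} (f : List ℕ → ℤ → ℝ) (x : ℤ) :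
    EQ N e (p + m) L f x = EQ N e p L (fun α z => ∑ β ∈ PD.Wd m L,
      if (PD.vd β z ∧ lbar N e (α ++ β)) ∧ (α ++ β).sum ≤ L then
        PD.wt β * f (α ++ β) (PD.nd β z) else 0) x := by
  unfold EQ
  rw [q02_split]
  refine Finset.sum_congr rfl fun α _ => ?_
  by_cases hv : PD.vd α x
  · rw [if_pos hv, Finset.mul_sum]
    refine Finset.sum_congr rfl fun β _ => ?_
    by_cases hb : lbar N e (α ++ β) ∧ (α ++ β).sum ≤ L
    · rw [if_pos hb]
      by_cases hw : PD.vd β (PD.nd α x)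
      · rw [if_pos (PD.vd_append.mpr ⟨hv, hw⟩), if_pos ⟨⟨hw, hb.1⟩, hb.2⟩, PD.wt_append,
          PD.nd_append hv, mul_assoc]
      · rw [if_neg fun h => hw (PD.vd_append.mp h).2, if_neg fun h => hw h.1.1, mul_zero]
    · rw [if_neg hb, if_neg fun h => hb ⟨h.1.2, h.2⟩, mul_zero]
  · rw [if_neg hv]
    refine Finset.sum_eq_zero fun β _ => ?_
    rw [if_neg fun h => hv (PD.vd_append.mp h).1, ite_self]

open Classical in
/-- As `PD.sum_Rn_split`/`PD.EE_split`: bijection `α ↦ (α.take p, α.drop p)` between the words `α` of length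
`p + m` and the pairs; the pairs with `(α' ++ β).sum > L` contribute `0` by `hf`. -/
theorem EQ_split {N e p m L : ℕ} (f : List ℕ → ℤ → ℝ) (hf : ∀ α z, L < α.sum → f α z = 0) (x : ℤ) :
    EQ N e (p + m) L f x = EQ N e p L (fun α z => ∑ β ∈ PD.Wd m L,
      if PD.vd β z ∧ lbar N e (α ++ β) then PD.wt β * f (α ++ β) (PD.nd β z) else 0) x := by
  rw [q02_EQ]
  unfold EQ
  refine Finset.sum_congr rfl fun α _ => ?_
  by_cases hv : PD.vd α x
  · rw [if_pos hv, if_pos hv]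
    congr 1
    refine Finset.sum_congr rfl fun β _ => ?_
    by_cases hs : (α ++ β).sum ≤ L
    · by_cases hb : PD.vd β (PD.nd α x) ∧ lbar N e (α ++ β)
      · rw [if_pos ⟨hb, hs⟩, if_pos hb]
      · rw [if_neg fun h => hb h.1, if_neg hb]
    · rw [if_neg fun h => hs h.2, hf _ _ (not_le.mp hs), mul_zero, ite_self]
  · rw [if_neg hv, if_neg hv]

open Classical in
/-- For `f ≥ 0` the pairs with `(α' ++ β).sum > L` only help. -/
theorem EQ_split_le {N e p m L : ℕ} (f : List ℕ → ℤ → ℝ) (hf : ∀ α z, 0 ≤ f α z) (x : ℤ) :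
    EQ N e (p + m) L f x ≤ EQ N e p L (fun α z => ∑ β ∈ PD.Wd m L,
      if PD.vd β z ∧ lbar N e (α ++ β) then PD.wt β * f (α ++ β) (PD.nd β z) else 0) x := by
  rw [q02_EQ]
  unfold EQ
  have hw0 : ∀ γ : List ℕ, 0 ≤ PD.wt γ := fun γ => by unfold PD.wt; positivity
  refine Finset.sum_le_sum fun α _ => ?_
  by_cases hv : PD.vd α x
  · rw [if_pos hv, if_pos hv]
    refine mul_le_mul_of_nonneg_left ?_ (hw0 α)
    refine Finset.sum_le_sum fun β _ => ?_
    by_cases hb : PD.vd β (PD.nd α x) ∧ lbar N e (α ++ β)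
    · by_cases hs : (α ++ β).sum ≤ L
      · rw [if_pos ⟨hb, hs⟩, if_pos hb]
      · rw [if_neg fun h => hs h.2, if_pos hb]
        exact mul_nonneg (hw0 β) (hf _ _)
    · rw [if_neg fun h => hb h.1, if_neg hb]
  · rw [if_neg hv, if_neg hv]

end Pool.Agent.Lib.MP_d0d59f_nt.PW

end
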