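import Pool.Agent.Lib.MP_d0d59f_nt.PZ.K013
import Pool.Agent.Lib.MP_d0d59f_nt.PZ.K017

section

/-! Row pw-Q03: rules for EQ (copy of PD/P03b). -/

namespace Pool.Agent.Lib.MP_d0d59f_nt.PW

open Finset

theorem EQ_mono {N e n L : ℕ} {f g : List ℕ → ℤ → ℝ} (h : ∀ α ∈ Rq N e n L, ∀ z, f α z ≤ g α z) (x : ℤ) :
    EQ N e n L f x ≤ EQ N e n L g x := by
  unfold EQ
  refine Finset.sum_le_sum fun α hα => ?_
  split_ifs with hv
  · exact mul_le_mul_of_nonneg_left (h α hα _) (PD.wt_pos α).le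
  · exact le_rfl

theorem EQ_nonneg {N e n L : ℕ} {f : List ℕ → ℤ → ℝ} (h : ∀ α ∈ Rq N e n L, ∀ z, 0 ≤ f α z) (x : ℤ) :
    0 ≤ EQ N e n L f x := by
  unfold EQ
  refine Finset.sum_nonneg fun α hα => ?_
  split_ifs with hv
  · exact mul_nonneg (PD.wt_pos α).le (h α hα _)
  · exact le_rfl

theorem EQ_add (N e n L : ℕ) (f g : List ℕ → ℤ → ℝ) (x : ℤ) :
    EQ N e n L (fun α z => f α z + g α z) x = EQ N e n L f x + EQ N e n L g x := by
  unfold EQ
  rw [← Finset.sum_add_distrib]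
  refine Finset.sum_congr rfl fun α _ => ?_
  split_ifs with hv
  · exact mul_add _ _ _
  · exact (add_zero 0).symm

theorem EQ_sub (N e n L : ℕ) (f g : List ℕ → ℤ → ℝ) (x : ℤ) :
    EQ N e n L (fun α z => f α z - g α z) x = EQ N e n L f x - EQ N e n L g x := by
  unfold EQ
  rw [← Finset.sum_sub_distrib]
  refine Finset.sum_congr rfl fun α _ => ?_
  split_ifs with hv
  · exact mul_sub _ _ _
  · exact (sub_zero 0).symm

theorem EQ_smul (N e n L : ℕ) (c : ℝ) (f : List ℕ → ℤ → ℝ) (x : ℤ) :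
    EQ N e n L (fun α z => c * f α z) x = c * EQ N e n L f x := by
  unfold EQ
  rw [Finset.mul_sum]
  refine Finset.sum_congr rfl fun α _ => ?_
  split_ifs with hv
  · ring
  · exact (mul_zero c).symm

theorem EQ_abs (N e n L : ℕ) (f : List ℕ → ℤ → ℝ) (x : ℤ) :
    |EQ N e n L f x| ≤ EQ N e n L (fun α z => |f α z|) x := by
  unfold EQ
  refine (Finset.abs_sum_le_sum_abs _ _).trans (Finset.sum_le_sum fun α _ => ?_)
  split_ifs with hv
  · rw [abs_mul, abs_of_pos (PD.wt_pos α)]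
  · rw [abs_zero]

end Pool.Agent.Lib.MP_d0d59f_nt.PW

end

section

/-! Row pw-Q09: leaving the barrier (compare PD/P13b). -/

namespace Pool.Agent.Lib.MP_d0d59f_nt.PW

open Finset

theorem q09_pairs (s t L0 L : ℕ) (P : List ℕ → Prop) [DecidablePred P] :
    ∑ γ ∈ PD.Wd s L0, ∑ β ∈ PD.Wd t L, (if P (γ ++ β) then PD.wt (γ ++ β) else 0) ≤
      ∑ δ ∈ PD.Wd (s + t) (L0 + L), (if P δ then PD.wt δ else 0) := by
  rw [← Finset.sum_product']
  have hinj : Set.InjOn (fun p : List ℕ × List ℕ => p.1 ++ p.2)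
      ((PD.Wd s L0 ×ˢ PD.Wd t L : Finset (List ℕ × List ℕ)) : Set (List ℕ × List ℕ)) := by
    rintro ⟨γ, β⟩ h1 ⟨γ', β'⟩ h2 h
    rw [Finset.mem_coe, Finset.mem_product] at h1 h2
    have l1 := (PD.mem_Wd.1 h1.1).1
    have l2 := (PD.mem_Wd.1 h2.1).1
    simp only at h l1 l2
    have h3 := List.append_inj h (by rw [l1, l2])
    rw [h3.1, h3.2]
  rw [← Finset.sum_image (f := fun δ => if P δ then PD.wt δ else 0) hinj]
  refine Finset.sum_le_sum_of_subset_of_nonneg ?_ ?_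
  · intro δ hδ
    obtain ⟨⟨γ, β⟩, hp, rfl⟩ := Finset.mem_image.1 hδ
    rw [Finset.mem_product] at hp
    have h1 := PD.mem_Wd.1 hp.1
    have h2 := PD.mem_Wd.1 hp.2
    simp only at h1 h2 ⊢
    rw [PD.mem_Wd]
    refine ⟨?_, ?_, ?_⟩
    · rw [List.length_append, h1.1, h2.1]
    · rw [List.sum_append]
      omega
    · intro a ha
      rcases List.mem_append.1 ha with h | h
      · exact h1.2.2 a h
      · exact h2.2.2 a h
  · intro δ _ _
    split_ifs
    · exact (PD.wt_pos δ).le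
    · exact le_refl _

open Classical in
/-- `EQ_split_le` with `p = q`, `m = s`; for `α ∈ Rq N e q L` and every `z` the pairs `(γ, β)` with `γ ∈ Wd s L`,
`β ∈ Wd t L` give different words `γ ++ β ∈ Wd (s+t) (2 L)`, with `vd (γ ++ β) z` (`PD.vd_append`) and
`PD.bad s (s+t)` (`bad_of_exit`). See the proof of `PD.exit_le`. -/
theorem exit_le {N : ℕ} (hN : 21 ≤ N) (e q s t L : ℕ) (x : ℤ) :
    EQ N e (q + s) L (fun α z => ∑ β ∈ PD.Wd t L,
      if PD.vd β z ∧ ¬ lbar N e (α ++ β) then PD.wt β else 0) x ≤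
      EQ N e q L (fun _ z => PD.Vb s (s + t) (2 * L) z) x := by
  refine (EQ_split_le (p := q) (m := s) (L := L) _ (fun α z => ?_) x).trans ?_
  · refine Finset.sum_nonneg fun β _ => ?_
    split_ifs
    · exact (PD.wt_pos _).le
    · exact le_refl _
  refine EQ_mono (fun α hα z => ?_) x
  unfold PD.Vb
  rw [two_mul]
  refine le_trans ?_ (q09_pairs s t L L (fun δ => PD.vd δ z ∧ PD.bad s (s + t) δ))
  refine Finset.sum_le_sum fun γ hγ => ?_
  have hlγ := (PD.mem_Wd.1 hγ).1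
  split_ifs with hc
  · rw [Finset.mul_sum]
    refine Finset.sum_le_sum fun β hβ => ?_
    have hlβ := (PD.mem_Wd.1 hβ).1
    by_cases hd : PD.vd β (PD.nd γ z) ∧ ¬ lbar N e (α ++ γ ++ β)
    · rw [if_pos hd]
      have h1 : PD.vd (γ ++ β) z := PD.vd_append.2 ⟨hc.1, hd.1⟩
      have h2 := bad_of_exit hN hc.2 hd.2
      rw [hlγ, hlβ] at h2
      rw [if_pos ⟨h1, h2⟩, PD.wt_append]
    · rw [if_neg hd, mul_zero]
      split_ifs
      · exact (PD.wt_pos _).le
      · exact le_refl _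
  · refine Finset.sum_nonneg fun β _ => ?_
    split_ifs
    · exact (PD.wt_pos _).le
    · exact le_refl _

end Pool.Agent.Lib.MP_d0d59f_nt.PW

end

section

/-! Row pw-Q06: density bound (compare PD/P07). -/

namespace Pool.Agent.Lib.MP_d0d59f_nt.PW

open Finset

theorem q06_mem {N e n L : ℕ} {α : List ℕ} (h : α ∈ Rq N e n L) :
    α.length = n ∧ α.sum ≤ L ∧ (∀ a ∈ α, 1 ≤ a) := by
  classical
  unfold Rq at h
  have h1 := (Finset.mem_filter.1 h).1
  exact PD.mem_Wd.1 h1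

open Classical in
theorem q06_fix {N e n k L : ℕ} (hN : 21 ≤ N) (hk : 4 * N * k ≤ n) {h : ℤ → ℝ} (h0 : ∀ z, 0 ≤ h z)
    (hper : ∀ z z' : ℤ, z ≡ z' [ZMOD 3 ^ k] → h z = h z') (x : ℤ) (l : ℕ) :
    ∑ α ∈ (Rq N e n L).filter (fun α => α.sum = l), (if PD.vd α x then PD.wt α * h (PD.nd α x) else 0) ≤
      (N + 2) * 2 ^ e * ((∑ c ∈ range (3 ^ k), h (c : ℤ)) / 3 ^ k) := by
  have hH : 0 ≤ ∑ c ∈ range (3 ^ k), h (c : ℤ) := Finset.sum_nonneg fun c _ => h0 _
  set H : ℝ := ∑ c ∈ range (3 ^ k), h (c : ℤ) with hHdef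
  have h3k : (1 : ℝ) ≤ 3 ^ k := one_le_pow₀ (by norm_num)
  have h3k0 : (0 : ℝ) < 3 ^ k := by positivity
  have h3n0 : (0 : ℝ) < 3 ^ n := by positivity
  have h2l0 : (0 : ℝ) < 2 ^ l := by positivity
  have h2e0 : (0 : ℝ) < 2 ^ e := by positivity
  by_cases hemp : (Rq N e n L).filter (fun α => α.sum = l) = ∅
  · rw [hemp, Finset.sum_empty]
    positivity
  · obtain ⟨α₀, hα₀⟩ := Finset.nonempty_iff_ne_empty.2 hemp
    have hα₀' := Finset.mem_filter.1 hα₀
    have hratio : (3 : ℝ) ^ n / 2 ^ l ≤ 2 ^ e / 3 ^ k := by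
      have h1 := wt_le_rho hN hα₀'.1
      have h2 := rho_pow hN hk
      unfold PD.wt at h1
      rw [hα₀'.2, (q06_mem hα₀'.1).1] at h1
      rw [le_div_iff₀ h3k0]
      calc (3 : ℝ) ^ n / 2 ^ l * 3 ^ k ≤ (2 ^ e * (1 - 1 / (2 * (N : ℝ))) ^ n) * 3 ^ k :=
            mul_le_mul_of_nonneg_right h1 h3k0.le
        _ = 2 ^ e * ((1 - 1 / (2 * (N : ℝ))) ^ n * 3 ^ k) := by ring
        _ ≤ 2 ^ e * 1 := mul_le_mul_of_nonneg_left h2 h2e0.le
        _ = 2 ^ e := mul_one _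
    rw [← Finset.sum_filter]
    set F := ((Rq N e n L).filter (fun α => α.sum = l)).filter (fun α => PD.vd α x) with hF
    have hmem : ∀ α ∈ F, α ∈ Rq N e n L ∧ α.sum = l ∧ PD.vd α x ∧ α.length = n := by
      intro α hα
      have h1 := Finset.mem_filter.1 hα
      have h2 := Finset.mem_filter.1 h1.1
      exact ⟨h2.1, h2.2, h1.2, (q06_mem h2.1).1⟩
    have hnd : ∀ α ∈ F, (3 : ℤ) ^ n * PD.nd α x = 2 ^ l * x - (AA.cc α : ℤ) := by
      intro α hα
      obtain ⟨h1, h2, h3, h4⟩ := hmem α hα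
      have h5 := PD.nd_mul h3
      rw [h4, h2] at h5
      exact h5
    have hwt : ∀ α ∈ F, PD.wt α = 3 ^ n / 2 ^ l := by
      intro α hα
      obtain ⟨h1, h2, h3, h4⟩ := hmem α hα
      unfold PD.wt
      rw [h2, h4]
    have hinj : Set.InjOn (fun α => PD.nd α x) (F : Set (List ℕ)) := by
      intro α hα β hβ hab
      have h1 := hnd α hα
      have h2 := hnd β hβ
      simp only at hab
      rw [hab, h2] at h1
      have h3 : AA.cc α = AA.cc β := by
        have : (AA.cc α : ℤ) = AA.cc β := by linarith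
        exact_mod_cast this
      have ma : ∀ γ ∈ F, γ ∈ AA.comps n l := by
        intro γ hγ
        obtain ⟨g1, g2, g3, g4⟩ := hmem γ hγ
        exact AA.mem_comps.2 ⟨g4, g2, (q06_mem g1).2.2⟩
      exact AA.cc_inj (ma α hα) (ma β hβ) h3
    set u : ℝ := (2 ^ l * (x : ℝ) - N * 2 ^ e * 2 ^ l) / 3 ^ n with hu
    set v : ℝ := 2 ^ l * (x : ℝ) / 3 ^ n with hv
    have huv : v - u = N * 2 ^ e * 2 ^ l / 3 ^ n := by
      rw [hu, hv]
      ring
    have huv' : u ≤ v := by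
      have : 0 ≤ N * 2 ^ e * (2 : ℝ) ^ l / 3 ^ n := by positivity
      linarith
    have himg : F.image (fun α => PD.nd α x) ⊆ Finset.Icc ⌈u⌉ ⌊v⌋ := by
      intro z hz
      obtain ⟨α, hα, rfl⟩ := Finset.mem_image.1 hz
      have h1 : (3 : ℝ) ^ n * (PD.nd α x : ℝ) = 2 ^ l * x - (AA.cc α : ℝ) := by
        exact_mod_cast hnd α hα
      have h2 : (AA.cc α : ℝ) ≤ N * 2 ^ e * 2 ^ l := by
        have := cc_le_Rq hN (hmem α hα).1
        rwa [(hmem α hα).2.1] at this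
      have h3 : (0 : ℝ) ≤ AA.cc α := Nat.cast_nonneg _
      rw [Finset.mem_Icc, Int.ceil_le, Int.le_floor]
      constructor
      · rw [hu, div_le_iff₀ h3n0]
        linarith
      · rw [hv, le_div_iff₀ h3n0]
        linarith
    have hAB : ⌈u⌉ ≤ ⌊v⌋ + 1 := (Int.ceil_le_ceil huv').trans (Int.ceil_le_floor_add_one v)
    have hsum1 : ∑ α ∈ F, h (PD.nd α x) ≤ ∑ z ∈ Finset.Icc ⌈u⌉ ⌊v⌋, h z := by
      rw [← Finset.sum_image (f := fun z => h z) hinj]
      exact Finset.sum_le_sum_of_subset_of_nonneg himg fun z _ _ => h0 z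
    have hsum2 := PD.sum_interval_le (P := 3 ^ k) (by positivity) h h0
      (by
        intro z z' hz
        apply hper
        simpa using hz) ⌈u⌉ ⌊v⌋ hAB
    rw [← hHdef] at hsum2
    have hlen : ((⌊v⌋ : ℝ) - ⌈u⌉ + 1) ≤ N * 2 ^ e * 2 ^ l / 3 ^ n + 1 := by
      have h1 := Int.floor_le v
      have h2 := Int.le_ceil u
      linarith
    have hsum3 : ∑ α ∈ F, h (PD.nd α x) ≤ ((N * 2 ^ e * 2 ^ l / 3 ^ n + 1) / 3 ^ k + 1) * H := by
      refine (hsum1.trans hsum2).trans ?_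
      refine mul_le_mul_of_nonneg_right ?_ hH
      push_cast
      have := div_le_div_of_nonneg_right hlen h3k0.le
      linarith
    have hgoal : ∑ α ∈ F, PD.wt α * h (PD.nd α x) = 3 ^ n / 2 ^ l * ∑ α ∈ F, h (PD.nd α x) := by
      rw [Finset.mul_sum]
      refine Finset.sum_congr rfl fun α hα => ?_
      rw [hwt α hα]
    rw [hgoal]
    refine (mul_le_mul_of_nonneg_left hsum3 (by positivity)).trans ?_
    have e1 : (3 : ℝ) ^ n / 2 ^ l * (((N * 2 ^ e * 2 ^ l / 3 ^ n + 1) / 3 ^ k + 1) * H) =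
        (N * 2 ^ e / 3 ^ k + (3 ^ n / 2 ^ l) / 3 ^ k + 3 ^ n / 2 ^ l) * H := by
      field_simp
    rw [e1]
    have e2 : ((N : ℝ) + 2) * 2 ^ e * (H / 3 ^ k) =
        (N * 2 ^ e / 3 ^ k + 2 ^ e / 3 ^ k + 2 ^ e / 3 ^ k) * H := by ring
    rw [e2]
    refine mul_le_mul_of_nonneg_right ?_ hH
    have h4 : (3 : ℝ) ^ n / 2 ^ l / 3 ^ k ≤ 3 ^ n / 2 ^ l := div_le_self (by positivity) h3k
    linarith

/-- **Density bound.** The words with `α.sum ≤ 10 n`: as in `PD.density_bound`; for fixed `l = α.sum` the nodes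
are distinct (`AA.cc_inj`) and lie in `Icc A B`, `A = ⌈(2^l x - N 2^e 2^l)/3^n⌉`, `B = ⌊2^l x/3^n⌋` (`cc_le_Rq`), so
by `PD.sum_interval_le` `∑ wt α h (nd α x) ≤ (3^n/2^l)((N 2^e 2^l/3^n + 1)/3^k + 1) ∑ h ≤ (N+2) 2^e (∑ h)/3^k`
(`3^n/2^l ≤ 2^e/3^k` by `wt_le_rho`, `rho_pow`); there are `10 n + 1 ≤ 11 (n+1)` values of `l`. The words with
`α.sum > 10 n`: `h ≤ H` and `big_wt`. -/
theorem density_bound {N e n k L : ℕ} (hN : 21 ≤ N) (hk : 4 * N * k ≤ n) {h : ℤ → ℝ} {H : ℝ}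
    (h0 : ∀ z, 0 ≤ h z) (hH : ∀ z, h z ≤ H)
    (hper : ∀ z z' : ℤ, z ≡ z' [ZMOD 3 ^ k] → h z = h z') (x : ℤ) :
    EQ N e n L (fun _ z => h z) x ≤
      11 * (N + 2) * 2 ^ e * (n + 1) * ((∑ c ∈ range (3 ^ k), h (c : ℤ)) / 3 ^ k) + (1 / 5) ^ n * H := by
  classical
  have hH0 : 0 ≤ H := (h0 0).trans (hH 0)
  have hHs : 0 ≤ ∑ c ∈ range (3 ^ k), h (c : ℤ) := Finset.sum_nonneg fun c _ => h0 _
  have hS : 0 ≤ (∑ c ∈ range (3 ^ k), h (c : ℤ)) / 3 ^ k := by positivity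
  unfold EQ
  rw [← Finset.sum_filter_add_sum_filter_not (Rq N e n L) (fun α => 10 * n < α.sum), add_comm]
  refine add_le_add ?_ ?_
  · -- small sums
    have hmaps : ∀ α ∈ (Rq N e n L).filter (fun α => ¬ 10 * n < α.sum), α.sum ∈ range (10 * n + 1) := by
      intro α hα
      have h1 := (Finset.mem_filter.1 hα).2
      rw [Finset.mem_range]
      omega
    rw [← Finset.sum_fiberwise_of_maps_to hmaps]
    refine (Finset.sum_le_sum (g := fun _ => (N + 2) * 2 ^ e *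
      ((∑ c ∈ range (3 ^ k), h (c : ℤ)) / 3 ^ k)) fun l hl => ?_).trans ?_
    · refine le_trans (le_of_eq ?_) (q06_fix (e := e) (L := L) hN hk h0 hper x l)
      refine Finset.sum_congr ?_ (fun _ _ => rfl)
      ext α
      simp only [Finset.mem_filter, Finset.mem_range] at *
      constructor
      · rintro ⟨⟨h1, h2⟩, h3⟩
        exact ⟨h1, h3⟩
      · rintro ⟨h1, h3⟩
        exact ⟨⟨h1, by omega⟩, h3⟩
    · rw [Finset.sum_const, Finset.card_range, nsmul_eq_mul]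
      have e3 : 11 * ((N : ℝ) + 2) * 2 ^ e * (n + 1) * ((∑ c ∈ range (3 ^ k), h (c : ℤ)) / 3 ^ k) =
          (11 * (n + 1)) * ((N + 2) * 2 ^ e * ((∑ c ∈ range (3 ^ k), h (c : ℤ)) / 3 ^ k)) := by ring
      rw [e3]
      refine mul_le_mul_of_nonneg_right ?_ (by positivity)
      push_cast
      have hn : (0 : ℝ) ≤ n := Nat.cast_nonneg n
      nlinarith
  · -- large sums
    have h1 := big_wt n L
    calc ∑ α ∈ (Rq N e n L).filter (fun α => 10 * n < α.sum),
          (if PD.vd α x then PD.wt α * h (PD.nd α x) else 0)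
        ≤ ∑ α ∈ (Rq N e n L).filter (fun α => 10 * n < α.sum), PD.wt α * H := by
          refine Finset.sum_le_sum fun α _ => ?_
          have hw : 0 ≤ PD.wt α := by unfold PD.wt; positivity
          split_ifs
          · exact mul_le_mul_of_nonneg_left (hH _) hw
          · positivity
      _ = (∑ α ∈ (Rq N e n L).filter (fun α => 10 * n < α.sum), PD.wt α) * H := by
          rw [Finset.sum_mul]
      _ ≤ (∑ α ∈ (PD.Wd n L).filter (fun α => 10 * n < α.sum), PD.wt α) * H := by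
          refine mul_le_mul_of_nonneg_right ?_ hH0
          refine Finset.sum_le_sum_of_subset_of_nonneg ?_ ?_
          · refine Finset.filter_subset_filter _ ?_
            unfold Rq
            exact Finset.filter_subset _ _
          · intro α _ _
            unfold PD.wt
            positivity
      _ ≤ (1 / 5) ^ n * H := by
          refine mul_le_mul_of_nonneg_right ?_ hH0
          rw [Finset.sum_filter]
          exact h1

end Pool.Agent.Lib.MP_d0d59f_nt.PW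

end
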