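import Mathlib
import Pool.Agent.Lib.MP_d0d59f_nt.Basic

section

/-!
Definitions for the natural-density almost bounded orbits theorem for `T_d`.

Conventions.  A list `e = [b_n, ..., b_1]` codes the 2-adic valuations of `n` steps of the accelerated
map `N ↦ (3N+d)/2^ν`, the HEAD being the LAST step in time.
-/

namespace Pool.Agent.Lib.MP_d0d59f_nt.AA

open Finset

/-- Lists of length `n` with entries `≥ 1` and sum `l`. -/
def comps : ℕ → ℕ → Finset (List ℕ)
  | 0, l => if l = 0 then {[]} else ∅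
  | n + 1, l => (Finset.Icc 1 l).biUnion fun a => (comps n (l - a)).image (List.cons a)

/-- The offset `C(e)`: `C([]) = 0`, `C(a :: e) = 2^{|e|} + 3 C(e)`. -/
def cc : List ℕ → ℕ
  | [] => 0
  | _ :: e => 2 ^ e.sum + 3 * cc e

/-- The inverse of `2` modulo `3^K`. -/
noncomputable def i2 (K : ℕ) : ZMod (3 ^ K) := (2 : ZMod (3 ^ K))⁻¹

/-- `H_r(e) = 2^{-|e|} (3^n r + d C(e))` modulo `3^K`, `n` the length of `e`. -/
noncomputable def hz (d r : ℤ) (K : ℕ) (e : List ℕ) : ZMod (3 ^ K) :=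
  i2 K ^ e.sum * (3 ^ e.length * (r : ZMod (3 ^ K)) + (d : ZMod (3 ^ K)) * (cc e : ZMod (3 ^ K)))

/-- `nb n l`: probability that `n` geometric variables (`P(a) = 2^{-a}`, `a ≥ 1`) have sum `l`. -/
noncomputable def nb (n l : ℕ) : ℝ := (1 / 2 : ℝ) ^ l * ((comps n l).card : ℝ)

/-- `pz d r K n l Y`: probability that the sum is `l` and `H_r = Y` in `ZMod (3^K)`. -/
noncomputable def pz (d r : ℤ) (K n l : ℕ) (Y : ZMod (3 ^ K)) : ℝ :=
  (1 / 2 : ℝ) ^ l * (((comps n l).filter fun e => hz d r K e = Y).card : ℝ)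

/-- `L¹` oscillation between the levels `3^K` and `3^m` (`m ≤ K`), sum over all `l ≤ L`. -/
noncomputable def osc (d r : ℤ) (K m n L : ℕ) : ℝ :=
  ∑ l ∈ range (L + 1), ∑ x ∈ range (3 ^ K),
    |pz d r K n l (x : ZMod (3 ^ K)) - (3 : ℝ) ^ m / 3 ^ K * pz d r m n l (x : ZMod (3 ^ m))|

/-- The additive character `x ↦ exp(2πi x/3^K)`. -/
noncomputable def ps (K : ℕ) (x : ZMod (3 ^ K)) : ℂ := ZMod.stdAddChar x

/-- Characteristic function of `H_r` on lists of length `n` and sum `l`. -/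
noncomputable def bh (d r : ℤ) (K n l : ℕ) (ξ : ZMod (3 ^ K)) : ℂ :=
  (1 / 2 : ℂ) ^ l * ∑ e ∈ comps n l, ps K (ξ * hz d r K e)

/-- Normalised absolute least residue, in `[0, 1/2]`. -/
noncomputable def aa (K : ℕ) (y : ZMod (3 ^ K)) : ℝ := |(y.valMinAbs : ℝ)| / 3 ^ K

/-- `pw b = (b-1) 2^{-b}`: law of the sum of two geometric variables. -/
noncomputable def pw (b : ℕ) : ℝ := ((b - 1 : ℕ) : ℝ) * (1 / 2) ^ b

/-- The factor gained from the pairs of sum `3`. -/
noncomputable def ff (K b : ℕ) (w : ZMod (3 ^ K)) : ℝ :=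
  if b = 3 then |Real.cos (Real.pi * aa K w)| else 1

/-- The majorant `Q_J`. -/
noncomputable def qq (K L : ℕ) : ℕ → ZMod (3 ^ K) → ℝ
  | 0, _ => 1
  | J + 1, y => ∑ b ∈ range (L + 1),
      pw b * ff K b (i2 K ^ b * y) * qq K L J (9 * (i2 K ^ b * y))

/-- `κ = 1 - cos(π/2048) > 0`. -/
noncomputable def kap : ℝ := 1 - Real.cos (Real.pi / 2048)

/-- The limiting product after the exit of a deep state. -/
noncomputable def ww (B : ℕ) : ℕ → ℕ → ℤ → ℝ
  | 0, _, _ => 1
  | j + 1, u, m => ∑ b ∈ range (B + 1),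
      pw b * (if b = 3 then |Real.cos (Real.pi * (m : ℝ) / 2 ^ (u + 3))| else 1)
        * ww B j (u + b) (9 * m)

/-- `isPath d e N M`: `N` is odd, its first accelerated steps have the valuations coded by `e`
(head = last step) and lead to the odd number `M`. -/
def isPath (d : ℤ) : List ℕ → ℤ → ℤ → Prop
  | [], N, M => Odd N ∧ M = N
  | a :: e, N, M => ∃ M', isPath d e N M' ∧ 1 ≤ a ∧ 2 ^ a * M = 3 * M' + d ∧ Odd M

/-- The orbit of `x` stays above `B` in absolute value for the first `t` steps. -/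
def bad (d : ℤ) (B : ℝ) (t : ℕ) (x : ℤ) : Prop :=
  ∀ k ≤ t, B < |(((T d)^[k] x : ℤ) : ℝ)|

/-- Integers in `[α, β)`. -/
noncomputable def itv (α β : ℝ) : Finset ℤ := Finset.Ico ⌈α⌉ ⌈β⌉

/-- Number of bad odd integers `N ≡ r mod 3^m` in the window `[y, 2y)`. -/
noncomputable def cnt (d : ℤ) (B : ℝ) (t m : ℕ) (r : ℤ) (y : ℝ) : ℕ :=
  Set.ncard {N : ℤ | N ∈ itv y (2 * y) ∧ Odd N ∧ N ≡ r [ZMOD 3 ^ m] ∧ bad d B t N}

/-- `k(y) = ⌊log₂ y / 250⌋`. -/
noncomputable def kk (y : ℝ) : ℕ := ⌊Real.logb 2 y / 250⌋₊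

/-- Normalised density of bad integers at scale `y` at most `β`, in all classes modulo `3^m`,
`m² ≤ k(y)`, for every time budget `t ≥ 8 log₂ y`. -/
def dens (d : ℤ) (B β y : ℝ) : Prop :=
  ∀ (m : ℕ) (r : ℤ) (t : ℕ), m * m ≤ kk y → 8 * Real.logb 2 y ≤ t →
    (cnt d B t m r y : ℝ) ≤ β * (y / (2 * 3 ^ m))

/-- Average of `f` over the cosets of the subgroup generated by `3^K` in `ZMod (3^(K+1))`. -/
noncomputable def pr (K : ℕ) (f : ZMod (3 ^ (K + 1)) → ℝ) (Y : ZMod (3 ^ (K + 1))) : ℝ :=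
  (1 / 3) * ∑ j ∈ range 3, f (Y + (j : ZMod (3 ^ (K + 1))) * 3 ^ K)

/-- The prefix `e` (the last `e.length` steps) is the minimal prefix of sum `> L0`, and its offset
is `< 3^(K+1)`. -/
def frontOK (K L0 : ℕ) (e : List ℕ) : Prop :=
  L0 < e.sum ∧ e.dropLast.sum ≤ L0 ∧ cc e < 3 ^ (K + 1)

/-- `e` has a good front of length at most `τ` and sum at most `L0 + h`. -/
def good (K τ L0 h : ℕ) (e : List ℕ) : Prop :=
  ∃ t ∈ Icc 1 τ, (e.take t).sum ≤ L0 + h ∧ frontOK K L0 (e.take t)

noncomputable instance (K τ L0 h : ℕ) : DecidablePred (good K τ L0 h) :=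
  fun _ => Classical.dec _

noncomputable instance (K L0 : ℕ) : DecidablePred (frontOK K L0) :=
  fun _ => Classical.dec _

end Pool.Agent.Lib.MP_d0d59f_nt.AA

end

section

/-! Row A1 (about 100 lines): basics on `comps`. -/

namespace Pool.Agent.Lib.MP_d0d59f_nt.AA

open Finset

/-- Induction on `n` generalizing `l e` (`cases e`). -/
theorem mem_comps {n l : ℕ} {e : List ℕ} :
    e ∈ comps n l ↔ e.length = n ∧ e.sum = l ∧ ∀ a ∈ e, 1 ≤ a := by
  induction n generalizing l e with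
  | zero =>
    unfold comps
    split_ifs with h
    · subst h
      rw [mem_singleton]
      constructor
      · rintro rfl
        simp
      · rintro ⟨h1, _, _⟩
        exact List.length_eq_zero_iff.mp h1
    · constructor
      · intro h'
        simp at h'
      · rintro ⟨h1, h2, _⟩
        rw [List.length_eq_zero_iff.mp h1] at h2
        simp at h2
        exact absurd h2.symm h
  | succ n ih =>
    unfold comps
    rw [mem_biUnion]
    constructor
    · rintro ⟨a, ha, h⟩
      rw [mem_image] at h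
      obtain ⟨e', he', rfl⟩ := h
      rw [mem_Icc] at ha
      obtain ⟨h1, h2, h3⟩ := ih.mp he'
      refine ⟨by simp [h1], by rw [List.sum_cons, h2]; omega, ?_⟩
      intro b hb
      rcases List.mem_cons.mp hb with rfl | hb
      · exact ha.1
      · exact h3 b hb
    · rintro ⟨h1, h2, h3⟩
      cases e with
      | nil => simp at h1
      | cons a e' =>
        rw [List.sum_cons] at h2
        refine ⟨a, mem_Icc.mpr ⟨h3 a (by simp), by omega⟩, mem_image.mpr ⟨e', ih.mpr ⟨?_, by omega, ?_⟩, rfl⟩⟩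
        · simpa using h1
        · intro b hb
          exact h3 b (List.mem_cons_of_mem _ hb)

theorem sum_comps_zero {M : Type*} [AddCommMonoid M] (l : ℕ) (f : List ℕ → M) :
    ∑ e ∈ comps 0 l, f e = if l = 0 then f [] else 0 := by
  unfold comps
  split_ifs <;> simp

/-- `sum_biUnion` (the images are disjoint: the head is `a`) and `sum_image` (cons is injective). -/
theorem sum_comps_succ {M : Type*} [AddCommMonoid M] (n l : ℕ) (f : List ℕ → M) :
    ∑ e ∈ comps (n + 1) l, f e = ∑ a ∈ Icc 1 l, ∑ e ∈ comps n (l - a), f (a :: e) := by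
  conv_lhs => unfold comps
  rw [sum_biUnion]
  · apply sum_congr rfl
    intro a _
    rw [sum_image]
    intro x _ y _ h
    exact (List.cons.inj h).2
  · intro a _ b _ hab
    rw [Function.onFun, disjoint_left]
    intro e he he'
    rw [mem_image] at he he'
    obtain ⟨x, _, rfl⟩ := he
    obtain ⟨y, _, h⟩ := he'
    exact hab (List.cons.inj h).1.symm

theorem a1_geom (L : ℕ) : ∑ a ∈ Icc 1 L, 2 ^ (L - a) + 1 = 2 ^ L := by
  induction L with
  | zero => simp
  | succ L ih =>
    rw [← Finset.insert_Icc_right_eq_Icc_add_one (by omega), sum_insert (by simp)]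
    have h : ∑ a ∈ Icc 1 L, 2 ^ (L + 1 - a) = 2 * ∑ a ∈ Icc 1 L, 2 ^ (L - a) := by
      rw [mul_sum]
      apply sum_congr rfl
      intro a ha
      rw [mem_Icc] at ha
      rw [show L + 1 - a = (L - a) + 1 by omega, pow_succ]
      ring
    rw [h, pow_succ, ← ih]
    simp
    ring

/-- Induction on `n`. With `S(n,L)` the left side: `S(0,L) = 1`;
`S(n+1,L) = ∑_{l≤L} ∑_{a=1}^l c(n,l-a) = ∑_{a=1}^L S(n,L-a) ≤ ∑_{a=1}^L 2^{L-a} ≤ 2^L`. -/
theorem sum_card_comps_le (n L : ℕ) : ∑ l ∈ range (L + 1), (comps n l).card ≤ 2 ^ L := by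
  induction n generalizing L with
  | zero =>
    have : ∑ l ∈ range (L + 1), (comps 0 l).card = 1 := by
      rw [sum_range_succ']
      have h0 : ∑ l ∈ range L, (comps 0 (l + 1)).card = 0 := by
        apply sum_eq_zero
        intro l _
        simp [comps]
      rw [h0]
      simp [comps]
    rw [this]
    exact Nat.one_le_two_pow
  | succ n ih =>
    have h1 : ∀ l, (comps (n + 1) l).card = ∑ a ∈ Icc 1 l, (comps n (l - a)).card := by
      intro l
      rw [card_eq_sum_ones, sum_comps_succ]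
      apply sum_congr rfl
      intro a _
      rw [card_eq_sum_ones]
    have h2 : ∑ l ∈ range (L + 1), (comps (n + 1) l).card =
        ∑ a ∈ Icc 1 L, ∑ l' ∈ range (L - a + 1), (comps n l').card := by
      simp_rw [h1]
      rw [sum_sigma', sum_sigma']
      refine sum_bij' (fun x _ => ⟨x.2, x.1 - x.2⟩) (fun x _ => ⟨x.1 + x.2, x.1⟩) ?_ ?_ ?_ ?_ ?_
      · rintro ⟨l, a⟩ h
        simp only [mem_sigma, mem_range, mem_Icc] at h ⊢
        omega
      · rintro ⟨a, l'⟩ h
        simp only [mem_sigma, mem_range, mem_Icc] at h ⊢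
        omega
      · rintro ⟨l, a⟩ h
        simp only [mem_sigma, mem_range, mem_Icc] at h
        have e : a + (l - a) = l := by omega
        simp only [e]
      · rintro ⟨a, l'⟩ h
        simp only [Nat.add_sub_cancel_left]
      · rintro ⟨l, a⟩ h
        rfl
    rw [h2]
    calc ∑ a ∈ Icc 1 L, ∑ l' ∈ range (L - a + 1), (comps n l').card
        ≤ ∑ a ∈ Icc 1 L, 2 ^ (L - a) := sum_le_sum (fun a _ => ih (L - a))
      _ ≤ 2 ^ L := by
        have := a1_geom L
        omega

theorem card_comps_le (n l : ℕ) : (comps n l).card ≤ 2 ^ l := by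
  refine le_trans ?_ (sum_card_comps_le n l)
  exact single_le_sum (f := fun l => (comps n l).card) (fun _ _ => Nat.zero_le _)
    (mem_range.mpr (Nat.lt_succ_self l))

end Pool.Agent.Lib.MP_d0d59f_nt.AA

end
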