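import Mathlib
import Pool.Agent.Lib.MP_d0d59f_nt.PZ.K002

section

/-! Row C1 (about 110 lines): words valid for `3x+1` at `x` give paths of `T_d` to `y ≡ x d`. -/

namespace Pool.Agent.Lib.MP_d0d59f_nt.GE

open Finset

/-- An inverse of `d` modulo `3^m`: `Int.mod_coprime` / `IsCoprime`. -/
theorem exists_inv {d : ℤ} (h3 : ¬ (3 : ℤ) ∣ d) (m : ℕ) : ∃ e : ℤ, d * e ≡ 1 [ZMOD 3 ^ m] := by
  have h1 : IsCoprime (3 : ℤ) d := (Prime.coprime_iff_not_dvd Int.prime_three).2 h3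
  have h2 : IsCoprime ((3 : ℤ) ^ m) d := h1.pow_left
  obtain ⟨u, v, huv⟩ := h2
  refine ⟨v, ?_⟩
  rw [Int.modEq_iff_dvd]
  exact ⟨u, by linarith⟩

end Pool.Agent.Lib.MP_d0d59f_nt.GE
namespace Pool.Agent.Lib.MP_d0d59f_nt.GE
open Finset
end Pool.Agent.Lib.MP_d0d59f_nt.GE
namespace Pool.Agent.Lib.MP_d0d59f_nt.GE
open Finset
end Pool.Agent.Lib.MP_d0d59f_nt.GE
namespace Pool.Agent.Lib.MP_d0d59f_nt.GE
open Finset
end Pool.Agent.Lib.MP_d0d59f_nt.GE

end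

section

/-! Row C2 (about 250 lines): `H_r(e)` in `ZMod (3^K)` and the weights `pz`. -/

namespace Pool.Agent.Lib.MP_d0d59f_nt.AA

open Finset

/-- `2` is a unit modulo `3^K` (`ZMod.coe_mul_inv_eq_one`, `Nat.Coprime`). -/
theorem two_mul_i2 (K : ℕ) : (2 : ZMod (3 ^ K)) * i2 K = 1 := by
  have h : Nat.Coprime 2 (3 ^ K) := Nat.Coprime.pow_right K (by norm_num)
  have := ZMod.coe_mul_inv_eq_one 2 h
  simpa [i2] using this

theorem two_pow_mul_i2_pow (K n : ℕ) : (2 : ZMod (3 ^ K)) ^ n * i2 K ^ n = 1 := by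
  rw [← mul_pow, two_mul_i2, one_pow]

theorem hz_nil (d r : ℤ) (K : ℕ) : hz d r K [] = (r : ZMod (3 ^ K)) := by
  simp [hz, cc]

/-- `i2^{a+|e|}(3^{n+1} r + d(2^{|e|} + 3 cc e)) = i2^a (d + 3 i2^{|e|}(3^n r + d cc e))`. -/
theorem hz_cons (d r : ℤ) (K a : ℕ) (e : List ℕ) :
    hz d r K (a :: e) = i2 K ^ a * ((d : ZMod (3 ^ K)) + 3 * hz d r K e) := by
  have h := two_pow_mul_i2_pow K e.sum
  simp only [hz, cc, List.sum_cons, List.length_cons]
  push_cast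
  have e1 : i2 K ^ (a + e.sum) * (3 ^ (e.length + 1) * (r : ZMod (3 ^ K)) +
      (d : ZMod (3 ^ K)) * (2 ^ e.sum + 3 * (cc e : ZMod (3 ^ K))))
      = i2 K ^ a * ((d : ZMod (3 ^ K)) * (2 ^ e.sum * i2 K ^ e.sum) +
        3 * (i2 K ^ e.sum * (3 ^ e.length * (r : ZMod (3 ^ K)) + (d : ZMod (3 ^ K)) * (cc e : ZMod (3 ^ K))))) := by
    ring
  rw [e1, h, mul_one]

/-- Induction on `e1` from `hz_cons` (or `cc_append`, proved inline by induction). -/
theorem hz_append (d r : ℤ) (K : ℕ) (e1 e2 : List ℕ) :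
    hz d r K (e1 ++ e2) =
      (d : ZMod (3 ^ K)) * (i2 K ^ e1.sum * (cc e1 : ZMod (3 ^ K)))
        + 3 ^ e1.length * i2 K ^ e1.sum * hz d r K e2 := by
  induction e1 with
  | nil => simp [cc]
  | cons a e ih =>
    have h := two_pow_mul_i2_pow K e.sum
    rw [List.cons_append, hz_cons, ih]
    simp only [cc, List.sum_cons, List.length_cons]
    push_cast
    have e1 : (d : ZMod (3 ^ K)) * (i2 K ^ (a + e.sum) * (2 ^ e.sum + 3 * (cc e : ZMod (3 ^ K)))) +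
        3 ^ (e.length + 1) * i2 K ^ (a + e.sum) * hz d r K e2
        = (d : ZMod (3 ^ K)) * (i2 K ^ a * ((2 ^ e.sum * i2 K ^ e.sum) + 3 * (i2 K ^ e.sum * (cc e : ZMod (3 ^ K))))) +
        3 ^ (e.length + 1) * i2 K ^ (a + e.sum) * hz d r K e2 := by
      ring
    rw [e1, h]
    ring

/-- `(M : ZMod (3^K)) = hz d r K e` iff `2^{|e|} M ≡ 3^n r + d cc e` modulo `3^K`. -/
theorem hz_eq_iff (d r : ℤ) (K : ℕ) (e : List ℕ) (M : ℤ) :
    hz d r K e = (M : ZMod (3 ^ K)) ↔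
      2 ^ e.sum * M ≡ 3 ^ e.length * r + d * (cc e : ℤ) [ZMOD 3 ^ K] := by
  have h := two_pow_mul_i2_pow K e.sum
  have key : (2 ^ e.sum * M ≡ 3 ^ e.length * r + d * (cc e : ℤ) [ZMOD 3 ^ K]) ↔
      ((2 : ZMod (3 ^ K)) ^ e.sum * (M : ZMod (3 ^ K)) =
        3 ^ e.length * (r : ZMod (3 ^ K)) + (d : ZMod (3 ^ K)) * (cc e : ZMod (3 ^ K))) := by
    have := ZMod.intCast_eq_intCast_iff (2 ^ e.sum * M) (3 ^ e.length * r + d * (cc e : ℤ)) (3 ^ K)
    push_cast at this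
    rw [this]
  rw [key]
  simp only [hz]
  constructor
  · intro h1
    rw [← h1, ← mul_assoc, h, one_mul]
  · intro h1
    rw [← h1]
    rw [← mul_assoc, mul_comm (i2 K ^ e.sum), h, one_mul]

/-- Compatibility: for `m ≤ K`, `hz d r m e` is the reduction of `hz d r K e`. Use `hz_eq_iff`:
for an integer `M`, `hz d r K e = M → hz d r m e = M`. -/
theorem hz_cast {d r : ℤ} {K m : ℕ} (h : m ≤ K) (e : List ℕ) (M : ℤ)
    (hM : hz d r K e = (M : ZMod (3 ^ K))) : hz d r m e = (M : ZMod (3 ^ m)) := by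
  rw [hz_eq_iff] at hM ⊢
  exact hM.of_dvd (pow_dvd_pow 3 h)

end Pool.Agent.Lib.MP_d0d59f_nt.AA

end

section

/-! Row D1 (about 250 lines): least residues, the factor `ff`, first properties of `qq`. -/

namespace Pool.Agent.Lib.MP_d0d59f_nt.AA

open Finset

theorem kap_pos : 0 < kap := by
  unfold kap
  have h : Real.cos (Real.pi / 2048) < Real.cos 0 := by
    apply Real.cos_lt_cos_of_nonneg_of_le_pi le_rfl
    · linarith [Real.pi_pos]
    · linarith [Real.pi_pos]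
  rw [Real.cos_zero] at h
  linarith

theorem kap_le_one : kap ≤ 1 := by
  unfold kap
  have h : 0 ≤ Real.cos (Real.pi / 2048) := by
    apply Real.cos_nonneg_of_neg_pi_div_two_le_of_le
    · linarith [Real.pi_pos]
    · linarith [Real.pi_pos]
  linarith

theorem aa_nonneg (K : ℕ) (y : ZMod (3 ^ K)) : 0 ≤ aa K y := by
  unfold aa
  positivity

theorem aa_le_half (K : ℕ) (y : ZMod (3 ^ K)) : aa K y ≤ 1 / 2 := by
  unfold aa
  rw [div_le_iff₀ (by positivity)]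
  have h := ZMod.natAbs_valMinAbs_le y
  have h2 : (y.valMinAbs.natAbs : ℝ) ≤ ((3 ^ K / 2 : ℕ) : ℝ) := by exact_mod_cast h
  have h3 : ((3 ^ K / 2 : ℕ) : ℝ) ≤ ((3 ^ K : ℕ) : ℝ) / 2 := by
    exact_mod_cast Nat.cast_div_le
  have h4 : |(y.valMinAbs : ℝ)| = (y.valMinAbs.natAbs : ℝ) := by
    rw [Nat.cast_natAbs]
    push_cast
    rfl
  rw [h4]
  push_cast at h3
  linarith

/-- `cos` is decreasing on `[0, π/2]`. -/
theorem ff_three_le {K : ℕ} {w : ZMod (3 ^ K)} (h : 1 / 2048 ≤ aa K w) : ff K 3 w ≤ 1 - kap := by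
  unfold ff kap
  rw [if_pos rfl]
  have h1 := aa_le_half K w
  have h0 := aa_nonneg K w
  have hp := Real.pi_pos
  rw [abs_of_nonneg]
  · have : Real.cos (Real.pi * aa K w) ≤ Real.cos (Real.pi / 2048) := by
      apply Real.cos_le_cos_of_nonneg_of_le_pi (by positivity)
      · nlinarith
      · nlinarith
    linarith
  · apply Real.cos_nonneg_of_neg_pi_div_two_le_of_le
    · nlinarith
    · nlinarith

theorem ff_nonneg (K b : ℕ) (w : ZMod (3 ^ K)) : 0 ≤ ff K b w := by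
  unfold ff
  split_ifs
  · exact abs_nonneg _
  · norm_num

theorem ff_le_one (K b : ℕ) (w : ZMod (3 ^ K)) : ff K b w ≤ 1 := by
  unfold ff
  split_ifs
  · exact Real.abs_cos_le_one _
  · exact le_rfl

/-- Exact halving: if `2^b ∣ c(y)`, then `c(i2^b y) = c(y)/2^b` (`ZMod.valMinAbs_spec`). -/
theorem valMinAbs_half {K : ℕ} (y : ZMod (3 ^ K)) (b : ℕ) (c : ℤ) (hc : y.valMinAbs = 2 ^ b * c) :
    (i2 K ^ b * y).valMinAbs = c := by
  rw [ZMod.valMinAbs_spec]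
  constructor
  · have h1 : y = (2 : ZMod (3 ^ K)) ^ b * (c : ZMod (3 ^ K)) := by
      conv_lhs => rw [← ZMod.coe_valMinAbs y, hc]
      push_cast
      rfl
    rw [h1]
    have := two_pow_mul_i2_pow K b
    linear_combination (c : ZMod (3 ^ K)) * this
  · have h2 := ZMod.valMinAbs_mem_Ioc y
    rw [hc] at h2
    rw [Set.mem_Ioc] at *
    obtain ⟨h3, h4⟩ := h2
    have hb : (1 : ℤ) ≤ 2 ^ b := one_le_pow₀ (by norm_num)
    have hn : (0 : ℤ) < ((3 ^ K : ℕ) : ℤ) := by positivity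
    constructor
    · rcases le_or_gt 0 c with h | h
      · nlinarith
      · nlinarith
    · rcases le_or_gt 0 c with h | h
      · nlinarith
      · nlinarith

/-- No wrap-around: if `18 |c(y)| < 3^K` then `c(9y) = 9 c(y)`. -/
theorem valMinAbs_nine {K : ℕ} (y : ZMod (3 ^ K)) (h : 18 * |y.valMinAbs| < 3 ^ K) :
    (9 * y).valMinAbs = 9 * y.valMinAbs := by
  rw [ZMod.valMinAbs_spec]
  constructor
  · push_cast
    rfl
  · rw [Set.mem_Ioc]
    push_cast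
    have h1 := le_abs_self y.valMinAbs
    have h2 := neg_abs_le y.valMinAbs
    constructor <;> linarith

/-- Parity argument. If `2^h w = G` in `ZMod (3^K)` and `2^h ∤ G`, then `2^h c(w) = G + m 3^K` with `m ≠ 0`, so
`2^h |c(w)| ≥ 3^K - |G|`. -/
theorem aa_ge {K : ℕ} (h : ℕ) (w : ZMod (3 ^ K)) (G : ℤ)
    (hw : (2 : ZMod (3 ^ K)) ^ h * w = (G : ZMod (3 ^ K))) (hG : ¬ (2 : ℤ) ^ h ∣ G) :
    (1 - |(G : ℝ)| / 3 ^ K) / 2 ^ h ≤ aa K w := by
  have h1 : (((2 : ℤ) ^ h * w.valMinAbs - G : ℤ) : ZMod (3 ^ K)) = 0 := by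
    push_cast
    rw [hw]
    ring
  rw [ZMod.intCast_zmod_eq_zero_iff_dvd] at h1
  obtain ⟨m, hm⟩ := h1
  push_cast at hm
  have hm0 : m ≠ 0 := by
    rintro rfl
    apply hG
    exact ⟨w.valMinAbs, by linarith⟩
  have h2 : (3 : ℝ) ^ K - |(G : ℝ)| ≤ 2 ^ h * |(w.valMinAbs : ℝ)| := by
    have h3 : (3 : ℝ) ^ K * |(m : ℝ)| = |(2 : ℝ) ^ h * (w.valMinAbs : ℝ) - G| := by
      have : ((2 : ℝ) ^ h * (w.valMinAbs : ℝ) - G) = 3 ^ K * m := by exact_mod_cast hm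
      rw [this, abs_mul, abs_of_pos (by positivity : (0 : ℝ) < 3 ^ K)]
    have h4 : (1 : ℝ) ≤ |(m : ℝ)| := by
      have := Int.one_le_abs hm0
      exact_mod_cast this
    have h5 : |(2 : ℝ) ^ h * (w.valMinAbs : ℝ) - G| ≤ 2 ^ h * |(w.valMinAbs : ℝ)| + |(G : ℝ)| := by
      refine (abs_sub _ _).trans ?_
      rw [abs_mul, abs_of_pos (by positivity : (0 : ℝ) < 2 ^ h)]
    have h6 : (3 : ℝ) ^ K ≤ 3 ^ K * |(m : ℝ)| := by
      have : (0 : ℝ) < 3 ^ K := by positivity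
      nlinarith
    linarith
  unfold aa
  rw [div_le_div_iff₀ (by positivity) (by positivity)]
  have h7 : (1 - |(G : ℝ)| / 3 ^ K) * 3 ^ K = 3 ^ K - |(G : ℝ)| := by
    field_simp
  rw [h7]
  linarith

end Pool.Agent.Lib.MP_d0d59f_nt.AA

end
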