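import Pool.Agent.Lib.MP_d0d59f_nt.PZ.K007
import Pool.Agent.Lib.MP_d0d59f_nt.PZ.K009

section

/-! Row A5 (about 120 lines): three explicit tail bounds. -/

namespace Pool.Agent.Lib.MP_d0d59f_nt.AA

open Finset

/-- lower tails -/
theorem a5_low (n L0 : ℕ) (x : ℝ) (hx0 : 0 < x) (hx1 : x ≤ 1) :
    ∑ s ∈ range (L0 + 1), nb n s ≤ (x⁻¹) ^ L0 * (x / (2 - x)) ^ n := by
  have h1 : ∑ s ∈ range (L0 + 1), nb n s ≤
      (x⁻¹) ^ L0 * ∑ s ∈ range (L0 + 1), nb n s * x ^ s := by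
    rw [Finset.mul_sum]
    refine Finset.sum_le_sum fun s hs => ?_
    have hs' : s ≤ L0 := Nat.lt_succ_iff.1 (Finset.mem_range.1 hs)
    have h2 : 1 ≤ (x⁻¹) ^ L0 * x ^ s := by
      have h3 : (x⁻¹) ^ L0 * x ^ L0 = 1 := by
        rw [← mul_pow, inv_mul_cancel₀ hx0.ne', one_pow]
      calc (1 : ℝ) = (x⁻¹) ^ L0 * x ^ L0 := h3.symm
        _ ≤ (x⁻¹) ^ L0 * x ^ s :=
          mul_le_mul_of_nonneg_left (pow_le_pow_of_le_one hx0.le hx1 hs') (by positivity)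
    calc nb n s = nb n s * 1 := (mul_one _).symm
      _ ≤ nb n s * ((x⁻¹) ^ L0 * x ^ s) := mul_le_mul_of_nonneg_left h2 (nb_nonneg n s)
      _ = (x⁻¹) ^ L0 * (nb n s * x ^ s) := by ring
  exact h1.trans (mul_le_mul_of_nonneg_left (sum_nb_mul_pow_le n L0 x hx0 (by linarith))
    (by positivity))

/-- `1 - ∑_{19k ≤ l ≤ 21k} nb = (1 - ∑_{l ≤ 21k} nb) + ∑_{l < 19k} nb`.
First part: `one_sub_sum_nb_le` with `x = 22/21`, `x/(2-x) = 11/10`: `≤ (21/22)^{21k+1} (11/10)^{10k}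
≤ ((21/22)^21 (11/10)^10)^k ≤ 0.98^k` (`(21/22)^21 (11/10)^10 = 0.9765`, `norm_num`).
Second part: for `l ≤ 19k` one has `1 ≤ (18/19)^l (19/18)^{19k}`, so by `sum_nb_mul_pow_le` with `x = 18/19`,
`x/(2-x) = 9/10`, it is `≤ (19/18)^{19k} (9/10)^{10k} = ((19/18)^19 (9/10)^10)^k ≤ 0.98^k`
(`(19/18)^19 (9/10)^10 = 0.9741`). For `k = 0` the left side is `0`. -/
theorem tail_bound (k : ℕ) :
    1 - ∑ l ∈ Icc (19 * k) (21 * k), nb (10 * k) l ≤ 2 * (0.98 : ℝ) ^ k := by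
  have h1 : ∑ l ∈ range (21 * k + 1), nb (10 * k) l =
      ∑ l ∈ range (19 * k), nb (10 * k) l + ∑ l ∈ Icc (19 * k) (21 * k), nb (10 * k) l := by
    have h := Finset.sum_range_add_sum_Ico (fun l => nb (10 * k) l)
      (show 19 * k ≤ 21 * k + 1 by omega)
    rw [← h]
    congr 1
  have h2 : ∑ l ∈ range (19 * k), nb (10 * k) l ≤ (0.98 : ℝ) ^ k := by
    calc ∑ l ∈ range (19 * k), nb (10 * k) l ≤ ∑ l ∈ range (19 * k + 1), nb (10 * k) l := by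
          rw [Finset.sum_range_succ]
          have := nb_nonneg (10 * k) (19 * k)
          linarith
      _ ≤ ((18 / 19 : ℝ)⁻¹) ^ (19 * k) * ((18 / 19 : ℝ) / (2 - 18 / 19)) ^ (10 * k) :=
          a5_low (10 * k) (19 * k) (18 / 19) (by norm_num) (by norm_num)
      _ = (((18 / 19 : ℝ)⁻¹) ^ 19 * ((18 / 19 : ℝ) / (2 - 18 / 19)) ^ 10) ^ k := by
          rw [pow_mul, pow_mul, ← mul_pow]
      _ ≤ (0.98 : ℝ) ^ k := pow_le_pow_left₀ (by positivity) (by norm_num) k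
  have h3 : 1 - ∑ l ∈ range (21 * k + 1), nb (10 * k) l ≤ (0.98 : ℝ) ^ k := by
    calc 1 - ∑ l ∈ range (21 * k + 1), nb (10 * k) l
        ≤ ((22 / 21 : ℝ)⁻¹) ^ (21 * k + 1) * ((22 / 21 : ℝ) / (2 - 22 / 21)) ^ (10 * k) :=
          one_sub_sum_nb_le (10 * k) (21 * k) (22 / 21) (by norm_num) (by norm_num)
      _ ≤ ((22 / 21 : ℝ)⁻¹) ^ (21 * k) * ((22 / 21 : ℝ) / (2 - 22 / 21)) ^ (10 * k) := by
          refine mul_le_mul_of_nonneg_right ?_ (by positivity)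
          exact pow_le_pow_of_le_one (by norm_num) (by norm_num) (Nat.le_succ _)
      _ = (((22 / 21 : ℝ)⁻¹) ^ 21 * ((22 / 21 : ℝ) / (2 - 22 / 21)) ^ 10) ^ k := by
          rw [pow_mul, pow_mul, ← mul_pow]
      _ ≤ (0.98 : ℝ) ^ k := pow_le_pow_left₀ (by positivity) (by norm_num) k
  linarith

/-- `x = 6/7`, `x/(2-x) = 3/4`. -/
theorem low_tail1 (n L0 : ℕ) :
    ∑ s ∈ range (L0 + 1), nb n s ≤ (7 / 6 : ℝ) ^ L0 * (3 / 4) ^ n := by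
  have h := a5_low n L0 (6 / 7) (by norm_num) (by norm_num)
  have h1 : ((6 / 7 : ℝ)⁻¹) = 7 / 6 := by norm_num
  have h2 : ((6 / 7 : ℝ) / (2 - 6 / 7)) = 3 / 4 := by norm_num
  rw [h1, h2] at h
  exact h

/-- `x = 4/5`, `x/(2-x) = 2/3`. -/
theorem low_tail2 (n D : ℕ) :
    ∑ s ∈ range (D + 1), nb n s ≤ (5 / 4 : ℝ) ^ D * (2 / 3) ^ n := by
  have h := a5_low n D (4 / 5) (by norm_num) (by norm_num)
  have h1 : ((4 / 5 : ℝ)⁻¹) = 5 / 4 := by norm_num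
  have h2 : ((4 / 5 : ℝ) / (2 - 4 / 5)) = 2 / 3 := by norm_num
  rw [h1, h2] at h
  exact h

end Pool.Agent.Lib.MP_d0d59f_nt.AA

end

section

/-! Row D2 (about 250 lines): the shallow states. -/

namespace Pool.Agent.Lib.MP_d0d59f_nt.AA

open Finset

theorem d2a_i2 {K : ℕ} (n : ℕ) (x : ZMod (3 ^ K)) : (2 : ZMod (3 ^ K)) ^ n * (i2 K ^ n * x) = x := by
  rw [← mul_assoc, two_pow_mul_i2_pow, one_mul]

theorem d2a_aa {K : ℕ} (y : ZMod (3 ^ K)) (c : ℤ) (h : y.valMinAbs = c) :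
    aa K y = |(c : ℝ)| / 3 ^ K := by
  unfold aa
  rw [h]

/-- White exit, case `b ≤ D` but `2^{-b} aa y > ε = 1/2048`. Here `c(y) = 2^b c1`, `aa y ≤ 9ε`, `y' = 9 i2^b y`,
`c(y') = 9 c1` (`valMinAbs_half`, `valMinAbs_nine`; `2^b < 9`). The next move `b = 3` is white:
`w = i2^3 y'`: if `8 ∣ 9 c1` then `c(w) = 9 c1/8` and `aa w = 9·2^{-b} aa(y)/8 > ε`; otherwise by `aa_ge` (`h = 3`, `G = 9 c1`)
`aa w ≥ (1 - 9·2^{-b} aa y)/8 ≥ (1 - 81ε/4)/8 > ε` (`b ≥ 2`). -/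
theorem white_exit1 {K : ℕ} (y : ZMod (3 ^ K)) (b : ℕ) (hb : 2 ≤ b) (c1 : ℤ)
    (hc : y.valMinAbs = 2 ^ b * c1) (ha : aa K y ≤ 9 / 2048) (he : 2 ^ b * (1 / 2048) < aa K y) :
    1 / 2048 ≤ aa K (i2 K ^ 3 * (9 * (i2 K ^ b * y))) := by
  have h3 : (0 : ℝ) < 3 ^ K := by positivity
  have h4 : (4 : ℝ) ≤ 2 ^ b := by
    calc (4 : ℝ) = 2 ^ 2 := by norm_num
      _ ≤ 2 ^ b := pow_le_pow_right₀ (by norm_num) hb
  have haa : aa K y = 2 ^ b * (|(c1 : ℝ)| / 3 ^ K) := by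
    rw [d2a_aa y _ hc]
    push_cast
    rw [abs_mul, abs_of_pos (by positivity : (0 : ℝ) < 2 ^ b), mul_div_assoc]
  set t : ℝ := |(c1 : ℝ)| / 3 ^ K with ht
  have ht0 : 0 ≤ t := by positivity
  have hte : 1 / 2048 < t := by
    rw [haa] at he
    exact lt_of_mul_lt_mul_left he (by positivity)
  have htu : t ≤ 9 / 8192 := by
    rw [haa] at ha
    nlinarith only [ha, h4, ht0]
  have hv1 : (i2 K ^ b * y).valMinAbs = c1 := valMinAbs_half y b c1 hc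
  have hlt : 18 * |(i2 K ^ b * y).valMinAbs| < 3 ^ K := by
    rw [hv1]
    have : (18 : ℝ) * |(c1 : ℝ)| < 3 ^ K := by
      have h5 : |(c1 : ℝ)| = t * 3 ^ K := by rw [ht]; field_simp
      rw [h5]
      nlinarith only [h3, htu]
    exact_mod_cast this
  have hv2 : (9 * (i2 K ^ b * y)).valMinAbs = 9 * c1 := by
    rw [valMinAbs_nine _ hlt, hv1]
  by_cases h8 : (2 : ℤ) ^ 3 ∣ 9 * c1
  · obtain ⟨c2, hc2⟩ := h8
    have hv3 := valMinAbs_half (9 * (i2 K ^ b * y)) 3 c2 (by rw [hv2, hc2])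
    rw [d2a_aa _ _ hv3]
    have h6 : (8 : ℝ) * |(c2 : ℝ)| = 9 * |(c1 : ℝ)| := by
      have h7 : |(9 : ℝ) * c1| = |(2 : ℝ) ^ 3 * c2| := by
        congr 1
        exact_mod_cast hc2
      rw [abs_mul, abs_mul] at h7
      norm_num at h7
      linarith only [h7]
    have h8 : |(c2 : ℝ)| / 3 ^ K = 9 / 8 * t := by
      rw [ht]
      field_simp
      linarith only [h6]
    rw [h8]
    linarith only [hte]
  · have h9 := aa_ge 3 (i2 K ^ 3 * (9 * (i2 K ^ b * y))) (9 * c1) (by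
      rw [d2a_i2, ← hv2, ZMod.coe_valMinAbs]) h8
    refine le_trans ?_ h9
    push_cast
    have h10 : |(9 : ℝ) * c1| / 3 ^ K = 9 * t := by
      rw [abs_mul, ht]
      norm_num
      ring
    rw [h10]
    linarith only [htu]

/-- White exit, case `D < b ≤ D + 6`, `c(y) = 2^D g`, `g` odd: `w = i2^3 (9 i2^b y)` satisfies
`2^{b-D+3} w = 9 g`, `9g` is odd, `|9g| ≤ 9|c(y)| ≤ 81ε 3^K`; `aa_ge` with `h = b-D+3 ≤ 9`:
`aa w ≥ (1 - 81ε)/512 > ε`. -/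
theorem white_exit2 {K : ℕ} (y : ZMod (3 ^ K)) (b D : ℕ) (g : ℤ) (hg : Odd g)
    (hc : y.valMinAbs = 2 ^ D * g) (ha : aa K y ≤ 9 / 2048) (hb1 : D < b) (hb2 : b ≤ D + 6) :
    1 / 2048 ≤ aa K (i2 K ^ 3 * (9 * (i2 K ^ b * y))) := by
  have h3 : (0 : ℝ) < 3 ^ K := by positivity
  obtain ⟨h, rfl⟩ : ∃ h, b = D + h := ⟨b - D, by omega⟩
  have hh : h ≤ 6 := by omega
  have hh1 : 1 ≤ h := by omega
  have hv : (i2 K ^ D * y).valMinAbs = g := valMinAbs_half y D g hc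
  have hw : (2 : ZMod (3 ^ K)) ^ (h + 3) * (i2 K ^ 3 * (9 * (i2 K ^ (D + h) * y))) =
      ((9 * g : ℤ) : ZMod (3 ^ K)) := by
    have h1 : (2 : ZMod (3 ^ K)) ^ (h + 3) * (i2 K ^ 3 * (9 * (i2 K ^ (D + h) * y))) =
        ((2 : ZMod (3 ^ K)) ^ 3 * i2 K ^ 3) * ((2 : ZMod (3 ^ K)) ^ h * i2 K ^ h) *
          (9 * (i2 K ^ D * y)) := by ring
    rw [h1, two_pow_mul_i2_pow, two_pow_mul_i2_pow, one_mul, one_mul]
    push_cast
    rw [← hv, ZMod.coe_valMinAbs]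
  have hodd : ¬ (2 : ℤ) ^ (h + 3) ∣ 9 * g := by
    intro hd
    have h2 : (2 : ℤ) ∣ 9 * g := dvd_trans (dvd_pow_self 2 (by omega)) hd
    obtain ⟨k, hk⟩ := hg
    omega
  have h9 := aa_ge (h + 3) (i2 K ^ 3 * (9 * (i2 K ^ (D + h) * y))) (9 * g) hw hodd
  refine le_trans ?_ h9
  have haa : aa K y = 2 ^ D * (|(g : ℝ)| / 3 ^ K) := by
    rw [d2a_aa y _ hc]
    push_cast
    rw [abs_mul, abs_of_pos (by positivity : (0 : ℝ) < 2 ^ D), mul_div_assoc]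
  set t : ℝ := |(g : ℝ)| / 3 ^ K with ht
  have ht0 : 0 ≤ t := by positivity
  have h1D : (1 : ℝ) ≤ 2 ^ D := one_le_pow₀ (by norm_num)
  have htu : t ≤ 9 / 2048 := by
    rw [haa] at ha
    nlinarith only [ha, ht0, h1D]
  push_cast
  have h10 : |(9 : ℝ) * g| / 3 ^ K = 9 * t := by
    rw [abs_mul, ht]
    norm_num
    ring
  rw [h10]
  have h11 : (2 : ℝ) ^ (h + 3) ≤ 512 := by
    calc (2 : ℝ) ^ (h + 3) ≤ 2 ^ 9 := pow_le_pow_right₀ (by norm_num) (by omega)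
      _ = 512 := by norm_num
  rw [le_div_iff₀ (by positivity)]
  nlinarith only [htu, h11]

/-- The weights: with `S k = (k+1)/2^k = 1 - ∑_{b≤k} pw b`,
`∑_{b ≤ D} pw b (1-κ/5) + ∑_{D<b≤D+6} pw b (1 - κ/4) + ∑_{b > D+6} pw b ≤ 1 - κ/5`,
because `S (D+6) ≤ S D / 5` (`(D+7)/64 ≤ (D+1)/5`). -/
theorem shallow_weights (D L' : ℕ) (hL : D + 6 ≤ L') :
    ∑ b ∈ range (L' + 1), pw b *
      (if b ≤ D then 1 - kap / 5 else if b ≤ D + 6 then 1 - kap / 4 else 1) ≤ 1 - kap / 5 := by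
  have hk := kap_pos
  have e1 := sum_pw D
  have e2 := sum_pw (D + 6)
  have e3 := sum_pw L'
  have s1 : ∑ b ∈ range (D + 1), pw b + ∑ b ∈ Ico (D + 1) (D + 6 + 1), pw b =
      ∑ b ∈ range (D + 6 + 1), pw b := Finset.sum_range_add_sum_Ico _ (by omega)
  have s2 : ∑ b ∈ range (D + 6 + 1), pw b + ∑ b ∈ Ico (D + 6 + 1) (L' + 1), pw b =
      ∑ b ∈ range (L' + 1), pw b := Finset.sum_range_add_sum_Ico _ (by omega)
  rw [← Finset.sum_range_add_sum_Ico _ (show D + 6 + 1 ≤ L' + 1 by omega),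
    ← Finset.sum_range_add_sum_Ico _ (show D + 1 ≤ D + 6 + 1 by omega)]
  have f1 : ∑ b ∈ range (D + 1), pw b *
      (if b ≤ D then 1 - kap / 5 else if b ≤ D + 6 then 1 - kap / 4 else 1) =
      (∑ b ∈ range (D + 1), pw b) * (1 - kap / 5) := by
    rw [Finset.sum_mul]
    refine Finset.sum_congr rfl fun b hb => ?_
    rw [Finset.mem_range] at hb
    rw [if_pos (by omega)]
  have f2 : ∑ b ∈ Ico (D + 1) (D + 6 + 1), pw b *
      (if b ≤ D then 1 - kap / 5 else if b ≤ D + 6 then 1 - kap / 4 else 1) =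
      (∑ b ∈ Ico (D + 1) (D + 6 + 1), pw b) * (1 - kap / 4) := by
    rw [Finset.sum_mul]
    refine Finset.sum_congr rfl fun b hb => ?_
    rw [Finset.mem_Ico] at hb
    rw [if_neg (by omega), if_pos (by omega)]
  have f3 : ∑ b ∈ Ico (D + 6 + 1) (L' + 1), pw b *
      (if b ≤ D then 1 - kap / 5 else if b ≤ D + 6 then 1 - kap / 4 else 1) =
      (∑ b ∈ Ico (D + 6 + 1) (L' + 1), pw b) := by
    refine Finset.sum_congr rfl fun b hb => ?_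
    rw [Finset.mem_Ico] at hb
    rw [if_neg (by omega), if_neg (by omega), mul_one]
  rw [f1, f2, f3]
  have hS : ((D + 6 : ℕ) + 1 : ℝ) / 2 ^ (D + 6) ≤ ((D : ℝ) + 1) / 2 ^ D / 5 := by
    rw [pow_add, div_div, div_le_div_iff₀ (by positivity) (by positivity)]
    have h2 : (0 : ℝ) < 2 ^ D := by positivity
    have hD : (0 : ℝ) ≤ D := Nat.cast_nonneg D
    push_cast
    nlinarith only [mul_nonneg hD h2.le, h2, hD]
  have hL0 : 0 ≤ ((L' : ℝ) + 1) / 2 ^ L' := by positivity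
  set SD : ℝ := ((D : ℝ) + 1) / 2 ^ D
  set SE : ℝ := ((D + 6 : ℕ) + 1 : ℝ) / 2 ^ (D + 6)
  set SL : ℝ := ((L' : ℝ) + 1) / 2 ^ L'
  have g2 : ∑ b ∈ Ico (D + 1) (D + 6 + 1), pw b = SD - SE := by linarith only [s1, e1, e2]
  have g3 : ∑ b ∈ Ico (D + 6 + 1) (L' + 1), pw b = SE - SL := by linarith only [s2, e2, e3]
  rw [g2, g3, e1]
  nlinarith only [hL0, hk, hS]

end Pool.Agent.Lib.MP_d0d59f_nt.AA

end
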