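import Pool.Agent.Lib.MP_d0d59f_nt.PZ.K007

section

/-! Row A7 (about 300 lines): size and unimodality of `t ↦ nb (2t) β`, block averages. -/

namespace Pool.Agent.Lib.MP_d0d59f_nt.AA

open Finset

theorem a7_central (m : ℕ) :
    ((Nat.centralBinom m : ℝ) * (1 / 4) ^ m) ^ 2 * ((m : ℝ) + 1) ≤ 1 := by
  induction m with
  | zero => simp
  | succ m ih =>
    have h1 : ((m : ℝ) + 1) * (Nat.centralBinom (m + 1) : ℝ) =
        2 * (2 * m + 1) * (Nat.centralBinom m : ℝ) := by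
      have := Nat.succ_mul_centralBinom_succ m
      exact_mod_cast this
    have hm : (0 : ℝ) < (m : ℝ) + 1 := by positivity
    set c := (Nat.centralBinom (m + 1) : ℝ) with hc
    set b := (Nat.centralBinom m : ℝ) with hb
    have h2 : c = 2 * (2 * m + 1) * b / (m + 1) := by
      rw [eq_div_iff hm.ne', mul_comm]; exact h1
    set u := b * (1 / 4) ^ m with hu
    have h3 : c * (1 / 4) ^ (m + 1) = u * ((2 * m + 1) / (2 * (m + 1))) := by
      rw [h2, hu, pow_succ]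
      field_simp
      ring
    rw [h3]
    push_cast
    have h4 : (2 * (m : ℝ) + 1) ^ 2 * (m + 2) ≤ 4 * (m + 1) ^ 3 := by
      have : (0 : ℝ) ≤ m := Nat.cast_nonneg m
      nlinarith
    calc (u * ((2 * (m : ℝ) + 1) / (2 * (m + 1)))) ^ 2 * (m + 1 + 1)
        = (u ^ 2 * (m + 1)) * (((2 * m + 1) ^ 2 * (m + 2)) / (4 * (m + 1) ^ 3)) := by
          field_simp
          ring
      _ ≤ 1 * 1 := by
          refine mul_le_mul ih ?_ (by positivity) zero_le_one
          rw [div_le_one (by positivity)]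
          exact h4
      _ = 1 := one_mul 1

theorem a7_mid (m : ℕ) : 2 * (2 * m + 1).choose m = Nat.centralBinom (m + 1) := by
  rw [Nat.centralBinom_eq_two_mul_choose]
  have h1 : 2 * (m + 1) = (2 * m + 1) + 1 := by ring
  rw [h1, Nat.choose_succ_succ]
  have h2 : (2 * m + 1).choose (m + 1) = (2 * m + 1).choose m := by
    apply Nat.choose_symm_of_eq_add
    ring
  rw [h2]
  ring

/-- For `n = 0` the left side is `0` (as `l ≥ 1`). Otherwise with `N = l-1`,
`nb n l = 2^{-l} C(N, n-1) ≤ 2^{-l} C(N, ⌊N/2⌋)` (`Nat.choose_le_middle`). Put `u_m = C(2m,m)/4^m`; then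
`u_m² (m+1) ≤ 1` by induction (`u_{m+1} = u_m (2m+1)/(2m+2)`, `Nat.succ_mul_centralBinom_succ`, and
`(2m+1)²(m+2) ≤ 4(m+1)³`). `N = 2m`: `nb ≤ (1/2) u_m ≤ 1/(2√(m+1)) ≤ 1/√(2m+1)`.
`N = 2m+1`: `C(2m+1,m) = C(2m+2,m+1)/2`, `nb ≤ (1/2) u_{m+1} ≤ 1/(2√(m+2)) ≤ 1/√(2m+2)`. -/
theorem nb_le_inv_sqrt (n l : ℕ) (hl : 1 ≤ l) : nb n l ≤ 1 / Real.sqrt l := by
  have hlr : (0 : ℝ) < l := by exact_mod_cast hl
  rcases n with _ | n
  · rw [nb_zero, if_neg (by omega)]
    positivity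
  obtain ⟨N, rfl⟩ : ∃ N, l = N + 1 := ⟨l - 1, by omega⟩
  -- it suffices to bound the square
  have key : ∀ u : ℝ, nb (n + 1) (N + 1) ≤ u → u ^ 2 * ((N + 1 : ℕ) : ℝ) ≤ 1 →
      nb (n + 1) (N + 1) ≤ 1 / Real.sqrt ((N + 1 : ℕ) : ℝ) := by
    intro u hu h2
    refine hu.trans ?_
    have hs : 0 < Real.sqrt ((N + 1 : ℕ) : ℝ) := Real.sqrt_pos.2 hlr
    rw [le_div_iff₀ hs]
    have h3 : (u * Real.sqrt ((N + 1 : ℕ) : ℝ)) ^ 2 ≤ 1 := by
      rw [mul_pow, Real.sq_sqrt hlr.le]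
      exact h2
    exact (abs_le.1 ((sq_le_one_iff_abs_le_one _).1 h3)).2
  have h1 : nb (n + 1) (N + 1) ≤ (1 / 2 : ℝ) ^ (N + 1) * (N.choose (N / 2) : ℝ) := by
    rw [nb, card_comps]
    refine mul_le_mul_of_nonneg_left ?_ (by positivity)
    exact_mod_cast Nat.choose_le_middle n N
  rcases Nat.even_or_odd' N with ⟨m, rfl | rfl⟩
  · refine key _ h1 ?_
    have h2 : 2 * m / 2 = m := by omega
    rw [h2, ← Nat.centralBinom_eq_two_mul_choose]
    have h3 := a7_central m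
    have h4 : (1 / 2 : ℝ) ^ (2 * m + 1) = (1 / 4) ^ m * (1 / 2) := by
      rw [pow_succ, pow_mul]; norm_num
    rw [h4]
    push_cast
    have h5 : (0 : ℝ) ≤ m := Nat.cast_nonneg m
    calc ((1 / 4 : ℝ) ^ m * (1 / 2) * (Nat.centralBinom m : ℝ)) ^ 2 * (2 * m + 1)
        = (((Nat.centralBinom m : ℝ) * (1 / 4) ^ m) ^ 2 * ((m : ℝ) + 1)) *
          ((2 * m + 1) / (4 * (m + 1))) := by field_simp; ring
      _ ≤ 1 * 1 := by
          refine mul_le_mul h3 ?_ (by positivity) zero_le_one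
          rw [div_le_one (by positivity)]
          linarith
      _ = 1 := one_mul 1
  · refine key _ h1 ?_
    have h2 : (2 * m + 1) / 2 = m := by omega
    rw [h2]
    have h3 := a7_central (m + 1)
    have h6 : ((2 * m + 1).choose m : ℝ) = (Nat.centralBinom (m + 1) : ℝ) / 2 := by
      rw [eq_div_iff two_ne_zero, mul_comm]
      exact_mod_cast a7_mid m
    have h4 : (1 / 2 : ℝ) ^ (2 * m + 1 + 1) = (1 / 4) ^ (m + 1) := by
      have : 2 * m + 1 + 1 = 2 * (m + 1) := by ring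
      rw [this, pow_mul]; norm_num
    rw [h4, h6]
    push_cast at h3 ⊢
    have h5 : (0 : ℝ) ≤ m := Nat.cast_nonneg m
    calc ((1 / 4 : ℝ) ^ (m + 1) * ((Nat.centralBinom (m + 1) : ℝ) / 2)) ^ 2 * (2 * m + 1 + 1)
        = (((Nat.centralBinom (m + 1) : ℝ) * (1 / 4) ^ (m + 1)) ^ 2 * ((m : ℝ) + 1 + 1)) *
          ((2 * m + 1 + 1) / (4 * (m + 1 + 1))) := by field_simp; ring
      _ ≤ 1 * 1 := by
          refine mul_le_mul h3 ?_ (by positivity) zero_le_one
          rw [div_le_one (by positivity)]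
          linarith
      _ = 1 := one_mul 1

end Pool.Agent.Lib.MP_d0d59f_nt.AA

end

section

/-! Row A7 (about 300 lines): size and unimodality of `t ↦ nb (2t) β`, block averages. -/

namespace Pool.Agent.Lib.MP_d0d59f_nt.AA

open Finset

theorem a7b_choose_up (N j : ℕ) (h : 2 * j + 2 ≤ N) : N.choose j ≤ N.choose (j + 2) := by
  have h1 := Nat.choose_succ_right_eq N j
  have h2 := Nat.choose_succ_right_eq N (j + 1)
  have h3 : j + 2 ≤ N - j := by omega
  have h4 : j + 1 ≤ N - (j + 1) := by omega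
  have h5 : N.choose (j + 1 + 1) * (j + 1 + 1) * (j + 1) =
      N.choose j * (N - j) * (N - (j + 1)) := by
    rw [h2, mul_right_comm, h1]
  have h6 : N.choose j * (j + 2) * (j + 1) ≤ N.choose j * (N - j) * (N - (j + 1)) :=
    Nat.mul_le_mul (Nat.mul_le_mul_left _ h3) h4
  rw [← h5] at h6
  exact Nat.le_of_mul_le_mul_right (Nat.le_of_mul_le_mul_right h6 (by omega)) (by omega)

theorem a7b_choose_down (N j : ℕ) (h : N ≤ 2 * j + 2) : N.choose (j + 2) ≤ N.choose j := by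
  have h1 := Nat.choose_succ_right_eq N j
  have h2 := Nat.choose_succ_right_eq N (j + 1)
  have h3 : N - j ≤ j + 2 := by omega
  have h4 : N - (j + 1) ≤ j + 1 := by omega
  have h5 : N.choose (j + 1 + 1) * (j + 1 + 1) * (j + 1) =
      N.choose j * (N - j) * (N - (j + 1)) := by
    rw [h2, mul_right_comm, h1]
  have h6 : N.choose j * (N - j) * (N - (j + 1)) ≤ N.choose j * (j + 2) * (j + 1) :=
    Nat.mul_le_mul (Nat.mul_le_mul_left _ h3) h4
  rw [← h5] at h6
  exact Nat.le_of_mul_le_mul_right (Nat.le_of_mul_le_mul_right h6 (by omega)) (by omega)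

theorem a7b_nb_choose (t N : ℕ) :
    nb (2 * (t + 1)) (N + 1) = (1 / 2 : ℝ) ^ (N + 1) * (N.choose (2 * t + 1) : ℝ) := by
  have h : 2 * (t + 1) = (2 * t + 1) + 1 := by ring
  rw [nb, h, card_comps]

theorem a7b_mono_of_step (g : ℕ → ℝ) (p : ℕ) (h : ∀ t, t < p → g t ≤ g (t + 1)) (s t : ℕ)
    (hst : s ≤ t) (ht : t ≤ p) : g s ≤ g t := by
  induction t, hst using Nat.le_induction with
  | base => exact le_refl _
  | succ t hst ih => exact (ih (by omega)).trans (h t (by omega))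

theorem a7b_anti_of_step (g : ℕ → ℝ) (p : ℕ) (h : ∀ t, p ≤ t → g (t + 1) ≤ g t) (s t : ℕ)
    (hs : p ≤ s) (hst : s ≤ t) : g t ≤ g s := by
  induction t, hst using Nat.le_induction with
  | base => exact le_refl _
  | succ t hst ih => exact (h t (by omega)).trans ih

/-- `nb (2t) β = 2^{-β} C(β-1, 2t-1)` for `t ≥ 1`, `β ≥ 1` (`card_comps`); `0` for `t = 0`.
`C(N, j) ≤ C(N, j+2)` if `2j + 2 ≤ N`, and `C(N,j+2) ≤ C(N,j)` if `2j+2 ≥ N`
(`Nat.choose_succ_right_eq`, `Nat.choose_le_succ_of_lt_half_left`, symmetry). So one may take for `p` the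
number `(β + 2)/4` or the like. For `β = 0` take `p = 0`. (Any correct `p` is fine.) -/
theorem nb_even_unimodal (β : ℕ) :
    ∃ p : ℕ, (∀ s t : ℕ, s ≤ t → t ≤ p → nb (2 * s) β ≤ nb (2 * t) β) ∧
      (∀ s t : ℕ, p ≤ s → s ≤ t → nb (2 * t) β ≤ nb (2 * s) β) := by
  rcases β with _ | N
  · refine ⟨0, fun s t hst ht => ?_, fun s t _ hst => ?_⟩
    · obtain rfl : t = 0 := by omega
      obtain rfl : s = 0 := by omega
      exact le_refl _
    · rcases t with _ | t
      · obtain rfl : s = 0 := by omega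
        exact le_refl _
      · have h : 2 * (t + 1) = (2 * t + 1) + 1 := by ring
        rw [h, nb_succ_zero]
        exact nb_nonneg _ _
  · refine ⟨N / 4 + 1, fun s t hst ht => ?_, fun s t hs hst => ?_⟩
    · refine a7b_mono_of_step (fun t => nb (2 * t) (N + 1)) (N / 4 + 1) (fun t ht => ?_) s t hst ht
      rcases t with _ | t
      · have h0 : nb (2 * 0) (N + 1) = 0 := by
          rw [mul_zero, nb_zero, if_neg (by omega)]
        change nb (2 * 0) (N + 1) ≤ nb (2 * (0 + 1)) (N + 1)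
        rw [h0]
        exact nb_nonneg _ _
      · change nb (2 * (t + 1)) (N + 1) ≤ nb (2 * (t + 1 + 1)) (N + 1)
        rw [a7b_nb_choose, a7b_nb_choose]
        refine mul_le_mul_of_nonneg_left ?_ (by positivity)
        have h1 : 2 * (t + 1) + 1 = (2 * t + 1) + 2 := by ring
        rw [h1]
        exact_mod_cast a7b_choose_up N (2 * t + 1) (by omega)
    · refine a7b_anti_of_step (fun t => nb (2 * t) (N + 1)) (N / 4 + 1) (fun t ht => ?_) s t hs hst
      rcases t with _ | t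
      · omega
      · change nb (2 * (t + 1 + 1)) (N + 1) ≤ nb (2 * (t + 1)) (N + 1)
        rw [a7b_nb_choose, a7b_nb_choose]
        refine mul_le_mul_of_nonneg_left ?_ (by positivity)
        have h1 : 2 * (t + 1) + 1 = (2 * t + 1) + 2 := by ring
        rw [h1]
        exact_mod_cast a7b_choose_down N (2 * t + 1) (by omega)

/-- Antitone weights. If `w` is nonnegative and antitone on `[0,n)`, `f ≥ 0` (not needed) and
`∑_{s<t} f s ≤ ρ t + M` for all `t ≤ n`, then `∑_{t<n} w t f t ≤ ρ ∑_{t<n} w t + M w 0`.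
Induction on `n` with the stronger claim
`∑_{t<n} w t f t + w (n-1) (ρ n + M - A n) ≤ ρ ∑_{t<n} w t + M w 0`, `A n = ∑_{s<n} f s` (`n ≥ 1`);
the step needs `w n f n - ρ w n ≤ w(n-1)(ρ n + M - A n) - w n (ρ(n+1) + M - A(n+1))`, true since
`ρ n + M - A n ≥ 0` and `w n ≤ w (n-1)`. -/
theorem sum_antitone_mul_le (n : ℕ) (w f : ℕ → ℝ) (ρ M : ℝ) (hM : 0 ≤ M) (hw0 : ∀ t, 0 ≤ w t)
    (hw : ∀ s t, s ≤ t → t < n → w t ≤ w s) (hf : ∀ t ≤ n, ∑ s ∈ range t, f s ≤ ρ * t + M) :
    ∑ t ∈ range n, w t * f t ≤ ρ * ∑ t ∈ range n, w t + M * w 0 := by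
  have key : ∀ m : ℕ, m + 1 ≤ n →
      ∑ t ∈ range (m + 1), w t * f t +
        w m * (ρ * ((m + 1 : ℕ) : ℝ) + M - ∑ s ∈ range (m + 1), f s) ≤
      ρ * ∑ t ∈ range (m + 1), w t + M * w 0 := by
    intro m
    induction m with
    | zero =>
      intro _
      simp only [zero_add, sum_range_one, Nat.cast_one]
      linarith
    | succ m ih =>
      intro hm
      have h1 := ih (by omega)
      have h2 := hf (m + 1) (by omega)
      have h3 := hw m (m + 1) (by omega) (by omega)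
      have h4 : w (m + 1) * (ρ * ((m + 1 : ℕ) : ℝ) + M - ∑ s ∈ range (m + 1), f s) ≤
          w m * (ρ * ((m + 1 : ℕ) : ℝ) + M - ∑ s ∈ range (m + 1), f s) :=
        mul_le_mul_of_nonneg_right h3 (by linarith)
      rw [sum_range_succ (fun t => w t * f t) (m + 1), sum_range_succ f (m + 1),
        sum_range_succ w (m + 1)]
      push_cast at h1 h4 ⊢
      linarith
  rcases n with _ | n
  · simp only [range_zero, sum_empty, mul_zero, zero_add]
    exact mul_nonneg hM (hw0 0)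
  · have h1 := key n le_rfl
    have h2 := hf (n + 1) le_rfl
    have h3 := mul_nonneg (hw0 n) (sub_nonneg.2 h2)
    linarith

theorem a7b_consec (M : ℕ) (hM : 1 ≤ M) (ρ : ℝ) (hρ : 0 ≤ ρ) (f : ℕ → ℝ)
    (hf1 : ∀ t, f t ≤ 1)
    (hf : ∀ t0, ∑ i ∈ range M, f (t0 + i) ≤ ρ * M) (j : ℕ) :
    ∀ a, ∑ i ∈ range j, f (a + i) ≤ ρ * j + M := by
  induction j using Nat.strong_induction_on with
  | _ j ih =>
    intro a
    rcases Nat.lt_or_ge j M with h | h
    · have h1 : ∑ i ∈ range j, f (a + i) ≤ ∑ _i ∈ range j, (1 : ℝ) :=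
        sum_le_sum fun i _ => hf1 _
      simp only [sum_const, card_range, nsmul_eq_mul, mul_one] at h1
      have h2 : (j : ℝ) ≤ M := by exact_mod_cast h.le
      have h3 : 0 ≤ ρ * j := by positivity
      linarith
    · obtain ⟨j', rfl⟩ : ∃ j', j = M + j' := ⟨j - M, by omega⟩
      rw [sum_range_add]
      have h1 := ih j' (by omega) (a + M)
      have h2 := hf a
      have h3 : ∑ x ∈ range j', f (a + (M + x)) = ∑ x ∈ range j', f (a + M + x) :=
        sum_congr rfl fun x _ => by rw [add_assoc]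
      rw [h3]
      push_cast
      linarith

/-- Let `p` be as in `nb_even_unimodal`, `w t = nb (2t) β ≤ 1/√β` and `∑ w ≤ 1` (`sum_nb_even_le_one`).
Any sum of `f` over `j` consecutive integers is `≤ ρ j + M` (full blocks of length `M`, and fewer than `M` terms `≤ 1`).
Apply `sum_antitone_mul_le` to `t ↦ w (p + t), f (p + t)` (part `t ≥ p`, `t < T`) and, reversed, to
`i ↦ w (q - 1 - i), f (q - 1 - i)` with `q = min p T` (part `t < q`, `Finset.sum_range_reflect`). -/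
theorem nb_block (β T M : ℕ) (hβ : 1 ≤ β) (hM : 1 ≤ M) (ρ : ℝ) (hρ : 0 ≤ ρ) (f : ℕ → ℝ)
    (hf0 : ∀ t, 0 ≤ f t) (hf1 : ∀ t, f t ≤ 1)
    (hf : ∀ t0, ∑ i ∈ range M, f (t0 + i) ≤ ρ * M) :
    ∑ t ∈ range T, nb (2 * t) β * f t ≤ ρ + 2 * M / Real.sqrt β := by
  obtain ⟨p, hp1, hp2⟩ := nb_even_unimodal β
  have hc := a7b_consec M hM ρ hρ f hf1 hf
  have hM0 : (0 : ℝ) ≤ M := Nat.cast_nonneg M
  obtain ⟨q, hq⟩ : ∃ q, q = min p T := ⟨_, rfl⟩
  have hqT : q ≤ T := by omega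
  obtain ⟨r, hr⟩ : ∃ r, T = q + r := ⟨T - q, by omega⟩
  -- part `t ≥ q`
  have h1 : ∑ i ∈ range r, nb (2 * (q + i)) β * f (q + i) ≤
      ρ * ∑ i ∈ range r, nb (2 * (q + i)) β + M * nb (2 * (q + 0)) β := by
    refine sum_antitone_mul_le r (fun i => nb (2 * (q + i)) β) (fun i => f (q + i)) ρ M hM0
      (fun t => nb_nonneg _ _) (fun s t hst ht => ?_) (fun t _ => hc t q)
    exact hp2 (q + s) (q + t) (by omega) (by omega)
  -- part `t < q`
  have h2 : ∑ i ∈ range q, nb (2 * (q - 1 - i)) β * f (q - 1 - i) ≤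
      ρ * ∑ i ∈ range q, nb (2 * (q - 1 - i)) β + M * nb (2 * (q - 1 - 0)) β := by
    refine sum_antitone_mul_le q (fun i => nb (2 * (q - 1 - i)) β) (fun i => f (q - 1 - i)) ρ M hM0
      (fun t => nb_nonneg _ _) (fun s t hst ht => ?_) (fun t ht => ?_)
    · exact hp1 (q - 1 - t) (q - 1 - s) (by omega) (by omega)
    · have h3 : ∑ s ∈ range t, f (q - 1 - s) = ∑ s ∈ range t, f (q - t + s) := by
        rw [← sum_range_reflect]
        refine sum_congr rfl fun s hs => ?_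
        rw [mem_range] at hs
        congr 1
        omega
      change ∑ s ∈ range t, f (q - 1 - s) ≤ ρ * t + M
      rw [h3]
      exact hc t (q - t)
  rw [sum_range_reflect (fun t => nb (2 * t) β * f t) q,
    sum_range_reflect (fun t => nb (2 * t) β) q] at h2
  have h4 : ∀ t, nb (2 * t) β ≤ 1 / Real.sqrt β := fun t => nb_le_inv_sqrt _ _ hβ
  have h5 := sum_nb_even_le_one T β
  rw [hr, sum_range_add] at h5
  rw [hr, sum_range_add]
  have h6 : (M : ℝ) * nb (2 * (q + 0)) β ≤ M * (1 / Real.sqrt β) :=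
    mul_le_mul_of_nonneg_left (h4 _) hM0
  have h7 : (M : ℝ) * nb (2 * (q - 1 - 0)) β ≤ M * (1 / Real.sqrt β) :=
    mul_le_mul_of_nonneg_left (h4 _) hM0
  have h8 : ρ * (∑ t ∈ range q, nb (2 * t) β + ∑ i ∈ range r, nb (2 * (q + i)) β) ≤ ρ * 1 :=
    mul_le_mul_of_nonneg_left h5 hρ
  have h9 : 2 * (M : ℝ) / Real.sqrt β = M * (1 / Real.sqrt β) + M * (1 / Real.sqrt β) := by ring
  rw [h9]
  linarith

end Pool.Agent.Lib.MP_d0d59f_nt.AA

end
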