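import Pool.Agent.Lib.MP_d0d59f_nt.PZ.K007
import Pool.Agent.Lib.MP_d0d59f_nt.PZ.K009

/-! Row D1 (about 250 lines): least residues, the factor `ff`, first properties of `qq`. -/

namespace Pool.Agent.Lib.MP_d0d59f_nt.AA

open Finset

theorem qq_nonneg (K L J : ℕ) (y : ZMod (3 ^ K)) : 0 ≤ qq K L J y := by
  induction J generalizing y with
  | zero => simp [qq]
  | succ J ih =>
    unfold qq
    apply sum_nonneg
    intro b _
    exact mul_nonneg (mul_nonneg (pw_nonneg b) (ff_nonneg _ _ _)) (ih _)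

theorem qq_le_one (K L J : ℕ) (y : ZMod (3 ^ K)) : qq K L J y ≤ 1 := by
  induction J generalizing y with
  | zero => simp [qq]
  | succ J ih =>
    unfold qq
    refine le_trans (sum_le_sum (g := fun b => pw b) ?_) (sum_pw_le_one _)
    intro b _
    have h1 : ff K b (i2 K ^ b * y) * qq K L J (9 * (i2 K ^ b * y)) ≤ 1 :=
      mul_le_one₀ (ff_le_one _ _ _) (qq_nonneg _ _ _ _) (ih _)
    rw [mul_assoc]
    exact mul_le_of_le_one_right (pw_nonneg b) h1

/-- `qq K L (J+1) y ≤ ∑_{b ≤ L'} pw b U_b` if `L ≤ L'`, `U ≥ 0` and `ff · qq ≤ U_b` for all `b ≥ 2`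
(`pw 0 = pw 1 = 0`). -/
theorem qq_succ_le {K L J : ℕ} (y : ZMod (3 ^ K)) (L' : ℕ) (hL : L ≤ L') (U : ℕ → ℝ)
    (hU0 : ∀ b, 0 ≤ U b)
    (hU : ∀ b, 2 ≤ b → ff K b (i2 K ^ b * y) * qq K L J (9 * (i2 K ^ b * y)) ≤ U b) :
    qq K L (J + 1) y ≤ ∑ b ∈ range (L' + 1), pw b * U b := by
  unfold qq
  calc ∑ b ∈ range (L + 1), pw b * ff K b (i2 K ^ b * y) * qq K L J (9 * (i2 K ^ b * y))
      ≤ ∑ b ∈ range (L + 1), pw b * U b := by
        apply sum_le_sum
        intro b _
        rcases Nat.lt_or_ge b 2 with hb | hb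
        · have h0 : pw b = 0 := by
            unfold pw
            have : b - 1 = 0 := by omega
            rw [this]
            simp
          rw [h0]
          simp
        · rw [mul_assoc]
          exact mul_le_mul_of_nonneg_left (hU b hb) (pw_nonneg b)
    _ ≤ _ := by
        apply sum_le_sum_of_subset_of_nonneg
        · intro b hb
          rw [mem_range] at *
          omega
        · intro b _ _
          exact mul_nonneg (pw_nonneg b) (hU0 b)

/-- One step without gain. -/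
theorem qq_succ_le_const {K L J : ℕ} (y : ZMod (3 ^ K)) (V : ℝ) (hV0 : 0 ≤ V)
    (hV : ∀ b, qq K L J (9 * (i2 K ^ b * y)) ≤ V) : qq K L (J + 1) y ≤ V := by
  have h := qq_succ_le (L := L) (J := J) y L le_rfl (fun _ => V) (fun _ => hV0) (by
    intro b _
    calc ff K b (i2 K ^ b * y) * qq K L J (9 * (i2 K ^ b * y))
        ≤ 1 * qq K L J (9 * (i2 K ^ b * y)) :=
          mul_le_mul_of_nonneg_right (ff_le_one _ _ _) (qq_nonneg _ _ _ _)
      _ ≤ V := by rw [one_mul]; exact hV b)
  refine h.trans ?_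
  rw [← sum_mul]
  calc (∑ b ∈ range (L + 1), pw b) * V ≤ 1 * V :=
        mul_le_mul_of_nonneg_right (sum_pw_le_one _) hV0
    _ = V := one_mul _

/-- One step from a state whose `b = 3` move is white (`pw 3 = 1/4`; take `L' = max L 3` in
`qq_succ_le`). -/
theorem qq_white {K L J : ℕ} (y : ZMod (3 ^ K)) (V : ℝ) (hV0 : 0 ≤ V)
    (hw : 1 / 2048 ≤ aa K (i2 K ^ 3 * y))
    (hV : ∀ b, qq K L J (9 * (i2 K ^ b * y)) ≤ V) : qq K L (J + 1) y ≤ (1 - kap / 4) * V := by
  have hk1 := kap_le_one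
  have hk0 := kap_pos
  have h := qq_succ_le (L := L) (J := J) y (max L 3) (le_max_left _ _)
    (fun b => if b = 3 then (1 - kap) * V else V) (by
      intro b
      split_ifs
      · exact mul_nonneg (by linarith) hV0
      · exact hV0) (by
    intro b _
    split_ifs with hb
    · subst hb
      exact mul_le_mul (ff_three_le hw) (hV 3) (qq_nonneg _ _ _ _) (by linarith)
    · calc ff K b (i2 K ^ b * y) * qq K L J (9 * (i2 K ^ b * y))
          ≤ 1 * qq K L J (9 * (i2 K ^ b * y)) :=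
            mul_le_mul_of_nonneg_right (ff_le_one _ _ _) (qq_nonneg _ _ _ _)
        _ ≤ V := by rw [one_mul]; exact hV b)
  refine h.trans ?_
  have h3 : (3 : ℕ) ∈ range (max L 3 + 1) := by
    rw [mem_range]
    omega
  have hp3 : pw 3 = 1 / 4 := by
    unfold pw
    norm_num
  have h4 : ∑ b ∈ range (max L 3 + 1), pw b * (if b = 3 then (1 - kap) * V else V) =
      (∑ b ∈ range (max L 3 + 1), pw b) * V - pw 3 * (kap * V) := by
    rw [← add_sum_erase _ _ h3, ← add_sum_erase _ pw h3, if_pos rfl, add_mul, sum_mul]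
    have h5 : ∑ b ∈ (range (max L 3 + 1)).erase 3, pw b * (if b = 3 then (1 - kap) * V else V) =
        ∑ b ∈ (range (max L 3 + 1)).erase 3, pw b * V := by
      apply sum_congr rfl
      intro b hb
      rw [if_neg (ne_of_mem_erase hb)]
    rw [h5]
    ring
  rw [h4, hp3]
  have h6 : (∑ b ∈ range (max L 3 + 1), pw b) * V ≤ 1 * V :=
    mul_le_mul_of_nonneg_right (sum_pw_le_one _) hV0
  linarith

end Pool.Agent.Lib.MP_d0d59f_nt.AA
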