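import Pool.Agent.Lib.MP_d0d59f_nt.PZ.K008
import Pool.Agent.Lib.MP_d0d59f_nt.PZ.K019
import Pool.Agent.Lib.MP_d0d59f_nt.PZ.K023

section

/-! Row C6 (about 250 lines): the mass of the bad words. -/

namespace Pool.Agent.Lib.MP_d0d59f_nt.AA

open Finset

theorem c6_exch (L : ℕ) (F : ℕ → ℕ → ℝ) :
    ∑ l ∈ range (L + 1), ∑ a ∈ Icc 1 l, F a (l - a) =
      ∑ a ∈ Icc 1 L, ∑ m ∈ range (L - a + 1), F a m := by
  rw [Finset.sum_sigma', Finset.sum_sigma']
  refine Finset.sum_bij' (fun p _ => ⟨p.2, p.1 - p.2⟩) (fun p _ => ⟨p.1 + p.2, p.1⟩) ?_ ?_ ?_ ?_ ?_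
  · rintro ⟨l, a⟩ h
    simp only [mem_sigma, mem_range, mem_Icc] at h ⊢
    omega
  · rintro ⟨a, m⟩ h
    simp only [mem_sigma, mem_range, mem_Icc] at h ⊢
    omega
  · rintro ⟨l, a⟩ h
    simp only [mem_sigma, mem_range, mem_Icc] at h
    have : a + (l - a) = l := by omega
    simp only [this]
  · rintro ⟨a, m⟩ h
    have : a + m - a = m := by omega
    simp only [this]
  · rintro ⟨l, a⟩ h
    rfl

theorem c6_geom (L : ℕ) : ∑ a ∈ Icc 1 L, (1 / 2 : ℝ) ^ a = 1 - (1 / 2) ^ L := by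
  induction L with
  | zero => simp
  | succ L ih =>
    rw [Finset.sum_Icc_succ_top (by omega), ih, pow_succ]
    ring

theorem c6_geom2 (h L : ℕ) :
    ∑ a ∈ Icc 1 L, (1 / 2 : ℝ) ^ a * (if h < a then 1 else 0) ≤ (1 / 2) ^ h := by
  have h1 : ∑ a ∈ Icc 1 L, (1 / 2 : ℝ) ^ a * (if h < a then 1 else 0) =
      if h ≤ L then (1 / 2) ^ h - (1 / 2) ^ L else 0 := by
    induction L with
    | zero =>
      rcases Nat.eq_zero_or_pos h with rfl | hh
      · simp
      · rw [if_neg (by omega)]; simp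
    | succ L ih =>
      rw [Finset.sum_Icc_succ_top (by omega), ih]
      rcases lt_trichotomy h (L + 1) with hh | hh | hh
      · rw [if_pos (by omega), if_pos hh, if_pos (by omega), pow_succ]
        ring
      · subst hh
        rw [if_neg (by omega), if_neg (by omega), if_pos le_rfl]
        ring
      · rw [if_neg (by omega), if_neg (by omega), if_neg (by omega)]
        ring
  rw [h1]
  split
  · have : (0 : ℝ) ≤ (1 / 2) ^ L := by positivity
    linarith
  · positivity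

/-- splitting off the head (last step) -/
theorem c6_head (n L : ℕ) (P : List ℕ → Prop) [DecidablePred P] :
    ∑ l ∈ range (L + 1), (1 / 2 : ℝ) ^ l * (((comps (n + 1) l).filter P).card : ℝ) =
      ∑ a ∈ Icc 1 L, (1 / 2 : ℝ) ^ a * ∑ m ∈ range (L - a + 1), (1 / 2 : ℝ) ^ m *
        (((comps n m).filter fun e => P (a :: e)).card : ℝ) := by
  have h1 : ∀ a ∈ Icc 1 L, (1 / 2 : ℝ) ^ a * ∑ m ∈ range (L - a + 1), (1 / 2 : ℝ) ^ m *
        (((comps n m).filter fun e => P (a :: e)).card : ℝ) =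
      ∑ m ∈ range (L - a + 1), (1 / 2 : ℝ) ^ a * ((1 / 2 : ℝ) ^ m *
        (((comps n m).filter fun e => P (a :: e)).card : ℝ)) := fun a _ => by rw [Finset.mul_sum]
  rw [Finset.sum_congr rfl h1, ← c6_exch L (fun a m => (1 / 2 : ℝ) ^ a * ((1 / 2 : ℝ) ^ m *
        (((comps n m).filter fun e => P (a :: e)).card : ℝ)))]
  refine Finset.sum_congr rfl fun l _ => ?_
  rw [Finset.card_filter, Nat.cast_sum, sum_comps_succ, Finset.mul_sum]
  refine Finset.sum_congr rfl fun a ha => ?_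
  rw [mem_Icc] at ha
  rw [Finset.card_filter, Nat.cast_sum, ← mul_assoc, ← pow_add]
  congr 2
  omega

/-- Entry `t+1` (index `t`) larger than `h`: by `marginal_le` (with `t+1`) the mass is at most
`∑_{s ≤ L} 2^{-s} #{e1 ∈ comps (t+1) s : h < last entry}`, and splitting `comps (t+1) s` by `sum_comps_add`
(`t` and `1`) this is at most `∑_{s'} nb t s' ∑_{a > h} 2^{-a} ≤ 2^{-h}`. -/
theorem mass_entry (n t h L : ℕ) (ht : t < n) :
    ∑ l ∈ range (L + 1), (1 / 2 : ℝ) ^ l *
      (((comps n l).filter fun e => h < e.getD t 0).card : ℝ) ≤ 1 / 2 ^ h := by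
  obtain ⟨n, rfl⟩ : ∃ m, n = m + 1 := ⟨n - 1, by omega⟩
  induction t generalizing n L with
  | zero =>
    rw [c6_head n L (fun e => h < e.getD 0 0)]
    calc _ ≤ ∑ a ∈ Icc 1 L, (1 / 2 : ℝ) ^ a * (if h < a then 1 else 0) := by
          refine Finset.sum_le_sum fun a _ => ?_
          refine mul_le_mul_of_nonneg_left ?_ (by positivity)
          by_cases ha : h < a
          · rw [if_pos ha]
            have h2 := sum_nb_le_one n (L - a)
            refine le_trans (Finset.sum_le_sum fun m _ => ?_) h2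
            unfold nb
            refine mul_le_mul_of_nonneg_left ?_ (by positivity)
            exact_mod_cast Finset.card_filter_le _ _
          · rw [if_neg ha]
            refine le_of_eq (Finset.sum_eq_zero fun m _ => ?_)
            rw [Finset.filter_false_of_mem]
            · simp
            · intro e _
              simpa using ha
      _ ≤ (1 / 2) ^ h := c6_geom2 h L
      _ = 1 / 2 ^ h := by rw [div_pow, one_pow]
  | succ t ih =>
    obtain ⟨n, rfl⟩ : ∃ m, n = m + 1 := ⟨n - 1, by omega⟩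
    rw [c6_head (n + 1) L (fun e => h < e.getD (t + 1) 0)]
    calc _ ≤ ∑ a ∈ Icc 1 L, (1 / 2 : ℝ) ^ a * (1 / 2 ^ h) := by
          refine Finset.sum_le_sum fun a _ => ?_
          refine mul_le_mul_of_nonneg_left ?_ (by positivity)
          exact ih (L - a) n (by omega)
      _ = (1 - (1 / 2) ^ L) * (1 / 2 ^ h) := by rw [← Finset.sum_mul, c6_geom]
      _ ≤ 1 * (1 / 2 ^ h) := by
          refine mul_le_mul_of_nonneg_right ?_ (by positivity)
          have : (0 : ℝ) ≤ (1 / 2) ^ L := by positivity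
          linarith
      _ = 1 / 2 ^ h := one_mul _

/-- the marginal inequality for the mass of a property of the prefix -/
theorem c6_marg (n t L : ℕ) (ht : t ≤ n) (P : List ℕ → Prop) [DecidablePred P] :
    ∑ l ∈ range (L + 1), (1 / 2 : ℝ) ^ l *
      (((comps n l).filter fun e => P (e.take t)).card : ℝ) ≤
    ∑ s ∈ range (L + 1), (1 / 2 : ℝ) ^ s * ∑ e1 ∈ comps t s, (if P e1 then (1 : ℝ) else 0) := by
  obtain ⟨m, rfl⟩ : ∃ m, n = t + m := ⟨n - t, by omega⟩
  have h := marginal_le t m L (fun e => if P e then (1 : ℝ) else 0)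
    (fun e => by split <;> norm_num)
  refine le_trans (le_of_eq (Finset.sum_congr rfl fun l _ => ?_)) h
  rw [Finset.card_filter, Nat.cast_sum]
  congr 1
  refine Finset.sum_congr rfl fun e _ => ?_
  split <;> simp

/-- Markov: by `marginal_le` and `cc_moment`; for a prefix `e1 ∈ comps t s` with `s ≤ S`, `2^S M0 ≤ cc e1`:
`1 ≤ cc e1 2^{-s}/M0`. -/
theorem mass_cc (n t S M0 L : ℕ) (ht : t ≤ n) (hM0 : 1 ≤ M0) :
    ∑ l ∈ range (L + 1), (1 / 2 : ℝ) ^ l *
      (((comps n l).filter fun e => (e.take t).sum ≤ S ∧ 2 ^ S * M0 ≤ cc (e.take t)).card : ℝ) ≤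
      (t : ℝ) / (3 * M0) := by
  have hM : (0 : ℝ) < M0 := by exact_mod_cast hM0
  refine (c6_marg n t L ht (fun e => e.sum ≤ S ∧ 2 ^ S * M0 ≤ cc e)).trans ?_
  calc _ ≤ ∑ s ∈ range (L + 1), (1 / (M0 : ℝ)) *
          ∑ e1 ∈ comps t s, (1 / 2 : ℝ) ^ s * ((cc e1 : ℝ) * (1 / 2) ^ s) := by
        refine Finset.sum_le_sum fun s _ => ?_
        rw [Finset.mul_sum, Finset.mul_sum]
        refine Finset.sum_le_sum fun e he => ?_
        obtain ⟨h1, h2, h3⟩ := mem_comps.1 he
        split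
        · rename_i hc
          obtain ⟨hc1, hc2⟩ := hc
          rw [h2] at hc1
          have h4 : (2 : ℝ) ^ s * M0 ≤ cc e := by
            have h5 : 2 ^ s * M0 ≤ cc e :=
              le_trans (Nat.mul_le_mul_right _ (Nat.pow_le_pow_right (by norm_num) hc1)) hc2
            exact_mod_cast h5
          have h6 : (1 : ℝ) ≤ 1 / M0 * (cc e * (1 / 2) ^ s) := by
            rw [div_pow, one_pow, mul_one_div, one_div_mul_eq_div, div_div, le_div_iff₀ (by positivity),
              one_mul]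
            exact h4
          calc (1 / 2 : ℝ) ^ s * 1 ≤ (1 / 2 : ℝ) ^ s * (1 / M0 * (cc e * (1 / 2) ^ s)) :=
                mul_le_mul_of_nonneg_left h6 (by positivity)
            _ = _ := by ring
        · rw [mul_zero]
          positivity
    _ = (1 / (M0 : ℝ)) * ∑ s ∈ range (L + 1),
          ∑ e1 ∈ comps t s, (1 / 2 : ℝ) ^ s * ((cc e1 : ℝ) * (1 / 2) ^ s) := by
        rw [Finset.mul_sum]
    _ ≤ (1 / (M0 : ℝ)) * (t / 3) := mul_le_mul_of_nonneg_left (cc_moment t L) (by positivity)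
    _ = (t : ℝ) / (3 * M0) := by
        field_simp

/-- a bad word -/
theorem c6_bad {n K τ L0 h l M0 : ℕ} (hτ : τ ≤ n) (hM : 2 ^ (L0 + h) * M0 ≤ 3 ^ (K + 1))
    {e : List ℕ} (he : e ∈ comps n l) (hg : ¬ good K τ L0 h e) :
    (e.take τ).sum ≤ L0 ∨ (∃ t ∈ range τ, h < e.getD t 0) ∨
      ∃ t ∈ Icc 1 τ, (e.take t).sum ≤ L0 + h ∧ 2 ^ (L0 + h) * M0 ≤ cc (e.take t) := by
  by_contra hcon
  push Not at hcon
  obtain ⟨h1, h2, h3⟩ := hcon
  obtain ⟨hl, -, -⟩ := mem_comps.1 he
  classical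
  have hex : ∃ t, L0 < (e.take t).sum := ⟨τ, h1⟩
  set t := Nat.find hex with ht
  have ht1 : L0 < (e.take t).sum := Nat.find_spec hex
  have htτ : t ≤ τ := Nat.find_min' hex h1
  have ht0 : 1 ≤ t := by
    rcases Nat.eq_zero_or_pos t with h0 | h0
    · rw [h0] at ht1
      simp at ht1
    · exact h0
  have ht2 : (e.take (t - 1)).sum ≤ L0 := by
    have := Nat.find_min hex (m := t - 1) (by omega)
    omega
  have hlen : t - 1 < e.length := by omega
  have htake : e.take t = e.take (t - 1) ++ [e.getD (t - 1) 0] := by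
    have h4 : t = t - 1 + 1 := by omega
    conv_lhs => rw [h4]
    rw [List.take_add_one, List.getD_eq_getElem?_getD, List.getElem?_eq_getElem hlen]
    simp
  have hsum : (e.take t).sum = (e.take (t - 1)).sum + e.getD (t - 1) 0 := by
    rw [htake, List.sum_append]
    simp
  have h5 := h2 (t - 1) (by rw [mem_range]; omega)
  have h6 : (e.take t).sum ≤ L0 + h := by omega
  have h7 := h3 t (mem_Icc.2 ⟨ht0, htτ⟩) h6
  refine hg ⟨t, mem_Icc.2 ⟨ht0, htτ⟩, h6, ht1, ?_, lt_of_lt_of_le h7 hM⟩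
  rw [htake, List.dropLast_concat]
  exact ht2

/-- If `(e.take τ).sum > L0` let `t` be minimal with `(e.take t).sum > L0`; `1 ≤ t ≤ τ`,
`(e.take t).dropLast = e.take (t-1)` has sum `≤ L0`; if its last entry is `≤ h` the sum is `≤ L0 + h`; if moreover
`cc (e.take t) < 3^(K+1)` then `e` is good. So a bad word has `(e.take τ).sum ≤ L0` (mass
`≤ ∑_{s≤L0} nb τ s ≤ (7/6)^L0 (3/4)^τ` by `marginal_le` and `low_tail1`), or an entry `> h` among the first `τ`
(`≤ τ/2^h`), or `cc (e.take t) ≥ 3^(K+1) ≥ 2^{L0+h} M0`, `(e.take t).sum ≤ L0 + h` for some `t ≤ τ` (`≤ τ · τ/(3 M0)`). -/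
theorem bad_mass (n K τ L0 h L M0 : ℕ) (hτ : τ ≤ n) (hM0 : 1 ≤ M0)
    (hM : 2 ^ (L0 + h) * M0 ≤ 3 ^ (K + 1)) :
    ∑ l ∈ range (L + 1), (1 / 2 : ℝ) ^ l *
      (((comps n l).filter fun e => ¬ good K τ L0 h e).card : ℝ) ≤
      (7 / 6 : ℝ) ^ L0 * (3 / 4) ^ τ + τ / 2 ^ h + (τ : ℝ) ^ 2 / M0 := by
  classical
  have hMp : (0 : ℝ) < M0 := by exact_mod_cast hM0
  -- union bound
  have hcard : ∀ l, (((comps n l).filter fun e => ¬ good K τ L0 h e).card : ℝ) ≤
      (((comps n l).filter fun e => (e.take τ).sum ≤ L0).card : ℝ) +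
      ∑ t ∈ range τ, (((comps n l).filter fun e => h < e.getD t 0).card : ℝ) +
      ∑ t ∈ Icc 1 τ, (((comps n l).filter fun e => (e.take t).sum ≤ L0 + h ∧
        2 ^ (L0 + h) * M0 ≤ cc (e.take t)).card : ℝ) := by
    intro l
    have hsub : ((comps n l).filter fun e => ¬ good K τ L0 h e) ⊆
        (((comps n l).filter fun e => (e.take τ).sum ≤ L0) ∪
        (range τ).biUnion fun t => (comps n l).filter fun e => h < e.getD t 0) ∪
        (Icc 1 τ).biUnion fun t => (comps n l).filter fun e => (e.take t).sum ≤ L0 + h ∧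
        2 ^ (L0 + h) * M0 ≤ cc (e.take t) := by
      intro e he
      rw [Finset.mem_filter] at he
      rcases c6_bad hτ hM he.1 he.2 with h1 | ⟨t, ht, h1⟩ | ⟨t, ht, h1⟩
      · exact Finset.mem_union_left _ (Finset.mem_union_left _ (Finset.mem_filter.2 ⟨he.1, h1⟩))
      · exact Finset.mem_union_left _ (Finset.mem_union_right _
          (Finset.mem_biUnion.2 ⟨t, ht, Finset.mem_filter.2 ⟨he.1, h1⟩⟩))
      · exact Finset.mem_union_right _
          (Finset.mem_biUnion.2 ⟨t, ht, Finset.mem_filter.2 ⟨he.1, h1⟩⟩)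
    have h1 := (Finset.card_le_card hsub).trans ((Finset.card_union_le _ _).trans
      (add_le_add ((Finset.card_union_le _ _).trans (add_le_add le_rfl Finset.card_biUnion_le))
        Finset.card_biUnion_le))
    exact_mod_cast h1
  have hA : ∑ l ∈ range (L + 1), (1 / 2 : ℝ) ^ l *
      (((comps n l).filter fun e => (e.take τ).sum ≤ L0).card : ℝ) ≤
      (7 / 6 : ℝ) ^ L0 * (3 / 4) ^ τ := by
    refine (c6_marg n τ L hτ (fun e => e.sum ≤ L0)).trans ?_
    refine le_trans ?_ (low_tail1 τ L0)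
    have h1 : ∀ s, (1 / 2 : ℝ) ^ s * ∑ e1 ∈ comps τ s, (if e1.sum ≤ L0 then (1 : ℝ) else 0) =
        if s ≤ L0 then nb τ s else 0 := by
      intro s
      have h2 : ∑ e1 ∈ comps τ s, (if e1.sum ≤ L0 then (1 : ℝ) else 0) =
          ∑ e1 ∈ comps τ s, (if s ≤ L0 then (1 : ℝ) else 0) := by
        refine Finset.sum_congr rfl fun e he => ?_
        rw [(mem_comps.1 he).2.1]
      rw [h2, Finset.sum_const, nsmul_eq_mul]
      unfold nb
      split <;> ring
    rw [Finset.sum_congr rfl fun s _ => h1 s, ← Finset.sum_filter]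
    refine Finset.sum_le_sum_of_subset_of_nonneg ?_ (fun i _ _ => nb_nonneg _ _)
    intro s hs
    rw [Finset.mem_filter] at hs
    rw [mem_range]
    omega
  have hB : ∀ t ∈ range τ, ∑ l ∈ range (L + 1), (1 / 2 : ℝ) ^ l *
      (((comps n l).filter fun e => h < e.getD t 0).card : ℝ) ≤ 1 / 2 ^ h := fun t ht =>
    mass_entry n t h L (by rw [mem_range] at ht; omega)
  have hC : ∀ t ∈ Icc 1 τ, ∑ l ∈ range (L + 1), (1 / 2 : ℝ) ^ l *
      (((comps n l).filter fun e => (e.take t).sum ≤ L0 + h ∧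
        2 ^ (L0 + h) * M0 ≤ cc (e.take t)).card : ℝ) ≤ (τ : ℝ) / M0 := fun t ht => by
    rw [mem_Icc] at ht
    refine (mass_cc n t (L0 + h) M0 L (by omega) hM0).trans ?_
    have h1 : (t : ℝ) ≤ τ := by exact_mod_cast ht.2
    have h2 : (0 : ℝ) ≤ t := Nat.cast_nonneg _
    rw [div_le_div_iff₀ (by positivity) hMp]
    nlinarith [mul_nonneg h2 hMp.le]
  calc _ ≤ ∑ l ∈ range (L + 1), (1 / 2 : ℝ) ^ l *
        ((((comps n l).filter fun e => (e.take τ).sum ≤ L0).card : ℝ) +
        ∑ t ∈ range τ, (((comps n l).filter fun e => h < e.getD t 0).card : ℝ) +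
        ∑ t ∈ Icc 1 τ, (((comps n l).filter fun e => (e.take t).sum ≤ L0 + h ∧
        2 ^ (L0 + h) * M0 ≤ cc (e.take t)).card : ℝ)) :=
        Finset.sum_le_sum fun l _ => mul_le_mul_of_nonneg_left (hcard l) (by positivity)
    _ = ∑ l ∈ range (L + 1), (1 / 2 : ℝ) ^ l *
        (((comps n l).filter fun e => (e.take τ).sum ≤ L0).card : ℝ) +
        ∑ t ∈ range τ, ∑ l ∈ range (L + 1), (1 / 2 : ℝ) ^ l *
          (((comps n l).filter fun e => h < e.getD t 0).card : ℝ) +
        ∑ t ∈ Icc 1 τ, ∑ l ∈ range (L + 1), (1 / 2 : ℝ) ^ l *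
          (((comps n l).filter fun e => (e.take t).sum ≤ L0 + h ∧
          2 ^ (L0 + h) * M0 ≤ cc (e.take t)).card : ℝ) := by
        rw [Finset.sum_comm (s := range τ), Finset.sum_comm (s := Icc 1 τ),
          ← Finset.sum_add_distrib, ← Finset.sum_add_distrib]
        refine Finset.sum_congr rfl fun l _ => ?_
        rw [mul_add, mul_add, Finset.mul_sum, Finset.mul_sum]
    _ ≤ (7 / 6 : ℝ) ^ L0 * (3 / 4) ^ τ + ∑ t ∈ range τ, (1 / 2 ^ h : ℝ) +
        ∑ t ∈ Icc 1 τ, (τ : ℝ) / M0 :=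
        add_le_add (add_le_add hA (Finset.sum_le_sum hB)) (Finset.sum_le_sum hC)
    _ = _ := by
        rw [Finset.sum_const, Finset.sum_const, card_range, Nat.card_Icc, nsmul_eq_mul,
          nsmul_eq_mul, Nat.add_sub_cancel]
        ring

end Pool.Agent.Lib.MP_d0d59f_nt.AA

end

section

/-! Row D3 (about 150 lines): decomposition at the crossing of a level. -/

namespace Pool.Agent.Lib.MP_d0d59f_nt.AA

open Finset

/-- One step without the factor `ff`. -/
theorem d3_step (K L J : ℕ) (z : ZMod (3 ^ K)) :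
    qq K L (J + 1) z ≤ ∑ b ∈ range (L + 1), pw b * qq K L J (9 * (i2 K ^ b * z)) := by
  rw [qq]
  refine sum_le_sum fun b _ => ?_
  refine mul_le_mul_of_nonneg_right ?_ (qq_nonneg _ _ _ _)
  calc pw b * ff K b (i2 K ^ b * z) ≤ pw b * 1 :=
        mul_le_mul_of_nonneg_left (ff_le_one _ _ _) (pw_nonneg b)
    _ = pw b := mul_one _

/-- One step, the moves split at `E`. -/
theorem d3_split (K L J E : ℕ) (z : ZMod (3 ^ K)) :
    qq K L (J + 1) z ≤ ∑ b ∈ Ico (E + 1) (L + 1), pw b * qq K L J (9 * (i2 K ^ b * z))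
      + ∑ b ∈ range (E + 1), pw b * qq K L J (9 * (i2 K ^ b * z)) := by
  refine (d3_step K L J z).trans ?_
  have hdisj : Disjoint (Ico (E + 1) (L + 1)) (range (E + 1)) := by
    rw [Finset.disjoint_left]
    intro b hb hb'
    rw [mem_Ico] at hb
    rw [mem_range] at hb'
    omega
  rw [← sum_union hdisj]
  refine sum_le_sum_of_subset_of_nonneg ?_ fun b _ _ => mul_nonneg (pw_nonneg b) (qq_nonneg _ _ _ _)
  intro b hb
  rw [mem_range] at hb
  rw [mem_union, mem_Ico, mem_range]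
  omega

/-- Reindexing `(β, b) ↦ (β + b, b)`. -/
theorem d3_reindex (D : ℕ) (f : ℕ → ℕ → ℝ) :
    ∑ β ∈ range (D + 1), ∑ b ∈ range (D - β + 1), f β b =
      ∑ β ∈ range (D + 1), ∑ b ∈ range (β + 1), f (β - b) b := by
  rw [sum_sigma', sum_sigma']
  refine sum_nbij' (fun p => ⟨p.1 + p.2, p.2⟩) (fun p => ⟨p.1 - p.2, p.2⟩) ?_ ?_ ?_ ?_ ?_
  · rintro ⟨β, b⟩ h
    simp only [mem_sigma, mem_range] at h ⊢
    omega
  · rintro ⟨β, b⟩ h
    simp only [mem_sigma, mem_range] at h ⊢
    omega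
  · rintro ⟨β, b⟩ h
    simp
  · rintro ⟨β, b⟩ h
    simp only [mem_sigma, mem_range] at h
    simp only [Sigma.mk.injEq, heq_eq_eq, and_true]
    omega
  · rintro ⟨β, b⟩ h
    simp

/-- Induction on `T`. `T = 0`: `nb 0 β = [β = 0]`. Step (`J - T ≥ 1`): each term of the last sum satisfies
`qq (J-T) z ≤ ∑_{b ≤ L} pw b qq (J-T-1) (9 (i2^b z))` (`ff ≤ 1`), `z = 9^T (i2^β y)`. Split the `b`'s into `b > D - β`
(new term `t = T` of the first sum) and `b ≤ D - β`; for the latter enlarge the range to all `b ≤ D - β`, put `β' = β + b ≤ D`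
and use `nb_two_add`: `∑_{b ≤ β'} pw b nb (2T) (β'-b) = nb (2(T+1)) β'`. -/
theorem crossing (K L J D T : ℕ) (hT : T ≤ J) (y : ZMod (3 ^ K)) :
    qq K L J y ≤
      ∑ t ∈ range T, ∑ β ∈ range (D + 1), nb (2 * t) β *
        ∑ b ∈ Ico (D - β + 1) (L + 1), pw b *
          qq K L (J - t - 1) (9 ^ (t + 1) * (i2 K ^ (β + b) * y))
      + ∑ β ∈ range (D + 1), nb (2 * T) β * qq K L (J - T) (9 ^ T * (i2 K ^ β * y)) := by
  induction T with
  | zero =>
    rw [range_zero, sum_empty, zero_add, sum_eq_single 0]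
    · simp [nb_zero]
    · intro b _ hb
      rw [mul_zero, nb_zero, if_neg hb, zero_mul]
    · intro h
      exact absurd (mem_range.2 (Nat.succ_pos _)) h
  | succ T ih =>
    refine (ih (by omega)).trans ?_
    rw [sum_range_succ _ T, add_assoc]
    refine add_le_add_right ?_ _
    have hJ : J - T = (J - (T + 1)) + 1 := by omega
    have hJ' : J - T - 1 = J - (T + 1) := by omega
    have hz : ∀ (β b : ℕ), (9 : ZMod (3 ^ K)) * (i2 K ^ b * (9 ^ T * (i2 K ^ β * y))) =
        9 ^ (T + 1) * (i2 K ^ (β + b) * y) := by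
      intro β b
      rw [pow_succ, pow_add]
      ring
    have h1 : ∀ β ∈ range (D + 1), nb (2 * T) β * qq K L (J - T) (9 ^ T * (i2 K ^ β * y)) ≤
        nb (2 * T) β * ∑ b ∈ Ico (D - β + 1) (L + 1), pw b *
          qq K L (J - T - 1) (9 ^ (T + 1) * (i2 K ^ (β + b) * y)) +
        nb (2 * T) β * ∑ b ∈ range (D - β + 1), pw b *
          qq K L (J - (T + 1)) (9 ^ (T + 1) * (i2 K ^ (β + b) * y)) := by
      intro β _
      rw [← mul_add]
      refine mul_le_mul_of_nonneg_left ?_ (nb_nonneg _ _)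
      have h2 := d3_split K L (J - (T + 1)) (D - β) (9 ^ T * (i2 K ^ β * y))
      simp only [hz] at h2
      rw [hJ', hJ]
      exact h2
    refine (sum_le_sum h1).trans ?_
    rw [sum_add_distrib]
    refine add_le_add_right (le_of_eq ?_) _
    simp only [mul_sum]
    rw [d3_reindex D (fun β b => nb (2 * T) β * (pw b *
          qq K L (J - (T + 1)) (9 ^ (T + 1) * (i2 K ^ (β + b) * y))))]
    refine sum_congr rfl fun β _ => ?_
    rw [nb_two_add, sum_mul]
    refine sum_congr rfl fun b hb => ?_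
    rw [mem_range] at hb
    rw [Nat.sub_add_cancel (by omega)]
    ring

end Pool.Agent.Lib.MP_d0d59f_nt.AA

end
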