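import Mathlib

section

/-!
Shared definitions for MP_28dc30_nt (Roth lemma, hyperplane lemma, gcd of iterated integer parts).
-/

open MvPolynomial

namespace SB

/-- weighted degree `∑ i_h / d_h` of an exponent -/
noncomputable def wt {k : ℕ} (d : Fin k → ℕ) (i : Fin k →₀ ℕ) : ℝ :=
  ∑ h, (i h : ℝ) / (d h : ℝ)

/-- translation `Q(ζ + z)` -/
noncomputable def tr {k : ℕ} (ζ : Fin k → ℚ) :
    MvPolynomial (Fin k) ℚ →ₐ[ℚ] MvPolynomial (Fin k) ℚ :=
  aeval (fun h => C (ζ h) + X h)

/-- Hasse derivative of multi-order `μ` -/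
noncomputable def hd {σ R : Type*} [Fintype σ] [CommSemiring R] (μ : σ →₀ ℕ) :
    MvPolynomial σ R →ₗ[R] MvPolynomial σ R :=
  (basisMonomials σ R).constr R
    (fun J => monomial (J - μ) (((∏ h, (J h).choose (μ h) : ℕ) : R)))

/-- multidegree condition -/
def MDeg {k n : ℕ} (d : Fin k → ℕ) (J : Fin k × Fin n →₀ ℕ) : Prop :=
  ∀ h, ∑ i, J (h, i) = d h

/-- balanced exponents -/
def Bal {k n : ℕ} (d : Fin k → ℕ) (τ : ℝ) (J : Fin k × Fin n →₀ ℕ) : Prop :=
  ∀ i, |∑ h, (J (h, i) : ℝ) / (d h : ℝ) - (k : ℝ) / n| ≤ τ * k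

/-- weighted `ℓ¹`-norm of a polynomial with respect to a size function `ν` on the coefficients
and weights `w` of the variables -/
noncomputable def wn {σ R : Type*} [CommSemiring R] (ν : R → ℝ) (w : σ → ℝ)
    (p : MvPolynomial σ R) : ℝ :=
  ∑ J ∈ p.support, ν (p.coeff J) * J.prod (fun s e => w s ^ e)

/-- a size function on a ring: nonnegative, subadditive, submultiplicative -/
structure IsSize {R : Type*} [CommRing R] (ν : R → ℝ) : Prop where
  zero : ν 0 = 0
  nonneg : ∀ x, 0 ≤ ν x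
  add_le : ∀ x y, ν (x + y) ≤ ν x + ν y
  mul_le : ∀ x y, ν (x * y) ≤ ν x * ν y

/-- the coordinates of the generic point `∑ j a_{h,j} u_{h,j} + z_h e_0` of block `h` -/
noncomputable def gp {k n : ℕ} {R : Type*} [CommRing R] (u : Fin k → Fin n → Fin (n + 1) → R)
    (q : Fin k × Fin (n + 1)) : MvPolynomial ((Fin k × Fin n) ⊕ Fin k) R :=
  ∑ j, C (u q.1 j q.2) * X (Sum.inl (q.1, j)) + if q.2 = 0 then X (Sum.inr q.1) else 0

/-- the `z`-part of an exponent -/
noncomputable def zpart {α : Type*} {k : ℕ} (e : (α ⊕ Fin k) →₀ ℕ) : Fin k →₀ ℕ :=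
  Finsupp.equivFunOnFinite.symm (fun h => e (Sum.inr h))

end SB

end

section

/-! Chebyshev count of unbalanced exponents. -/

open MvPolynomial

namespace SB

/-- exponents of multidegree `d`, as functions -/
def Sx {k n : ℕ} (d : Fin k → ℕ) : Finset (Fin k → Fin n → ℕ) :=
  Fintype.piFinset fun h => Finset.piAntidiag Finset.univ (d h)

/-- function to exponent -/
noncomputable def ex {k n : ℕ} (J : Fin k → Fin n → ℕ) : Fin k × Fin n →₀ ℕ :=
  Finsupp.equivFunOnFinite.symm (fun q => J q.1 q.2)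

/-- the finite set of all exponents of multidegree `d` -/
noncomputable def Ex {k n : ℕ} (d : Fin k → ℕ) : Finset (Fin k × Fin n →₀ ℕ) :=
  open Classical in (Sx d).image ex

theorem count_ex_apply {k n : ℕ} (J : Fin k → Fin n → ℕ) (q : Fin k × Fin n) :
    ex J q = J q.1 q.2 := rfl

theorem count_ex_injective {k n : ℕ} : Function.Injective (ex (k := k) (n := n)) := by
  intro J J' h
  funext a b
  have := DFunLike.congr_fun h (a, b)
  simpa [count_ex_apply] using this

theorem mem_Ex {k n : ℕ} {d : Fin k → ℕ} {J : Fin k × Fin n →₀ ℕ} : J ∈ Ex d ↔ MDeg d J := by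
  classical
  unfold Ex Sx MDeg
  rw [Finset.mem_image]
  constructor
  · rintro ⟨v, hv, rfl⟩ h
    have h1 := (Fintype.mem_piFinset.1 hv) h
    rw [Finset.mem_piAntidiag] at h1
    simpa [count_ex_apply] using h1.1
  · intro hJ
    refine ⟨fun a b => J (a, b), ?_, ?_⟩
    · rw [Fintype.mem_piFinset]
      intro h
      rw [Finset.mem_piAntidiag]
      exact ⟨hJ h, fun _ _ => Finset.mem_univ _⟩
    · ext q
      rfl

theorem count_card_Ex {k n : ℕ} (d : Fin k → ℕ) : (Ex (n := n) d).card = (Sx (n := n) d).card := by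
  classical
  unfold Ex
  exact Finset.card_image_of_injective _ count_ex_injective

theorem count_card_pos {n : ℕ} (hn : 1 ≤ n) (D : ℕ) :
    0 < (Finset.piAntidiag (Finset.univ : Finset (Fin n)) D).card := by
  classical
  rw [Finset.card_pos]
  refine ⟨Pi.single ⟨0, hn⟩ D, ?_⟩
  rw [Finset.mem_piAntidiag]
  exact ⟨by simp, fun _ _ => Finset.mem_univ _⟩

theorem card_Ex_pos {k n : ℕ} (hn : 1 ≤ n) (d : Fin k → ℕ) : 0 < (Ex (n := n) d).card := by
  rw [count_card_Ex, Sx, Fintype.card_piFinset]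
  exact Finset.prod_pos fun h _ => count_card_pos hn (d h)

theorem count_card_le {n : ℕ} (hn : 1 ≤ n) {D : ℕ} (hD : 1 ≤ D) :
    (Finset.piAntidiag (Finset.univ : Finset (Fin n)) D).card ≤ (2 ^ (n + 1)) ^ D := by
  classical
  have h1 : (Finset.piAntidiag (Finset.univ : Finset (Fin n)) D).card = (n + D - 1).choose D := by
    rw [← Finset.map_sym_eq_piAntidiag, Finset.card_map, Finset.sym_univ, Finset.card_univ,
      Sym.card_sym_eq_choose, Fintype.card_fin]
  rw [h1]
  calc (n + D - 1).choose D ≤ 2 ^ (n + D - 1) := Nat.choose_le_two_pow _ _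
    _ ≤ 2 ^ ((n + 1) * D) := Nat.pow_le_pow_right (by norm_num) (by
        have : n * 1 ≤ n * D := Nat.mul_le_mul_left n hD
        rw [add_mul]
        omega)
    _ = (2 ^ (n + 1)) ^ D := by rw [pow_mul]

theorem card_Ex_le {k n : ℕ} (hn : 1 ≤ n) (d : Fin k → ℕ) (hd : ∀ h, 1 ≤ d h) :
    ((Ex (n := n) d).card : ℝ) ≤ ((2 : ℝ) ^ (n + 1)) ^ (∑ h, d h) := by
  rw [count_card_Ex, Sx, Fintype.card_piFinset, Nat.cast_prod, ← Finset.prod_pow_eq_pow_sum]
  refine Finset.prod_le_prod (fun _ _ => by positivity) (fun h _ => ?_)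
  exact_mod_cast count_card_le hn (hd h)

/-- second moment of a sum of independent centred variables -/
theorem count_second_moment {ι α : Type*} [Fintype ι] [DecidableEq ι] (D : ι → Finset α)
    (x : ι → α → ℝ) (h0 : ∀ h, ∑ v ∈ D h, x h v = 0) (h1 : ∀ h, ∀ v ∈ D h, |x h v| ≤ 1) :
    ∑ J ∈ Fintype.piFinset D, (∑ h, x h (J h)) ^ 2 ≤
      Fintype.card ι * (Fintype.piFinset D).card := by
  have hcross : ∀ a b, a ≠ b → ∑ J ∈ Fintype.piFinset D, x a (J a) * x b (J b) = 0 := by
    intro a b hab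
    have key := Finset.prod_univ_sum D
      (fun g v => if g = a then x a v else if g = b then x b v else 1)
    have hl : ∏ g, ∑ v ∈ D g, (if g = a then x a v else if g = b then x b v else (1:ℝ)) = 0 := by
      refine Finset.prod_eq_zero (Finset.mem_univ a) ?_
      simpa using h0 a
    rw [hl] at key
    rw [key]
    refine Finset.sum_congr rfl fun J _ => ?_
    rw [← Finset.mul_prod_erase Finset.univ _ (Finset.mem_univ a),
      ← Finset.mul_prod_erase (Finset.univ.erase a) _
        (Finset.mem_erase.2 ⟨hab.symm, Finset.mem_univ b⟩)]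
    rw [Finset.prod_eq_one (s := (Finset.univ.erase a).erase b)]
    · simp [hab.symm]
    · intro g hg
      rw [Finset.mem_erase, Finset.mem_erase] at hg
      simp [hg.1, hg.2.1]
  calc ∑ J ∈ Fintype.piFinset D, (∑ h, x h (J h)) ^ 2
      = ∑ a, ∑ b, ∑ J ∈ Fintype.piFinset D, x a (J a) * x b (J b) := by
        simp_rw [sq, Finset.sum_mul_sum]
        rw [Finset.sum_comm]
        refine Finset.sum_congr rfl fun a _ => ?_
        rw [Finset.sum_comm]
    _ = ∑ a, ∑ J ∈ Fintype.piFinset D, x a (J a) * x a (J a) := by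
        refine Finset.sum_congr rfl fun a _ => ?_
        rw [Finset.sum_eq_single a]
        · intro b _ hb
          exact hcross a b hb.symm
        · simp
    _ ≤ ∑ a : ι, ∑ J ∈ Fintype.piFinset D, (1:ℝ) := by
        refine Finset.sum_le_sum fun a _ => Finset.sum_le_sum fun J hJ => ?_
        have := h1 a (J a) (Fintype.mem_piFinset.1 hJ a)
        rw [← abs_mul_abs_self]
        exact mul_le_one₀ this (abs_nonneg _) this
    _ = Fintype.card ι * (Fintype.piFinset D).card := by
        simp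

/-- the coordinates have average `D / n` -/
theorem count_avg {n : ℕ} (hn : 1 ≤ n) {D : ℕ} (hD : 1 ≤ D) (i : Fin n) :
    ∑ v ∈ Finset.piAntidiag (Finset.univ : Finset (Fin n)) D, ((v i : ℝ) / D - 1 / n) = 0 := by
  classical
  have hsymm : ∀ j, ∑ v ∈ Finset.piAntidiag (Finset.univ : Finset (Fin n)) D, (v j : ℝ) =
      ∑ v ∈ Finset.piAntidiag (Finset.univ : Finset (Fin n)) D, (v i : ℝ) := by
    intro j
    refine Finset.sum_bij' (fun v _ => v ∘ Equiv.swap i j) (fun v _ => v ∘ Equiv.swap i j)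
      ?_ ?_ ?_ ?_ ?_
    · intro v hv
      rw [Finset.mem_piAntidiag] at hv ⊢
      refine ⟨?_, fun _ _ => Finset.mem_univ _⟩
      rw [← hv.1]
      exact Equiv.sum_comp (Equiv.swap i j) v
    · intro v hv
      rw [Finset.mem_piAntidiag] at hv ⊢
      refine ⟨?_, fun _ _ => Finset.mem_univ _⟩
      rw [← hv.1]
      exact Equiv.sum_comp (Equiv.swap i j) v
    · intro v _
      funext a
      simp
    · intro v _
      funext a
      simp
    · intro v _
      simp
  have hsum : ∑ j, ∑ v ∈ Finset.piAntidiag (Finset.univ : Finset (Fin n)) D, (v j : ℝ) =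
      D * (Finset.piAntidiag (Finset.univ : Finset (Fin n)) D).card := by
    rw [Finset.sum_comm]
    rw [Finset.sum_congr rfl (g := fun _ => (D : ℝ))]
    · simp [mul_comm]
    · intro v hv
      rw [Finset.mem_piAntidiag] at hv
      rw [← hv.1]
      push_cast
      rfl
  simp_rw [hsymm] at hsum
  rw [Finset.sum_const, Finset.card_univ, Fintype.card_fin, nsmul_eq_mul] at hsum
  rw [Finset.sum_sub_distrib, ← Finset.sum_div, Finset.sum_const, nsmul_eq_mul]
  have hn' : (n : ℝ) ≠ 0 := by positivity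
  have hD' : (D : ℝ) ≠ 0 := by positivity
  field_simp
  linarith

theorem count_abs_le {n : ℕ} (hn : 1 ≤ n) {D : ℕ} (hD : 1 ≤ D) (i : Fin n) {v : Fin n → ℕ}
    (hv : v ∈ Finset.piAntidiag (Finset.univ : Finset (Fin n)) D) :
    |(v i : ℝ) / D - 1 / n| ≤ 1 := by
  classical
  rw [Finset.mem_piAntidiag] at hv
  have h1 : v i ≤ D := by
    rw [← hv.1]
    exact Finset.single_le_sum (f := v) (fun _ _ => Nat.zero_le _) (Finset.mem_univ i)
  have hD' : (0 : ℝ) < D := by positivity
  have h2 : (v i : ℝ) / D ≤ 1 := by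
    rw [div_le_one hD']
    exact_mod_cast h1
  have h3 : (0 : ℝ) ≤ (v i : ℝ) / D := by positivity
  have h4 : (1 : ℝ) / n ≤ 1 := by
    rw [div_le_one (by positivity)]
    exact_mod_cast hn
  have h5 : (0 : ℝ) ≤ 1 / n := by positivity
  rw [abs_le]
  constructor <;> linarith

/-- the proportion of unbalanced exponents is at most `n / (τ² k)` -/
theorem card_unbalanced {k n : ℕ} (hn : 1 ≤ n) (d : Fin k → ℕ) (hd : ∀ h, 1 ≤ d h) (τ : ℝ)
    (hτ : 0 < τ) (hk : 1 ≤ k) :
    (((open Classical in (Ex (n := n) d).filter (fun J => ¬ Bal d τ J)).card : ℝ)) * (τ ^ 2 * k) ≤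
      n * (Ex (n := n) d).card := by
  classical
  have hk' : (0 : ℝ) < k := by positivity
  -- the bad set for one coordinate
  set U : Fin n → Finset (Fin k → Fin n → ℕ) := fun i =>
    (Sx (n := n) d).filter (fun J => τ * k < |∑ h, ((J h i : ℝ) / (d h : ℝ) - 1 / n)|) with hU
  have hUcard : ∀ i, ((U i).card : ℝ) * (τ ^ 2 * k) ≤ (Sx (n := n) d).card := by
    intro i
    have h1 := count_second_moment (fun h : Fin k => Finset.piAntidiag (Finset.univ : Finset (Fin n)) (d h))
      (fun h v => (v i : ℝ) / (d h : ℝ) - 1 / n) (fun h => count_avg hn (hd h) i)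
      (fun h v hv => count_abs_le hn (hd h) i hv)
    have h2 : ((U i).card : ℝ) * (τ * k) ^ 2 ≤
        ∑ J ∈ Sx (n := n) d, (∑ h, ((J h i : ℝ) / (d h : ℝ) - 1 / n)) ^ 2 := by
      calc ((U i).card : ℝ) * (τ * k) ^ 2 = ∑ J ∈ U i, (τ * k) ^ 2 := by simp
        _ ≤ ∑ J ∈ U i, (∑ h, ((J h i : ℝ) / (d h : ℝ) - 1 / n)) ^ 2 := by
            refine Finset.sum_le_sum fun J hJ => ?_
            rw [hU, Finset.mem_filter] at hJ
            rw [← sq_abs (∑ h, ((J h i : ℝ) / (d h : ℝ) - 1 / n))]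
            exact pow_le_pow_left₀ (by positivity) hJ.2.le 2
        _ ≤ _ := Finset.sum_le_sum_of_subset_of_nonneg (Finset.filter_subset _ _)
            (fun _ _ _ => sq_nonneg _)
    have h3 : ((U i).card : ℝ) * (τ * k) ^ 2 ≤ k * (Sx (n := n) d).card := by
      refine h2.trans ?_
      have := h1
      rw [Fintype.card_fin] at this
      exact this
    have h4 : k * (((U i).card : ℝ) * (τ ^ 2 * k)) ≤ k * ((Sx (n := n) d).card : ℝ) := by
      calc k * (((U i).card : ℝ) * (τ ^ 2 * k)) = ((U i).card : ℝ) * (τ * k) ^ 2 := by ring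
        _ ≤ _ := h3
    exact le_of_mul_le_mul_left h4 hk'
  have hsub : (Ex (n := n) d).filter (fun J => ¬ Bal d τ J) ⊆
      (Finset.univ.biUnion U).image ex := by
    intro J hJ
    rw [Finset.mem_filter] at hJ
    obtain ⟨hJ1, hJ2⟩ := hJ
    unfold Ex at hJ1
    rw [Finset.mem_image] at hJ1
    obtain ⟨v, hv, rfl⟩ := hJ1
    rw [Finset.mem_image]
    refine ⟨v, ?_, rfl⟩
    rw [Finset.mem_biUnion]
    unfold Bal at hJ2
    push Not at hJ2
    obtain ⟨i, hi⟩ := hJ2
    refine ⟨i, Finset.mem_univ _, ?_⟩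
    rw [hU, Finset.mem_filter]
    refine ⟨hv, ?_⟩
    rw [Finset.sum_sub_distrib, Finset.sum_const, Finset.card_univ, Fintype.card_fin,
      nsmul_eq_mul, mul_one_div]
    exact hi
  calc (((Ex (n := n) d).filter (fun J => ¬ Bal d τ J)).card : ℝ) * (τ ^ 2 * k)
      ≤ (∑ i, (U i).card : ℕ) * (τ ^ 2 * k) := by
        refine mul_le_mul_of_nonneg_right ?_ (by positivity)
        exact_mod_cast (Finset.card_le_card hsub).trans
          (Finset.card_image_le.trans Finset.card_biUnion_le)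
    _ = ∑ i, ((U i).card : ℝ) * (τ ^ 2 * k) := by
        push_cast
        rw [Finset.sum_mul]
    _ ≤ ∑ i : Fin n, ((Sx (n := n) d).card : ℝ) := Finset.sum_le_sum fun i _ => hUcard i
    _ = n * (Ex (n := n) d).card := by
        rw [count_card_Ex]
        simp

end SB

end

section

/-! Weighted l1 norms of polynomials. -/

open MvPolynomial

namespace SB

variable {σ R : Type*} [CommRing R] {ν : R → ℝ} {w : σ → ℝ}

private theorem norms_prod_nonneg (hw : ∀ s, 0 ≤ w s) (J : σ →₀ ℕ) :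
    0 ≤ J.prod (fun s e => w s ^ e) :=
  Finset.prod_nonneg fun s _ => pow_nonneg (hw s) _

private theorem norms_of_subset (hν : IsSize ν) (p : MvPolynomial σ R) (S : Finset (σ →₀ ℕ))
    (h : p.support ⊆ S) :
    wn ν w p = ∑ J ∈ S, ν (p.coeff J) * J.prod (fun s e => w s ^ e) := by
  rw [wn]
  refine Finset.sum_subset h fun J _ hJ => ?_
  rw [notMem_support_iff.mp hJ, hν.zero, zero_mul]

theorem wn_nonneg (hν : IsSize ν) (hw : ∀ s, 0 ≤ w s) (p : MvPolynomial σ R) : 0 ≤ wn ν w p :=
  Finset.sum_nonneg fun J _ => mul_nonneg (hν.nonneg _) (norms_prod_nonneg hw J)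

theorem wn_zero : wn ν w (0 : MvPolynomial σ R) = 0 := by
  rw [wn, support_zero, Finset.sum_empty]

theorem wn_monomial (hν : IsSize ν) (J : σ →₀ ℕ) (c : R) :
    wn ν w (monomial J c) = ν c * J.prod (fun s e => w s ^ e) := by
  classical
  rw [norms_of_subset hν _ {J} support_monomial_subset, Finset.sum_singleton, coeff_monomial,
    if_pos rfl]

theorem wn_C (hν : IsSize ν) (c : R) : wn ν w (C c : MvPolynomial σ R) = ν c := by
  rw [C_apply, wn_monomial hν, Finsupp.prod_zero_index, mul_one]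

theorem wn_X (hν : IsSize ν) (s : σ) : wn ν w (X s : MvPolynomial σ R) = ν 1 * w s := by
  rw [X, wn_monomial hν, Finsupp.prod_single_index (by rw [pow_zero]), pow_one]

theorem wn_add_le (hν : IsSize ν) (hw : ∀ s, 0 ≤ w s) (p q : MvPolynomial σ R) :
    wn ν w (p + q) ≤ wn ν w p + wn ν w q := by
  classical
  rw [norms_of_subset hν (p + q) (p.support ∪ q.support) support_add,
    norms_of_subset hν p (p.support ∪ q.support) Finset.subset_union_left,
    norms_of_subset hν q (p.support ∪ q.support) Finset.subset_union_right,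
    ← Finset.sum_add_distrib]
  refine Finset.sum_le_sum fun J _ => ?_
  rw [← add_mul, coeff_add]
  exact mul_le_mul_of_nonneg_right (hν.add_le _ _) (norms_prod_nonneg hw J)

theorem wn_sum_le (hν : IsSize ν) (hw : ∀ s, 0 ≤ w s) {ι : Type*} (t : Finset ι)
    (f : ι → MvPolynomial σ R) : wn ν w (∑ i ∈ t, f i) ≤ ∑ i ∈ t, wn ν w (f i) := by
  classical
  induction t using Finset.induction_on with
  | empty => rw [Finset.sum_empty, Finset.sum_empty, wn_zero]
  | insert i t hi ih =>
    rw [Finset.sum_insert hi, Finset.sum_insert hi]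
    exact (wn_add_le hν hw _ _).trans (by gcongr)

theorem wn_mul_le (hν : IsSize ν) (hw : ∀ s, 0 ≤ w s) (p q : MvPolynomial σ R) :
    wn ν w (p * q) ≤ wn ν w p * wn ν w q := by
  classical
  have h1 : p * q = ∑ a ∈ p.support, ∑ b ∈ q.support,
      monomial (a + b) (p.coeff a * q.coeff b) := by
    conv_lhs => rw [p.as_sum, q.as_sum]
    rw [Finset.sum_mul_sum]
    refine Finset.sum_congr rfl fun a _ => Finset.sum_congr rfl fun b _ => ?_
    rw [monomial_mul]
  rw [h1]
  refine (wn_sum_le hν hw _ _).trans ?_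
  conv_rhs => rw [wn, wn]
  rw [Finset.sum_mul_sum]
  refine Finset.sum_le_sum fun a _ => ?_
  refine (wn_sum_le hν hw _ _).trans ?_
  refine Finset.sum_le_sum fun b _ => ?_
  rw [wn_monomial hν, Finsupp.prod_add_index' (fun s => pow_zero _) (fun s e f => pow_add _ _ _)]
  calc ν (p.coeff a * q.coeff b) * ((a.prod fun s e => w s ^ e) * b.prod fun s e => w s ^ e)
      ≤ (ν (p.coeff a) * ν (q.coeff b)) *
        ((a.prod fun s e => w s ^ e) * b.prod fun s e => w s ^ e) :=
        mul_le_mul_of_nonneg_right (hν.mul_le _ _)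
          (mul_nonneg (norms_prod_nonneg hw a) (norms_prod_nonneg hw b))
    _ = _ := by ring

theorem wn_pow_le (hν : IsSize ν) (hw : ∀ s, 0 ≤ w s) (p : MvPolynomial σ R) {B : ℝ}
    (hB : wn ν w p ≤ B) (h1 : ν 1 ≤ 1) (m : ℕ) : wn ν w (p ^ m) ≤ B ^ m := by
  have hB0 : 0 ≤ B := (wn_nonneg hν hw p).trans hB
  induction m with
  | zero => rw [pow_zero, pow_zero, ← C_1, wn_C hν]; exact h1
  | succ m ih =>
    rw [pow_succ, pow_succ]
    exact (wn_mul_le hν hw _ _).trans (mul_le_mul ih hB (wn_nonneg hν hw p) (pow_nonneg hB0 m))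

theorem wn_prod_le (hν : IsSize ν) (hw : ∀ s, 0 ≤ w s) (h1 : ν 1 ≤ 1) {ι : Type*} (t : Finset ι)
    (f : ι → MvPolynomial σ R) (B : ι → ℝ) (hB : ∀ i ∈ t, wn ν w (f i) ≤ B i) :
    wn ν w (∏ i ∈ t, f i) ≤ ∏ i ∈ t, B i := by
  classical
  induction t using Finset.induction_on with
  | empty => rw [Finset.prod_empty, Finset.prod_empty, ← C_1, wn_C hν]; exact h1
  | insert i t hi ih =>
    rw [Finset.prod_insert hi, Finset.prod_insert hi]
    have h2 := hB i (Finset.mem_insert_self i t)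
    exact (wn_mul_le hν hw _ _).trans (mul_le_mul h2
      (ih fun j hj => hB j (Finset.mem_insert_of_mem hj)) (wn_nonneg hν hw _)
      ((wn_nonneg hν hw _).trans h2))

/-- a coefficient is bounded by the norm -/
theorem coeff_le_wn (hν : IsSize ν) (hw : ∀ s, 0 ≤ w s) (p : MvPolynomial σ R) (J : σ →₀ ℕ) :
    ν (p.coeff J) * J.prod (fun s e => w s ^ e) ≤ wn ν w p := by
  by_cases hJ : J ∈ p.support
  · exact Finset.single_le_sum
      (f := fun J => ν (p.coeff J) * J.prod (fun s e => w s ^ e))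
      (fun J _ => mul_nonneg (hν.nonneg _) (norms_prod_nonneg hw J)) hJ
  · rw [notMem_support_iff.mp hJ, hν.zero, zero_mul]
    exact wn_nonneg hν hw p

theorem isSize_abs_real : IsSize (fun x : ℝ => |x|) :=
  ⟨abs_zero, abs_nonneg, abs_add_le, fun x y => (abs_mul x y).le⟩

theorem isSize_abs_int : IsSize (fun x : ℤ => |(x : ℝ)|) :=
  ⟨by simp, fun x => abs_nonneg _, fun x y => by push_cast; exact abs_add_le _ _,
    fun x y => by push_cast; exact (abs_mul _ _).le⟩

end SB

end

section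

/-! Roth's lemma, part A: Hasse derivatives, index filtration, Taylor coefficients. -/

open MvPolynomial

namespace SB

/-- all exponents of `p` have weighted degree at least `θ` -/
def IG {k : ℕ} (d : Fin k → ℕ) (θ : ℝ) (p : MvPolynomial (Fin k) ℚ) : Prop :=
  ∀ i, wt d i < θ → p.coeff i = 0

/-- embedding in the variable `0` -/
noncomputable def e1 {k : ℕ} {R : Type*} [CommRing R] :
    MvPolynomial (Fin 1) R →ₐ[R] MvPolynomial (Fin (k + 1)) R := rename (fun _ => 0)

/-- embedding in the variables `1, ..., k` -/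
noncomputable def e2 {k : ℕ} {R : Type*} [CommRing R] :
    MvPolynomial (Fin k) R →ₐ[R] MvPolynomial (Fin (k + 1)) R := rename Fin.succ

theorem hd_monomial {σ R : Type*} [Fintype σ] [CommSemiring R] (μ J : σ →₀ ℕ) (c : R) :
    hd μ (monomial J c) = monomial (J - μ) (c * ((∏ h, (J h).choose (μ h) : ℕ) : R)) := by
  have h1 : (monomial J c : MvPolynomial σ R) = c • basisMonomials σ R J := by
    rw [coe_basisMonomials, smul_monomial, smul_eq_mul, mul_one]
  rw [h1, map_smul, hd, Module.Basis.constr_basis, smul_monomial, smul_eq_mul]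

/-- coefficients of a Hasse derivative -/
theorem hd_coeff {σ R : Type*} [Fintype σ] [CommSemiring R] (μ J : σ →₀ ℕ)
    (Q : MvPolynomial σ R) :
    coeff J (hd μ Q) = coeff (J + μ) Q * ((∏ h, (J h + μ h).choose (μ h) : ℕ) : R) := by
  classical
  induction Q using MvPolynomial.induction_on' with
  | monomial J' c =>
    rw [hd_monomial, coeff_monomial, coeff_monomial]
    by_cases h1 : J' = J + μ
    · subst h1
      rw [if_pos (by simp), if_pos rfl]
      rfl
    · rw [if_neg h1, zero_mul]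
      split_ifs with h2
      · have h3 : ∃ h, J' h < μ h := by
          by_contra hcon
          push Not at hcon
          apply h1
          ext h
          have h4 := DFunLike.congr_fun h2 h
          rw [Finsupp.tsub_apply] at h4
          rw [Finsupp.add_apply]
          have := hcon h
          omega
        obtain ⟨h, hh⟩ := h3
        have : ∏ h, (J' h).choose (μ h) = 0 :=
          Finset.prod_eq_zero (Finset.mem_univ h) (Nat.choose_eq_zero_of_lt hh)
        rw [this, Nat.cast_zero, mul_zero]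
      · rfl
  | add p q hp hq => rw [map_add, coeff_add, coeff_add, hp, hq, add_mul]

theorem hd_map {σ R R' : Type*} [Fintype σ] [CommSemiring R] [CommSemiring R'] (f : R →+* R')
    (μ : σ →₀ ℕ) (Q : MvPolynomial σ R) : (hd μ Q).map f = hd μ (Q.map f) := by
  ext J
  rw [coeff_map, hd_coeff, hd_coeff, coeff_map, map_mul, map_natCast]

/-- coefficients of a product with separated variables -/
theorem coeff_sep {k : ℕ} {R : Type*} [CommRing R] (U : MvPolynomial (Fin k) R)
    (V : MvPolynomial (Fin 1) R) (i : Fin k →₀ ℕ) (j : Fin 1 →₀ ℕ) :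
    (e2 U * e1 V).coeff (Finsupp.cons (j 0) i) = U.coeff i * V.coeff j := by
  classical
  induction U using MvPolynomial.induction_on' with
  | monomial A c =>
    induction V using MvPolynomial.induction_on' with
    | monomial B c' =>
      have hAB : A.mapDomain Fin.succ + B.mapDomain (fun _ => (0 : Fin (k + 1))) =
          Finsupp.cons (B 0) A := by
        ext h
        rw [Finsupp.add_apply]
        refine Fin.cases ?_ (fun h => ?_) h
        · rw [Finsupp.cons_zero, Finsupp.mapDomain_of_notMem_range]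
          · have : B = Finsupp.single 0 (B 0) := by
              refine Finsupp.ext fun x => ?_
              rw [Subsingleton.elim x 0, Finsupp.single_eq_same]
            rw [this, Finsupp.mapDomain_single, Finsupp.single_eq_same, zero_add]
            simp
          · rintro ⟨x, hx⟩
            exact Fin.succ_ne_zero x hx
        · rw [Finsupp.cons_succ, Finsupp.mapDomain_apply (Fin.succ_injective k),
            Finsupp.mapDomain_of_notMem_range, add_zero]
          rintro ⟨x, hx⟩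
          exact Fin.succ_ne_zero h hx.symm
      rw [e1, e2, rename_monomial, rename_monomial, monomial_mul, hAB, coeff_monomial,
        coeff_monomial, coeff_monomial]
      by_cases h1 : A = i
      · by_cases h2 : B = j
        · subst h1 h2
          simp
        · rw [if_neg, if_neg h2, mul_zero]
          intro h3
          apply h2
          refine Finsupp.ext fun x => ?_
          rw [Subsingleton.elim x 0]
          have := DFunLike.congr_fun h3 0
          simpa using this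
      · rw [if_neg, if_neg h1, zero_mul]
        intro h3
        apply h1
        ext x
        have := DFunLike.congr_fun h3 x.succ
        simpa using this
    | add p q hp hq => rw [map_add, mul_add, coeff_add, coeff_add, hp, hq, mul_add]
  | add p q hp hq => rw [map_add, add_mul, coeff_add, coeff_add, hp, hq, add_mul]

theorem hd_sep {k : ℕ} {R : Type*} [CommRing R] (j : Fin 1 →₀ ℕ) (μ : Fin k →₀ ℕ)
    (U : MvPolynomial (Fin k) R) (V : MvPolynomial (Fin 1) R) :
    hd (Finsupp.cons (j 0) μ) (e2 U * e1 V) = e2 (hd μ U) * e1 (hd j V) := by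
  ext I
  set j' : Fin 1 →₀ ℕ := Finsupp.single 0 (I 0) with hj'
  have hI : I = Finsupp.cons (j' 0) (Finsupp.tail I) := by
    rw [hj', Finsupp.single_eq_same, Finsupp.cons_tail]
  have hI2 : I + Finsupp.cons (j 0) μ = Finsupp.cons ((j' + j) 0) (Finsupp.tail I + μ) := by
    ext h
    refine Fin.cases ?_ (fun h => ?_) h
    · simp [hj']
    · simp [Finsupp.tail_apply]
  rw [hd_coeff, hI2, coeff_sep]
  conv_rhs => rw [hI, coeff_sep, hd_coeff, hd_coeff]
  rw [Fin.prod_univ_succ]
  simp only [Finsupp.cons_zero, Finsupp.cons_succ, Finset.univ_unique, Fin.default_eq_zero,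
    Finset.prod_singleton, Nat.cast_mul, Finsupp.tail_apply]
  have e3 : j' 0 = I 0 := by rw [hj', Finsupp.single_eq_same]
  rw [e3]
  ring

theorem hd_degreeOf {σ R : Type*} [Fintype σ] [CommSemiring R] (μ : σ →₀ ℕ)
    (Q : MvPolynomial σ R) (h : σ) : (hd μ Q).degreeOf h ≤ Q.degreeOf h := by
  rw [degreeOf_le_iff]
  intro J hJ
  rw [mem_support_iff, hd_coeff] at hJ
  have h1 : J + μ ∈ Q.support := mem_support_iff.mpr (left_ne_zero_of_mul hJ)
  have h2 := (degreeOf_le_iff (n := h) (d := Q.degreeOf h) (f := Q)).mp le_rfl _ h1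
  rw [Finsupp.add_apply] at h2
  omega

/-- size of a Hasse derivative -/
theorem wn_hd_le {k : ℕ} (d : Fin k → ℕ) (μ : Fin k →₀ ℕ) (Q : MvPolynomial (Fin k) ℤ)
    (hQ : ∀ h, Q.degreeOf h ≤ d h) (H : ℝ) (hH : ∀ i, |((Q.coeff i : ℤ) : ℝ)| ≤ H) :
    wn (fun x : ℤ => |(x : ℝ)|) (fun _ => 1) (hd μ Q) ≤ (4 : ℝ) ^ (∑ h, d h) * H := by
  classical
  have hH0 : 0 ≤ H := (abs_nonneg _).trans (hH 0)
  have hterm : ∀ J ∈ (hd μ Q).support,
      |(((hd μ Q).coeff J : ℤ) : ℝ)| * J.prod (fun _ e => (1 : ℝ) ^ e) ≤ 2 ^ (∑ h, d h) * H := by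
    intro J hJ
    have h1 : J.prod (fun _ e => (1 : ℝ) ^ e) = 1 := by simp [Finsupp.prod]
    rw [h1, mul_one]
    rw [mem_support_iff, hd_coeff] at hJ
    have h2 : J + μ ∈ Q.support := mem_support_iff.mpr (left_ne_zero_of_mul hJ)
    rw [hd_coeff, Int.cast_mul, abs_mul, mul_comm]
    have h3 : |(((∏ h, (J h + μ h).choose (μ h) : ℕ) : ℤ) : ℝ)| ≤ 2 ^ (∑ h, d h) := by
      rw [Int.cast_natCast, Nat.abs_cast]
      have h4 : ∏ h, (J h + μ h).choose (μ h) ≤ 2 ^ (∑ h, d h) := by
        rw [← Finset.prod_pow_eq_pow_sum]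
        refine Finset.prod_le_prod' fun h _ => ?_
        have h5 := (degreeOf_le_iff (n := h) (d := d h) (f := Q)).mp (hQ h) _ h2
        rw [Finsupp.add_apply] at h5
        exact (Nat.choose_le_two_pow _ _).trans (Nat.pow_le_pow_right (by norm_num) h5)
      exact_mod_cast h4
    exact mul_le_mul h3 (hH _) (abs_nonneg _) (by positivity)
  have hcard : (hd μ Q).support.card ≤ 2 ^ (∑ h, d h) := by
    have h1 : (hd μ Q).support.card ≤ (Fintype.piFinset fun h => Finset.range (d h + 1)).card := by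
      refine Finset.card_le_card_of_injOn (fun J => (J : Fin k → ℕ)) ?_ ?_
      · intro J hJ
        rw [Finset.mem_coe] at hJ
        rw [Finset.mem_coe, Fintype.mem_piFinset]
        intro h
        rw [Finset.mem_range]
        have h2 := (degreeOf_le_iff (n := h) (d := d h) (f := hd μ Q)).mp
          ((hd_degreeOf μ Q h).trans (hQ h)) J hJ
        exact Nat.lt_succ_of_le h2
      · intro J _ J' _ hJJ'
        exact DFunLike.coe_injective hJJ'
    refine h1.trans ?_
    rw [Fintype.card_piFinset, ← Finset.prod_pow_eq_pow_sum]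
    refine Finset.prod_le_prod' fun h _ => ?_
    rw [Finset.card_range]
    exact Nat.lt_two_pow_self
  rw [wn]
  calc ∑ J ∈ (hd μ Q).support, |(((hd μ Q).coeff J : ℤ) : ℝ)| *
        J.prod (fun _ e => (1 : ℝ) ^ e)
      ≤ ∑ _J ∈ (hd μ Q).support, 2 ^ (∑ h, d h) * H := Finset.sum_le_sum hterm
    _ = ((hd μ Q).support.card : ℝ) * (2 ^ (∑ h, d h) * H) := by
        rw [Finset.sum_const, nsmul_eq_mul]
    _ ≤ ((2 ^ (∑ h, d h) : ℕ) : ℝ) * (2 ^ (∑ h, d h) * H) := by
        refine mul_le_mul_of_nonneg_right ?_ (by positivity)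
        exact_mod_cast hcard
    _ = 4 ^ (∑ h, d h) * H := by
        rw [← mul_assoc]
        congr 1
        push_cast
        rw [← mul_pow]
        norm_num

private theorem hd_zero_eq {k : ℕ} (f : MvPolynomial (Fin k) ℚ) : hd 0 f = f := by
  ext J
  rw [hd_coeff]
  simp

private theorem pderiv_hd {k : ℕ} (l : Fin k) (μ : Fin k →₀ ℕ) (f : MvPolynomial (Fin k) ℚ) :
    pderiv l (hd μ f) = ((μ l : ℚ) + 1) • hd (μ + Finsupp.single l 1) f := by
  induction f using MvPolynomial.induction_on' with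
  | monomial J c =>
    rw [hd_monomial, hd_monomial, pderiv_monomial, smul_monomial, tsub_tsub]
    congr 1
    have h1 : (∏ h, (J h).choose ((μ + Finsupp.single l 1 : Fin k →₀ ℕ) h)) * (μ l + 1) =
        (∏ h, (J h).choose (μ h)) * (J l - μ l) := by
      have p1 := Finset.mul_prod_erase Finset.univ
        (fun h => (J h).choose ((μ + Finsupp.single l 1 : Fin k →₀ ℕ) h)) (Finset.mem_univ l)
      have p2 := Finset.mul_prod_erase Finset.univ
        (fun h => (J h).choose (μ h)) (Finset.mem_univ l)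
      have h2 : ∏ h ∈ Finset.univ.erase l,
          (J h).choose ((μ + Finsupp.single l 1 : Fin k →₀ ℕ) h) =
          ∏ h ∈ Finset.univ.erase l, (J h).choose (μ h) := by
        refine Finset.prod_congr rfl fun h hh => ?_
        rw [Finsupp.add_apply, Finsupp.single_eq_of_ne (Finset.ne_of_mem_erase hh), add_zero]
      have h3 := Nat.choose_succ_right_eq (J l) (μ l)
      have h5 : (μ + Finsupp.single l 1 : Fin k →₀ ℕ) l = μ l + 1 := by
        rw [Finsupp.add_apply, Finsupp.single_eq_same]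
      rw [← p1, ← p2, h2, h5]
      calc (J l).choose (μ l + 1) * (∏ h ∈ Finset.univ.erase l, (J h).choose (μ h)) * (μ l + 1)
          = ((J l).choose (μ l + 1) * (μ l + 1)) *
            ∏ h ∈ Finset.univ.erase l, (J h).choose (μ h) := by ring
        _ = (J l).choose (μ l) * (∏ h ∈ Finset.univ.erase l, (J h).choose (μ h)) *
            (J l - μ l) := by rw [h3]; ring
    have h4 : (((∏ h, (J h).choose ((μ + Finsupp.single l 1 : Fin k →₀ ℕ) h) : ℕ) : ℚ)) *
        ((μ l : ℚ) + 1) = ((∏ h, (J h).choose (μ h) : ℕ) : ℚ) * ((J l - μ l : ℕ) : ℚ) := by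
      exact_mod_cast h1
    rw [Finsupp.tsub_apply, smul_eq_mul]
    linear_combination -c * h4
  | add p q hp hq => rw [map_add, map_add, map_add, hp, hq, smul_add]

private theorem tr_X {k : ℕ} (ζ : Fin k → ℚ) (h : Fin k) : tr ζ (X h) = C (ζ h) + X h := by
  rw [tr, aeval_X]

private theorem tr_C {k : ℕ} (ζ : Fin k → ℚ) (c : ℚ) : tr ζ (C c) = C c := by
  rw [tr, ← algebraMap_eq, AlgHom.commutes]

private theorem tr_pderiv {k : ℕ} (ζ : Fin k → ℚ) (l : Fin k) (Q : MvPolynomial (Fin k) ℚ) :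
    tr ζ (pderiv l Q) = pderiv l (tr ζ Q) := by
  classical
  induction Q using MvPolynomial.induction_on with
  | C c => rw [tr_C, pderiv_C, map_zero]
  | add p q hp hq => rw [map_add, map_add, map_add, map_add, hp, hq]
  | mul_X p h hp =>
    rw [Derivation.leibniz, map_mul, Derivation.leibniz, map_add, smul_eq_mul, smul_eq_mul,
      smul_eq_mul, smul_eq_mul, map_mul, map_mul, hp, tr_X, map_add, pderiv_C, zero_add, pderiv_X]
    congr 2
    by_cases hl : h = l
    · subst hl
      rw [Pi.single_eq_same, map_one]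
    · rw [Pi.single_eq_of_ne hl, map_zero]

/-- the Hasse derivatives commute with translations -/
theorem tr_hd {k : ℕ} (ζ : Fin k → ℚ) (μ : Fin k →₀ ℕ) (Q : MvPolynomial (Fin k) ℚ) :
    tr ζ (hd μ Q) = hd μ (tr ζ Q) := by
  have key : ∀ n : ℕ, ∀ μ : Fin k →₀ ℕ, μ.degree = n → tr ζ (hd μ Q) = hd μ (tr ζ Q) := by
    intro n
    induction n with
    | zero =>
      intro μ hμ
      rw [Finsupp.degree_eq_zero_iff] at hμ
      rw [hμ, hd_zero_eq, hd_zero_eq]
    | succ n ih =>
      intro μ hμ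
      have h1 : ∃ l, μ l ≠ 0 := by
        by_contra hcon
        push Not at hcon
        have : μ = 0 := by ext l; exact hcon l
        rw [this, map_zero] at hμ
        omega
      obtain ⟨l, hl⟩ := h1
      set μ' := μ - Finsupp.single l 1 with hμ'
      have h2 : μ = μ' + Finsupp.single l 1 := by
        ext x
        rw [hμ', Finsupp.add_apply, Finsupp.tsub_apply]
        by_cases hx : x = l
        · subst hx
          rw [Finsupp.single_eq_same]
          omega
        · rw [Finsupp.single_eq_of_ne hx]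
          omega
      have h3 : μ'.degree = n := by
        rw [h2, map_add, Finsupp.degree_single] at hμ
        omega
      have h4 := ih μ' h3
      have h5 := congrArg (pderiv l) h4
      rw [← tr_pderiv, pderiv_hd, pderiv_hd, map_smul, ← h2] at h5
      have h6 : ((μ' l : ℚ) + 1) ≠ 0 := by positivity
      exact smul_right_injective _ h6 h5
  exact key _ μ rfl

theorem IG.hd {k : ℕ} {d : Fin k → ℕ} {θ : ℝ} {p : MvPolynomial (Fin k) ℚ} (h : IG d θ p)
    (μ : Fin k →₀ ℕ) : IG d (θ - wt d μ) (hd μ p) := by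
  intro i hi
  rw [hd_coeff, h (i + μ), zero_mul]
  have : wt d (i + μ) = wt d i + wt d μ := by
    rw [wt, wt, wt, ← Finset.sum_add_distrib]
    refine Finset.sum_congr rfl fun h _ => ?_
    rw [Finsupp.add_apply, Nat.cast_add, add_div]
  rw [this]
  linarith only [hi]

theorem IG.mono {k : ℕ} {d : Fin k → ℕ} {θ θ' : ℝ} {p : MvPolynomial (Fin k) ℚ} (h : IG d θ p)
    (h' : θ' ≤ θ) : IG d θ' p :=
  fun i hi => h i (hi.trans_le h')

theorem IG.of_nonpos {k : ℕ} {d : Fin k → ℕ} {θ : ℝ} (h : θ ≤ 0) (p : MvPolynomial (Fin k) ℚ) :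
    IG d θ p := by
  intro i hi
  have h1 : 0 ≤ wt d i :=
    Finset.sum_nonneg fun h _ => div_nonneg (Nat.cast_nonneg _) (Nat.cast_nonneg _)
  linarith only [h, hi, h1]

theorem IG.sum {k : ℕ} {d : Fin k → ℕ} {θ : ℝ} {ι : Type*} (t : Finset ι)
    (f : ι → MvPolynomial (Fin k) ℚ) (h : ∀ i ∈ t, IG d θ (f i)) : IG d θ (∑ i ∈ t, f i) := by
  intro i hi
  rw [coeff_sum]
  exact Finset.sum_eq_zero fun x hx => h x hx i hi

private theorem wt_add {k : ℕ} (d : Fin k → ℕ) (i j : Fin k →₀ ℕ) :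
    wt d (i + j) = wt d i + wt d j := by
  rw [wt, wt, wt, ← Finset.sum_add_distrib]
  refine Finset.sum_congr rfl fun h _ => ?_
  rw [Finsupp.add_apply, Nat.cast_add, add_div]

theorem IG.mul {k : ℕ} {d : Fin k → ℕ} {θ θ' : ℝ} {p q : MvPolynomial (Fin k) ℚ}
    (hp : IG d θ p) (hq : IG d θ' q) : IG d (θ + θ') (p * q) := by
  classical
  intro i hi
  rw [coeff_mul]
  refine Finset.sum_eq_zero fun x hx => ?_
  rw [Finset.HasAntidiagonal.mem_antidiagonal] at hx
  rw [← hx, wt_add] at hi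
  rcases lt_or_ge (wt d x.1) θ with h1 | h1
  · rw [hp _ h1, zero_mul]
  · rw [hq _ (by linarith only [hi, h1]), mul_zero]

private theorem IG_prod {k : ℕ} {d : Fin k → ℕ} {ι : Type*} (t : Finset ι) (θ : ι → ℝ)
    (f : ι → MvPolynomial (Fin k) ℚ) (h : ∀ i ∈ t, IG d (θ i) (f i)) :
    IG d (∑ i ∈ t, θ i) (∏ i ∈ t, f i) := by
  classical
  induction t using Finset.induction_on with
  | empty =>
    rw [Finset.sum_empty, Finset.prod_empty]
    exact IG.of_nonpos le_rfl _
  | insert i t hi ih =>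
    rw [Finset.sum_insert hi, Finset.prod_insert hi]
    exact (h i (Finset.mem_insert_self i t)).mul
      (ih fun j hj => h j (Finset.mem_insert_of_mem hj))

/-- index of a determinant, index bounds depending on the column -/
theorem IG.det {k s : ℕ} {d : Fin k → ℕ} (θ : Fin s → ℝ)
    (E : Matrix (Fin s) (Fin s) (MvPolynomial (Fin k) ℚ)) (h : ∀ i j, IG d (θ j) (E i j)) :
    IG d (∑ j, θ j) E.det := by
  rw [Matrix.det_apply]
  refine IG.sum _ _ fun σ _ => ?_
  have h1 := IG_prod (d := d) Finset.univ θ (fun i => E (σ i) i) fun i _ => h (σ i) i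
  intro i hi
  rcases Int.units_eq_one_or (Equiv.Perm.sign σ) with h2 | h2
  · rw [h2, one_smul]
    exact h1 i hi
  · rw [h2, Units.neg_smul, one_smul, coeff_neg, h1 i hi, neg_zero]

/-- Taylor coefficients of a product with separated variables -/
theorem coeff_tr_sep {k : ℕ} (ζ : Fin (k + 1) → ℚ) (U : MvPolynomial (Fin k) ℚ)
    (V : MvPolynomial (Fin 1) ℚ) (i : Fin k →₀ ℕ) (j : Fin 1 →₀ ℕ) :
    (tr ζ (e2 U * e1 V)).coeff (Finsupp.cons (j 0) i) =
      (tr (fun h => ζ h.succ) U).coeff i * (tr (fun _ => ζ 0) V).coeff j := by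
  have h1 : tr ζ (e2 U) = e2 (tr (fun h => ζ h.succ) U) := by
    induction U using MvPolynomial.induction_on with
    | C c => rw [tr_C, e2, rename_C, tr_C]
    | add p q hp hq => rw [map_add, map_add, map_add, map_add, hp, hq]
    | mul_X p h hp =>
      rw [map_mul, map_mul, map_mul, map_mul, hp]
      congr 1
      rw [tr_X, map_add, e2, rename_X, rename_C, tr_X]
  have h2 : tr ζ (e1 V) = e1 (tr (fun _ => ζ 0) V) := by
    induction V using MvPolynomial.induction_on with
    | C c => rw [tr_C, e1, rename_C, tr_C]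
    | add p q hp hq => rw [map_add, map_add, map_add, map_add, hp, hq]
    | mul_X p h hp =>
      rw [map_mul, map_mul, map_mul, map_mul, hp]
      congr 1
      rw [tr_X, map_add, e1, rename_X, rename_C, tr_X]
  rw [map_mul, h1, h2, coeff_sep]

end SB

end

section

/-! Row D5 (about 200 lines): the powers of `9` modulo `2^H`, and a cosine average. -/

namespace Pool.Agent.Lib.MP_d0d59f_nt.AA

open Finset

theorem d5_perm (N : ℕ) (j : ℕ → ℕ) (hj : ∀ i < N, j i < N)
    (hinj : ∀ i < N, ∀ i' < N, j i = j i' → i = i') (f : ℕ → ℝ) :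
    ∑ i ∈ range N, f (j i) = ∑ i ∈ range N, f i := by
  have hI : Set.InjOn j (range N : Finset ℕ) := by
    intro a ha b hb hab
    exact hinj a (Finset.mem_range.1 ha) b (Finset.mem_range.1 hb) hab
  have h1 : (range N).image j = range N := by
    apply Finset.eq_of_subset_of_card_le
    · intro x hx
      obtain ⟨i, hi, rfl⟩ := Finset.mem_image.1 hx
      exact Finset.mem_range.2 (hj i (Finset.mem_range.1 hi))
    · rw [Finset.card_image_of_injOn hI]
  conv_rhs => rw [← h1]
  rw [Finset.sum_image hI]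

/-- `2^H ∣ 9^k - 1` iff `2^{H-3} ∣ k` (`H ≥ 3`). Lifting the exponent (`Int.two_pow_sub_pow`/`padicValNat`), or
induction on `H`: `9^{2k} - 1 = (9^k - 1)(9^k + 1)` and `9^k + 1 ≡ 2 mod 8`; for odd `k`,
`9^k - 1 = 8(1 + 9 + ... + 9^{k-1})` with an odd cofactor. -/
theorem nine_pow_dvd (H k : ℕ) (hH : 3 ≤ H) :
    (2 : ℤ) ^ H ∣ 9 ^ k - 1 ↔ 2 ^ (H - 3) ∣ k := by
  obtain ⟨h, rfl⟩ := Nat.exists_eq_add_of_le hH
  have e : 3 + h - 3 = h := by omega
  rw [e]
  clear e hH
  induction h generalizing k with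
  | zero =>
    simp only [pow_zero, add_zero]
    refine ⟨fun _ => one_dvd _, fun _ => ?_⟩
    have h1 : ((9 : ℤ) - 1) ∣ 9 ^ k - 1 ^ k := sub_dvd_pow_sub_pow 9 1 k
    rw [one_pow] at h1
    norm_num at h1 ⊢
    exact h1
  | succ h ih =>
    rcases Nat.even_or_odd k with hk | hk
    · obtain ⟨j, rfl⟩ := hk.two_dvd
      have h8 : ∃ w : ℤ, (9 : ℤ) ^ j - 1 = 8 * w := by
        have h1 : ((9 : ℤ) - 1) ∣ 9 ^ j - 1 ^ j := sub_dvd_pow_sub_pow 9 1 j
        rw [one_pow] at h1
        norm_num at h1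
        exact h1
      obtain ⟨w, hw⟩ := h8
      have e1 : (9 : ℤ) ^ (2 * j) - 1 = 2 * ((9 ^ j - 1) * (4 * w + 1)) := by
        have : (9 : ℤ) ^ (2 * j) = 9 ^ j * 9 ^ j := by rw [two_mul, pow_add]
        rw [this]
        have h9 : (9 : ℤ) ^ j = 8 * w + 1 := by linarith
        rw [h9]
        ring
      have hcop : IsCoprime ((2 : ℤ) ^ (3 + h)) (4 * w + 1) := by
        apply IsCoprime.pow_left
        refine ⟨-(2 * w), 1, by ring⟩
      have e2 : (2 : ℤ) ^ (3 + (h + 1)) = 2 * 2 ^ (3 + h) := by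
        rw [← add_assoc, pow_succ]
        ring
      have e3 : (2 : ℕ) ^ (h + 1) = 2 * 2 ^ h := by
        rw [pow_succ]
        ring
      rw [e1, e2, e3, mul_dvd_mul_iff_left (by norm_num : (2 : ℤ) ≠ 0),
        mul_dvd_mul_iff_left (by norm_num : (2 : ℕ) ≠ 0)]
      exact Iff.trans ⟨fun h => hcop.dvd_of_dvd_mul_right h, fun h => h.mul_right _⟩ (ih j)
    · obtain ⟨j, rfl⟩ := hk
      have h16 : ∃ w : ℤ, (9 : ℤ) ^ (2 * j + 1) - 1 = 16 * w + 8 := by
        have h1 : ((81 : ℤ) - 1) ∣ 81 ^ j - 1 ^ j := sub_dvd_pow_sub_pow 81 1 j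
        rw [one_pow] at h1
        norm_num at h1
        obtain ⟨w, hw⟩ := h1
        refine ⟨45 * w, ?_⟩
        have : (9 : ℤ) ^ (2 * j + 1) = 81 ^ j * 9 := by
          rw [pow_succ, pow_mul]
          norm_num
        rw [this]
        have h9 : (81 : ℤ) ^ j = 80 * w + 1 := by linarith
        rw [h9]
        ring
      obtain ⟨w, hw⟩ := h16
      constructor
      · intro h1
        exfalso
        have h2 : (16 : ℤ) ∣ 2 ^ (3 + (h + 1)) := by
          have : (2 : ℤ) ^ (3 + (h + 1)) = 16 * 2 ^ h := by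
            rw [show 3 + (h + 1) = 4 + h by ring, pow_add]
            norm_num
          rw [this]
          exact dvd_mul_right _ _
        have h3 := h2.trans h1
        rw [hw] at h3
        omega
      · intro h1
        exfalso
        have h2 : 2 ∣ 2 ^ (h + 1) := dvd_pow_self 2 (by omega)
        have h3 := h2.trans h1
        omega

/-- `i ↦ 9^{t0+i} m₀ mod 2^H` is a bijection from `[0, 2^{H-3})` onto the class of `m₀` modulo `8` in `ℤ/2^H`
(injective by `nine_pow_dvd`, `m₀` odd; both sides have `2^{H-3}` elements). -/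
theorem nine_block (H t0 : ℕ) (hH : 3 ≤ H) (m₀ : ℤ) (hm : Odd m₀) (F : ℤ → ℝ)
    (hF : ∀ x q : ℤ, F (x + 2 ^ H * q) = F x) :
    ∑ i ∈ range (2 ^ (H - 3)), F (9 ^ (t0 + i) * m₀) =
      ∑ i ∈ range (2 ^ (H - 3)), F (m₀ + 8 * i) := by
  have hN : (0 : ℤ) < 2 ^ (H - 3) := by positivity
  have h8 : ∀ i : ℕ, ∃ u : ℤ, 9 ^ (t0 + i) * m₀ = m₀ + 8 * u := by
    intro i
    have h1 : ((9 : ℤ) - 1) ∣ 9 ^ (t0 + i) - 1 ^ (t0 + i) := sub_dvd_pow_sub_pow 9 1 (t0 + i)
    rw [one_pow] at h1
    norm_num at h1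
    obtain ⟨w, hw⟩ := h1
    refine ⟨w * m₀, ?_⟩
    have h9 : (9 : ℤ) ^ (t0 + i) = 8 * w + 1 := by linarith
    rw [h9]
    ring
  choose u hu using h8
  have e8 : (2 : ℤ) ^ H = 8 * 2 ^ (H - 3) := by
    have : H = 3 + (H - 3) := by omega
    conv_lhs => rw [this, pow_add]
    norm_num
  set j : ℕ → ℕ := fun i => (u i % 2 ^ (H - 3)).toNat with hj
  have hjc : ∀ i, ((j i : ℕ) : ℤ) = u i % 2 ^ (H - 3) := by
    intro i
    simp only [hj]
    exact Int.toNat_of_nonneg (Int.emod_nonneg _ hN.ne')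
  have h1 : ∀ i, F (9 ^ (t0 + i) * m₀) = F (m₀ + 8 * (j i : ℕ)) := by
    intro i
    rw [hu i, hjc i]
    have h2 := Int.emod_add_mul_ediv (u i) (2 ^ (H - 3))
    have h3 : m₀ + 8 * u i = (m₀ + 8 * (u i % 2 ^ (H - 3))) + 2 ^ H * (u i / 2 ^ (H - 3)) := by
      rw [e8]
      linarith
    rw [h3, hF]
  rw [Finset.sum_congr rfl (fun i _ => h1 i)]
  apply d5_perm (2 ^ (H - 3)) j _ _ (fun i => F (m₀ + 8 * (i : ℕ)))
  · intro i _
    have h2 : ((j i : ℕ) : ℤ) < ((2 ^ (H - 3) : ℕ) : ℤ) := by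
      rw [hjc i]
      push_cast
      exact Int.emod_lt_of_pos _ hN
    exact_mod_cast h2
  · have key : ∀ i i' : ℕ, i ≤ i' → i' < 2 ^ (H - 3) → j i = j i' → i = i' := by
      intro i i' hii hi' hjj
      have h2 : u i % 2 ^ (H - 3) = u i' % 2 ^ (H - 3) := by
        rw [← hjc i, ← hjc i', hjj]
      have h3 : (2 : ℤ) ^ (H - 3) ∣ u i' - u i := Int.ModEq.dvd h2
      have h4 : (2 : ℤ) ^ H ∣ 9 ^ (t0 + i') * m₀ - 9 ^ (t0 + i) * m₀ := by
        rw [hu i, hu i', e8]
        have : m₀ + 8 * u i' - (m₀ + 8 * u i) = 8 * (u i' - u i) := by ring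
        rw [this]
        exact mul_dvd_mul_left 8 h3
      obtain ⟨k, rfl⟩ := Nat.exists_eq_add_of_le hii
      have h5 : (9 : ℤ) ^ (t0 + (i + k)) * m₀ - 9 ^ (t0 + i) * m₀ =
        (9 ^ k - 1) * (9 ^ (t0 + i) * m₀) := by
        rw [← add_assoc, pow_add 9 (t0 + i) k]
        ring
      rw [h5] at h4
      have hodd : Odd ((9 : ℤ) ^ (t0 + i) * m₀) := by
        apply Odd.mul _ hm
        apply Odd.pow
        decide
      have hcop : IsCoprime ((2 : ℤ) ^ H) (9 ^ (t0 + i) * m₀) := by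
        apply IsCoprime.pow_left
        obtain ⟨w, hw⟩ := hodd
        rw [hw]
        exact ⟨-w, 1, by ring⟩
      have h6 := hcop.dvd_of_dvd_mul_right h4
      rw [nine_pow_dvd H k hH] at h6
      have h7 : k = 0 := Nat.eq_zero_of_dvd_of_lt h6 (by omega)
      omega
    intro i hi i' hi' hjj
    rcases le_total i i' with h | h
    · exact key i i' h hi' hjj
    · exact (key i' i h hi hjj.symm).symm

/-- Multiplication by `9` permutes the residues modulo `2^a`. -/
theorem nine_perm (a : ℕ) (F : ℤ → ℝ) (hF : ∀ x q : ℤ, F (x + 2 ^ a * q) = F x) :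
    ∑ i ∈ range (2 ^ a), F (9 * i) = ∑ i ∈ range (2 ^ a), F i := by
  have h1 : ∀ i : ℕ, F (9 * i) = F (((9 * i) % 2 ^ a : ℕ) : ℤ) := by
    intro i
    have h2 := Nat.mod_add_div (9 * i) (2 ^ a)
    have h3 : ((9 : ℤ) * i) = (((9 * i) % 2 ^ a : ℕ) : ℤ) + 2 ^ a * ((9 * i / 2 ^ a : ℕ) : ℤ) := by
      have := congrArg (fun n : ℕ => (n : ℤ)) h2
      push_cast at this ⊢
      linarith
    rw [h3, hF]
  rw [Finset.sum_congr rfl (fun i _ => h1 i)]
  apply d5_perm (2 ^ a) (fun i => (9 * i) % 2 ^ a) _ _ (fun i => F (i : ℕ))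
  · intro i _
    exact Nat.mod_lt _ (by positivity)
  · intro i hi i' hi' h
    have h2 : 9 * i ≡ 9 * i' [MOD 2 ^ a] := h
    have h3 : Nat.gcd (2 ^ a) 9 = 1 := by
      apply Nat.Coprime.pow_left
      decide
    have h4 : i ≡ i' [MOD 2 ^ a] := Nat.ModEq.cancel_left_of_coprime h3 h2
    exact Nat.ModEq.eq_of_lt_of_lt h4 hi hi'

/-- Cauchy-Schwarz: `(∑ |cos|)² ≤ 8 ∑ cos² = 8·4 = 32 < 5.66²`, where
`∑_{j<8} cos²(α + πj/8) = 4 + (1/2) ∑ cos(2α + πj/4) = 4` (the terms `j` and `j+4` cancel). -/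
theorem cos_average (α : ℝ) :
    ∑ j ∈ range 8, |Real.cos (α + Real.pi * j / 8)| ≤ 5.66 := by
  have h1 := sq_sum_le_card_mul_sum_sq (s := range 8)
    (f := fun j : ℕ => |Real.cos (α + Real.pi * j / 8)|)
  have hpair : ∀ x : ℝ, Real.cos (x + Real.pi / 2) ^ 2 = 1 - Real.cos x ^ 2 := by
    intro x
    rw [Real.cos_add_pi_div_two, neg_sq, Real.sin_sq]
  have h2 : ∑ j ∈ range 8, |Real.cos (α + Real.pi * (j : ℕ) / 8)| ^ 2 = 4 := by
    simp only [sq_abs, Finset.sum_range_succ, Finset.sum_range_zero]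
    have e4 : α + Real.pi * ((4 : ℕ) : ℝ) / 8 = (α + Real.pi * ((0 : ℕ) : ℝ) / 8) + Real.pi / 2 := by
      push_cast; ring
    have e5 : α + Real.pi * ((5 : ℕ) : ℝ) / 8 = (α + Real.pi * ((1 : ℕ) : ℝ) / 8) + Real.pi / 2 := by
      push_cast; ring
    have e6 : α + Real.pi * ((6 : ℕ) : ℝ) / 8 = (α + Real.pi * ((2 : ℕ) : ℝ) / 8) + Real.pi / 2 := by
      push_cast; ring
    have e7 : α + Real.pi * ((7 : ℕ) : ℝ) / 8 = (α + Real.pi * ((3 : ℕ) : ℝ) / 8) + Real.pi / 2 := by
      push_cast; ring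
    rw [e4, e5, e6, e7, hpair, hpair, hpair, hpair]
    ring
  rw [h2, Finset.card_range] at h1
  have h3 : 0 ≤ ∑ j ∈ range 8, |Real.cos (α + Real.pi * (j : ℕ) / 8)| :=
    Finset.sum_nonneg fun j _ => abs_nonneg _
  by_contra h4
  push Not at h4
  norm_num at h1 h4
  nlinarith

end Pool.Agent.Lib.MP_d0d59f_nt.AA

end
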