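import Pool.Agent.Lib.MP_d0d59f_nt.PZ.K019
import Pool.Agent.Lib.MP_d0d59f_nt.PZ.K027

section

/-! Row D4 (about 200 lines): after the crossing, `qq` is controlled by `ww`. -/

namespace Pool.Agent.Lib.MP_d0d59f_nt.AA

open Finset

theorem ww_nonneg (B j u : ℕ) (m : ℤ) : 0 ≤ ww B j u m := by
  induction j generalizing u m with
  | zero => simp [ww]
  | succ j ih =>
    rw [ww]
    refine Finset.sum_nonneg fun b _ => ?_
    refine mul_nonneg (mul_nonneg (pw_nonneg b) ?_) (ih _ _)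
    split_ifs
    · exact abs_nonneg _
    · exact zero_le_one

theorem ww_le_one (B j u : ℕ) (m : ℤ) : ww B j u m ≤ 1 := by
  induction j generalizing u m with
  | zero => simp [ww]
  | succ j ih =>
    rw [ww]
    refine (Finset.sum_le_sum (g := fun b => pw b) fun b _ => ?_).trans (sum_pw_le_one (B + 1))
    have h1 : (if b = 3 then |Real.cos (Real.pi * (m : ℝ) / 2 ^ (u + 3))| else 1) ≤ (1 : ℝ) := by
      split_ifs
      · exact Real.abs_cos_le_one _
      · exact le_rfl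
    have h0 : (0 : ℝ) ≤ (if b = 3 then |Real.cos (Real.pi * (m : ℝ) / 2 ^ (u + 3))| else 1) := by
      split_ifs
      · exact abs_nonneg _
      · exact zero_le_one
    calc pw b * (if b = 3 then |Real.cos (Real.pi * (m : ℝ) / 2 ^ (u + 3))| else 1)
          * ww B j (u + b) (9 * m)
        ≤ pw b * 1 * 1 := by
          refine mul_le_mul (mul_le_mul_of_nonneg_left h1 (pw_nonneg b)) (ih _ _)
            (ww_nonneg _ _ _ _) ?_
          exact mul_nonneg (pw_nonneg b) zero_le_one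
      _ = pw b := by ring

theorem d4_two_mul_i2 (K : ℕ) : (2 : ZMod (3 ^ K)) * i2 K = 1 := by
  unfold i2
  have h : Nat.Coprime 2 (3 ^ K) := Nat.Coprime.pow_right _ (by norm_num)
  have := ZMod.coe_mul_inv_eq_one 2 h
  simpa using this

/-- `cos` is 1-Lipschitz. -/
theorem d4_abs_cos_add_le (x y : ℝ) : |Real.cos (x + y)| ≤ |Real.cos x| + |y| := by
  have h : |Real.cos (x + y) - Real.cos x| ≤ |(x + y) - x| := by
    rw [Real.cos_sub_cos]
    have h1 : |Real.sin ((x + y - x) / 2)| ≤ |(x + y - x) / 2| := Real.abs_sin_le_abs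
    rw [abs_mul, abs_mul]
    have h2 : |Real.sin ((x + y + x) / 2)| ≤ 1 := Real.abs_sin_le_one _
    have h3 : |(-2 : ℝ)| = 2 := by norm_num
    rw [h3]
    have h4 : |(x + y - x) / 2| = |x + y - x| / 2 := by
      rw [abs_div]; norm_num
    rw [h4] at h1
    nlinarith only [abs_nonneg (Real.sin ((x + y + x) / 2)), abs_nonneg (Real.sin ((x + y - x) / 2)), abs_nonneg (x + y - x), h1, h2]
  have h5 : x + y - x = y := by ring
  rw [h5] at h
  calc |Real.cos (x + y)| = |Real.cos x + (Real.cos (x + y) - Real.cos x)| := by ring_nf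
    _ ≤ |Real.cos x| + |Real.cos (x + y) - Real.cos x| := abs_add_le _ _
    _ ≤ _ := by linarith only [h]

theorem d4_abs_cos_add_int_mul_pi (x : ℝ) (q : ℤ) : |Real.cos (x + q * Real.pi)| = |Real.cos x| := by
  rw [Real.cos_add_int_mul_pi, abs_mul]
  have : |((-1 : ℝ) ^ q)| = 1 := by
    rw [abs_zpow]; simp
  rw [this, one_mul]

/-- `w = i2^{u+3} G`, `2^{u+3} ∣ G + m 3^K`: then `c(w) 2^{u+3} = G + m' 3^K` with `m' ≡ m mod 2^{u+3}` (`3^K` is odd), and
`|cos(π c(w)/3^K)| = |cos(π (m'/2^{u+3} + G/(2^{u+3} 3^K)))| ≤ |cos(π m/2^{u+3})| + π |G|/(2^{u+3} 3^K)`;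
`π/8 < 1`. -/
theorem cos_aa_le {K : ℕ} (u : ℕ) (G m : ℤ) (hdiv : (2 : ℤ) ^ (u + 3) ∣ G + m * 3 ^ K) :
    |Real.cos (Real.pi * aa K (i2 K ^ (u + 3) * (G : ZMod (3 ^ K))))| ≤
      |Real.cos (Real.pi * (m : ℝ) / 2 ^ (u + 3))| + |(G : ℝ)| / 3 ^ K := by
  set w : ZMod (3 ^ K) := i2 K ^ (u + 3) * (G : ZMod (3 ^ K)) with hw
  have hcw : ((w.valMinAbs : ℤ) : ZMod (3 ^ K)) = w := ZMod.coe_valMinAbs w
  set c : ℤ := w.valMinAbs with hc
  have h2w : (2 : ZMod (3 ^ K)) ^ (u + 3) * w = (G : ZMod (3 ^ K)) := by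
    rw [hw, ← mul_assoc, ← mul_pow, d4_two_mul_i2, one_pow, one_mul]
  have hdvd : ((3 ^ K : ℕ) : ℤ) ∣ 2 ^ (u + 3) * c - G := by
    rw [← ZMod.intCast_zmod_eq_zero_iff_dvd]
    push_cast
    rw [hcw, h2w, sub_self]
  obtain ⟨m', hm'⟩ := hdvd
  push_cast at hm'
  have hcop : IsCoprime ((2 : ℤ) ^ (u + 3)) ((3 : ℤ) ^ K) := by
    apply IsCoprime.pow
    exact ⟨-1, 1, by norm_num⟩
  have hq : (2 : ℤ) ^ (u + 3) ∣ m' - m := by
    have h1 : (2 : ℤ) ^ (u + 3) ∣ 3 ^ K * (m' - m) := by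
      have h2 : (2 : ℤ) ^ (u + 3) ∣ (2 ^ (u + 3) * c) - (G + m * 3 ^ K) :=
        dvd_sub (dvd_mul_right _ _) hdiv
      have h3 : (2 ^ (u + 3) * c) - (G + m * 3 ^ K) = 3 ^ K * (m' - m) := by
        linear_combination hm'
      rwa [h3] at h2
    exact hcop.dvd_of_dvd_mul_left h1
  obtain ⟨q, hq⟩ := hq
  have hP : (0 : ℝ) < (2 : ℝ) ^ (u + 3) := by positivity
  have hT : (0 : ℝ) < (3 : ℝ) ^ K := by positivity
  have hcr : (2 : ℝ) ^ (u + 3) * (c : ℝ) = (G : ℝ) + ((m : ℝ) + 2 ^ (u + 3) * q) * 3 ^ K := by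
    have h1 : (2 : ℤ) ^ (u + 3) * c = G + (m + 2 ^ (u + 3) * q) * 3 ^ K := by
      have : m' = m + 2 ^ (u + 3) * q := by linarith only [hq]
      rw [← this]; linarith only [hm']
    exact_mod_cast h1
  have hcos : |Real.cos (Real.pi * aa K w)| = |Real.cos (Real.pi * (c : ℝ) / 3 ^ K)| := by
    congr 1
    unfold aa
    rw [← Real.cos_abs (Real.pi * (c : ℝ) / 3 ^ K), abs_div, abs_mul, abs_of_pos Real.pi_pos,
      abs_of_pos hT, ← hc]
    congr 1
    ring
  rw [hcos]
  have hx : Real.pi * (c : ℝ) / 3 ^ K =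
      (Real.pi * (m : ℝ) / 2 ^ (u + 3) + Real.pi * (G : ℝ) / (2 ^ (u + 3) * 3 ^ K))
        + (q : ℝ) * Real.pi := by
    field_simp
    linear_combination hcr
  rw [hx, d4_abs_cos_add_int_mul_pi]
  refine (d4_abs_cos_add_le _ _).trans ?_
  gcongr
  rw [abs_div, abs_mul, abs_of_pos Real.pi_pos, abs_of_pos (mul_pos hP hT),
    div_le_div_iff₀ (mul_pos hP hT) hT]
  have hpi : Real.pi ≤ 4 := Real.pi_le_four
  have h8 : (8 : ℝ) ≤ 2 ^ (u + 3) := by
    have : (1 : ℝ) ≤ 2 ^ u := one_le_pow₀ (by norm_num)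
    rw [pow_add]; linarith only [this]
  have h9 : Real.pi ≤ 2 ^ (u + 3) := by linarith only [hpi, h8]
  calc Real.pi * |(G : ℝ)| * 3 ^ K = |(G : ℝ)| * 3 ^ K * Real.pi := by ring
    _ ≤ |(G : ℝ)| * 3 ^ K * 2 ^ (u + 3) := by gcongr
    _ = |(G : ℝ)| * (2 ^ (u + 3) * 3 ^ K) := by ring

/-- Induction on `j` generalizing `u G m J'`. `j = 0`: `hV` with `i = 0`. Step `j+1`: `J' = J''+1`;
`qq J' (i2^u G) = ∑_{b≤L} pw b ff_b(i2^{b}(i2^u G)) qq J'' (9 (i2^b (i2^u G)))`, and `9 i2^{u+b} G = i2^{u+b} (9G)`.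
For `b > B` use `qq ≤ V` (`hV` with `i = 1`) and `sum_pw_Ico_le`: total `≤ (B+1)/2^B V`. For `b ≤ B` the induction hypothesis
(with `u+b`, `9G`, `9m`; `2^{u+b+jB} ∣ 9G + 9m 3^K`) gives
`qq J'' ≤ (ww B j (u+b) (9m) + j((B+1)/2^B + 4·9^j·9|G|/3^K)) V`, and for `b = 3` by `cos_aa_le`
`ff·qq ≤ |cos(π m/2^{u+3})| qq + (|G|/3^K) V`. Since `∑ pw ≤ 1`, `ff ≤ 1`: total
`≤ (ww B (j+1) u m + j(...) + |G|/3^K + (B+1)/2^B) V`. -/
theorem further (K L B j u : ℕ) (hB : 3 ≤ B) (G m : ℤ) (J' : ℕ) (hj : j ≤ J') (V : ℝ)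
    (hV0 : 0 ≤ V) (hdiv : (2 : ℤ) ^ (u + j * B) ∣ G + m * 3 ^ K)
    (hV : ∀ i β : ℕ, i ≤ j → qq K L (J' - i) (9 ^ i * (i2 K ^ β * (G : ZMod (3 ^ K)))) ≤ V) :
    qq K L J' (i2 K ^ u * (G : ZMod (3 ^ K))) ≤
      (ww B j u m + j * (((B : ℝ) + 1) / 2 ^ B + 4 * 9 ^ j * (|(G : ℝ)| / 3 ^ K))) * V := by
  induction j generalizing u G m J' with
  | zero =>
    have h := hV 0 u le_rfl
    simpa [ww] using h
  | succ j ih =>
    obtain ⟨J'', rfl⟩ : ∃ J'', J' = J'' + 1 := ⟨J' - 1, by omega⟩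
    have hj' : j ≤ J'' := by omega
    set y : ZMod (3 ^ K) := i2 K ^ u * (G : ZMod (3 ^ K)) with hy
    set g : ℝ := |(G : ℝ)| / 3 ^ K with hg
    set ε : ℝ := ((B : ℝ) + 1) / 2 ^ B with hε
    have hg0 : 0 ≤ g := by rw [hg]; positivity
    have hε0 : 0 ≤ ε := by rw [hε]; positivity
    set E : ℝ := (j : ℝ) * (ε + 4 * 9 ^ (j + 1) * g) with hE
    have hE0 : 0 ≤ E := by rw [hE]; positivity
    -- the state after one step
    have hstate : ∀ b, 9 * (i2 K ^ b * y) = i2 K ^ (u + b) * ((9 * G : ℤ) : ZMod (3 ^ K)) := by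
      intro b
      rw [hy, pow_add]; push_cast; ring
    have hqV : ∀ b, qq K L J'' (9 * (i2 K ^ b * y)) ≤ V := by
      intro b
      have h := hV 1 (u + b) (by omega)
      have h1 : J'' + 1 - 1 = J'' := by omega
      rw [h1] at h
      have h2 : (9 : ZMod (3 ^ K)) ^ 1 * (i2 K ^ (u + b) * (G : ZMod (3 ^ K)))
          = 9 * (i2 K ^ b * y) := by
        rw [hy, pow_add]; ring
      rwa [h2] at h
    have hq0 : ∀ b, 0 ≤ qq K L J'' (9 * (i2 K ^ b * y)) := fun b => qq_nonneg _ _ _ _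
    -- induction hypothesis
    have hIH : ∀ b, b ≤ B → qq K L J'' (9 * (i2 K ^ b * y)) ≤
        (ww B j (u + b) (9 * m) + E) * V := by
      intro b hb
      have h := ih (u + b) (9 * G) (9 * m) J'' hj' ?_ ?_
      · rw [hstate b]
        refine h.trans (le_of_eq ?_)
        have h9 : |((9 * G : ℤ) : ℝ)| / 3 ^ K = 9 * g := by
          rw [hg]; push_cast; rw [abs_mul]
          have : |(9 : ℝ)| = 9 := by norm_num
          rw [this]; ring
        rw [h9, hE]; ring
      · have h1 : (2 : ℤ) ^ (u + b + j * B) ∣ 2 ^ (u + (j + 1) * B) := by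
          apply pow_dvd_pow
          have : (j + 1) * B = j * B + B := by ring
          omega
        have h2 : 9 * G + 9 * m * 3 ^ K = 9 * (G + m * 3 ^ K) := by ring
        rw [h2]
        exact Dvd.dvd.mul_left (h1.trans hdiv) _
      · intro i β hi
        have h := hV (i + 1) β (by omega)
        have h1 : J'' + 1 - (i + 1) = J'' - i := by omega
        rw [h1] at h
        have h2 : (9 : ZMod (3 ^ K)) ^ (i + 1) * (i2 K ^ β * (G : ZMod (3 ^ K)))
            = 9 ^ i * (i2 K ^ β * ((9 * G : ℤ) : ZMod (3 ^ K))) := by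
          push_cast; ring
        rwa [h2] at h
    -- the factor for the move b
    let cf : ℕ → ℝ := fun b => if b = 3 then |Real.cos (Real.pi * (m : ℝ) / 2 ^ (u + 3))| else 1
    have hcf0 : ∀ b, 0 ≤ cf b := by
      intro b; simp only [cf]; split_ifs
      · exact abs_nonneg _
      · exact zero_le_one
    have hcf1 : ∀ b, cf b ≤ 1 := by
      intro b; simp only [cf]; split_ifs
      · exact Real.abs_cos_le_one _
      · exact le_rfl
    have hff : ∀ b, ff K b (i2 K ^ b * y) ≤ cf b + g := by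
      intro b
      unfold ff
      by_cases hb3 : b = 3
      · simp only [cf, if_pos hb3]
        subst hb3
        have h1 : i2 K ^ 3 * y = i2 K ^ (u + 3) * (G : ZMod (3 ^ K)) := by
          rw [hy, pow_add]; ring
        rw [h1]
        apply cos_aa_le
        refine dvd_trans ?_ hdiv
        apply pow_dvd_pow
        have : (j + 1) * B = j * B + B := by ring
        omega
      · simp only [cf, if_neg hb3]
        linarith only [hg0]
    have hterm : ∀ b, b ≤ B → ff K b (i2 K ^ b * y) * qq K L J'' (9 * (i2 K ^ b * y)) ≤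
        (cf b * ww B j (u + b) (9 * m) + (E + g)) * V := by
      intro b hb
      calc ff K b (i2 K ^ b * y) * qq K L J'' (9 * (i2 K ^ b * y))
          ≤ (cf b + g) * qq K L J'' (9 * (i2 K ^ b * y)) :=
            mul_le_mul_of_nonneg_right (hff b) (hq0 b)
        _ = cf b * qq K L J'' (9 * (i2 K ^ b * y)) + g * qq K L J'' (9 * (i2 K ^ b * y)) := by
            ring
        _ ≤ cf b * ((ww B j (u + b) (9 * m) + E) * V) + g * V := by
            gcongr
            · exact hIH b hb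
            · exact hqV b
        _ = (cf b * ww B j (u + b) (9 * m)) * V + (cf b * E) * V + g * V := by ring
        _ ≤ (cf b * ww B j (u + b) (9 * m)) * V + (1 * E) * V + g * V := by
            gcongr
            exact hcf1 b
        _ = _ := by ring
    have hterm2 : ∀ b, ff K b (i2 K ^ b * y) * qq K L J'' (9 * (i2 K ^ b * y)) ≤ V := by
      intro b
      calc ff K b (i2 K ^ b * y) * qq K L J'' (9 * (i2 K ^ b * y))
          ≤ 1 * qq K L J'' (9 * (i2 K ^ b * y)) :=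
            mul_le_mul_of_nonneg_right (ff_le_one _ _ _) (hq0 b)
        _ ≤ V := by rw [one_mul]; exact hqV b
    set U : ℕ → ℝ := fun b => if b ≤ B then (cf b * ww B j (u + b) (9 * m) + (E + g)) * V else V
      with hU
    have hU0 : ∀ b, 0 ≤ U b := by
      intro b
      simp only [hU]
      split_ifs
      · refine mul_nonneg (add_nonneg (mul_nonneg (hcf0 b) (ww_nonneg _ _ _ _)) (by linarith only [hg0, hE0])) hV0
      · exact hV0
    have hmain := qq_succ_le (K := K) (L := L) (J := J'') y (max L B) (le_max_left _ _) U hU0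
      (by
        intro b _
        simp only [hU]
        split_ifs with hb
        · exact hterm b hb
        · exact hterm2 b)
    refine hmain.trans ?_
    have hsplit : ∑ b ∈ range (max L B + 1), pw b * U b =
        ∑ b ∈ range (B + 1), pw b * U b + ∑ b ∈ Ico (B + 1) (max L B + 1), pw b * U b := by
      rw [Finset.sum_range_add_sum_Ico]
      omega
    rw [hsplit]
    have hA : ∑ b ∈ range (B + 1), pw b * U b ≤ (ww B (j + 1) u m + (E + g)) * V := by
      have h1 : ∑ b ∈ range (B + 1), pw b * U b =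
          (∑ b ∈ range (B + 1), pw b * cf b * ww B j (u + b) (9 * m)) * V +
            (∑ b ∈ range (B + 1), pw b) * ((E + g) * V) := by
        rw [Finset.sum_mul, Finset.sum_mul, ← Finset.sum_add_distrib]
        refine Finset.sum_congr rfl fun b hb => ?_
        have hb' : b ≤ B := by
          have := Finset.mem_range.mp hb; omega
        simp only [hU, if_pos hb']
        ring
      have h2 : ww B (j + 1) u m = ∑ b ∈ range (B + 1), pw b * cf b * ww B j (u + b) (9 * m) := by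
        rw [ww]
      rw [h1, ← h2]
      have h3 : (∑ b ∈ range (B + 1), pw b) * ((E + g) * V) ≤ 1 * ((E + g) * V) := by
        apply mul_le_mul_of_nonneg_right (sum_pw_le_one _)
        positivity
      linarith only [h3]
    have hBs : ∑ b ∈ Ico (B + 1) (max L B + 1), pw b * U b ≤ ε * V := by
      have h1 : ∑ b ∈ Ico (B + 1) (max L B + 1), pw b * U b =
          (∑ b ∈ Ico (B + 1) (max L B + 1), pw b) * V := by
        rw [Finset.sum_mul]
        refine Finset.sum_congr rfl fun b hb => ?_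
        have hb' : ¬ b ≤ B := by
          have := (Finset.mem_Ico.mp hb).1; omega
        simp only [hU, if_neg hb']
      rw [h1]
      exact mul_le_mul_of_nonneg_right (sum_pw_Ico_le B (max L B)) hV0
    have hfin : (ww B (j + 1) u m + (E + g)) * V + ε * V ≤
        (ww B (j + 1) u m + ((j + 1 : ℕ) : ℝ) * (ε + 4 * 9 ^ (j + 1) * g)) * V := by
      rw [← add_mul]
      apply mul_le_mul_of_nonneg_right _ hV0
      have h1 : g ≤ 4 * 9 ^ (j + 1) * g := by
        have : (1 : ℝ) ≤ 4 * 9 ^ (j + 1) := by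
          have : (1 : ℝ) ≤ 9 ^ (j + 1) := one_le_pow₀ (by norm_num)
          linarith only [this]
        calc g = 1 * g := by ring
          _ ≤ 4 * 9 ^ (j + 1) * g := by gcongr
      rw [hE]; push_cast
      linarith only [h1]
    linarith only [hA, hBs, hfin]

end Pool.Agent.Lib.MP_d0d59f_nt.AA

end

section

/-! Row D6 (about 250 lines): block averages of `ww`. -/

namespace Pool.Agent.Lib.MP_d0d59f_nt.AA

open Finset

/-- `|cos|` has period `π`. -/
theorem d6_abs_cos_add (x : ℝ) (k : ℤ) :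
    |Real.cos (x + k * Real.pi)| = |Real.cos x| := by
  rw [Real.cos_add_int_mul_pi, abs_mul, abs_zpow, abs_neg, abs_one, one_zpow, one_mul]

/-- Splitting a range of length `p * q`. -/
theorem d6_sum_range_mul (p q : ℕ) (g : ℕ → ℝ) :
    ∑ i ∈ range (p * q), g i = ∑ i₀ ∈ range p, ∑ i₁ ∈ range q, g (i₀ + p * i₁) := by
  induction q with
  | zero => simp
  | succ q ih =>
    rw [Nat.mul_succ, Finset.sum_range_add, ih, ← Finset.sum_add_distrib]
    refine Finset.sum_congr rfl fun i₀ _ => ?_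
    rw [Finset.sum_range_succ, add_comm (p * q) i₀]

/-- The recursion, written out. -/
theorem d6_ww_succ (B j u : ℕ) (m : ℤ) : ww B (j + 1) u m = ∑ b ∈ range (B + 1),
      pw b * (if b = 3 then |Real.cos (Real.pi * (m : ℝ) / 2 ^ (u + 3))| else 1)
        * ww B j (u + b) (9 * m) := rfl

/-- Induction on `j` generalizing `u m q`. -/
theorem ww_periodic (B j u : ℕ) (hB : 3 ≤ B) (m q : ℤ) :
    ww B j u (m + 2 ^ (u + j * B) * q) = ww B j u m := by
  induction j generalizing u m q with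
  | zero => rfl
  | succ j ih =>
    rw [d6_ww_succ, d6_ww_succ]
    refine Finset.sum_congr rfl fun b hb => ?_
    have hbB : b ≤ B := Nat.lt_succ_iff.mp (Finset.mem_range.mp hb)
    congr 1
    · congr 1
      split_ifs with h3
      · -- the cosine
        have hexp : u + (j + 1) * B = (u + 3) + (j * B + (B - 3)) := by
          rw [Nat.succ_mul]; omega
        have e : Real.pi * ((m + 2 ^ (u + (j + 1) * B) * q : ℤ) : ℝ) / 2 ^ (u + 3) =
            Real.pi * (m : ℝ) / 2 ^ (u + 3) + ((2 ^ (j * B + (B - 3)) * q : ℤ) : ℝ) * Real.pi := by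
          have h2 : (2 : ℝ) ^ (u + 3) ≠ 0 := by positivity
          rw [hexp]
          push_cast
          rw [pow_add (2 : ℝ) (u + 3)]
          field_simp
        rw [e, d6_abs_cos_add]
      · rfl
    · have hexp : u + (j + 1) * B = (u + b + j * B) + (B - b) := by
        rw [Nat.succ_mul]; omega
      have e : 9 * (m + 2 ^ (u + (j + 1) * B) * q) =
          9 * m + 2 ^ (u + b + j * B) * (2 ^ (B - b) * (9 * q)) := by
        rw [hexp, pow_add]; ring
      rw [e, ih]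

/-- A multiple of the period. -/
theorem d6_ww_periodic' (B j u H : ℕ) (hB : 3 ≤ B) (hH : u + j * B ≤ H) (m q : ℤ) :
    ww B j u (m + 2 ^ H * q) = ww B j u m := by
  have e : (2 : ℤ) ^ H * q = 2 ^ (u + j * B) * (2 ^ (H - (u + j * B)) * q) := by
    rw [← mul_assoc, ← pow_add, Nat.add_sub_cancel' hH]
  rw [e, ww_periodic B j u hB]

theorem d6_pw_three : pw 3 = 1 / 4 := by
  unfold pw; norm_num

theorem d6_pw_zero : pw 0 = 0 := by
  unfold pw; norm_num

theorem d6_pw_one : pw 1 = 0 := by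
  unfold pw; norm_num

/-- Induction on `j` generalizing `h m₀`. `j+1`: write `i = i₀ + 2^b i₁`, `i₀ < 2^b`, `i₁ < 2^{H-h-b}`
(`b ≤ B`, so `h + b ≤ H`), `m = m₀ + 2^h i`. For `b ≠ 3` the term is
`pw b ∑_{i₀} ∑_{i₁} ww B j (h+b) (9(m₀ + 2^h i₀) + 2^{h+b}·(9 i₁)) ≤ pw b 2^b · 2^{H-h-b} 0.93^j` by `nine_perm` (the function
`x ↦ ww B j (h+b) (M + 2^{h+b} x)` has period `2^{H-h-b}`) and the induction hypothesis. For `b = 3` the factor
`|cos(π(m₀ + 2^h i₀ + 2^{h+3} i₁)/2^{h+3})| = |cos(π m₀/2^{h+3} + π i₀/8)|` comes in, with sum `≤ 5.66` over `i₀ < 8`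
(`cos_average`), so the term is `≤ pw 3 · 5.66 · 2^{H-h-3} 0.93^j`. Total
`≤ 2^{H-h} 0.93^j (∑_{b≠3} pw b + pw 3 · 5.66/8) ≤ 2^{H-h} 0.93^j (3/4 + 0.177) ≤ 2^{H-h} 0.93^{j+1}`
(`B ≥ 3`, `pw 3 = 1/4`). -/
theorem ww_class (B : ℕ) (hB : 3 ≤ B) (j h H : ℕ) (hh : 3 ≤ h) (hH : h + j * B ≤ H) (m₀ : ℤ) :
    ∑ i ∈ range (2 ^ (H - h)), ww B j h (m₀ + 2 ^ h * i) ≤ 2 ^ (H - h) * (0.93 : ℝ) ^ j := by
  induction j generalizing h m₀ with
  | zero =>
    simp [ww]
  | succ j ih =>
    have hH' : h + j * B + B ≤ H := by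
      have : (j + 1) * B = j * B + B := Nat.succ_mul j B
      omega
    -- the inner sums
    have inner : ∀ b ≤ B, ∀ i₀ : ℕ,
        ∑ i₁ ∈ range (2 ^ (H - h - b)),
          ww B j (h + b) (9 * (m₀ + 2 ^ h * ((i₀ + 2 ^ b * i₁ : ℕ) : ℤ))) ≤
          2 ^ (H - h - b) * (0.93 : ℝ) ^ j := by
      intro b hb i₀
      have hperm := nine_perm (H - h - b)
        (fun x : ℤ => ww B j (h + b) (9 * (m₀ + 2 ^ h * (i₀ : ℤ)) + 2 ^ (h + b) * x)) (by
          intro x q
          have e : 9 * (m₀ + 2 ^ h * (i₀ : ℤ)) + 2 ^ (h + b) * (x + 2 ^ (H - h - b) * q) =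
              (9 * (m₀ + 2 ^ h * (i₀ : ℤ)) + 2 ^ (h + b) * x) + 2 ^ H * q := by
            have : (2 : ℤ) ^ H = 2 ^ (h + b) * 2 ^ (H - h - b) := by
              rw [← pow_add]; congr 1; omega
            rw [this]; ring
          show ww B j (h + b) _ = ww B j (h + b) _
          rw [e]
          exact d6_ww_periodic' B j (h + b) H hB (by omega) _ _)
      have hih := ih (h + b) (by omega) (by omega) (9 * (m₀ + 2 ^ h * (i₀ : ℤ)))
      have hsub : H - (h + b) = H - h - b := by omega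
      rw [hsub] at hih
      refine le_trans (le_of_eq ?_) hih
      rw [← hperm]
      refine Finset.sum_congr rfl fun i₁ _ => ?_
      show ww B j (h + b) _ = ww B j (h + b) _
      congr 1
      push_cast
      rw [pow_add]
      ring
    -- exchange the sums
    have hexch : ∑ i ∈ range (2 ^ (H - h)), ww B (j + 1) h (m₀ + 2 ^ h * (i : ℤ)) =
        ∑ b ∈ range (B + 1), pw b * ∑ i ∈ range (2 ^ (H - h)),
          (if b = 3 then |Real.cos (Real.pi * ((m₀ + 2 ^ h * (i : ℤ) : ℤ) : ℝ) / 2 ^ (h + 3))| else 1)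
            * ww B j (h + b) (9 * (m₀ + 2 ^ h * (i : ℤ))) := by
      simp only [d6_ww_succ, Finset.mul_sum]
      rw [Finset.sum_comm]
      refine Finset.sum_congr rfl fun b _ => Finset.sum_congr rfl fun i _ => ?_
      ring
    rw [hexch]
    -- each term
    have hterm : ∀ b ∈ range (B + 1),
        pw b * ∑ i ∈ range (2 ^ (H - h)),
          (if b = 3 then |Real.cos (Real.pi * ((m₀ + 2 ^ h * (i : ℤ) : ℤ) : ℝ) / 2 ^ (h + 3))| else 1)
            * ww B j (h + b) (9 * (m₀ + 2 ^ h * (i : ℤ))) ≤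
        pw b * (2 ^ (H - h) * (0.93 : ℝ) ^ j) - if b = 3 then
          pw b * ((1 - 5.66 / 8) * (2 ^ (H - h) * (0.93 : ℝ) ^ j)) else 0 := by
      intro b hb
      have hbB : b ≤ B := Nat.lt_succ_iff.mp (Finset.mem_range.mp hb)
      have hpow : 2 ^ (H - h) = 2 ^ b * 2 ^ (H - h - b) := by
        rw [← pow_add]; congr 1; omega
      have hpowR : (2 : ℝ) ^ (H - h) = 2 ^ b * 2 ^ (H - h - b) := by
        rw [← pow_add]; congr 1; omega
      have hpwb := pw_nonneg b
      by_cases hb3 : b = 3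
      · subst hb3
        have hcore : ∑ i ∈ range (2 ^ (H - h)),
            |Real.cos (Real.pi * ((m₀ + 2 ^ h * (i : ℤ) : ℤ) : ℝ) / 2 ^ (h + 3))|
              * ww B j (h + 3) (9 * (m₀ + 2 ^ h * (i : ℤ))) ≤
            5.66 * (2 ^ (H - h - 3) * (0.93 : ℝ) ^ j) := by
          rw [hpow, d6_sum_range_mul]
          have hcos : ∀ i₀ i₁ : ℕ,
              |Real.cos (Real.pi * ((m₀ + 2 ^ h * ((i₀ + 2 ^ 3 * i₁ : ℕ) : ℤ) : ℤ) : ℝ)
                / 2 ^ (h + 3))| =
              |Real.cos (Real.pi * (m₀ : ℝ) / 2 ^ (h + 3) + Real.pi * i₀ / 8)| := by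
            intro i₀ i₁
            have e : Real.pi * ((m₀ + 2 ^ h * ((i₀ + 2 ^ 3 * i₁ : ℕ) : ℤ) : ℤ) : ℝ) / 2 ^ (h + 3) =
                (Real.pi * (m₀ : ℝ) / 2 ^ (h + 3) + Real.pi * i₀ / 8) + ((i₁ : ℤ) : ℝ) * Real.pi := by
              have h2 : (2 : ℝ) ^ h ≠ 0 := by positivity
              push_cast
              rw [pow_add]
              field_simp
              ring
            rw [e, d6_abs_cos_add]
          calc ∑ i₀ ∈ range (2 ^ 3), ∑ i₁ ∈ range (2 ^ (H - h - 3)),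
                |Real.cos (Real.pi * ((m₀ + 2 ^ h * ((i₀ + 2 ^ 3 * i₁ : ℕ) : ℤ) : ℤ) : ℝ)
                / 2 ^ (h + 3))| * ww B j (h + 3) (9 * (m₀ + 2 ^ h * ((i₀ + 2 ^ 3 * i₁ : ℕ) : ℤ)))
              = ∑ i₀ ∈ range (2 ^ 3), |Real.cos (Real.pi * (m₀ : ℝ) / 2 ^ (h + 3) + Real.pi * i₀ / 8)|
                  * ∑ i₁ ∈ range (2 ^ (H - h - 3)),
                    ww B j (h + 3) (9 * (m₀ + 2 ^ h * ((i₀ + 2 ^ 3 * i₁ : ℕ) : ℤ))) := by
                refine Finset.sum_congr rfl fun i₀ _ => ?_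
                rw [Finset.mul_sum]
                refine Finset.sum_congr rfl fun i₁ _ => ?_
                rw [hcos]
            _ ≤ ∑ i₀ ∈ range (2 ^ 3), |Real.cos (Real.pi * (m₀ : ℝ) / 2 ^ (h + 3) + Real.pi * i₀ / 8)|
                  * (2 ^ (H - h - 3) * (0.93 : ℝ) ^ j) := by
                refine Finset.sum_le_sum fun i₀ _ => ?_
                exact mul_le_mul_of_nonneg_left (inner 3 hB i₀) (abs_nonneg _)
            _ = (∑ i₀ ∈ range 8, |Real.cos (Real.pi * (m₀ : ℝ) / 2 ^ (h + 3) + Real.pi * i₀ / 8)|)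
                  * (2 ^ (H - h - 3) * (0.93 : ℝ) ^ j) := by
                rw [Finset.sum_mul]; norm_num
            _ ≤ 5.66 * (2 ^ (H - h - 3) * (0.93 : ℝ) ^ j) := by
                refine mul_le_mul_of_nonneg_right (cos_average _) (by positivity)
        simp only [if_true]
        have h8 : (2 : ℝ) ^ (H - h) = 8 * 2 ^ (H - h - 3) := by rw [hpowR]; norm_num
        have := mul_le_mul_of_nonneg_left hcore hpwb
        refine this.trans (le_of_eq ?_)
        rw [h8]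
        ring
      · simp only [if_neg hb3, one_mul, sub_zero]
        refine mul_le_mul_of_nonneg_left ?_ hpwb
        rw [hpow, d6_sum_range_mul]
        calc ∑ i₀ ∈ range (2 ^ b), ∑ i₁ ∈ range (2 ^ (H - h - b)),
              ww B j (h + b) (9 * (m₀ + 2 ^ h * ((i₀ + 2 ^ b * i₁ : ℕ) : ℤ)))
            ≤ ∑ i₀ ∈ range (2 ^ b), 2 ^ (H - h - b) * (0.93 : ℝ) ^ j :=
              Finset.sum_le_sum fun i₀ _ => inner b hbB i₀
          _ = 2 ^ (H - h) * (0.93 : ℝ) ^ j := by
              rw [Finset.sum_const, Finset.card_range, nsmul_eq_mul, hpowR]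
              push_cast
              ring
    refine (Finset.sum_le_sum hterm).trans ?_
    rw [Finset.sum_sub_distrib, Finset.sum_ite_eq' (range (B + 1)) 3, if_pos
      (Finset.mem_range.mpr (by omega)), ← Finset.sum_mul, d6_pw_three, pow_succ]
    have hsum := sum_pw_le_one (B + 1)
    have hpos : (0 : ℝ) ≤ 2 ^ (H - h) * (0.93 : ℝ) ^ j := by positivity
    have := mul_le_mul_of_nonneg_right hsum hpos
    nlinarith [this, hpos]

/-- By `nine_block` the sum is `∑_{i<2^{H-3}} ww B (j+1) u (m₀ + 8i)`. Drop the cosine of the first step: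
`≤ ∑_{b=2}^B pw b ∑_i ww B j (u+b) (9 m₀ + 72 i)`, `h = u + b ≥ 3`; by `nine_perm` (`a = H-3`) the inner sum is
`∑_i ww B j h (9m₀ + 8 i) = ∑_{i₀<2^{h-3}} ∑_{i₁<2^{H-h}} ww B j h (9 m₀ + 8 i₀ + 2^h i₁) ≤ 2^{H-3} 0.93^j` by
`ww_class`. -/
theorem ww_block (B : ℕ) (hB : 3 ≤ B) (j u H t0 : ℕ) (hu : 1 ≤ u) (hH : u + (j + 1) * B ≤ H)
    (m₀ : ℤ) (hm : Odd m₀) :
    ∑ i ∈ range (2 ^ (H - 3)), ww B (j + 1) u (9 ^ (t0 + i) * m₀) ≤
      2 ^ (H - 3) * (0.93 : ℝ) ^ j := by
  have hH' : u + j * B + B ≤ H := by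
    have : (j + 1) * B = j * B + B := Nat.succ_mul j B
    omega
  have hH3 : 3 ≤ H := by omega
  rw [nine_block H t0 hH3 m₀ hm (fun x => ww B (j + 1) u x)
    (fun x q => d6_ww_periodic' B (j + 1) u H hB hH x q)]
  -- the inner sums
  have inner : ∀ b ≤ B, 2 ≤ b →
      ∑ i ∈ range (2 ^ (H - 3)), ww B j (u + b) (9 * (m₀ + 8 * (i : ℤ))) ≤
        2 ^ (H - 3) * (0.93 : ℝ) ^ j := by
    intro b hbB hb2
    have hperm := nine_perm (H - 3)
      (fun x : ℤ => ww B j (u + b) (9 * m₀ + 8 * x)) (by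
        intro x q
        have e : 9 * m₀ + 8 * (x + 2 ^ (H - 3) * q) = (9 * m₀ + 8 * x) + 2 ^ H * q := by
          have : (2 : ℤ) ^ H = 8 * 2 ^ (H - 3) := by
            have h8 : (8 : ℤ) = 2 ^ 3 := by norm_num
            rw [h8, ← pow_add]; congr 1; omega
          rw [this]; ring
        show ww B j (u + b) _ = ww B j (u + b) _
        rw [e]
        exact d6_ww_periodic' B j (u + b) H hB (by omega) _ _)
    have e1 : ∑ i ∈ range (2 ^ (H - 3)), ww B j (u + b) (9 * (m₀ + 8 * (i : ℤ))) =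
        ∑ i ∈ range (2 ^ (H - 3)), ww B j (u + b) (9 * m₀ + 8 * (i : ℤ)) := by
      rw [← hperm]
      refine Finset.sum_congr rfl fun i _ => ?_
      show ww B j (u + b) _ = ww B j (u + b) _
      congr 1
      ring
    rw [e1]
    have hpow : 2 ^ (H - 3) = 2 ^ (u + b - 3) * 2 ^ (H - (u + b)) := by
      rw [← pow_add]; congr 1; omega
    have hpowR : (2 : ℝ) ^ (H - 3) = 2 ^ (u + b - 3) * 2 ^ (H - (u + b)) := by
      rw [← pow_add]; congr 1; omega
    rw [hpow, d6_sum_range_mul]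
    calc ∑ i₀ ∈ range (2 ^ (u + b - 3)), ∑ i₁ ∈ range (2 ^ (H - (u + b))),
          ww B j (u + b) (9 * m₀ + 8 * ((i₀ + 2 ^ (u + b - 3) * i₁ : ℕ) : ℤ))
        = ∑ i₀ ∈ range (2 ^ (u + b - 3)), ∑ i₁ ∈ range (2 ^ (H - (u + b))),
          ww B j (u + b) ((9 * m₀ + 8 * (i₀ : ℤ)) + 2 ^ (u + b) * (i₁ : ℤ)) := by
          refine Finset.sum_congr rfl fun i₀ _ => Finset.sum_congr rfl fun i₁ _ => ?_
          congr 1
          have : (2 : ℤ) ^ (u + b) = 8 * 2 ^ (u + b - 3) := by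
            have h8 : (8 : ℤ) = 2 ^ 3 := by norm_num
            rw [h8, ← pow_add]; congr 1; omega
          rw [this]
          push_cast
          ring
      _ ≤ ∑ i₀ ∈ range (2 ^ (u + b - 3)), 2 ^ (H - (u + b)) * (0.93 : ℝ) ^ j :=
          Finset.sum_le_sum fun i₀ _ =>
            ww_class B hB j (u + b) H (by omega) (by omega) _
      _ = 2 ^ (H - 3) * (0.93 : ℝ) ^ j := by
          rw [Finset.sum_const, Finset.card_range, nsmul_eq_mul, hpowR]
          push_cast
          ring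
  have hpos : (0 : ℝ) ≤ 2 ^ (H - 3) * (0.93 : ℝ) ^ j := by positivity
  calc ∑ i ∈ range (2 ^ (H - 3)), ww B (j + 1) u (m₀ + 8 * (i : ℤ))
      ≤ ∑ i ∈ range (2 ^ (H - 3)), ∑ b ∈ range (B + 1),
          pw b * ww B j (u + b) (9 * (m₀ + 8 * (i : ℤ))) := by
        refine Finset.sum_le_sum fun i _ => ?_
        rw [d6_ww_succ]
        refine Finset.sum_le_sum fun b _ => ?_
        refine mul_le_mul_of_nonneg_right ?_ (ww_nonneg _ _ _ _)
        refine mul_le_of_le_one_right (pw_nonneg b) ?_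
        split_ifs
        · exact Real.abs_cos_le_one _
        · exact le_rfl
    _ = ∑ b ∈ range (B + 1), pw b * ∑ i ∈ range (2 ^ (H - 3)),
          ww B j (u + b) (9 * (m₀ + 8 * (i : ℤ))) := by
        rw [Finset.sum_comm]
        refine Finset.sum_congr rfl fun b _ => ?_
        rw [Finset.mul_sum]
    _ ≤ ∑ b ∈ range (B + 1), pw b * (2 ^ (H - 3) * (0.93 : ℝ) ^ j) := by
        refine Finset.sum_le_sum fun b hb => ?_
        have hbB : b ≤ B := Nat.lt_succ_iff.mp (Finset.mem_range.mp hb)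
        by_cases hb2 : 2 ≤ b
        · exact mul_le_mul_of_nonneg_left (inner b hbB hb2) (pw_nonneg b)
        · have : b = 0 ∨ b = 1 := by omega
          rcases this with rfl | rfl
          · rw [d6_pw_zero]; simp
          · rw [d6_pw_one]; simp
    _ = (∑ b ∈ range (B + 1), pw b) * (2 ^ (H - 3) * (0.93 : ℝ) ^ j) := by
        rw [Finset.sum_mul]
    _ ≤ 1 * (2 ^ (H - 3) * (0.93 : ℝ) ^ j) :=
        mul_le_mul_of_nonneg_right (sum_pw_le_one (B + 1)) hpos
    _ = 2 ^ (H - 3) * (0.93 : ℝ) ^ j := one_mul _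

end Pool.Agent.Lib.MP_d0d59f_nt.AA

end
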