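import Pool.Agent.Lib.MP_d0d59f_nt.PZ.K003
import Pool.Agent.Lib.MP_d0d59f_nt.PZ.K019

section

/-! Row C2 (about 250 lines): `H_r(e)` in `ZMod (3^K)` and the weights `pz`. -/

namespace Pool.Agent.Lib.MP_d0d59f_nt.AA

open Finset

theorem pz_nonneg (d r : ℤ) (K n l : ℕ) (Y : ZMod (3 ^ K)) : 0 ≤ pz d r K n l Y := by
  unfold pz
  positivity

theorem c2b_sum_range_zmod (N : ℕ) [NeZero N] (g : ZMod N → ℝ) :
    ∑ x ∈ range N, g (x : ZMod N) = ∑ Y : ZMod N, g Y := by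
  refine Finset.sum_nbij' (fun x : ℕ => (x : ZMod N)) (fun Y => Y.val) ?_ ?_ ?_ ?_ ?_
  · intro a _
    exact Finset.mem_univ _
  · intro Y _
    exact Finset.mem_range.2 (ZMod.val_lt Y)
  · intro a ha
    exact ZMod.val_natCast_of_lt (Finset.mem_range.1 ha)
  · intro Y _
    exact ZMod.natCast_zmod_val Y
  · intro a _
    rfl

/-- `∑_{x < 3^K} g (x : ZMod (3^K)) = ∑_Y g Y`. -/
theorem sum_range_eq_sum_zmod (K : ℕ) (g : ZMod (3 ^ K) → ℝ) :
    ∑ x ∈ range (3 ^ K), g (x : ZMod (3 ^ K)) = ∑ Y : ZMod (3 ^ K), g Y :=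
  c2b_sum_range_zmod (3 ^ K) g

/-- Every `e ∈ comps n l` has exactly one value `hz d r K e` (`Finset.card_eq_sum_card_fiberwise`). -/
theorem sum_pz (d r : ℤ) (K n l : ℕ) : ∑ Y : ZMod (3 ^ K), pz d r K n l Y = nb n l := by
  unfold pz nb
  rw [← Finset.mul_sum]
  congr 1
  rw [← Nat.cast_sum]
  congr 1
  exact (Finset.card_eq_sum_card_fiberwise (f := fun e => hz d r K e) (s := comps n l)
    (t := Finset.univ) (fun _ _ => Finset.mem_coe.2 (Finset.mem_univ _))).symm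

theorem c2b_ind (K : ℕ) (M x : ℤ) :
    (if M ≡ x [ZMOD 3 ^ K] then (1 : ℕ) else 0) =
      ∑ j ∈ range 3, if M ≡ x + (j : ℤ) * 3 ^ K [ZMOD 3 ^ (K + 1)] then (1 : ℕ) else 0 := by
  have h3 : (3 : ℤ) ^ K ≠ 0 := by positivity
  have key : ∀ j : ℤ, M ≡ x + j * 3 ^ K [ZMOD 3 ^ (K + 1)] ↔
      ∃ q : ℤ, M - x = 3 ^ K * q ∧ (3 : ℤ) ∣ q - j := by
    intro j
    rw [Int.modEq_comm, Int.modEq_iff_dvd]
    constructor
    · rintro ⟨t, ht⟩
      refine ⟨j + 3 * t, ?_, ⟨t, by ring⟩⟩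
      have : (3 : ℤ) ^ (K + 1) = 3 ^ K * 3 := pow_succ _ _
      rw [this] at ht
      linear_combination ht
    · rintro ⟨q, hq, t, ht⟩
      refine ⟨t, ?_⟩
      have : (3 : ℤ) ^ (K + 1) = 3 ^ K * 3 := pow_succ _ _
      rw [this]
      linear_combination hq + (3 : ℤ) ^ K * ht
  by_cases h : M ≡ x [ZMOD 3 ^ K]
  · rw [if_pos h]
    obtain ⟨q, hq⟩ := Int.modEq_iff_dvd.1 h.symm
    have key2 : ∀ j : ℤ, M ≡ x + j * 3 ^ K [ZMOD 3 ^ (K + 1)] ↔ (3 : ℤ) ∣ q - j := by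
      intro j
      rw [key]
      constructor
      · rintro ⟨q', hq', hd⟩
        have : q' = q := mul_left_cancel₀ h3 (hq'.symm.trans hq)
        rwa [this] at hd
      · intro hd
        exact ⟨q, hq, hd⟩
    simp only [key2]
    rw [Finset.sum_range_succ, Finset.sum_range_succ, Finset.sum_range_one]
    push_cast
    have h5 : q % 3 = 0 ∨ q % 3 = 1 ∨ q % 3 = 2 := by omega
    rcases h5 with h5 | h5 | h5
    · rw [if_pos (by omega), if_neg (by omega), if_neg (by omega)]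
    · rw [if_neg (by omega), if_pos (by omega), if_neg (by omega)]
    · rw [if_neg (by omega), if_neg (by omega), if_pos (by omega)]
  · rw [if_neg h]
    symm
    apply Finset.sum_eq_zero
    intro j _
    rw [if_neg]
    intro h2
    obtain ⟨q, hq, _⟩ := (key j).1 h2
    exact h (Int.modEq_iff_dvd.2 ⟨q, hq⟩).symm

theorem c2b_hz_iff (d r : ℤ) (K : ℕ) (e : List ℕ) :
    ∃ M : ℤ, (∀ x : ℤ, hz d r K e = (x : ZMod (3 ^ K)) ↔ M ≡ x [ZMOD 3 ^ K]) ∧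
      ∀ x : ℤ, hz d r (K + 1) e = (x : ZMod (3 ^ (K + 1))) ↔ M ≡ x [ZMOD 3 ^ (K + 1)] := by
  have : NeZero (3 ^ (K + 1) : ℕ) := ⟨by positivity⟩
  refine ⟨((hz d r (K + 1) e).val : ℤ), ?_, ?_⟩
  · have hM : hz d r (K + 1) e = ((((hz d r (K + 1) e).val : ℕ) : ℤ) : ZMod (3 ^ (K + 1))) := by
      push_cast
      exact (ZMod.natCast_zmod_val _).symm
    have h1 := hz_cast (d := d) (r := r) (Nat.le_succ K) e _ hM
    intro x
    rw [h1, ZMod.intCast_eq_intCast_iff]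
    push_cast
    rfl
  · have hM : hz d r (K + 1) e = ((((hz d r (K + 1) e).val : ℕ) : ℤ) : ZMod (3 ^ (K + 1))) := by
      push_cast
      exact (ZMod.natCast_zmod_val _).symm
    intro x
    constructor
    · intro h
      rw [hM, ZMod.intCast_eq_intCast_iff] at h
      exact_mod_cast h
    · intro h
      rw [hM, ZMod.intCast_eq_intCast_iff]
      exact_mod_cast h

/-- `pz` at level `K` is the sum over the three lifts at level `K+1`:
`{e : hz d r K e = x} = ⊔_{j<3} {e : hz d r (K+1) e = x + j 3^K}`. -/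
theorem pz_eq_sum_lifts (d r : ℤ) (K n l : ℕ) (x : ℤ) :
    pz d r K n l (x : ZMod (3 ^ K)) =
      ∑ j ∈ range 3, pz d r (K + 1) n l ((x : ZMod (3 ^ (K + 1))) + (j : ZMod (3 ^ (K + 1))) * 3 ^ K) := by
  unfold pz
  rw [← Finset.mul_sum]
  congr 1
  rw [← Nat.cast_sum]
  congr 1
  simp only [Finset.card_filter]
  rw [Finset.sum_comm]
  refine Finset.sum_congr rfl fun e _ => ?_
  obtain ⟨M, h1, h2⟩ := c2b_hz_iff d r K e
  have h3 := c2b_ind K M x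
  simp only [h1]
  rw [h3]
  refine Finset.sum_congr rfl fun j _ => ?_
  have h4 : ((x : ZMod (3 ^ (K + 1))) + (j : ZMod (3 ^ (K + 1))) * 3 ^ K)
      = ((x + (j : ℤ) * 3 ^ K : ℤ) : ZMod (3 ^ (K + 1))) := by
    push_cast
    rfl
  rw [h4]
  simp only [h2]

/-- From `pz_eq_sum_lifts`, `3^K/3^(K+1) = 1/3` and `sum_range_eq_sum_zmod`. -/
theorem osc_succ_eq (d r : ℤ) (K n L : ℕ) :
    osc d r (K + 1) K n L = ∑ l ∈ range (L + 1), ∑ Y : ZMod (3 ^ (K + 1)),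
      |pz d r (K + 1) n l Y - pr K (pz d r (K + 1) n l) Y| := by
  unfold osc
  refine Finset.sum_congr rfl fun l _ => ?_
  rw [← sum_range_eq_sum_zmod]
  refine Finset.sum_congr rfl fun x _ => ?_
  congr 2
  unfold pr
  have h := pz_eq_sum_lifts d r K n l (x : ℤ)
  push_cast at h
  rw [h]
  have h3 : (3 : ℝ) ^ K / 3 ^ (K + 1) = 1 / 3 := by
    rw [pow_succ]
    field_simp
  rw [h3]

theorem c2b_sum_periodic (a b : ℕ) [NeZero a] (g : ZMod a → ℝ) :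
    ∑ x ∈ range (a * b), g (x : ZMod a) = b * ∑ Y : ZMod a, g Y := by
  induction b with
  | zero => simp
  | succ b ih =>
    rw [Nat.mul_succ, Finset.sum_range_add, ih]
    have : ∑ x ∈ range a, g ((a * b + x : ℕ) : ZMod a) = ∑ x ∈ range a, g (x : ZMod a) := by
      refine Finset.sum_congr rfl fun x _ => ?_
      congr 1
      push_cast
      rw [ZMod.natCast_self]
      ring
    rw [this, c2b_sum_range_zmod]
    push_cast
    ring

/-- `∑_x |pz K - 3^{m-K} pz m| ≤ 2 nb n l` for `m ≤ K`, where `∑_{x<3^K} pz d r m n l x = 3^{K-m} nb n l`. -/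
theorem osc_inner_le (d r : ℤ) (K m n l : ℕ) (h : m ≤ K) :
    ∑ x ∈ range (3 ^ K),
      |pz d r K n l (x : ZMod (3 ^ K)) - (3 : ℝ) ^ m / 3 ^ K * pz d r m n l (x : ZMod (3 ^ m))|
      ≤ 2 * nb n l := by
  obtain ⟨t, rfl⟩ := Nat.exists_eq_add_of_le h
  have h1 : ∀ x ∈ range (3 ^ (m + t)),
      |pz d r (m + t) n l (x : ZMod (3 ^ (m + t)))
        - (3 : ℝ) ^ m / 3 ^ (m + t) * pz d r m n l (x : ZMod (3 ^ m))|
      ≤ pz d r (m + t) n l (x : ZMod (3 ^ (m + t)))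
        + (3 : ℝ) ^ m / 3 ^ (m + t) * pz d r m n l (x : ZMod (3 ^ m)) := by
    intro x _
    have e1 := pz_nonneg d r (m + t) n l (x : ZMod (3 ^ (m + t)))
    have e2 := mul_nonneg (by positivity : (0 : ℝ) ≤ 3 ^ m / 3 ^ (m + t))
      (pz_nonneg d r m n l (x : ZMod (3 ^ m)))
    rw [abs_le]
    constructor <;> linarith
  refine (Finset.sum_le_sum h1).trans (le_of_eq ?_)
  rw [Finset.sum_add_distrib, sum_range_eq_sum_zmod, sum_pz, ← Finset.mul_sum]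
  have h2 : ∑ x ∈ range (3 ^ (m + t)), pz d r m n l (x : ZMod (3 ^ m)) = 3 ^ t * nb n l := by
    rw [pow_add, c2b_sum_periodic (3 ^ m) (3 ^ t) (fun Y => pz d r m n l Y), sum_pz]
    push_cast
    rfl
  rw [h2, pow_add]
  field_simp
  ring

end Pool.Agent.Lib.MP_d0d59f_nt.AA

end

section

/-! Row C3 (about 180 lines): the characteristic function is at most `qq`. -/

namespace Pool.Agent.Lib.MP_d0d59f_nt.AA

open Finset

theorem norm_bh_le_one (d r : ℤ) (K n l : ℕ) (ξ : ZMod (3 ^ K)) : ‖bh d r K n l ξ‖ ≤ 1 := by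
  unfold bh
  rw [norm_mul, norm_pow]
  have h1 : ‖∑ e ∈ comps n l, ps K (ξ * hz d r K e)‖ ≤ 2 ^ l := by
    refine (norm_sum_le _ _).trans ?_
    simp only [norm_ps, sum_const, nsmul_eq_mul, mul_one]
    exact_mod_cast card_comps_le n l
  have h2 : ‖(1 / 2 : ℂ)‖ = 1 / 2 := by norm_num
  rw [h2]
  calc (1 / 2 : ℝ) ^ l * ‖∑ e ∈ comps n l, ps K (ξ * hz d r K e)‖
      ≤ (1 / 2 : ℝ) ^ l * 2 ^ l := mul_le_mul_of_nonneg_left h1 (by positivity)
    _ = 1 := by rw [← mul_pow]; norm_num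

/-- reindexing of pairs by their sum -/
theorem c3_reindex {M : Type*} [AddCommMonoid M] (l : ℕ) (F : ℕ → ℕ → M) :
    ∑ a1 ∈ Icc 1 l, ∑ a2 ∈ Icc 1 (l - a1), F a1 a2
      = ∑ b ∈ range (l + 1), ∑ a1 ∈ Icc 1 (b - 1), F a1 (b - a1) := by
  rw [sum_sigma', sum_sigma']
  refine sum_bij' (fun p _ => ⟨p.1 + p.2, p.1⟩) (fun q _ => ⟨q.2, q.1 - q.2⟩) ?_ ?_ ?_ ?_ ?_
  · rintro ⟨a1, a2⟩ h
    simp only [mem_sigma, mem_Icc, mem_range] at h ⊢
    omega
  · rintro ⟨b, a1⟩ h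
    simp only [mem_sigma, mem_Icc, mem_range] at h ⊢
    omega
  · rintro ⟨a1, a2⟩ h
    simp only [mem_sigma, mem_Icc] at h
    simp only [Nat.add_sub_cancel_left]
  · rintro ⟨b, a1⟩ h
    simp only [mem_sigma, mem_Icc, mem_range] at h
    have : a1 + (b - a1) = b := by omega
    simp only [this]
  · rintro ⟨a1, a2⟩ h
    simp only [Nat.add_sub_cancel_left]

theorem c3_hz_two (d r : ℤ) (K a1 a2 : ℕ) (e : List ℕ) (ξ : ZMod (3 ^ K)) :
    ξ * hz d r K (a1 :: a2 :: e)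
      = ξ * i2 K ^ a1 * d + (3 * ξ * i2 K ^ (a1 + a2) * d
        + 9 * i2 K ^ (a1 + a2) * ξ * hz d r K e) := by
  rw [hz_cons, hz_cons, pow_add]
  ring

theorem c3_expand (d r : ℤ) (K n l : ℕ) (ξ : ZMod (3 ^ K)) :
    bh d r K (n + 2) l ξ = ∑ b ∈ range (l + 1), ((1 / 2 : ℂ) ^ b
      * (∑ a1 ∈ Icc 1 (b - 1), ps K (ξ * i2 K ^ a1 * d))
      * ps K (3 * ξ * i2 K ^ b * d)) * bh d r K n (l - b) (9 * i2 K ^ b * ξ) := by
  unfold bh
  rw [show n + 2 = (n + 1) + 1 from rfl, sum_comps_succ]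
  have h1 : ∀ a1 ∈ Icc 1 l, ∑ e ∈ comps (n + 1) (l - a1), ps K (ξ * hz d r K (a1 :: e))
      = ∑ a2 ∈ Icc 1 (l - a1), ∑ e ∈ comps n (l - a1 - a2),
        ps K (ξ * hz d r K (a1 :: a2 :: e)) := fun a1 _ =>
    sum_comps_succ n (l - a1) fun e => ps K (ξ * hz d r K (a1 :: e))
  rw [sum_congr rfl h1,
    c3_reindex l fun a1 a2 => ∑ e ∈ comps n (l - a1 - a2), ps K (ξ * hz d r K (a1 :: a2 :: e)),
    mul_sum]
  refine sum_congr rfl fun b hb => ?_
  have hbl : b ≤ l := by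
    rw [mem_range] at hb
    omega
  rw [mul_sum, mul_sum, sum_mul, sum_mul]
  refine sum_congr rfl fun a1 ha1 => ?_
  rw [mem_Icc] at ha1
  have h2 : l - a1 - (b - a1) = l - b := by omega
  have h3 : a1 + (b - a1) = b := by omega
  have h4 : (1 / 2 : ℂ) ^ l = (1 / 2 : ℂ) ^ b * (1 / 2 : ℂ) ^ (l - b) := by
    rw [← pow_add]
    congr 1
    omega
  rw [h2, h4, mul_sum, mul_sum, mul_sum]
  refine sum_congr rfl fun e _ => ?_
  rw [c3_hz_two, h3, ps_add, ps_add]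
  ring

theorem c3_factor (d : ℤ) (K b : ℕ) (ξ : ZMod (3 ^ K)) :
    ‖(1 / 2 : ℂ) ^ b * (∑ a1 ∈ Icc 1 (b - 1), ps K (ξ * i2 K ^ a1 * d))
      * ps K (3 * ξ * i2 K ^ b * d)‖
      ≤ pw b * ff K b (i2 K ^ b * (2 * (d : ZMod (3 ^ K)) * ξ)) := by
  rw [norm_mul, norm_mul, norm_ps, mul_one, norm_pow]
  have h2 : ‖(1 / 2 : ℂ)‖ = 1 / 2 := by norm_num
  rw [h2]
  unfold pw ff
  by_cases hb : b = 3
  · subst hb
    rw [if_pos rfl]
    set w : ZMod (3 ^ K) := ξ * i2 K ^ 2 * d with hw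
    have hi : i2 K = 2 * i2 K ^ 2 := by
      rw [pow_two, ← mul_assoc, two_mul_i2, one_mul]
    have e1 : ξ * i2 K ^ 1 * (d : ZMod (3 ^ K)) = w + w := by
      rw [hw, pow_one]
      conv_lhs => rw [hi]
      ring
    have e2 : ∑ a1 ∈ Icc 1 (3 - 1), ps K (ξ * i2 K ^ a1 * d) = ps K w * (1 + ps K w) := by
      have : (Icc 1 (3 - 1) : Finset ℕ) = {1, 2} := by decide
      rw [this, sum_pair (by norm_num), e1, ps_add]
      ring
    have e3 : i2 K ^ 3 * (2 * (d : ZMod (3 ^ K)) * ξ) = w := by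
      rw [hw]
      calc i2 K ^ 3 * (2 * (d : ZMod (3 ^ K)) * ξ) = (2 * i2 K) * (i2 K ^ 2 * d * ξ) := by ring
        _ = ξ * i2 K ^ 2 * d := by rw [two_mul_i2]; ring
    rw [e2, e3, norm_mul, norm_ps, one_mul, norm_one_add_ps]
    norm_num
    linarith
  · rw [if_neg hb, mul_one, mul_comm]
    refine mul_le_mul_of_nonneg_right ?_ (by positivity)
    refine (norm_sum_le _ _).trans ?_
    simp only [norm_ps, sum_const, nsmul_eq_mul, mul_one, Nat.card_Icc]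
    simp

/-- Two steps. -/
theorem norm_bh_two (d r : ℤ) (K n l : ℕ) (ξ : ZMod (3 ^ K)) :
    ‖bh d r K (n + 2) l ξ‖ ≤ ∑ b ∈ range (l + 1),
      pw b * ff K b (i2 K ^ b * (2 * (d : ZMod (3 ^ K)) * ξ))
        * ‖bh d r K n (l - b) (9 * i2 K ^ b * ξ)‖ := by
  rw [c3_expand]
  refine (norm_sum_le _ _).trans (sum_le_sum fun b _ => ?_)
  rw [norm_mul]
  exact mul_le_mul_of_nonneg_right (c3_factor d K b ξ) (norm_nonneg _)

/-- Induction on `J` (generalizing `n l ξ`): `norm_bh_two`, the induction hypothesis with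
`2 d (9 i2^b ξ) = 9 (i2^b (2 d ξ))`, and `range (l+1) ⊆ range (L+1)`. -/
theorem norm_bh_le (d r : ℤ) (K L J n l : ℕ) (h2J : 2 * J ≤ n) (hl : l ≤ L) (ξ : ZMod (3 ^ K)) :
    ‖bh d r K n l ξ‖ ≤ qq K L J (2 * (d : ZMod (3 ^ K)) * ξ) := by
  induction J generalizing n l ξ with
  | zero => exact norm_bh_le_one d r K n l ξ
  | succ J ih =>
    obtain ⟨n', rfl⟩ : ∃ n', n = n' + 2 := ⟨n - 2, by omega⟩
    refine (norm_bh_two d r K n' l ξ).trans ?_
    change _ ≤ ∑ b ∈ range (L + 1),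
      pw b * ff K b (i2 K ^ b * (2 * (d : ZMod (3 ^ K)) * ξ))
        * qq K L J (9 * (i2 K ^ b * (2 * (d : ZMod (3 ^ K)) * ξ)))
    have h1 : ∀ b ∈ range (l + 1), pw b * ff K b (i2 K ^ b * (2 * (d : ZMod (3 ^ K)) * ξ))
        * ‖bh d r K n' (l - b) (9 * i2 K ^ b * ξ)‖
        ≤ pw b * ff K b (i2 K ^ b * (2 * (d : ZMod (3 ^ K)) * ξ))
        * qq K L J (9 * (i2 K ^ b * (2 * (d : ZMod (3 ^ K)) * ξ))) := by
      intro b _
      refine mul_le_mul_of_nonneg_left ?_ (mul_nonneg (pw_nonneg b) (ff_nonneg _ _ _))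
      have := ih n' (l - b) (by omega) (by omega) (9 * i2 K ^ b * ξ)
      have e1 : 2 * (d : ZMod (3 ^ K)) * (9 * i2 K ^ b * ξ)
          = 9 * (i2 K ^ b * (2 * (d : ZMod (3 ^ K)) * ξ)) := by ring
      rwa [e1] at this
    refine (sum_le_sum h1).trans ?_
    refine sum_le_sum_of_subset_of_nonneg ?_ fun b _ _ => ?_
    · intro b hb
      rw [mem_range] at hb ⊢
      omega
    · exact mul_nonneg (mul_nonneg (pw_nonneg b) (ff_nonneg _ _ _)) (qq_nonneg _ _ _ _)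

end Pool.Agent.Lib.MP_d0d59f_nt.AA

end
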