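import Pool.Agent.Lib.MP_d0d59f_nt.PZ.K027

section

/-! Generalised Wronskians. -/

open MvPolynomial

namespace SB

section Wronskian

variable {k : ℕ}

private theorem wron_hd_monomial (μ J : Fin k →₀ ℕ) (c : ℚ) :
    hd μ (monomial J c) = monomial (J - μ) (((∏ h, (J h).choose (μ h) : ℕ) : ℚ) * c) := by
  have h1 : (monomial J c : MvPolynomial (Fin k) ℚ) = c • basisMonomials (Fin k) ℚ J := by
    rw [coe_basisMonomials, smul_monomial, smul_eq_mul, mul_one]
  rw [h1, map_smul, hd, Module.Basis.constr_basis, smul_monomial, smul_eq_mul, mul_comm]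

private theorem wron_hd_zero (f : MvPolynomial (Fin k) ℚ) : hd 0 f = f := by
  induction f using MvPolynomial.induction_on' with
  | monomial J c =>
    rw [wron_hd_monomial]
    simp
  | add p q hp hq => rw [map_add, hp, hq]

private theorem wron_pderiv_hd (l : Fin k) (μ : Fin k →₀ ℕ) (f : MvPolynomial (Fin k) ℚ) :
    pderiv l (hd μ f) = ((μ l : ℚ) + 1) • hd (μ + Finsupp.single l 1) f := by
  induction f using MvPolynomial.induction_on' with
  | monomial J c =>
    rw [wron_hd_monomial, wron_hd_monomial, pderiv_monomial, smul_monomial, tsub_tsub]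
    congr 1
    have h1 : (∏ h, (J h).choose ((μ + Finsupp.single l 1 : Fin k →₀ ℕ) h)) * (μ l + 1) =
        (∏ h, (J h).choose (μ h)) * (J l - μ l) := by
      have p1 := Finset.mul_prod_erase Finset.univ
        (fun h => (J h).choose ((μ + Finsupp.single l 1 : Fin k →₀ ℕ) h)) (Finset.mem_univ l)
      have p2 := Finset.mul_prod_erase Finset.univ
        (fun h => (J h).choose (μ h)) (Finset.mem_univ l)
      have h2 : ∏ h ∈ Finset.univ.erase l,
          (J h).choose ((μ + Finsupp.single l 1 : Fin k →₀ ℕ) h) =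
          ∏ h ∈ Finset.univ.erase l, (J h).choose (μ h) := by
        refine Finset.prod_congr rfl fun h hh => ?_
        rw [Finsupp.add_apply, Finsupp.single_eq_of_ne (Finset.ne_of_mem_erase hh), add_zero]
      have h3 := Nat.choose_succ_right_eq (J l) (μ l)
      have h5 : (μ + Finsupp.single l 1 : Fin k →₀ ℕ) l = μ l + 1 := by
        rw [Finsupp.add_apply, Finsupp.single_eq_same]
      rw [← p1, ← p2, h2, h5]
      calc (J l).choose (μ l + 1) * (∏ h ∈ Finset.univ.erase l, (J h).choose (μ h)) * (μ l + 1)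
          = ((J l).choose (μ l + 1) * (μ l + 1)) *
            ∏ h ∈ Finset.univ.erase l, (J h).choose (μ h) := by ring
        _ = (J l).choose (μ l) * (∏ h ∈ Finset.univ.erase l, (J h).choose (μ h)) *
            (J l - μ l) := by rw [h3]; ring
    have h4 : (((∏ h, (J h).choose ((μ + Finsupp.single l 1 : Fin k →₀ ℕ) h) : ℕ) : ℚ)) *
        ((μ l : ℚ) + 1) = ((∏ h, (J h).choose (μ h) : ℕ) : ℚ) * ((J l - μ l : ℕ) : ℚ) := by
      exact_mod_cast h1
    rw [Finsupp.tsub_apply, smul_eq_mul]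
    linear_combination -c * h4
  | add p q hp hq => rw [map_add, map_add, map_add, hp, hq, smul_add]

private theorem wron_coeff_euler (l : Fin k) (f : MvPolynomial (Fin k) ℚ) (B : Fin k →₀ ℕ) :
    coeff B (X l * pderiv l f) = (B l : ℚ) * coeff B f := by
  induction f using MvPolynomial.induction_on' with
  | monomial J c =>
    rw [X_mul_pderiv_monomial, coeff_smul, coeff_monomial, nsmul_eq_mul]
    split_ifs with h
    · rw [h]
    · simp
  | add p q hp hq => rw [map_add, mul_add, coeff_add, coeff_add, hp, hq, mul_add]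

/-- proportionality from vanishing `2 × 2` Wronskians -/
private theorem wron_prop {P Q : MvPolynomial (Fin k) ℚ} (hQ : Q ≠ 0)
    (h : ∀ l, Q * pderiv l P = P * pderiv l Q) : ∃ c : ℚ, P = C c * Q := by
  let m : MonomialOrder (Fin k) := MonomialOrder.lex
  have hJ : coeff (m.degree Q) Q ≠ 0 := MonomialOrder.coeff_degree_ne_zero_iff.mpr hQ
  set J := m.degree Q with hJdef
  set c : ℚ := coeff J P / coeff J Q with hc
  refine ⟨c, ?_⟩
  by_contra hne
  set R := P - C c * Q with hR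
  have hR0 : R ≠ 0 := fun h0 => hne (sub_eq_zero.mp h0)
  have hRJ : coeff J R = 0 := by
    rw [hR, coeff_sub, coeff_C_mul, hc, div_mul_cancel₀ _ hJ, sub_self]
  have hI : coeff (m.degree R) R ≠ 0 := MonomialOrder.coeff_degree_ne_zero_iff.mpr hR0
  set I := m.degree R with hIdef
  have hRl : ∀ l, Q * pderiv l R = R * pderiv l Q := by
    intro l
    rw [hR, map_sub, Derivation.leibniz, pderiv_C]
    simp only [smul_eq_mul, mul_zero, add_zero]
    linear_combination h l
  have hdeg : ∀ (l : Fin k) (f : MvPolynomial (Fin k) ℚ),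
      m.toSyn (m.degree (X l * pderiv l f)) ≤ m.toSyn (m.degree f) := by
    intro l f
    rw [MonomialOrder.degree_le_iff]
    intro B hB
    refine MonomialOrder.le_degree ?_
    rw [mem_support_iff] at hB ⊢
    rw [wron_coeff_euler] at hB
    exact right_ne_zero_of_mul hB
  have hIJ : ∀ l, (I l : ℚ) = (J l : ℚ) := by
    intro l
    have e1 : coeff (J + I) (Q * (X l * pderiv l R)) = coeff J Q * ((I l : ℚ) * coeff I R) := by
      rw [MonomialOrder.coeff_mul_of_add_of_degree_le (m := m) (le_of_eq rfl) (hdeg l R),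
        wron_coeff_euler]
    have e2 : coeff (I + J) (R * (X l * pderiv l Q)) = coeff I R * ((J l : ℚ) * coeff J Q) := by
      rw [MonomialOrder.coeff_mul_of_add_of_degree_le (m := m) (le_of_eq rfl) (hdeg l Q),
        wron_coeff_euler]
    have e3 : Q * (X l * pderiv l R) = R * (X l * pderiv l Q) := by
      linear_combination X l * hRl l
    rw [e3, add_comm, e2] at e1
    have e4 : (coeff J Q * coeff I R) * ((J l : ℚ) - (I l : ℚ)) = 0 := by
      linear_combination e1
    rcases mul_eq_zero.mp e4 with e5 | e5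
    · exact absurd e5 (mul_ne_zero hJ hI)
    · linarith
  have : I = J := by
    ext l
    exact_mod_cast hIJ l
  rw [this] at hI
  exact hI hRJ

end Wronskian

/-- Linearly independent polynomials have a non-vanishing generalised Wronskian. -/
theorem exists_wronskian {k : ℕ} (s : ℕ) (φ : Fin s → MvPolynomial (Fin k) ℚ)
    (hφ : LinearIndependent ℚ φ) :
    ∃ μ : Fin s → (Fin k →₀ ℕ), (∀ i, (μ i).degree ≤ (i : ℕ)) ∧
      (Matrix.of fun i j => hd (μ i) (φ j)).det ≠ 0 := by
  induction s with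
  | zero =>
    refine ⟨fun i => i.elim0, fun i => i.elim0, ?_⟩
    rw [Matrix.det_fin_zero]
    exact one_ne_zero
  | succ s ih =>
    obtain ⟨μ, hμ, hdet⟩ := ih (fun j => φ j.castSucc)
      (hφ.comp Fin.castSucc (Fin.castSucc_injective s))
    by_contra hcon
    push Not at hcon
    -- cofactors
    set c : Fin (s + 1) → MvPolynomial (Fin k) ℚ := fun j => (-1) ^ (s + (j : ℕ)) *
      (Matrix.of fun (i : Fin s) (j' : Fin s) => hd (μ i) (φ (j.succAbove j'))).det with hc
    have hlast : c (Fin.last s) = (Matrix.of fun i j => hd (μ i) (φ (Fin.castSucc j))).det := by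
      rw [hc]
      simp only [Fin.succAbove_last, Fin.val_last]
      rw [Even.neg_one_pow ⟨s, rfl⟩, one_mul]
    have hlast0 : c (Fin.last s) ≠ 0 := by rw [hlast]; exact hdet
    have hrel : ∀ ν : Fin k →₀ ℕ, ν.degree ≤ s → ∑ j, c j * hd ν (φ j) = 0 := by
      intro ν hν
      have h1 := hcon (Fin.snoc μ ν) (by
        intro i
        refine Fin.lastCases ?_ (fun i => ?_) i
        · simpa using hν
        · simpa using hμ i)
      rw [Matrix.det_succ_row _ (Fin.last s)] at h1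
      rw [← h1]
      refine Finset.sum_congr rfl fun j _ => ?_
      rw [hc]
      have e : (Matrix.of fun i j => hd ((Fin.snoc μ ν : Fin (s + 1) → (Fin k →₀ ℕ)) i) (φ j)).submatrix
          (Fin.last s).succAbove j.succAbove =
          Matrix.of fun (i : Fin s) (j' : Fin s) => hd (μ i) (φ (j.succAbove j')) := by
        ext i j' : 2
        simp [Fin.succAbove_last]
      rw [e]
      simp only [Matrix.of_apply, Fin.snoc_last, Fin.val_last]
      ring
    have hder : ∀ (l : Fin k) (i : Fin s), ∑ j, pderiv l (c j) * hd (μ i) (φ j) = 0 := by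
      intro l i
      have h1 := congrArg (pderiv l) (hrel (μ i) ((hμ i).trans i.2.le))
      rw [map_sum, map_zero] at h1
      have h2 := hrel (μ i + Finsupp.single l 1) (by
        rw [map_add, Finsupp.degree_single]
        have := hμ i
        have := i.2
        omega)
      have h3 : ∀ j, pderiv l (c j * hd (μ i) (φ j)) = pderiv l (c j) * hd (μ i) (φ j) +
          ((μ i l : ℚ) + 1) • (c j * hd (μ i + Finsupp.single l 1) (φ j)) := by
        intro j
        rw [Derivation.leibniz, wron_pderiv_hd, smul_eq_mul, smul_eq_mul, mul_smul_comm]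
        ring
      rw [Finset.sum_congr rfl fun j _ => h3 j, Finset.sum_add_distrib, ← Finset.smul_sum, h2,
        smul_zero, add_zero] at h1
      exact h1
    have hprop : ∀ j, ∃ a : ℚ, c j = C a * c (Fin.last s) := by
      intro j
      refine wron_prop hlast0 fun l => ?_
      -- the vector `v`
      set v : Fin (s + 1) → MvPolynomial (Fin k) ℚ := fun j =>
        c (Fin.last s) * pderiv l (c j) - c j * pderiv l (c (Fin.last s)) with hv
      have hvlast : v (Fin.last s) = 0 := by rw [hv]; ring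
      have hvsum : ∀ i : Fin s, ∑ j, hd (μ i) (φ j) * v j = 0 := by
        intro i
        have h1 := hder l i
        have h2 := hrel (μ i) ((hμ i).trans i.2.le)
        have h3 : ∀ j, hd (μ i) (φ j) * v j =
            c (Fin.last s) * (pderiv l (c j) * hd (μ i) (φ j)) -
            pderiv l (c (Fin.last s)) * (c j * hd (μ i) (φ j)) := by
          intro j
          rw [hv]
          ring
        rw [Finset.sum_congr rfl fun j _ => h3 j, Finset.sum_sub_distrib, ← Finset.mul_sum,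
          ← Finset.mul_sum, h1, h2, mul_zero, mul_zero, sub_zero]
      have hv0 : (fun j : Fin s => v j.castSucc) = 0 := by
        refine Matrix.eq_zero_of_mulVec_eq_zero hdet ?_
        ext1 i
        have h1 := hvsum i
        rw [Fin.sum_univ_castSucc, hvlast, mul_zero, add_zero] at h1
        simpa [Matrix.mulVec, dotProduct] using h1
      have hvj : v j = 0 := by
        refine Fin.lastCases hvlast (fun i => ?_) j
        exact congrFun hv0 i
      exact sub_eq_zero.mp hvj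
    choose a ha using hprop
    have ha1 : a (Fin.last s) = 1 := by
      have h1 := ha (Fin.last s)
      have h2 : (C (a (Fin.last s)) - 1) * c (Fin.last s) = 0 := by
        rw [sub_mul, ← h1, one_mul, sub_self]
      rcases mul_eq_zero.mp h2 with h3 | h3
      · have h4 : (C (a (Fin.last s)) : MvPolynomial (Fin k) ℚ) = C 1 := by
          rw [C_1]; exact sub_eq_zero.mp h3
        exact C_injective _ _ h4
      · exact absurd h3 hlast0
    have hsum : ∑ j, a j • φ j = 0 := by
      have h1 := hrel 0 (by simp)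
      have h2 : c (Fin.last s) * ∑ j, a j • φ j = 0 := by
        rw [← h1, Finset.mul_sum]
        refine Finset.sum_congr rfl fun j _ => ?_
        rw [wron_hd_zero, ha j, smul_eq_C_mul]
        ring
      exact (mul_eq_zero.mp h2).resolve_left hlast0
    have := Fintype.linearIndependent_iff.mp hφ a hsum (Fin.last s)
    rw [ha1] at this
    exact one_ne_zero this

end SB

end

section

/-! The auxiliary polynomial. -/

open MvPolynomial

namespace SB

section Siegel

attribute [local instance] Matrix.seminormedAddCommGroup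

private theorem auxpoly_siegel {α β : Type*} [Fintype α] [Fintype β] (A : Matrix α β ℤ)
    (B : ℝ) (hB : 1 ≤ B) (hA : ∀ i j, |(A i j : ℝ)| ≤ B)
    (hc : 2 * Fintype.card α ≤ Fintype.card β) (hp : 0 < Fintype.card β) :
    ∃ t : β → ℤ, t ≠ 0 ∧ (∀ i, ∑ j, A i j * t j = 0) ∧
      ∀ j, |(t j : ℝ)| ≤ (Fintype.card β : ℝ) * B := by
  have hβ : (1 : ℝ) ≤ Fintype.card β := by exact_mod_cast hp
  have h1 : (1 : ℝ) ≤ (Fintype.card β : ℝ) * B := one_le_mul_of_one_le_of_one_le hβ hB
  rcases Nat.eq_zero_or_pos (Fintype.card α) with h0 | h0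
  · have : IsEmpty α := Fintype.card_eq_zero_iff.1 h0
    have hne : Nonempty β := Fintype.card_pos_iff.1 hp
    refine ⟨fun _ => 1, ?_, fun i => isEmptyElim i, fun j => by simpa using h1⟩
    intro h
    have := congrFun h hne.some
    simp at this
  · obtain ⟨t, ht0, ht1, ht2⟩ := Int.Matrix.exists_ne_zero_int_vec_norm_le A (by omega) h0
    refine ⟨t, ht0, fun i => congrFun ht1 i, fun j => ?_⟩
    have hA' : ‖A‖ ≤ B := by
      rw [Matrix.norm_le_iff (by linarith only [hB])]
      intro i j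
      rw [Int.norm_eq_abs]
      exact hA i j
    have h2 : ‖t j‖ ≤ ‖t‖ := norm_le_pi_norm t j
    rw [Int.norm_eq_abs] at h2
    refine h2.trans (ht2.trans ?_)
    have h3 : (1 : ℝ) ≤ (Fintype.card β : ℝ) * max 1 ‖A‖ :=
      one_le_mul_of_one_le_of_one_le hβ (le_max_left _ _)
    have h4 : ((Fintype.card α : ℝ) / ((Fintype.card β : ℝ) - Fintype.card α)) ≤ 1 := by
      have : (2 : ℝ) * Fintype.card α ≤ Fintype.card β := by exact_mod_cast hc
      have h0' : (0 : ℝ) < Fintype.card α := by exact_mod_cast h0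
      rw [div_le_one (by linarith only [this, h0'])]
      linarith only [this]
    calc ((Fintype.card β : ℝ) * max 1 ‖A‖) ^
          ((Fintype.card α : ℝ) / ((Fintype.card β : ℝ) - Fintype.card α))
        ≤ ((Fintype.card β : ℝ) * max 1 ‖A‖) ^ (1 : ℝ) := Real.rpow_le_rpow_of_exponent_le h3 h4
      _ = (Fintype.card β : ℝ) * max 1 ‖A‖ := Real.rpow_one _
      _ ≤ (Fintype.card β : ℝ) * B := by
          gcongr
          exact max_le hB hA'

end Siegel

section Size

attribute [local instance] Matrix.linftyOpNormedRing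

private theorem auxpoly_size {D : ℕ} {R : Type*} [CommRing R]
    (Φ : R →+* Matrix (Fin D) (Fin D) ℤ) :
    ∃ ν : R → ℝ, IsSize ν ∧ ν 1 ≤ 1 ∧ ∀ x i j, |((Φ x i j : ℤ) : ℝ)| ≤ ν x := by
  refine ⟨fun x => ‖Φ x‖, ⟨by simp, fun x => norm_nonneg _, fun x y => ?_, fun x y => ?_⟩, ?_,
    fun x i j => ?_⟩
  · simp only [map_add]
    exact norm_add_le _ _
  · simp only [map_mul]
    exact norm_mul_le _ _
  · simp only [map_one]
    rw [Matrix.linfty_opNorm_def]
    norm_cast
    refine Finset.sup_le fun i _ => ?_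
    simp [Matrix.one_apply, apply_ite]
  · simp only
    rw [Matrix.linfty_opNorm_def, ← Int.norm_eq_abs]
    have h1 : ‖Φ x i j‖₊ ≤ ∑ j, ‖Φ x i j‖₊ :=
      Finset.single_le_sum (f := fun j => ‖Φ x i j‖₊) (fun _ _ => zero_le) (Finset.mem_univ j)
    have h2 : (∑ j, ‖Φ x i j‖₊) ≤ Finset.univ.sup fun i => ∑ j, ‖Φ x i j‖₊ :=
      Finset.le_sup (f := fun i => ∑ j, ‖Φ x i j‖₊) (Finset.mem_univ i)
    exact_mod_cast h1.trans h2

end Size

private theorem auxpoly_order {n : ℕ} (K : IntermediateField ℚ ℝ) [FiniteDimensional ℚ K]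
    (N' : Matrix (Fin n) (Fin n) ℝ) (hN' : ∀ i j, N' i j ∈ K) :
    ∃ (O : Type) (_ : CommRing O) (f : O →+* ℝ) (D : ℕ) (Φ : O →+* Matrix (Fin D) (Fin D) ℤ)
      (q : ℤ) (a : Fin n → Fin n → O), Function.Injective Φ ∧ q ≠ 0 ∧
        ∀ i j, f (a i j) = q * N' i j := by
  classical
  let D := Module.finrank ℚ K
  let b := Module.finBasis ℚ K
  let M : K →+* Matrix (Fin D) (Fin D) ℚ := (Algebra.leftMulMatrix b).toRingHom
  have hM : Function.Injective M := Algebra.leftMulMatrix_injective b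
  let ι : Matrix (Fin D) (Fin D) ℤ →+* Matrix (Fin D) (Fin D) ℚ := (Int.castRingHom ℚ).mapMatrix
  have hι : Function.Injective ι := by
    intro x y hxy
    ext i j
    have := congrFun (congrFun hxy i) j
    simpa [ι] using this
  let S : Subring K := ι.range.comap M
  let e : Matrix (Fin D) (Fin D) ℤ ≃+* ι.range :=
    RingEquiv.ofBijective ι.rangeRestrict
      ⟨fun x y hxy => hι (congrArg Subtype.val hxy), ι.rangeRestrict_surjective⟩
  let M' : S →+* ι.range := M.restrict S ι.range (fun x hx => hx)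
  have hM' : Function.Injective M' := by
    intro x y hxy
    have := congrArg Subtype.val hxy
    exact Subtype.ext (hM this)
  let N0 : Fin n → Fin n → K := fun i j => ⟨N' i j, hN' i j⟩
  obtain ⟨⟨q, hq⟩, hq2⟩ := IsLocalization.exist_integer_multiples_of_finite
    (nonZeroDivisors ℤ) (fun p : (Fin n × Fin n) × (Fin D × Fin D) =>
      M (N0 p.1.1 p.1.2) p.2.1 p.2.2)
  have hmem : ∀ i j, (q : K) * N0 i j ∈ S := by
    intro i j
    choose z hz using fun r s => hq2 ((i, j), (r, s))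
    refine ⟨Matrix.of z, ?_⟩
    ext r s
    have h1 := hz r s
    simp only [map_mul, map_intCast]
    simp only [ι, RingHom.mapMatrix_apply, Matrix.map_apply, Matrix.of_apply]
    rw [← zsmul_eq_mul, Matrix.smul_apply]
    simpa using h1
  refine ⟨S, inferInstance, K.val.toRingHom.comp S.subtype, D,
    (e.symm : ι.range →+* Matrix (Fin D) (Fin D) ℤ).comp M', q,
    fun i j => ⟨(q : K) * N0 i j, hmem i j⟩, ?_, ?_, ?_⟩
  · intro x y hxy
    exact hM' (e.symm.injective hxy)
  · exact nonZeroDivisors.ne_zero hq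
  · intro i j
    simp [N0]


/-- product of powers of the linear forms with coefficients `a` -/
private noncomputable def auxW {k n : ℕ} {R : Type*} [CommRing R] (a : Fin n → Fin n → R)
    (J : Fin k × Fin n →₀ ℕ) : MvPolynomial (Fin k × Fin n) R :=
  ∏ p : Fin k × Fin n, (∑ i, C (a p.2 i) * X (p.1, i)) ^ (J p)

private theorem auxW_map {k n : ℕ} {R S : Type*} [CommRing R] [CommRing S] (f : R →+* S)
    (a : Fin n → Fin n → R) (J : Fin k × Fin n →₀ ℕ) :
    (auxW a J).map f = auxW (fun i j => f (a i j)) J := by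
  simp [auxW, map_prod, map_pow, map_sum]

private theorem auxW_smul {k n : ℕ} {R : Type*} [CommRing R] (q : R)
    (a : Fin n → Fin n → R) (J : Fin k × Fin n →₀ ℕ) :
    auxW (fun i j => q * a i j) J = C (q ^ (∑ p, J p)) * auxW a J := by
  simp only [auxW]
  rw [← Finset.prod_pow_eq_pow_sum, map_prod, ← Finset.prod_mul_distrib]
  refine Finset.prod_congr rfl fun p _ => ?_
  rw [C_pow, ← mul_pow, Finset.mul_sum]
  congr 1
  refine Finset.sum_congr rfl fun i _ => ?_
  rw [C_mul, mul_assoc]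

private theorem sum_MDeg {k n : ℕ} {d : Fin k → ℕ} {J : Fin k × Fin n →₀ ℕ} (hJ : MDeg d J) :
    ∑ p, J p = ∑ h, d h := by
  rw [Fintype.sum_prod_type]
  exact Finset.sum_congr rfl fun h _ => hJ h

private theorem auxW_MDeg {k n : ℕ} {R : Type*} [CommRing R]
    (a : Fin n → Fin n → R) {d : Fin k → ℕ} {J : Fin k × Fin n →₀ ℕ} (hJ : MDeg d J)
    {J' : Fin k × Fin n →₀ ℕ} (h : (auxW a J).coeff J' ≠ 0) : MDeg d J' := by
  classical
  let w : Fin k × Fin n → (Fin k → ℕ) := fun p => Pi.single p.1 1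
  have h1 : IsWeightedHomogeneous w (auxW a J) (∑ p : Fin k × Fin n, J p • (Pi.single p.1 1)) := by
    refine IsWeightedHomogeneous.prod _ _ _ fun p _ => ?_
    refine IsWeightedHomogeneous.pow ?_ _
    refine IsWeightedHomogeneous.sum _ _ _ fun i _ => ?_
    have := (isWeightedHomogeneous_C w (a p.2 i)).mul (isWeightedHomogeneous_X R w (p.1, i))
    simpa [w] using this
  have h2 := h1 h
  have key : ∀ (I : Fin k × Fin n →₀ ℕ) (x : Fin k),
      (∑ p : Fin k × Fin n, I p • (Pi.single p.1 1 : Fin k → ℕ)) x = ∑ i, I (x, i) := by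
    intro I x
    rw [Finset.sum_apply, Fintype.sum_prod_type]
    rw [Finset.sum_eq_single x]
    · simp
    · intro y _ hy
      refine Finset.sum_eq_zero fun i _ => ?_
      simp [hy.symm]
    · simp
  intro x
  have h3 := congrFun h2 x
  rw [key, hJ x] at h3
  rw [Finsupp.weight_apply, Finsupp.sum_fintype _ _ (by simp)] at h3
  rw [← h3, key]

private theorem auxW_wn {k n : ℕ} {R : Type*} [CommRing R] {ν : R → ℝ} (hν : IsSize ν)
    (h1 : ν 1 ≤ 1) (a : Fin n → Fin n → R) (B : ℝ) (hB : ∀ j, ∑ i, ν (a j i) ≤ B)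
    {d : Fin k → ℕ} {J : Fin k × Fin n →₀ ℕ} (hJ : MDeg d J) :
    wn ν (fun _ => 1) (auxW a J) ≤ B ^ (∑ h, d h) := by
  have hw : ∀ s : Fin k × Fin n, (0 : ℝ) ≤ (fun _ => 1 : Fin k × Fin n → ℝ) s := by
    intro s; simp
  rw [← sum_MDeg hJ, ← Finset.prod_pow_eq_pow_sum]
  refine wn_prod_le hν hw h1 _ _ (fun p => B ^ (J p)) fun p _ => ?_
  refine wn_pow_le hν hw _ ?_ h1 _
  refine (wn_sum_le hν hw _ _).trans (le_trans (Finset.sum_le_sum fun i _ => ?_) (hB p.2))
  refine (wn_mul_le hν hw _ _).trans ?_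
  rw [wn_C hν, wn_X hν]
  have : ν (a p.2 i) * (ν 1 * 1) ≤ ν (a p.2 i) * 1 := by
    refine mul_le_mul_of_nonneg_left ?_ (hν.nonneg _)
    linarith only [h1]
  simpa using this

private theorem auxW_coeff {k n : ℕ} {R : Type*} [CommRing R] {ν : R → ℝ} (hν : IsSize ν)
    (h1 : ν 1 ≤ 1) (a : Fin n → Fin n → R) (B : ℝ) (hB : ∀ j, ∑ i, ν (a j i) ≤ B)
    {d : Fin k → ℕ} {J : Fin k × Fin n →₀ ℕ} (hJ : MDeg d J) (J' : Fin k × Fin n →₀ ℕ) :
    ν ((auxW a J).coeff J') ≤ B ^ (∑ h, d h) := by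
  have h2 := coeff_le_wn hν (w := fun _ => 1) (fun _ => zero_le_one) (auxW a J) J'
  refine le_trans ?_ (auxW_wn hν h1 a B hB hJ)
  refine le_trans (le_of_eq ?_) h2
  simp [Finsupp.prod]

/-- The polynomial `P` in the coordinates `N`, where `W_{h,j} = ∑ i N' j i * N_{h,i}`. -/
noncomputable def inN {k n : ℕ} (N' : Matrix (Fin n) (Fin n) ℝ)
    (P : MvPolynomial (Fin k × Fin n) ℤ) : MvPolynomial (Fin k × Fin n) ℝ :=
  aeval (fun q : Fin k × Fin n => ∑ i, C (N' q.2 i) * X (q.1, i)) (P.map (Int.castRingHom ℝ))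

private theorem auxpoly_pow (E B R : ℝ) (s : ℕ) :
    E ^ s * ((E ^ s * B ^ s) * R ^ s) = (E ^ 2 * B * R) ^ s := by
  rw [mul_pow, mul_pow, ← pow_mul]
  ring

private theorem inN_sum {k n : ℕ} (N' : Matrix (Fin n) (Fin n) ℝ)
    (s : Finset (Fin k × Fin n →₀ ℕ)) (t : (Fin k × Fin n →₀ ℕ) → ℤ) :
    inN N' (∑ J ∈ s, monomial J (t J)) = ∑ J ∈ s, C (t J : ℝ) * auxW (fun i j => N' i j) J := by
  simp only [inN, map_sum, map_monomial, aeval_monomial]
  refine Finset.sum_congr rfl fun J _ => ?_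
  rw [Finsupp.prod_fintype _ _ (by simp)]
  simp [auxW, algebraMap_eq]


theorem exists_aux {n : ℕ} (hn : 1 ≤ n) (K : IntermediateField ℚ ℝ) [FiniteDimensional ℚ K]
    (N' : Matrix (Fin n) (Fin n) ℝ) (hN' : ∀ i j, N' i j ∈ K) (τ : ℝ) (hτ : 0 < τ) :
    ∃ k₀ : ℕ, ∃ C₁ : ℝ, 1 ≤ C₁ ∧ ∀ k, k₀ ≤ k → ∀ d : Fin k → ℕ, (∀ h, 1 ≤ d h) →
      ∃ P : MvPolynomial (Fin k × Fin n) ℤ, P ≠ 0 ∧
        (∀ J ∈ P.support, MDeg d J ∧ Bal d τ J) ∧
        (∀ J, |((P.coeff J : ℤ) : ℝ)| ≤ C₁ ^ (∑ h, d h)) ∧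
        (∀ J ∈ (inN N' P).support, MDeg d J ∧ Bal d τ J) ∧
        wn (fun x : ℝ => |x|) (fun _ => 1) (inN N' P) ≤ C₁ ^ (∑ h, d h) := by
  classical
  obtain ⟨O, _, f, D, Φ, q, a, hΦ, hq, hf⟩ := auxpoly_order K N' hN'
  obtain ⟨ν, hν, hν1, hνΦ⟩ := auxpoly_size Φ
  set B₀ : ℝ := 1 + ∑ j, ∑ i, ν (a j i) with hB₀
  set BR : ℝ := 1 + ∑ j, ∑ i, |N' j i| with hBR
  have hB₀1 : 1 ≤ B₀ := by
    have : 0 ≤ ∑ j, ∑ i, ν (a j i) :=
      Finset.sum_nonneg fun j _ => Finset.sum_nonneg fun i _ => hν.nonneg _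
    linarith only [this]
  have hBR1 : 1 ≤ BR := by
    have : 0 ≤ ∑ j, ∑ i, |N' j i| :=
      Finset.sum_nonneg fun j _ => Finset.sum_nonneg fun i _ => abs_nonneg _
    linarith only [this]
  have hB₀r : ∀ j, ∑ i, ν (a j i) ≤ B₀ := by
    intro j
    have h : ∑ i, ν (a j i) ≤ ∑ j, ∑ i, ν (a j i) :=
      Finset.single_le_sum (f := fun j => ∑ i, ν (a j i))
        (fun j _ => Finset.sum_nonneg fun i _ => hν.nonneg _) (Finset.mem_univ j)
    linarith only [h]
  have hBRr : ∀ j, ∑ i, |N' j i| ≤ BR := by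
    intro j
    have h : ∑ i, |N' j i| ≤ ∑ j, ∑ i, |N' j i| :=
      Finset.single_le_sum (f := fun j => ∑ i, |N' j i|)
        (fun j _ => Finset.sum_nonneg fun i _ => abs_nonneg _) (Finset.mem_univ j)
    linarith only [h]
  set E : ℝ := (2 : ℝ) ^ (n + 1) with hE
  have hE1 : 1 ≤ E := one_le_pow₀ (by norm_num)
  have hC1 : 1 ≤ E ^ 2 * B₀ * BR :=
    one_le_mul_of_one_le_of_one_le (one_le_mul_of_one_le_of_one_le (one_le_pow₀ hE1) hB₀1) hBR1
  refine ⟨⌈((2 * D ^ 2 + 2 : ℕ) : ℝ) * n / τ ^ 2⌉₊ + 1, E ^ 2 * B₀ * BR, hC1, ?_⟩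
  intro k hk d hd
  set s : ℕ := ∑ h, d h with hs
  have hk1 : 1 ≤ k := by omega
  have hkk : ((2 * D ^ 2 + 2 : ℕ) : ℝ) * n ≤ τ ^ 2 * k := by
    have h1 : ((2 * D ^ 2 + 2 : ℕ) : ℝ) * n / τ ^ 2 ≤ k := by
      refine (Nat.le_ceil _).trans ?_
      exact_mod_cast (by omega : ⌈((2 * D ^ 2 + 2 : ℕ) : ℝ) * n / τ ^ 2⌉₊ ≤ k)
    rw [div_le_iff₀ (by positivity)] at h1
    linarith only [h1]
  set bal := (Ex (n := n) d).filter (fun J => Bal d τ J) with hbal
  set unb := (Ex (n := n) d).filter (fun J => ¬ Bal d τ J) with hunb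
  have hcard : bal.card + unb.card = (Ex (n := n) d).card :=
    Finset.card_filter_add_card_filter_not _
  have hpos := card_Ex_pos hn d
  have hub : (2 * D ^ 2 + 2) * unb.card ≤ (Ex (n := n) d).card := by
    have h1 := card_unbalanced hn d hd τ hτ hk1
    have h2 : (unb.card : ℝ) * (((2 * D ^ 2 + 2 : ℕ) : ℝ) * n) ≤ n * (Ex (n := n) d).card := by
      refine le_trans ?_ h1
      refine le_trans (mul_le_mul_of_nonneg_left hkk (Nat.cast_nonneg _)) (le_of_eq ?_)
      congr!
    have h3 : (n : ℝ) * (((2 * D ^ 2 + 2 : ℕ) : ℝ) * unb.card) ≤ n * (Ex (n := n) d).card := by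
      linarith only [h2]
    have h4 := le_of_mul_le_mul_left h3 (by exact_mod_cast hn)
    exact_mod_cast h4
  have hbalpos : 0 < bal.card := by
    rcases Nat.eq_zero_or_pos bal.card with h0 | h0
    · exfalso
      have : unb.card = (Ex (n := n) d).card := by omega
      rw [this] at hub
      nlinarith only [sq_nonneg D, hpos, hub]
    · exact h0
  have hball : bal.card ≤ (Ex (n := n) d).card := by omega
  have h2ub : 2 * (unb.card * (D * D)) ≤ bal.card := by
    nlinarith only [hcard, hub]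
  have hcE : (bal.card : ℝ) ≤ E ^ s := by
    refine le_trans ?_ (card_Ex_le hn d hd)
    exact_mod_cast hball
  -- Siegel
  obtain ⟨t, ht0, ht1, ht2⟩ := auxpoly_siegel
    (α := {J // J ∈ unb} × (Fin D × Fin D)) (β := {J // J ∈ bal})
    (Matrix.of fun x J => Φ ((auxW a J.1).coeff x.1.1) x.2.1 x.2.2) (B₀ ^ s)
    (one_le_pow₀ hB₀1)
    (fun x J => by
      refine (hνΦ _ _ _).trans (auxW_coeff hν hν1 a B₀ hB₀r ?_ _)
      exact mem_Ex.1 (Finset.mem_filter.1 J.2).1)
    (by simpa using h2ub) (by simpa using hbalpos)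
  simp only [Fintype.card_coe] at ht2
  let T : (Fin k × Fin n →₀ ℕ) → ℤ := fun J => if h : J ∈ bal then t ⟨J, h⟩ else 0
  have hT0 : ∀ J, T J ≠ 0 → J ∈ bal := by
    intro J hJ
    by_contra h
    exact hJ (dif_neg h)
  have hTb : ∀ J, |(T J : ℝ)| ≤ E ^ s * B₀ ^ s := by
    intro J
    by_cases h : J ∈ bal
    · simp only [T, dif_pos h]
      refine (ht2 ⟨J, h⟩).trans ?_
      gcongr
    · simp only [T, dif_neg h]
      simp only [Int.cast_zero, abs_zero]
      positivity
  set P : MvPolynomial (Fin k × Fin n) ℤ := ∑ J ∈ bal, monomial J (T J) with hP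
  have hcoeff : ∀ J, P.coeff J = T J := by
    intro J
    rw [hP, coeff_sum]
    simp only [coeff_monomial]
    rw [Finset.sum_ite_eq']
    split_ifs with h
    · rfl
    · by_contra h'
      exact h (hT0 J (Ne.symm h'))
  have hinN : inN N' P = ∑ J ∈ bal, C (T J : ℝ) * auxW (fun i j => N' i j) J := inN_sum N' bal T
  have hmd : ∀ J ∈ bal, MDeg d J := fun J hJ => mem_Ex.1 (Finset.mem_filter.1 hJ).1
  refine ⟨P, ?_, ?_, ?_, ?_, ?_⟩
  · intro h
    apply ht0
    ext J
    have := hcoeff J.1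
    rw [h, coeff_zero] at this
    simp only [T, dif_pos J.2] at this
    exact this.symm
  · intro J hJ
    rw [mem_support_iff, hcoeff] at hJ
    have := hT0 J hJ
    exact ⟨hmd J this, (Finset.mem_filter.1 this).2⟩
  · intro J
    rw [hcoeff]
    refine (hTb J).trans ?_
    rw [← mul_pow]
    refine pow_le_pow_left₀ (by positivity) ?_ _
    calc E * B₀ = (E * B₀) * 1 := by ring
      _ ≤ (E ^ 2 * B₀) * BR := by
          refine mul_le_mul ?_ hBR1 zero_le_one (by positivity)
          refine mul_le_mul_of_nonneg_right ?_ (by linarith only [hB₀1])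
          nlinarith only [hE1]
      _ = E ^ 2 * B₀ * BR := by ring
  · intro J' hJ'
    rw [mem_support_iff, hinN, coeff_sum] at hJ'
    simp only [coeff_C_mul] at hJ'
    obtain ⟨J, hJ, hJ2⟩ := Finset.exists_ne_zero_of_sum_ne_zero hJ'
    have hJ3 : MDeg d J' := auxW_MDeg _ (hmd J hJ) (right_ne_zero_of_mul hJ2)
    refine ⟨hJ3, ?_⟩
    by_contra hb
    have hu : J' ∈ unb := Finset.mem_filter.2 ⟨mem_Ex.2 hJ3, hb⟩
    apply hJ'
    have hz : ∑ J ∈ bal, (T J : O) * (auxW a J).coeff J' = 0 := by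
      apply hΦ
      rw [map_zero]
      ext r u
      rw [map_sum, Matrix.sum_apply]
      have h1 := ht1 (⟨J', hu⟩, (r, u))
      simp only [Matrix.of_apply] at h1
      rw [Matrix.zero_apply, ← h1, ← Finset.sum_coe_sort bal]
      refine Finset.sum_congr rfl fun J _ => ?_
      rw [map_mul, map_intCast, ← zsmul_eq_mul, Matrix.smul_apply]
      simp only [T, dif_pos J.2, smul_eq_mul]
      ring
    have hz2 := congrArg f hz
    rw [map_zero, map_sum] at hz2
    have h2 : ∀ J ∈ bal, f ((T J : O) * (auxW a J).coeff J') =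
        (q : ℝ) ^ s * ((T J : ℝ) * coeff J' (auxW (fun i j => N' i j) J)) := by
      intro J hJ
      rw [map_mul, map_intCast, ← coeff_map, auxW_map]
      have : (fun i j => f (a i j)) = fun i j => (q : ℝ) * N' i j := by
        ext i j; exact hf i j
      have e : auxW (fun i j => (q : ℝ) * N' i j) J =
          C ((q : ℝ) ^ (∑ p, J p)) * auxW (fun i j => N' i j) J := auxW_smul _ _ _
      rw [this, e, coeff_C_mul, sum_MDeg (hmd J hJ)]
      ring
    rw [Finset.sum_congr rfl h2, ← Finset.mul_sum] at hz2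
    rcases mul_eq_zero.1 hz2 with h | h
    · exact absurd h (pow_ne_zero _ (by exact_mod_cast hq))
    · exact h
  · rw [hinN]
    have hw : ∀ s : Fin k × Fin n, (0 : ℝ) ≤ (fun _ => 1 : Fin k × Fin n → ℝ) s := by
      intro s; simp
    refine (wn_sum_le isSize_abs_real hw _ _).trans ?_
    have h3 : ∀ J ∈ bal, wn (fun x : ℝ => |x|) (fun _ => 1)
        (C (T J : ℝ) * auxW (fun i j => N' i j) J) ≤ (E ^ s * B₀ ^ s) * BR ^ s := by
      intro J hJ
      refine (wn_mul_le isSize_abs_real hw _ _).trans ?_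
      rw [wn_C isSize_abs_real]
      refine mul_le_mul (hTb J) ?_ (wn_nonneg isSize_abs_real hw _) (by positivity)
      exact auxW_wn isSize_abs_real (by simp) _ BR hBRr (hmd J hJ)
    refine (Finset.sum_le_sum h3).trans ?_
    rw [Finset.sum_const, nsmul_eq_mul]
    calc (bal.card : ℝ) * ((E ^ s * B₀ ^ s) * BR ^ s)
        ≤ E ^ s * ((E ^ s * B₀ ^ s) * BR ^ s) := by gcongr
      _ = (E ^ 2 * B₀ * BR) ^ s := auxpoly_pow _ _ _ _

end SB

end

section

/-! Size and divisibility of the coefficients of `P` at the generic point. -/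

open MvPolynomial

namespace SB

/-- weights of the variables -/
def vanish_w {k n : ℕ} (ρ : Fin k → ℝ) : (Fin k × Fin n) ⊕ Fin k → ℝ
  | Sum.inl _ => 1
  | Sum.inr h => ρ h

/-- the forms of the generic point -/
noncomputable def vanish_psi {k n : ℕ} (N : Matrix (Fin (n + 1)) (Fin (n + 1)) ℝ)
    (u : Fin k → Fin n → Fin (n + 1) → ℝ) (q : Fin k × Fin (n + 1)) :
    MvPolynomial ((Fin k × Fin n) ⊕ Fin k) ℝ :=
  ∑ l, C (N q.2 l) * gp u (q.1, l)

theorem vanish_psi_eq {k n : ℕ} (N : Matrix (Fin (n + 1)) (Fin (n + 1)) ℝ)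
    (u : Fin k → Fin n → Fin (n + 1) → ℝ) (q : Fin k × Fin (n + 1)) :
    vanish_psi N u q = (∑ j, monomial (Finsupp.single (Sum.inl (q.1, j)) 1)
      (∑ l, N q.2 l * u q.1 j l)) + monomial (Finsupp.single (Sum.inr q.1) 1) (N q.2 0) := by
  unfold vanish_psi gp
  simp_rw [mul_add, Finset.mul_sum, Finset.sum_add_distrib]
  congr 1
  · rw [Finset.sum_comm]
    refine Finset.sum_congr rfl fun j _ => ?_
    rw [map_sum]
    refine Finset.sum_congr rfl fun l _ => ?_
    rw [← mul_assoc, ← C_mul, ← C_mul_X_eq_monomial]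
  · rw [Finset.sum_eq_single 0]
    · simp [C_mul_X_eq_monomial]
    · intro l _ hl
      simp [hl]
    · simp

theorem vanish_prod_single {k n : ℕ} (ρ : Fin k → ℝ) (s : (Fin k × Fin n) ⊕ Fin k) :
    ((Finsupp.single s 1).prod fun t e => vanish_w ρ t ^ e) = vanish_w ρ s := by
  rw [Finsupp.prod_single_index (h := fun t e => vanish_w ρ t ^ e) (pow_zero _), pow_one]

theorem vanish_psi_wn {k n : ℕ} (N : Matrix (Fin (n + 1)) (Fin (n + 1)) ℝ)
    (u : Fin k → Fin n → Fin (n + 1) → ℝ) (B : Fin k → Fin (n + 1) → ℝ) (ρ : Fin k → ℝ)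
    (M : ℝ) (hρ : ∀ h, 0 < ρ h) (hρB : ∀ h i, ρ h ≤ B h i) (hM : ∀ i, |N i 0| ≤ M)
    (hu : ∀ h j i, |∑ l, N i l * u h j l| ≤ B h i) (q : Fin k × Fin (n + 1)) :
    wn (fun x : ℝ => |x|) (vanish_w ρ) (vanish_psi N u q) ≤ (n + M) * B q.1 q.2 := by
  have hw : ∀ s, 0 ≤ vanish_w (n := n) ρ s := by
    rintro (s | s)
    · exact zero_le_one
    · exact (hρ s).le
  rw [vanish_psi_eq]
  refine (wn_add_le isSize_abs_real hw _ _).trans ?_
  have h1 : wn (fun x : ℝ => |x|) (vanish_w (n := n) ρ)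
      (∑ j, monomial (Finsupp.single (Sum.inl (q.1, j)) 1)
      (∑ l, N q.2 l * u q.1 j l)) ≤ n * B q.1 q.2 := by
    refine (wn_sum_le isSize_abs_real hw _ _).trans ?_
    have e0 : (n : ℝ) * B q.1 q.2 = ∑ _j : Fin n, B q.1 q.2 := by simp
    rw [e0]
    refine Finset.sum_le_sum fun j _ => ?_
    rw [wn_monomial isSize_abs_real, vanish_prod_single]
    simpa [vanish_w] using hu q.1 j q.2
  have h2 : wn (fun x : ℝ => |x|) (vanish_w (n := n) ρ)
      (monomial (Finsupp.single (Sum.inr q.1) 1) (N q.2 0)) ≤ M * B q.1 q.2 := by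
    rw [wn_monomial isSize_abs_real, vanish_prod_single]
    exact mul_le_mul (hM _) (hρB _ _) (hρ _).le ((abs_nonneg _).trans (hM 0))
  linarith only [h1, h2]

theorem vanish_map_eq {k n : ℕ} (N N' : Matrix (Fin (n + 1)) (Fin (n + 1)) ℝ)
    (hN : N' * N = 1) (P : MvPolynomial (Fin k × Fin (n + 1)) ℤ)
    (u : Fin k → Fin n → Fin (n + 1) → ℤ) :
    (aeval (gp u) P).map (Int.castRingHom ℝ) =
      aeval (vanish_psi N (fun h j i => (u h j i : ℝ))) (inN N' P) := by
  unfold inN
  have h1 : ∀ q : Fin k × Fin (n + 1), map (Int.castRingHom ℝ) (gp u q) =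
      aeval (vanish_psi N (fun h j i => (u h j i : ℝ)))
        (∑ i, C (N' q.2 i) * X (q.1, i) : MvPolynomial (Fin k × Fin (n + 1)) ℝ) := by
    intro q
    have h2 : map (Int.castRingHom ℝ) (gp u q) = gp (fun h j i => (u h j i : ℝ)) q := by
      unfold gp
      rw [map_add, map_sum]
      congr 1
      · refine Finset.sum_congr rfl fun j _ => ?_
        simp
      · split_ifs <;> simp
    rw [h2, map_sum]
    simp_rw [map_mul, aeval_X]
    have h3 : ∀ i, (aeval (vanish_psi N (fun h j i => (u h j i : ℝ)))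
        (C (N' q.2 i) : MvPolynomial (Fin k × Fin (n + 1)) ℝ) :
        MvPolynomial ((Fin k × Fin n) ⊕ Fin k) ℝ) = C (N' q.2 i) := by
      intro i
      rw [aeval_C]
      rfl
    simp_rw [h3]
    unfold vanish_psi
    simp_rw [Finset.mul_sum]
    rw [Finset.sum_comm]
    simp_rw [← mul_assoc, ← C_mul, ← Finset.sum_mul, ← map_sum]
    have h4 : ∀ l, ∑ i, N' q.2 i * N i l = (1 : Matrix (Fin (n + 1)) (Fin (n + 1)) ℝ) q.2 l := by
      intro l
      rw [← hN, Matrix.mul_apply]
    simp_rw [h4]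
    rw [Finset.sum_eq_single q.2]
    · simp
    · intro l _ hl
      rw [Matrix.one_apply_ne hl.symm]
      simp
    · simp
  induction P using MvPolynomial.induction_on with
  | C a => simp
  | add p q hp hq => simp only [map_add, hp, hq]
  | mul_X p q hp =>
    simp only [map_mul, hp, aeval_X, map_X]
    rw [h1 q]

/-- archimedean bound -/
theorem arch_bound {k n : ℕ} (d : Fin k → ℕ) (N N' : Matrix (Fin (n + 1)) (Fin (n + 1)) ℝ)
    (hN : N' * N = 1) (P : MvPolynomial (Fin k × Fin (n + 1)) ℤ)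
    (u : Fin k → Fin n → Fin (n + 1) → ℤ) (B : Fin k → Fin (n + 1) → ℝ) (ρ : Fin k → ℝ)
    (M T : ℝ) (hρ : ∀ h, 0 < ρ h) (hρB : ∀ h i, ρ h ≤ B h i) (hM : ∀ i, |N i 0| ≤ M) 
    (hu : ∀ h j i, |∑ l, N i l * (u h j l : ℝ)| ≤ B h i) (hT : 0 ≤ T)
    (hP : ∀ J ∈ (inN N' P).support, MDeg d J ∧ (∏ q, B q.1 q.2 ^ J q) ≤ T)
    (e : ((Fin k × Fin n) ⊕ Fin k) →₀ ℕ) :
    |(((aeval (gp u) P).coeff e : ℤ) : ℝ)| * ∏ h, ρ h ^ (e (Sum.inr h)) ≤
      wn (fun x : ℝ => |x|) (fun _ => 1) (inN N' P) * (n + M) ^ (∑ h, d h) * T := by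
  classical
  have hw : ∀ s, 0 ≤ vanish_w (n := n) ρ s := by
    rintro (s | s)
    · exact zero_le_one
    · exact (hρ s).le
  have hM0 : 0 ≤ M := (abs_nonneg _).trans (hM 0)
  have hB : ∀ h i, 0 < B h i := fun h i => (hρ h).trans_le (hρB h i)
  have e1 : (((aeval (gp u) P).coeff e : ℤ) : ℝ) =
      ((aeval (vanish_psi N (fun h j i => (u h j i : ℝ))) (inN N' P)).coeff e) := by
    rw [← vanish_map_eq N N' hN P u, coeff_map]
    simp
  have e2 : e.prod (fun s m => vanish_w ρ s ^ m) = ∏ h, ρ h ^ (e (Sum.inr h)) := by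
    rw [Finsupp.prod_fintype _ _ (fun _ => pow_zero _), Fintype.prod_sum_type]
    simp [vanish_w]
  rw [e1, ← e2]
  refine (coeff_le_wn isSize_abs_real hw _ e).trans ?_
  rw [aeval_def, eval₂_eq']
  refine (wn_sum_le isSize_abs_real hw _ _).trans ?_
  unfold wn
  rw [Finset.sum_mul, Finset.sum_mul]
  refine Finset.sum_le_sum fun J hJ => ?_
  obtain ⟨hJ1, hJ2⟩ := hP J hJ
  change wn (fun x : ℝ => |x|) (vanish_w ρ) _ ≤ _
  refine (wn_mul_le isSize_abs_real hw _ _).trans ?_
  have e3 : wn (fun x : ℝ => |x|) (vanish_w (n := n) ρ)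
      ((algebraMap ℝ (MvPolynomial ((Fin k × Fin n) ⊕ Fin k) ℝ)) (coeff J (inN N' P))) =
      |coeff J (inN N' P)| := by
    rw [algebraMap_eq, wn_C isSize_abs_real]
  have e4 : J.prod (fun _ m => (1:ℝ) ^ m) = 1 := by simp
  rw [e3, e4, mul_one, mul_assoc]
  refine mul_le_mul_of_nonneg_left ?_ (abs_nonneg _)
  have h1 : |(1:ℝ)| ≤ 1 := by simp
  refine (wn_prod_le isSize_abs_real hw h1 Finset.univ _
    (fun q => ((n + M) * B q.1 q.2) ^ J q) ?_).trans ?_
  · intro q _
    exact wn_pow_le isSize_abs_real hw _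
      (vanish_psi_wn N _ B ρ M hρ hρB hM hu q) h1 _
  · simp_rw [mul_pow]
    rw [Finset.prod_mul_distrib, Finset.prod_pow_eq_pow_sum]
    have e5 : ∑ q, J q = ∑ h, d h := by
      rw [Fintype.sum_prod_type]
      exact Finset.sum_congr rfl fun h _ => hJ1 h
    rw [e5]
    exact mul_le_mul_of_nonneg_left hJ2 (by positivity)

theorem vanish_coeff_scale {σ : Type*} [Fintype σ] (c : σ → ℤ) (F : MvPolynomial σ ℤ)
    (e : σ →₀ ℕ) :
    (aeval (fun s => C (c s) * X s : σ → MvPolynomial σ ℤ) F).coeff e =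
      (∏ s, c s ^ e s) * F.coeff e := by
  classical
  induction F using MvPolynomial.induction_on' with
  | monomial J a =>
    rw [aeval_monomial, Finsupp.prod_fintype _ _ (fun _ => pow_zero _)]
    simp_rw [mul_pow]
    rw [Finset.prod_mul_distrib]
    simp_rw [← C_pow]
    rw [← map_prod, ← mul_assoc, algebraMap_eq, ← C_mul, coeff_C_mul, coeff_monomial]
    have : (∏ s, (X s : MvPolynomial σ ℤ) ^ J s) = monomial J 1 := by
      rw [monomial_eq, Finsupp.prod_fintype _ _ (fun _ => pow_zero _)]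
      simp
    rw [this, coeff_monomial]
    split_ifs with h
    · subst h
      ring
    · simp
  | add p q hp hq =>
    rw [map_add, coeff_add, coeff_add, hp, hq]
    ring

/-- p-adic divisibility -/
theorem padic_bound {k n : ℕ} (p : ℕ) (P : MvPolynomial (Fin k × Fin (n + 1)) ℤ)
    (u : Fin k → Fin n → Fin (n + 1) → ℤ) (a : Fin k → Fin (n + 1) → ℕ)
    (hu : ∀ h j i, ((p : ℤ) ^ a h i) ∣ u h j i) (A : ℕ)
    (hA : ∀ J ∈ P.support, A ≤ ∑ q, a q.1 q.2 * J q)
    (e : ((Fin k × Fin n) ⊕ Fin k) →₀ ℕ) :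
    ((p : ℤ) ^ A) ∣ (p : ℤ) ^ (∑ h, a h 0 * e (Sum.inr h)) * (aeval (gp u) P).coeff e := by
  classical
  -- the scaling of the variables
  set c : (Fin k × Fin n) ⊕ Fin k → ℤ := Sum.elim (fun _ => 1) (fun h => (p : ℤ) ^ a h 0) with hc
  have h1 := vanish_coeff_scale c (aeval (gp u) P) e
  have h2 : ∏ s, c s ^ e s = (p : ℤ) ^ (∑ h, a h 0 * e (Sum.inr h)) := by
    rw [Fintype.prod_sum_type]
    simp [hc, ← pow_mul, Finset.prod_pow_eq_pow_sum]
  rw [← h2, ← h1]
  -- the generic point is divisible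
  have h3 : ∀ q : Fin k × Fin (n + 1), ∃ g : MvPolynomial ((Fin k × Fin n) ⊕ Fin k) ℤ,
      aeval (fun s => C (c s) * X s : _ → MvPolynomial ((Fin k × Fin n) ⊕ Fin k) ℤ) (gp u q) =
        C ((p : ℤ) ^ a q.1 q.2) * g := by
    intro q
    choose u' hu' using hu
    refine ⟨∑ j, C (u' q.1 j q.2) * X (Sum.inl (q.1, j)) +
      if q.2 = 0 then X (Sum.inr q.1) else 0, ?_⟩
    unfold gp
    rw [map_add, map_sum, mul_add, Finset.mul_sum]
    congr 1
    · refine Finset.sum_congr rfl fun j _ => ?_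
      rw [map_mul, aeval_X, aeval_C, algebraMap_eq, hu' q.1 j q.2, C_mul]
      simp only [hc, Sum.elim_inl, C_1, one_mul]
      ring
    · by_cases hq : q.2 = 0
      · simp [hq, hc]
      · simp [hq]
  choose g hg using h3
  have h4 : aeval (fun s => C (c s) * X s : _ → MvPolynomial ((Fin k × Fin n) ⊕ Fin k) ℤ)
      (aeval (gp u) P) = aeval (fun q => C ((p : ℤ) ^ a q.1 q.2) * g q) P := by
    rw [← AlgHom.comp_apply]
    congr 1
    refine MvPolynomial.algHom_ext fun q => ?_
    rw [AlgHom.comp_apply, aeval_X, aeval_X, hg q]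
  rw [h4, aeval_def, eval₂_eq', coeff_sum]
  refine Finset.dvd_sum fun J hJ => ?_
  rw [algebraMap_eq, coeff_C_mul]
  refine Dvd.dvd.mul_left ?_ _
  simp_rw [mul_pow]
  rw [Finset.prod_mul_distrib]
  simp_rw [← C_pow]
  rw [← map_prod, coeff_C_mul]
  refine Dvd.dvd.mul_right ?_ _
  simp_rw [← pow_mul]
  rw [Finset.prod_pow_eq_pow_sum]
  exact pow_dvd_pow _ (hA J hJ)

/-- a nonzero integer is at least the product of its prime power parts -/
theorem sum_padicVal_le (S : Finset ℕ) (hS : ∀ p ∈ S, p.Prime) (c : ℤ) (hc : c ≠ 0) :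
    ∑ p ∈ S, (padicValInt p c : ℝ) * Real.log p ≤ Real.log |(c : ℝ)| := by
  have h1 : ∏ p ∈ S, ((p : ℤ) ^ padicValInt p c) ∣ c := by
    refine Finset.prod_dvd_of_coprime ?_ ?_
    · intro p hp q hq hpq
      refine IsCoprime.pow ?_
      rw [Nat.isCoprime_iff_coprime]
      exact (Nat.coprime_primes (hS p hp) (hS q hq)).2 hpq
    · intro p hp
      have : Fact p.Prime := ⟨hS p hp⟩
      exact (padicValInt_dvd_iff _ _).2 (Or.inr le_rfl)
  have h2 : ((∏ p ∈ S, ((p : ℤ) ^ padicValInt p c) : ℤ) : ℝ) ≤ |(c : ℝ)| := by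
    have h3 : ∏ p ∈ S, ((p : ℤ) ^ padicValInt p c) ∣ |c| := (dvd_abs _ _).2 h1
    have := Int.le_of_dvd (abs_pos.2 hc) h3
    exact_mod_cast this
  have h4 : ∑ p ∈ S, (padicValInt p c : ℝ) * Real.log p =
      Real.log ((∏ p ∈ S, ((p : ℤ) ^ padicValInt p c) : ℤ) : ℝ) := by
    push_cast
    rw [Real.log_prod]
    · refine Finset.sum_congr rfl fun p _ => ?_
      rw [Real.log_pow]
    · intro p hp
      have := (hS p hp).pos
      positivity
  rw [h4]
  refine Real.log_le_log ?_ h2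
  push_cast
  refine Finset.prod_pos fun p hp => ?_
  have := (hS p hp).pos
  positivity

end SB

end
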