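import Pool.Agent.Lib.MP_d0d59f_nt.PZ.K017
import Pool.Agent.Lib.MP_d0d59f_nt.PZ.K020
import Pool.Agent.Lib.MP_d0d59f_nt.PZ.K030

section

/-! Auxiliary lemmas for the hyperplane lemma: choice of parameters. -/

open MvPolynomial

namespace SB

theorem main_pigeon {ι : Type*} [Fintype ι] (f : ℕ → ι → ℝ) (C τ : ℝ) (hτ : 0 < τ) (T : Set ℕ)
    (hT : T.Infinite) (hf : ∀ m ∈ T, ∀ i, |f m i| ≤ C) :
    ∃ T' ⊆ T, T'.Infinite ∧ ∀ m ∈ T', ∀ m' ∈ T', ∀ i, |f m i - f m' i| ≤ τ := by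
  classical
  obtain ⟨Z, hZ⟩ : ∃ Z : ℤ, Z = ⌈C / τ⌉ + 1 := ⟨_, rfl⟩
  have key : ∀ m : T, ∀ i, ⌊f m i / τ⌋ ∈ Finset.Icc (-Z) Z := by
    intro m i
    have h := abs_le.1 (hf m m.2 i)
    have h1 : -(C / τ) ≤ f m i / τ := by
      rw [← neg_div]
      exact div_le_div_of_nonneg_right h.1 hτ.le
    have h2 : f m i / τ ≤ C / τ := div_le_div_of_nonneg_right h.2 hτ.le
    have h3 : C / τ ≤ ⌈C / τ⌉ := Int.le_ceil _
    rw [Finset.mem_Icc]
    constructor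
    · rw [Int.le_floor]
      rw [hZ]
      push_cast
      linarith
    · have h4 : ⌊f m i / τ⌋ ≤ ⌈C / τ⌉ := by
        have h5 : (⌊f m i / τ⌋ : ℝ) ≤ f m i / τ := Int.floor_le _
        have h6 : (⌊f m i / τ⌋ : ℝ) ≤ (⌈C / τ⌉ : ℤ) := by linarith
        exact_mod_cast h6
      rw [hZ]
      linarith
  have : Infinite T := hT.to_subtype
  obtain ⟨y, hy⟩ := Finite.exists_infinite_fiber
    (fun m : T => fun i : ι => (⟨⌊f m i / τ⌋, key m i⟩ : Finset.Icc (-Z) Z))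
  refine ⟨Subtype.val '' ((fun m : T => fun i : ι =>
    (⟨⌊f m i / τ⌋, key m i⟩ : Finset.Icc (-Z) Z)) ⁻¹' {y}), ?_, ?_, ?_⟩
  · rintro _ ⟨m, -, rfl⟩
    exact m.2
  · exact (Set.infinite_coe_iff.1 hy).image Subtype.val_injective.injOn
  · rintro _ ⟨m, hm, rfl⟩ _ ⟨m', hm', rfl⟩ i
    have h1 : (⌊f m i / τ⌋ : ℤ) = ⌊f m' i / τ⌋ := by
      have e1 := congrFun (Set.mem_singleton_iff.1 hm) i
      have e2 := congrFun (Set.mem_singleton_iff.1 hm') i
      have e3 := e1.trans e2.symm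
      exact congrArg Subtype.val e3
    have h2 := Int.floor_le (f m i / τ)
    have h3 := Int.lt_floor_add_one (f m i / τ)
    have h4 := Int.floor_le (f m' i / τ)
    have h5 := Int.lt_floor_add_one (f m' i / τ)
    rw [h1] at h2 h3
    have h6 : |f m i / τ - f m' i / τ| ≤ 1 := by
      rw [abs_le]
      constructor <;> linarith
    have h7 : f m i - f m' i = τ * (f m i / τ - f m' i / τ) := by
      field_simp
    rw [h7, abs_mul, abs_of_pos hτ]
    calc τ * |f m i / τ - f m' i / τ| ≤ τ * 1 := by gcongr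
      _ = τ := mul_one _

theorem main_select (T : Set ℕ) (hT : T.Infinite) (R : ℝ) (m₀ : ℕ) (k : ℕ) :
    ∃ m : Fin k → ℕ, (∀ h, m h ∈ T ∧ m₀ ≤ m h) ∧ ∀ i j, i < j → R * m j ≤ m i := by
  induction k with
  | zero => exact ⟨fun h => h.elim0, fun h => h.elim0, fun i => i.elim0⟩
  | succ k ih =>
    obtain ⟨m, hm1, hm2⟩ := ih
    obtain ⟨b, hb⟩ : ∃ b : ℕ, ∀ j, R * m j ≤ b := by
      refine ⟨∑ j, ⌈|R * m j|⌉₊, fun j => ?_⟩
      calc R * m j ≤ |R * m j| := le_abs_self _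
        _ ≤ (⌈|R * m j|⌉₊ : ℝ) := Nat.le_ceil _
        _ ≤ ((∑ j, ⌈|R * m j|⌉₊ : ℕ) : ℝ) := by
            exact_mod_cast Finset.single_le_sum (f := fun j => ⌈|R * m j|⌉₊)
              (fun _ _ => Nat.zero_le _) (Finset.mem_univ j)
    obtain ⟨x, hx, hx2⟩ := hT.exists_gt (max m₀ b)
    refine ⟨Fin.cons x m, ?_, ?_⟩
    · intro h
      refine Fin.cases ?_ (fun h => ?_) h
      · simp only [Fin.cons_zero]
        exact ⟨hx, (le_max_left _ _).trans hx2.le⟩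
      · simp only [Fin.cons_succ]
        exact hm1 h
    · intro i j
      refine Fin.cases ?_ (fun i => ?_) i
      · refine Fin.cases ?_ (fun j => ?_) j
        · intro h; exact absurd h (lt_irrefl _)
        · intro _
          simp only [Fin.cons_zero, Fin.cons_succ]
          have h1 : (b : ℝ) ≤ x := by exact_mod_cast (le_max_right m₀ b).trans hx2.le
          exact (hb j).trans h1
      · refine Fin.cases ?_ (fun j => ?_) j
        · intro h; exact absurd h (Fin.not_lt_zero _)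
        · intro h
          simp only [Fin.cons_succ]
          exact hm2 i j (Fin.succ_lt_succ_iff.1 h)

/-- the basic estimate for balanced exponents -/
theorem main_est {k n : ℕ} (hn : 1 ≤ n) (d : Fin k → ℕ) (hd : ∀ h, 1 ≤ d h) (τ D C : ℝ) (hτ : 0 < τ)
    (hτ1 : τ ≤ 1) (hD : 0 < D) (hC : 0 ≤ C) (m : Fin k → ℕ)
    (hm1 : ∀ h, D ≤ (m h : ℝ) * d h) (hm2 : ∀ h, (m h : ℝ) * d h ≤ (1 + τ) * D)
    (b : Fin k → Fin n → ℝ) (b₀ : Fin n → ℝ) (hb : ∀ h i, |b h i - b₀ i| ≤ τ)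
    (hb₀ : ∀ i, |b₀ i| ≤ C) (J : Fin k × Fin n →₀ ℕ) (hJ : MDeg d J) (hJ2 : Bal d τ J) :
    |∑ h, ∑ i, b h i * m h * J (h, i) - D * (k / n) * ∑ i, b₀ i| ≤ (2 + C + n * C) * τ * D * k := by
  have hd' : ∀ h, (0 : ℝ) < d h := fun h => by exact_mod_cast hd h
  set x : Fin k → Fin n → ℝ := fun h i => (J (h, i) : ℝ) / d h with hx
  have hx0 : ∀ h i, 0 ≤ x h i := fun h i => by positivity
  have hx1 : ∀ h, ∑ i, x h i = 1 := by
    intro h
    rw [hx, ← Finset.sum_div]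
    have h1 : (∑ i, (J (h, i) : ℝ)) = d h := by exact_mod_cast hJ h
    rw [h1]
    exact div_self (hd' h).ne'
  have e1 : ∑ h, ∑ i, b h i * m h * J (h, i) - D * (k / n) * ∑ i, b₀ i =
      ∑ h, ∑ i, (b h i * (m h * d h) - b₀ i * D) * x h i +
        D * ∑ i, b₀ i * (∑ h, x h i - k / n) := by
    have e2 : ∀ h i, b h i * m h * J (h, i) = b h i * (m h * d h) * x h i := by
      intro h i
      have := (hd' h).ne'
      simp only [hx]
      field_simp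
    simp only [e2, sub_mul, Finset.sum_sub_distrib, mul_sub]
    have e3 : ∑ h, ∑ i, b₀ i * D * x h i = D * ∑ i, b₀ i * ∑ h, x h i := by
      rw [Finset.sum_comm, Finset.mul_sum]
      refine Finset.sum_congr rfl fun i _ => ?_
      rw [Finset.mul_sum, Finset.mul_sum]
      refine Finset.sum_congr rfl fun h _ => ?_
      ring
    have e4 : D * (k / n) * ∑ i, b₀ i = D * ∑ i, b₀ i * (k / n) := by
      rw [← Finset.sum_mul]
      ring
    rw [e3, e4]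
    ring
  rw [e1]
  have b1 : ∀ h i, |(b h i * (m h * d h) - b₀ i * D) * x h i| ≤ (2 + C) * τ * D * x h i := by
    intro h i
    rw [abs_mul, abs_of_nonneg (hx0 h i)]
    gcongr
    have e5 : b h i * (m h * d h) - b₀ i * D =
        (b h i - b₀ i) * (m h * d h) + b₀ i * (m h * d h - D) := by ring
    rw [e5]
    have f1 : |(b h i - b₀ i) * (m h * d h)| ≤ τ * (2 * D) := by
      rw [abs_mul]
      have : |((m h : ℝ) * d h)| ≤ 2 * D := by
        rw [abs_of_nonneg (hD.le.trans (hm1 h))]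
        calc (m h : ℝ) * d h ≤ (1 + τ) * D := hm2 h
          _ ≤ 2 * D := by nlinarith
      exact mul_le_mul (hb h i) this (abs_nonneg _) hτ.le
    have f2 : |b₀ i * (m h * d h - D)| ≤ C * (τ * D) := by
      rw [abs_mul]
      have : |((m h : ℝ) * d h - D)| ≤ τ * D := by
        rw [abs_of_nonneg (by linarith [hm1 h])]
        linarith [hm2 h]
      exact mul_le_mul (hb₀ i) this (abs_nonneg _) hC
    calc |(b h i - b₀ i) * (m h * d h) + b₀ i * (m h * d h - D)|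
        ≤ |(b h i - b₀ i) * (m h * d h)| + |b₀ i * (m h * d h - D)| := abs_add_le _ _
      _ ≤ τ * (2 * D) + C * (τ * D) := add_le_add f1 f2
      _ = (2 + C) * τ * D := by ring
  have b2 : |∑ h, ∑ i, (b h i * (m h * d h) - b₀ i * D) * x h i| ≤ (2 + C) * τ * D * k := by
    calc |∑ h, ∑ i, (b h i * (m h * d h) - b₀ i * D) * x h i|
        ≤ ∑ h, ∑ i, |(b h i * (m h * d h) - b₀ i * D) * x h i| := by
          refine (Finset.abs_sum_le_sum_abs _ _).trans (Finset.sum_le_sum fun h _ => ?_)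
          exact Finset.abs_sum_le_sum_abs _ _
      _ ≤ ∑ h : Fin k, ∑ i, (2 + C) * τ * D * x h i :=
          Finset.sum_le_sum fun h _ => Finset.sum_le_sum fun i _ => b1 h i
      _ = (2 + C) * τ * D * k := by
          simp only [← Finset.mul_sum, hx1]
          simp
  have b3 : |D * ∑ i, b₀ i * (∑ h, x h i - k / n)| ≤ D * (n * (C * (τ * k))) := by
    rw [abs_mul, abs_of_pos hD]
    gcongr
    calc |∑ i, b₀ i * (∑ h, x h i - k / n)| ≤ ∑ i, |b₀ i * (∑ h, x h i - k / n)| :=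
          Finset.abs_sum_le_sum_abs _ _
      _ ≤ ∑ i : Fin n, C * (τ * k) := by
          refine Finset.sum_le_sum fun i _ => ?_
          rw [abs_mul]
          exact mul_le_mul (hb₀ i) (hJ2 i) (abs_nonneg _) hC
      _ = n * (C * (τ * k)) := by simp
  calc |∑ h, ∑ i, (b h i * (m h * d h) - b₀ i * D) * x h i +
        D * ∑ i, b₀ i * (∑ h, x h i - k / n)|
      ≤ |∑ h, ∑ i, (b h i * (m h * d h) - b₀ i * D) * x h i| +
        |D * ∑ i, b₀ i * (∑ h, x h i - k / n)| := abs_add_le _ _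
    _ ≤ (2 + C) * τ * D * k + D * (n * (C * (τ * k))) := add_le_add b2 b3
    _ = (2 + C + n * C) * τ * D * k := by ring

end SB

end

section

/-! The auxiliary polynomial vanishes to high order along the hyperplanes. -/

open MvPolynomial

namespace SB

theorem main_zpart {α : Type*} {k : ℕ} (e : (α ⊕ Fin k) →₀ ℕ) (h : Fin k) :
    zpart e h = e (Sum.inr h) := rfl

theorem main_zsum {α : Type*} {k : ℕ} (d : Fin k → ℕ) (hd : ∀ h, 1 ≤ d h) (τ D : ℝ)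
    (hτ1 : τ ≤ 1) (hD : 0 < D) (m : Fin k → ℕ)
    (hm2 : ∀ h, (m h : ℝ) * d h ≤ (1 + τ) * D) (e : (α ⊕ Fin k) →₀ ℕ) :
    ∑ h, (m h : ℝ) * e (Sum.inr h) ≤ 2 * D * wt d (zpart e) := by
  unfold wt
  rw [Finset.mul_sum]
  refine Finset.sum_le_sum fun h _ => ?_
  have hd' : (0 : ℝ) < d h := by exact_mod_cast hd h
  rw [main_zpart]
  have e1 : (m h : ℝ) * e (Sum.inr h) = (m h * d h) * ((e (Sum.inr h) : ℝ) / d h) := by
    field_simp
  rw [e1]
  have h0 : (0 : ℝ) ≤ (e (Sum.inr h) : ℝ) / d h := by positivity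
  have h1 : (m h : ℝ) * d h ≤ 2 * D := (hm2 h).trans (by nlinarith only [hτ1, hD])
  exact mul_le_mul_of_nonneg_right h1 h0

theorem main_vanish {k n : ℕ} (d : Fin k → ℕ) (hd : ∀ h, 1 ≤ d h)
    (N N' : Matrix (Fin (n + 1)) (Fin (n + 1)) ℝ) (hN : N' * N = 1) (S : Finset ℕ)
    (hS : ∀ p ∈ S, p.Prime) (C ε τ D M C₁ : ℝ) (hC : 0 ≤ C) (hτ : 0 < τ) (hτ1 : τ ≤ 1)
    (hD : 0 < D) (hM : ∀ i, |N i 0| ≤ M) (hM1 : 1 ≤ M) (hC₁ : 1 ≤ C₁)
    (m : Fin k → ℕ) (hm0 : ∀ h, 0 < m h) (hm1 : ∀ h, D ≤ (m h : ℝ) * d h)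
    (hm2 : ∀ h, (m h : ℝ) * d h ≤ (1 + τ) * D)
    (β : Fin k → Fin (n + 1) → ℝ) (β₀ : Fin (n + 1) → ℝ) (hβ : ∀ h i, |β h i - β₀ i| ≤ τ)
    (hβ₀ : ∀ i, |β₀ i| ≤ C) (hβC : ∀ h i, |β h i| ≤ C)
    (a : Fin k → ℕ → Fin (n + 1) → ℕ) (lam₀ : ℕ → Fin (n + 1) → ℝ)
    (hlam : ∀ p ∈ S, ∀ h i, |(a h p i : ℝ) * Real.log p / m h - lam₀ p i| ≤ τ)
    (hlam₀ : ∀ p ∈ S, ∀ i, |lam₀ p i| ≤ C)
    (hlamC : ∀ p ∈ S, ∀ h i, |(a h p i : ℝ) * Real.log p / m h| ≤ C)
    (hsum : ∑ i, β₀ i + ε ≤ ∑ p ∈ S, ∑ i, lam₀ p i)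
    (u : Fin k → Fin n → Fin (n + 1) → ℤ)
    (hu : ∀ h j i, |∑ l, N i l * (u h j l : ℝ)| ≤ Real.exp (β h i * m h))
    (hdiv : ∀ p ∈ S, ∀ h j i, ((p : ℤ) ^ a h p i) ∣ u h j i)
    (P : MvPolynomial (Fin k × Fin (n + 1)) ℤ) (hP0 : P ≠ 0)
    (hP1 : ∀ J ∈ P.support, MDeg d J ∧ Bal d τ J)
    (hP3 : ∀ J ∈ (inN N' P).support, MDeg d J ∧ Bal d τ J)
    (hP4 : wn (fun x : ℝ => |x|) (fun _ => 1) (inN N' P) ≤ C₁ ^ (∑ h, d h))
    (hfin : (∑ h, d h : ℕ) * Real.log (C₁ * (n + M)) +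
      (S.card + 1) * ((2 + C + ((n + 1 : ℕ) : ℝ) * C) + 2 * C) * τ * D * k <
        D * (k / ((n + 1 : ℕ) : ℝ)) * ε)
    (e : ((Fin k × Fin n) ⊕ Fin k) →₀ ℕ) (he : wt d (zpart e) < τ * k) :
    (aeval (gp u) P).coeff e = 0 := by
  classical
  by_contra hc
  set c : ℤ := (aeval (gp u) P).coeff e with hcdef
  obtain ⟨κ, hκ⟩ : ∃ κ : ℝ, κ = (2 + C + ((n + 1 : ℕ) : ℝ) * C) * τ * D * k := ⟨_, rfl⟩
  obtain ⟨Dk, hDk⟩ : ∃ Dk : ℝ, Dk = D * (k / ((n + 1 : ℕ) : ℝ)) := ⟨_, rfl⟩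
  obtain ⟨s, hs⟩ : ∃ s : ℝ, s = ∑ h, (m h : ℝ) * e (Sum.inr h) := ⟨_, rfl⟩
  have hs1 : s ≤ 2 * τ * D * k := by
    rw [hs]
    refine (main_zsum d hd τ D hτ1 hD m hm2 e).trans ?_
    nlinarith only [mul_pos hD hτ, hD, he]
  have hs0 : 0 ≤ s := by rw [hs]; positivity
  -- archimedean part
  have harch : Real.log |(c : ℝ)| ≤
      (∑ h, d h : ℕ) * Real.log (C₁ * (n + M)) + (Dk * ∑ i, β₀ i + κ) + C * s := by
    have h1 := arch_bound d N N' hN P u (fun h i => Real.exp (β h i * m h))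
      (fun h => Real.exp (-(C * m h))) M (Real.exp (Dk * ∑ i, β₀ i + κ))
      (fun h => Real.exp_pos _) (fun h i => by
        apply Real.exp_le_exp.2
        have h2 := (abs_le.1 (hβC h i)).1
        have h3 : (0 : ℝ) ≤ m h := Nat.cast_nonneg _
        nlinarith only [h2]) hM hu (Real.exp_pos _).le (fun J hJ => by
        refine ⟨(hP3 J hJ).1, ?_⟩
        have h2 := main_est (by omega) d hd τ D C hτ hτ1 hD hC m hm1 hm2 β β₀ hβ hβ₀ J
          (hP3 J hJ).1 (hP3 J hJ).2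
        rw [← hκ, ← hDk] at h2
        have h3 : ∏ q : Fin k × Fin (n + 1), Real.exp (β q.1 q.2 * m q.1) ^ J q =
            Real.exp (∑ h, ∑ i, β h i * m h * J (h, i)) := by
          rw [← Fintype.sum_prod_type' (f := fun h i => β h i * m h * (J (h, i) : ℝ)), Real.exp_sum]
          refine Finset.prod_congr rfl fun q _ => ?_
          rw [← Real.exp_nat_mul]
          congr 1
          ring
        rw [h3]
        apply Real.exp_le_exp.2
        have := (abs_le.1 h2).2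
        linarith only [this]) e
    rw [← hcdef] at h1
    have hc' : (0 : ℝ) < |(c : ℝ)| := abs_pos.2 (by exact_mod_cast hc)
    have h4 : ∏ h, Real.exp (-(C * m h)) ^ (e (Sum.inr h)) = Real.exp (-(C * s)) := by
      rw [hs, Finset.mul_sum, ← Finset.sum_neg_distrib, Real.exp_sum]
      refine Finset.prod_congr rfl fun h _ => ?_
      rw [← Real.exp_nat_mul]
      congr 1
      ring
    rw [h4] at h1
    have hnM : (1 : ℝ) ≤ n + M := by
      have : (0 : ℝ) ≤ n := Nat.cast_nonneg _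
      linarith only [hM1]
    have h5 : |(c : ℝ)| * Real.exp (-(C * s)) ≤
        (C₁ * (n + M)) ^ (∑ h, d h) * Real.exp (Dk * ∑ i, β₀ i + κ) := by
      refine h1.trans ?_
      rw [mul_pow]
      gcongr
    have h6 := Real.log_le_log (mul_pos hc' (Real.exp_pos _)) h5
    rw [Real.log_mul hc'.ne' (Real.exp_pos _).ne', Real.log_exp,
      Real.log_mul (pow_pos (by nlinarith only [hM1, hC₁]) _).ne' (Real.exp_pos _).ne', Real.log_exp,
      Real.log_pow] at h6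
    linarith only [h6]
  -- p-adic part
  have hpadic : ∀ p ∈ S, Dk * ∑ i, lam₀ p i - κ - C * s ≤
      (padicValInt p c : ℝ) * Real.log p := by
    intro p hp
    have hpp := hS p hp
    have : Fact p.Prime := ⟨hpp⟩
    have hlog : 0 < Real.log p := Real.log_pos (by exact_mod_cast hpp.one_lt)
    have hne : P.support.Nonempty := by
      rw [Finset.nonempty_iff_ne_empty]
      intro h
      exact hP0 (MvPolynomial.support_eq_empty.1 h)
    obtain ⟨J, hJ, hmin⟩ := Finset.exists_min_image P.support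
      (fun J => ∑ q : Fin k × Fin (n + 1), a q.1 p q.2 * J q) hne
    have h1 := padic_bound p P u (fun h i => a h p i) (fun h j i => hdiv p hp h j i)
      (∑ q : Fin k × Fin (n + 1), a q.1 p q.2 * J q) (fun J' hJ' => hmin J' hJ') e
    rw [← hcdef] at h1
    have h2 : ∑ q : Fin k × Fin (n + 1), a q.1 p q.2 * J q ≤
        ∑ h, a h p 0 * e (Sum.inr h) + padicValInt p c := by
      have h3 : (p : ℤ) ^ (∑ h, a h p 0 * e (Sum.inr h)) ≠ 0 :=
        pow_ne_zero _ (by exact_mod_cast hpp.ne_zero)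
      have h4 := (padicValInt_dvd_iff _ _).1 h1
      rcases h4 with h4 | h4
      · exact absurd h4 (mul_ne_zero h3 hc)
      · rw [padicValInt.mul h3 hc] at h4
        have h5 : padicValInt p ((p : ℤ) ^ (∑ h, a h p 0 * e (Sum.inr h))) =
            ∑ h, a h p 0 * e (Sum.inr h) := by
          rw [padicValInt, Int.natAbs_pow, Int.natAbs_natCast]
          exact padicValNat.prime_pow _
        rw [h5] at h4
        exact h4
    have h3 : (∑ q : Fin k × Fin (n + 1), (a q.1 p q.2 : ℝ) * J q) ≤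
        ∑ h, (a h p 0 : ℝ) * e (Sum.inr h) + padicValInt p c := by exact_mod_cast h2
    have h4 := main_est (by omega) d hd τ D C hτ hτ1 hD hC m hm1 hm2
      (fun h i => (a h p i : ℝ) * Real.log p / m h) (lam₀ p) (hlam p hp) (hlam₀ p hp) J
      (hP1 J hJ).1 (hP1 J hJ).2
    rw [← hκ, ← hDk] at h4
    have h5 : ∑ h, ∑ i, (a h p i : ℝ) * Real.log p / m h * m h * J (h, i) =
        (∑ q : Fin k × Fin (n + 1), (a q.1 p q.2 : ℝ) * J q) * Real.log p := by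
      rw [Fintype.sum_prod_type, Finset.sum_mul]
      refine Finset.sum_congr rfl fun h _ => ?_
      rw [Finset.sum_mul]
      refine Finset.sum_congr rfl fun i _ => ?_
      have : (m h : ℝ) ≠ 0 := by exact_mod_cast (hm0 h).ne'
      field_simp
    rw [h5] at h4
    have h6 : (∑ h, (a h p 0 : ℝ) * e (Sum.inr h)) * Real.log p ≤ C * s := by
      rw [hs, Finset.mul_sum, Finset.sum_mul]
      refine Finset.sum_le_sum fun h _ => ?_
      have hmh : (0 : ℝ) < m h := by exact_mod_cast (hm0 h)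
      have h7 := (abs_le.1 (hlamC p hp h 0)).2
      rw [div_le_iff₀ hmh] at h7
      have h8 : (0 : ℝ) ≤ e (Sum.inr h) := Nat.cast_nonneg _
      nlinarith only [h7]
    have h7 := (abs_le.1 h4).1
    have h8 := mul_le_mul_of_nonneg_right h3 hlog.le
    rw [add_mul] at h8
    linarith only [h6, h7, h8]
  have htot := sum_padicVal_le S hS c hc
  have h1 : ∑ p ∈ S, (Dk * ∑ i, lam₀ p i - κ - C * s) ≤ Real.log |(c : ℝ)| :=
    (Finset.sum_le_sum hpadic).trans htot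
  have h2 : ∑ p ∈ S, (Dk * ∑ i, lam₀ p i - κ - C * s) =
      Dk * ∑ p ∈ S, ∑ i, lam₀ p i - S.card * (κ + C * s) := by
    rw [Finset.sum_sub_distrib, Finset.sum_sub_distrib, ← Finset.mul_sum]
    simp only [Finset.sum_const, nsmul_eq_mul]
    ring
  rw [h2] at h1
  have hDk0 : 0 ≤ Dk := by rw [hDk]; positivity
  have h3 := mul_le_mul_of_nonneg_left hsum hDk0
  rw [← hDk] at hfin
  have h4 : C * s ≤ 2 * C * τ * D * k := by
    calc C * s ≤ C * (2 * τ * D * k) := by gcongr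
      _ = 2 * C * τ * D * k := by ring
  have h5 : (0 : ℝ) ≤ S.card + 1 := by positivity
  have h6 : (S.card + 1 : ℝ) * (κ + C * s) ≤
      (S.card + 1) * ((2 + C + ((n + 1 : ℕ) : ℝ) * C) + 2 * C) * τ * D * k := by
    calc (S.card + 1 : ℝ) * (κ + C * s) ≤ (S.card + 1 : ℝ) * (κ + 2 * C * τ * D * k) := by gcongr
      _ = _ := by rw [hκ]; ring
  nlinarith only [hfin, harch, h1, h3, h6]

end SB

end

section

/-! Row pd-P02b. -/

namespace Pool.Agent.Lib.MP_d0d59f_nt.PD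

open Finset

theorem p02b_imp {α : List ℕ} {x y : ℤ} (h : x ≡ y [ZMOD 3 ^ α.length]) (hx : vd α x) :
    vd α y := by
  unfold vd at hx ⊢
  have h1 : (3 : ℤ) ^ α.length ∣ 2 ^ α.sum * (y - x) := Dvd.dvd.mul_left (Int.modEq_iff_dvd.1 h) _
  have h2 : 2 ^ α.sum * y - (AA.cc α : ℤ) = 2 ^ α.sum * (y - x) + (2 ^ α.sum * x - (AA.cc α : ℤ)) := by
    ring
  rw [h2]
  exact dvd_add h1 hx

theorem vd_congr {α : List ℕ} {x y : ℤ} (h : x ≡ y [ZMOD 3 ^ α.length]) : vd α x ↔ vd α y :=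
  ⟨p02b_imp h, p02b_imp h.symm⟩

/-- `3^n (nd α y - nd α x) = 2^{|α|} (y - x)`. -/
theorem nd_congr {α : List ℕ} {k : ℕ} {x y : ℤ} (hv : vd α x)
    (h : x ≡ y [ZMOD 3 ^ (α.length + k)]) : nd α x ≡ nd α y [ZMOD 3 ^ k] := by
  have h0 : x ≡ y [ZMOD 3 ^ α.length] := by
    refine Int.ModEq.of_dvd ?_ h
    exact pow_dvd_pow 3 (by omega)
  have hw : vd α y := (vd_congr h0).1 hv
  have h1 : (3 : ℤ) ^ α.length * nd α x = 2 ^ α.sum * x - (AA.cc α : ℤ) := by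
    unfold nd; exact Int.mul_ediv_cancel' hv
  have h2 : (3 : ℤ) ^ α.length * nd α y = 2 ^ α.sum * y - (AA.cc α : ℤ) := by
    unfold nd; exact Int.mul_ediv_cancel' hw
  rw [Int.modEq_iff_dvd] at h ⊢
  have h3 : (3 : ℤ) ^ α.length * (nd α y - nd α x) = 2 ^ α.sum * (y - x) := by
    rw [mul_sub, h1, h2]; ring
  have h4 : (3 : ℤ) ^ α.length * 3 ^ k ∣ 3 ^ α.length * (nd α y - nd α x) := by
    rw [h3, ← pow_add]
    exact Dvd.dvd.mul_left h _
  exact (mul_dvd_mul_iff_left (by positivity)).1 h4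

open Classical in
/-- Exactly one class modulo `3^k` (`2^{|γ|}` is a unit). -/
theorem vd_count {k : ℕ} {γ : List ℕ} (h : γ.length = k) :
    ∑ z ∈ range (3 ^ k), (if vd γ (z : ℤ) then (1 : ℝ) else 0) = 1 := by
  have : NeZero (3 ^ k) := ⟨by positivity⟩
  have hco : Nat.Coprime (2 ^ γ.sum) (3 ^ k) := Nat.Coprime.pow _ _ (by norm_num)
  obtain ⟨u, hu⟩ : ∃ u : ZMod (3 ^ k), ((2 ^ γ.sum : ℕ) : ZMod (3 ^ k)) * u = 1 :=
    ⟨_, ZMod.coe_mul_inv_eq_one _ hco⟩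
  have hiff : ∀ z : ℕ, vd γ (z : ℤ) ↔ (z : ZMod (3 ^ k)) = u * (AA.cc γ : ZMod (3 ^ k)) := by
    intro z
    have h1 : vd γ (z : ℤ) ↔
        ((2 ^ γ.sum : ℕ) : ZMod (3 ^ k)) * (z : ZMod (3 ^ k)) = (AA.cc γ : ZMod (3 ^ k)) := by
      unfold vd
      rw [h]
      have h2 := ZMod.intCast_zmod_eq_zero_iff_dvd (2 ^ γ.sum * (z : ℤ) - (AA.cc γ : ℤ)) (3 ^ k)
      push_cast at h2
      rw [← h2, sub_eq_zero]
      push_cast
      rfl
    rw [h1]
    constructor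
    · intro h2
      rw [← h2, ← mul_assoc, mul_comm u, hu, one_mul]
    · intro h2
      rw [h2, ← mul_assoc, hu, one_mul]
  obtain ⟨c, hc⟩ : ∃ c : ZMod (3 ^ k), c = u * (AA.cc γ : ZMod (3 ^ k)) := ⟨_, rfl⟩
  rw [← hc] at hiff
  rw [Finset.sum_eq_single c.val]
  · rw [if_pos ((hiff _).2 (ZMod.natCast_zmod_val c))]
  · intro b hb hne
    rw [if_neg]
    intro h2
    apply hne
    rw [← (hiff b).1 h2, ZMod.val_cast_of_lt (mem_range.1 hb)]
  · intro h2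
    exact absurd (mem_range.2 (ZMod.val_lt c)) h2

end Pool.Agent.Lib.MP_d0d59f_nt.PD

end

section

/-! Row pd-P11: mass of the bad words. -/

namespace Pool.Agent.Lib.MP_d0d59f_nt.PD

open Finset

theorem p11_geom (s k : ℕ) : ∑ j ∈ Ioc s k, (97 / 100 : ℝ) ^ j ≤ 35 * (97 / 100) ^ s := by
  have h1 : Ioc s k = Ico (s + 1) (k + 1) := by
    ext j
    simp only [mem_Ioc, mem_Ico]
    omega
  rw [h1]
  have h2 := geom_sum_Ico_le_of_lt_one (x := (97 / 100 : ℝ)) (m := s + 1) (n := k + 1)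
    (by norm_num) (by norm_num)
  have h3 : (0 : ℝ) < (97 / 100) ^ s := by positivity
  calc ∑ j ∈ Ico (s + 1) (k + 1), (97 / 100 : ℝ) ^ j
      ≤ (97 / 100) ^ (s + 1) / (1 - 97 / 100) := h2
    _ = (97 / 100) ^ s * (97 / 3) := by rw [pow_succ]; ring
    _ ≤ 35 * (97 / 100) ^ s := by nlinarith

open Classical in
/-- Union bound over `j ∈ (s, k]` with `low_tail`, `high_tail` (`c = 0`):
`∑_{j>s} 2 (97/100)^j ≤ 2 (97/100)^(s+1)/(3/100) ≤ 70 (97/100)^s`. -/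
theorem bad_mass (s k L : ℕ) :
    ∑ γ ∈ Wd k L, (if bad s k γ then (1 / 2 : ℝ) ^ γ.sum else 0) ≤ 70 * (97 / 100) ^ s := by
  have hpt : ∀ γ ∈ Wd k L, (if bad s k γ then (1 / 2 : ℝ) ^ γ.sum else 0) ≤
      ∑ j ∈ Ioc s k, ((if 3 * (γ.take j).sum + 0 < 5 * j then (1 / 2 : ℝ) ^ γ.sum else 0) +
        (if 3 * j + 0 < (γ.take j).sum then (1 / 2 : ℝ) ^ γ.sum else 0)) := by
    intro γ _
    have hw : (0 : ℝ) ≤ (1 / 2 : ℝ) ^ γ.sum := by positivity
    have hnn : ∀ j ∈ Ioc s k, (0 : ℝ) ≤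
        ((if 3 * (γ.take j).sum + 0 < 5 * j then (1 / 2 : ℝ) ^ γ.sum else 0) +
        (if 3 * j + 0 < (γ.take j).sum then (1 / 2 : ℝ) ^ γ.sum else 0)) := by
      intro j _
      refine add_nonneg ?_ ?_ <;> split_ifs <;> first | exact hw | exact le_rfl
    split_ifs with hb
    · obtain ⟨j, h1, h2, h3⟩ := hb
      have hj : j ∈ Ioc s k := mem_Ioc.2 ⟨h1, h2⟩
      refine le_trans ?_ (single_le_sum hnn hj)
      rcases h3 with h3 | h3
      · rw [if_pos (by omega)]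
        have : (0 : ℝ) ≤ (if 3 * j + 0 < (γ.take j).sum then (1 / 2 : ℝ) ^ γ.sum else 0) := by
          split_ifs <;> first | exact hw | exact le_rfl
        linarith
      · rw [if_pos (c := 3 * j + 0 < (γ.take j).sum) (by omega)]
        have : (0 : ℝ) ≤ (if 3 * (γ.take j).sum + 0 < 5 * j then (1 / 2 : ℝ) ^ γ.sum else 0) := by
          split_ifs <;> first | exact hw | exact le_rfl
        linarith
    · exact sum_nonneg hnn
  refine (sum_le_sum hpt).trans ?_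
  rw [sum_comm]
  have h2 : ∀ j ∈ Ioc s k, ∑ γ ∈ Wd k L,
      ((if 3 * (γ.take j).sum + 0 < 5 * j then (1 / 2 : ℝ) ^ γ.sum else 0) +
        (if 3 * j + 0 < (γ.take j).sum then (1 / 2 : ℝ) ^ γ.sum else 0)) ≤
      2 * (97 / 100) ^ j := by
    intro j hj
    have hjk : j ≤ k := (mem_Ioc.1 hj).2
    rw [sum_add_distrib]
    have e1 := low_tail (L := L) hjk 0
    have e2 := high_tail (L := L) hjk 0
    rw [pow_zero, one_mul] at e1 e2
    linarith
  refine (sum_le_sum h2).trans ?_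
  rw [← mul_sum]
  have := p11_geom s k
  linarith

theorem Vb_nonneg (s k L : ℕ) (z : ℤ) : 0 ≤ Vb s k L z := by
  unfold Vb
  refine sum_nonneg fun γ _ => ?_
  split_ifs
  · exact (wt_pos γ).le
  · exact le_rfl

/-- `vd_congr`, all words have length `k`. -/
theorem Vb_congr {s k L : ℕ} {z z' : ℤ} (h : z ≡ z' [ZMOD 3 ^ k]) : Vb s k L z = Vb s k L z' := by
  unfold Vb
  refine sum_congr rfl fun γ hγ => ?_
  have h1 : γ.length = k := (mem_Wd.1 hγ).1
  have h2 : vd γ z ↔ vd γ z' := vd_congr (by rw [h1]; exact h)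
  by_cases hv : vd γ z ∧ bad s k γ
  · rw [if_pos hv, if_pos ⟨h2.1 hv.1, hv.2⟩]
  · rw [if_neg hv, if_neg fun h => hv ⟨h2.2 h.1, h.2⟩]

/-- Exchange the sums; `vd_count`; `wt γ = 3^k (1/2)^|γ|`. -/
theorem Vb_sum (s k L : ℕ) :
    ∑ z ∈ range (3 ^ k), Vb s k L (z : ℤ) ≤ 3 ^ k * (70 * (97 / 100) ^ s) := by
  classical
  unfold Vb
  rw [sum_comm]
  have h1 : ∀ γ ∈ Wd k L, ∑ z ∈ range (3 ^ k),
      (if vd γ (z : ℤ) ∧ bad s k γ then wt γ else 0) =
      3 ^ k * (if bad s k γ then (1 / 2 : ℝ) ^ γ.sum else 0) := by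
    intro γ hγ
    have hl : γ.length = k := (mem_Wd.1 hγ).1
    have hw : wt γ = 3 ^ k * (1 / 2 : ℝ) ^ γ.sum := by
      unfold wt
      rw [hl, div_eq_mul_inv, one_div, inv_pow]
    by_cases hb : bad s k γ
    · rw [if_pos hb, ← hw]
      have h2 : ∀ z ∈ range (3 ^ k), (if vd γ (z : ℤ) ∧ bad s k γ then wt γ else 0) =
          wt γ * (if vd γ (z : ℤ) then (1 : ℝ) else 0) := by
        intro z _
        by_cases hv : vd γ (z : ℤ)
        · rw [if_pos ⟨hv, hb⟩, if_pos hv, mul_one]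
        · rw [if_neg (fun h => hv h.1), if_neg hv, mul_zero]
      rw [sum_congr rfl h2, ← mul_sum, vd_count hl, mul_one]
    · rw [if_neg hb, mul_zero]
      refine sum_eq_zero fun z _ => if_neg fun h => hb h.2
  rw [sum_congr rfl h1, ← mul_sum]
  exact mul_le_mul_of_nonneg_left (bad_mass s k L) (by positivity)

end Pool.Agent.Lib.MP_d0d59f_nt.PD

end

section

/-! Row pw-Q07: sup bounds and the tail function. -/

namespace Pool.Agent.Lib.MP_d0d59f_nt.PW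

open Finset

theorem q07_pz_le (d r : ℤ) (K n l : ℕ) (Y : ZMod (3 ^ K)) : AA.pz d r K n l Y ≤ AA.nb n l := by
  have : NeZero (3 ^ K) := ⟨by positivity⟩
  rw [← AA.sum_pz d r K n l]
  exact Finset.single_le_sum (f := fun Y => AA.pz d r K n l Y)
    (fun Z _ => AA.pz_nonneg d r K n l Z) (Finset.mem_univ Y)

theorem q07_wt {k : ℕ} {γ : List ℕ} (hl : γ.length = k) :
    PD.wt γ = 3 ^ k * (1 / 2 : ℝ) ^ γ.sum := by
  unfold PD.wt
  rw [hl, div_eq_mul_inv, one_div, inv_pow]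

theorem q07_sum_half (k L : ℕ) : ∑ γ ∈ PD.Wd k L, (1 / 2 : ℝ) ^ γ.sum ≤ 1 := by
  rw [PD.sum_Wd]
  refine le_trans (le_of_eq ?_) (AA.sum_nb_le_one k L)
  refine sum_congr rfl fun l _ => ?_
  have h : ∀ α ∈ AA.comps k l, (1 / 2 : ℝ) ^ α.sum = (1 / 2 : ℝ) ^ l := by
    intro α hα
    rw [(AA.mem_comps.1 hα).2.1]
  rw [sum_congr rfl h, sum_const, nsmul_eq_mul]
  unfold AA.nb
  ring

theorem q07_sum_wt (k L : ℕ) : ∑ γ ∈ PD.Wd k L, PD.wt γ ≤ 3 ^ k := by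
  have h : ∀ γ ∈ PD.Wd k L, PD.wt γ = 3 ^ k * (1 / 2 : ℝ) ^ γ.sum := fun γ hγ =>
    q07_wt (PD.mem_Wd.1 hγ).1
  rw [sum_congr rfl h, ← mul_sum]
  calc (3 : ℝ) ^ k * ∑ γ ∈ PD.Wd k L, (1 / 2 : ℝ) ^ γ.sum ≤ 3 ^ k * 1 :=
        mul_le_mul_of_nonneg_left (q07_sum_half k L) (by positivity)
    _ = 3 ^ k := mul_one _

/-- `pz ≤ nb` summed over `l` (`AA.sum_pz`, `AA.pz_nonneg`, `AA.sum_nb_le_one`): the inner sums are at most
`1 + 1/3`, three values of `r`. -/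
theorem hm_le (m L : ℕ) (z : ℤ) : PD.hm m L z ≤ 4 * 3 ^ m := by
  unfold PD.hm
  have hcst : (3 : ℝ) ^ m / 3 ^ (m + 1) = 1 / 3 := by
    rw [pow_succ]
    field_simp
  have h1 : ∀ r ∈ range 3, ∑ l ∈ range (L + 1),
      |AA.pz 1 (r : ℤ) (m + 1) m l (z : ZMod (3 ^ (m + 1)))
      - (3 : ℝ) ^ m / 3 ^ (m + 1) * AA.pz 1 (r : ℤ) m m l (z : ZMod (3 ^ m))| ≤ 4 / 3 := by
    intro r _
    have h2 : ∀ l ∈ range (L + 1), |AA.pz 1 (r : ℤ) (m + 1) m l (z : ZMod (3 ^ (m + 1)))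
      - (3 : ℝ) ^ m / 3 ^ (m + 1) * AA.pz 1 (r : ℤ) m m l (z : ZMod (3 ^ m))| ≤
        4 / 3 * AA.nb m l := by
      intro l _
      rw [hcst]
      have a1 := AA.pz_nonneg 1 (r : ℤ) (m + 1) m l (z : ZMod (3 ^ (m + 1)))
      have a2 := AA.pz_nonneg 1 (r : ℤ) m m l (z : ZMod (3 ^ m))
      have b1 := q07_pz_le 1 (r : ℤ) (m + 1) m l (z : ZMod (3 ^ (m + 1)))
      have b2 := q07_pz_le 1 (r : ℤ) m m l (z : ZMod (3 ^ m))
      rw [abs_le]
      constructor <;> linarith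
    refine (sum_le_sum h2).trans ?_
    rw [← mul_sum]
    have := AA.sum_nb_le_one m L
    linarith
  have h3 : ∑ r ∈ range 3, ∑ l ∈ range (L + 1),
      |AA.pz 1 (r : ℤ) (m + 1) m l (z : ZMod (3 ^ (m + 1)))
      - (3 : ℝ) ^ m / 3 ^ (m + 1) * AA.pz 1 (r : ℤ) m m l (z : ZMod (3 ^ m))| ≤ 4 := by
    refine (sum_le_sum h1).trans ?_
    rw [sum_const, card_range, nsmul_eq_mul]
    norm_num
  calc _ ≤ (3 : ℝ) ^ m * 4 := mul_le_mul_of_nonneg_left h3 (by positivity)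
    _ = 4 * 3 ^ m := mul_comm _ _

/-- `∑_{Wd k L} wt = 3^k ∑ 2^{-sum} ≤ 3^k` (`PD.sum_Wd`, `AA.sum_nb_le_one`). -/
theorem Vb_le (s k L : ℕ) (z : ℤ) : PD.Vb s k L z ≤ 3 ^ k := by
  classical
  unfold PD.Vb
  refine le_trans (sum_le_sum fun γ _ => ?_) (q07_sum_wt k L)
  split_ifs
  · exact le_rfl
  · exact (PD.wt_pos γ).le

theorem tl_nonneg (m L : ℕ) (z : ℤ) : 0 ≤ tl m L z := by
  unfold tl
  refine sum_nonneg fun γ _ => ?_
  split_ifs
  · exact (PD.wt_pos γ).le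
  · exact le_rfl

theorem tl_le (m L : ℕ) (z : ℤ) : tl m L z ≤ 3 ^ m := by
  unfold tl
  refine le_trans (sum_le_sum fun γ _ => ?_) (q07_sum_wt m L)
  split_ifs
  · exact le_rfl
  · exact (PD.wt_pos γ).le

/-- `PD.vd_congr`. -/
theorem tl_congr {m L : ℕ} {z z' : ℤ} (h : z ≡ z' [ZMOD 3 ^ m]) : tl m L z = tl m L z' := by
  unfold tl
  refine sum_congr rfl fun γ hγ => ?_
  have h1 : γ.length = m := (PD.mem_Wd.1 hγ).1
  have h2 : PD.vd γ z ↔ PD.vd γ z' := PD.vd_congr (by rw [h1]; exact h)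
  by_cases hv : PD.vd γ z ∧ 10 * m < γ.sum
  · rw [if_pos hv, if_pos ⟨h2.1 hv.1, hv.2⟩]
  · rw [if_neg hv, if_neg fun h => hv ⟨h2.2 h.1, h.2⟩]

/-- Exchange the sums, `PD.vd_count`, `big_half`. -/
theorem tl_sum (m L : ℕ) : ∑ z ∈ range (3 ^ m), tl m L (z : ℤ) ≤ 3 ^ m * (1 / 15) ^ m := by
  classical
  unfold tl
  rw [sum_comm]
  have h1 : ∀ γ ∈ PD.Wd m L, ∑ z ∈ range (3 ^ m),
      (if PD.vd γ (z : ℤ) ∧ 10 * m < γ.sum then PD.wt γ else 0) =
      3 ^ m * (if 10 * m < γ.sum then (1 / 2 : ℝ) ^ γ.sum else 0) := by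
    intro γ hγ
    have hl : γ.length = m := (PD.mem_Wd.1 hγ).1
    have hw := q07_wt hl
    by_cases hb : 10 * m < γ.sum
    · rw [if_pos hb, ← hw]
      have h2 : ∀ z ∈ range (3 ^ m), (if PD.vd γ (z : ℤ) ∧ 10 * m < γ.sum then PD.wt γ else 0) =
          PD.wt γ * (if PD.vd γ (z : ℤ) then (1 : ℝ) else 0) := by
        intro z _
        by_cases hv : PD.vd γ (z : ℤ)
        · rw [if_pos ⟨hv, hb⟩, if_pos hv, mul_one]
        · rw [if_neg (fun h => hv h.1), if_neg hv, mul_zero]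
      rw [sum_congr rfl h2, ← mul_sum, PD.vd_count hl, mul_one]
    · rw [if_neg hb, mul_zero]
      refine sum_eq_zero fun z _ => if_neg fun h => hb h.2
  rw [sum_congr rfl h1, ← mul_sum]
  exact mul_le_mul_of_nonneg_left (big_half m L) (by positivity)

end Pool.Agent.Lib.MP_d0d59f_nt.PW

end
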