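import Pool.Agent.Lib.MP_d0d59f_nt.PZ.K015
import Pool.Agent.Lib.MP_d0d59f_nt.PZ.K018
import Pool.Agent.Lib.MP_d0d59f_nt.PZ.K029
import Pool.Agent.Lib.MP_d0d59f_nt.PZ.K031

section

/-! Row pw-Q10b: the main estimate (compare PD/P14c). -/

namespace Pool.Agent.Lib.MP_d0d59f_nt.PW

open Finset

open Classical in
theorem q10b_inner {N e : ℕ} {D : ℕ → ℤ → ℝ} (hD : ∀ j z, |D j z| ≤ 2)
    (hper : ∀ j, ∀ z z' : ℤ, z ≡ z' [ZMOD 3] → D j z = D j z')
    (h0 : ∀ j, D j 0 + D j 1 + D j 2 = 0) {m L : ℕ} (hL : 10 * m ≤ L) (α : List ℕ) (z : ℤ) :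
    |∑ β ∈ PD.Wd m L, if PD.vd β z ∧ lbar N e (α ++ β) then
        PD.wt β * D (α ++ β).sum (PD.nd β z) else 0| ≤
      (2 * PD.hm m (10 * m) z + 2 * tl m L z) +
        2 * ∑ β ∈ PD.Wd m L, if PD.vd β z ∧ ¬ lbar N e (α ++ β) then PD.wt β else 0 := by
  have h1 := dom_tl hD hper h0 hL α.sum z
  have h2 : ∑ β ∈ PD.Wd m L, (if PD.vd β z ∧ lbar N e (α ++ β) then
        PD.wt β * D (α ++ β).sum (PD.nd β z) else 0)
      = ∑ β ∈ PD.Wd m L, (if PD.vd β z then PD.wt β * D (α.sum + β.sum) (PD.nd β z) else 0)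
        - ∑ β ∈ PD.Wd m L, (if PD.vd β z ∧ ¬ lbar N e (α ++ β) then
          PD.wt β * D (α.sum + β.sum) (PD.nd β z) else 0) := by
    rw [← sum_sub_distrib]
    refine sum_congr rfl fun β _ => ?_
    rw [List.sum_append]
    by_cases hv : PD.vd β z
    · by_cases hb : lbar N e (α ++ β)
      · simp [hv, hb]
      · simp [hv, hb]
    · simp [hv]
  have h3 : |∑ β ∈ PD.Wd m L, (if PD.vd β z ∧ ¬ lbar N e (α ++ β) then
        PD.wt β * D (α.sum + β.sum) (PD.nd β z) else 0)|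
      ≤ 2 * ∑ β ∈ PD.Wd m L, (if PD.vd β z ∧ ¬ lbar N e (α ++ β) then PD.wt β else 0) := by
    refine (abs_sum_le_sum_abs _ _).trans ?_
    rw [mul_sum]
    refine sum_le_sum fun β _ => ?_
    by_cases hc : PD.vd β z ∧ ¬ lbar N e (α ++ β)
    · rw [if_pos hc, if_pos hc, abs_mul, abs_of_pos (PD.wt_pos β)]
      nlinarith only [PD.wt_pos β, hD (α.sum + β.sum) (PD.nd β z), hD]
    · rw [if_neg hc, if_neg hc]
      simp
  rw [h2]
  refine (abs_sub _ _).trans (add_le_add h1 h3)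

/-- **Main estimate.** `m = n/(10 N)`, `p = n - m`, `q = n - 2 m`. `EQ_split` for `n = p + m` (`hL`); for
`α ∈ Rq N e p L` and every `z` the inner sum over `β ∈ Wd m L` with `vd β z ∧ lbar (α ++ β)` is the sum over all
`β` with `vd β z` (`dom_tl` with `j = α.sum`, `10 m ≤ L`) minus the sum over `β` with `vd β z ∧ ¬ lbar (α ++ β)`
(absolute value at most `2 ∑ wt β`). So `|EQ n ..| ≤ 2 EQ p (hm) + 2 EQ p (tl) + 2 EQ p (exits)`. Bounds by
`density_bound`: `hm`: `k = m + 1`, `H = 4 * 3^m` (`PD.hm_sum`, `PD.hm_nonneg`, `PD.hm_congr`, `hm_le`;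
`4 N (m+1) ≤ p` for `n ≥ 10 N`); `tl`: `k = m`; exits: `exit_le` (`p = q + m`, `s = t = m`) and `k = 2 m`,
`H = 3^(2m)` (`PD.Vb_sum`, `Vb_le`; `8 N m ≤ q`). Then `poly_bound`, `exp_bound` (`r = 1/15`, `97/100`),
`small_bound`. All terms have a factor `2^e ≥ 1`. -/
theorem main_bound (N : ℕ) (hN : 21 ≤ N) : ∃ K : ℝ, 0 ≤ K ∧ ∀ e n L : ℕ, 10 * N ≤ n → 10 * n ≤ L →
    ∀ D : ℕ → ℤ → ℝ, (∀ j z, |D j z| ≤ 2) →
    (∀ j, ∀ z z' : ℤ, z ≡ z' [ZMOD 3] → D j z = D j z') → (∀ j, D j 0 + D j 1 + D j 2 = 0) →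
    (∀ j z, L < j → D j z = 0) → ∀ x : ℤ,
      |EQ N e n L (fun α z => D α.sum z) x| ≤ K * 2 ^ e / ((n : ℝ) + 1) ^ 2 := by
  classical
  obtain ⟨C, hC0, hC⟩ := PD.hm_sum
  obtain ⟨K1, hK1, hp⟩ := poly_bound N hN C hC0
  obtain ⟨K2, hK2, he2⟩ := exp_bound N hN (1 / 15) (by norm_num) (by norm_num) 1 (by norm_num)
  obtain ⟨K3, hK3, he3⟩ := exp_bound N hN (97 / 100) (by norm_num) (by norm_num) 70 (by norm_num)
  obtain ⟨K4, hK4, he4⟩ := small_bound N hN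
  refine ⟨2 * (K1 + K4) + 2 * (K2 + K4) + 2 * (K3 + K4), by positivity,
    fun e n L hn hL D hD hper h0 hDL x => ?_⟩
  obtain ⟨m, hmn⟩ : ∃ m, m = n / (10 * N) := ⟨_, rfl⟩
  obtain ⟨a, ha⟩ : ∃ a, a = N * m := ⟨_, rfl⟩
  have hm2 : 10 * a ≤ n := by
    rw [ha, hmn, ← mul_assoc]
    exact Nat.mul_div_le n (10 * N)
  have hm21 : 21 * m ≤ a := by
    rw [ha]
    exact Nat.mul_le_mul_right m hN
  obtain ⟨q, hq⟩ : ∃ q, n = q + m + m := ⟨n - 2 * m, by omega⟩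
  have hqn2 : n - 2 * m = q := by omega
  have h8q : 4 * N * (m + m) ≤ q := by
    have : 4 * N * (m + m) = 8 * a := by rw [ha]; ring
    omega
  have h4p : 4 * N * (m + 1) ≤ q + m := by
    have : 4 * N * (m + 1) = 4 * a + 4 * N := by rw [ha]; ring
    omega
  have h4p' : 4 * N * m ≤ q + m := by
    have : 4 * N * m = 4 * a := by rw [ha]; ring
    omega
  have hLm : 10 * m ≤ L := by omega
  have e1 : EQ N e n L (fun α z => D α.sum z) x = EQ N e (q + m) L (fun α z => ∑ β ∈ PD.Wd m L,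
      if PD.vd β z ∧ lbar N e (α ++ β) then PD.wt β * D (α ++ β).sum (PD.nd β z) else 0) x := by
    have := EQ_split (N := N) (e := e) (p := q + m) (m := m) (L := L) (fun α z => D α.sum z)
      (fun α z h => hDL _ _ h) x
    rw [← this, ← hq]
  have e2 : |EQ N e n L (fun α z => D α.sum z) x| ≤
      (2 * EQ N e (q + m) L (fun _ z => PD.hm m (10 * m) z) x
        + 2 * EQ N e (q + m) L (fun _ z => tl m L z) x)
        + 2 * EQ N e (q + m) L (fun α z => ∑ β ∈ PD.Wd m L,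
          if PD.vd β z ∧ ¬ lbar N e (α ++ β) then PD.wt β else 0) x := by
    rw [e1, ← EQ_smul, ← EQ_smul, ← EQ_smul, ← EQ_add, ← EQ_add]
    refine (EQ_abs _ _ _ _ _ _).trans ?_
    exact EQ_mono (fun α _ z => q10b_inner hD hper h0 hLm α z) x
  have hn1 : (0 : ℝ) < ((n : ℝ) + 1) ^ 2 := by positivity
  have h2e : (1 : ℝ) ≤ 2 ^ e := one_le_pow₀ (by norm_num)
  have hpn : ((q + m : ℕ) : ℝ) + 1 ≤ (n : ℝ) + 1 := by
    have : ((q + m : ℕ) : ℝ) ≤ (n : ℝ) := by exact_mod_cast (by omega : q + m ≤ n)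
    linarith only [this]
  have hqn : (q : ℝ) + 1 ≤ (n : ℝ) + 1 := by
    have : (q : ℝ) ≤ (n : ℝ) := by exact_mod_cast (by omega : q ≤ n)
    linarith only [this]
  have hN0 : (0 : ℝ) ≤ N := Nat.cast_nonneg N
  -- small terms
  have hsm : (1 / 5 : ℝ) ^ q * (5 * 9 ^ m) ≤ K4 / ((n : ℝ) + 1) ^ 2 := by
    have := he4 n
    rw [← hmn, hqn2] at this
    exact this
  have h39 : (3 : ℝ) ^ m ≤ 9 ^ m := pow_le_pow_left₀ (by norm_num) (by norm_num) m
  have h90 : (0 : ℝ) < 9 ^ m := by positivity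
  have h5q : (0 : ℝ) < (1 / 5 : ℝ) ^ q := by positivity
  have h5p : (1 / 5 : ℝ) ^ (q + m) ≤ (1 / 5 : ℝ) ^ q :=
    pow_le_pow_of_le_one (by norm_num) (by norm_num) (by omega)
  have hs1 : (1 / 5 : ℝ) ^ (q + m) * (4 * 3 ^ m) ≤ K4 / ((n : ℝ) + 1) ^ 2 :=
    (mul_le_mul h5p (by linarith only [h39, h90] : (4 : ℝ) * 3 ^ m ≤ 5 * 9 ^ m) (by positivity) h5q.le).trans hsm
  have hs2 : (1 / 5 : ℝ) ^ (q + m) * 3 ^ m ≤ K4 / ((n : ℝ) + 1) ^ 2 :=
    (mul_le_mul h5p (by linarith only [h39, h90] : (3 : ℝ) ^ m ≤ 5 * 9 ^ m) (by positivity) h5q.le).trans hsm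
  have hs3 : (1 / 5 : ℝ) ^ q * 3 ^ (m + m) ≤ K4 / ((n : ℝ) + 1) ^ 2 := by
    have h9 : (3 : ℝ) ^ (m + m) = 9 ^ m := by
      rw [← two_mul, pow_mul]
      norm_num
    rw [h9]
    exact (mul_le_mul_of_nonneg_left (by linarith only [h90] : (9 : ℝ) ^ m ≤ 5 * 9 ^ m) h5q.le).trans hsm
  have hK4' : K4 / ((n : ℝ) + 1) ^ 2 ≤ 2 ^ e * (K4 / ((n : ℝ) + 1) ^ 2) :=
    le_mul_of_one_le_left (by positivity) h2e
  have e3 : EQ N e (q + m) L (fun _ z => PD.hm m (10 * m) z) x ≤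
      2 ^ e * ((K1 + K4) / ((n : ℝ) + 1) ^ 2) := by
    refine (density_bound hN h4p (fun z => PD.hm_nonneg m (10 * m) z) (fun z => hm_le m (10 * m) z)
      (fun z z' h => PD.hm_congr h) x).trans ?_
    have h3 : (0 : ℝ) < 3 ^ (m + 1) := by positivity
    have hh : (∑ c ∈ range (3 ^ (m + 1)), PD.hm m (10 * m) (c : ℤ)) / 3 ^ (m + 1) ≤
        C * ((10 * m : ℕ) + 1) / ((m : ℝ) + 1) ^ 5 := by
      rw [div_le_iff₀ h3, mul_comm _ ((3 : ℝ) ^ (m + 1))]
      exact hC m (10 * m)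
    have hh0 : 0 ≤ (∑ c ∈ range (3 ^ (m + 1)), PD.hm m (10 * m) (c : ℤ)) / 3 ^ (m + 1) :=
      div_nonneg (sum_nonneg fun c _ => PD.hm_nonneg _ _ _) h3.le
    have hp' := hp n
    rw [← hmn] at hp'
    have h4 : 11 * ((N : ℝ) + 2) * (((q + m : ℕ) : ℝ) + 1) *
        ((∑ c ∈ range (3 ^ (m + 1)), PD.hm m (10 * m) (c : ℤ)) / 3 ^ (m + 1)) ≤
        K1 / ((n : ℝ) + 1) ^ 2 := by
      refine le_trans ?_ hp'
      exact mul_le_mul (mul_le_mul_of_nonneg_left hpn (by positivity)) hh hh0 (by positivity)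
    have h5 := mul_le_mul_of_nonneg_left h4 (by positivity : (0 : ℝ) ≤ 2 ^ e)
    have h6 : 2 ^ e * ((K1 + K4) / ((n : ℝ) + 1) ^ 2) =
        2 ^ e * (K1 / ((n : ℝ) + 1) ^ 2) + 2 ^ e * (K4 / ((n : ℝ) + 1) ^ 2) := by ring
    rw [h6]
    refine add_le_add (le_trans (le_of_eq ?_) h5) (hs1.trans hK4')
    ring
  have e3' : EQ N e (q + m) L (fun _ z => tl m L z) x ≤
      2 ^ e * ((K2 + K4) / ((n : ℝ) + 1) ^ 2) := by
    refine (density_bound hN h4p' (fun z => tl_nonneg m L z) (fun z => tl_le m L z)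
      (fun z z' h => tl_congr h) x).trans ?_
    have h3 : (0 : ℝ) < 3 ^ m := by positivity
    have hh : (∑ c ∈ range (3 ^ m), tl m L (c : ℤ)) / 3 ^ m ≤ 1 * (1 / 15) ^ m := by
      rw [div_le_iff₀ h3, mul_comm _ ((3 : ℝ) ^ m), one_mul]
      exact tl_sum m L
    have hh0 : 0 ≤ (∑ c ∈ range (3 ^ m), tl m L (c : ℤ)) / 3 ^ m :=
      div_nonneg (sum_nonneg fun c _ => tl_nonneg _ _ _) h3.le
    have hp' := he2 n
    rw [← hmn] at hp'
    have h4 : 11 * ((N : ℝ) + 2) * (((q + m : ℕ) : ℝ) + 1) *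
        ((∑ c ∈ range (3 ^ m), tl m L (c : ℤ)) / 3 ^ m) ≤ K2 / ((n : ℝ) + 1) ^ 2 := by
      refine le_trans ?_ hp'
      exact mul_le_mul (mul_le_mul_of_nonneg_left hpn (by positivity)) hh hh0 (by positivity)
    have h5 := mul_le_mul_of_nonneg_left h4 (by positivity : (0 : ℝ) ≤ 2 ^ e)
    have h6 : 2 ^ e * ((K2 + K4) / ((n : ℝ) + 1) ^ 2) =
        2 ^ e * (K2 / ((n : ℝ) + 1) ^ 2) + 2 ^ e * (K4 / ((n : ℝ) + 1) ^ 2) := by ring
    rw [h6]
    refine add_le_add (le_trans (le_of_eq ?_) h5) (hs2.trans hK4')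
    ring
  have e4 : EQ N e (q + m) L (fun α z => ∑ β ∈ PD.Wd m L,
          if PD.vd β z ∧ ¬ lbar N e (α ++ β) then PD.wt β else 0) x ≤
      2 ^ e * ((K3 + K4) / ((n : ℝ) + 1) ^ 2) := by
    refine (exit_le hN e q m m L x).trans ?_
    refine (density_bound hN h8q (fun z => PD.Vb_nonneg m (m + m) _ z) (fun z => Vb_le m (m + m) _ z)
      (fun z z' h => PD.Vb_congr h) x).trans ?_
    have h3 : (0 : ℝ) < 3 ^ (m + m) := by positivity
    have hh : (∑ c ∈ range (3 ^ (m + m)), PD.Vb m (m + m) (2 * L) (c : ℤ))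
        / 3 ^ (m + m) ≤ 70 * (97 / 100) ^ m := by
      rw [div_le_iff₀ h3, mul_comm _ ((3 : ℝ) ^ (m + m))]
      exact PD.Vb_sum m (m + m) _
    have hh0 : 0 ≤ (∑ c ∈ range (3 ^ (m + m)), PD.Vb m (m + m) (2 * L)
        (c : ℤ)) / 3 ^ (m + m) :=
      div_nonneg (sum_nonneg fun c _ => PD.Vb_nonneg _ _ _ _) h3.le
    have hp' := he3 n
    rw [← hmn] at hp'
    have h4 : 11 * ((N : ℝ) + 2) * ((q : ℝ) + 1) *
        ((∑ c ∈ range (3 ^ (m + m)), PD.Vb m (m + m) (2 * L) (c : ℤ)) / 3 ^ (m + m)) ≤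
        K3 / ((n : ℝ) + 1) ^ 2 := by
      refine le_trans ?_ hp'
      exact mul_le_mul (mul_le_mul_of_nonneg_left hqn (by positivity)) hh hh0 (by positivity)
    have h5 := mul_le_mul_of_nonneg_left h4 (by positivity : (0 : ℝ) ≤ 2 ^ e)
    have h6 : 2 ^ e * ((K3 + K4) / ((n : ℝ) + 1) ^ 2) =
        2 ^ e * (K3 / ((n : ℝ) + 1) ^ 2) + 2 ^ e * (K4 / ((n : ℝ) + 1) ^ 2) := by ring
    rw [h6]
    refine add_le_add (le_trans (le_of_eq ?_) h5) (hs3.trans hK4')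
    ring
  have h7 : (2 * (K1 + K4) + 2 * (K2 + K4) + 2 * (K3 + K4)) * 2 ^ e / ((n : ℝ) + 1) ^ 2 =
      (2 * (2 ^ e * ((K1 + K4) / ((n : ℝ) + 1) ^ 2)) + 2 * (2 ^ e * ((K2 + K4) / ((n : ℝ) + 1) ^ 2)))
        + 2 * (2 ^ e * ((K3 + K4) / ((n : ℝ) + 1) ^ 2)) := by ring
  rw [h7]
  linarith only [e2, e3, e3', e4]

end Pool.Agent.Lib.MP_d0d59f_nt.PW

end

section

/-! Row pw-Q13: one step (compare PD/P17). -/

namespace Pool.Agent.Lib.MP_d0d59f_nt.PW

open Finset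

/-- The hits as a weighted sum. -/
theorem q13_hit (N e L : ℕ) (M : ℝ) (n : ℕ) (x : ℤ) :
    hitU N e L M n x =
      EQ N e n L (fun α _ => @ite ℝ (onc M n α.sum) (Classical.dec _) 1 0) x := by
  classical
  unfold hitU EQ
  refine sum_congr rfl fun α _ => ?_
  by_cases h1 : PD.vd α x
  · by_cases h2 : onc M n α.sum
    · rw [if_pos ⟨h1, h2⟩, if_pos h1]
      simp [h2]
    · rw [if_neg (fun h => h2 h.2), if_pos h1]
      simp [h2]
  · rw [if_neg (fun h => h1 h.1), if_neg h1]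

/-- The truncated supersolution is nonnegative. -/
theorem q13_pht_nonneg (L : ℕ) (M : ℝ) (n j : ℕ) : 0 ≤ pht L M n j := by
  unfold pht
  split_ifs
  · exact phi_nonneg M n j
  · exact le_rfl

/-- The truncated supersolution is at most the supersolution. -/
theorem q13_pht_le (L : ℕ) (M : ℝ) (n j : ℕ) : pht L M n j ≤ phi M n j := by
  unfold pht
  split_ifs
  · exact le_rfl
  · exact phi_nonneg M n j

/-- The sum over the last letter. -/
theorem q13_inner (L : ℕ) (M : ℝ) (n j : ℕ) (hj : j ≤ L) (α : List ℕ) (hα : α.sum = j) (z : ℤ) :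
    (∑ β ∈ PD.Wd 1 L,
      @ite ℝ (PD.vd β z) (Classical.dec _) (PD.wt β * pht L M (n + 1) (α ++ β).sum) 0) =
      DU L M n j z + ∑ a ∈ Icc 1 L, (1 / 2 : ℝ) ^ a * pht L M (n + 1) (j + a) := by
  classical
  rw [PD.sum_Wd_one, DU, if_pos hj, ← sum_add_distrib]
  refine sum_congr rfl fun a _ => ?_
  have hs : (α ++ [a]).sum = j + a := by rw [List.sum_append, hα, List.sum_singleton]
  have hw : PD.wt [a] = 3 * (1 / 2 : ℝ) ^ a := by
    unfold PD.wt
    rw [List.length_singleton, List.sum_singleton, pow_one, one_div, inv_pow]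
    rfl
  rw [hs, hw]
  by_cases h : (3 : ℤ) ∣ 2 ^ a * z - 1
  · rw [if_pos ((PD.vd_one a z).2 h), if_pos h]
    ring
  · rw [if_neg (fun h' => h ((PD.vd_one a z).1 h')), if_neg h]
    ring

/-- `EQ_split_le` with `p = n`, `m = 1` and `f = pht L M (n+1) α.sum ≥ 0`; dropping `lbar` and using
`PD.sum_Wd_one`, `PD.vd_one`, the inner sum is at most
`∑_{a ∈ Icc 1 L} [3 ∣ 2^a z - 1] 3 (1/2)^a pht L M (n+1) (α.sum + a) = DU L M n α.sum z + ∑_a (1/2)^a pht ..`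
(`α.sum ≤ L` by `mem_Rq`). By `phi_step` (`A = L`, `pht ≤ phi`): `∑_a (1/2)^a pht L M (n+1) (j+a) + [onc] ≤ pht L M n j`
for `j ≤ L`. So `EQ (n+1) (pht) ≤ EQ n (DU) + EQ n (pht) - hitU n` (`hitU` as an `EQ` of an indicator), and
`main_bound` with `D = DU/40`. -/
theorem TU_step (N : ℕ) (hN : 21 ≤ N) : ∃ K : ℝ, 0 ≤ K ∧ ∀ e n L : ℕ, 10 * N ≤ n → 10 * n ≤ L →
    ∀ M : ℝ, 0 < M → ∀ x : ℤ,
      TU N e L M (n + 1) x ≤ TU N e L M n x + K * 2 ^ e / ((n : ℝ) + 1) ^ 2 := by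
  classical
  obtain ⟨K, hK, hmain⟩ := main_bound N hN
  refine ⟨40 * K, by positivity, fun e n L hn hL M hM x => ?_⟩
  have h1 := EQ_split_le (N := N) (e := e) (p := n) (m := 1) (L := L)
    (fun α _ => pht L M (n + 1) α.sum) (fun α _ => q13_pht_nonneg L M (n + 1) α.sum) x
  have h2 : EQ N e n L (fun α z => ∑ β ∈ PD.Wd 1 L,
      if PD.vd β z ∧ lbar N e (α ++ β) then PD.wt β * pht L M (n + 1) (α ++ β).sum else 0) x ≤
      EQ N e n L (fun α z => DU L M n α.sum z +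
        ∑ a ∈ Icc 1 L, (1 / 2 : ℝ) ^ a * pht L M (n + 1) (α.sum + a)) x := by
    refine EQ_mono (fun α hα z => ?_) x
    have hαL : α.sum ≤ L := (mem_Rq.1 hα).2.1
    rw [← q13_inner L M n α.sum hαL α rfl z]
    refine sum_le_sum fun β _ => ?_
    have hw := (PD.wt_pos β).le
    have hV0 := q13_pht_nonneg L M (n + 1) (α ++ β).sum
    have hp := mul_nonneg hw hV0
    by_cases hv : PD.vd β z
    · by_cases hb : lbar N e (α ++ β)
      · rw [if_pos ⟨hv, hb⟩, if_pos hv]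
      · rw [if_neg (fun h => hb h.2), if_pos hv]
        exact hp
    · rw [if_neg (fun h => hv h.1), if_neg hv]
  have h3 : hitU N e L M n x + EQ N e n L (fun α _ =>
      ∑ a ∈ Icc 1 L, (1 / 2 : ℝ) ^ a * pht L M (n + 1) (α.sum + a)) x ≤
      EQ N e n L (fun α _ => pht L M n α.sum) x := by
    rw [q13_hit, ← EQ_add]
    refine EQ_mono (fun α hα z => ?_) x
    have hαL : α.sum ≤ L := (mem_Rq.1 hα).2.1
    have h4 := phi_step hM n α.sum L
    have h5 : ∑ a ∈ Icc 1 L, (1 / 2 : ℝ) ^ a * pht L M (n + 1) (α.sum + a) ≤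
        ∑ a ∈ Icc 1 L, (1 / 2 : ℝ) ^ a * phi M (n + 1) (α.sum + a) :=
      sum_le_sum fun a _ => mul_le_mul_of_nonneg_left (q13_pht_le L M (n + 1) (α.sum + a))
        (by positivity)
    have h6 : pht L M n α.sum = phi M n α.sum := by rw [pht, if_pos hαL]
    rw [h6]
    by_cases ho : onc M n α.sum
    · rw [if_pos ho] at h4 ⊢
      linarith
    · rw [if_neg ho] at h4 ⊢
      linarith
  rw [EQ_add] at h2
  have h7 := hmain e n L hn hL (fun j z => DU L M n j z / 40) (fun j z => DU_abs L M n j z)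
    (fun j z z' h => DU_congr L M n j h) (fun j => DU_zero L M n j)
    (fun j z h => DU_trunc L M n j z h) x
  have h8 : EQ N e n L (fun α z => DU L M n α.sum z) x =
      40 * EQ N e n L (fun α z => DU L M n α.sum z / 40) x := by
    rw [← EQ_smul]
    congr 1
    funext α z
    ring
  have h9 := (abs_le.1 h7).2
  have h10 : 40 * K * 2 ^ e / ((n : ℝ) + 1) ^ 2 = 40 * (K * 2 ^ e / ((n : ℝ) + 1) ^ 2) := by ring
  unfold TU
  rw [sum_range_succ, h10]
  linarith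

end Pool.Agent.Lib.MP_d0d59f_nt.PW

end

section

/-! Row pw-Q14: total weight on a curve. -/

namespace Pool.Agent.Lib.MP_d0d59f_nt.PW

open Finset

theorem q14_EQ_one (N : ℕ) (hN : 21 ≤ N) (e n L : ℕ) (x : ℤ) :
    EQ N e n L (fun _ _ => 1) x ≤ (11 * ((N : ℝ) + 2) * (n + 1) + 1) * 2 ^ e := by
  have h := density_bound (N := N) (e := e) (n := n) (k := 0) (L := L) hN (by simp)
    (h := fun _ => 1) (H := 1) (fun _ => zero_le_one) (fun _ => le_rfl) (fun _ _ _ => rfl) x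
  simp only [pow_zero, sum_const, card_range, one_smul, div_one, mul_one] at h
  have h5 : (1 / 5 : ℝ) ^ n ≤ 1 := pow_le_one₀ (by norm_num) (by norm_num)
  have h2 : (1 : ℝ) ≤ 2 ^ e := one_le_pow₀ (by norm_num)
  calc EQ N e n L (fun _ _ => 1) x ≤ _ := h
    _ ≤ 11 * ((N : ℝ) + 2) * 2 ^ e * (n + 1) + 2 ^ e := by linarith
    _ = (11 * ((N : ℝ) + 2) * (n + 1) + 1) * 2 ^ e := by ring

theorem q14_wt_nonneg (α : List ℕ) : 0 ≤ PD.wt α := by
  unfold PD.wt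
  positivity

theorem q14_hitU_nonneg (N e L : ℕ) (M : ℝ) (n : ℕ) (x : ℤ) : 0 ≤ hitU N e L M n x := by
  unfold hitU
  refine sum_nonneg fun α _ => ?_
  split_ifs
  · exact q14_wt_nonneg α
  · exact le_rfl

theorem q14_hitU_le (N : ℕ) (hN : 21 ≤ N) (e L : ℕ) (M : ℝ) (n : ℕ) (x : ℤ) :
    hitU N e L M n x ≤ (11 * ((N : ℝ) + 2) * (n + 1) + 1) * 2 ^ e := by
  refine le_trans ?_ (q14_EQ_one N hN e n L x)
  unfold hitU EQ
  refine sum_le_sum fun α _ => ?_
  have h0 := q14_wt_nonneg α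
  by_cases h1 : PD.vd α x
  · by_cases h2 : onc M n α.sum
    · simp [h1, h2]
    · simp [h1, h2, h0]
  · simp [h1]

theorem q14_pht_nonneg (L : ℕ) (M : ℝ) (n j : ℕ) : 0 ≤ pht L M n j := by
  unfold pht
  split_ifs
  · exact phi_nonneg M n j
  · exact le_rfl

theorem q14_pht_le (L : ℕ) (M : ℝ) (n j : ℕ) : pht L M n j ≤ 40 := by
  unfold pht
  split_ifs
  · exact phi_le M n j
  · norm_num

theorem q14_sum_succ_le (n : ℕ) :
    ∑ i ∈ range (n + 1), 1 / ((i : ℝ) + 1) ^ 2 ≤ 2 - 1 / ((n : ℝ) + 1) := by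
  induction n with
  | zero => norm_num
  | succ n ih =>
    rw [sum_range_succ]
    have hn : (0 : ℝ) < (n : ℝ) + 1 := by positivity
    have hn2 : (0 : ℝ) < (n : ℝ) + 2 := by positivity
    have key : 1 / ((n : ℝ) + 2) ^ 2 ≤ 1 / ((n : ℝ) + 1) - 1 / ((n : ℝ) + 2) := by
      have h1 : 1 / ((n : ℝ) + 1) - 1 / ((n : ℝ) + 2) = 1 / (((n : ℝ) + 1) * ((n : ℝ) + 2)) := by
        field_simp
        ring
      rw [h1]
      apply one_div_le_one_div_of_le (by positivity)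
      nlinarith
    have e1 : ((n + 1 : ℕ) : ℝ) + 1 = (n : ℝ) + 2 := by push_cast; ring
    rw [e1]
    linarith

theorem q14_sum_le (n : ℕ) : ∑ i ∈ range n, 1 / ((i : ℝ) + 1) ^ 2 ≤ 2 := by
  cases n with
  | zero => simp
  | succ n =>
    have := q14_sum_succ_le n
    have h : 0 ≤ 1 / ((n : ℝ) + 1) := by positivity
    linarith

/-- `hitU i ≤ EQ i 1 ≤ 11 (N+2) 2^e (i+1) + 1` (`density_bound`, `k = 0`, `h = H = 1`), also `EQ n (pht) ≤ 40 EQ n 1`.
So the claim holds for `n ≤ 10 N`, and `TU (10 N) ≤ K' 2^e`. For `n ≥ 10 N` sum `TU_step`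
(`∑ 1/(i+1)^2` is bounded by `2`), and `∑_{i<n} hitU i ≤ TU n`. -/
theorem hits_le (N : ℕ) (hN : 21 ≤ N) : ∃ K : ℝ, 0 ≤ K ∧ ∀ e n L : ℕ, 10 * n ≤ L → ∀ M : ℝ, 0 < M →
    ∀ x : ℤ, ∑ i ∈ range n, hitU N e L M i x ≤ K * 2 ^ e := by
  obtain ⟨K, hK0, hK⟩ := TU_step N hN
  set B : ℝ := 11 * ((N : ℝ) + 2) * (10 * N + 1) + 1 with hB
  have hB0 : 0 ≤ B := by positivity
  have hbase : ∀ e L : ℕ, ∀ M : ℝ, ∀ n : ℕ, n ≤ 10 * N → ∀ x : ℤ,
      ∑ i ∈ range n, hitU N e L M i x ≤ 10 * N * B * 2 ^ e := by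
    intro e L M n hn x
    have h2 : (0 : ℝ) < 2 ^ e := by positivity
    calc ∑ i ∈ range n, hitU N e L M i x ≤ ∑ i ∈ range (10 * N), hitU N e L M i x :=
          sum_le_sum_of_subset_of_nonneg (range_mono hn) fun i _ _ => q14_hitU_nonneg N e L M i x
      _ ≤ ∑ i ∈ range (10 * N), B * 2 ^ e := by
          refine sum_le_sum fun i hi => ?_
          refine le_trans (q14_hitU_le N hN e L M i x) ?_
          have hi' : (i : ℝ) ≤ 10 * N := by
            have := (mem_range.1 hi).le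
            exact_mod_cast this
          refine mul_le_mul_of_nonneg_right ?_ h2.le
          rw [hB]
          have : 11 * ((N : ℝ) + 2) * (i + 1) ≤ 11 * ((N : ℝ) + 2) * (10 * N + 1) :=
            mul_le_mul_of_nonneg_left (by linarith) (by positivity)
          linarith
      _ = 10 * N * B * 2 ^ e := by
          rw [sum_const, card_range, nsmul_eq_mul]
          push_cast
          ring
  have hTU0 : ∀ e L : ℕ, ∀ M : ℝ, ∀ x : ℤ,
      TU N e L M (10 * N) x ≤ (10 * N * B + 40 * B) * 2 ^ e := by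
    intro e L M x
    unfold TU
    have h1 := hbase e L M (10 * N) le_rfl x
    have h2 : EQ N e (10 * N) L (fun α _ => pht L M (10 * N) α.sum) x ≤
        40 * (B * 2 ^ e) := by
      calc EQ N e (10 * N) L (fun α _ => pht L M (10 * N) α.sum) x
          ≤ EQ N e (10 * N) L (fun _ _ => 40 * (1 : ℝ)) x := by
            refine EQ_mono (fun α _ z => ?_) x
            rw [mul_one]
            exact q14_pht_le L M (10 * N) α.sum
        _ = 40 * EQ N e (10 * N) L (fun _ _ => (1 : ℝ)) x := EQ_smul N e (10 * N) L 40 _ x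
        _ ≤ 40 * (B * 2 ^ e) := by
            refine mul_le_mul_of_nonneg_left ?_ (by norm_num)
            refine le_trans (q14_EQ_one N hN e (10 * N) L x) ?_
            rw [hB]
            push_cast
            exact le_rfl
    linarith
  have hTU : ∀ e L : ℕ, ∀ M : ℝ, 0 < M → ∀ x : ℤ, ∀ n : ℕ, 10 * N ≤ n → 10 * n ≤ L →
      TU N e L M n x ≤ (10 * N * B + 40 * B) * 2 ^ e +
        K * 2 ^ e * ∑ i ∈ range n, 1 / ((i : ℝ) + 1) ^ 2 := by
    intro e L M hM x n hn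
    induction n, hn using Nat.le_induction with
    | base =>
      intro _
      refine le_trans (hTU0 e L M x) ?_
      have : 0 ≤ K * 2 ^ e * ∑ i ∈ range (10 * N), 1 / ((i : ℝ) + 1) ^ 2 := by
        have : 0 ≤ ∑ i ∈ range (10 * N), 1 / ((i : ℝ) + 1) ^ 2 :=
          sum_nonneg fun i _ => by positivity
        positivity
      linarith
    | succ n hn ih =>
      intro hL
      have h1 := ih (by omega)
      have h2 := hK e n L hn (by omega) M hM x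
      rw [sum_range_succ, mul_add]
      have h3 : K * 2 ^ e * (1 / ((n : ℝ) + 1) ^ 2) = K * 2 ^ e / ((n : ℝ) + 1) ^ 2 := by ring
      linarith
  refine ⟨10 * N * B + 40 * B + 2 * K, by positivity, ?_⟩
  intro e n L hL M hM x
  have h2 : (0 : ℝ) < 2 ^ e := by positivity
  rcases le_total n (10 * N) with hn | hn
  · refine le_trans (hbase e L M n hn x) ?_
    have h3 : 0 ≤ (40 * B + 2 * K) * 2 ^ e := by positivity
    linarith
  · have h1 := hTU e L M hM x n hn hL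
    have h3 : ∑ i ∈ range n, hitU N e L M i x ≤ TU N e L M n x := by
      unfold TU
      have : 0 ≤ EQ N e n L (fun α _ => pht L M n α.sum) x :=
        EQ_nonneg (fun α _ z => q14_pht_nonneg L M n α.sum) x
      linarith
    have h4 : K * 2 ^ e * ∑ i ∈ range n, 1 / ((i : ℝ) + 1) ^ 2 ≤ K * 2 ^ e * 2 :=
      mul_le_mul_of_nonneg_left (q14_sum_le n) (by positivity)
    linarith

end Pool.Agent.Lib.MP_d0d59f_nt.PW

end

section

/-! Row pw-Q15: number of words below a curve. -/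

namespace Pool.Agent.Lib.MP_d0d59f_nt.PW

open Finset

open Classical in
theorem q15_len {N e i L : ℕ} {α : List ℕ} (h : α ∈ Rq N e i L) : α.length = i := by
  unfold Rq PD.Wd at h
  have h1 := (mem_filter.1 h).1
  rw [mem_biUnion] at h1
  obtain ⟨l, _, h2⟩ := h1
  exact (AA.mem_comps.1 h2).1

open Classical in
theorem q15_word {N e i L W : ℕ} {M : ℝ} (hM : 0 < M) {x : ℤ} {α : List ℕ}
    (hα : α ∈ Rq N e i L) (hvd : PD.vd α x) (hs : (2 : ℝ) ^ α.sum ≤ M * 3 ^ i)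
    (hW : M * 3 ^ i < 2 ^ W) :
    1 ≤ ∑ w ∈ range W, M / 2 ^ w *
      (if PD.vd α x ∧ onc (M / 2 ^ w) i α.sum then PD.wt α else 0) := by
  have hlen := q15_len hα
  have h2s : (0 : ℝ) < 2 ^ α.sum := by positivity
  have hr : 1 ≤ M * 3 ^ i / 2 ^ α.sum := by rwa [one_le_div h2s]
  obtain ⟨w, hw1, hw2⟩ := exists_nat_pow_near hr (by norm_num : (1 : ℝ) < 2)
  have h2w : (0 : ℝ) < 2 ^ w := by positivity
  have hwt : PD.wt α = 3 ^ i / 2 ^ α.sum := by
    unfold PD.wt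
    rw [hlen]
  have hwW : w < W := by
    have h1 : (2 : ℝ) ^ w < 2 ^ W := by
      refine lt_of_le_of_lt hw1 (lt_of_le_of_lt ?_ hW)
      have h3 : (0 : ℝ) ≤ M * 3 ^ i := by positivity
      exact div_le_self h3 (one_le_pow₀ (by norm_num))
    exact (pow_lt_pow_iff_right₀ (by norm_num : (1 : ℝ) < 2)).1 h1
  have honc : onc (M / 2 ^ w) i α.sum := by
    constructor
    · rw [div_mul_eq_mul_div, le_div_iff₀ h2w]
      rw [le_div_iff₀ h2s] at hw1
      linarith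
    · rw [div_mul_eq_mul_div, div_lt_iff₀ h2w]
      rw [div_lt_iff₀ h2s] at hw2
      calc M * 3 ^ i < 2 ^ (w + 1) * 2 ^ α.sum := hw2
        _ = 2 ^ (α.sum + 1) * 2 ^ w := by ring
  have hnn : ∀ v ∈ range W, (0 : ℝ) ≤ M / 2 ^ v *
      (if PD.vd α x ∧ onc (M / 2 ^ v) i α.sum then PD.wt α else 0) := by
    intro v _
    refine mul_nonneg (by positivity) ?_
    split_ifs
    · unfold PD.wt
      positivity
    · exact le_rfl
  refine le_trans ?_ (single_le_sum hnn (mem_range.2 hwW))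
  rw [if_pos ⟨hvd, honc⟩, hwt]
  have h4 : M / 2 ^ w * (3 ^ i / 2 ^ α.sum) = M * 3 ^ i / 2 ^ α.sum / 2 ^ w := by
    field_simp
  rw [h4, one_le_div h2w]
  exact hw1

theorem q15_geom (W : ℕ) : ∑ w ∈ range W, (1 : ℝ) / 2 ^ w ≤ 2 := by
  have h : ∀ n : ℕ, ∑ w ∈ range n, (1 : ℝ) / 2 ^ w = 2 - 2 / 2 ^ n := by
    intro n
    induction n with
    | zero => norm_num
    | succ n ih =>
      rw [sum_range_succ, ih, pow_succ]
      field_simp
      ring
  rw [h W]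
  have : (0 : ℝ) ≤ 2 / 2 ^ W := by positivity
  linarith

open Classical in
/-- Put `M_w = M/2^w`, `w < W`, where `2^W > M 3^n`. A word `α ∈ Rq N e i L` with `vd α x`, `2^α.sum ≤ M 3^i` has
`onc M_w i α.sum` for some `w < W` (`2^w ≤ M 3^i/2^α.sum < 2^(w+1)`), and `wt α = 3^i/2^α.sum ≥ 1/M_w`, so
`1 ≤ M_w * wt α`. Hence the number is at most `∑_w M_w ∑_i hitU N e L M_w i x ≤ ∑_w M_w K 2^e ≤ 2 K 2^e M`. -/
theorem count_words (N : ℕ) (hN : 21 ≤ N) : ∃ K : ℝ, 0 ≤ K ∧ ∀ e n L : ℕ, 10 * n ≤ L → ∀ M : ℝ, 0 < M →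
    ∀ x : ℤ, ((∑ i ∈ range n, ((Rq N e i L).filter
      (fun α => PD.vd α x ∧ (2 : ℝ) ^ α.sum ≤ M * 3 ^ i)).card : ℕ) : ℝ) ≤ K * 2 ^ e * M := by
  obtain ⟨K, hK0, hK⟩ := hits_le N hN
  refine ⟨2 * K, by positivity, fun e n L hL M hM x => ?_⟩
  obtain ⟨W, hW⟩ := pow_unbounded_of_one_lt (M * 3 ^ n) (by norm_num : (1 : ℝ) < 2)
  have h1 : ((∑ i ∈ range n, ((Rq N e i L).filter
      (fun α => PD.vd α x ∧ (2 : ℝ) ^ α.sum ≤ M * 3 ^ i)).card : ℕ) : ℝ) ≤
      ∑ i ∈ range n, ∑ α ∈ Rq N e i L, ∑ w ∈ range W, M / 2 ^ w *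
        (if PD.vd α x ∧ onc (M / 2 ^ w) i α.sum then PD.wt α else 0) := by
    rw [Nat.cast_sum]
    refine sum_le_sum fun i hi => ?_
    rw [card_eq_sum_ones, Nat.cast_sum]
    have hnn : ∀ α ∈ Rq N e i L, (0 : ℝ) ≤ ∑ w ∈ range W, M / 2 ^ w *
        (if PD.vd α x ∧ onc (M / 2 ^ w) i α.sum then PD.wt α else 0) := by
      intro α _
      refine sum_nonneg fun v _ => mul_nonneg (by positivity) ?_
      split_ifs
      · unfold PD.wt
        positivity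
      · exact le_rfl
    have hsub : (Rq N e i L).filter (fun α => PD.vd α x ∧ (2 : ℝ) ^ α.sum ≤ M * 3 ^ i) ⊆
        Rq N e i L := filter_subset _ _
    refine le_trans ?_ (sum_le_sum_of_subset_of_nonneg hsub (fun α hα _ => hnn α hα))
    refine sum_le_sum fun α hα => ?_
    rw [mem_filter] at hα
    rw [Nat.cast_one]
    refine q15_word hM hα.1 hα.2.1 hα.2.2 (lt_of_le_of_lt ?_ hW)
    refine mul_le_mul_of_nonneg_left ?_ hM.le
    exact pow_le_pow_right₀ (by norm_num) (le_of_lt (mem_range.1 hi))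
  have h2 : ∑ i ∈ range n, ∑ α ∈ Rq N e i L, ∑ w ∈ range W, M / 2 ^ w *
        (if PD.vd α x ∧ onc (M / 2 ^ w) i α.sum then PD.wt α else 0) =
      ∑ w ∈ range W, M / 2 ^ w * ∑ i ∈ range n, hitU N e L (M / 2 ^ w) i x := by
    have h3 : ∀ i ∈ range n, ∑ α ∈ Rq N e i L, ∑ w ∈ range W, M / 2 ^ w *
        (if PD.vd α x ∧ onc (M / 2 ^ w) i α.sum then PD.wt α else 0) =
        ∑ w ∈ range W, M / 2 ^ w * hitU N e L (M / 2 ^ w) i x := by
      intro i _
      rw [sum_comm]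
      refine sum_congr rfl fun w _ => ?_
      rw [← mul_sum]
      unfold hitU
      rfl
    rw [sum_congr rfl h3, sum_comm]
    refine sum_congr rfl fun w _ => ?_
    rw [← mul_sum]
  have h4 : ∑ w ∈ range W, M / 2 ^ w * ∑ i ∈ range n, hitU N e L (M / 2 ^ w) i x ≤
      ∑ w ∈ range W, M / 2 ^ w * (K * 2 ^ e) := by
    refine sum_le_sum fun w _ => ?_
    exact mul_le_mul_of_nonneg_left (hK e n L hL (M / 2 ^ w) (by positivity) x) (by positivity)
  have h5 : ∑ w ∈ range W, M / 2 ^ w * (K * 2 ^ e) =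
      (M * (K * 2 ^ e)) * ∑ w ∈ range W, (1 : ℝ) / 2 ^ w := by
    rw [mul_sum]
    refine sum_congr rfl fun w _ => ?_
    ring
  have h6 : (M * (K * 2 ^ e)) * ∑ w ∈ range W, (1 : ℝ) / 2 ^ w ≤ (M * (K * 2 ^ e)) * 2 :=
    mul_le_mul_of_nonneg_left (q15_geom W) (by positivity)
  calc _ ≤ _ := h1
    _ = _ := h2
    _ ≤ _ := h4
    _ = _ := h5
    _ ≤ _ := h6
    _ = 2 * K * 2 ^ e * M := by ring

end Pool.Agent.Lib.MP_d0d59f_nt.PW

end

section

/-! Row px-X22: elements whose first bad element is y (compare PW/Q25). -/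

namespace Pool.Agent.Lib.MP_d0d59f_nt.PX

open Finset
open Pool.Agent.Lib.MP_b27257_nt.BT (st ee)

/-- The odd integers `w` with `|w| ≤ X` whose orbit reaches `y` with the growth condition. -/
def flow2 (d : ℤ) (M : ℕ) (y : ℤ) (X : ℝ) : Set ℤ :=
  {w : ℤ | Odd w ∧ |(w : ℝ)| ≤ X ∧ ∃ t : ℕ, (T d)^[t] w = y ∧
    ∀ s ≤ t, Odd ((T d)^[s] w) → t - s + (M - 2) * PW.ht d y ≤ M * PW.ht d ((T d)^[s] w)}

/-- As `PW.flow_count` with `bar_of_heights2`; the constant is `16 * 2 * K`, `2^e = 16 * 2^(2 h/(M-1))`. -/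
theorem flow2_count (M : ℕ) (hM : 42 ≤ M) : ∃ K : ℝ, 0 ≤ K ∧ ∀ d : ℤ, Odd d → ¬ (3 : ℤ) ∣ d → ∀ y : ℤ, Odd y →
    64 * (M + 1) ≤ 2 ^ (PW.ht d y / 2) → ∀ X : ℝ, 0 < X →
      (flow2 d M y X).Finite ∧
      ((flow2 d M y X).ncard : ℝ) ≤ K * 2 ^ (2 * PW.ht d y / (M - 1)) * X / |(y : ℝ)| := by
  classical
  obtain ⟨K0, hK0, hcount⟩ := PW.count_words M (by omega)
  refine ⟨32 * K0, by positivity, ?_⟩
  intro d hd h3 y hy hsize X hX
  have hy0 : y ≠ 0 := by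
    rintro rfl
    exact absurd hy (by decide)
  have hyR : (0 : ℝ) < |(y : ℝ)| := abs_pos.mpr (by exact_mod_cast hy0)
  obtain ⟨e, he⟩ : ∃ e, e = 2 * PW.ht d y / (M - 1) + 4 := ⟨_, rfl⟩
  obtain ⟨R, hR⟩ : ∃ R : ℝ, R = 2 * X / |(y : ℝ)| := ⟨_, rfl⟩
  have hR0 : 0 < R := by rw [hR]; positivity
  obtain ⟨n0, hn0⟩ : ∃ n0 : ℕ, ((2 : ℝ) ^ e * R) ^ (M - 1) < 3 ^ n0 :=
    pow_unbounded_of_one_lt _ (by norm_num)
  obtain ⟨L0, hL0⟩ : ∃ L0 : ℕ, R * 3 ^ n0 < 2 ^ L0 := pow_unbounded_of_one_lt _ (by norm_num)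
  obtain ⟨L, hL⟩ : ∃ L, L = max (10 * n0) L0 := ⟨_, rfl⟩
  obtain ⟨inv, hinv⟩ := GE.exists_inv h3 n0
  obtain ⟨x, hx⟩ : ∃ x, x = y * inv := ⟨_, rfl⟩
  have hxd : (3 : ℤ) ^ n0 ∣ x * d - y := by
    have h1 : x * d ≡ y [ZMOD 3 ^ n0] := by
      have h2 := hinv.mul_left y
      rw [mul_one] at h2
      rw [hx]
      rwa [show y * inv * d = y * (d * inv) by ring]
    exact Int.modEq_iff_dvd.mp h1.symm
  have hword : ∀ w ∈ flow2 d M y X, ∃ α : List ℕ, AA.isPath d α w y ∧ PW.lbar M e α ∧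
      (2 : ℝ) ^ α.sum ≤ R * 3 ^ α.length := by
    intro w hw
    obtain ⟨hwo, hwX, t, hty, hgr⟩ := hw
    obtain ⟨α, hp, hsum⟩ := PW.exists_word hd h3 hwo hy hty
    have hb := bar_of_heights2 hd h3 hM hsize hp (by
      intro i hi z hz
      obtain ⟨z', hz', hit⟩ := PW.path_take hd hp i hi
      have hzz : z = z' := by
        have e1 := AA.isPath_identity hz
        have e2 := AA.isPath_identity hz'
        have e3 : (3 : ℤ) ^ (α.take i).length * z = 3 ^ (α.take i).length * z' := by linarith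
        exact mul_left_cancel₀ (pow_ne_zero _ three_ne_zero) e3
      rw [hzz]
      have hsplit : (α.take i).sum + (α.drop i).sum = t := by
        rw [← hsum, ← List.sum_append, List.take_append_drop]
      have h1 := hgr (α.drop i).sum (by omega) (by rw [hit]; exact AA.isPath_odd_left hz')
      rw [hit] at h1
      have h2 : t - (α.drop i).sum = (α.take i).sum := by omega
      rwa [h2] at h1)
    refine ⟨α, hp, by rw [he]; exact hb.1, ?_⟩
    have h1 := hb.2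
    have h2 : (2 : ℝ) ^ α.sum * |(y : ℝ)| ≤ 2 * 3 ^ α.length * X :=
      h1.trans (mul_le_mul_of_nonneg_left hwX (by positivity))
    rw [hR, div_mul_eq_mul_div, le_div_iff₀ hyR]
    linarith
  choose! f hf1 hf2 hf3 using hword
  have hlen : ∀ w ∈ flow2 d M y X, (f w).length < n0 := by
    intro w hw
    by_contra hc
    push Not at hc
    have h1 : 3 ^ (M * (f w).length) ≤ 2 ^ ((M - 1) * (e + (f w).sum)) := by
      have := hf2 w hw (f w).length le_rfl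
      rwa [List.take_length] at this
    have h2 : (3 : ℝ) ^ (M * (f w).length) ≤ 2 ^ ((M - 1) * (e + (f w).sum)) := by exact_mod_cast h1
    have h4 : (2 : ℝ) ^ ((M - 1) * (e + (f w).sum)) ≤
        ((2 : ℝ) ^ e * R) ^ (M - 1) * 3 ^ ((f w).length * (M - 1)) := by
      rw [mul_comm (M - 1), pow_mul, pow_add, pow_mul (3 : ℝ), ← mul_pow]
      apply pow_le_pow_left₀ (by positivity)
      calc (2 : ℝ) ^ e * 2 ^ (f w).sum ≤ 2 ^ e * (R * 3 ^ (f w).length) :=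
            mul_le_mul_of_nonneg_left (hf3 w hw) (by positivity)
        _ = 2 ^ e * R * 3 ^ (f w).length := by ring
    have h5 : M * (f w).length = (f w).length + (f w).length * (M - 1) := by
      obtain ⟨n, rfl⟩ : ∃ n, M = n + 1 := ⟨M - 1, by omega⟩
      simp only [Nat.add_sub_cancel]
      ring
    rw [h5, pow_add] at h2
    have h6 : (3 : ℝ) ^ (f w).length ≤ ((2 : ℝ) ^ e * R) ^ (M - 1) := by
      have h7 := h2.trans h4
      exact le_of_mul_le_mul_right h7 (by positivity)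
    have h8 : (3 : ℝ) ^ n0 ≤ 3 ^ (f w).length := pow_le_pow_right₀ (by norm_num) hc
    linarith
  obtain ⟨F, hF⟩ : ∃ F : Finset (List ℕ), F = (range n0).biUnion fun i => (PW.Rq M e i L).filter
      (fun α => PD.vd α x ∧ (2 : ℝ) ^ α.sum ≤ R * 3 ^ i) := ⟨_, rfl⟩
  have hmaps : Set.MapsTo f (flow2 d M y X) (F : Set (List ℕ)) := by
    intro w hw
    have hl := hlen w hw
    have hid := AA.isPath_identity (hf1 w hw)
    have hsumL : (f w).sum ≤ L := by
      have h1 : (2 : ℝ) ^ (f w).sum < 2 ^ L0 := by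
        calc (2 : ℝ) ^ (f w).sum ≤ R * 3 ^ (f w).length := hf3 w hw
          _ ≤ R * 3 ^ n0 := by
              apply mul_le_mul_of_nonneg_left _ hR0.le
              exact pow_le_pow_right₀ (by norm_num) hl.le
          _ < 2 ^ L0 := hL0
      have h2 : (f w).sum < L0 := (pow_lt_pow_iff_right₀ (by norm_num : (1 : ℝ) < 2)).mp h1
      rw [hL]
      exact h2.le.trans (le_max_right _ _)
    have hvd : PD.vd (f w) x := by
      unfold PD.vd
      have h1 : (3 : ℤ) ^ (f w).length ∣ x * d - y := (pow_dvd_pow 3 hl.le).trans hxd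
      have h2 : (3 : ℤ) ^ (f w).length ∣ d * (2 ^ (f w).sum * x - (AA.cc (f w) : ℤ)) := by
        have h5 : d * (2 ^ (f w).sum * x - (AA.cc (f w) : ℤ)) =
            2 ^ (f w).sum * (x * d - y) + 3 ^ (f w).length * w := by linarith
        rw [h5]
        exact dvd_add (h1.mul_left _) (dvd_mul_right _ _)
      have h6 : IsCoprime ((3 : ℤ) ^ (f w).length) d :=
        IsCoprime.pow_left ((Prime.coprime_iff_not_dvd Int.prime_three).2 h3)
      exact h6.dvd_of_dvd_mul_left h2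
    rw [hF, mem_coe, mem_biUnion]
    refine ⟨(f w).length, mem_range.mpr hl, ?_⟩
    rw [mem_filter]
    refine ⟨?_, hvd, hf3 w hw⟩
    rw [PW.Rq, mem_filter]
    exact ⟨PD.mem_Wd.mpr ⟨rfl, hsumL, AA.isPath_pos (hf1 w hw)⟩, hf2 w hw⟩
  have hinj : Set.InjOn f (flow2 d M y X) := by
    intro w hw w' hw' hww
    have e1 := AA.isPath_identity (hf1 w hw)
    have e2 := AA.isPath_identity (hf1 w' hw')
    rw [← hww] at e2
    have e3 : (3 : ℤ) ^ (f w).length * w = 3 ^ (f w).length * w' := by linarith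
    exact mul_left_cancel₀ (pow_ne_zero _ three_ne_zero) e3
  have hfin : (flow2 d M y X).Finite := Set.Finite.of_injOn hmaps hinj F.finite_toSet
  refine ⟨hfin, ?_⟩
  have hle : (flow2 d M y X).ncard ≤ F.card := by
    have h1 := Set.ncard_le_ncard_of_injOn f hmaps hinj F.finite_toSet
    rwa [Set.ncard_coe_finset] at h1
  have hF2 : (F.card : ℝ) ≤ K0 * 2 ^ e * R := by
    have h1 : F.card ≤ ∑ i ∈ range n0, ((PW.Rq M e i L).filter
        (fun α => PD.vd α x ∧ (2 : ℝ) ^ α.sum ≤ R * 3 ^ i)).card := by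
      rw [hF]
      exact card_biUnion_le
    have h2 : (F.card : ℝ) ≤ ((∑ i ∈ range n0, ((PW.Rq M e i L).filter
        (fun α => PD.vd α x ∧ (2 : ℝ) ^ α.sum ≤ R * 3 ^ i)).card : ℕ) : ℝ) := by exact_mod_cast h1
    refine h2.trans ?_
    have h4 := hcount e n0 L (by rw [hL]; exact le_max_left _ _) R hR0 x
    convert h4 using 6
  calc ((flow2 d M y X).ncard : ℝ) ≤ (F.card : ℝ) := by exact_mod_cast hle
    _ ≤ K0 * 2 ^ e * R := hF2
    _ = 32 * K0 * 2 ^ (2 * PW.ht d y / (M - 1)) * X / |(y : ℝ)| := by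
        rw [he, hR, pow_add]
        ring

end Pool.Agent.Lib.MP_d0d59f_nt.PX

end
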