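import Pool.Agent.Lib.MP_d0d59f_nt.PZ.K014
import Pool.Agent.Lib.MP_d0d59f_nt.PZ.K016
import Pool.Agent.Lib.MP_d0d59f_nt.PZ.K032

section

/-! Row px-X23: odd integers with high orbits (compare PW/Q26). -/

namespace Pool.Agent.Lib.MP_d0d59f_nt.PX

open Finset
open Pool.Agent.Lib.MP_b27257_nt.BT (st ee)

theorem x23_geom (q : ℝ) (hq0 : 0 < q) (hq1 : q < 1) (b H : ℕ) : ∑ h ∈ Icc b H, q ^ h ≤ (1 - q)⁻¹ * q ^ b := by
  rcases le_or_gt b H with hbH | hbH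
  · have h1 : ∑ h ∈ Icc b H, q ^ h = q ^ b * ∑ j ∈ range (H + 1 - b), q ^ j := by
      rw [Finset.mul_sum, ← Finset.Ico_succ_right_eq_Icc, Finset.sum_Ico_eq_sum_range]
      refine Finset.sum_congr rfl fun j _ => ?_
      rw [pow_add]
    rw [h1, mul_comm]
    apply mul_le_mul_of_nonneg_right _ (by positivity)
    exact (Summable.sum_le_tsum _ (fun _ _ => by positivity) (summable_geometric_of_lt_one hq0.le hq1)).trans
      (le_of_eq (tsum_geometric_of_lt_one hq0.le hq1))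
  · rw [Finset.Icc_eq_empty (by omega), Finset.sum_empty]
    have : 0 < 1 - q := by linarith only [hq1]
    positivity

theorem x23_fin {d : ℤ} (hd : d ≠ 0) (N h : ℕ) : {z : ℤ | PW.ht d z = h ∧ isBad2 d N z}.Finite := by
  apply (Set.finite_Icc (-(2 ^ (h + 1) * |d|)) (2 ^ (h + 1) * |d|)).subset
  rintro z ⟨hz, -⟩
  have h1 := PW.abs_lt_of_ht hd z
  rw [hz] at h1
  rw [abs_lt] at h1
  exact ⟨h1.1.le, h1.2.le⟩

theorem x23_ht_le (d x : ℤ) {X : ℝ} (hx : |(x : ℝ)| ≤ X) : PW.ht d x ≤ ⌊X⌋₊ := by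
  have h1 : ((x.natAbs : ℕ) : ℝ) ≤ X := by
    rw [Nat.cast_natAbs, Int.cast_abs]
    exact hx
  unfold PW.ht
  refine (Nat.log_le_self _ _).trans ((Nat.div_le_self _ _).trans ?_)
  exact Nat.le_floor h1

/-- Choice of `N`. -/
theorem x23_N (δ C1 : ℝ) (hδ : 0 < δ) (hC1 : 0 ≤ C1) : ∃ N : ℕ, 21 ≤ N ∧
    C1 / (N + 1) + 2 * Real.log 2 / (2 * N + 1) ≤ δ / 2 := by
  obtain ⟨n, hn⟩ := exists_nat_ge ((C1 + 2 * Real.log 2) / (δ / 2))
  refine ⟨n + 21, by omega, ?_⟩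
  have hl : 0 < Real.log 2 := Real.log_pos (by norm_num)
  have hn' : C1 + 2 * Real.log 2 ≤ n * (δ / 2) := by
    rwa [div_le_iff₀ (by positivity)] at hn
  have hn0 : (0 : ℝ) ≤ n := Nat.cast_nonneg n
  push_cast
  have e1 : C1 / ((n : ℝ) + 21 + 1) ≤ C1 / (n + 1) := by
    apply div_le_div_of_nonneg_left hC1 (by positivity) (by linarith only [])
  have e2 : 2 * Real.log 2 / (2 * ((n : ℝ) + 21) + 1) ≤ 2 * Real.log 2 / (n + 1) := by
    apply div_le_div_of_nonneg_left (by positivity) (by positivity) (by linarith only [])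
  have e3 : C1 / ((n : ℝ) + 1) + 2 * Real.log 2 / (n + 1) ≤ δ / 2 := by
    rw [← add_div, div_le_iff₀ (by positivity)]
    nlinarith only [hδ, hn']
  linarith only [e1, e2, e3]

/-- `δ, C1` from `bad2_count`; `N` with `C1/(N+1) + 2 log 2/(2 N + 1) ≤ δ/2`, `M = 2 (N+1)`. As `PW.odd_count`: the number
is at most `∑_{h ≥ b} C |d| exp((H - δ + C1/(N+1)) h) K 2^(2h/(M-1)) X/(2^h |d|) ≤ C' X ∑_{h ≥ b} exp(-(log 2 - H + δ/2) h)`,
so `c = (log 2 - H + δ/2)/log 2 = 1 - H/log 2 + δ/(2 log 2)`. -/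
theorem odd_count2 (hRid : RidoutProp) : ∃ (c C : ℝ) (M b0 : ℕ), 1 - Real.binEntropy rho0 / Real.log 2 < c ∧ 0 ≤ C ∧ 42 ≤ M ∧ 2 ≤ b0 ∧
    ∀ d : ℤ, Odd d → ¬ (3 : ℤ) ∣ d → ∀ b : ℕ, b0 ≤ b → ∀ X : ℝ, 0 < X →
      (Set.ncard {x : ℤ | Odd x ∧ |(x : ℝ)| ≤ X ∧
        ∀ k ≤ M * PW.ht d x, b ≤ PW.ht d ((T d)^[k] x)} : ℝ) ≤ C * X * (2 : ℝ) ^ (-(c * b)) := by
  classical
  obtain ⟨δ, C1, hδ, hC1, hbadN⟩ := bad2_count hRid
  obtain ⟨N, hN21, hNδ⟩ := x23_N δ C1 hδ hC1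
  obtain ⟨C, hC, hbad⟩ := hbadN N hN21
  obtain ⟨M, hM⟩ : ∃ M : ℕ, M = 2 * (N + 1) := ⟨_, rfl⟩
  have hM42 : 42 ≤ M := by omega
  obtain ⟨K, hK, hflow⟩ := flow2_count M hM42
  have hl : 0 < Real.log 2 := Real.log_pos (by norm_num)
  obtain ⟨E, hE⟩ : ∃ E : ℝ, E = Real.binEntropy rho0 := ⟨_, rfl⟩
  have hEl : E < Real.log 2 := hE ▸ entropy_lt
  rw [← hE] at hbad ⊢
  set γ : ℝ := Real.log 2 - E + δ / 2 with hγ
  have hγ0 : 0 < γ := by rw [hγ]; linarith only [hδ, hEl]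
  set q : ℝ := Real.exp (-γ) with hq
  have hq0 : 0 < q := Real.exp_pos _
  have hq1 : q < 1 := by rw [hq, Real.exp_lt_one_iff]; linarith only [hδ, hEl, hγ]
  have hG : 0 ≤ (1 - q)⁻¹ := by
    have : 0 < 1 - q := by linarith only [hq1]
    positivity
  refine ⟨γ / Real.log 2, K * C * (1 - q)⁻¹, M, 2 * (M + 7), ?_, by positivity, hM42, by omega, ?_⟩
  · rw [lt_div_iff₀ hl, sub_mul, div_mul_cancel₀ _ hl.ne', one_mul, hγ]
    linarith only [hδ]
  intro d hd h3 b hb X hX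
  have hd0 : d ≠ 0 := by
    rintro rfl
    exact absurd hd (by decide)
  have hdpos : (0 : ℝ) < |(d : ℝ)| := abs_pos.mpr (by exact_mod_cast hd0)
  set H : ℕ := 2 * ⌊X⌋₊ with hH
  have hYfin : {y : ℤ | Odd y ∧ isBad2 d N y ∧ PW.ht d y ∈ Icc b H}.Finite := by
    have : {y : ℤ | Odd y ∧ isBad2 d N y ∧ PW.ht d y ∈ Icc b H} ⊆
        ⋃ h ∈ Icc b H, {z : ℤ | PW.ht d z = h ∧ isBad2 d N z} := by
      rintro y ⟨-, hy2, hy3⟩
      rw [Set.mem_iUnion₂]
      exact ⟨PW.ht d y, hy3, rfl, hy2⟩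
    refine Set.Finite.subset ?_ this
    exact Set.Finite.biUnion (Finset.finite_toSet _) fun h _ => x23_fin hd0 N h
  set F : Finset ℤ := hYfin.toFinset with hF
  have hmemF : ∀ y, y ∈ F ↔ Odd y ∧ isBad2 d N y ∧ PW.ht d y ∈ Icc b H := by
    intro y
    rw [hF, Set.Finite.mem_toFinset]
    rfl
  have hgood : ∀ y ∈ F, (flow2 d M y X).Finite ∧
      ((flow2 d M y X).ncard : ℝ) ≤ K * 2 ^ (2 * PW.ht d y / (M - 1)) * X / (2 ^ PW.ht d y * |(d : ℝ)|) := by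
    intro y hy
    obtain ⟨hy1, hy2, hy3⟩ := (hmemF y).mp hy
    rw [Finset.mem_Icc] at hy3
    have hsz : 64 * (M + 1) ≤ 2 ^ (PW.ht d y / 2) := by
      have h1 : M + 7 ≤ PW.ht d y / 2 := by omega
      have h2 : 2 ^ (M + 7) ≤ 2 ^ (PW.ht d y / 2) := Nat.pow_le_pow_right (by norm_num) h1
      have h3 : M + 1 < 2 ^ (M + 1) := Nat.lt_two_pow_self
      have h4 : 2 ^ (M + 7) = 64 * 2 ^ (M + 1) := by
        rw [show M + 7 = 6 + (M + 1) by ring, pow_add]; norm_num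
      omega
    obtain ⟨f1, f2⟩ := hflow d hd h3 y hy1 hsz X hX
    refine ⟨f1, f2.trans ?_⟩
    have h4 : 2 ^ PW.ht d y * |d| ≤ |y| := (PW.le_ht_iff hd0 (by omega)).mp le_rfl
    have h5 : (2 : ℝ) ^ PW.ht d y * |(d : ℝ)| ≤ |(y : ℝ)| := by exact_mod_cast h4
    apply div_le_div_of_nonneg_left _ (by positivity) h5
    positivity
  have hsub : {x : ℤ | Odd x ∧ |(x : ℝ)| ≤ X ∧ ∀ k ≤ M * PW.ht d x, b ≤ PW.ht d ((T d)^[k] x)} ⊆
      ⋃ y ∈ F, flow2 d M y X := by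
    rintro x ⟨hx1, hx2, hx3⟩
    obtain ⟨t, y, hty, hy1, hy2, hy3, hy4⟩ := first_bad2 hd hN21 (by omega : 2 * (N + 1) ≤ M) (by omega : 2 ≤ b) hx1 hx3
    rw [Set.mem_iUnion₂]
    refine ⟨y, ?_, hx1, hx2, t, hty, hy4⟩
    rw [hmemF, Finset.mem_Icc]
    refine ⟨hy1, hy2, hy3, ?_⟩
    have h1 := hy4 0 (Nat.zero_le _) hx1
    rw [Function.iterate_zero, id_eq] at h1
    have h2 := x23_ht_le d x hx2
    have h3 : (M - 2) * PW.ht d y ≤ M * ⌊X⌋₊ := by
      have := Nat.mul_le_mul_left M h2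
      omega
    by_contra hcon
    push Not at hcon
    have h4 : (M - 2) * (2 * ⌊X⌋₊ + 1) ≤ (M - 2) * PW.ht d y := Nat.mul_le_mul_left _ (by omega)
    obtain ⟨M', rfl⟩ : ∃ M', M = M' + 2 := ⟨M - 2, by omega⟩
    have h5 : M' + 2 - 2 = M' := rfl
    rw [h5] at h3 h4
    have h6 : 40 ≤ M' := by omega
    nlinarith only [Nat.zero_le ⌊X⌋₊, hN21, hH, hM, h3, h4]
  have hcard : (Set.ncard {x : ℤ | Odd x ∧ |(x : ℝ)| ≤ X ∧
      ∀ k ≤ M * PW.ht d x, b ≤ PW.ht d ((T d)^[k] x)} : ℝ) ≤ ∑ y ∈ F, ((flow2 d M y X).ncard : ℝ) := by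
    have h1 : (⋃ y ∈ F, flow2 d M y X).Finite :=
      Set.Finite.biUnion (Finset.finite_toSet _) fun y hy => (hgood y hy).1
    have h2 := (Set.ncard_le_ncard hsub h1).trans (Finset.set_ncard_biUnion_le F fun y => flow2 d M y X)
    exact_mod_cast h2
  refine hcard.trans ?_
  have hmaps : ∀ y ∈ F, PW.ht d y ∈ Icc b H := fun y hy => ((hmemF y).mp hy).2.2
  rw [← Finset.sum_fiberwise_of_maps_to hmaps]
  have hfib : ∀ h ∈ Icc b H, ∑ y ∈ F with PW.ht d y = h, ((flow2 d M y X).ncard : ℝ) ≤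
      K * C * X * q ^ h := by
    intro h hh
    rw [Finset.mem_Icc] at hh
    have h1 : ∑ y ∈ F with PW.ht d y = h, ((flow2 d M y X).ncard : ℝ) ≤
        ∑ y ∈ F with PW.ht d y = h, K * 2 ^ (2 * h / (M - 1)) * X / (2 ^ h * |(d : ℝ)|) := by
      refine Finset.sum_le_sum fun y hy => ?_
      obtain ⟨hy1, hy2⟩ := Finset.mem_filter.mp hy
      have := (hgood y hy1).2
      rwa [hy2] at this
    refine h1.trans ?_
    rw [Finset.sum_const, nsmul_eq_mul]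
    have h2 : (((F.filter fun y => PW.ht d y = h).card : ℕ) : ℝ) ≤
        C * |(d : ℝ)| * Real.exp ((E - δ + C1 / (N + 1)) * h) := by
      refine le_trans ?_ (hbad d hd h)
      rw [← Set.ncard_coe_finset]
      have h3 : ((F.filter fun y => PW.ht d y = h : Finset ℤ) : Set ℤ) ⊆ {z : ℤ | PW.ht d z = h ∧ isBad2 d N z} := by
        intro y hy
        obtain ⟨hy1, hy2⟩ := Finset.mem_filter.mp (Finset.mem_coe.mp hy)
        exact ⟨hy2, ((hmemF y).mp hy1).2.1⟩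
      exact_mod_cast Set.ncard_le_ncard h3 (x23_fin hd0 N h)
    have h5 : 0 ≤ K * 2 ^ (2 * h / (M - 1)) * X / (2 ^ h * |(d : ℝ)|) := by positivity
    refine (mul_le_mul_of_nonneg_right h2 h5).trans ?_
    have h6 : C * |(d : ℝ)| * Real.exp ((E - δ + C1 / (N + 1)) * h) *
        (K * 2 ^ (2 * h / (M - 1)) * X / (2 ^ h * |(d : ℝ)|)) =
        K * C * X * (Real.exp ((E - δ + C1 / (N + 1)) * h) * 2 ^ (2 * h / (M - 1)) / 2 ^ h) := by
      field_simp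
    rw [h6]
    apply mul_le_mul_of_nonneg_left _ (by positivity)
    have h7 : (2 : ℝ) ^ (2 * h / (M - 1)) ≤ Real.exp (2 * Real.log 2 / (2 * N + 1) * h) := by
      have e1 : ((2 * h / (M - 1) : ℕ) : ℝ) ≤ 2 * h / (2 * N + 1) := by
        have e2 : M - 1 = 2 * N + 1 := by omega
        rw [e2]
        have := @Nat.cast_div_le ℝ _ _ _ (2 * h) (2 * N + 1)
        push_cast at this
        exact this
      calc (2 : ℝ) ^ (2 * h / (M - 1)) = Real.exp (Real.log 2 * ((2 * h / (M - 1) : ℕ) : ℝ)) := by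
            rw [mul_comm (Real.log 2), Real.exp_nat_mul, Real.exp_log (by norm_num)]
        _ ≤ _ := by
            apply Real.exp_le_exp.mpr
            calc Real.log 2 * ((2 * h / (M - 1) : ℕ) : ℝ) ≤ Real.log 2 * (2 * h / (2 * N + 1)) :=
                  mul_le_mul_of_nonneg_left e1 hl.le
              _ = _ := by ring
    have h8 : (2 : ℝ) ^ h = Real.exp (Real.log 2 * h) := by
      rw [mul_comm (Real.log 2), Real.exp_nat_mul, Real.exp_log (by norm_num)]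
    rw [h8, div_eq_mul_inv, ← Real.exp_neg]
    calc Real.exp ((E - δ + C1 / (N + 1)) * h) * 2 ^ (2 * h / (M - 1)) * Real.exp (-(Real.log 2 * h))
        ≤ Real.exp ((E - δ + C1 / (N + 1)) * h) * Real.exp (2 * Real.log 2 / (2 * N + 1) * h) *
          Real.exp (-(Real.log 2 * h)) := by gcongr
      _ = Real.exp (((E - δ + C1 / (N + 1)) + 2 * Real.log 2 / (2 * N + 1) - Real.log 2) * h) := by
          rw [← Real.exp_add, ← Real.exp_add]; congr 1; ring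
      _ ≤ Real.exp (-γ * h) := by
          apply Real.exp_le_exp.mpr
          apply mul_le_mul_of_nonneg_right _ (Nat.cast_nonneg h)
          rw [hγ]; linarith only [hNδ]
      _ = q ^ h := by rw [hq, ← Real.exp_nat_mul, mul_comm]
  refine (Finset.sum_le_sum hfib).trans ?_
  rw [← Finset.mul_sum]
  have hg := x23_geom q hq0 hq1 b H
  have h7 : K * C * X * ∑ h ∈ Icc b H, q ^ h ≤ K * C * X * ((1 - q)⁻¹ * q ^ b) :=
    mul_le_mul_of_nonneg_left hg (by positivity)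
  refine h7.trans (le_of_eq ?_)
  have h8 : q ^ b = (2 : ℝ) ^ (-(γ / Real.log 2 * b)) := by
    rw [hq, ← Real.exp_nat_mul, Real.rpow_def_of_pos (by norm_num)]
    congr 1
    field_simp
  rw [← h8]
  ring

end Pool.Agent.Lib.MP_d0d59f_nt.PX

end

section

/-! Row px-X24: all integers with high orbits (compare PW/Q27a, Q27b). -/

namespace Pool.Agent.Lib.MP_d0d59f_nt.PX

open Finset
open Pool.Agent.Lib.MP_b27257_nt.BT (st ee)
open PW (ht odd_part abs_lt_of_ht ht_zero_of_lt ht_pow_mul le_ht_iff)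

theorem x24a_biUnion (n : ℕ) (f : ℕ → Set ℤ) :
    (⋃ s ∈ Finset.range n, f s).ncard ≤ ∑ s ∈ Finset.range n, (f s).ncard := by
  induction n with
  | zero => simp
  | succ n ih =>
    rw [Finset.sum_range_succ]
    have e : (⋃ s ∈ Finset.range (n + 1), f s) = (⋃ s ∈ Finset.range n, f s) ∪ f n := by
      ext x
      simp only [Set.mem_iUnion, Finset.mem_range, exists_prop, Set.mem_union]
      constructor
      · rintro ⟨s, hs, hx⟩
        rcases Nat.lt_succ_iff_lt_or_eq.1 hs with h | h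
        · exact Or.inl ⟨s, h, hx⟩
        · exact Or.inr (h ▸ hx)
      · rintro (⟨s, hs, hx⟩ | hx)
        · exact ⟨s, by omega, hx⟩
        · exact ⟨n, by omega, hx⟩
    rw [e]
    exact (Set.ncard_union_le _ _).trans (Nat.add_le_add_right ih _)

theorem x24a_finite (X : ℝ) (P : ℤ → Prop) : {x : ℤ | |(x : ℝ)| ≤ X ∧ P x}.Finite := by
  refine (Set.finite_Icc (-⌊X⌋) ⌊X⌋).subset ?_
  rintro x ⟨hx, -⟩
  rw [abs_le] at hx
  constructor
  · have : -x ≤ ⌊X⌋ := Int.le_floor.2 (by push_cast; linarith only [hx])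
    linarith only [this]
  · exact Int.le_floor.2 hx.2

theorem x24b_sub {X : ℝ} {A : Set ℤ} (hA : ∀ x ∈ A, |(x : ℝ)| ≤ X) :
    A ⊆ (↑(Finset.Icc (-⌊X⌋) ⌊X⌋) : Set ℤ) := by
  intro x hx
  have h := abs_le.1 (hA x hx)
  rw [Finset.coe_Icc]
  refine ⟨?_, Int.le_floor.2 h.2⟩
  have h2 : ((-x : ℤ) : ℝ) ≤ X := by push_cast; linarith only [h.1, h]
  have := Int.le_floor.2 h2
  omega

theorem x24b_ncard {X : ℝ} (hX : 0 ≤ X) {A : Set ℤ} (hA : ∀ x ∈ A, |(x : ℝ)| ≤ X) :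
    (Set.ncard A : ℝ) ≤ 2 * X + 1 := by
  have h1 : Set.ncard A ≤ Set.ncard (↑(Finset.Icc (-⌊X⌋) ⌊X⌋) : Set ℤ) :=
    Set.ncard_le_ncard (x24b_sub hA) (Finset.finite_toSet _)
  rw [Set.ncard_coe_finset, Int.card_Icc] at h1
  have h0 : 0 ≤ ⌊X⌋ := Int.floor_nonneg.2 hX
  have h2 : ((Set.ncard A : ℕ) : ℤ) ≤ 2 * ⌊X⌋ + 1 := by
    have : (((⌊X⌋ + 1 - -⌊X⌋).toNat : ℕ) : ℤ) = ⌊X⌋ + 1 - -⌊X⌋ := Int.toNat_of_nonneg (by omega)
    have h3 : ((Set.ncard A : ℕ) : ℤ) ≤ (((⌊X⌋ + 1 - -⌊X⌋).toNat : ℕ) : ℤ) := by exact_mod_cast h1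
    omega
  have h3 : ((Set.ncard A : ℕ) : ℝ) ≤ 2 * (⌊X⌋ : ℝ) + 1 := by exact_mod_cast h2
  have h4 := Int.floor_le X
  linarith only [h3, h4]

/-- As `PW.all_count` (with `M` in place of `10^6`). -/
theorem all_count2 (hRid : RidoutProp) : ∃ (c C : ℝ) (M b0 : ℕ), 1 - Real.binEntropy rho0 / Real.log 2 < c ∧ 0 ≤ C ∧ 42 ≤ M ∧ 2 ≤ b0 ∧
    ∀ d : ℤ, Odd d → ¬ (3 : ℤ) ∣ d → ∀ b : ℕ, b0 ≤ b → ∀ X : ℝ, 0 < X →
      (Set.ncard {x : ℤ | |(x : ℝ)| ≤ X ∧
        ∀ k ≤ M * PW.ht d x, b ≤ PW.ht d ((T d)^[k] x)} : ℝ) ≤ C * X * (2 : ℝ) ^ (-(c * b)) := by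
  obtain ⟨c, C, M, b0, hc, hC, hM, hb0, h⟩ := odd_count2 hRid
  refine ⟨c, 2 * C, M, b0, hc, by positivity, hM, hb0, fun d hd h3 b hb X hX => ?_⟩
  have hd0 : d ≠ 0 := by
    rintro rfl
    simp at hd
  have hdpos : 0 < |d| := abs_pos.2 hd0
  set S : ℝ → Set ℤ := fun Y => {x : ℤ | Odd x ∧ |(x : ℝ)| ≤ Y ∧
        ∀ k ≤ M * ht d x, b ≤ ht d ((T d)^[k] x)} with hS
  obtain ⟨n, hn⟩ : ∃ n : ℕ, X < 2 ^ n := pow_unbounded_of_one_lt X (by norm_num)
  have hsub : {x : ℤ | |(x : ℝ)| ≤ X ∧ ∀ k ≤ M * ht d x, b ≤ ht d ((T d)^[k] x)} ⊆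
      ⋃ s ∈ Finset.range n, (fun x' : ℤ => 2 ^ s * x') '' S (X / 2 ^ s) := by
    rintro x ⟨hxX, hall⟩
    have hb2 : 2 ≤ b := hb0.trans hb
    have hx0 : x ≠ 0 := by
      rintro rfl
      have h1 := hall 0 (Nat.zero_le _)
      have h2 : ht d 0 = 0 := by
        unfold ht
        simp
      simp only [Function.iterate_zero, id_eq] at h1
      omega
    obtain ⟨v, w, hw, hz, hit⟩ := odd_part d hx0
    have hxh : b ≤ ht d x := hall 0 (Nat.zero_le _)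
    -- `v ≤ ht d x`
    have hv : v ≤ ht d x := by
      by_contra hcon
      push Not at hcon
      have h1 := hall (ht d x + 1) (by nlinarith only [hM, hb0, hb, hxh])
      rw [hit _ hcon] at h1
      have h2 : |2 ^ (v - (ht d x + 1)) * w| < |d| := by
        have h3 := abs_lt_of_ht hd0 x
        have h4 : |x| = 2 ^ (ht d x + 1) * |2 ^ (v - (ht d x + 1)) * w| := by
          conv_lhs => rw [hz]
          have h5 : (2 : ℤ) ^ v = 2 ^ (ht d x + 1) * 2 ^ (v - (ht d x + 1)) := by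
            rw [← pow_add]
            congr 1
            omega
          rw [h5, mul_assoc, abs_mul]
          congr 1
          exact abs_of_pos (by positivity)
        rw [h4] at h3
        exact lt_of_mul_lt_mul_left h3 (by positivity)
      rw [ht_zero_of_lt h2] at h1
      omega
    have hTv : (T d)^[v] x = w := by
      rw [hit v le_rfl]
      simp
    have hwb : b ≤ ht d w := by
      have h1 := hall v (by nlinarith only [hM, hv, hb0, hb, hxh])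
      rwa [hTv] at h1
    have hdw : |d| ≤ |w| := by
      have h1 := (le_ht_iff hd0 (by omega : 1 ≤ b)).1 hwb
      have h2 : (1 : ℤ) ≤ 2 ^ b := one_le_pow₀ (by norm_num)
      nlinarith only [h1, h2, hdpos]
    have hht : v + ht d w ≤ ht d x := by
      conv_rhs => rw [hz]
      exact ht_pow_mul hd0 hdw v
    have hw0 : (1 : ℝ) ≤ |(w : ℝ)| := by
      have h1 : w ≠ 0 := by
        rintro rfl
        simp at hw
      have h2 : 1 ≤ |w| := Int.one_le_abs h1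
      exact_mod_cast h2
    have hxr : |(x : ℝ)| = 2 ^ v * |(w : ℝ)| := by
      rw [hz]
      push_cast
      rw [abs_mul]
      congr 1
      exact abs_of_pos (by positivity)
    have hvn : v < n := by
      have h1 : (2 : ℝ) ^ v < 2 ^ n := by
        calc (2 : ℝ) ^ v = 2 ^ v * 1 := (mul_one _).symm
          _ ≤ 2 ^ v * |(w : ℝ)| := by gcongr
          _ = |(x : ℝ)| := hxr.symm
          _ ≤ X := hxX
          _ < 2 ^ n := hn
      exact (pow_lt_pow_iff_right₀ (by norm_num)).1 h1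
    simp only [Set.mem_iUnion, Finset.mem_range, exists_prop, Set.mem_image]
    refine ⟨v, hvn, w, ⟨hw, ?_, fun k hk => ?_⟩, hz.symm⟩
    · rw [le_div_iff₀ (by positivity), mul_comm, ← hxr]
      exact hxX
    · have h1 := hall (k + v) (by nlinarith only [hk, hht, hM])
      rwa [Function.iterate_add_apply, hTv] at h1
  have hfin : ∀ Y, (S Y).Finite := by
    intro Y
    refine (x24a_finite Y (fun x => Odd x ∧
      ∀ k ≤ M * ht d x, b ≤ ht d ((T d)^[k] x))).subset ?_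
    rintro x ⟨h1, h2, h3⟩
    exact ⟨h2, h1, h3⟩
  have hfinU : (⋃ s ∈ Finset.range n, (fun x' : ℤ => 2 ^ s * x') '' S (X / 2 ^ s)).Finite := by
    refine Set.Finite.biUnion (Finset.finite_toSet _) fun s _ => (hfin _).image _
  have h1 := (Set.ncard_le_ncard hsub hfinU).trans (x24a_biUnion n _)
  have h2 : (∑ s ∈ Finset.range n, ((fun x' : ℤ => 2 ^ s * x') '' S (X / 2 ^ s)).ncard : ℕ) ≤
      ∑ s ∈ Finset.range n, (S (X / 2 ^ s)).ncard :=
    Finset.sum_le_sum fun s _ => Set.ncard_image_le (hfin _)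
  have h4 : ((∑ s ∈ Finset.range n, (S (X / 2 ^ s)).ncard : ℕ) : ℝ) ≤
      ∑ s ∈ Finset.range n, C * (X / 2 ^ s) * (2 : ℝ) ^ (-(c * b)) := by
    push_cast
    exact Finset.sum_le_sum fun s _ => h d hd h3 b hb (X / 2 ^ s) (by positivity)
  have h5 : ∑ s ∈ Finset.range n, C * (X / 2 ^ s) * (2 : ℝ) ^ (-(c * b)) =
      C * X * (2 : ℝ) ^ (-(c * b)) * ∑ s ∈ Finset.range n, (1 / 2 : ℝ) ^ s := by
    rw [Finset.mul_sum]
    refine Finset.sum_congr rfl fun s _ => ?_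
    rw [one_div, inv_pow]
    ring
  have h6 : ∑ s ∈ Finset.range n, (1 / 2 : ℝ) ^ s ≤ 2 := by
    have := geom_sum_eq (by norm_num : (1 / 2 : ℝ) ≠ 1) n
    rw [this]
    have h7 : (0 : ℝ) ≤ (1 / 2) ^ n := by positivity
    have h8 : ((1 / 2 : ℝ) ^ n - 1) / (1 / 2 - 1) = 2 - 2 * (1 / 2) ^ n := by
      field_simp
      ring
    rw [h8]
    linarith only [h7]
  have h9 : (0 : ℝ) ≤ C * X * (2 : ℝ) ^ (-(c * b)) := by positivity
  calc (Set.ncard {x : ℤ | |(x : ℝ)| ≤ X ∧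
        ∀ k ≤ M * ht d x, b ≤ ht d ((T d)^[k] x)} : ℝ)
      ≤ ((∑ s ∈ Finset.range n, (S (X / 2 ^ s)).ncard : ℕ) : ℝ) := by
        exact_mod_cast h1.trans h2
    _ ≤ C * X * (2 : ℝ) ^ (-(c * b)) * ∑ s ∈ Finset.range n, (1 / 2 : ℝ) ^ s := by
        rw [← h5]; exact h4
    _ ≤ C * X * (2 : ℝ) ^ (-(c * b)) * 2 := by gcongr
    _ = 2 * C * X * (2 : ℝ) ^ (-(c * b)) := by ring

/-- **Power saving beyond the stopping time exponent.** As `PW.power_saving`. -/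
theorem power_saving2 (hRid : RidoutProp) : ∃ c : ℝ, 1 - Real.binEntropy (Real.log 2 / Real.log 3) / Real.log 2 < c ∧
    ∃ C : ℝ, 0 < C ∧ ∀ d : ℤ, Odd d → ¬ (3 : ℤ) ∣ d → ∀ B X : ℝ, 2 ≤ B → |(d : ℝ)| ≤ X →
      (Set.ncard {x : ℤ | |(x : ℝ)| ≤ X ∧ ∀ k : ℕ, (k : ℝ) ≤ C * Real.log (X / |(d : ℝ)|) →
        B * |(d : ℝ)| < |(((T d)^[k] x : ℤ) : ℝ)|} : ℝ) ≤ C * X / B ^ c := by
  obtain ⟨c, C1, M, b0, hc, hC1, hM, hb0, hall⟩ := all_count2 hRid
  have hl2 : 0 < Real.log 2 := Real.log_pos (by norm_num)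
  have hc0 : 0 < c := by
    have h1 : Real.binEntropy rho0 / Real.log 2 ≤ 1 := by
      rw [div_le_one hl2]
      exact Real.binEntropy_le_log_two
    linarith only [hc, h1]
  refine ⟨c, by simpa only [rho0] using hc, ?_⟩
  have h2c : (0 : ℝ) < (2 : ℝ) ^ c := Real.rpow_pos_of_pos (by norm_num) _
  have hpb : (0 : ℝ) < ((2 : ℝ) ^ b0) ^ c := Real.rpow_pos_of_pos (by positivity) _
  have hMr : (0 : ℝ) ≤ (M : ℝ) := Nat.cast_nonneg M
  set C : ℝ := (M : ℝ) / Real.log 2 + 2 ^ c * C1 + 3 * ((2 : ℝ) ^ b0) ^ c with hC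
  have hq : 0 ≤ (M : ℝ) / Real.log 2 := div_nonneg hMr hl2.le
  have hp : (0 : ℝ) < 3 * ((2 : ℝ) ^ b0) ^ c := by positivity
  have hr : (0 : ℝ) ≤ 2 ^ c * C1 := by positivity
  refine ⟨C, by linarith only [hpb, hq, hr], ?_⟩
  intro d hd h3 B X hB hdX
  have hd0 : d ≠ 0 := by rintro rfl; simp at hd
  have hd1 : (1 : ℝ) ≤ |(d : ℝ)| := by
    have : 1 ≤ |d| := Int.one_le_abs hd0
    have h : ((1 : ℤ) : ℝ) ≤ ((|d| : ℤ) : ℝ) := by exact_mod_cast this
    rw [Int.cast_abs] at h; simpa using h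
  have hdpos : (0 : ℝ) < |(d : ℝ)| := by linarith only [hd1]
  have hX1 : 1 ≤ X := hd1.trans hdX
  have hX0 : 0 < X := by linarith only [hdX, hd1]
  obtain ⟨b, hb1, hb2⟩ := exists_nat_pow_near (show (1 : ℝ) ≤ B by linarith only [hB]) (one_lt_two (α := ℝ))
  have hbpos : 1 ≤ b := by
    rcases Nat.eq_zero_or_pos b with h | h
    · rw [h] at hb2; norm_num at hb2; linarith only [hB, hb2]
    · exact h
  have hB0 : 0 < B := by linarith only [hB]
  have hBp : 0 < B ^ c := Real.rpow_pos_of_pos hB0 _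
  have hlog : 0 ≤ Real.log (X / |(d : ℝ)|) := Real.log_nonneg ((one_le_div hdpos).2 hdX)
  rcases le_or_gt b0 b with hcase | hcase
  · -- large b
    have hsub : {x : ℤ | |(x : ℝ)| ≤ X ∧ ∀ k : ℕ, (k : ℝ) ≤ C * Real.log (X / |(d : ℝ)|) →
        B * |(d : ℝ)| < |(((T d)^[k] x : ℤ) : ℝ)|} ⊆ {x : ℤ | |(x : ℝ)| ≤ X ∧
        ∀ k ≤ M * ht d x, b ≤ ht d ((T d)^[k] x)} := by
      rintro x ⟨hx1, hx2⟩
      refine ⟨hx1, fun k hk => ?_⟩
      have hpow : (2 : ℝ) ^ ht d x ≤ X / |(d : ℝ)| := by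
        rcases Nat.eq_zero_or_pos (ht d x) with h | h
        · rw [h, pow_zero]; exact (one_le_div hdpos).2 hdX
        · have h5 := (le_ht_iff (d := d) (z := x) hd0 h).1 le_rfl
          rw [le_div_iff₀ hdpos]
          have h6 : ((2 ^ ht d x * |d| : ℤ) : ℝ) ≤ ((|x| : ℤ) : ℝ) := by exact_mod_cast h5
          push_cast at h6
          linarith only [hx1, h6]
      have hh : (ht d x : ℝ) * Real.log 2 ≤ Real.log (X / |(d : ℝ)|) := by
        rw [← Real.log_pow]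
        exact Real.log_le_log (by positivity) hpow
      have hk' : (k : ℝ) ≤ (M : ℝ) * (ht d x : ℝ) := by exact_mod_cast hk
      have hk2 : (k : ℝ) ≤ C * Real.log (X / |(d : ℝ)|) := by
        have e1 : (M : ℝ) * (ht d x : ℝ) ≤ (M : ℝ) / Real.log 2 * Real.log (X / |(d : ℝ)|) := by
          rw [div_mul_eq_mul_div, le_div_iff₀ hl2]
          nlinarith only [hh]
        have e2 : (M : ℝ) / Real.log 2 * Real.log (X / |(d : ℝ)|) ≤ C * Real.log (X / |(d : ℝ)|) :=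
          mul_le_mul_of_nonneg_right (by linarith only [hpb, hr]) hlog
        linarith only [hk', e1, e2]
      have h7 := hx2 k hk2
      rw [le_ht_iff hd0 hbpos]
      have h8 : (2 : ℝ) ^ b * |(d : ℝ)| ≤ |(((T d)^[k] x : ℤ) : ℝ)| :=
        (mul_le_mul_of_nonneg_right hb1 hdpos.le).trans h7.le
      have h9 : ((2 ^ b * |d| : ℤ) : ℝ) ≤ ((|(T d)^[k] x| : ℤ) : ℝ) := by
        push_cast; exact h8
      exact_mod_cast h9
    have hfin : {x : ℤ | |(x : ℝ)| ≤ X ∧ ∀ k ≤ M * ht d x, b ≤ ht d ((T d)^[k] x)}.Finite :=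
      (Finset.finite_toSet _).subset (x24b_sub (X := X) fun x hx => hx.1)
    have h1 : (Set.ncard {x : ℤ | |(x : ℝ)| ≤ X ∧ ∀ k : ℕ, (k : ℝ) ≤ C * Real.log (X / |(d : ℝ)|) →
        B * |(d : ℝ)| < |(((T d)^[k] x : ℤ) : ℝ)|} : ℝ) ≤ (Set.ncard {x : ℤ | |(x : ℝ)| ≤ X ∧
        ∀ k ≤ M * ht d x, b ≤ ht d ((T d)^[k] x)} : ℝ) := by
      exact_mod_cast Set.ncard_le_ncard hsub hfin
    have h2 := hall d hd h3 b hcase X hX0
    have h4 : (2 : ℝ) ^ (-(c * b)) ≤ 2 ^ c / B ^ c := by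
      rw [le_div_iff₀ hBp]
      have h5 : B ^ c ≤ (2 : ℝ) ^ (c * b + c) := by
        calc B ^ c ≤ ((2 : ℝ) ^ (b + 1)) ^ c :=
              Real.rpow_le_rpow hB0.le hb2.le hc0.le
          _ = (2 : ℝ) ^ (c * b + c) := by
              rw [← Real.rpow_natCast, ← Real.rpow_mul (by norm_num)]
              congr 1; push_cast; ring
      calc (2 : ℝ) ^ (-(c * b)) * B ^ c
          ≤ (2 : ℝ) ^ (-(c * b)) * (2 : ℝ) ^ (c * b + c) :=
            mul_le_mul_of_nonneg_left h5 (by positivity)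
        _ = (2 : ℝ) ^ c := by
            rw [← Real.rpow_add (by norm_num)]
            congr 1; ring
    calc _ ≤ C1 * X * (2 : ℝ) ^ (-(c * b)) := h1.trans h2
      _ ≤ C1 * X * (2 ^ c / B ^ c) := mul_le_mul_of_nonneg_left h4 (by positivity)
      _ = 2 ^ c * C1 * X / B ^ c := by ring
      _ ≤ C * X / B ^ c := by
          apply div_le_div_of_nonneg_right _ hBp.le
          exact mul_le_mul_of_nonneg_right (by linarith only [hpb, hq]) hX0.le
  · -- small b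
    have h1 := x24b_ncard hX0.le (A := {x : ℤ | |(x : ℝ)| ≤ X ∧ ∀ k : ℕ,
      (k : ℝ) ≤ C * Real.log (X / |(d : ℝ)|) → B * |(d : ℝ)| < |(((T d)^[k] x : ℤ) : ℝ)|})
      fun x hx => hx.1
    rw [le_div_iff₀ hBp]
    have h2 : B ^ c ≤ ((2 : ℝ) ^ b0) ^ c := by
      apply Real.rpow_le_rpow hB0.le _ hc0.le
      exact hb2.le.trans (pow_le_pow_right₀ (by norm_num) hcase)
    calc _ ≤ (2 * X + 1) * B ^ c := mul_le_mul_of_nonneg_right h1 hBp.le
      _ ≤ (3 * X) * ((2 : ℝ) ^ b0) ^ c := mul_le_mul (by linarith only [hdX, hd1]) h2 hBp.le (by positivity)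
      _ = (3 * ((2 : ℝ) ^ b0) ^ c) * X := by ring
      _ ≤ C * X := mul_le_mul_of_nonneg_right (by linarith only [hq, hr]) hX0.le

end Pool.Agent.Lib.MP_d0d59f_nt.PX

end
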