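import Pool.Agent.Lib.MP_d0d59f_nt.PZ.K030
import Pool.Agent.Lib.MP_d0d59f_nt.PZ.K034

/-! Roth's lemma. -/

open MvPolynomial

namespace SB

theorem roth_sum_aux (s d : ℕ) (e : ℝ) (hs : s ≤ d + 1) (hd : 1 ≤ d) (he : 0 < e)
    (he1 : e ≤ 1) : (s : ℝ) * e ^ 2 / 8 ≤ ∑ j : Fin s, max 0 (e - ((j : ℕ) : ℝ) / d) := by
  rw [Fin.sum_univ_eq_sum_range (fun j => max 0 (e - (j : ℝ) / d)) s]
  have hdR : (1 : ℝ) ≤ d := by exact_mod_cast hd
  have hs0 : (0 : ℝ) ≤ s := Nat.cast_nonneg s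
  have hkey : ∀ j : ℕ, (j : ℝ) ≤ e * d / 2 → e / 2 ≤ max 0 (e - (j : ℝ) / d) := by
    intro j hj
    apply le_max_of_le_right
    have : (j : ℝ) / d ≤ e / 2 := by
      rw [div_le_iff₀ (by linarith only [hdR])]; linarith only [hj]
    linarith only [this]
  by_cases h : (s : ℝ) - 1 ≤ e * d / 2
  · calc (s : ℝ) * e ^ 2 / 8 ≤ ∑ j ∈ Finset.range s, e / 2 := by
          rw [Finset.sum_const, Finset.card_range, nsmul_eq_mul]
          have : (s : ℝ) * e ^ 2 ≤ s * e := by
            apply mul_le_mul_of_nonneg_left _ hs0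
            nlinarith only [he, he1]
          have h2 : 0 ≤ (s : ℝ) * e := by positivity
          linarith only [this, h2]
      _ ≤ _ := by
          apply Finset.sum_le_sum
          intro j hj
          rw [Finset.mem_range] at hj
          apply hkey
          have : (j : ℝ) + 1 ≤ s := by exact_mod_cast hj
          linarith only [h, this]
  · push Not at h
    set m := ⌊e * d / 2⌋₊ with hmdef
    have hm : (m : ℝ) ≤ e * d / 2 := Nat.floor_le (by positivity)
    have hm' : e * d / 2 < m + 1 := Nat.lt_floor_add_one _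
    have hms : m + 1 ≤ s := by
      have : (m : ℝ) + 1 < s := by linarith only [h, hm]
      exact_mod_cast this.le
    calc (s : ℝ) * e ^ 2 / 8 ≤ ∑ j ∈ Finset.range (m + 1), e / 2 := by
          rw [Finset.sum_const, Finset.card_range, nsmul_eq_mul]
          push_cast
          have h2 : (s : ℝ) ≤ 2 * d := by
            have : s ≤ 2 * d := by omega
            exact_mod_cast this
          have h3 : (s : ℝ) * e ^ 2 ≤ 2 * d * e ^ 2 := by
            apply mul_le_mul_of_nonneg_right h2 (by positivity)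
          have h4 : e * d / 2 * (e / 2) ≤ (m + 1) * (e / 2) :=
            mul_le_mul_of_nonneg_right hm'.le (by linarith only [he])
          nlinarith only [h3, h4]
      _ ≤ ∑ j ∈ Finset.range (m + 1), max 0 (e - (j : ℝ) / d) := by
          apply Finset.sum_le_sum
          intro j hj
          rw [Finset.mem_range] at hj
          apply hkey
          have : (j : ℝ) ≤ m := by exact_mod_cast (by omega : j ≤ m)
          linarith only [hm, this]
      _ ≤ _ := Finset.sum_le_sum_of_subset_of_nonneg (Finset.range_mono hms)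
          (fun _ _ _ => le_max_left _ _)

theorem roth_wn_det {σ : Type*} {s : ℕ} (M : Matrix (Fin s) (Fin s) (MvPolynomial σ ℤ)) (B : ℝ)
    (hB : ∀ i j, wn (fun x : ℤ => |(x : ℝ)|) (fun _ => 1) (M i j) ≤ B) :
    wn (fun x : ℤ => |(x : ℝ)|) (fun _ => 1) M.det ≤ (s.factorial : ℝ) * B ^ s := by
  rw [Matrix.det_apply']
  have hw : ∀ s : σ, (0 : ℝ) ≤ (fun _ => 1) s := fun _ => zero_le_one
  refine (wn_sum_le isSize_abs_int hw _ _).trans ?_
  have h1 : ∀ p : Equiv.Perm (Fin s), wn (fun x : ℤ => |(x : ℝ)|) (fun _ : σ => 1)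
      (((Equiv.Perm.sign p : ℤ) : MvPolynomial σ ℤ) * ∏ i, M (p i) i) ≤ B ^ s := by
    intro p
    refine (wn_mul_le isSize_abs_int hw _ _).trans ?_
    have h2 : wn (fun x : ℤ => |(x : ℝ)|) (fun _ : σ => 1)
        (((Equiv.Perm.sign p : ℤ) : MvPolynomial σ ℤ)) = 1 := by
      have : (((Equiv.Perm.sign p : ℤ) : MvPolynomial σ ℤ)) = C ((Equiv.Perm.sign p : ℤ)) := by
        simp
      rw [this, wn_C isSize_abs_int]
      rcases Int.units_eq_one_or (Equiv.Perm.sign p) with h | h <;> simp [h]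
    rw [h2, one_mul]
    refine (wn_prod_le isSize_abs_int hw (by simp) _ _ (fun _ => B) (fun i _ => hB _ _)).trans ?_
    rw [Finset.prod_const, Finset.card_univ, Fintype.card_fin]
  refine (Finset.sum_le_sum (fun p _ => h1 p)).trans ?_
  rw [Finset.sum_const, nsmul_eq_mul, Finset.card_univ, Fintype.card_perm, Fintype.card_fin]

theorem roth_degreeOf_det {σ : Type*} {s : ℕ} (M : Matrix (Fin s) (Fin s) (MvPolynomial σ ℤ))
    (h : σ) (D : ℕ) (hB : ∀ i j, (M i j).degreeOf h ≤ D) : M.det.degreeOf h ≤ s * D := by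
  rw [Matrix.det_apply']
  refine (degreeOf_sum_le _ _ _).trans ?_
  apply Finset.sup_le
  intro p _
  refine (degreeOf_mul_le _ _ _).trans ?_
  have h2 : degreeOf h (((Equiv.Perm.sign p : ℤ) : MvPolynomial σ ℤ)) = 0 := by
    have : (((Equiv.Perm.sign p : ℤ) : MvPolynomial σ ℤ)) = C ((Equiv.Perm.sign p : ℤ)) := by
      simp
    rw [this, degreeOf_C]
  rw [h2, zero_add]
  refine (degreeOf_prod_le _ _ _).trans ?_
  refine (Finset.sum_le_sum (fun i _ => hB _ _)).trans ?_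
  rw [Finset.sum_const, Finset.card_univ, Fintype.card_fin, smul_eq_mul]

theorem roth_zero (ε : ℝ) (hε : 0 < ε) (d : Fin 0 → ℕ) (ζ : Fin 0 → ℚ)
    (Q : MvPolynomial (Fin 0) ℤ) (hQ : Q ≠ 0) :
    ∃ i, wt d i ≤ ε ∧ (tr ζ (Q.map (Int.castRingHom ℚ))).coeff i ≠ 0 := by
  refine ⟨0, by simpa [wt] using hε.le, ?_⟩
  have htr : tr ζ = AlgHom.id ℚ _ := by
    ext i
    exact i.elim0
  rw [htr, AlgHom.id_apply, coeff_map]
  intro h
  apply hQ
  ext i
  rw [Subsingleton.elim i 0]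
  simpa using h

theorem roth_wt_cons {k : ℕ} (d : Fin (k + 1) → ℕ) (a : ℕ) (μ : Fin k →₀ ℕ) :
    wt d (Finsupp.cons a μ) = (a : ℝ) / d 0 + wt (fun h => d h.succ) μ := by
  unfold wt
  rw [Fin.sum_univ_succ]
  simp

theorem roth_step {k : ℕ} (ε ωk ω : ℝ) (hε : 0 < ε) (hε1 : ε ≤ 1) (hω : 0 < ω)
    (hω1 : ω ≤ ωk / 2) (hω2 : ω ≤ ε ^ 2 / 200)
    (IH : ∀ (d : Fin k → ℕ) (ζ : Fin k → ℚ) (G : ℝ) (Q : MvPolynomial (Fin k) ℤ),
      (∀ h, 1 ≤ d h) → (∀ i j, i < j → (d i : ℝ) ≤ ωk * d j) → 1 < G →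
      (∀ h, G ≤ ((ζ h).den : ℝ) ^ (d h)) → (8 : ℝ) ^ (∑ h, d h) ≤ G ^ ωk →
      Q ≠ 0 → (∀ h, Q.degreeOf h ≤ d h) → (∀ i, |((Q.coeff i : ℤ) : ℝ)| ≤ G ^ ωk) →
      ∃ i, wt d i ≤ ε ^ 2 / 100 ∧ (tr ζ (Q.map (Int.castRingHom ℚ))).coeff i ≠ 0)
    (d : Fin (k + 1) → ℕ) (ζ : Fin (k + 1) → ℚ) (G : ℝ) (Q : MvPolynomial (Fin (k + 1)) ℤ)
    (hd1 : ∀ h, 1 ≤ d h) (hdd : ∀ i j, i < j → (d i : ℝ) ≤ ω * d j) (hG : 1 < G)
    (hζ : ∀ h, G ≤ ((ζ h).den : ℝ) ^ (d h)) (h8 : (8 : ℝ) ^ (∑ h, d h) ≤ G ^ ω)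
    (hQ : Q ≠ 0) (hQd : ∀ h, Q.degreeOf h ≤ d h) (hQc : ∀ i, |((Q.coeff i : ℤ) : ℝ)| ≤ G ^ ω) :
    ∃ i, wt d i ≤ ε ∧ (tr ζ (Q.map (Int.castRingHom ℚ))).coeff i ≠ 0 := by
  by_contra hcon
  push Not at hcon
  have hIG : IG d ε (tr ζ (Q.map (Int.castRingHom ℚ))) := fun i hi => hcon i hi.le
  have hinj : Function.Injective (Int.castRingHom ℚ) := Int.cast_injective
  have hQ' : Q.map (Int.castRingHom ℚ) ≠ 0 := by
    rw [Ne, map_eq_zero_iff _ (map_injective _ hinj)]
    exact hQ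
  have hdeg : (Q.map (Int.castRingHom ℚ)).degreeOf 0 ≤ d 0 := by
    refine le_trans ?_ (hQd 0)
    rw [degreeOf_le_iff]
    intro m hm
    exact (degreeOf_le_iff.1 le_rfl) m (support_map_subset _ _ hm)
  obtain ⟨s, hs1, hsd, φ, ψ, hφ, hψ, hdec⟩ := exists_decomp _ hQ' hdeg
  obtain ⟨μ, hμ, hμdet⟩ := exists_wronskian s φ hφ
  obtain ⟨ν, hν, hνdet⟩ := exists_wronskian s ψ hψ
  have hsR : (1 : ℝ) ≤ s := by exact_mod_cast hs1
  have hd0R : (1 : ℝ) ≤ d 0 := by exact_mod_cast hd1 0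
  have hG0 : 0 < G := by linarith only [hG]
  set E : Matrix (Fin s) (Fin s) (MvPolynomial (Fin (k + 1)) ℤ) :=
    Matrix.of fun i j => hd (Finsupp.cons (ν j 0) (μ i)) Q with hE
  set U : MvPolynomial (Fin k) ℚ := (Matrix.of fun i j => hd (μ i) (φ j)).det with hU
  set V : MvPolynomial (Fin 1) ℚ := (Matrix.of fun i j => hd (ν i) (ψ j)).det with hV
  have hWmap : (E.det).map (Int.castRingHom ℚ) = e2 U * e1 V := by
    rw [RingHom.map_det, hU, hV, AlgHom.map_det, AlgHom.map_det,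
      ← Matrix.det_transpose (e1.mapMatrix _), ← Matrix.det_mul]
    congr 1
    ext1 i j
    rw [Matrix.mul_apply]
    simp only [RingHom.mapMatrix_apply, Matrix.map_apply, AlgHom.mapMatrix_apply,
      Matrix.transpose_apply, hE, Matrix.of_apply]
    rw [hd_map, hdec, map_sum]
    exact Finset.sum_congr rfl fun l _ => hd_sep _ _ _ _
  have hW0 : E.det ≠ 0 := by
    intro h0
    rw [h0, map_zero] at hWmap
    rcases mul_eq_zero.1 hWmap.symm with h | h
    · apply hμdet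
      have : Function.Injective (e2 : MvPolynomial (Fin k) ℚ →ₐ[ℚ] _) :=
        rename_injective _ (Fin.succ_injective _)
      exact (map_eq_zero_iff _ this).1 h
    · apply hνdet
      have : Function.Injective (e1 : MvPolynomial (Fin 1) ℚ →ₐ[ℚ] MvPolynomial (Fin (k + 1)) ℚ) :=
        rename_injective _ (Function.injective_of_subsingleton _)
      exact (map_eq_zero_iff _ this).1 h
  -- size
  have hEw : ∀ i j, wn (fun x : ℤ => |(x : ℝ)|) (fun _ => 1) (E i j) ≤
      (4 : ℝ) ^ (∑ h, d h) * G ^ ω := fun i j => wn_hd_le d _ Q hQd _ hQc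
  have hWw := roth_wn_det E _ hEw
  have hHle : (s.factorial : ℝ) * ((4 : ℝ) ^ (∑ h, d h) * G ^ ω) ^ s ≤ (G ^ s) ^ (2 * ω) := by
    have h1 : (s.factorial : ℝ) ≤ ((2 : ℝ) ^ (∑ h, d h)) ^ s := by
      have h2 : s.factorial ≤ (2 ^ (∑ h, d h)) ^ s := by
        refine (Nat.factorial_le_pow s).trans ?_
        apply Nat.pow_le_pow_left
        refine hsd.trans ?_
        refine (Nat.succ_le_of_lt (Nat.lt_two_pow_self (n := d 0))).trans ?_
        apply Nat.pow_le_pow_right (by norm_num)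
        exact Finset.single_le_sum (f := fun h => d h) (fun _ _ => Nat.zero_le _)
          (Finset.mem_univ 0)
      exact_mod_cast h2
    calc (s.factorial : ℝ) * ((4 : ℝ) ^ (∑ h, d h) * G ^ ω) ^ s
        ≤ ((2 : ℝ) ^ (∑ h, d h)) ^ s * ((4 : ℝ) ^ (∑ h, d h) * G ^ ω) ^ s := by
          apply mul_le_mul_of_nonneg_right h1 (by positivity)
      _ = ((8 : ℝ) ^ (∑ h, d h) * G ^ ω) ^ s := by
          rw [← mul_pow, ← mul_assoc, ← mul_pow]; norm_num
      _ ≤ (G ^ ω * G ^ ω) ^ s := by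
          apply pow_le_pow_left₀ (by positivity)
          exact mul_le_mul_of_nonneg_right h8 (by positivity)
      _ = (G ^ s) ^ (2 * ω) := by
          rw [← Real.rpow_add hG0, ← Real.rpow_natCast, ← Real.rpow_natCast,
            ← Real.rpow_mul hG0.le, ← Real.rpow_mul hG0.le]
          congr 1; ring
  have hWc : ∀ i, |(((E.det).coeff i : ℤ) : ℝ)| ≤ (G ^ s) ^ (2 * ω) := by
    intro i
    have h1 := coeff_le_wn (w := fun _ => (1 : ℝ)) isSize_abs_int (fun _ => zero_le_one) E.det i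
    have h2 : (i.prod fun _ e => (1 : ℝ) ^ e) = 1 := by
      simp
    rw [h2, mul_one] at h1
    exact h1.trans (hWw.trans hHle)
  obtain ⟨U', V', hUV', hU'0, hV'0, hU'c, hV'c, hU'd⟩ :=
    exists_factor E.det hW0 U V hWmap _ hWc
  have hGs : 1 < G ^ s := one_lt_pow₀ hG (by omega)
  have hω1' : 2 * ω ≤ ωk := by linarith only [hω1]
  have hdetd : ∀ h : Fin k, U'.degreeOf h ≤ s * d h.succ := by
    intro h
    refine (hU'd h).trans (roth_degreeOf_det E _ _ fun i j => ?_)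
    exact (hd_degreeOf _ _ _).trans (hQd _)
  -- induction hypothesis
  obtain ⟨i', hi'1, hi'2⟩ := IH (fun h => s * d h.succ) (fun h => ζ h.succ) (G ^ s) U'
    (fun h => Nat.mul_pos (by omega) (hd1 _))
    (by
      intro i j hij
      have h1 := hdd i.succ j.succ (by simpa using hij)
      push_cast
      have h2 : ω * (d j.succ : ℝ) ≤ ωk * d j.succ :=
        mul_le_mul_of_nonneg_right (by linarith only [hω, hω1]) (Nat.cast_nonneg _)
      nlinarith only [h1, h2])
    hGs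
    (by
      intro h
      rw [mul_comm, pow_mul]
      exact pow_le_pow_left₀ hG0.le (hζ _) _)
    (by
      have h1 : (8 : ℝ) ^ (∑ h : Fin k, d h.succ) ≤ G ^ ωk := by
        calc (8 : ℝ) ^ (∑ h : Fin k, d h.succ) ≤ (8 : ℝ) ^ (∑ h, d h) := by
              apply pow_le_pow_right₀ (by norm_num)
              rw [Fin.sum_univ_succ]; omega
          _ ≤ G ^ ω := h8
          _ ≤ G ^ ωk := Real.rpow_le_rpow_of_exponent_le hG.le (by linarith only [hω, hω1])
      rw [← Finset.mul_sum, mul_comm, pow_mul]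
      have h2 : (G ^ s) ^ ωk = (G ^ ωk) ^ s := by
        rw [← Real.rpow_natCast, ← Real.rpow_natCast, ← Real.rpow_mul hG0.le,
          ← Real.rpow_mul hG0.le, mul_comm]
      rw [h2]
      exact pow_le_pow_left₀ (by positivity) h1 _)
    hU'0 hdetd
    (fun i => (hU'c i).trans (Real.rpow_le_rpow_of_exponent_le hGs.le hω1'))
  obtain ⟨j, hj1, hj2⟩ := exists_coeff_one V' hV'0 (ζ 0) _ hV'c
  -- bound for j
  have hden : 1 < ((ζ 0).den : ℝ) := by
    by_contra hle
    push Not at hle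
    have h1 : ((ζ 0).den : ℝ) ^ (d 0) ≤ 1 := pow_le_one₀ (Nat.cast_nonneg _) hle
    linarith only [hζ 0, hG, h1, hζ]
  have hj : (j 0 : ℝ) / d 0 ≤ s * (ε ^ 2 / 100) := by
    have h1 : (((ζ 0).den : ℝ)) ^ (j 0) ≤ (((ζ 0).den : ℝ)) ^ ((d 0 : ℝ) * s * (2 * ω)) := by
      refine hj1.trans ?_
      have h2 : G ^ s ≤ (((ζ 0).den : ℝ) ^ (d 0)) ^ s := pow_le_pow_left₀ hG0.le (hζ 0) _
      have h3 := Real.rpow_le_rpow (by positivity) h2 (show 0 ≤ 2 * ω by positivity)
      refine h3.trans (le_of_eq ?_)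
      rw [← Real.rpow_natCast, ← Real.rpow_natCast, ← Real.rpow_mul (by positivity),
        ← Real.rpow_mul (by positivity), mul_assoc]
    rw [← Real.rpow_natCast, Real.rpow_le_rpow_left_iff hden] at h1
    rw [div_le_iff₀ (by linarith only [hd0R])]
    calc (j 0 : ℝ) ≤ (d 0 : ℝ) * s * (2 * ω) := h1
      _ ≤ (d 0 : ℝ) * s * (ε ^ 2 / 100) := by
          apply mul_le_mul_of_nonneg_left _ (by positivity)
          linarith only [hω2]
      _ = _ := by ring
  -- the nonzero Taylor coefficient of the determinant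
  have hcoef : (tr ζ ((E.det).map (Int.castRingHom ℚ))).coeff (Finsupp.cons (j 0) i') ≠ 0 := by
    rw [hUV']
    have : (map (Int.castRingHom ℚ)) (e2 U' * e1 V')
        = e2 (U'.map (Int.castRingHom ℚ)) * e1 (V'.map (Int.castRingHom ℚ)) := by
      rw [map_mul]
      simp only [e1, e2, map_rename]
    rw [this, coeff_tr_sep]
    exact mul_ne_zero hi'2 hj2
  have hwt : wt d (Finsupp.cons (j 0) i') ≤ s * (ε ^ 2 / 50) := by
    rw [roth_wt_cons]
    have h1 : wt (fun h => d h.succ) i' = s * wt (fun h => s * d h.succ) i' := by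
      unfold wt
      rw [Finset.mul_sum]
      apply Finset.sum_congr rfl
      intro h _
      push_cast
      have : (0 : ℝ) < d h.succ := by exact_mod_cast hd1 _
      field_simp
    rw [h1]
    have h2 : (s : ℝ) * wt (fun h => s * d h.succ) i' ≤ s * (ε ^ 2 / 100) :=
      mul_le_mul_of_nonneg_left hi'1 (by linarith only [hsR])
    calc _ ≤ (s : ℝ) * (ε ^ 2 / 100) + s * (ε ^ 2 / 100) := add_le_add hj h2
      _ = _ := by ring
  -- lower bound for the index
  have hent : ∀ a b : Fin s, IG d (max 0 (ε / 2 - ((b : ℕ) : ℝ) / d 0))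
      (((tr ζ : _ →ₐ[ℚ] _).toRingHom.comp (map (Int.castRingHom ℚ))).mapMatrix E a b) := by
    intro a b
    by_cases hneg : ε / 2 - ((b : ℕ) : ℝ) / d 0 ≤ 0
    · rw [max_eq_left hneg]
      exact IG.of_nonpos le_rfl _
    push Not at hneg
    rw [max_eq_right hneg.le]
    have he : ((tr ζ : _ →ₐ[ℚ] _).toRingHom.comp (map (Int.castRingHom ℚ))).mapMatrix E a b
        = hd (Finsupp.cons (ν b 0) (μ a)) (tr ζ (Q.map (Int.castRingHom ℚ))) := by
      simp only [RingHom.mapMatrix_apply, Matrix.map_apply, hE, Matrix.of_apply]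
      change tr ζ (map (Int.castRingHom ℚ) _) = _
      rw [hd_map, tr_hd]
    rw [he]
    refine (hIG.hd _).mono ?_
    rw [roth_wt_cons]
    have h1 : (ν b 0 : ℝ) / d 0 ≤ ((b : ℕ) : ℝ) / d 0 := by
      apply div_le_div_of_nonneg_right _ (by linarith only [hd0R])
      have h2 : ν b 0 ≤ (ν b).degree := Finsupp.le_degree _ _
      exact_mod_cast h2.trans (hν b)
    have h2 : wt (fun h => d h.succ) (μ a) ≤ ω := by
      calc wt (fun h => d h.succ) (μ a) ≤ ∑ h, (μ a h : ℝ) * (ω / d 0) := by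
            unfold wt
            apply Finset.sum_le_sum
            intro h _
            have h3 := hdd 0 h.succ (Fin.succ_pos h)
            have h4 : (0 : ℝ) < d h.succ := by exact_mod_cast hd1 _
            rw [div_eq_mul_inv]
            apply mul_le_mul_of_nonneg_left _ (Nat.cast_nonneg _)
            rw [inv_eq_one_div, div_le_div_iff₀ h4 (by linarith only [hd0R])]
            linarith only [h3]
        _ = ((μ a).degree : ℝ) * (ω / d 0) := by
            rw [← Finset.sum_mul, Finsupp.degree_eq_sum]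
            push_cast
            rfl
        _ ≤ (d 0 : ℝ) * (ω / d 0) := by
            apply mul_le_mul_of_nonneg_right _ (by positivity)
            have h5 : (μ a).degree ≤ d 0 := by
              have := hμ a
              have := a.2
              omega
            exact_mod_cast h5
        _ = ω := by field_simp
    have h3 : ω ≤ ε / 2 := by nlinarith only [hω, hω2, hε, hε1]
    linarith only [h1, h2, h3]
  have hdetIG : IG d (∑ b : Fin s, max 0 (ε / 2 - ((b : ℕ) : ℝ) / d 0))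
      (tr ζ ((E.det).map (Int.castRingHom ℚ))) := by
    have h1 := IG.det (d := d) (fun b : Fin s => max 0 (ε / 2 - ((b : ℕ) : ℝ) / d 0)) _ hent
    rw [← RingHom.map_det] at h1
    exact h1
  have hge : ∑ b : Fin s, max 0 (ε / 2 - ((b : ℕ) : ℝ) / d 0) ≤
      wt d (Finsupp.cons (j 0) i') := by
    by_contra hlt
    push Not at hlt
    exact hcoef (hdetIG _ hlt)
  have hsum := roth_sum_aux s (d 0) (ε / 2) hsd (hd1 0) (by linarith only [hε]) (by linarith only [hε1])
  have hpos : 0 < (s : ℝ) * ε ^ 2 := by positivity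
  nlinarith only [hwt, hge, hsum, hpos]

/-- Roth's lemma (index bound). The degrees are increasing in the index. -/
theorem roth_lemma (k : ℕ) (ε : ℝ) (hε : 0 < ε) : ∃ ω : ℝ, 0 < ω ∧
    ∀ (d : Fin k → ℕ) (ζ : Fin k → ℚ) (G : ℝ) (Q : MvPolynomial (Fin k) ℤ),
      (∀ h, 1 ≤ d h) → (∀ i j, i < j → (d i : ℝ) ≤ ω * d j) → 1 < G →
      (∀ h, G ≤ ((ζ h).den : ℝ) ^ (d h)) → (8 : ℝ) ^ (∑ h, d h) ≤ G ^ ω →
      Q ≠ 0 → (∀ h, Q.degreeOf h ≤ d h) → (∀ i, |((Q.coeff i : ℤ) : ℝ)| ≤ G ^ ω) →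
      ∃ i, wt d i ≤ ε ∧ (tr ζ (Q.map (Int.castRingHom ℚ))).coeff i ≠ 0 := by
  induction k generalizing ε with
  | zero =>
    exact ⟨1, one_pos, fun d ζ G Q _ _ _ _ _ hQ _ _ => roth_zero ε hε d ζ Q hQ⟩
  | succ k ih =>
    have hε1 : 0 < min ε 1 := lt_min hε one_pos
    obtain ⟨ωk, hωk, IH⟩ := ih ((min ε 1) ^ 2 / 100) (by positivity)
    refine ⟨min (ωk / 2) ((min ε 1) ^ 2 / 200), lt_min (by positivity) (by positivity), ?_⟩
    intro d ζ G Q h1 h2 h3 h4 h5 h6 h7 h8
    obtain ⟨i, hi, hi'⟩ := roth_step (min ε 1) ωk _ hε1 (min_le_right _ _)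
      (lt_min (by positivity) (by positivity)) (min_le_left _ _) (min_le_right _ _) IH
      d ζ G Q h1 h2 h3 h4 h5 h6 h7 h8
    exact ⟨i, hi.trans (min_le_left _ _), hi'⟩

end SB
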