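import Pool.Agent.Lib.MP_d0d59f_nt.PZ.K031
import Pool.Agent.Lib.MP_d0d59f_nt.PZ.K035

section

/-! Restriction to two variables in each block. -/

open MvPolynomial

namespace SB

/-- the exponents of the variables of index at least two -/
noncomputable def restrict_rest {k n : ℕ} (J : Fin k × Fin (n + 2) →₀ ℕ) : Fin k × Fin n →₀ ℕ :=
  Finsupp.equivFunOnFinite.symm (fun q => J (q.1, q.2.succ.succ))

/-- the exponents of the variables of index zero -/
noncomputable def restrict_zero {k n : ℕ} (J : Fin k × Fin (n + 2) →₀ ℕ) : Fin k →₀ ℕ :=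
  Finsupp.equivFunOnFinite.symm (fun h => J (h, 0))

theorem restrict_rest_apply {k n : ℕ} (J : Fin k × Fin (n + 2) →₀ ℕ) (h : Fin k) (i : Fin n) :
    restrict_rest J (h, i) = J (h, i.succ.succ) := rfl

theorem restrict_zero_apply {k n : ℕ} (J : Fin k × Fin (n + 2) →₀ ℕ) (h : Fin k) :
    restrict_zero J h = J (h, 0) := rfl

theorem restrict_deg {k n : ℕ} {d : Fin k → ℕ} {J : Fin k × Fin (n + 2) →₀ ℕ} (hJ : MDeg d J)
    (h : Fin k) : J (h, 0) + (J (h, 1) + ∑ i : Fin n, J (h, i.succ.succ)) = d h := by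
  have := hJ h
  rw [Fin.sum_univ_succ, Fin.sum_univ_succ] at this
  exact this

theorem restrict_inj {k n : ℕ} {d : Fin k → ℕ} {J J' : Fin k × Fin (n + 2) →₀ ℕ}
    (hJ : MDeg d J) (hJ' : MDeg d J') (h0 : restrict_zero J = restrict_zero J')
    (h1 : restrict_rest J = restrict_rest J') : J = J' := by
  have e0 : ∀ h, J (h, 0) = J' (h, 0) := fun h => by
    rw [← restrict_zero_apply, h0, restrict_zero_apply]
  have e2 : ∀ h (i : Fin n), J (h, i.succ.succ) = J' (h, i.succ.succ) := fun h i => by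
    rw [← restrict_rest_apply, h1, restrict_rest_apply]
  have e1 : ∀ h, J (h, 1) = J' (h, 1) := fun h => by
    have a := restrict_deg hJ h
    have b := restrict_deg hJ' h
    simp only [e0, e2] at a
    omega
  ext ⟨h, i⟩
  refine Fin.cases ?_ (fun i => Fin.cases ?_ (fun i => ?_) i) i
  · exact e0 h
  · exact e1 h
  · exact e2 h i

theorem restrict_wt_mono {k : ℕ} (d : Fin k → ℕ) {a b : Fin k →₀ ℕ} (hab : a ≤ b) :
    wt d a ≤ wt d b := by
  unfold wt
  apply Finset.sum_le_sum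
  intro h _
  apply div_le_div_of_nonneg_right _ (Nat.cast_nonneg _)
  exact_mod_cast hab h

/-- the ideal of polynomials without monomials of small weight -/
def restrict_ideal {k : ℕ} (d : Fin k → ℕ) (σ : ℝ) : Ideal (MvPolynomial (Fin k) ℚ) where
  carrier := {p | ∀ i, wt d i < σ → p.coeff i = 0}
  add_mem' := by
    intro p q hp hq i hi
    rw [coeff_add, hp i hi, hq i hi, add_zero]
  zero_mem' := fun i _ => coeff_zero i
  smul_mem' := by
    intro c p hp i hi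
    rw [smul_eq_mul, coeff_mul]
    apply Finset.sum_eq_zero
    rintro ⟨a, b⟩ hab
    rw [Finset.HasAntidiagonal.mem_antidiagonal] at hab
    have hb : b ≤ i := by rw [← hab]; exact le_add_self
    simp only
    rw [hp b (lt_of_le_of_lt (restrict_wt_mono d hb) hi), mul_zero]

theorem restrict_mem {k : ℕ} {d : Fin k → ℕ} {σ : ℝ} {p : MvPolynomial (Fin k) ℚ} :
    p ∈ restrict_ideal d σ ↔ ∀ i, wt d i < σ → p.coeff i = 0 := Iff.rfl

theorem restrict_monomial_mem {k : ℕ} {d : Fin k → ℕ} {σ : ℝ} {m : Fin k →₀ ℕ}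
    (hm : ¬ wt d m < σ) (c : ℚ) : monomial m c ∈ restrict_ideal d σ := by
  rw [restrict_mem]
  intro i hi
  rw [coeff_monomial, if_neg]
  rintro rfl
  exact hm hi

/-- the generic point of the orthogonal of `V` in the chart where `V 0 ≠ 0` -/
noncomputable def restrict_pt {k n : ℕ} (V : Fin k → Fin (n + 2) → ℤ)
    (q : Fin k × Fin (n + 2)) : MvPolynomial (Fin k × Fin n) (MvPolynomial (Fin k) ℚ) :=
  Fin.cases (C (C (V q.1 0 : ℚ) * X q.1 - C (V q.1 1 : ℚ)) -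
      ∑ i : Fin n, C (C (V q.1 i.succ.succ : ℚ)) * X (q.1, i))
    (fun j => Fin.cases (C (C (V q.1 0 : ℚ))) (fun i => C (C (V q.1 0 : ℚ)) * X (q.1, i)) j) q.2

theorem restrict_factor {k n : ℕ} (P : MvPolynomial (Fin k × Fin (n + 2)) ℤ)
    (u : Fin k → Fin (n + 1) → Fin (n + 2) → ℤ) (V : Fin k → Fin (n + 2) → ℤ)
    (hspan : ∀ h, ∀ w : Fin (n + 2) → ℚ, ∑ i, (V h i : ℚ) * w i = 0 →
      w ∈ Submodule.span ℚ (Set.range fun j : Fin (n + 1) => fun i => (u h j i : ℚ))) :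
    ∃ Ψ : MvPolynomial ((Fin k × Fin (n + 1)) ⊕ Fin k) ℤ →ₐ[ℤ]
        MvPolynomial (Fin k × Fin n) (MvPolynomial (Fin k) ℚ),
      (∀ h, Ψ (X (Sum.inr h)) = C (C (V h 0 : ℚ) * X h)) ∧
      Ψ (aeval (gp u) P) = aeval (restrict_pt V) P := by
  -- the base point
  have h1 : ∀ h, ∃ c : Fin (n + 1) → ℚ, ∀ i, ∑ j, c j * (u h j i : ℚ) =
      Fin.cases (-(V h 1 : ℚ)) (fun l => Fin.cases (V h 0 : ℚ) (fun _ => 0) l) i := by
    intro h
    have := hspan h (fun i => Fin.cases (-(V h 1 : ℚ))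
      (fun l => Fin.cases (V h 0 : ℚ) (fun _ => 0) l) i) (by
        rw [Fin.sum_univ_succ, Fin.sum_univ_succ]
        simp only [Fin.cases_zero, Fin.cases_succ, mul_zero, Finset.sum_const_zero]
        rw [show (Fin.succ 0 : Fin (n + 2)) = 1 from rfl]
        ring)
    rw [Submodule.mem_span_range_iff_exists_fun] at this
    obtain ⟨c, hc⟩ := this
    refine ⟨c, fun i => ?_⟩
    have := congrFun hc i
    rw [← this, Finset.sum_apply]
    simp
  have h2 : ∀ (h : Fin k) (m : Fin n), ∃ c : Fin (n + 1) → ℚ, ∀ i, ∑ j, c j * (u h j i : ℚ) =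
      Fin.cases (-(V h m.succ.succ : ℚ))
        (fun l => Fin.cases (0 : ℚ) (fun l => if l = m then (V h 0 : ℚ) else 0) l) i := by
    intro h m
    have := hspan h (fun i => Fin.cases (-(V h m.succ.succ : ℚ))
        (fun l => Fin.cases (0 : ℚ) (fun l => if l = m then (V h 0 : ℚ) else 0) l) i) (by
        rw [Fin.sum_univ_succ, Fin.sum_univ_succ]
        simp only [Fin.cases_zero, Fin.cases_succ, mul_zero, mul_ite, Finset.sum_ite_eq',
          Finset.mem_univ, if_true]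
        ring)
    rw [Submodule.mem_span_range_iff_exists_fun] at this
    obtain ⟨c, hc⟩ := this
    refine ⟨c, fun i => ?_⟩
    have := congrFun hc i
    rw [← this, Finset.sum_apply]
    simp
  choose c hc using h1
  choose c' hc' using h2
  refine ⟨aeval (Sum.elim (fun q => C (C (c q.1 q.2)) + ∑ m, C (C (c' q.1 m q.2)) * X (q.1, m))
    (fun h => C (C (V h 0 : ℚ) * X h))), ?_, ?_⟩
  · intro h
    rw [aeval_X]; rfl
  · rw [← AlgHom.comp_apply]
    refine DFunLike.congr_fun ?_ P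
    apply algHom_ext
    rintro ⟨h, i⟩
    rw [AlgHom.comp_apply, aeval_X, aeval_X]
    have key : (aeval (Sum.elim (fun q : Fin k × Fin (n + 1) => C (C (c q.1 q.2)) +
        ∑ m, C (C (c' q.1 m q.2)) * X (q.1, m)) (fun h => C (C (V h 0 : ℚ) * X h))))
        (gp u (h, i)) = C (C (∑ j, c h j * (u h j i : ℚ))) +
        ∑ m, C (C (∑ j, c' h m j * (u h j i : ℚ))) * X (h, m) +
        if i = 0 then C (C (V h 0 : ℚ) * X h) else 0 := by
      unfold gp
      rw [map_add, map_sum]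
      refine congrArg₂ (· + ·) ?_ ?_
      · simp only [map_mul, aeval_X, Sum.elim_inl, algHom_C, map_sum, Finset.sum_mul]
        rw [Finset.sum_comm, ← Finset.sum_add_distrib]
        apply Finset.sum_congr rfl
        intro j _
        simp only [eq_intCast, map_intCast]
        rw [mul_add, Finset.mul_sum]
        refine congrArg₂ (· + ·) ?_ ?_
        · ring
        · apply Finset.sum_congr rfl
          intro m _
          ring
      · split_ifs <;> simp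
    rw [key, hc h i]
    simp only [hc' h _ i]
    unfold restrict_pt
    refine Fin.cases ?_ (fun i => Fin.cases ?_ (fun i => ?_) i) i
    · simp only [Fin.cases_zero, if_true, map_neg, map_sub]
      have e : (∑ x : Fin n, -C (C (V h x.succ.succ : ℚ)) * X (h, x) :
          MvPolynomial (Fin k × Fin n) (MvPolynomial (Fin k) ℚ)) +
          ∑ x : Fin n, C (C (V h x.succ.succ : ℚ)) * X (h, x) = 0 := by
        rw [← Finset.sum_add_distrib]
        apply Finset.sum_eq_zero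
        intro x _
        ring
      linear_combination e
    · simp only [Fin.cases_zero, Fin.cases_succ, map_zero, zero_mul, Finset.sum_const_zero]
      rw [if_neg (Fin.succ_ne_zero _)]
      ring
    · simp only [Fin.cases_succ, map_zero]
      rw [if_neg (Fin.succ_ne_zero _), Finset.sum_eq_single i]
      · rw [if_pos rfl]; ring
      · intro m _ hm
        rw [if_neg (Ne.symm hm), map_zero, map_zero, zero_mul]
      · intro h; exact absurd (Finset.mem_univ _) h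

/-- monomials are mapped to the ideal -/
theorem restrict_image_mem {k n : ℕ} {d : Fin k → ℕ} {σ : ℝ} (V : Fin k → Fin (n + 2) → ℤ)
    (Ψ : MvPolynomial ((Fin k × Fin (n + 1)) ⊕ Fin k) ℤ →ₐ[ℤ]
        MvPolynomial (Fin k × Fin n) (MvPolynomial (Fin k) ℚ))
    (hΨ : ∀ h, Ψ (X (Sum.inr h)) = C (C (V h 0 : ℚ) * X h))
    (p : MvPolynomial ((Fin k × Fin (n + 1)) ⊕ Fin k) ℤ)
    (hp : ∀ e, wt d (zpart e) < σ → p.coeff e = 0) (m : Fin k × Fin n →₀ ℕ) :
    (Ψ p).coeff m ∈ restrict_ideal d σ := by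
  have : Ψ p ∈ Ideal.map C (restrict_ideal d σ) := by
    rw [p.as_sum, map_sum]
    apply Ideal.sum_mem
    intro e he
    have he' : ¬ wt d (zpart e) < σ := fun h => (mem_support_iff.1 he) (hp e h)
    rw [monomial_eq, map_mul, Finsupp.prod_fintype _ _ (fun _ => pow_zero _),
      Fintype.prod_sum_type, map_mul, map_prod, map_prod]
    apply Ideal.mul_mem_left
    apply Ideal.mul_mem_left
    have : (∏ h : Fin k, Ψ (X (Sum.inr h) ^ e (Sum.inr h))) =
        C ((∏ h : Fin k, C ((V h 0 : ℚ) ^ e (Sum.inr h))) * monomial (zpart e) 1) := by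
      rw [monomial_eq, Finsupp.prod_fintype _ _ (fun _ => pow_zero _), C_1, one_mul,
        ← Finset.prod_mul_distrib, map_prod]
      apply Finset.prod_congr rfl
      intro h _
      rw [map_pow, hΨ, ← map_pow, mul_pow, map_pow]
      rfl
    rw [this]
    apply Ideal.mem_map_of_mem
    apply Ideal.mul_mem_left
    exact restrict_monomial_mem he' 1
  exact mem_map_C_iff.1 this m

/-- the part of the image of a monomial which has no monomial of index at least two -/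
noncomputable def restrict_unit {k n : ℕ} (V : Fin k → Fin (n + 2) → ℤ)
    (J : Fin k × Fin (n + 2) →₀ ℕ) : MvPolynomial (Fin k × Fin n) (MvPolynomial (Fin k) ℚ) :=
  ∏ h, (restrict_pt V (h, 0) ^ J (h, 0) * (C (C (V h 0 : ℚ)) ^ J (h, 1) *
    ∏ i : Fin n, C (C (V h 0 : ℚ)) ^ J (h, i.succ.succ)))

theorem restrict_prod {k n : ℕ} (V : Fin k → Fin (n + 2) → ℤ) (J : Fin k × Fin (n + 2) →₀ ℕ) :
    ∏ q, restrict_pt V q ^ J q = monomial (restrict_rest J) 1 * restrict_unit V J := by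
  rw [Fintype.prod_prod_type, monomial_eq, Finsupp.prod_fintype _ _ (fun _ => pow_zero _), C_1,
    one_mul, Fintype.prod_prod_type, restrict_unit, ← Finset.prod_mul_distrib]
  apply Finset.prod_congr rfl
  intro h _
  rw [Fin.prod_univ_succ, Fin.prod_univ_succ]
  have e1 : restrict_pt V (h, Fin.succ 0) = C (C (V h 0 : ℚ)) := rfl
  have e2 : ∀ i : Fin n, restrict_pt V (h, i.succ.succ) = C (C (V h 0 : ℚ)) * X (h, i) :=
    fun i => rfl
  simp only [e1, e2, mul_pow, Finset.prod_mul_distrib]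
  simp only [restrict_rest_apply]
  rw [show (Fin.succ 0 : Fin (n + 2)) = 1 from rfl]
  ring

theorem restrict_unit_coeff {k n : ℕ} {d : Fin k → ℕ} (V : Fin k → Fin (n + 2) → ℤ)
    {J : Fin k × Fin (n + 2) →₀ ℕ} (hJ : MDeg d J) (hV0 : ∀ h, V h 0 ≠ 0) :
    (restrict_unit V J).coeff 0 = C (∏ h, (V h 0 : ℚ) ^ d h) *
      ∏ h, (C (-(V h 1 : ℚ) / (V h 0 : ℚ)) + X h) ^ J (h, 0) := by
  have e0 : ∀ p : MvPolynomial (Fin k × Fin n) (MvPolynomial (Fin k) ℚ),
      p.coeff 0 = constantCoeff p := fun p => rfl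
  rw [e0, restrict_unit, map_prod, map_prod, ← Finset.prod_mul_distrib]
  apply Finset.prod_congr rfl
  intro h _
  have e1 : constantCoeff (restrict_pt V (h, 0)) = C (V h 0 : ℚ) * X h - C (V h 1 : ℚ) := by
    unfold restrict_pt
    simp only [Fin.cases_zero, map_sub, map_sum, map_mul, constantCoeff_X, mul_zero,
      Finset.sum_const_zero, sub_zero, constantCoeff_C]
  rw [map_mul, map_mul, map_pow, map_pow, map_prod, e1]
  simp only [map_pow, constantCoeff_C]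
  rw [Finset.prod_pow_eq_pow_sum, ← pow_add]
  have e2 : (C (V h 0 : ℚ) * X h - C (V h 1 : ℚ) : MvPolynomial (Fin k) ℚ) =
      C (V h 0 : ℚ) * (C (-(V h 1 : ℚ) / (V h 0 : ℚ)) + X h) := by
    have h0 : (V h 0 : ℚ) ≠ 0 := by exact_mod_cast hV0 h
    rw [mul_add, ← C_mul, mul_div_cancel₀ _ h0, C_neg]
    ring
  rw [e2, mul_pow, ← restrict_deg hJ h, pow_add (C (V h 0 : ℚ)) (J (h, 0))]
  ring

theorem exists_restrict {k n : ℕ} (d : Fin k → ℕ) (_hd : ∀ h, 1 ≤ d h)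
    (P : MvPolynomial (Fin k × Fin (n + 2)) ℤ) (hP0 : P ≠ 0)
    (hPd : ∀ J ∈ P.support, MDeg d J)
    (u : Fin k → Fin (n + 1) → Fin (n + 2) → ℤ) (V : Fin k → Fin (n + 2) → ℤ)
    (hV0 : ∀ h, V h 0 ≠ 0)
    (hspan : ∀ h, ∀ w : Fin (n + 2) → ℚ, ∑ i, (V h i : ℚ) * w i = 0 →
      w ∈ Submodule.span ℚ (Set.range fun j : Fin (n + 1) => fun i => (u h j i : ℚ)))
    (σ : ℝ)
    (hvan : ∀ e, wt d (zpart e) < σ → (aeval (gp u) P).coeff e = 0) :
    ∃ Q : MvPolynomial (Fin k) ℤ, Q ≠ 0 ∧ (∀ h, Q.degreeOf h ≤ d h) ∧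
      (∀ i, Q.coeff i = 0 ∨ ∃ J, Q.coeff i = P.coeff J) ∧
      ∀ i, wt d i < σ →
        (tr (fun h => -(V h 1 : ℚ) / (V h 0 : ℚ)) (Q.map (Int.castRingHom ℚ))).coeff i = 0 := by
  classical
  obtain ⟨Ψ, hΨ, hΨP⟩ := restrict_factor P u V hspan
  have hne : P.support.Nonempty := by
    rw [Finset.nonempty_iff_ne_empty, Ne, support_eq_empty]; exact hP0
  obtain ⟨J₀, hJ₀, hmin⟩ := P.support.exists_min_image (fun J => (restrict_rest J).degree) hne
  set R := restrict_rest J₀ with hR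
  set S := P.support.filter (fun J => restrict_rest J = R) with hS
  have hSd : ∀ J ∈ S, MDeg d J := fun J hJ => hPd J (Finset.mem_filter.1 hJ).1
  have hinj : ∀ J ∈ S, ∀ J' ∈ S, restrict_zero J = restrict_zero J' → J = J' :=
    fun J hJ J' hJ' h => restrict_inj (hSd J hJ) (hSd J' hJ') h
      (by rw [(Finset.mem_filter.1 hJ).2, (Finset.mem_filter.1 hJ').2])
  set Q : MvPolynomial (Fin k) ℤ := ∑ J ∈ S, monomial (restrict_zero J) (P.coeff J) with hQ
  have hQc : ∀ i, Q.coeff i = ∑ J ∈ S, if restrict_zero J = i then P.coeff J else 0 := by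
    intro i
    rw [hQ, coeff_sum]
    simp only [coeff_monomial]
  have hQJ : ∀ J ∈ S, Q.coeff (restrict_zero J) = P.coeff J := by
    intro J hJ
    rw [hQc, Finset.sum_eq_single J]
    · rw [if_pos rfl]
    · intro J' hJ' hne
      rw [if_neg]
      exact fun h => hne (hinj J' hJ' J hJ h)
    · exact fun h => absurd hJ h
  have hQ0 : ∀ i, (∀ J ∈ S, restrict_zero J ≠ i) → Q.coeff i = 0 := by
    intro i hi
    rw [hQc]
    apply Finset.sum_eq_zero
    intro J hJ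
    rw [if_neg (hi J hJ)]
  have hJ₀S : J₀ ∈ S := Finset.mem_filter.2 ⟨hJ₀, rfl⟩
  refine ⟨Q, ?_, ?_, ?_, ?_⟩
  · intro h
    have := hQJ J₀ hJ₀S
    rw [h, coeff_zero] at this
    exact (mem_support_iff.1 hJ₀) this.symm
  · intro h
    rw [degreeOf_le_iff]
    intro m hm
    by_contra hcon
    push Not at hcon
    apply mem_support_iff.1 hm
    apply hQ0
    intro J hJ hJm
    rw [← hJm, restrict_zero_apply] at hcon
    have := restrict_deg (hSd J hJ) h
    omega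
  · intro i
    by_cases h : ∃ J ∈ S, restrict_zero J = i
    · obtain ⟨J, hJ, rfl⟩ := h
      exact Or.inr ⟨J, hQJ J hJ⟩
    · push Not at h
      exact Or.inl (hQ0 i h)
  · -- the vanishing
    have hmem := restrict_image_mem V Ψ hΨ _ hvan R
    rw [hΨP, aeval_def, eval₂_eq', coeff_sum] at hmem
    have hterm : ∀ J ∈ P.support, coeff R (algebraMap ℤ _ (P.coeff J) *
        ∏ q, restrict_pt V q ^ J q) =
        if restrict_rest J = R then C (∏ h, (V h 0 : ℚ) ^ d h) * (C ((P.coeff J : ℤ) : ℚ) *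
          ∏ h, (C (-(V h 1 : ℚ) / (V h 0 : ℚ)) + X h) ^ J (h, 0)) else 0 := by
      intro J hJ
      have e1 : (algebraMap ℤ (MvPolynomial (Fin k × Fin n) (MvPolynomial (Fin k) ℚ)))
          (P.coeff J) = C (C ((P.coeff J : ℤ) : ℚ)) := by
        simp
      rw [e1, restrict_prod, coeff_C_mul, coeff_monomial_mul']
      by_cases hle : restrict_rest J ≤ R
      · have heq : restrict_rest J = R := by
          have h1 := hmin J hJ
          have h2 : restrict_rest J + (R - restrict_rest J) = R := add_tsub_cancel_of_le hle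
          have h3 : (restrict_rest J).degree + (R - restrict_rest J).degree = R.degree := by
            rw [← map_add, h2]
          have h4 : (R - restrict_rest J).degree = 0 := by
            omega
          rw [Finsupp.degree_eq_zero_iff] at h4
          rw [h4, add_zero] at h2
          exact h2
        rw [if_pos hle, if_pos heq, heq, tsub_self, one_mul, restrict_unit_coeff V (hPd J hJ) hV0]
        ring
      · rw [if_neg hle, if_neg, mul_zero]
        exact fun h => hle h.le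
    rw [Finset.sum_congr rfl hterm, ← Finset.sum_filter, ← Finset.mul_sum] at hmem
    have htr : tr (fun h => -(V h 1 : ℚ) / (V h 0 : ℚ)) (Q.map (Int.castRingHom ℚ)) =
        ∑ J ∈ P.support.filter (fun J => restrict_rest J = R), (C ((P.coeff J : ℤ) : ℚ) *
          ∏ h, (C (-(V h 1 : ℚ) / (V h 0 : ℚ)) + X h) ^ J (h, 0)) := by
      rw [hQ, map_sum, map_sum]
      apply Finset.sum_congr rfl
      intro J _
      rw [map_monomial, tr, aeval_monomial, Finsupp.prod_fintype _ _ (fun _ => pow_zero _)]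
      rfl
    intro i hi
    rw [← htr] at hmem
    have h1 := hmem i hi
    rw [coeff_C_mul] at h1
    have h2 : (∏ h, (V h 0 : ℚ) ^ d h) ≠ 0 := by
      rw [Finset.prod_ne_zero_iff]
      intro h _
      exact pow_ne_zero _ (by exact_mod_cast hV0 h)
    exact (mul_eq_zero.1 h1).resolve_left h2

end SB

end

section

/-! The hyperplane lemma. -/

open MvPolynomial

namespace SB

/-- Main lemma: there is no infinite family of small and highly divisible systems of `n + 1`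
integer points spanning hyperplanes whose equation has a rapidly growing height. -/
theorem hyperplane_lemma {n : ℕ} (K : IntermediateField ℚ ℝ) [FiniteDimensional ℚ K]
    (N N' : Matrix (Fin (n + 2)) (Fin (n + 2)) ℝ) (hN : N' * N = 1)
    (hN' : ∀ i j, N' i j ∈ K) (S : Finset ℕ) (hS : ∀ p ∈ S, p.Prime)
    (C₀ ε c : ℝ) (hε : 0 < ε) (hc : 0 < c) (T : Set ℕ) (hT : T.Infinite)
    (u : ℕ → Fin (n + 1) → Fin (n + 2) → ℤ) (V : ℕ → Fin (n + 2) → ℤ)
    (β : ℕ → Fin (n + 2) → ℝ) (a : ℕ → ℕ → Fin (n + 2) → ℕ)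
    (hu : ∀ m ∈ T, ∀ j i, |∑ l, N i l * (u m j l : ℝ)| ≤ Real.exp (β m i * m))
    (hdiv : ∀ m ∈ T, ∀ p ∈ S, ∀ j i, ((p : ℤ) ^ a m p i) ∣ u m j i)
    (hβ : ∀ m ∈ T, ∀ i, |β m i| ≤ C₀)
    (ha : ∀ m ∈ T, ∀ p ∈ S, ∀ i, (a m p i : ℝ) ≤ C₀ * m)
    (hsum : ∀ m ∈ T, ∑ i, β m i * m + ε * m ≤ ∑ p ∈ S, ∑ i, (a m p i : ℝ) * Real.log p)
    (hV0 : ∀ m ∈ T, V m 0 ≠ 0)
    (hspan : ∀ m ∈ T, ∀ w : Fin (n + 2) → ℚ, ∑ i, (V m i : ℚ) * w i = 0 →
      w ∈ Submodule.span ℚ (Set.range fun j : Fin (n + 1) => fun i => (u m j i : ℚ)))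
    (hden : ∀ m ∈ T, Real.exp (c * m) ≤ ((-(V m 1 : ℚ) / (V m 0 : ℚ)).den : ℝ)) :
    False := by
  classical
  -- constants
  have hlogp : ∀ p ∈ S, 0 < Real.log p := fun p hp =>
    Real.log_pos (by exact_mod_cast (hS p hp).one_lt)
  obtain ⟨Ls, hLs⟩ : ∃ Ls : ℝ, Ls = ∑ p ∈ S, Real.log p := ⟨_, rfl⟩
  have hLs0 : 0 ≤ Ls := by rw [hLs]; exact Finset.sum_nonneg fun p hp => (hlogp p hp).le
  have hLsp : ∀ p ∈ S, Real.log p ≤ Ls := by
    intro p hp
    rw [hLs]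
    exact Finset.single_le_sum (f := fun p : ℕ => Real.log p) (fun q hq => (hlogp q hq).le) hp
  obtain ⟨C, hC⟩ : ∃ C : ℝ, C = (|C₀| + 1) * (1 + Ls) := ⟨_, rfl⟩
  have hC0 : 0 ≤ C := by rw [hC]; positivity
  have hCC0 : C₀ ≤ C := by
    rw [hC]
    nlinarith only [le_abs_self C₀, abs_nonneg C₀, hLs0, hC, hC0]
  obtain ⟨M, hM⟩ : ∃ M : ℝ, M = 1 + ∑ i, |N i 0| := ⟨_, rfl⟩
  have hM1 : 1 ≤ M := by
    rw [hM]
    have : 0 ≤ ∑ i, |N i 0| := Finset.sum_nonneg fun i _ => abs_nonneg _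
    linarith only [this]
  have hMi : ∀ i, |N i 0| ≤ M := by
    intro i
    rw [hM]
    have h1 : |N i 0| ≤ ∑ i, |N i 0| := Finset.single_le_sum (f := fun i => |N i 0|)
      (fun i _ => abs_nonneg _) (Finset.mem_univ i)
    linarith only [h1]
  obtain ⟨κ, hκ⟩ : ∃ κ : ℝ, κ = (S.card + 1) *
      ((2 + C + ((n + 1 + 1 : ℕ) : ℝ) * C) + 2 * C) := ⟨_, rfl⟩
  have hκ0 : 0 < κ := by rw [hκ]; positivity
  obtain ⟨ν, hν⟩ : ∃ ν : ℝ, ν = ((n + 1 + 1 : ℕ) : ℝ) := ⟨_, rfl⟩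
  have hν0 : 0 < ν := by rw [hν]; positivity
  obtain ⟨τ, hτ⟩ : ∃ τ : ℝ, τ = min 1 (ε / (4 * ν * κ)) := ⟨_, rfl⟩
  have hτ0 : 0 < τ := by rw [hτ]; exact lt_min one_pos (by positivity)
  have hτ1 : τ ≤ 1 := by rw [hτ]; exact min_le_left _ _
  have hτκ : κ * τ ≤ ε / (4 * ν) := by
    have h1 : τ ≤ ε / (4 * ν * κ) := by rw [hτ]; exact min_le_right _ _
    calc κ * τ ≤ κ * (ε / (4 * ν * κ)) := by gcongr
      _ = ε / (4 * ν) := by field_simp
  obtain ⟨k₀, C₁, hC₁, haux⟩ := exists_aux (by omega : 1 ≤ n + 2) K N' hN' τ hτ0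
  obtain ⟨k, hk⟩ : ∃ k : ℕ, k = max k₀ 1 := ⟨_, rfl⟩
  have hk0 : k₀ ≤ k := by rw [hk]; exact le_max_left _ _
  have hk1 : 1 ≤ k := by rw [hk]; exact le_max_right _ _
  have hkpos : (0 : ℝ) < k := by exact_mod_cast hk1
  obtain ⟨ω, hω, hroth⟩ := roth_lemma k (τ / 2) (by positivity)
  -- pigeonhole
  have hT1 : (T \ {0}).Infinite := hT.sdiff (Set.finite_singleton 0)
  have hlamb : ∀ m ∈ T \ {0}, ∀ p ∈ S, ∀ i, |(a m p i : ℝ) * Real.log p / m| ≤ C := by
    intro m hm p hp i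
    have hm0 : (0 : ℝ) < m := by
      have : m ≠ 0 := fun h => hm.2 h
      exact_mod_cast Nat.pos_of_ne_zero this
    have h1 := ha m hm.1 p hp i
    have h2 := hlogp p hp
    have h3 := hLsp p hp
    have h4 : (0 : ℝ) ≤ a m p i := Nat.cast_nonneg _
    rw [abs_of_nonneg (by positivity), div_le_iff₀ hm0, hC]
    have h5 : (a m p i : ℝ) * Real.log p ≤ (C₀ * m) * Real.log p :=
      mul_le_mul_of_nonneg_right h1 h2.le
    have h6 : C₀ * m * Real.log p ≤ |C₀| * m * Ls := by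
      calc C₀ * m * Real.log p ≤ |C₀| * m * Real.log p := by
            gcongr
            exact le_abs_self _
        _ ≤ |C₀| * m * Ls := by gcongr
    have h7 : 0 ≤ |C₀| := abs_nonneg _
    nlinarith only [mul_nonneg h7 hm0.le, mul_nonneg hLs0 hm0.le, hm0, h5, h6, h7, hLs0]
  obtain ⟨T', hT'T, hT'inf, hT'⟩ := main_pigeon
    (ι := Fin (n + 2) ⊕ (S × Fin (n + 2)))
    (fun m => Sum.elim (fun i => β m i)
      (fun q => (a m q.1 q.2 : ℝ) * Real.log (q.1 : ℕ) / m)) C τ hτ0 (T \ {0}) hT1 (by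
      intro m hm i
      rcases i with i | q
      · simp only [Sum.elim_inl]
        exact (hβ m hm.1 i).trans hCC0
      · simp only [Sum.elim_inr]
        exact hlamb m hm q.1 q.1.2 q.2)
  have hTβ : ∀ m ∈ T', ∀ m' ∈ T', ∀ i, |β m i - β m' i| ≤ τ := fun m hm m' hm' i =>
    hT' m hm m' hm' (Sum.inl i)
  have hTa : ∀ m ∈ T', ∀ m' ∈ T', ∀ p ∈ S, ∀ i,
      |(a m p i : ℝ) * Real.log p / m - (a m' p i : ℝ) * Real.log p / m'| ≤ τ :=
    fun m hm m' hm' p hp i => hT' m hm m' hm' (Sum.inr (⟨p, hp⟩, i))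
  -- size constants
  obtain ⟨L1, hL1⟩ : ∃ L1 : ℝ, L1 = Real.log (C₁ * (((n + 1 : ℕ) : ℝ) + M)) := ⟨_, rfl⟩
  obtain ⟨L2, hL2⟩ : ∃ L2 : ℝ, L2 = |L1| + Real.log 8 + Real.log C₁ := ⟨_, rfl⟩
  have hlog8 : 0 < Real.log 8 := Real.log_pos (by norm_num)
  have hlogC₁ : 0 ≤ Real.log C₁ := Real.log_nonneg hC₁
  have hL20 : 0 < L2 := by rw [hL2]; positivity
  obtain ⟨m₀, hm₀⟩ : ∃ m₀ : ℕ, 8 * ν * L2 / ε + 2 * k * L2 / (ω * c) + 1 ≤ m₀ :=
    ⟨_, Nat.le_ceil _⟩
  have hpos1 : 0 ≤ 8 * ν * L2 / ε := by positivity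
  have hpos2 : 0 ≤ 2 * k * L2 / (ω * c) := by positivity
  have hm₀1 : 8 * ν * L2 / ε ≤ m₀ := by linarith only [hm₀, hpos2]
  have hm₀2 : 2 * k * L2 / (ω * c) ≤ m₀ := by linarith only [hm₀, hpos1]
  have hm₀3 : (1 : ℝ) ≤ m₀ := by linarith only [hm₀, hpos1, hpos2]
  have hm₀pos : (0 : ℝ) < m₀ := by linarith only [hm₀, hpos1, hpos2]
  obtain ⟨m, hmT, hmR⟩ := main_select T' hT'inf (2 / ω) m₀ k
  have hmm₀ : ∀ h, (m₀ : ℝ) ≤ m h := fun h => by exact_mod_cast (hmT h).2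
  have hmpos : ∀ h, (0 : ℝ) < m h := fun h => hm₀pos.trans_le (hmm₀ h)
  have hmT1 : ∀ h, m h ∈ T := fun h => (hT'T (hmT h).1).1
  obtain ⟨D, hD⟩ : ∃ D : ℝ, D = (∑ h, (m h : ℝ)) / τ + 1 := ⟨_, rfl⟩
  have hDpos : 0 < D := by rw [hD]; positivity
  have hDm : ∀ h, (m h : ℝ) ≤ τ * D := by
    intro h
    have h1 : (m h : ℝ) ≤ ∑ h, (m h : ℝ) :=
      Finset.single_le_sum (f := fun h => (m h : ℝ)) (fun _ _ => Nat.cast_nonneg _)
        (Finset.mem_univ h)
    have h2 : τ * D = (∑ h, (m h : ℝ)) + τ := by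
      rw [hD]
      field_simp
    rw [h2]
    linarith only [hτ0, h1]
  have hDm' : ∀ h, (m h : ℝ) ≤ D := fun h => (hDm h).trans (by nlinarith only [hτ1, hDpos])
  obtain ⟨d, hd⟩ : ∃ d : Fin k → ℕ, d = fun h => ⌈D / m h⌉₊ := ⟨_, rfl⟩
  have hdl : ∀ h, D / m h ≤ d h := fun h => by rw [hd]; exact Nat.le_ceil _
  have hdu : ∀ h, (d h : ℝ) < D / m h + 1 := fun h => by
    rw [hd]
    exact Nat.ceil_lt_add_one (div_pos hDpos (hmpos h)).le
  have hd1 : ∀ h, 1 ≤ d h := by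
    intro h
    have h1 : (0 : ℝ) < d h := (div_pos hDpos (hmpos h)).trans_le (hdl h)
    exact_mod_cast h1
  have hmd1 : ∀ h, D ≤ (m h : ℝ) * d h := by
    intro h
    have h1 := hdl h
    rw [div_le_iff₀ (hmpos h)] at h1
    linarith only [h1]
  have hmd2 : ∀ h, (m h : ℝ) * d h ≤ (1 + τ) * D := by
    intro h
    have h1 : (m h : ℝ) * d h ≤ m h * (D / m h + 1) :=
      mul_le_mul_of_nonneg_left (hdu h).le (hmpos h).le
    have h2 : (m h : ℝ) * (D / m h + 1) = D + m h := by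
      have := (hmpos h).ne'
      field_simp
    have h3 := hDm h
    linarith only [h1, h2, h3]
  have hd2 : ∀ h, (d h : ℝ) ≤ 2 * D / m h := by
    intro h
    rw [le_div_iff₀ (hmpos h)]
    have h1 := hmd2 h
    nlinarith only [h1, hτ1, hDpos]
  have hsumd : ((∑ h, d h : ℕ) : ℝ) ≤ 2 * k * D / m₀ := by
    push_cast
    calc ∑ h, (d h : ℝ) ≤ ∑ h : Fin k, 2 * D / m₀ := by
          refine Finset.sum_le_sum fun h _ => ?_
          refine (hd2 h).trans ?_
          have := hmm₀ h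
          gcongr
      _ = 2 * k * D / m₀ := by
          simp
          ring
  have hsumd0 : (0 : ℝ) ≤ ((∑ h, d h : ℕ) : ℝ) := Nat.cast_nonneg _
  have hsumdL : ((∑ h, d h : ℕ) : ℝ) * L2 ≤ ω * c * D := by
    have h1 : 2 * k * L2 ≤ m₀ * (ω * c) := by
      rw [div_le_iff₀ (by positivity)] at hm₀2
      linarith only [hm₀2]
    calc ((∑ h, d h : ℕ) : ℝ) * L2 ≤ 2 * k * D / m₀ * L2 := by gcongr
      _ = (2 * k * L2) * D / m₀ := by ring
      _ ≤ (m₀ * (ω * c)) * D / m₀ := by gcongr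
      _ = ω * c * D := by field_simp
  obtain ⟨P, hP0, hP1, hP2, hP3, hP4⟩ := haux k hk0 d hd1
  -- vanishing
  obtain ⟨ms, hms⟩ : ∃ ms : ℕ, ms = m ⟨0, hk1⟩ := ⟨_, rfl⟩
  have hmsT' : ms ∈ T' := by rw [hms]; exact (hmT _).1
  have hms0 : (0 : ℝ) < ms := by rw [hms]; exact hmpos _
  have hvan := main_vanish d hd1 N N' hN S hS C ε τ D M C₁ hC0 hτ0 hτ1 hDpos hMi hM1 hC₁ m
    (fun h => by exact_mod_cast hmpos h) hmd1 hmd2 (fun h i => β (m h) i) (β ms)
    (fun h i => hTβ _ (hmT h).1 _ hmsT' i)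
    (fun i => (hβ ms (hT'T hmsT').1 i).trans hCC0)
    (fun h i => (hβ (m h) (hmT1 h) i).trans hCC0)
    (fun h => a (m h)) (fun p i => (a ms p i : ℝ) * Real.log p / ms)
    (fun p hp h i => hTa _ (hmT h).1 _ hmsT' p hp i)
    (fun p hp i => hlamb ms (hT'T hmsT') p hp i)
    (fun p hp h i => hlamb (m h) (hT'T (hmT h).1) p hp i)
    (by
      have h1 := hsum ms (hT'T hmsT').1
      have h2 : (∑ i, β ms i + ε) * ms ≤ (∑ p ∈ S, ∑ i, (a ms p i : ℝ) * Real.log p / ms) * ms := by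
        have h3 : (∑ p ∈ S, ∑ i, (a ms p i : ℝ) * Real.log p / ms) * ms =
            ∑ p ∈ S, ∑ i, (a ms p i : ℝ) * Real.log p := by
          rw [Finset.sum_mul]
          refine Finset.sum_congr rfl fun p _ => ?_
          rw [Finset.sum_mul]
          refine Finset.sum_congr rfl fun i _ => ?_
          field_simp
        rw [h3, add_mul, Finset.sum_mul]
        exact h1
      exact le_of_mul_le_mul_right h2 hms0)
    (fun h => u (m h)) (fun h j i => hu (m h) (hmT1 h) j i)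
    (fun p hp h j i => hdiv (m h) (hmT1 h) p hp j i) P hP0 hP1 hP3 hP4
    (by
      rw [← hL1, ← hκ, ← hν]
      have h1 : ((∑ h, d h : ℕ) : ℝ) * L1 ≤ D * k * (ε / (4 * ν)) := by
        have h2 : 8 * ν * L2 ≤ m₀ * ε := by
          rw [div_le_iff₀ hε] at hm₀1
          linarith only [hm₀1]
        calc ((∑ h, d h : ℕ) : ℝ) * L1 ≤ ((∑ h, d h : ℕ) : ℝ) * L2 := by
              gcongr
              rw [hL2]
              have := le_abs_self L1
              linarith only [hlog8, hlogC₁, this]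
          _ ≤ 2 * k * D / m₀ * L2 := by gcongr
          _ = (k * D / (4 * ν * m₀)) * (8 * ν * L2) := by field_simp; ring
          _ ≤ (k * D / (4 * ν * m₀)) * (m₀ * ε) := by gcongr
          _ = D * k * (ε / (4 * ν)) := by field_simp
      have h2 : κ * τ * D * k ≤ ε / (4 * ν) * D * k := by gcongr
      have h3 : D * (k / ν) * ε = 4 * (D * k * (ε / (4 * ν))) := by field_simp
      have h4 : 0 < D * k * (ε / (4 * ν)) := by positivity
      nlinarith only [h1, h2, h3, h4])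
  obtain ⟨Q, hQ0, hQd, hQP, hQv⟩ := exists_restrict d hd1 P hP0 (fun J hJ => (hP1 J hJ).1)
    (fun h => u (m h)) (fun h => V (m h)) (fun h => hV0 _ (hmT1 h))
    (fun h w hw => hspan (m h) (hmT1 h) w hw) (τ * k) hvan
  have hG : (Real.exp (c * D)) ^ ω = Real.exp (ω * c * D) := by
    rw [← Real.exp_mul]
    congr 1
    ring
  obtain ⟨i, hi1, hi2⟩ := hroth d (fun h => -(V (m h) 1 : ℚ) / (V (m h) 0 : ℚ))
    (Real.exp (c * D)) Q hd1
    (by
      intro i j hij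
      have h1 := hmR i j hij
      have h2 := hd2 i
      have h3 := hmd1 j
      refine h2.trans ?_
      rw [div_le_iff₀ (hmpos i)]
      rw [div_mul_eq_mul_div, div_le_iff₀ hω] at h1
      have hdj : (0 : ℝ) < d j := by exact_mod_cast hd1 j
      nlinarith only [h3, h1])
    (by
      have : 0 < c * D := by positivity
      exact Real.one_lt_exp_iff.2 this)
    (by
      intro h
      have h1 := hden (m h) (hmT1 h)
      calc Real.exp (c * D) ≤ Real.exp (c * (m h * d h)) := by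
            apply Real.exp_le_exp.2
            have := hmd1 h
            gcongr
        _ = (Real.exp (c * m h)) ^ (d h) := by
            rw [← Real.exp_nat_mul]
            congr 1
            ring
        _ ≤ _ := by gcongr)
    (by
      rw [hG]
      have h1 : (8 : ℝ) ^ (∑ h, d h) = Real.exp (((∑ h, d h : ℕ) : ℝ) * Real.log 8) := by
        rw [Real.exp_nat_mul, Real.exp_log (by norm_num)]
      rw [h1]
      apply Real.exp_le_exp.2
      refine le_trans ?_ hsumdL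
      gcongr
      rw [hL2]
      have := abs_nonneg L1
      linarith only [hlogC₁, this])
    hQ0 hQd
    (by
      intro i
      rw [hG]
      rcases hQP i with h0 | ⟨J, hJ⟩
      · rw [h0]
        simp only [Int.cast_zero, abs_zero]
        positivity
      · rw [hJ]
        refine (hP2 J).trans ?_
        have h1 : C₁ ^ (∑ h, d h) = Real.exp (((∑ h, d h : ℕ) : ℝ) * Real.log C₁) := by
          rw [Real.exp_nat_mul, Real.exp_log (by linarith only [hC₁])]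
        rw [h1]
        apply Real.exp_le_exp.2
        refine le_trans ?_ hsumdL
        gcongr
        rw [hL2]
        have := abs_nonneg L1
        linarith only [hlog8, this])
  refine hi2 (hQv i ?_)
  have hk1' : (1 : ℝ) ≤ k := by exact_mod_cast hk1
  nlinarith only [hi1, hτ0, hkpos, hk1']

end SB

end

section

/-! Liouville, and the packaged hyperplane lemma. -/

open MvPolynomial

namespace SB

/-- Liouville's inequality for all rational numbers. -/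
theorem liouville_den (α : ℝ) (hirr : Irrational α) (halg : IsAlgebraic ℚ α) :
    ∃ A : ℝ, 0 < A ∧ ∃ D : ℕ, 1 ≤ D ∧ ∀ r : ℚ, 1 ≤ (r.den : ℝ) ^ D * (|α - r| * A) := by
  have halgZ : IsAlgebraic ℤ α := (IsFractionRing.isAlgebraic_iff ℤ ℚ ℝ).2 halg
  obtain ⟨f, f0, hf⟩ := halgZ
  have hf' : Polynomial.eval α (Polynomial.map (algebraMap ℤ ℝ) f) = 0 := by
    rw [Polynomial.eval_map_algebraMap]
    exact hf
  obtain ⟨A, hA, h⟩ := Liouville.exists_pos_real_of_irrational_root hirr f0 hf'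
  refine ⟨A, hA, f.natDegree + 1, by omega, fun r => ?_⟩
  have h1 := h r.num (r.den - 1)
  have hd : 1 ≤ r.den := r.pos
  have hd' : ((r.den - 1 : ℕ) : ℝ) + 1 = (r.den : ℝ) := by
    rw [Nat.cast_sub hd]; push_cast; ring
  rw [hd'] at h1
  have h2 : ((r.num : ℝ) / (r.den : ℝ)) = (r : ℝ) := by
    rw [Rat.cast_def]
  rw [h2] at h1
  have hd2 : (1 : ℝ) ≤ (r.den : ℝ) := by exact_mod_cast hd
  have h3 : (r.den : ℝ) ^ f.natDegree ≤ (r.den : ℝ) ^ (f.natDegree + 1) :=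
    pow_le_pow_right₀ hd2 (Nat.le_succ _)
  exact h1.trans (mul_le_mul_of_nonneg_right h3 (by positivity))

theorem log_eq_sum_of_primeFactors_subset {S : Finset ℕ} {E : ℕ} (hES : E.primeFactors ⊆ S) :
    Real.log (E : ℝ) = ∑ p ∈ S, (E.factorization p : ℝ) * Real.log p := by
  rw [Real.log_nat_eq_sum_factorization]
  unfold Finsupp.sum
  apply Finset.sum_subset (by simpa using hES)
  intro p _ hp
  have : E.factorization p = 0 := Finsupp.notMem_support_iff.1 hp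
  simp [this]

/-- The hyperplane lemma in multiplicative form. -/
theorem hyperplane_lemma' {n : ℕ} (K : IntermediateField ℚ ℝ) [FiniteDimensional ℚ K]
    (N N' : Matrix (Fin (n + 2)) (Fin (n + 2)) ℝ) (hN : N' * N = 1)
    (hN' : ∀ i j, N' i j ∈ K) (S : Finset ℕ) (hS : ∀ p ∈ S, p.Prime)
    (C₀ ε c : ℝ) (hε : 0 < ε) (hc : 0 < c) (T : Set ℕ) (hT : T.Infinite)
    (u : ℕ → Fin (n + 1) → Fin (n + 2) → ℤ) (V : ℕ → Fin (n + 2) → ℤ)
    (B : ℕ → Fin (n + 2) → ℝ) (E : ℕ → Fin (n + 2) → ℕ)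
    (hu : ∀ m ∈ T, ∀ j i, |∑ l, N i l * (u m j l : ℝ)| ≤ B m i)
    (hdiv : ∀ m ∈ T, ∀ j i, ((E m i : ℕ) : ℤ) ∣ u m j i)
    (hB : ∀ m ∈ T, ∀ i, Real.exp (-(C₀ * m)) ≤ B m i ∧ B m i ≤ Real.exp (C₀ * m))
    (hE0 : ∀ m ∈ T, ∀ i, E m i ≠ 0) (hES : ∀ m ∈ T, ∀ i, (E m i).primeFactors ⊆ S)
    (hE : ∀ m ∈ T, ∀ i, (E m i : ℝ) ≤ Real.exp (C₀ * m))
    (hprod : ∀ m ∈ T, (∏ i, B m i) * Real.exp (ε * m) ≤ ∏ i, (E m i : ℝ))
    (hV0 : ∀ m ∈ T, V m 0 ≠ 0)
    (hspan : ∀ m ∈ T, ∀ w : Fin (n + 2) → ℚ, ∑ i, (V m i : ℚ) * w i = 0 →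
      w ∈ Submodule.span ℚ (Set.range fun j : Fin (n + 1) => fun i => (u m j i : ℚ)))
    (hden : ∀ m ∈ T, Real.exp (c * m) ≤ ((-(V m 1 : ℚ) / (V m 0 : ℚ)).den : ℝ)) :
    False := by
  have hBpos : ∀ m ∈ T, ∀ i, 0 < B m i := fun m hm i =>
    lt_of_lt_of_le (Real.exp_pos _) (hB m hm i).1
  refine hyperplane_lemma K N N' hN hN' S hS (2 * |C₀|) ε c hε hc (T \ {0})
    (hT.sdiff (Set.finite_singleton 0)) u V (fun m i => Real.log (B m i) / m)
    (fun m p i => (E m i).factorization p) ?_ ?_ ?_ ?_ ?_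
    (fun m hm => hV0 m hm.1) (fun m hm => hspan m hm.1) (fun m hm => hden m hm.1)
  · intro m hm j i
    have hm0 : (m : ℝ) ≠ 0 := by
      have : m ≠ 0 := fun h => hm.2 (by simpa using h)
      exact_mod_cast this
    rw [div_mul_cancel₀ _ hm0, Real.exp_log (hBpos m hm.1 i)]
    exact hu m hm.1 j i
  · intro m hm p hp j i
    refine dvd_trans ?_ (hdiv m hm.1 j i)
    have : p ^ (E m i).factorization p ∣ E m i := Nat.ordProj_dvd _ _
    exact_mod_cast this
  · intro m hm i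
    have hm0 : 0 < (m : ℝ) := by
      have : m ≠ 0 := fun h => hm.2 (by simpa using h)
      exact_mod_cast Nat.pos_of_ne_zero this
    have h1 : -(C₀ * m) ≤ Real.log (B m i) := by
      rw [Real.le_log_iff_exp_le (hBpos m hm.1 i)]; exact (hB m hm.1 i).1
    have h2 : Real.log (B m i) ≤ C₀ * m := by
      rw [Real.log_le_iff_le_exp (hBpos m hm.1 i)]; exact (hB m hm.1 i).2
    have h3 : |Real.log (B m i) / m| ≤ C₀ := by
      rw [abs_le]
      constructor
      · rw [le_div_iff₀ hm0]; linarith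
      · rw [div_le_iff₀ hm0]; exact h2
    have h4 : C₀ ≤ |C₀| := le_abs_self _
    have h5 : 0 ≤ |C₀| := abs_nonneg _
    linarith
  · intro m hm p hp i
    have hm0 : 0 < (m : ℝ) := by
      have : m ≠ 0 := fun h => hm.2 (by simpa using h)
      exact_mod_cast Nat.pos_of_ne_zero this
    have hp2 : 2 ≤ p := (hS p hp).two_le
    have h1 : p ^ (E m i).factorization p ≤ E m i :=
      Nat.le_of_dvd (Nat.pos_of_ne_zero (hE0 m hm.1 i)) (Nat.ordProj_dvd _ _)
    have h2 : 2 ^ (E m i).factorization p ≤ E m i := (Nat.pow_le_pow_left hp2 _).trans h1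
    have h3 : (2 : ℝ) ^ (E m i).factorization p ≤ Real.exp (C₀ * m) := by
      refine le_trans ?_ (hE m hm.1 i)
      exact_mod_cast h2
    have h4 : ((E m i).factorization p : ℝ) * Real.log 2 ≤ C₀ * m := by
      have := Real.log_le_log (by positivity) h3
      rwa [Real.log_exp, Real.log_pow] at this
    have h5 : (1 : ℝ) / 2 < Real.log 2 := by
      have := Real.log_two_gt_d9
      linarith
    have h6 : C₀ * m ≤ |C₀| * m := mul_le_mul_of_nonneg_right (le_abs_self _) hm0.le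
    have h7 : 0 ≤ ((E m i).factorization p : ℝ) := by positivity
    have h8 : ((E m i).factorization p : ℝ) * (1 / 2) ≤ |C₀| * m := by
      refine le_trans (mul_le_mul_of_nonneg_left h5.le h7) (h4.trans h6)
    linarith
  · intro m hm
    have hm0 : (m : ℝ) ≠ 0 := by
      have : m ≠ 0 := fun h => hm.2 (by simpa using h)
      exact_mod_cast this
    have h1 : ∑ i, Real.log (B m i) / m * m = ∑ i, Real.log (B m i) :=
      Finset.sum_congr rfl fun i _ => div_mul_cancel₀ _ hm0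
    rw [h1, ← Real.log_prod (fun i _ => (hBpos m hm.1 i).ne'), Finset.sum_comm]
    have h2 : ∀ i, ∑ p ∈ S, ((E m i).factorization p : ℝ) * Real.log p = Real.log (E m i) :=
      fun i => (log_eq_sum_of_primeFactors_subset (hES m hm.1 i)).symm
    rw [Finset.sum_congr rfl fun i _ => h2 i,
      ← Real.log_prod (fun i _ => by exact_mod_cast hE0 m hm.1 i)]
    have hBp : 0 < ∏ i, B m i := Finset.prod_pos fun i _ => hBpos m hm.1 i
    have h3 : Real.log (∏ i, B m i) + ε * m =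
        Real.log ((∏ i, B m i) * Real.exp (ε * m)) := by
      rw [Real.log_mul hBp.ne' (Real.exp_pos _).ne', Real.log_exp]
    rw [h3]
    exact Real.log_le_log (mul_pos hBp (Real.exp_pos _)) (hprod m hm.1)

end SB

end

section

/-! Row bt-B01: Ridout. -/

namespace Pool.Agent.Lib.MP_b27257_nt.BT

open Finset

/-- The denominator of `x / y`. -/
theorem b01_den (x y w : ℤ) (hy : y ≠ 0) (hw : w ≠ 0) (hxy : x - y = w) :
    |(y : ℝ)| ≤ |(w : ℝ)| * (((x : ℚ) / (y : ℚ)).den : ℝ) := by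
  have hyQ : (y : ℚ) ≠ 0 := by exact_mod_cast hy
  -- `x / y = a / d` in lowest terms, so `y = d * g`, `x = a * g`
  set ρ : ℚ := (x : ℚ) / (y : ℚ) with hρ
  have hd0 : (ρ.den : ℤ) ≠ 0 := by exact_mod_cast ρ.den_nz
  have h1 : x * (ρ.den : ℤ) = ρ.num * y := by
    have h2 : (x : ℚ) / (y : ℚ) = (ρ.num : ℚ) / (ρ.den : ℚ) := by
      rw [← hρ]; exact (Rat.num_div_den ρ).symm
    have hdQ : (ρ.den : ℚ) ≠ 0 := by exact_mod_cast ρ.den_nz
    rw [div_eq_div_iff hyQ hdQ] at h2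
    exact_mod_cast h2
  have hcop : IsCoprime (ρ.den : ℤ) ρ.num := by
    rw [Int.isCoprime_iff_gcd_eq_one, Int.gcd_comm]
    exact ρ.reduced
  have hdvd : (ρ.den : ℤ) ∣ y := by
    apply hcop.dvd_of_dvd_mul_left
    exact ⟨x, by rw [← h1]; ring⟩
  obtain ⟨g, hg⟩ := hdvd
  have hx : x = ρ.num * g := by
    have h3 : x * (ρ.den : ℤ) = (ρ.num * g) * (ρ.den : ℤ) := by
      rw [h1, hg]; ring
    exact mul_right_cancel₀ hd0 h3
  have hgw : g ∣ w := by
    rw [← hxy, hx, hg]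
    exact ⟨ρ.num - ρ.den, by ring⟩
  have hgle : |(g : ℝ)| ≤ |(w : ℝ)| := by
    have h4 : |g| ≤ |w| := by
      have := Int.le_of_dvd (abs_pos.2 hw) ((abs_dvd_abs g w).2 hgw)
      exact this
    exact_mod_cast h4
  have hy2 : (y : ℝ) = (ρ.den : ℝ) * (g : ℝ) := by
    have : ((y : ℤ) : ℝ) = (((ρ.den : ℤ) * g : ℤ) : ℝ) := by rw [hg]
    rw [this]; push_cast; ring
  rw [hy2, abs_mul, Nat.abs_cast, mul_comm]
  exact mul_le_mul_of_nonneg_right hgle (by positivity)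

theorem b01_pf {n : ℕ} (hn : n ≠ 0) (k : ℕ) : (n ^ k).primeFactors ⊆ n.primeFactors := by
  intro x hx
  have h1 := Nat.prime_of_mem_primeFactors hx
  have h2 := Nat.dvd_of_mem_primeFactors hx
  exact Nat.mem_primeFactors.2 ⟨h1, h1.dvd_of_dvd_pow h2, hn⟩

theorem b01_pow_le {p : ℕ} (hp : 1 < p) {C : ℝ} {i h : ℕ} (hi : (i : ℝ) ≤ C * h) :
    (p : ℝ) ^ i ≤ Real.exp (|C| * Real.log p * h) := by
  have hp0 : (0 : ℝ) < p := by exact_mod_cast (by omega : 0 < p)
  have hl : 0 ≤ Real.log (p : ℝ) := Real.log_nonneg (by exact_mod_cast hp.le)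
  rw [← Real.log_le_iff_le_exp (by positivity), Real.log_pow]
  have h1 : (i : ℝ) ≤ |C| * h := hi.trans (mul_le_mul_of_nonneg_right (le_abs_self _) (by positivity))
  calc (i : ℝ) * Real.log p ≤ (|C| * h) * Real.log p := mul_le_mul_of_nonneg_right h1 hl
    _ = |C| * Real.log p * h := by ring

/-- **Ridout's theorem for `p^i z ≡ w` modulo `q^r`.** By contradiction: otherwise the set `T` of the `h` with a
counterexample is infinite; choose `i, r, w, z` for every `h ∈ T` and apply `SB.hyperplane_lemma'` with `n = 0`,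
`K = ⊥`, `N = !![1, -1; 1, 0]`, `N' = !![0, 1; -1, 1]`, `S = p.primeFactors ∪ q.primeFactors`, point
`u = ![x, y]`, `x = p^i z`, `y = x - w` (`q^r ∣ y`, `y ≠ 0`), `B = ![|w|, |x|]`, `E = ![p^i, q^r]`, `V = ![y, -x]`,
`ε = ε`, `c = ε`. `∏ B exp(ε h) = |w| p^i |z| exp(ε h) ≤ p^i q^r`; `den(x/y) ≥ |y|/gcd(x, y) ≥ |y|/|w| ≥
q^r/|w| ≥ exp(ε h)` since `gcd(x, y) ∣ w` and `|y| ≥ q^r`. Bounds: `1 ≤ |w|, |x|`; `|x| ≤ p^i q^r`,
`p^i = exp(i log p) ≤ exp(C' h)`. -/
theorem ridout_pq (p q : ℕ) (hp : 1 < p) (hq : 1 < q) (C ε : ℝ) (hε : 0 < ε) : ∃ h0 : ℕ, ∀ h : ℕ, h0 ≤ h →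
    ∀ i r : ℕ, (i : ℝ) ≤ C * h → (r : ℝ) ≤ C * h → ∀ w z : ℤ, w ≠ 0 → z ≠ 0 →
      ((q : ℤ) ^ r) ∣ (p : ℤ) ^ i * z - w → (p : ℤ) ^ i * z ≠ w →
      |(w : ℝ)| * |(z : ℝ)| * Real.exp (ε * h) ≤ (q : ℝ) ^ r →
      |(w : ℝ)| * Real.exp (ε * h) ≤ (q : ℝ) ^ r → False := by
  by_contra hcon
  have hcon' : ∀ h0 : ℕ, ∃ h : ℕ, h0 ≤ h ∧ ∃ (i r : ℕ) (w z : ℤ), (i : ℝ) ≤ C * h ∧ (r : ℝ) ≤ C * h ∧
      w ≠ 0 ∧ z ≠ 0 ∧ ((q : ℤ) ^ r) ∣ (p : ℤ) ^ i * z - w ∧ (p : ℤ) ^ i * z ≠ w ∧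
      |(w : ℝ)| * |(z : ℝ)| * Real.exp (ε * h) ≤ (q : ℝ) ^ r ∧
      |(w : ℝ)| * Real.exp (ε * h) ≤ (q : ℝ) ^ r := by
    intro h0
    by_contra hc
    apply hcon
    refine ⟨h0, fun h hh i r h1 h2 w z h3 h4 h5 h6 h7 h8 => hc ⟨h, hh, i, r, w, z, h1, h2, h3, h4, h5, h6, h7, h8⟩⟩
  set T : Set ℕ := {h | ∃ (i r : ℕ) (w z : ℤ), (i : ℝ) ≤ C * h ∧ (r : ℝ) ≤ C * h ∧
      w ≠ 0 ∧ z ≠ 0 ∧ ((q : ℤ) ^ r) ∣ (p : ℤ) ^ i * z - w ∧ (p : ℤ) ^ i * z ≠ w ∧
      |(w : ℝ)| * |(z : ℝ)| * Real.exp (ε * h) ≤ (q : ℝ) ^ r ∧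
      |(w : ℝ)| * Real.exp (ε * h) ≤ (q : ℝ) ^ r} with hT
  have hTinf : T.Infinite := by
    apply Set.infinite_of_forall_exists_gt
    intro a
    obtain ⟨h, hh, hP⟩ := hcon' (a + 1)
    exact ⟨h, hP, by omega⟩
  have hch : ∀ h : ℕ, ∃ (i r : ℕ) (w z : ℤ), h ∈ T → ((i : ℝ) ≤ C * h ∧ (r : ℝ) ≤ C * h ∧
      w ≠ 0 ∧ z ≠ 0 ∧ ((q : ℤ) ^ r) ∣ (p : ℤ) ^ i * z - w ∧ (p : ℤ) ^ i * z ≠ w ∧
      |(w : ℝ)| * |(z : ℝ)| * Real.exp (ε * h) ≤ (q : ℝ) ^ r ∧
      |(w : ℝ)| * Real.exp (ε * h) ≤ (q : ℝ) ^ r) := by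
    intro h
    by_cases hh : h ∈ T
    · obtain ⟨i, r, w, z, hP⟩ := hh
      exact ⟨i, r, w, z, fun _ => hP⟩
    · exact ⟨0, 0, 0, 0, fun h' => absurd h' hh⟩
  choose i r w z hP using hch
  have hp0 : (0 : ℝ) < p := by exact_mod_cast (by omega : 0 < p)
  have hq0 : (0 : ℝ) < q := by exact_mod_cast (by omega : 0 < q)
  have hlp : 0 ≤ Real.log (p : ℝ) := Real.log_nonneg (by exact_mod_cast hp.le)
  have hlq : 0 ≤ Real.log (q : ℝ) := Real.log_nonneg (by exact_mod_cast hq.le)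
  set C₀ : ℝ := |C| * Real.log p + |C| * Real.log q with hC₀
  have hC₀0 : 0 ≤ C₀ := by positivity
  -- basic bounds
  have hW : ∀ h ∈ T, (1 : ℝ) ≤ |(w h : ℝ)| := fun h hh => by
    have := Int.one_le_abs (hP h hh).2.2.1
    exact_mod_cast this
  have hZ : ∀ h ∈ T, (1 : ℝ) ≤ |(z h : ℝ)| := fun h hh => by
    have := Int.one_le_abs (hP h hh).2.2.2.1
    exact_mod_cast this
  have hE1 : ∀ h : ℕ, (1 : ℝ) ≤ Real.exp (ε * h) := fun h => Real.one_le_exp (by positivity)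
  have hPi : ∀ h ∈ T, (p : ℝ) ^ i h ≤ Real.exp (|C| * Real.log p * h) := fun h hh => b01_pow_le hp (hP h hh).1
  have hQr : ∀ h ∈ T, (q : ℝ) ^ r h ≤ Real.exp (|C| * Real.log q * h) := fun h hh => b01_pow_le hq (hP h hh).2.1
  have hexp1 : ∀ h : ℕ, Real.exp (|C| * Real.log p * h) ≤ Real.exp (C₀ * h) := fun h => by
    apply Real.exp_le_exp.2
    apply mul_le_mul_of_nonneg_right _ (by positivity)
    rw [hC₀]; nlinarith only [abs_nonneg C, hlq]
  have hexp2 : ∀ h : ℕ, Real.exp (|C| * Real.log q * h) ≤ Real.exp (C₀ * h) := fun h => by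
    apply Real.exp_le_exp.2
    apply mul_le_mul_of_nonneg_right _ (by positivity)
    rw [hC₀]; nlinarith only [abs_nonneg C, hlp]
  have hexp3 : ∀ h : ℕ, Real.exp (|C| * Real.log p * h) * Real.exp (|C| * Real.log q * h) = Real.exp (C₀ * h) :=
    fun h => by rw [← Real.exp_add]; congr 1; rw [hC₀]; ring
  have hexpn : ∀ h : ℕ, Real.exp (-(C₀ * h)) ≤ 1 := fun h => by
    rw [Real.exp_le_one_iff]
    have : 0 ≤ C₀ * (h : ℝ) := by positivity
    linarith only [this]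
  have hxabs : ∀ h, |(((p : ℤ) ^ i h * z h : ℤ) : ℝ)| = (p : ℝ) ^ i h * |(z h : ℝ)| := fun h => by
    push_cast
    rw [abs_mul, abs_pow, Nat.abs_cast]
  have hp1 : ∀ h, (1 : ℝ) ≤ (p : ℝ) ^ i h := fun h => one_le_pow₀ (by exact_mod_cast hp.le)
  have hwle : ∀ h ∈ T, |(w h : ℝ)| ≤ (q : ℝ) ^ r h := fun h hh => by
    have h1 := (hP h hh).2.2.2.2.2.2.2
    refine le_trans ?_ h1
    exact le_mul_of_one_le_right (abs_nonneg _) (hE1 h)
  have hzle : ∀ h ∈ T, |(z h : ℝ)| ≤ (q : ℝ) ^ r h := fun h hh => by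
    have h1 := (hP h hh).2.2.2.2.2.2.1
    refine le_trans ?_ h1
    have h2 : |(z h : ℝ)| ≤ |(w h : ℝ)| * |(z h : ℝ)| := le_mul_of_one_le_left (abs_nonneg _) (hW h hh)
    exact h2.trans (le_mul_of_one_le_right (by positivity) (hE1 h))
  refine SB.hyperplane_lemma' (n := 0) (⊥ : IntermediateField ℚ ℝ) !![1, -1; 1, 0] !![0, 1; -1, 1] ?_ ?_
    (p.primeFactors ∪ q.primeFactors) ?_ C₀ ε ε hε hε T hTinf
    (fun h _ => ![(p : ℤ) ^ i h * z h, (p : ℤ) ^ i h * z h - w h])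
    (fun h => ![(p : ℤ) ^ i h * z h - w h, -((p : ℤ) ^ i h * z h)])
    (fun h => ![|(w h : ℝ)|, |(((p : ℤ) ^ i h * z h : ℤ) : ℝ)|])
    (fun h => ![p ^ i h, q ^ r h]) ?_ ?_ ?_ ?_ ?_ ?_ ?_ ?_ ?_ ?_
  · ext a b
    fin_cases a <;> fin_cases b <;> simp [Matrix.mul_apply, Fin.sum_univ_two]
  · intro a b
    fin_cases a <;> fin_cases b
    · exact zero_mem _
    · exact one_mem _
    · exact neg_mem (one_mem _)
    · exact one_mem _
  · intro a ha
    rw [Finset.mem_union] at ha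
    rcases ha with ha | ha
    · exact Nat.prime_of_mem_primeFactors ha
    · exact Nat.prime_of_mem_primeFactors ha
  · -- hu
    intro h hh j a
    fin_cases a
    · simp [Fin.sum_univ_two]
    · simp [Fin.sum_univ_two]
  · -- hdiv
    intro h hh j a
    fin_cases a
    · simp
    · simpa using (hP h hh).2.2.2.2.1
  · -- hB
    intro h hh a
    fin_cases a
    · constructor
      · exact (hexpn h).trans (hW h hh)
      · exact (hwle h hh).trans ((hQr h hh).trans (hexp2 h))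
    · constructor
      · show _ ≤ |(((p : ℤ) ^ i h * z h : ℤ) : ℝ)|
        rw [hxabs]
        refine (hexpn h).trans ?_
        calc (1 : ℝ) = 1 * 1 := by ring
          _ ≤ (p : ℝ) ^ i h * |(z h : ℝ)| := mul_le_mul (hp1 h) (hZ h hh) (by norm_num) (by positivity)
      · show |(((p : ℤ) ^ i h * z h : ℤ) : ℝ)| ≤ _
        rw [hxabs, ← hexp3]
        exact mul_le_mul (hPi h hh) ((hzle h hh).trans (hQr h hh)) (abs_nonneg _) (Real.exp_pos _).le
  · -- hE0
    intro h hh a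
    fin_cases a
    · exact pow_ne_zero _ (by omega)
    · exact pow_ne_zero _ (by omega)
  · -- hES
    intro h hh a
    fin_cases a
    · exact (b01_pf (by omega) (i h)).trans Finset.subset_union_left
    · exact (b01_pf (by omega) (r h)).trans Finset.subset_union_right
  · -- hE
    intro h hh a
    fin_cases a
    · simpa using (hPi h hh).trans (hexp1 h)
    · simpa using (hQr h hh).trans (hexp2 h)
  · -- hprod
    intro h hh
    rw [Fin.prod_univ_two, Fin.prod_univ_two]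
    show |(w h : ℝ)| * |(((p : ℤ) ^ i h * z h : ℤ) : ℝ)| * Real.exp (ε * h) ≤ ((p ^ i h : ℕ) : ℝ) * ((q ^ r h : ℕ) : ℝ)
    rw [hxabs]
    push_cast
    have h1 := (hP h hh).2.2.2.2.2.2.1
    calc |(w h : ℝ)| * ((p : ℝ) ^ i h * |(z h : ℝ)|) * Real.exp (ε * h)
        = (p : ℝ) ^ i h * (|(w h : ℝ)| * |(z h : ℝ)| * Real.exp (ε * h)) := by ring
      _ ≤ (p : ℝ) ^ i h * (q : ℝ) ^ r h := mul_le_mul_of_nonneg_left h1 (by positivity)
  · -- hV0
    intro h hh
    exact sub_ne_zero.2 (hP h hh).2.2.2.2.2.1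
  · -- hspan
    intro h hh v hv
    rw [Fin.sum_univ_two] at hv
    have hy0 : (((p : ℤ) ^ i h * z h - w h : ℤ) : ℚ) ≠ 0 := by
      exact_mod_cast sub_ne_zero.2 (hP h hh).2.2.2.2.2.1
    have hv' : (((p : ℤ) ^ i h * z h - w h : ℤ) : ℚ) * v 0 + ((-((p : ℤ) ^ i h * z h) : ℤ) : ℚ) * v 1 = 0 := hv
    have : v = (v 1 / (((p : ℤ) ^ i h * z h - w h : ℤ) : ℚ)) •
        (fun a : Fin 2 => (((![(p : ℤ) ^ i h * z h, (p : ℤ) ^ i h * z h - w h] : Fin 2 → ℤ) a : ℤ) : ℚ)) := by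
      ext a
      fin_cases a
      · show v 0 = (v 1 / (((p : ℤ) ^ i h * z h - w h : ℤ) : ℚ)) * (((p : ℤ) ^ i h * z h : ℤ) : ℚ)
        rw [div_mul_eq_mul_div, eq_div_iff hy0]
        push_cast at hv' ⊢
        linear_combination hv'
      · show v 1 = (v 1 / (((p : ℤ) ^ i h * z h - w h : ℤ) : ℚ)) * (((p : ℤ) ^ i h * z h - w h : ℤ) : ℚ)
        rw [div_mul_cancel₀ _ hy0]
    rw [this]
    apply Submodule.smul_mem
    apply Submodule.subset_span
    exact ⟨0, rfl⟩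
  · -- hden
    intro h hh
    have hy0 : (p : ℤ) ^ i h * z h - w h ≠ 0 := sub_ne_zero.2 (hP h hh).2.2.2.2.2.1
    have h1 := b01_den ((p : ℤ) ^ i h * z h) ((p : ℤ) ^ i h * z h - w h) (w h) hy0 (hP h hh).2.2.1 (by ring)
    have h2 : (q : ℝ) ^ r h ≤ |(((p : ℤ) ^ i h * z h - w h : ℤ) : ℝ)| := by
      have h3 : ((q : ℤ) ^ r h) ≤ |(p : ℤ) ^ i h * z h - w h| :=
        Int.le_of_dvd (abs_pos.2 hy0) ((dvd_abs _ _).2 (hP h hh).2.2.2.2.1)
      exact_mod_cast h3
    have h4 := (hP h hh).2.2.2.2.2.2.2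
    have h5 : |(w h : ℝ)| * Real.exp (ε * h) ≤
        |(w h : ℝ)| * (((((p : ℤ) ^ i h * z h : ℤ) : ℚ) / (((p : ℤ) ^ i h * z h - w h : ℤ) : ℚ)).den : ℝ) :=
      h4.trans (h2.trans h1)
    have h6 : 0 < |(w h : ℝ)| := lt_of_lt_of_le one_pos (hW h hh)
    have h7 := le_of_mul_le_mul_left h5 h6
    have h8 : (-((-((p : ℤ) ^ i h * z h) : ℤ) : ℚ) / (((p : ℤ) ^ i h * z h - w h : ℤ) : ℚ)) =
        (((p : ℤ) ^ i h * z h : ℤ) : ℚ) / (((p : ℤ) ^ i h * z h - w h : ℤ) : ℚ) := by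
      congr 1
      push_cast
      ring
    show Real.exp (ε * h) ≤ ((-((-((p : ℤ) ^ i h * z h) : ℤ) : ℚ) / (((p : ℤ) ^ i h * z h - w h : ℤ) : ℚ)).den : ℝ)
    rw [h8]
    exact h7

end Pool.Agent.Lib.MP_b27257_nt.BT

end
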