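import Mathlib

section

/-! Survivors of the ceiling map beyond the trivial bound: definitions. -/

namespace Pool.Agent.Lib.MP_b27257_nt.BT

open Finset

/-- The ceiling map `x ↦ ⌈p x / q⌉`. -/
def T (p q x : ℕ) : ℕ := (p * x + q - 1) / q

/-- The digits `a < q` with `q ∣ p s + a` for some `s ∈ S`. -/
def dg (p q : ℕ) (S : Finset ℕ) : Finset ℕ := (range q).filter fun a => ∃ s ∈ S, q ∣ p * s + a

/-- The integer attached to a word: `x ≡ X a` modulo `q^m` when the word of `x` is `a`. -/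
def X (P : ℤ) (q : ℕ) {m : ℕ} (a : Fin m → ℕ) : ℤ := -∑ j : Fin m, (a j : ℤ) * P ^ (j.1 + 1) * (q : ℤ) ^ j.1

/-- Site: the class of `P^i / q^r` modulo one. -/
noncomputable def st (P : ℤ) (q i r : ℕ) : UnitAddCircle :=
  (((P : ℝ) ^ i / (q : ℝ) ^ r : ℝ) : UnitAddCircle)

/-- `e(y) = exp(2 π i y)`. -/
noncomputable def ee (y : ℝ) : ℂ := Complex.exp (2 * Real.pi * Complex.I * y)

/-- Absolute value of the character sum over the digits. -/
noncomputable def gs (A : Finset ℕ) (y : ℝ) : ℝ := ‖∑ a ∈ A, ee (a * y)‖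

open Classical in
/-- White positions `j < ℓ` of the frequency `w` in the segment `[t, t + ℓ)`. -/
noncomputable def wh (P : ℤ) (q m Q t ℓ : ℕ) (w : ℤ) : Finset ℕ :=
  (range ℓ).filter fun j => 1 / (Q : ℝ) < ‖w • st P q (t + j + 1) (m - (t + j))‖

end Pool.Agent.Lib.MP_b27257_nt.BT

end

section

/-! Row bt-B02: sites. -/

namespace Pool.Agent.Lib.MP_b27257_nt.BT

open Finset

theorem b02_eq {x y : ℝ} {n : ℤ} (h : x - y = n) : (x : UnitAddCircle) = (y : UnitAddCircle) := by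
  have h1 : ((x - y : ℝ) : UnitAddCircle) = 0 := by
    rw [h]
    exact (AddCircle.coe_eq_zero_iff (1 : ℝ)).mpr ⟨n, by simp⟩
  rw [AddCircle.coe_sub, sub_eq_zero] at h1
  exact h1

theorem b02_nsmul (n : ℕ) (x : ℝ) : n • (x : UnitAddCircle) = ((n * x : ℝ) : UnitAddCircle) := by
  rw [← AddCircle.coe_nsmul, nsmul_eq_mul]

theorem b02_zsmul (n : ℤ) (x : ℝ) : n • (x : UnitAddCircle) = ((n * x : ℝ) : UnitAddCircle) := by
  rw [← AddCircle.coe_zsmul, zsmul_eq_mul]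

/-- `p P^(i+1) = P^i + P^i (p P - 1)`, and `q^r ∣ p P - 1`. -/
theorem st_p {P : ℤ} {p q m : ℕ} (hq : 0 < q) (hP : P * p ≡ 1 [ZMOD (q : ℤ) ^ m]) {i r : ℕ} (hr : r ≤ m) :
    p • st P q (i + 1) r = st P q i r := by
  have hq0 : (q : ℝ) ≠ 0 := by exact_mod_cast hq.ne'
  have hdvd : (q : ℤ) ^ r ∣ P * p - 1 := (pow_dvd_pow _ hr).trans (Int.modEq_iff_dvd.mp hP.symm)
  obtain ⟨c, hc⟩ := hdvd
  have hc' : (P : ℝ) * p - 1 = (q : ℝ) ^ r * c := by exact_mod_cast hc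
  rw [st, st, b02_nsmul]
  refine b02_eq (n := P ^ i * c) ?_
  push_cast
  have h1 : (q : ℝ) ^ r ≠ 0 := pow_ne_zero _ hq0
  field_simp
  linear_combination (P : ℝ) ^ i * hc'

theorem st_q_pow {P : ℤ} {q : ℕ} (hq : 0 < q) (i r n : ℕ) : q ^ n • st P q i (r + n) = st P q i r := by
  have hq0 : (q : ℝ) ≠ 0 := by exact_mod_cast hq.ne'
  have h1 : (q : ℝ) ^ r ≠ 0 := pow_ne_zero _ hq0
  have h2 : (q : ℝ) ^ n ≠ 0 := pow_ne_zero _ hq0
  rw [st, st, b02_nsmul]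
  congr 1
  push_cast
  rw [pow_add]
  field_simp

/-- The norm in `UnitAddCircle` of `w • st P q i r` comes from an integer `z ≡ w P^i` modulo `q^r`; it satisfies
`p^i z ≡ w` modulo `q^r` (`UnitAddCircle.norm_eq`: `‖x‖ = |x - round x|`). -/
theorem exists_z {P : ℤ} {p q m : ℕ} (hq : 0 < q) (hP : P * p ≡ 1 [ZMOD (q : ℤ) ^ m]) {i r : ℕ} (hr : r ≤ m)
    (w : ℤ) : ∃ z : ℤ, ((q : ℤ) ^ r) ∣ (p : ℤ) ^ i * z - w ∧ |(z : ℝ)| = ‖w • st P q i r‖ * (q : ℝ) ^ r := by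
  have hq0 : (0 : ℝ) < q := by exact_mod_cast hq
  have h1 : (0 : ℝ) < (q : ℝ) ^ r := pow_pos hq0 _
  have hP1 : (P * p) ^ i ≡ 1 [ZMOD (q : ℤ) ^ m] := by simpa using hP.pow i
  have hdvd : (q : ℤ) ^ r ∣ (P * p) ^ i - 1 := (pow_dvd_pow _ hr).trans (Int.modEq_iff_dvd.mp hP1.symm)
  obtain ⟨c, hc⟩ := hdvd
  set n : ℤ := round ((w : ℝ) * ((P : ℝ) ^ i / (q : ℝ) ^ r)) with hn
  refine ⟨w * P ^ i - n * (q : ℤ) ^ r, ⟨w * c - (p : ℤ) ^ i * n, ?_⟩, ?_⟩
  · rw [mul_pow] at hc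
    linear_combination w * hc
  · rw [st, b02_zsmul, UnitAddCircle.norm_eq, ← hn, ← abs_of_pos h1, ← abs_mul, abs_of_pos h1]
    congr 1
    push_cast
    field_simp

end Pool.Agent.Lib.MP_b27257_nt.BT

end

section

/-! Row bt-B03: the triangle step. -/

namespace Pool.Agent.Lib.MP_b27257_nt.BT

open Finset

/-- Lift `Y` to `y : ℝ`; `p y = ξ + k`, `k = round (p y)`, `|ξ| = ‖p • Y‖ ≤ δ`. If `p ∣ k` then `Y` is the class of
`ξ / p`. Otherwise `n y = n ξ / p + n k / p`, and `n k / p` has distance `≥ 1/p` from the integers, so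
`‖n • Y‖ ≥ 1/p - n δ / p > η`. -/
theorem tri_step {p n : ℕ} (hp : 0 < p) (hpn : Nat.Coprime p n) (Y : UnitAddCircle) {δ η : ℝ}
    (h1 : ‖p • Y‖ ≤ δ) (h2 : ‖n • Y‖ ≤ η) (h : n * δ / p + η < 1 / p) : ‖Y‖ ≤ δ / p := by
  obtain ⟨y, rfl⟩ := QuotientAddGroup.mk_surjective Y
  have hp' : (0 : ℝ) < p := Nat.cast_pos.2 hp
  have e1 : ∀ m : ℕ, m • ((QuotientAddGroup.mk y : UnitAddCircle)) =
      (((m : ℝ) * y : ℝ) : UnitAddCircle) := by
    intro m
    rw [← nsmul_eq_mul]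
    rfl
  rw [e1, UnitAddCircle.norm_eq] at h1 h2
  show ‖((y : ℝ) : UnitAddCircle)‖ ≤ δ / p
  rw [UnitAddCircle.norm_eq]
  by_cases hk : (p : ℤ) ∣ round ((p : ℝ) * y)
  · obtain ⟨k, hk⟩ := hk
    refine (round_le y k).trans ?_
    rw [le_div_iff₀ hp', ← abs_of_pos hp', ← abs_mul]
    rw [hk] at h1
    have e2 : (y - k) * (p : ℝ) = p * y - ((p * k : ℤ) : ℝ) := by
      push_cast
      ring
    rw [e2]
    exact h1
  · exfalso
    obtain ⟨M, hM⟩ : ∃ M, M = round ((n : ℝ) * y) := ⟨_, rfl⟩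
    obtain ⟨k, hk'⟩ : ∃ k, k = round ((p : ℝ) * y) := ⟨_, rfl⟩
    rw [← hk'] at hk h1
    rw [← hM] at h2
    have h3 : (n : ℤ) * k - M * p ≠ 0 := by
      intro h0
      apply hk
      have h4 : (p : ℤ) ∣ n * k := ⟨M, by linarith⟩
      exact (Int.isCoprime_iff_gcd_eq_one.2 (by
        rw [Int.gcd_natCast_natCast]
        exact hpn)).dvd_of_dvd_mul_left h4
    have h5 : (1 : ℝ) ≤ |(n : ℝ) * k - M * p| := by
      have h6 := Int.one_le_abs h3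
      exact_mod_cast h6
    have e3 : (n : ℝ) * k - M * p = p * (n * y - M) - n * (p * y - k) := by ring
    rw [e3] at h5
    have h7 : |(p : ℝ) * (n * y - M) - n * (p * y - k)| ≤ p * η + n * δ := by
      refine (abs_sub _ _).trans ?_
      rw [abs_mul, abs_mul, abs_of_pos hp', abs_of_nonneg (Nat.cast_nonneg (α := ℝ) n)]
      exact add_le_add (mul_le_mul_of_nonneg_left h2 hp'.le)
        (mul_le_mul_of_nonneg_left h1 (Nat.cast_nonneg n))
    have h8 : (n * δ / p + η) * p < 1 / p * p := mul_lt_mul_of_pos_right h hp'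
    rw [one_div_mul_cancel hp'.ne', add_mul, div_mul_cancel₀ _ hp'.ne'] at h8
    linarith

end Pool.Agent.Lib.MP_b27257_nt.BT

end
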