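import Mathlib
import Pool.Agent.Lib.MP_d0d59f_nt.PZ.K001
import Pool.Agent.Lib.MP_d0d59f_nt.PZ.K002

section

/-! Row C1 (about 200 lines): Fourier analysis on `ZMod (3^K)`. -/

namespace Pool.Agent.Lib.MP_d0d59f_nt.AA

open Finset

theorem ps_add (K : ℕ) (x y : ZMod (3 ^ K)) : ps K (x + y) = ps K x * ps K y := by
  unfold ps
  exact AddChar.map_add_eq_mul _ _ _

theorem ps_zero (K : ℕ) : ps K 0 = 1 := by
  unfold ps
  exact AddChar.map_zero_eq_one _

/-- `ps K c = exp(2πi c/3^K)` for integers `c` (`ZMod.stdAddChar_coe`). -/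
theorem ps_coe (K : ℕ) (c : ℤ) :
    ps K (c : ZMod (3 ^ K)) = Complex.exp (2 * Real.pi * Complex.I * c / 3 ^ K) := by
  unfold ps
  rw [ZMod.stdAddChar_coe]
  push_cast
  rfl

theorem norm_ps (K : ℕ) (x : ZMod (3 ^ K)) : ‖ps K x‖ = 1 := by
  have hx : ((x.valMinAbs : ℤ) : ZMod (3 ^ K)) = x := ZMod.coe_valMinAbs x
  rw [← hx, ps_coe]
  have : (2 * (Real.pi : ℂ) * Complex.I * (x.valMinAbs : ℂ) / 3 ^ K) =
      (((2 * Real.pi * (x.valMinAbs : ℝ) / 3 ^ K : ℝ)) : ℂ) * Complex.I := by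
    push_cast
    ring
  rw [this]
  exact Complex.norm_exp_ofReal_mul_I _

/-- Orthogonality (`AddChar.sum_mulShift`, `ZMod.isPrimitive_stdAddChar`). -/
theorem sum_ps_mul (K : ℕ) (a : ZMod (3 ^ K)) :
    ∑ ξ : ZMod (3 ^ K), ps K (ξ * a) = if a = 0 then ((3 : ℂ) ^ K) else 0 := by
  have h := AddChar.sum_mulShift (ψ := (ZMod.stdAddChar : AddChar (ZMod (3 ^ K)) ℂ)) a
    (ZMod.isPrimitive_stdAddChar (3 ^ K))
  unfold ps
  rw [h, ZMod.card]
  split_ifs
  · push_cast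
    rfl
  · simp

theorem c1a_conj (K : ℕ) (x : ZMod (3 ^ K)) :
    (starRingEnd ℂ) (ps K x) = ps K (-x) := by
  have h1 : ps K x * ps K (-x) = 1 := by
    rw [← ps_add, add_neg_cancel, ps_zero]
  have h2 : ps K x * (starRingEnd ℂ) (ps K x) = 1 := by
    rw [Complex.mul_conj, Complex.normSq_eq_norm_sq, norm_ps]
    simp
  have h3 : ps K x ≠ 0 := by
    intro h
    rw [h, zero_mul] at h1
    exact zero_ne_one h1
  exact mul_left_cancel₀ h3 (h2.trans h1.symm)

/-- Plancherel: expand `‖∑_Y f(Y) ps(ξY)‖² = ∑_{Y,Y'} f(Y) f(Y') ps(ξ(Y-Y'))` and sum over `ξ`. -/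
theorem plancherel (K : ℕ) (f : ZMod (3 ^ K) → ℝ) :
    ∑ ξ : ZMod (3 ^ K), ‖∑ Y : ZMod (3 ^ K), (f Y : ℂ) * ps K (ξ * Y)‖ ^ 2 =
      (3 : ℝ) ^ K * ∑ Y : ZMod (3 ^ K), f Y ^ 2 := by
  have key : ((∑ ξ : ZMod (3 ^ K), ‖∑ Y : ZMod (3 ^ K), (f Y : ℂ) * ps K (ξ * Y)‖ ^ 2 : ℝ) : ℂ) =
      (((3 : ℝ) ^ K * ∑ Y : ZMod (3 ^ K), f Y ^ 2 : ℝ) : ℂ) := by
    have h1 : ∀ ξ : ZMod (3 ^ K),
        ((‖∑ Y : ZMod (3 ^ K), (f Y : ℂ) * ps K (ξ * Y)‖ ^ 2 : ℝ) : ℂ) =
        ∑ Y : ZMod (3 ^ K), ∑ Z : ZMod (3 ^ K), ((f Y : ℂ) * (f Z : ℂ)) * ps K (ξ * (Y - Z)) := by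
      intro ξ
      rw [← Complex.normSq_eq_norm_sq, ← Complex.mul_conj, map_sum, Finset.sum_mul_sum]
      refine Finset.sum_congr rfl fun Y _ => Finset.sum_congr rfl fun Z _ => ?_
      rw [map_mul, Complex.conj_ofReal, c1a_conj, mul_sub, sub_eq_add_neg, ps_add]
      ring
    rw [Complex.ofReal_sum]
    simp_rw [h1]
    rw [Finset.sum_comm]
    have h2 : ∀ Y : ZMod (3 ^ K), ∑ ξ : ZMod (3 ^ K), ∑ Z : ZMod (3 ^ K),
        ((f Y : ℂ) * (f Z : ℂ)) * ps K (ξ * (Y - Z)) = (f Y : ℂ) ^ 2 * (3 : ℂ) ^ K := by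
      intro Y
      rw [Finset.sum_comm]
      have h3 : ∀ Z : ZMod (3 ^ K), ∑ ξ : ZMod (3 ^ K),
          ((f Y : ℂ) * (f Z : ℂ)) * ps K (ξ * (Y - Z)) =
          if Y = Z then (f Y : ℂ) * (f Z : ℂ) * (3 : ℂ) ^ K else 0 := by
        intro Z
        rw [← Finset.mul_sum, sum_ps_mul]
        by_cases h : Y = Z
        · subst h
          simp
        · have h' : Y - Z ≠ 0 := sub_ne_zero.mpr h
          simp [h, h']
      simp_rw [h3]
      rw [Finset.sum_ite_eq]
      simp only [Finset.mem_univ, if_true]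
      ring
    simp_rw [h2]
    rw [← Finset.sum_mul]
    push_cast
    ring
  exact_mod_cast key

/-- `|1 + ps w| = 2 |cos(π aa w)|`. -/
theorem norm_one_add_ps (K : ℕ) (w : ZMod (3 ^ K)) :
    ‖1 + ps K w‖ = 2 * |Real.cos (Real.pi * aa K w)| := by
  have hx : ((w.valMinAbs : ℤ) : ZMod (3 ^ K)) = w := ZMod.coe_valMinAbs w
  have h0 : ps K w = Complex.exp (2 * Real.pi * Complex.I * (w.valMinAbs : ℤ) / 3 ^ K) := by
    rw [← ps_coe, hx]
  set t : ℝ := Real.pi * ((w.valMinAbs : ℝ) / 3 ^ K) with ht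
  have h1 : (2 * (Real.pi : ℂ) * Complex.I * (w.valMinAbs : ℂ) / 3 ^ K) =
      ((t : ℂ) * Complex.I) + ((t : ℂ) * Complex.I) := by
    rw [ht]
    push_cast
    ring
  have h2 : Real.cos (Real.pi * aa K w) = Real.cos t := by
    unfold aa
    rw [ht]
    have h3 : (0 : ℝ) < 3 ^ K := by positivity
    rcases abs_choice (w.valMinAbs : ℝ) with h | h
    · rw [h]
    · rw [h, neg_div, mul_neg, Real.cos_neg]
  have h4 : 1 + Complex.exp ((t : ℂ) * Complex.I + (t : ℂ) * Complex.I) =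
      Complex.exp ((t : ℂ) * Complex.I) * (2 * Complex.cos t) := by
    rw [Complex.two_cos, mul_add, ← Complex.exp_add, ← Complex.exp_add]
    have : (t : ℂ) * Complex.I + -(t : ℂ) * Complex.I = 0 := by ring
    rw [this, Complex.exp_zero]
    ring
  rw [h0, h1, h4, norm_mul, Complex.norm_exp_ofReal_mul_I, one_mul, norm_mul, h2]
  rw [← Complex.ofReal_cos, Complex.norm_real, Real.norm_eq_abs]
  simp

end Pool.Agent.Lib.MP_d0d59f_nt.AA

end

section

/-!
Positive lower density of the predecessor sets of `T_d`: definitions.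

Words are lists of natural numbers `≥ 1`; the HEAD is the first step DOWN from the root of the inverse tree.
-/

namespace Pool.Agent.Lib.MP_d0d59f_nt.PD

open Finset

/-- The word `α` has integer nodes at the root `x` (map `3x+1`); the last node may be divisible by `3`. -/
def vd (α : List ℕ) (x : ℤ) : Prop := (3 : ℤ) ^ α.length ∣ 2 ^ α.sum * x - (AA.cc α : ℤ)

/-- End node of the word `α` at the root `x`. -/
def nd (α : List ℕ) (x : ℤ) : ℤ := (2 ^ α.sum * x - (AA.cc α : ℤ)) / 3 ^ α.length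

/-- Weight `3^n / 2^{|α|}` of a word of length `n`. -/
noncomputable def wt (α : List ℕ) : ℝ := 3 ^ α.length / 2 ^ α.sum

/-- The barrier. -/
def bar (α : List ℕ) : Prop :=
  ∀ i ≤ α.length, 5 * i ≤ 3 * (α.take i).sum + 100 ∧ (α.take i).sum ≤ 3 * i + 100

/-- Words of length `n` with entries `≥ 1` and sum `≤ L`. -/
def Wd (n L : ℕ) : Finset (List ℕ) := (range (L + 1)).biUnion fun l => AA.comps n l

open Classical in
/-- Words of length `n` in the barrier. -/
noncomputable def Rn (n : ℕ) : Finset (List ℕ) := (Wd n (3 * n + 100)).filter bar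

open Classical in
/-- Weighted sum over the barrier words of length `n` with integer nodes at `x`. -/
noncomputable def EE (n : ℕ) (f : List ℕ → ℤ → ℝ) (x : ℤ) : ℝ :=
  ∑ α ∈ Rn n, if vd α x then wt α * f α (nd α x) else 0

/-- Some prefix of length `j ∈ (s, k]` deviates. -/
def bad (s k : ℕ) (γ : List ℕ) : Prop :=
  ∃ j, s < j ∧ j ≤ k ∧ (3 * (γ.take j).sum < 5 * j ∨ 3 * j < (γ.take j).sum)

open Classical in
/-- Weight of the bad words of length `k` at `z`. -/
noncomputable def Vb (s k L : ℕ) (z : ℤ) : ℝ :=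
  ∑ γ ∈ Wd k L, if vd γ z ∧ bad s k γ then wt γ else 0

/-- The oscillation function: `∑_r ∑_l |w_{m,l,r}(z) - w_{m,l}(z)/3|`. -/
noncomputable def hm (m L : ℕ) (z : ℤ) : ℝ :=
  3 ^ m * ∑ r ∈ range 3, ∑ l ∈ range (L + 1),
    |AA.pz 1 (r : ℤ) (m + 1) m l (z : ZMod (3 ^ (m + 1)))
      - (3 : ℝ) ^ m / 3 ^ (m + 1) * AA.pz 1 (r : ℤ) m m l (z : ZMod (3 ^ m))|

/-- The curve `⌊log₂ (M 3^n)⌋`. -/
def lev (M n : ℕ) : ℕ := Nat.log 2 (M * 3 ^ n)

/-- The test function: half below the curve, one on the curve, zero above. -/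
noncomputable def VV (M n j : ℕ) : ℝ := if j < lev M n then 1 / 2 else if j = lev M n then 1 else 0

/-- The increment of the test function at a node `z` of valuation `j`. -/
noncomputable def DD (M A n j : ℕ) (z : ℤ) : ℝ :=
  ∑ a ∈ Icc 1 A, ((if (3 : ℤ) ∣ 2 ^ a * z - 1 then 3 else 0) - 1) * (1 / 2) ^ a * VV M (n + 1) (j + a)

open Classical in
/-- Weight of the barrier words of length `n` with valuation exactly on the curve. -/
noncomputable def hit (M n : ℕ) (x : ℤ) : ℝ :=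
  ∑ α ∈ Rn n, if vd α x ∧ α.sum = lev M n then wt α else 0

/-- Past hits plus expected future. -/
noncomputable def TT (M n : ℕ) (x : ℤ) : ℝ :=
  ∑ i ∈ range n, hit M i x + EE n (fun α _ => VV M n α.sum) x

end Pool.Agent.Lib.MP_d0d59f_nt.PD

end

section

/-! Power saving: definitions. -/

namespace Pool.Agent.Lib.MP_d0d59f_nt.PW

open Finset

/-- The barrier with constant `e`: `3^(N i) ≤ (2^(e + s_i))^(N-1)` for all prefixes. -/
def lbar (N e : ℕ) (α : List ℕ) : Prop :=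
  ∀ i ≤ α.length, 3 ^ (N * i) ≤ 2 ^ ((N - 1) * (e + (α.take i).sum))

open Classical in
/-- Words of length `n`, entries `≥ 1`, sum `≤ L`, in the barrier. -/
noncomputable def Rq (N e n L : ℕ) : Finset (List ℕ) := (PD.Wd n L).filter (lbar N e)

open Classical in
/-- Weighted sum over the barrier words of length `n` with integer nodes at `x`. -/
noncomputable def EQ (N e n L : ℕ) (f : List ℕ → ℤ → ℝ) (x : ℤ) : ℝ :=
  ∑ α ∈ Rq N e n L, if PD.vd α x then PD.wt α * f α (PD.nd α x) else 0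

open Classical in
/-- Weight of the words of length `m` with sum `> 10 m`. -/
noncomputable def tl (m L : ℕ) (z : ℤ) : ℝ :=
  ∑ β ∈ PD.Wd m L, if PD.vd β z ∧ 10 * m < β.sum then PD.wt β else 0

/-- The supersolution. -/
noncomputable def phi (M : ℝ) (n j : ℕ) : ℝ := 40 * min 1 (Real.sqrt (M * 3 ^ n / 2 ^ j))

/-- Truncated supersolution. -/
noncomputable def pht (L : ℕ) (M : ℝ) (n j : ℕ) : ℝ := if j ≤ L then phi M n j else 0

/-- `(n, j)` is on the curve `2^j ≤ M 3^n < 2^(j+1)`. -/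
def onc (M : ℝ) (n j : ℕ) : Prop := (2 : ℝ) ^ j ≤ M * 3 ^ n ∧ M * 3 ^ n < 2 ^ (j + 1)

/-- Increment of the truncated supersolution at a node `z` of valuation `j`. -/
noncomputable def DU (L : ℕ) (M : ℝ) (n j : ℕ) (z : ℤ) : ℝ :=
  if j ≤ L then ∑ a ∈ Icc 1 L, ((if (3 : ℤ) ∣ 2 ^ a * z - 1 then 3 else 0) - 1) * (1 / 2) ^ a *
    pht L M (n + 1) (j + a) else 0

open Classical in
/-- Weight of the barrier words of length `n` on the curve. -/
noncomputable def hitU (N e L : ℕ) (M : ℝ) (n : ℕ) (x : ℤ) : ℝ :=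
  ∑ α ∈ Rq N e n L, if PD.vd α x ∧ onc M n α.sum then PD.wt α else 0

/-- Past hits plus supersolution. -/
noncomputable def TU (N e L : ℕ) (M : ℝ) (n : ℕ) (x : ℤ) : ℝ :=
  ∑ i ∈ range n, hitU N e L M i x + EQ N e n L (fun α _ => pht L M n α.sum) x

/-- Height of `z` in units of `d`. -/
def ht (d z : ℤ) : ℕ := Nat.log 2 (z.natAbs / d.natAbs)

/-- The drop of height which is asked for: `⌊N h/(N+1)⌋`. -/
def gg (N h : ℕ) : ℕ := N * h / (N + 1)

/-- `z` is bad: it stays at height `≥ gg N h` for `gg N h` steps, `h` its height. -/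
def isBad (d : ℤ) (N : ℕ) (z : ℤ) : Prop :=
  ∀ k ≤ gg N (ht d z), gg N (ht d z) ≤ ht d ((T d)^[k] z)

end Pool.Agent.Lib.MP_d0d59f_nt.PW

end

section

/-! Power saving beyond the stopping time exponent: definitions. -/

namespace Pool.Agent.Lib.MP_d0d59f_nt.PX

open Finset
open Pool.Agent.Lib.MP_b27257_nt.BT (st ee)

/-- Weight of a pair of steps with `c` odd steps. -/
noncomputable def om (lam : ℝ) (c : ℕ) : ℝ := if c = 0 then 1 else if c = 1 then 2 * lam else lam ^ 2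

/-- Weight of a skeleton. -/
noncomputable def wl (lam : ℝ) (l : List ℕ) : ℝ := (l.map (om lam)).prod

/-- Skeletons: the lists of length `n` with entries `0, 1, 2`. -/
def Sk : ℕ → Finset (List ℕ)
  | 0 => {[]}
  | n + 1 => ((range 3) ×ˢ Sk n).image fun x => x.1 :: x.2

/-- Product of the cosines at the mixed pairs; `r` bits remain, `i` odd steps so far. -/
noncomputable def cosP (P v : ℤ) : ℕ → ℕ → List ℕ → ℝ
  | _, _, [] => 1
  | r, i, c :: cs => (if c = 1 then |Real.cos (Real.pi * ((v : ℝ) * ((P : ℝ) ^ (i + 1) / 2 ^ r)))| else 1) *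
      cosP P v (r - 2) (i + c) cs

/-- Weighted exponential sum over the classes modulo `2^r`. -/
noncomputable def Ph (lam : ℝ) (d : ℤ) (r : ℕ) (w : ℤ) : ℂ :=
  ∑ z ∈ range (2 ^ r), (lam : ℂ) ^ ones d (z : ℤ) r * ee ((w : ℝ) * z / 2 ^ r)

/-- The cell `s` of `G` pairs of the list `l`. -/
def cell (G : ℕ) (l : List ℕ) (s : ℕ) : List ℕ := (l.drop (s * G)).take G

/-- Number of cells `s < R` without a mixed pair. -/
def nbad (G R : ℕ) (l : List ℕ) : ℕ := ((range R).filter fun s => 1 ∉ cell G l s).card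

/-- First coordinate of the mark of the cell `s`. -/
def mI (G i : ℕ) (l : List ℕ) (s : ℕ) : ℕ :=
  i + (l.take (s * G)).sum +
    (if 1 ∈ cell G l s then ((cell G l s).take ((cell G l s).idxOf 1)).sum + 1 else 0)

/-- Second coordinate of the mark of the cell `s`. -/
def mR (G r : ℕ) (l : List ℕ) (s : ℕ) : ℕ :=
  r - 2 * (s * G) - (if 1 ∈ cell G l s then 2 * (cell G l s).idxOf 1 else 0)

open Classical in
/-- The cells with a mixed pair whose mark is white for `v`. -/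
noncomputable def gw (P : ℤ) (G R Q r i : ℕ) (l : List ℕ) (v : ℤ) : Finset ℕ :=
  (range R).filter fun s => 1 ∈ cell G l s ∧ 1 / (Q : ℝ) < ‖v • st P 2 (mI G i l s) (mR G r l s)‖

/-- The number of values recorded. -/
def Qf (G : ℕ) : ℕ := 8 * 6 ^ (4 * G)

/-- `z` is bad: it stays at height `≥ gg N h` for `2 h` steps, `h` its height. -/
def isBad2 (d : ℤ) (N : ℕ) (z : ℤ) : Prop :=
  ∀ k ≤ 2 * PW.ht d z, PW.gg N (PW.ht d z) ≤ PW.ht d ((T d)^[k] z)

/-- The critical proportion `log 2 / log 3` of odd steps. -/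
noncomputable def rho0 : ℝ := Real.log 2 / Real.log 3

/-- The optimal weight `rho0 / (1 - rho0)`. -/
noncomputable def lam0 : ℝ := rho0 / (1 - rho0)

end Pool.Agent.Lib.MP_d0d59f_nt.PX

end
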