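import Pool.Agent.Lib.MP_d0d59f_nt.PZ.K003

section

/-! Row C1 (about 200 lines): Fourier analysis on `ZMod (3^K)`. -/

namespace Pool.Agent.Lib.MP_d0d59f_nt.AA

open Finset

theorem c1b_three_pow (K : ℕ) : (3 : ZMod (3 ^ (K + 1))) ^ (K + 1) = 0 := by
  have h : ((3 ^ (K + 1) : ℕ) : ZMod (3 ^ (K + 1))) = 0 := ZMod.natCast_self _
  push_cast at h
  exact h

/-- powers of the character value -/
theorem c1b_ps_nat (K : ℕ) (x : ZMod (3 ^ K)) (j : ℕ) : ps K ((j : ZMod (3 ^ K)) * x) = ps K x ^ j := by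
  induction j with
  | zero => simp [ps_zero]
  | succ j ih => rw [Nat.cast_succ, add_mul, one_mul, ps_add, ih, pow_succ]

theorem c1b_w3 (K : ℕ) (ξ : ZMod (3 ^ (K + 1))) :
    ps (K + 1) (-((3 : ZMod (3 ^ (K + 1))) ^ K * ξ)) ^ 3 = 1 := by
  rw [← c1b_ps_nat]
  have : ((3 : ℕ) : ZMod (3 ^ (K + 1))) * (-((3 : ZMod (3 ^ (K + 1))) ^ K * ξ)) = 0 := by
    push_cast
    have h : (3 : ZMod (3 ^ (K + 1))) ^ K * 3 = 0 :=
      (pow_succ (3 : ZMod (3 ^ (K + 1))) K).symm.trans (c1b_three_pow K)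
    have e : (3 : ZMod (3 ^ (K + 1))) * (-((3 : ZMod (3 ^ (K + 1))) ^ K * ξ)) =
      -(3 ^ K * 3 * ξ) := by ring
    rw [e, h, zero_mul, neg_zero]
  rw [this, ps_zero]

theorem c1b_w_ne (K : ℕ) (ξ : ZMod (3 ^ (K + 1))) (h : (3 : ZMod (3 ^ (K + 1))) ^ K * ξ ≠ 0) :
    ps (K + 1) (-((3 : ZMod (3 ^ (K + 1))) ^ K * ξ)) ≠ 1 := by
  intro h1
  rw [← ps_zero (K + 1)] at h1
  have h2 := ZMod.injective_stdAddChar (N := 3 ^ (K + 1)) h1
  exact h (neg_eq_zero.1 h2)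

theorem c1b_sum_w (K : ℕ) (ξ : ZMod (3 ^ (K + 1))) :
    (1 / 3 : ℂ) * ∑ j ∈ range 3, ps (K + 1) (-((3 : ZMod (3 ^ (K + 1))) ^ K * ξ)) ^ j =
      if (3 : ZMod (3 ^ (K + 1))) ^ K * ξ = 0 then 1 else 0 := by
  split_ifs with h
  · rw [h, neg_zero, ps_zero]; norm_num
  · have h3 := c1b_w3 K ξ
    have hne := c1b_w_ne K ξ h
    set w := ps (K + 1) (-((3 : ZMod (3 ^ (K + 1))) ^ K * ξ)) with hw
    have hz : (w - 1) * (1 + w + w ^ 2) = 0 := by
      have : (w - 1) * (1 + w + w ^ 2) = w ^ 3 - 1 := by ring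
      rw [this, h3, sub_self]
    have hz2 : 1 + w + w ^ 2 = 0 := (mul_eq_zero.1 hz).resolve_left (sub_ne_zero.2 hne)
    rw [sum_range_succ, sum_range_succ, sum_range_one, pow_zero, pow_one, hz2, mul_zero]

/-- Fourier transform of a translate -/
theorem c1b_shift (K : ℕ) (f : ZMod (3 ^ (K + 1)) → ℝ) (ξ : ZMod (3 ^ (K + 1))) (j : ℕ) :
    ∑ Y : ZMod (3 ^ (K + 1)), (f (Y + (j : ZMod (3 ^ (K + 1))) * 3 ^ K) : ℂ) * ps (K + 1) (ξ * Y) =
      ps (K + 1) (-((3 : ZMod (3 ^ (K + 1))) ^ K * ξ)) ^ j *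
        ∑ Y : ZMod (3 ^ (K + 1)), (f Y : ℂ) * ps (K + 1) (ξ * Y) := by
  rw [← Equiv.sum_comp (Equiv.addRight ((j : ZMod (3 ^ (K + 1))) * 3 ^ K))
    (fun Y : ZMod (3 ^ (K + 1)) => (f Y : ℂ) * ps (K + 1) (ξ * Y)), mul_sum]
  refine sum_congr rfl fun Y _ => ?_
  rw [← c1b_ps_nat]
  simp only [Equiv.coe_addRight]
  have e : ps (K + 1) (ξ * Y) =
      ps (K + 1) ((j : ZMod (3 ^ (K + 1))) * -((3 : ZMod (3 ^ (K + 1))) ^ K * ξ)) *
        ps (K + 1) (ξ * (Y + (j : ZMod (3 ^ (K + 1))) * 3 ^ K)) := by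
    rw [← ps_add]
    refine congrArg _ ?_
    ring
  rw [e]; ring

/-- Fourier transform of `f - pr K f`: `f̂(ξ)` if `3^K ξ ≠ 0` and `0` otherwise. Indeed (translation)
`∑_Y f(Y + j 3^K) ps(ξ Y) = ps(-ξ j 3^K) f̂(ξ)`, and `(1/3) ∑_{j<3} ps(-j ξ 3^K)` is `1` if `ξ 3^K = 0` and otherwise
`0`: `w = ps(-ξ 3^K) ≠ 1` (injectivity of the standard character), `w^3 = ps(-ξ 3^{K+1}) = 1`, `1 + w + w² = 0`. -/
theorem fourier_sub_pr (K : ℕ) (f : ZMod (3 ^ (K + 1)) → ℝ) (ξ : ZMod (3 ^ (K + 1))) :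
    ∑ Y : ZMod (3 ^ (K + 1)), ((f Y - pr K f Y : ℝ) : ℂ) * ps (K + 1) (ξ * Y) =
      if (3 : ZMod (3 ^ (K + 1))) ^ K * ξ = 0 then 0
      else ∑ Y : ZMod (3 ^ (K + 1)), (f Y : ℂ) * ps (K + 1) (ξ * Y) := by
  have h1 : ∑ Y : ZMod (3 ^ (K + 1)), ((pr K f Y : ℝ) : ℂ) * ps (K + 1) (ξ * Y) =
      (if (3 : ZMod (3 ^ (K + 1))) ^ K * ξ = 0 then 1 else 0) *
        ∑ Y : ZMod (3 ^ (K + 1)), (f Y : ℂ) * ps (K + 1) (ξ * Y) := by
    rw [← c1b_sum_w, mul_assoc, sum_mul]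
    rw [← sum_congr rfl fun j _ => c1b_shift K f ξ j, sum_comm, mul_sum]
    refine sum_congr rfl fun Y _ => ?_
    unfold pr
    push_cast
    rw [mul_assoc, sum_mul]
  have h2 : ∑ Y : ZMod (3 ^ (K + 1)), ((f Y - pr K f Y : ℝ) : ℂ) * ps (K + 1) (ξ * Y) =
      ∑ Y : ZMod (3 ^ (K + 1)), (f Y : ℂ) * ps (K + 1) (ξ * Y) -
      ∑ Y : ZMod (3 ^ (K + 1)), ((pr K f Y : ℝ) : ℂ) * ps (K + 1) (ξ * Y) := by
    rw [← sum_sub_distrib]
    refine sum_congr rfl fun Y _ => ?_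
    push_cast
    ring
  rw [h2, h1]
  split_ifs with h
  · ring
  · ring

/-- Cauchy-Schwarz `(∑ |g|)² ≤ 3^(K+1) ∑ g²` with `g = f - pr K f`, and `plancherel`, `fourier_sub_pr`. -/
theorem l1_pr_le (K : ℕ) (f : ZMod (3 ^ (K + 1)) → ℝ) :
    ∑ Y : ZMod (3 ^ (K + 1)), |f Y - pr K f Y| ≤
      Real.sqrt (∑ ξ : ZMod (3 ^ (K + 1)), if (3 : ZMod (3 ^ (K + 1))) ^ K * ξ = 0 then (0 : ℝ)
        else ‖∑ Y : ZMod (3 ^ (K + 1)), (f Y : ℂ) * ps (K + 1) (ξ * Y)‖ ^ 2) := by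
  refine Real.le_sqrt_of_sq_le ?_
  have h1 := sq_sum_le_card_mul_sum_sq (s := (univ : Finset (ZMod (3 ^ (K + 1)))))
    (f := fun Y => |f Y - pr K f Y|)
  refine h1.trans (le_of_eq ?_)
  have h2 := plancherel (K + 1) (fun Y => f Y - pr K f Y)
  rw [card_univ, ZMod.card]
  simp only [sq_abs]
  push_cast
  rw [← h2]
  refine sum_congr rfl fun ξ _ => ?_
  rw [fourier_sub_pr]
  split_ifs with h
  · simp
  · rfl

/-- `|f - pr f| ≤ |f| + pr |f|`, and `∑_Y pr |f| = ∑_Y |f|` (translation invariance). -/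
theorem l1_pr_le_two (K : ℕ) (f : ZMod (3 ^ (K + 1)) → ℝ) :
    ∑ Y : ZMod (3 ^ (K + 1)), |f Y - pr K f Y| ≤ 2 * ∑ Y : ZMod (3 ^ (K + 1)), |f Y| := by
  have h1 : ∀ Y : ZMod (3 ^ (K + 1)), |f Y - pr K f Y| ≤
      |f Y| + (1 / 3) * ∑ j ∈ range 3, |f (Y + (j : ZMod (3 ^ (K + 1))) * 3 ^ K)| := by
    intro Y
    refine (abs_sub _ _).trans (add_le_add le_rfl ?_)
    unfold pr
    rw [abs_mul, abs_of_pos (by norm_num : (0 : ℝ) < 1 / 3)]
    exact mul_le_mul_of_nonneg_left (abs_sum_le_sum_abs _ _) (by norm_num)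
  refine (sum_le_sum fun Y _ => h1 Y).trans ?_
  rw [sum_add_distrib, ← mul_sum, sum_comm]
  have h2 : ∀ j ∈ range 3, ∑ Y : ZMod (3 ^ (K + 1)), |f (Y + (j : ZMod (3 ^ (K + 1))) * 3 ^ K)| =
      ∑ Y : ZMod (3 ^ (K + 1)), |f Y| := fun j _ =>
    Equiv.sum_comp (Equiv.addRight ((j : ZMod (3 ^ (K + 1))) * 3 ^ K)) (fun Y => |f Y|)
  rw [sum_congr rfl h2, sum_const, card_range, nsmul_eq_mul]
  push_cast
  linarith

end Pool.Agent.Lib.MP_d0d59f_nt.AA

end

section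

/-! Row px-X01: skeletons. -/

namespace Pool.Agent.Lib.MP_d0d59f_nt.PX

open Finset
open Pool.Agent.Lib.MP_b27257_nt.BT (st ee)

theorem mem_Sk {n : ℕ} {l : List ℕ} : l ∈ Sk n ↔ l.length = n ∧ ∀ c ∈ l, c < 3 := by
  induction n generalizing l with
  | zero =>
    simp only [Sk, mem_singleton, List.length_eq_zero_iff]
    constructor
    · rintro rfl; simp
    · rintro ⟨h, -⟩; exact h
  | succ n ih =>
    simp only [Sk, mem_image, mem_product, mem_range, Prod.exists]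
    constructor
    · rintro ⟨a, b, ⟨ha, hb⟩, rfl⟩
      rw [ih] at hb
      refine ⟨by simp [hb.1], ?_⟩
      intro c hc
      rcases List.mem_cons.1 hc with h | h
      · rw [h]; exact ha
      · exact hb.2 c h
    · rintro ⟨hl, hc⟩
      cases l with
      | nil => simp at hl
      | cons a b =>
        refine ⟨a, b, ⟨hc a (by simp), ih.2 ⟨by simpa using hl, fun c h => hc c (by simp [h])⟩⟩, rfl⟩

theorem sum_Sk_succ (n : ℕ) (f : List ℕ → ℝ) :
    ∑ l ∈ Sk (n + 1), f l = ∑ l ∈ Sk n, f (0 :: l) + ∑ l ∈ Sk n, f (1 :: l) + ∑ l ∈ Sk n, f (2 :: l) := by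
  rw [Sk, sum_image, sum_product]
  · simp [sum_range_succ]
  · rintro ⟨a, b⟩ - ⟨c, d⟩ - h
    simp only [List.cons.injEq] at h
    exact Prod.ext h.1 h.2

theorem sum_Sk_add (a b : ℕ) (f : List ℕ → ℝ) :
    ∑ l ∈ Sk (a + b), f l = ∑ l ∈ Sk a, ∑ l' ∈ Sk b, f (l ++ l') := by
  induction a generalizing f with
  | zero => simp [Sk]
  | succ a ih =>
    rw [show a + 1 + b = (a + b) + 1 by ring, sum_Sk_succ, sum_Sk_succ, ih, ih, ih]
    simp only [List.cons_append]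

theorem wl_append (lam : ℝ) (l l' : List ℕ) : wl lam (l ++ l') = wl lam l * wl lam l' := by
  simp [wl]

theorem wl_nonneg {lam : ℝ} (h : 0 ≤ lam) (l : List ℕ) : 0 ≤ wl lam l := by
  apply List.prod_nonneg
  intro a ha
  obtain ⟨c, -, rfl⟩ := List.mem_map.1 ha
  unfold om
  split_ifs
  · norm_num
  · positivity
  · positivity

/-- `1 + 2 lam + lam^2 = (1 + lam)^2`. -/
theorem sum_wl (lam : ℝ) (n : ℕ) : ∑ l ∈ Sk n, wl lam l = (1 + lam) ^ (2 * n) := by
  induction n with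
  | zero => simp [Sk, wl]
  | succ n ih =>
    have h : ∀ (c : ℕ) (l : List ℕ), wl lam (c :: l) = om lam c * wl lam l := fun c l => by simp [wl]
    rw [sum_Sk_succ]
    simp only [h, ← mul_sum, ih]
    simp only [om, if_true, one_ne_zero, if_false, two_ne_zero, OfNat.ofNat_ne_one]
    ring

end Pool.Agent.Lib.MP_d0d59f_nt.PX

end

section

/-! Row px-X08: marks. -/

namespace Pool.Agent.Lib.MP_d0d59f_nt.PX

open Finset
open Pool.Agent.Lib.MP_b27257_nt.BT (st ee)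

theorem x08_sum_le : ∀ {l : List ℕ}, (∀ c ∈ l, c < 3) → l.sum ≤ 2 * l.length
  | [], _ => by simp
  | c :: l, h => by
    have h1 := h c (by simp)
    have h2 := x08_sum_le (l := l) (fun x hx => h x (by simp [hx]))
    simp only [List.sum_cons, List.length_cons]
    omega

theorem x08_idx : ∀ {l : List ℕ}, 1 ∈ l → (l.take (l.idxOf 1)).sum + 1 ≤ l.sum
  | [], h => by simp at h
  | c :: l, h => by
    by_cases hc : c = 1
    · subst hc
      simp
    · have h' : 1 ∈ l := by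
        rcases List.mem_cons.1 h with h | h
        · exact absurd h.symm hc
        · exact h
      have h2 := x08_idx h'
      rw [List.idxOf_cons_ne _ hc]
      simp only [List.take_succ_cons, List.sum_cons]
      omega

theorem x08_cell {G R : ℕ} {l : List ℕ} (hl : l ∈ Sk (R * G)) {s : ℕ} (_hs : s < R) :
    (l.take ((s + 1) * G)).sum = (l.take (s * G)).sum + (cell G l s).sum ∧
    (cell G l s).sum ≤ 2 * G ∧ (l.take (s * G)).sum ≤ 2 * (s * G) ∧
    (if 1 ∈ cell G l s then ((cell G l s).take ((cell G l s).idxOf 1)).sum + 1 else 0) ≤ (cell G l s).sum ∧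
    (if 1 ∈ cell G l s then 2 * (cell G l s).idxOf 1 else 0) ≤ 2 * G := by
  obtain ⟨hlen, hlt⟩ := mem_Sk.1 hl
  have hc : ∀ c ∈ cell G l s, c < 3 := fun c hc =>
    hlt c (List.mem_of_mem_drop (List.mem_of_mem_take hc))
  have hcl : (cell G l s).length ≤ G := by
    unfold cell
    rw [List.length_take]
    exact min_le_left _ _
  refine ⟨?_, ?_, ?_, ?_, ?_⟩
  · have : l.take ((s + 1) * G) = l.take (s * G) ++ cell G l s := by
      unfold cell
      rw [← List.take_add]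
      congr 1
      ring
    rw [this, List.sum_append]
  · have := x08_sum_le hc
    omega
  · have h1 := x08_sum_le (l := l.take (s * G)) (fun c hc => hlt c (List.mem_of_mem_take hc))
    have h2 : (l.take (s * G)).length ≤ s * G := by
      rw [List.length_take]
      exact min_le_left _ _
    omega
  · split_ifs with h
    · exact x08_idx h
    · exact Nat.zero_le _
  · split_ifs with h
    · have := List.idxOf_lt_length_of_mem h
      omega
    · exact Nat.zero_le _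

/-- The pair at the mark of the cell `s` is in the cell `s`: with `k = idxOf 1 < G` if the cell has a mixed pair,
`mI = i + (sum of the first s G + k pairs) + 1`, `mR = r - 2 (s G + k)`; otherwise
`mI = i + (sum of the first s G pairs)`, `mR = r - 2 s G`. All entries are `≤ 2`. -/
theorem marks {G R r i : ℕ} (hG : 1 ≤ G) {l : List ℕ} (hl : l ∈ Sk (R * G)) (hr : 2 * (R * G) ≤ r) :
    (∀ s, s + 1 < R → mI G i l s ≤ mI G i l (s + 1) ∧ mI G i l (s + 1) ≤ mI G i l s + 4 * G ∧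
      mR G r l (s + 1) ≤ mR G r l s ∧ mR G r l s ≤ mR G r l (s + 1) + 4 * G) ∧
    (∀ s < R, i ≤ mI G i l s ∧ mI G i l s ≤ i + 2 * (R * G) ∧ mR G r l s ≤ r) ∧
    (1 ≤ R → mR G r l (R - 1) + 2 * (R * G) ≤ mR G r l 0 + 4 * G) := by
  refine ⟨?_, ?_, ?_⟩
  · intro s hs
    obtain ⟨h1, h2, h3, h4, h5⟩ := x08_cell hl (s := s) (by omega)
    obtain ⟨k1, k2, k3, k4, k5⟩ := x08_cell hl (s := s + 1) hs
    have e1 : (s + 1) * G = s * G + G := by ring
    unfold mI mR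
    generalize (if 1 ∈ cell G l s then ((cell G l s).take ((cell G l s).idxOf 1)).sum + 1 else 0) = e at *
    generalize (if 1 ∈ cell G l s then 2 * (cell G l s).idxOf 1 else 0) = f at *
    generalize (if 1 ∈ cell G l (s + 1) then
      ((cell G l (s + 1)).take ((cell G l (s + 1)).idxOf 1)).sum + 1 else 0) = e' at *
    generalize (if 1 ∈ cell G l (s + 1) then 2 * (cell G l (s + 1)).idxOf 1 else 0) = f' at *
    refine ⟨?_, ?_, ?_, ?_⟩ <;> omega
  · intro s hs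
    obtain ⟨h1, h2, h3, h4, h5⟩ := x08_cell hl hs
    have e1 : (s + 1) * G ≤ R * G := Nat.mul_le_mul_right G (by omega)
    have e2 : (s + 1) * G = s * G + G := by ring
    unfold mI mR
    generalize (if 1 ∈ cell G l s then ((cell G l s).take ((cell G l s).idxOf 1)).sum + 1 else 0) = e at *
    generalize (if 1 ∈ cell G l s then 2 * (cell G l s).idxOf 1 else 0) = f at *
    refine ⟨?_, ?_, ?_⟩ <;> omega
  · intro hR
    obtain ⟨h1, h2, h3, h4, h5⟩ := x08_cell hl (s := 0) (by omega)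
    have e1 : (R - 1) * G + G = R * G := by
      have : R = (R - 1) + 1 := by omega
      calc (R - 1) * G + G = ((R - 1) + 1) * G := by ring
        _ = R * G := by rw [← this]
    unfold mR
    generalize (if 1 ∈ cell G l 0 then 2 * (cell G l 0).idxOf 1 else 0) = f at *
    generalize (if 1 ∈ cell G l (R - 1) then 2 * (cell G l (R - 1)).idxOf 1 else 0) = f' at *
    omega

end Pool.Agent.Lib.MP_d0d59f_nt.PX

end
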