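import Mathlib
import Pool.Agent.Lib.MP_d0d59f_nt.PZ.K001

section

/-! Row pd-P06: sums of a periodic function over an interval. -/

namespace Pool.Agent.Lib.MP_d0d59f_nt.PD

open Finset

theorem p06_block {P : ℕ} (h : ℤ → ℝ) (hper : ∀ z z' : ℤ, z ≡ z' [ZMOD P] → h z = h z') (a : ℤ) :
    ∑ i ∈ range P, h (a + i) = ∑ c ∈ range P, h (c : ℤ) := by
  have hstep : ∀ b : ℤ, ∑ i ∈ range P, h (b + 1 + i) = ∑ i ∈ range P, h (b + i) := by
    intro b
    have h1 := Finset.sum_range_succ (fun i : ℕ => h (b + i)) P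
    have h2 := Finset.sum_range_succ' (fun i : ℕ => h (b + i)) P
    rw [h1] at h2
    have h3 : h (b + (P : ℕ)) = h (b + ((0 : ℕ) : ℤ)) := by
      apply hper
      rw [Int.modEq_iff_dvd]
      refine ⟨-1, ?_⟩
      push_cast
      ring
    rw [h3] at h2
    have h4 := add_right_cancel h2
    rw [h4]
    refine Finset.sum_congr rfl fun i _ => ?_
    congr 1
    push_cast
    ring
  have h0 : ∀ b : ℤ, ∑ i ∈ range P, h (b + i) = ∑ i ∈ range P, h (0 + i) := by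
    intro b
    induction b using Int.induction_on with
    | zero => rfl
    | succ i ih => rw [hstep]; exact ih
    | pred i ih =>
      rw [← ih, ← hstep (-(i : ℤ) - 1)]
      refine Finset.sum_congr rfl fun i _ => ?_
      congr 1
      ring
  rw [h0 a]
  refine Finset.sum_congr rfl fun i _ => ?_
  rw [zero_add]

theorem p06_blocks {P : ℕ} (h : ℤ → ℝ) (hper : ∀ z z' : ℤ, z ≡ z' [ZMOD P] → h z = h z') (a : ℤ) (q : ℕ) :
    ∑ i ∈ range (q * P), h (a + i) = q * ∑ c ∈ range P, h (c : ℤ) := by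
  induction q with
  | zero => simp
  | succ q ih =>
    rw [Nat.succ_mul, Finset.sum_range_add, ih]
    have h1 := p06_block h hper (a + (q * P : ℕ))
    have h2 : ∑ x ∈ range P, h (a + ((q * P + x : ℕ) : ℤ)) = ∑ c ∈ range P, h (c : ℤ) := by
      rw [← h1]
      refine Finset.sum_congr rfl fun i _ => ?_
      congr 1
      push_cast
      ring
    rw [h2]
    push_cast
    ring

/-- Every block of `P` consecutive integers gives `∑_{c<P} h c`; the interval is covered by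
`⌈(B-A+1)/P⌉ ≤ (B-A+1)/P + 1` blocks. (`B ≥ A - 1`, so `B - A + 1 ≥ 0` is the number of elements.) -/
theorem sum_interval_le {P : ℕ} (hP : 0 < P) (h : ℤ → ℝ) (h0 : ∀ z, 0 ≤ h z)
    (hper : ∀ z z' : ℤ, z ≡ z' [ZMOD P] → h z = h z') (A B : ℤ) (hAB : A ≤ B + 1) :
    ∑ z ∈ Icc A B, h z ≤ (((B : ℝ) - A + 1) / P + 1) * ∑ c ∈ range P, h (c : ℤ) := by
  obtain ⟨N, hN⟩ := Int.eq_ofNat_of_zero_le (show 0 ≤ B + 1 - A by linarith)
  have hN' : ((B : ℝ) - A + 1) = N := by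
    have : ((B + 1 - A : ℤ) : ℝ) = N := by rw [hN]; simp
    push_cast at this
    linarith
  have hH : 0 ≤ ∑ c ∈ range P, h (c : ℤ) := Finset.sum_nonneg fun c _ => h0 _
  have hlt : N < (N / P + 1) * P := by
    have := Nat.lt_div_mul_add hP (a := N)
    calc N < N / P * P + P := this
      _ = (N / P + 1) * P := by ring
  have h1 : ∑ z ∈ Icc A B, h z ≤ ∑ i ∈ range ((N / P + 1) * P), h (A + i) := by
    have hinj : Set.InjOn (fun i : ℕ => A + (i : ℤ)) (range ((N / P + 1) * P) : Set ℕ) := by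
      intro i _ j _ hij
      simp only at hij
      exact_mod_cast add_left_cancel hij
    rw [← Finset.sum_image (f := fun z => h z) hinj]
    refine Finset.sum_le_sum_of_subset_of_nonneg ?_ fun z _ _ => h0 z
    intro z hz
    rw [Finset.mem_Icc] at hz
    obtain ⟨i, hi⟩ := Int.eq_ofNat_of_zero_le (show 0 ≤ z - A by linarith)
    refine Finset.mem_image.2 ⟨i, ?_, ?_⟩
    · rw [Finset.mem_range]
      omega
    · omega
  rw [p06_blocks h hper] at h1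
  refine h1.trans ?_
  refine mul_le_mul_of_nonneg_right ?_ hH
  rw [hN']
  push_cast
  have := Nat.cast_div_le (α := ℝ) (m := N) (n := P)
  linarith

end Pool.Agent.Lib.MP_d0d59f_nt.PD

end

section

/-! Row bt-B09: the Fejer kernel and the Fourier bound. -/

namespace Pool.Agent.Lib.MP_b27257_nt.BT

open Finset

lemma b09_re (y : ℝ) : (ee y).re = Real.cos (2 * Real.pi * y) := by
  unfold ee
  have : (2 * Real.pi * Complex.I * y : ℂ) = ((2 * Real.pi * y : ℝ) : ℂ) * Complex.I := by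
    push_cast; ring
  rw [this, Complex.exp_ofReal_mul_I_re]

lemma b09_add (x y : ℝ) : ee (x + y) = ee x * ee y := by
  unfold ee
  rw [← Complex.exp_add]
  congr 1
  push_cast; ring

lemma b09_zero : ee 0 = 1 := by
  unfold ee
  simp

lemma b09_int (k : ℤ) : ee (k : ℝ) = 1 := by
  unfold ee
  rw [Complex.exp_eq_one_iff]
  exact ⟨k, by push_cast; ring⟩

lemma b09_conj (y : ℝ) : (starRingEnd ℂ) (ee y) = ee (-y) := by
  unfold ee
  rw [← Complex.exp_conj]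
  congr 1
  have h2 : (starRingEnd ℂ) (2 : ℂ) = 2 := Complex.conj_ofNat 2
  simp [Complex.conj_ofReal, h2]

/-- The real part is `∑ cos(2 π b θ) ≥ V cos(π/4)`. -/
theorem fejer_low {V : ℕ} {θ : ℝ} (h0 : 0 ≤ θ) (h : 8 * V * θ ≤ 1) :
    (V : ℝ) ^ 2 / 2 ≤ ‖∑ b ∈ range V, ee (b * θ)‖ ^ 2 := by
  have hre : (V : ℝ) * (Real.sqrt 2 / 2) ≤ (∑ b ∈ range V, ee (b * θ)).re := by
    rw [Complex.re_sum]
    have : ∀ b ∈ range V, Real.sqrt 2 / 2 ≤ (ee (b * θ)).re := by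
      intro b hb
      rw [b09_re, ← Real.cos_pi_div_four]
      have hb' : (b : ℝ) ≤ V := by exact_mod_cast (Finset.mem_range.mp hb).le
      have h1 : (b : ℝ) * θ ≤ V * θ := mul_le_mul_of_nonneg_right hb' h0
      have h2 : (b : ℝ) * θ ≤ 1 / 8 := by linarith
      have h3 : 0 ≤ (b : ℝ) * θ := by positivity
      have hpi := Real.pi_pos
      apply Real.cos_le_cos_of_nonneg_of_le_pi
      · positivity
      · linarith
      · have : 2 * Real.pi * (b * θ) ≤ 2 * Real.pi * (1 / 8) := by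
          apply mul_le_mul_of_nonneg_left h2; positivity
        linarith
    calc (V : ℝ) * (Real.sqrt 2 / 2) = ∑ _b ∈ range V, Real.sqrt 2 / 2 := by simp
      _ ≤ _ := Finset.sum_le_sum this
  have h1 : (V : ℝ) * (Real.sqrt 2 / 2) ≤ ‖∑ b ∈ range V, ee (b * θ)‖ := hre.trans (Complex.re_le_norm _)
  have h2 : 0 ≤ (V : ℝ) * (Real.sqrt 2 / 2) := by positivity
  have h3 := pow_le_pow_left₀ h2 h1 2
  have h4 : ((V : ℝ) * (Real.sqrt 2 / 2)) ^ 2 = (V : ℝ) ^ 2 / 2 := by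
    have := Real.sq_sqrt (show (0 : ℝ) ≤ 2 by norm_num)
    rw [mul_pow, div_pow, this]; ring
  linarith

lemma b09_norm_sq {V : ℕ} (Y : ℝ) :
    ((‖∑ b ∈ range V, ee (b * Y)‖ ^ 2 : ℝ) : ℂ) =
      ∑ b ∈ range V, ∑ b' ∈ range V, ee ((((b : ℤ) - (b' : ℤ) : ℤ) : ℝ) * Y) := by
  have h : ((‖∑ b ∈ range V, ee (b * Y)‖ ^ 2 : ℝ) : ℂ) =
      (∑ b ∈ range V, ee (b * Y)) * (starRingEnd ℂ) (∑ b ∈ range V, ee (b * Y)) := by
    rw [Complex.mul_conj, Complex.normSq_eq_norm_sq]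
  rw [h, map_sum, Finset.sum_mul_sum]
  apply Finset.sum_congr rfl; intro b _
  apply Finset.sum_congr rfl; intro b' _
  rw [b09_conj, ← b09_add]
  congr 1
  push_cast; ring

end Pool.Agent.Lib.MP_b27257_nt.BT

end

section

/-! Row px-X06: the chain lemma. -/

namespace Pool.Agent.Lib.MP_d0d59f_nt.PX

open Finset
open Pool.Agent.Lib.MP_b27257_nt.BT (st ee)

/-- Iterate `BT.st_p`. -/
theorem st_three_pow {P : ℤ} {m : ℕ} (hP : P * 3 ≡ 1 [ZMOD 2 ^ m]) {r : ℕ} (hr : r ≤ m) (i a : ℕ) :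
    3 ^ a • st P 2 (i + a) r = st P 2 i r := by
  induction a with
  | zero => simp
  | succ a ih =>
    have h1 : 3 • st P 2 (i + a + 1) r = st P 2 (i + a) r :=
      Pool.Agent.Lib.MP_b27257_nt.BT.st_p (P := P) (p := 3) (q := 2) (m := m) (by norm_num)
        (by exact_mod_cast hP) hr
    rw [pow_succ, mul_smul, ← add_assoc, h1, ih]

theorem norm_nsmul_eq {Y : UnitAddCircle} {n : ℕ} (h : n * ‖Y‖ < 1 / 2) : ‖n • Y‖ = n * ‖Y‖ := by
  obtain ⟨y, rfl⟩ := QuotientAddGroup.mk_surjective Y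
  change (n : ℝ) * ‖((y : ℝ) : UnitAddCircle)‖ < 1 / 2 at h
  change ‖n • ((y : ℝ) : UnitAddCircle)‖ = (n : ℝ) * ‖((y : ℝ) : UnitAddCircle)‖
  have e1 : n • ((y : ℝ) : UnitAddCircle) = (((n : ℝ) * (y - round y) : ℝ) : UnitAddCircle) := by
    rw [Pool.Agent.Lib.MP_b27257_nt.BT.b02_nsmul]
    refine Pool.Agent.Lib.MP_b27257_nt.BT.b02_eq (n := n * round y) ?_
    push_cast
    ring
  rw [e1, UnitAddCircle.norm_eq, UnitAddCircle.norm_eq]
  rw [UnitAddCircle.norm_eq] at h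
  have hn : (0 : ℝ) ≤ n := Nat.cast_nonneg n
  have h2 : |(n : ℝ) * (y - round y)| < 1 / 2 := by
    rwa [abs_mul, abs_of_nonneg hn]
  have h3 : round ((n : ℝ) * (y - round y)) = 0 := by
    rw [round_eq_zero_iff]
    obtain ⟨h4, h5⟩ := abs_lt.1 h2
    constructor <;> linarith
  rw [h3, Int.cast_zero, sub_zero, abs_mul, abs_of_nonneg hn]

/-- Induction on `n`. Step: `Y = w • st P 2 (I (n+1)) (ρ 0)`, `a = I (n+1) - I n`, `b = ρ n - ρ (n+1)`,
`D = ρ 0 - ρ (n+1)`. `3^a • Y = w • st P 2 (I n) (ρ 0)` has norm `≤ δ = η/2^(D - b)`, `2^D • Y = w • st P 2 (I (n+1)) (ρ (n+1))`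
(`BT.st_q_pow`) has norm `≤ η`. `BT.tri_step` (`p = 3^a`, `n = 2^D`): `2^D δ/3^a + η < 1/3^a` since
`η (2^b + 3^a) < 1`. So `‖Y‖ ≤ δ`, `2^D ‖Y‖ ≤ 2^b η < 1/2`, and `norm_nsmul_eq` gives `2^D ‖Y‖ ≤ η`. -/
theorem chain {P : ℤ} {m : ℕ} (hP : P * 3 ≡ 1 [ZMOD 2 ^ m]) {L1 : ℕ} {η : ℝ} (hη0 : 0 ≤ η)
    (hη : 4 * 3 ^ L1 * η ≤ 1) (w : ℤ) (I ρ : ℕ → ℕ) (hρ : ρ 0 ≤ m) : ∀ n : ℕ,
    (∀ s < n, I s ≤ I (s + 1) ∧ I (s + 1) ≤ I s + L1 ∧ ρ (s + 1) ≤ ρ s ∧ ρ s ≤ ρ (s + 1) + L1) →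
    (∀ s ≤ n, ‖w • st P 2 (I s) (ρ s)‖ ≤ η) →
      ‖w • st P 2 (I n) (ρ 0)‖ ≤ η / 2 ^ (ρ 0 - ρ n) := by
  intro n
  induction n with
  | zero =>
    intro _ h2
    simpa using h2 0 le_rfl
  | succ n ih =>
    intro h1 h2
    have hmono : ∀ k ≤ n + 1, ρ k ≤ ρ 0 := by
      intro k
      induction k with
      | zero => intro _; exact le_rfl
      | succ k ihk =>
        intro hk
        exact (h1 k (by omega)).2.2.1.trans (ihk (by omega))
    have IH := ih (fun s hs => h1 s (by omega)) (fun s hs => h2 s (by omega))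
    obtain ⟨ha1, ha2, hb1, hb2⟩ := h1 n (by omega)
    have h0n := hmono n (by omega)
    have h0n1 := hmono (n + 1) le_rfl
    have hN := h2 (n + 1) le_rfl
    obtain ⟨a, ha⟩ : ∃ a, I (n + 1) = I n + a := ⟨I (n + 1) - I n, by omega⟩
    obtain ⟨b, hb⟩ : ∃ b, ρ n = ρ (n + 1) + b := ⟨ρ n - ρ (n + 1), by omega⟩
    obtain ⟨c, hc⟩ : ∃ c, ρ 0 = ρ n + c := ⟨ρ 0 - ρ n, by omega⟩
    have haL : a ≤ L1 := by omega
    have hbL : b ≤ L1 := by omega
    have hD : ρ 0 - ρ (n + 1) = b + c := by omega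
    have hc' : ρ 0 - ρ n = c := by omega
    rw [hc'] at IH
    rw [hD]
    set Y : UnitAddCircle := w • st P 2 (I (n + 1)) (ρ 0) with hY
    have e1 : 3 ^ a • Y = w • st P 2 (I n) (ρ 0) := by
      rw [hY, smul_comm, ha, st_three_pow hP hρ]
    have e2 : 2 ^ (b + c) • Y = w • st P 2 (I (n + 1)) (ρ (n + 1)) := by
      have h3 : 2 ^ (b + c) • st P 2 (I (n + 1)) (ρ (n + 1) + (b + c)) = st P 2 (I (n + 1)) (ρ (n + 1)) :=
        Pool.Agent.Lib.MP_b27257_nt.BT.st_q_pow (P := P) (q := 2) (by norm_num) (I (n + 1)) (ρ (n + 1)) (b + c)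
      have h4 : ρ 0 = ρ (n + 1) + (b + c) := by omega
      rw [hY, smul_comm, h4, h3]
    have h3a : (0 : ℝ) < 3 ^ a := by positivity
    have h3L : (0 : ℝ) < 3 ^ L1 := by positivity
    have h2c : (0 : ℝ) < 2 ^ c := by positivity
    have h2b : (0 : ℝ) < 2 ^ b := by positivity
    have h3aL : (3 : ℝ) ^ a ≤ 3 ^ L1 := pow_le_pow_right₀ (by norm_num) haL
    have h2bL : (2 : ℝ) ^ b ≤ 3 ^ L1 :=
      (pow_le_pow_left₀ (by norm_num) (by norm_num) b).trans (pow_le_pow_right₀ (by norm_num) hbL)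
    have h5 : (2 : ℝ) ^ b * η ≤ 1 / 4 := by
      have : (2 : ℝ) ^ b * η ≤ 3 ^ L1 * η := mul_le_mul_of_nonneg_right h2bL hη0
      linarith
    have h6 : (3 : ℝ) ^ a * η ≤ 1 / 4 := by
      have : (3 : ℝ) ^ a * η ≤ 3 ^ L1 * η := mul_le_mul_of_nonneg_right h3aL hη0
      linarith
    have h7 : ‖Y‖ ≤ (η / 2 ^ c) / ((3 ^ a : ℕ) : ℝ) := by
      refine Pool.Agent.Lib.MP_b27257_nt.BT.tri_step (p := 3 ^ a) (n := 2 ^ (b + c)) (by positivity)
        (Nat.Coprime.pow a (b + c) (by norm_num)) Y (δ := η / 2 ^ c) (η := η) ?_ ?_ ?_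
      · rw [e1]; exact IH
      · rw [e2]; exact hN
      · have h8 : (((2 ^ (b + c) : ℕ) : ℝ)) * (η / 2 ^ c) = 2 ^ b * η := by
          push_cast
          rw [pow_add]
          field_simp
        rw [h8]
        push_cast
        rw [div_add' _ _ _ h3a.ne', div_lt_div_iff_of_pos_right h3a]
        linarith
    have h8 : ‖Y‖ ≤ η / 2 ^ c := by
      refine h7.trans ?_
      have h9 : (1 : ℝ) ≤ ((3 ^ a : ℕ) : ℝ) := by
        exact_mod_cast Nat.one_le_pow _ _ (by norm_num)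
      exact div_le_self (by positivity) h9
    have h9 : (((2 ^ (b + c) : ℕ) : ℝ)) * ‖Y‖ < 1 / 2 := by
      have h10 : (((2 ^ (b + c) : ℕ) : ℝ)) * ‖Y‖ ≤ (((2 ^ (b + c) : ℕ) : ℝ)) * (η / 2 ^ c) :=
        mul_le_mul_of_nonneg_left h8 (Nat.cast_nonneg _)
      have h11 : (((2 ^ (b + c) : ℕ) : ℝ)) * (η / 2 ^ c) = 2 ^ b * η := by
        push_cast
        rw [pow_add]
        field_simp
      linarith
    have h10 := norm_nsmul_eq h9
    rw [e2] at h10
    rw [h10] at hN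
    push_cast at hN
    rw [le_div_iff₀ (by positivity)]
    linarith

end Pool.Agent.Lib.MP_d0d59f_nt.PX

end
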