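import Pool.Agent.Lib.MP_d0d59f_nt.PZ.K004
import Pool.Agent.Lib.MP_d0d59f_nt.PZ.K005

section

/-! Row px-X03: recursion for the exponential sum. -/

namespace Pool.Agent.Lib.MP_d0d59f_nt.PX

open Finset
open Pool.Agent.Lib.MP_b27257_nt.BT (st ee)

lemma x03_ee_add (x y : ℝ) : ee (x + y) = ee x * ee y := by
  unfold ee
  rw [← Complex.exp_add]
  congr 1
  push_cast
  ring

lemma x03_ee_int (k : ℤ) : ee (k : ℝ) = 1 := by
  unfold ee
  have h : 2 * (Real.pi : ℂ) * Complex.I * ((k : ℝ) : ℂ) = k * (2 * Real.pi * Complex.I) := by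
    push_cast
    ring
  rw [h, Complex.exp_int_mul_two_pi_mul_I]

lemma x03_ones_head (d x : ℤ) (n : ℕ) :
    ones d x (n + 1) = (if x % 2 = 1 then 1 else 0) + ones d (T d x) n := by
  induction n with
  | zero =>
    rw [ones_succ, ones_zero, ones_zero, Function.iterate_zero_apply]
    ring
  | succ n ih =>
    rw [ones_succ, ih, ones_succ d (T d x) n, Function.iterate_succ_apply]
    ring

lemma x03_ones_congr {d : ℤ} (hd : Odd d) : ∀ (n : ℕ) (x y : ℤ), (2 : ℤ) ^ n ∣ x - y →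
    ones d x n = ones d y n := by
  intro n
  induction n with
  | zero => intro x y _; rw [ones_zero, ones_zero]
  | succ n ih =>
    intro x y h
    have h2 : (2 : ℤ) ∣ x - y := dvd_trans (dvd_pow_self 2 (Nat.succ_ne_zero n)) h
    have hpar : x % 2 = y % 2 := by omega
    have hT : (2 : ℤ) ^ n ∣ T d x - T d y := by
      obtain ⟨c, hc⟩ := h
      rw [pow_succ] at hc
      rcases Int.emod_two_eq_zero_or_one x with hx | hx
      · have e1 := T_even (d := d) hx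
        have e2 := T_even (d := d) (y := y) (by omega)
        exact ⟨c, by linarith⟩
      · have e1 := T_odd hd hx
        have e2 := T_odd hd (y := y) (by omega)
        exact ⟨3 * c, by linarith⟩
    rw [x03_ones_head, x03_ones_head, hpar, ih _ _ hT]

lemma x03_split (f : ℕ → ℂ) (n : ℕ) :
    ∑ z ∈ range (2 * n), f z = ∑ z ∈ range n, f (2 * z) + ∑ z ∈ range n, f (2 * z + 1) := by
  induction n with
  | zero => simp
  | succ n ih =>
    rw [show 2 * (n + 1) = 2 * n + 1 + 1 by ring, sum_range_succ, sum_range_succ, ih, sum_range_succ,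
      sum_range_succ]
    ring

lemma x03_perm (r : ℕ) (g : ℤ → ℂ) (hg : ∀ x y : ℤ, (2 : ℤ) ^ r ∣ x - y → g x = g y) (e : ℤ) :
    ∑ z ∈ range (2 ^ r), g (3 * (z : ℤ) + e) = ∑ z ∈ range (2 ^ r), g (z : ℤ) := by
  set φ : ℕ → ℕ := fun z => ((3 * (z : ℤ) + e) % (2 : ℤ) ^ r).toNat with hφ
  have hpos : (0 : ℤ) < (2 : ℤ) ^ r := by positivity
  have hcast : ∀ z, ((φ z : ℕ) : ℤ) = (3 * (z : ℤ) + e) % (2 : ℤ) ^ r := fun z =>
    Int.toNat_of_nonneg (Int.emod_nonneg _ hpos.ne')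
  have hmap : ∀ z ∈ range (2 ^ r), φ z ∈ range (2 ^ r) := by
    intro z _
    rw [mem_range]
    have h1 : ((φ z : ℕ) : ℤ) < (2 : ℤ) ^ r := by
      rw [hcast]
      exact Int.emod_lt_of_pos _ hpos
    exact_mod_cast h1
  have hinj : Set.InjOn φ (range (2 ^ r) : Finset ℕ) := by
    intro a ha b hb hab
    have ha' : (a : ℤ) < (2 : ℤ) ^ r := by exact_mod_cast mem_range.mp ha
    have hb' : (b : ℤ) < (2 : ℤ) ^ r := by exact_mod_cast mem_range.mp hb
    have h1 : (3 * (a : ℤ) + e) % (2 : ℤ) ^ r = (3 * (b : ℤ) + e) % (2 : ℤ) ^ r := by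
      rw [← hcast, ← hcast, hab]
    have h2 : (2 : ℤ) ^ r ∣ (3 * (a : ℤ) + e) - (3 * (b : ℤ) + e) := Int.ModEq.dvd (Int.ModEq.symm h1)
    have h3 : (2 : ℤ) ^ r ∣ 3 * ((a : ℤ) - b) := by
      have : (3 * (a : ℤ) + e) - (3 * (b : ℤ) + e) = 3 * ((a : ℤ) - b) := by ring
      rwa [this] at h2
    have h4 : (2 : ℤ) ^ r ∣ (a : ℤ) - b :=
      (IsCoprime.pow_left (by norm_num : IsCoprime (2 : ℤ) 3)).dvd_of_dvd_mul_left h3
    have h5 : (a : ℤ) - b = 0 := by
      refine Int.eq_zero_of_abs_lt_dvd h4 ?_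
      rw [abs_lt]
      constructor
      · have : (0 : ℤ) ≤ a := Int.natCast_nonneg a
        linarith
      · have : (0 : ℤ) ≤ b := Int.natCast_nonneg b
        linarith
    have h6 : (a : ℤ) = b := by linarith
    exact_mod_cast h6
  have himg : (range (2 ^ r)).image φ = range (2 ^ r) := by
    refine eq_of_subset_of_card_le ?_ ?_
    · intro y hy
      obtain ⟨z, hz, rfl⟩ := mem_image.mp hy
      exact hmap z hz
    · rw [card_image_of_injOn hinj]
  calc ∑ z ∈ range (2 ^ r), g (3 * (z : ℤ) + e) = ∑ z ∈ range (2 ^ r), g ((φ z : ℕ) : ℤ) := by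
        refine sum_congr rfl fun z _ => hg _ _ ?_
        rw [hcast]
        exact Int.dvd_self_sub_emod
    _ = ∑ y ∈ (range (2 ^ r)).image φ, g (y : ℤ) :=
        (sum_image (f := fun y : ℕ => g (y : ℤ)) hinj).symm
    _ = ∑ z ∈ range (2 ^ r), g (z : ℤ) := by rw [himg]

/-- `ones` depends only on the class modulo `2^r` (`dvd_of_parity` converse: `T d` maps `z + 2^r k` to
`T d z + 2^(r-1) k'`), and `ones d z (r+1) = [z odd] + ones d (T d z) r`. Even `z = 2 z'`, `z' < 2^r`: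
`ee (w z / 2^(r+1)) = ee (w z' / 2^r)`. Odd `z`: `y = T d z`, `z ≡ P (2 y - d)` modulo `2^(r+1)`, and `z ↦ y` modulo
`2^r` is a bijection from the odd classes modulo `2^(r+1)`; `ee (w z / 2^(r+1)) = ee (w P y / 2^r) ee (-(w P d)/2^(r+1))`. -/
theorem Ph_succ {P : ℤ} {d : ℤ} (hd : Odd d) (lam : ℝ) {r : ℕ} (hP : P * 3 ≡ 1 [ZMOD 2 ^ (r + 1)]) (w : ℤ) :
    Ph lam d (r + 1) w = Ph lam d r w +
      lam * ee (-((w * P * d : ℤ) : ℝ) / 2 ^ (r + 1)) * Ph lam d r (w * P) := by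
  obtain ⟨k0, hk0⟩ := id hd
  unfold Ph
  rw [pow_succ, mul_comm (2 ^ r) 2, x03_split]
  congr 1
  · refine sum_congr rfl fun z _ => ?_
    have h1 : ((2 * z : ℕ) : ℤ) % 2 = 0 := by push_cast; omega
    have h2 : T d ((2 * z : ℕ) : ℤ) = (z : ℤ) := by
      have := T_even (d := d) h1
      push_cast at this ⊢
      linarith
    have h3 : ones d ((2 * z : ℕ) : ℤ) (r + 1) = ones d (z : ℤ) r := by
      rw [x03_ones_head, if_neg (by rw [h1]; norm_num), h2, zero_add]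
    rw [h3]
    congr 2
    push_cast
    field_simp
    ring
  · set g : ℤ → ℂ := fun y => (lam : ℂ) ^ ones d y r * ee (((w * P : ℤ) : ℝ) * y / 2 ^ r) with hg
    have hgc : ∀ x y : ℤ, (2 : ℤ) ^ r ∣ x - y → g x = g y := by
      intro x y hxy
      simp only [hg]
      rw [x03_ones_congr hd r x y hxy]
      congr 1
      obtain ⟨c, hc⟩ := hxy
      have hx : (x : ℝ) = y + 2 ^ r * c := by
        have : x = y + 2 ^ r * c := by linarith
        rw [this]
        push_cast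
        ring
      have h2r : (2 : ℝ) ^ r ≠ 0 := by positivity
      have : ((w * P : ℤ) : ℝ) * x / 2 ^ r = ((w * P : ℤ) : ℝ) * y / 2 ^ r + ((w * P * c : ℤ) : ℝ) := by
        rw [hx]
        push_cast
        field_simp
      rw [this, x03_ee_add, x03_ee_int, mul_one]
    have hkey : ∀ z ∈ range (2 ^ r), (lam : ℂ) ^ ones d ((2 * z + 1 : ℕ) : ℤ) (r + 1) *
        ee ((w : ℝ) * ((2 * z + 1 : ℕ) : ℝ) / 2 ^ (r + 1)) =
        lam * ee (-((w * P * d : ℤ) : ℝ) / 2 ^ (r + 1)) * g (3 * (z : ℤ) + (k0 + 2)) := by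
      intro z _
      have h1 : ((2 * z + 1 : ℕ) : ℤ) % 2 = 1 := by push_cast; omega
      have h2 : T d ((2 * z + 1 : ℕ) : ℤ) = 3 * (z : ℤ) + (k0 + 2) := by
        have := T_odd hd h1
        push_cast at this ⊢
        rw [hk0] at this
        rw [hk0]
        linarith
      have h3 : ones d ((2 * z + 1 : ℕ) : ℤ) (r + 1) = 1 + ones d (3 * (z : ℤ) + (k0 + 2)) r := by
        rw [x03_ones_head, if_pos h1, h2]
      rw [h3, pow_add, pow_one]
      simp only [hg]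
      -- the phases
      obtain ⟨c, hc⟩ := Int.ModEq.dvd (Int.ModEq.symm hP)
      -- `P * 3 - 1 = 2^(r+1) c`
      have hPc : (P : ℝ) * 3 = 1 + 2 ^ (r + 1) * c := by
        have : P * 3 = 1 + 2 ^ (r + 1) * c := by linarith
        exact_mod_cast this
      have h2r : (2 : ℝ) ^ r ≠ 0 := by positivity
      have hdr : (d : ℝ) = 2 * k0 + 1 := by
        rw [hk0]
        push_cast
        ring
      have hph : (w : ℝ) * ((2 * z + 1 : ℕ) : ℝ) / 2 ^ (r + 1) + ((w * c * (2 * z + 1) : ℤ) : ℝ) =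
          -((w * P * d : ℤ) : ℝ) / 2 ^ (r + 1) +
            ((w * P : ℤ) : ℝ) * ((3 * (z : ℤ) + (k0 + 2) : ℤ) : ℝ) / 2 ^ r := by
        push_cast
        rw [hdr]
        have e1 : (w : ℝ) * P * (3 * z + (k0 + 2)) / 2 ^ r =
            (w : ℝ) * P * (2 * (3 * z + (k0 + 2))) / 2 ^ (r + 1) := by
          rw [pow_succ]
          field_simp
        rw [e1, ← add_div]
        have e2 : -((w : ℝ) * P * (2 * k0 + 1)) + w * P * (2 * (3 * z + (k0 + 2))) =
            w * (P * 3) * (2 * z + 1) := by ring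
        rw [e2, hPc]
        have h2r1 : (2 : ℝ) ^ (r + 1) ≠ 0 := by positivity
        field_simp
      have hee : ee ((w : ℝ) * ((2 * z + 1 : ℕ) : ℝ) / 2 ^ (r + 1)) =
          ee (-((w * P * d : ℤ) : ℝ) / 2 ^ (r + 1)) *
            ee (((w * P : ℤ) : ℝ) * ((3 * (z : ℤ) + (k0 + 2) : ℤ) : ℝ) / 2 ^ r) := by
        rw [← x03_ee_add, ← hph, x03_ee_add, x03_ee_int, mul_one]
      rw [hee]
      ring
    rw [sum_congr rfl hkey, ← mul_sum, x03_perm r g hgc]
    rfl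

/-- From the recursion with `w = 0`, or directly. -/
theorem Ph_zero {d : ℤ} (hd : Odd d) (lam : ℝ) (r : ℕ) : Ph lam d r 0 = (1 + (lam : ℂ)) ^ r := by
  induction r with
  | zero =>
    unfold Ph
    simp [ones_zero, ee]
  | succ r ih =>
    obtain ⟨a, b, hab⟩ := (IsCoprime.pow_right (by norm_num : IsCoprime (3 : ℤ) 2) :
      IsCoprime (3 : ℤ) (2 ^ (r + 1)))
    have hP : a * 3 ≡ 1 [ZMOD 2 ^ (r + 1)] := by
      rw [Int.modEq_iff_dvd]
      exact ⟨b, by linarith⟩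
    rw [Ph_succ hd lam hP 0, zero_mul, ih]
    have : ee (-((0 * d : ℤ) : ℝ) / 2 ^ (r + 1)) = 1 := by
      simp [ee]
    rw [this, pow_succ]
    ring

end Pool.Agent.Lib.MP_d0d59f_nt.PX

end

section

/-! Row px-X04: the exponential sum is bounded by the skeletons. -/

namespace Pool.Agent.Lib.MP_d0d59f_nt.PX

open Finset
open Pool.Agent.Lib.MP_b27257_nt.BT (st ee)

theorem x04_norm_ee (y : ℝ) : ‖ee y‖ = 1 := by
  unfold ee
  rw [show (2 * Real.pi * Complex.I * y : ℂ) = ((2 * Real.pi * y : ℝ) : ℂ) * Complex.I by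
    push_cast; ring]
  exact Complex.norm_exp_ofReal_mul_I _

theorem x04_norm_add (x : ℝ) : ‖ee (-(2 * x)) + ee (-x)‖ = 2 * |Real.cos (Real.pi * x)| := by
  have h1 : ee (-(2 * x)) + ee (-x) =
      ee (-(3 * x / 2)) * ((2 * Real.cos (Real.pi * x) : ℝ) : ℂ) := by
    unfold ee
    push_cast
    rw [Complex.two_cos, mul_add, ← Complex.exp_add, ← Complex.exp_add, add_comm]
    congr 1 <;> congr 1 <;> ring
  rw [h1, norm_mul, x04_norm_ee, one_mul, Complex.norm_real, Real.norm_eq_abs, abs_mul]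
  norm_num

theorem x04_hP {P : ℤ} {a b : ℕ} (hab : a ≤ b) (hP : P * 3 ≡ 1 [ZMOD 2 ^ b]) :
    P * 3 ≡ 1 [ZMOD 2 ^ a] :=
  hP.of_dvd (pow_dvd_pow 2 hab)

/-- Two steps of `Ph_succ`: the two terms with one odd step are
`lam Ph r (w P) (ee (-2 x) + ee (-x))`, `x = w P d / 2^(r+2)`, of absolute value `2 lam |cos(π x)| |Ph r (w P)|`
(`|ee| = 1`, `|ee (-2x) + ee (-x)| = 2 |cos (π x)|`). -/
theorem Ph_two {P : ℤ} {d : ℤ} (hd : Odd d) {lam : ℝ} (hlam : 0 ≤ lam) {r : ℕ} (hP : P * 3 ≡ 1 [ZMOD 2 ^ (r + 2)])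
    (w : ℤ) : ‖Ph lam d (r + 2) w‖ ≤ ‖Ph lam d r w‖ +
      2 * lam * |Real.cos (Real.pi * ((w * d : ℤ) * ((P : ℝ) / 2 ^ (r + 2))))| * ‖Ph lam d r (w * P)‖ +
      lam ^ 2 * ‖Ph lam d r (w * P ^ 2)‖ := by
  have e1 := Ph_succ hd lam (r := r + 1) (P := P) hP w
  have hP' : P * 3 ≡ 1 [ZMOD 2 ^ (r + 1)] := x04_hP (by omega) hP
  have e2 := Ph_succ hd lam (r := r) (P := P) hP' w
  have e3 := Ph_succ hd lam (r := r) (P := P) hP' (w * P)
  set x : ℝ := (w * d : ℤ) * ((P : ℝ) / 2 ^ (r + 2)) with hx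
  have f1 : -((w * P * d : ℤ) : ℝ) / 2 ^ (r + 1 + 1) = -x := by
    rw [hx, show r + 1 + 1 = r + 2 by ring]
    push_cast
    ring
  have f2 : -((w * P * d : ℤ) : ℝ) / 2 ^ (r + 1) = -(2 * x) := by
    rw [hx, show (2 : ℝ) ^ (r + 2) = 2 * 2 ^ (r + 1) by ring]
    push_cast
    field_simp
  rw [f1, e2, e3, f2] at e1
  have e4 : Ph lam d (r + 2) w = Ph lam d r w + (lam : ℂ) * (ee (-(2 * x)) + ee (-x)) * Ph lam d r (w * P) +
      (lam : ℂ) ^ 2 * (ee (-x) * ee (-((w * P * P * d : ℤ) : ℝ) / 2 ^ (r + 1))) * Ph lam d r (w * P ^ 2) := by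
    rw [show r + 2 = r + 1 + 1 by ring, e1, show w * P ^ 2 = w * P * P by ring]
    ring
  rw [e4]
  have hlam' : ‖(lam : ℂ)‖ = lam := by
    rw [Complex.norm_real, Real.norm_eq_abs, abs_of_nonneg hlam]
  calc ‖Ph lam d r w + (lam : ℂ) * (ee (-(2 * x)) + ee (-x)) * Ph lam d r (w * P) +
      (lam : ℂ) ^ 2 * (ee (-x) * ee (-((w * P * P * d : ℤ) : ℝ) / 2 ^ (r + 1))) * Ph lam d r (w * P ^ 2)‖
      ≤ ‖Ph lam d r w‖ + ‖(lam : ℂ) * (ee (-(2 * x)) + ee (-x)) * Ph lam d r (w * P)‖ +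
        ‖(lam : ℂ) ^ 2 * (ee (-x) * ee (-((w * P * P * d : ℤ) : ℝ) / 2 ^ (r + 1))) *
          Ph lam d r (w * P ^ 2)‖ := norm_add₃_le
    _ = _ := by
      rw [norm_mul, norm_mul, norm_mul, norm_mul, norm_mul, norm_pow, hlam', x04_norm_add, x04_norm_ee,
        x04_norm_ee]
      ring

/-- Induction on `n` with `Ph_two` (for `w P^i`) and `sum_Sk_succ`. -/
theorem Ph_le {P : ℤ} {d : ℤ} (hd : Odd d) {lam : ℝ} (hlam : 0 ≤ lam) (n : ℕ) (hP : P * 3 ≡ 1 [ZMOD 2 ^ (2 * n)])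
    (w : ℤ) (i : ℕ) : ‖Ph lam d (2 * n) (w * P ^ i)‖ ≤ ∑ l ∈ Sk n, wl lam l * cosP P (w * d) (2 * n) i l := by
  induction n generalizing i with
  | zero =>
    have h0 : Ph lam d 0 (w * P ^ i) = 1 := by
      unfold Ph
      simp [ones, ee]
    rw [show 2 * 0 = 0 by norm_num, h0]
    simp [Sk, wl, cosP]
  | succ n ih =>
    have hP' : P * 3 ≡ 1 [ZMOD 2 ^ (2 * n)] := x04_hP (by omega) hP
    have h1 := Ph_two hd hlam (r := 2 * n) (P := P) (by simpa [mul_add] using hP) (w * P ^ i)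
    rw [show 2 * (n + 1) = 2 * n + 2 by ring, sum_Sk_succ]
    have i0 := ih hP' i
    have i1 := ih hP' (i + 1)
    have i2 := ih hP' (i + 2)
    have a1 : w * P ^ i * P = w * P ^ (i + 1) := by ring
    have a2 : w * P ^ i * P ^ 2 = w * P ^ (i + 2) := by ring
    rw [a1, a2] at h1
    have s0 : ∑ l ∈ Sk n, wl lam (0 :: l) * cosP P (w * d) (2 * n + 2) i (0 :: l) =
        ∑ l ∈ Sk n, wl lam l * cosP P (w * d) (2 * n) i l := by
      refine sum_congr rfl fun l _ => ?_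
      simp [wl, om, cosP]
    have s1 : ∑ l ∈ Sk n, wl lam (1 :: l) * cosP P (w * d) (2 * n + 2) i (1 :: l) =
        2 * lam * |Real.cos (Real.pi * ((w * P ^ i * d : ℤ) * ((P : ℝ) / 2 ^ (2 * n + 2))))| *
          ∑ l ∈ Sk n, wl lam l * cosP P (w * d) (2 * n) (i + 1) l := by
      rw [mul_sum]
      refine sum_congr rfl fun l _ => ?_
      have e : (Real.pi * (((w * d : ℤ) : ℝ) * ((P : ℝ) ^ (i + 1) / 2 ^ (2 * n + 2)))) =
          Real.pi * ((w * P ^ i * d : ℤ) * ((P : ℝ) / 2 ^ (2 * n + 2))) := by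
        push_cast
        ring
      simp only [wl, List.map_cons, List.prod_cons, om, cosP, one_ne_zero, if_false, if_true, e,
        Nat.add_sub_cancel]
      ring
    have s2 : ∑ l ∈ Sk n, wl lam (2 :: l) * cosP P (w * d) (2 * n + 2) i (2 :: l) =
        lam ^ 2 * ∑ l ∈ Sk n, wl lam l * cosP P (w * d) (2 * n) (i + 2) l := by
      rw [mul_sum]
      refine sum_congr rfl fun l _ => ?_
      simp [wl, om, cosP]
      ring
    rw [s0, s1, s2]
    refine h1.trans ?_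
    gcongr

end Pool.Agent.Lib.MP_d0d59f_nt.PX

end

section

/-! Row px-X07: no frequency is black on a chain. -/

namespace Pool.Agent.Lib.MP_d0d59f_nt.PX

open Finset
open Pool.Agent.Lib.MP_b27257_nt.BT (st ee)

/-- Ridout's theorem for `3^i z ≡ w` modulo `2^r` (proved in `BT.ridout_pq`). -/
def RidoutProp : Prop := ∀ C ε : ℝ, 0 < ε → ∃ h0 : ℕ, ∀ h : ℕ, h0 ≤ h →
    ∀ i r : ℕ, (i : ℝ) ≤ C * h → (r : ℝ) ≤ C * h → ∀ w z : ℤ, w ≠ 0 → z ≠ 0 →
      (((2 : ℕ) : ℤ) ^ r) ∣ ((3 : ℕ) : ℤ) ^ i * z - w → ((3 : ℕ) : ℤ) ^ i * z ≠ w →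
      |(w : ℝ)| * |(z : ℝ)| * Real.exp (ε * h) ≤ ((2 : ℕ) : ℝ) ^ r →
      |(w : ℝ)| * Real.exp (ε * h) ≤ ((2 : ℕ) : ℝ) ^ r → False

/-- As `BT.no_black`: `chain`, `BT.exists_z` (`p = 3`, `q = 2`, `i = I n`, `r = ρ 0`), `BT.ridout_pq`. `z ≠ 0` since
`|w| < 2^(ρ 0)`; `3^i z ≠ w` since `|w| < 3^i`. -/
theorem no_black_chain (hRid : RidoutProp) (C ε : ℝ) (hε : 0 < ε) (L1 : ℕ) {η : ℝ} (hη0 : 0 ≤ η) (hη : 4 * 3 ^ L1 * η ≤ 1) :
    ∃ h0 : ℕ, ∀ h : ℕ, h0 ≤ h → ∀ m : ℕ, (m : ℝ) ≤ C * h → ∀ P : ℤ, P * 3 ≡ 1 [ZMOD 2 ^ m] →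
    ∀ w : ℤ, w ≠ 0 → ∀ (I ρ : ℕ → ℕ) (n : ℕ), ρ 0 ≤ m → I n ≤ m →
    (∀ s < n, I s ≤ I (s + 1) ∧ I (s + 1) ≤ I s + L1 ∧ ρ (s + 1) ≤ ρ s ∧ ρ s ≤ ρ (s + 1) + L1) →
    |(w : ℝ)| * Real.exp (ε * h) ≤ 2 ^ (ρ 0 - ρ n) → |(w : ℝ)| < 3 ^ I n →
      ∃ s ≤ n, η < ‖w • st P 2 (I s) (ρ s)‖ := by
  obtain ⟨h1, hr⟩ := hRid C ε hε
  refine ⟨max h1 1, ?_⟩
  intro h hh m hm P hP w hw I ρ n hρm hIm hstep hw1 hw2
  by_contra hcon
  push Not at hcon
  have hh1 : h1 ≤ h := le_trans (le_max_left _ _) hh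
  have hh2 : 1 ≤ h := le_trans (le_max_right _ _) hh
  have hch := chain hP hη0 hη w I ρ hρm n hstep hcon
  obtain ⟨z, hz1, hz2⟩ := Pool.Agent.Lib.MP_b27257_nt.BT.exists_z (p := 3) (q := 2) (by norm_num)
    (by exact_mod_cast hP) (i := I n) (r := ρ 0) hρm w
  have hexp : 1 < Real.exp (ε * h) := by
    rw [Real.one_lt_exp_iff]
    have : (0 : ℝ) < h := by exact_mod_cast hh2
    positivity
  have hwpos : 0 < |(w : ℝ)| := abs_pos.2 (by exact_mod_cast hw)
  have hwlt : |(w : ℝ)| < |(w : ℝ)| * Real.exp (ε * h) := by nlinarith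
  have hpw : (2 : ℝ) ^ (ρ 0 - ρ n) ≤ 2 ^ (ρ 0) := pow_le_pow_right₀ (by norm_num) (Nat.sub_le _ _)
  have hz0 : z ≠ 0 := by
    intro h0
    rw [h0, mul_zero, zero_sub, dvd_neg] at hz1
    have h3 : (((2 : ℕ) : ℤ)) ^ (ρ 0) ≤ |w| := Int.le_of_dvd (abs_pos.2 hw) ((dvd_abs _ _).2 hz1)
    have h4 : (2 : ℝ) ^ (ρ 0) ≤ |(w : ℝ)| := by exact_mod_cast h3
    linarith
  have hzw : (((3 : ℕ) : ℤ)) ^ (I n) * z ≠ w := by
    intro h0
    have h3 : |(w : ℝ)| = (3 : ℝ) ^ (I n) * |(z : ℝ)| := by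
      rw [← h0]
      push_cast
      rw [abs_mul, abs_of_pos (by positivity)]
    have h4 : (1 : ℝ) ≤ |(z : ℝ)| := by
      have : (1 : ℤ) ≤ |z| := Int.one_le_abs hz0
      exact_mod_cast this
    have h6 : (0 : ℝ) < (3 : ℝ) ^ (I n) := by positivity
    nlinarith
  have hη1 : η ≤ 1 := by
    have h3 : (1 : ℝ) ≤ 3 ^ L1 := one_le_pow₀ (by norm_num)
    nlinarith
  have hqq : (0 : ℝ) < 2 ^ (ρ 0) := by positivity
  have hpp : (0 : ℝ) < 2 ^ (ρ 0 - ρ n) := by positivity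
  have hz3 : |(z : ℝ)| ≤ η / 2 ^ (ρ 0 - ρ n) * 2 ^ (ρ 0) := by
    rw [hz2]
    push_cast
    exact mul_le_mul_of_nonneg_right hch hqq.le
  have hmain : |(w : ℝ)| * |(z : ℝ)| * Real.exp (ε * h) ≤ ((2 : ℕ) : ℝ) ^ (ρ 0) := by
    push_cast
    calc |(w : ℝ)| * |(z : ℝ)| * Real.exp (ε * h) = (|(w : ℝ)| * Real.exp (ε * h)) * |(z : ℝ)| := by ring
      _ ≤ 2 ^ (ρ 0 - ρ n) * (η / 2 ^ (ρ 0 - ρ n) * 2 ^ (ρ 0)) :=
          mul_le_mul hw1 hz3 (abs_nonneg _) hpp.le
      _ = η * 2 ^ (ρ 0) := by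
          field_simp
      _ ≤ 1 * 2 ^ (ρ 0) := mul_le_mul_of_nonneg_right hη1 hqq.le
      _ = 2 ^ (ρ 0) := one_mul _
  have hlast : |(w : ℝ)| * Real.exp (ε * h) ≤ ((2 : ℕ) : ℝ) ^ (ρ 0) := by
    push_cast
    exact hw1.trans hpw
  have hi : ((I n : ℕ) : ℝ) ≤ C * h := le_trans (by exact_mod_cast hIm) hm
  have hr' : ((ρ 0 : ℕ) : ℝ) ≤ C * h := le_trans (by exact_mod_cast hρm) hm
  exact hr h hh1 (I n) (ρ 0) hi hr' w z hw hz0 hz1 hzw hmain hlast

end Pool.Agent.Lib.MP_d0d59f_nt.PX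

end

section

/-! Row px-X09: the product over a segment. -/

namespace Pool.Agent.Lib.MP_d0d59f_nt.PX

open Finset
open Pool.Agent.Lib.MP_b27257_nt.BT (st ee)

/-- The factor of `cosP` at the position `t`. -/
noncomputable def x09_f (P v : ℤ) (r i : ℕ) (l : List ℕ) (t : ℕ) : ℝ :=
  if l.getD t 0 = 1 then
    |Real.cos (Real.pi * ((v : ℝ) * ((P : ℝ) ^ (i + (l.take t).sum + 1) / 2 ^ (r - 2 * t))))| else 1

theorem x09_f_nonneg (P v : ℤ) (r i : ℕ) (l : List ℕ) (t : ℕ) : 0 ≤ x09_f P v r i l t := by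
  unfold x09_f
  split_ifs
  · exact abs_nonneg _
  · exact zero_le_one

theorem x09_f_le_one (P v : ℤ) (r i : ℕ) (l : List ℕ) (t : ℕ) : x09_f P v r i l t ≤ 1 := by
  unfold x09_f
  split_ifs
  · exact Real.abs_cos_le_one _
  · exact le_rfl

theorem x09_prod (P v : ℤ) (l : List ℕ) : ∀ r i : ℕ,
    cosP P v r i l = ∏ t ∈ range l.length, x09_f P v r i l t := by
  induction l with
  | nil => intro r i; simp [cosP]
  | cons c cs ih =>
    intro r i
    rw [List.length_cons, Finset.prod_range_succ', mul_comm, cosP, ih (r - 2) (i + c)]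
    have h0 : x09_f P v r i (c :: cs) 0 =
        (if c = 1 then |Real.cos (Real.pi * ((v : ℝ) * ((P : ℝ) ^ (i + 1) / 2 ^ r)))| else 1) := by
      unfold x09_f
      simp
    have h1 : ∀ t ∈ range cs.length,
        x09_f P v (r - 2) (i + c) cs t = x09_f P v r i (c :: cs) (t + 1) := by
      intro t _
      unfold x09_f
      have e1 : (c :: cs).getD (t + 1) 0 = cs.getD t 0 := by simp
      have e2 : ((c :: cs).take (t + 1)).sum = c + (cs.take t).sum := by simp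
      have e3 : r - 2 * (t + 1) = r - 2 - 2 * t := by omega
      rw [e1, e2, e3, add_assoc i c]
    rw [h0, Finset.prod_congr rfl h1]

/-- The cosine at a white mark. -/
theorem x09_cos {P v : ℤ} {Q a b : ℕ} (hQ : 2 ≤ Q) (h : 1 / (Q : ℝ) < ‖v • st P 2 a b‖) :
    |Real.cos (Real.pi * ((v : ℝ) * ((P : ℝ) ^ a / 2 ^ b)))| ≤ Real.exp (-(2 / (Q : ℝ) ^ 2)) := by
  set y : ℝ := (v : ℝ) * ((P : ℝ) ^ a / 2 ^ b) with hy
  have hst : v • st P 2 a b = ((y : ℝ) : UnitAddCircle) := by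
    unfold st
    rw [← AddCircle.coe_zsmul]
    congr 1
    rw [hy, zsmul_eq_mul]
    norm_num
  rw [hst, UnitAddCircle.norm_eq] at h
  set δ : ℝ := y - round y with hδ
  have hc : |Real.cos (Real.pi * y)| = |Real.cos (Real.pi * δ)| := by
    have e : Real.pi * δ = Real.pi * y - (round y : ℤ) * Real.pi := by rw [hδ]; ring
    rw [e, Real.cos_sub_int_mul_pi, abs_mul]
    have : |((-1 : ℝ)) ^ (round y : ℤ)| = 1 := by
      rw [abs_zpow]
      simp
    rw [this, one_mul]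
  rw [hc]
  have hδ2 : |δ| ≤ 1 / 2 := abs_sub_round y
  have hpi : 0 < Real.pi := Real.pi_pos
  have hnn : 0 ≤ Real.cos (Real.pi * δ) := by
    apply Real.cos_nonneg_of_mem_Icc
    rw [abs_le] at hδ2
    constructor
    · nlinarith [hδ2.1]
    · nlinarith [hδ2.2]
  rw [abs_of_nonneg hnn]
  have hub : Real.cos (Real.pi * δ) ≤ 1 - 2 / Real.pi ^ 2 * (Real.pi * δ) ^ 2 := by
    apply Real.cos_le_one_sub_mul_cos_sq
    rw [abs_mul, abs_of_pos hpi]
    nlinarith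
  have e2 : 2 / Real.pi ^ 2 * (Real.pi * δ) ^ 2 = 2 * δ ^ 2 := by
    field_simp
  rw [e2] at hub
  have hQ0 : (0 : ℝ) < Q := by
    have : 0 < Q := by omega
    exact_mod_cast this
  have hsq : 1 / (Q : ℝ) ^ 2 ≤ δ ^ 2 := by
    have h1 : 0 < 1 / (Q : ℝ) := by positivity
    have h2 : (1 / (Q : ℝ)) ^ 2 ≤ |δ| ^ 2 := by
      apply pow_le_pow_left₀ h1.le h.le
    rw [sq_abs] at h2
    rw [one_div, ← inv_pow, ← one_div]
    exact h2
  have h3 : 1 - 2 * δ ^ 2 ≤ -(2 / (Q : ℝ) ^ 2) + 1 := by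
    have : 2 / (Q : ℝ) ^ 2 = 2 * (1 / (Q : ℝ) ^ 2) := by ring
    rw [this]
    linarith
  exact hub.trans (h3.trans (Real.add_one_le_exp _))

/-- Split the list into its cells (`cosP_append`); the cell `s` with a mixed pair contributes at most the cosine at its
first mixed pair, `|cos(π v P^(mI)/2^(mR))| = cos(π ‖v • st P 2 mI mR‖) ≤ 1 - 2 ‖..‖² ≤ exp(-2/Q²)` if the mark is white. -/
theorem cosP_le_gw {P v : ℤ} {G R Q r i : ℕ} (hG : 1 ≤ G) (hQ : 2 ≤ Q) {l : List ℕ} (hl : l ∈ Sk (R * G))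
    (hr : 2 * (R * G) ≤ r) :
    cosP P v r i l ≤ Real.exp (-(2 / (Q : ℝ) ^ 2)) ^ (gw P G R Q r i l v).card := by
  classical
  have hlen : l.length = R * G := (mem_Sk.1 hl).1
  set ps : ℕ → ℕ := fun s => s * G + (cell G l s).idxOf 1 with hps
  have hcl : ∀ s, (cell G l s).length ≤ G := by
    intro s
    unfold cell
    simp
  have key : ∀ s ∈ gw P G R Q r i l v, (cell G l s).idxOf 1 < (cell G l s).length ∧
      ps s < l.length ∧ x09_f P v r i l (ps s) ≤ Real.exp (-(2 / (Q : ℝ) ^ 2)) := by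
    intro s hs
    unfold gw at hs
    rw [Finset.mem_filter, Finset.mem_range] at hs
    obtain ⟨hsR, h1, hw⟩ := hs
    have hi : (cell G l s).idxOf 1 < (cell G l s).length := List.idxOf_lt_length_iff.2 h1
    set k := (cell G l s).idxOf 1 with hk
    have hkG : k < G := lt_of_lt_of_le hi (hcl s)
    have hpl : s * G + k < l.length := by
      have : (cell G l s).length = min G (l.length - s * G) := by
        unfold cell
        simp
      rw [this] at hi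
      have := lt_of_lt_of_le hi (min_le_right _ _)
      omega
    refine ⟨hi, hpl, ?_⟩
    have hget : l.getD (s * G + k) 0 = 1 := by
      have h2 : (cell G l s)[k]? = some 1 := by
        rw [List.getElem?_eq_getElem hi]
        simp [hk]
      have h3 : (cell G l s)[k]? = l[s * G + k]? := by
        unfold cell
        rw [List.getElem?_take, if_pos hkG, List.getElem?_drop]
      rw [List.getD_eq_getElem?_getD, ← h3, h2]
      rfl
    have hmI : mI G i l s = i + (l.take (s * G + k)).sum + 1 := by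
      unfold mI
      rw [if_pos h1, List.take_add, List.sum_append]
      have : ((cell G l s).take ((cell G l s).idxOf 1)) = (l.drop (s * G)).take k := by
        rw [← hk]
        unfold cell
        rw [List.take_take, min_eq_left hkG.le]
      rw [this]
      ring
    have hmR : mR G r l s = r - 2 * (s * G + k) := by
      unfold mR
      rw [if_pos h1, ← hk]
      omega
    have hval : x09_f P v r i l (ps s) =
        |Real.cos (Real.pi * ((v : ℝ) * ((P : ℝ) ^ (mI G i l s) / 2 ^ (mR G r l s))))| := by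
      have hpsk : ps s = s * G + k := rfl
      rw [hpsk]
      unfold x09_f
      rw [if_pos hget, hmI, hmR]
    rw [hval]
    exact x09_cos hQ hw
  have hinj : Set.InjOn ps (gw P G R Q r i l v) := by
    intro s hs s' hs' he
    have h1 := (key s hs).1
    have h2 := (key s' hs').1
    have h3 : (cell G l s).idxOf 1 < G := lt_of_lt_of_le h1 (hcl s)
    have h4 : (cell G l s').idxOf 1 < G := lt_of_lt_of_le h2 (hcl s')
    simp only [hps] at he
    rcases Nat.lt_trichotomy s s' with h | h | h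
    · exfalso
      have : (s + 1) * G ≤ s' * G := Nat.mul_le_mul_right _ h
      rw [add_mul, one_mul] at this
      omega
    · exact h
    · exfalso
      have : (s' + 1) * G ≤ s * G := Nat.mul_le_mul_right _ h
      rw [add_mul, one_mul] at this
      omega
  rw [x09_prod]
  have hsub : (gw P G R Q r i l v).image ps ⊆ range l.length := by
    intro t ht
    rw [Finset.mem_image] at ht
    obtain ⟨s, hs, rfl⟩ := ht
    exact Finset.mem_range.2 (key s hs).2.1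
  rw [← Finset.prod_sdiff hsub]
  have h1 : ∏ t ∈ range l.length \ (gw P G R Q r i l v).image ps, x09_f P v r i l t ≤ 1 :=
    Finset.prod_le_one (fun t _ => x09_f_nonneg P v r i l t) (fun t _ => x09_f_le_one P v r i l t)
  have h2 : ∏ t ∈ (gw P G R Q r i l v).image ps, x09_f P v r i l t ≤
      Real.exp (-(2 / (Q : ℝ) ^ 2)) ^ (gw P G R Q r i l v).card := by
    rw [Finset.prod_image hinj, ← Finset.prod_const]
    exact Finset.prod_le_prod (fun s _ => x09_f_nonneg P v r i l _) (fun s hs => (key s hs).2.2)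
  have h3 : 0 ≤ ∏ t ∈ (gw P G R Q r i l v).image ps, x09_f P v r i l t :=
    Finset.prod_nonneg fun t _ => x09_f_nonneg P v r i l t
  calc _ ≤ 1 * ∏ t ∈ (gw P G R Q r i l v).image ps, x09_f P v r i l t :=
        mul_le_mul_of_nonneg_right h1 h3
    _ ≤ _ := by rw [one_mul]; exact h2

end Pool.Agent.Lib.MP_d0d59f_nt.PX

end
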