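import Pool.Agent.Lib.MP_d0d59f_nt.PZ.K002

section

/-! Row A2 (about 120 lines): splitting of lists and the number of compositions. -/

namespace Pool.Agent.Lib.MP_d0d59f_nt.AA

open Finset

theorem a2_swap {M : Type*} [AddCommMonoid M] (i L : ℕ) (H : ℕ → ℕ → M) :
    ∑ l ∈ range (L + 1), ∑ s ∈ Ico i (l + 1), H s (l - s) =
      ∑ s ∈ Ico i (L + 1), ∑ j ∈ range (L - s + 1), H s j := by
  have h1 : ∑ l ∈ range (L + 1), ∑ s ∈ Ico i (l + 1), H s (l - s) =
      ∑ s ∈ Ico i (L + 1), ∑ l ∈ Ico s (L + 1), H s (l - s) := by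
    refine Finset.sum_comm' fun l s => ?_
    simp only [mem_range, mem_Ico]
    omega
  rw [h1]
  refine Finset.sum_congr rfl fun s hs => ?_
  rw [Finset.sum_Ico_eq_sum_range]
  have hs' := (mem_Ico.1 hs).2
  rw [show L + 1 - s = L - s + 1 by omega]
  refine Finset.sum_congr rfl fun j _ => ?_
  rw [Nat.add_sub_cancel_left]

theorem a2_Icc (l : ℕ) : Icc 1 l = Ico 1 (l + 1) := by
  ext a; simp only [mem_Icc, mem_Ico]; omega

theorem a2_range (l : ℕ) : range (l + 1) = Ico 0 (l + 1) := by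
  ext a; simp only [mem_range, mem_Ico]; omega

/-- Induction on `t` generalizing `l f`. `t = 0`: only `s = 0` contributes (`sum_comps_zero`).
`t+1`: by `sum_comps_succ` and the induction hypothesis the left side is
`∑_{a=1}^l ∑_{s' ≤ l-a} ∑_{e1' ∈ comps t s'} ∑_{e2 ∈ comps n (l-a-s')} f (a :: e1' ++ e2)`; the right side
is `∑_{s≤l} ∑_{a=1}^s ∑_{e1' ∈ comps t (s-a)} ∑_{e2 ∈ comps n (l-s)} f(a :: e1' ++ e2)`; reindex
`(a,s) ↔ (a, s' = s - a)` (`Finset.sum_sigma'` and `Finset.sum_bij'`). -/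
theorem sum_comps_add {M : Type*} [AddCommMonoid M] (t n l : ℕ) (f : List ℕ → M) :
    ∑ e ∈ comps (t + n) l, f e =
      ∑ s ∈ range (l + 1), ∑ e1 ∈ comps t s, ∑ e2 ∈ comps n (l - s), f (e1 ++ e2) := by
  induction t generalizing l f with
  | zero =>
    simp only [sum_comps_zero, Nat.zero_add, List.nil_append]
    rw [Finset.sum_ite_eq' (range (l + 1)) 0]
    simp
  | succ t ih =>
    rw [show t + 1 + n = (t + n) + 1 by omega, sum_comps_succ]
    simp only [sum_comps_succ, ih]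
    have h1 : ∀ s ∈ range (l + 1), (∑ a ∈ Icc 1 s, ∑ e ∈ comps t (s - a), ∑ e2 ∈ comps n (l - s),
        f (a :: e ++ e2)) = ∑ a ∈ Ico 1 (s + 1), ∑ e ∈ comps t (s - a),
          ∑ e2 ∈ comps n (l - (a + (s - a))), f (a :: e ++ e2) := by
      intro s _
      rw [a2_Icc]
      refine Finset.sum_congr rfl fun a ha => ?_
      have := (mem_Ico.1 ha).2
      rw [show a + (s - a) = s by omega]
    rw [Finset.sum_congr rfl h1,
      a2_swap 1 l (fun a j => ∑ e ∈ comps t j, ∑ e2 ∈ comps n (l - (a + j)), f (a :: e ++ e2)), a2_Icc]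
    refine Finset.sum_congr rfl fun a _ => Finset.sum_congr rfl fun j _ => ?_
    rw [Nat.sub_sub]
    rfl

theorem a2_card_succ (n l : ℕ) :
    (comps (n + 1) l).card = ∑ a ∈ Icc 1 l, (comps n (l - a)).card := by
  have := sum_comps_succ n l (fun _ => (1 : ℕ))
  simpa using this

theorem a2_card_zero (l : ℕ) : (comps 0 l).card = if l = 0 then 1 else 0 := by
  have := sum_comps_zero l (fun _ => (1 : ℕ))
  simpa using this

theorem a2_pascal (n l : ℕ) :
    (comps (n + 1) (l + 1)).card = (comps n l).card + (comps (n + 1) l).card := by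
  rw [a2_card_succ n (l + 1), a2_card_succ n l, a2_Icc, a2_Icc, Finset.sum_eq_sum_Ico_succ_bot (by omega),
    Nat.add_sub_cancel]
  congr 1
  rw [Finset.sum_Ico_add' (fun a => (comps n (l + 1 - a)).card) 1 (l + 1) 1 |>.symm]
  refine Finset.sum_congr rfl fun a _ => ?_
  rw [Nat.add_sub_add_right]

/-- Induction on `n` generalizing `l`: `card (comps (n+1) (l+1)) = ∑_{a=1}^{l+1} card (comps n (l+1-a))
= ∑_{j=0}^{l} card (comps n j)`. For `n = 0` this is `1`; for `n = n'+1` the term `j = 0` vanishes and the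
others are `C(j-1, n')`, with sum `C(l, n'+1)` (hockey stick, `Nat.sum_range_choose...`/
`Nat.sum_Icc_choose`, or induction on `l`). -/
theorem card_comps (n l : ℕ) : (comps (n + 1) (l + 1)).card = l.choose n := by
  induction n generalizing l with
  | zero =>
    induction l with
    | zero => rw [a2_pascal, a2_card_zero, a2_card_succ]; simp
    | succ l ih => rw [a2_pascal, ih, a2_card_zero]; simp
  | succ n ih =>
    induction l with
    | zero =>
      rw [a2_pascal, a2_card_succ, a2_card_succ]; simp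
    | succ l ih2 => rw [a2_pascal, ih, ih2, Nat.choose_succ_succ]

theorem a2_half (L : ℕ) : ∑ a ∈ Ico 1 (L + 1), (1 / 2 : ℝ) ^ a ≤ 1 := by
  have : ∀ L : ℕ, ∑ a ∈ Ico 1 (L + 1), (1 / 2 : ℝ) ^ a = 1 - (1 / 2) ^ L := by
    intro L
    induction L with
    | zero => simp
    | succ L ih => rw [Finset.sum_Ico_succ_top (by omega), ih]; ring
  rw [this]
  have : (0 : ℝ) < (1 / 2) ^ L := by positivity
  linarith

theorem a2_total (n L : ℕ) :
    ∑ l ∈ range (L + 1), (1 / 2 : ℝ) ^ l * ((comps n l).card : ℝ) ≤ 1 := by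
  induction n generalizing L with
  | zero =>
    simp only [a2_card_zero]
    simp
  | succ n ih =>
    have h1 : ∀ l ∈ range (L + 1), (1 / 2 : ℝ) ^ l * ((comps (n + 1) l).card : ℝ) =
        ∑ a ∈ Ico 1 (l + 1), (1 / 2 : ℝ) ^ a * ((1 / 2 : ℝ) ^ (l - a) * ((comps n (l - a)).card : ℝ)) := by
      intro l _
      rw [a2_card_succ, a2_Icc, Nat.cast_sum, Finset.mul_sum]
      refine Finset.sum_congr rfl fun a ha => ?_
      have := (mem_Ico.1 ha).2
      rw [← mul_assoc, ← pow_add, show a + (l - a) = l by omega]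
    rw [Finset.sum_congr rfl h1,
      a2_swap 1 L (fun a j => (1 / 2 : ℝ) ^ a * ((1 / 2 : ℝ) ^ j * ((comps n j).card : ℝ)))]
    refine le_trans (Finset.sum_le_sum fun a _ => ?_) (a2_half L)
    rw [← Finset.mul_sum]
    exact mul_le_of_le_one_right (by positivity) (ih _)

/-- Marginal lemma. `∑_{l ≤ L} 2^{-l} ∑_{e ∈ comps (t+n) l} g (e.take t) ≤ ∑_{s ≤ L} 2^{-s} ∑_{e1 ∈ comps t s} g e1`
for `g ≥ 0`. Proof: by `sum_comps_add` (and `(e1 ++ e2).take t = e1` as `e1.length = t`) the left side is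
`∑_{l≤L} ∑_{s≤l} 2^{-s} (∑_{e1 ∈ comps t s} g e1) · 2^{-(l-s)} card (comps n (l-s))`; exchange the sums over `s` and `l`
and use `∑_{l'≤L'} 2^{-l'} card (comps n l') ≤ 1`, proved by induction on `n` from `sum_comps_succ`
(`u(n+1,L) = ∑_{a=1}^{L} 2^{-a} u(n,L-a) ≤ ∑_{a=1}^L 2^{-a} ≤ 1`). -/
theorem marginal_le (t n L : ℕ) (g : List ℕ → ℝ) (hg : ∀ e, 0 ≤ g e) :
    ∑ l ∈ range (L + 1), (1 / 2 : ℝ) ^ l * ∑ e ∈ comps (t + n) l, g (e.take t) ≤
      ∑ s ∈ range (L + 1), (1 / 2 : ℝ) ^ s * ∑ e1 ∈ comps t s, g e1 := by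
  have h1 : ∀ l ∈ range (L + 1), (1 / 2 : ℝ) ^ l * ∑ e ∈ comps (t + n) l, g (e.take t) =
      ∑ s ∈ Ico 0 (l + 1), ((1 / 2 : ℝ) ^ s * ∑ e1 ∈ comps t s, g e1) *
        ((1 / 2 : ℝ) ^ (l - s) * ((comps n (l - s)).card : ℝ)) := by
    intro l _
    rw [sum_comps_add, a2_range, Finset.mul_sum]
    refine Finset.sum_congr rfl fun s hs => ?_
    have hs' := (mem_Ico.1 hs).2
    have h2 : ∀ e1 ∈ comps t s, ∑ e2 ∈ comps n (l - s), g ((e1 ++ e2).take t) =
        ((comps n (l - s)).card : ℝ) * g e1 := by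
      intro e1 he1
      have hl := (mem_comps.1 he1).1
      have h3 : ∀ e2 ∈ comps n (l - s), g ((e1 ++ e2).take t) = g e1 := by
        intro e2 _
        rw [List.take_left' hl]
      rw [Finset.sum_congr rfl h3, Finset.sum_const, nsmul_eq_mul]
    rw [Finset.sum_congr rfl h2, ← Finset.mul_sum]
    have h4 : (1 / 2 : ℝ) ^ l = (1 / 2 : ℝ) ^ s * (1 / 2 : ℝ) ^ (l - s) := by
      rw [← pow_add, show s + (l - s) = l by omega]
    rw [h4]; ring
  rw [Finset.sum_congr rfl h1,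
    a2_swap 0 L (fun s j => ((1 / 2 : ℝ) ^ s * ∑ e1 ∈ comps t s, g e1) *
        ((1 / 2 : ℝ) ^ j * ((comps n j).card : ℝ))), ← a2_range]
  refine Finset.sum_le_sum fun s _ => ?_
  rw [← Finset.mul_sum]
  exact mul_le_of_le_one_right (mul_nonneg (by positivity) (Finset.sum_nonneg fun e _ => hg e))
    (a2_total _ _)

end Pool.Agent.Lib.MP_d0d59f_nt.AA

end

section

/-! Row A3 (about 200 lines): the weights `nb n l`. -/

namespace Pool.Agent.Lib.MP_d0d59f_nt.AA

open Finset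

theorem nb_nonneg (n l : ℕ) : 0 ≤ nb n l := by
  unfold nb
  positivity

theorem nb_zero (l : ℕ) : nb 0 l = if l = 0 then 1 else 0 := by
  unfold nb
  by_cases h : l = 0
  · subst h
    simp [comps]
  · simp [comps, h]

theorem nb_succ_zero (n : ℕ) : nb (n + 1) 0 = 0 := by
  unfold nb
  simp [comps]

theorem a3_card (n l : ℕ) : ((comps n l).card : ℝ) = ∑ _e ∈ comps n l, (1 : ℝ) := by
  rw [Finset.sum_const, nsmul_eq_mul, mul_one]

/-- From `sum_comps_succ` with `f = 1` (`Finset.card_eq_sum_ones`), `2^{-l} = 2^{-a} 2^{-(l-a)}`. -/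
theorem nb_succ (n l : ℕ) : nb (n + 1) l = ∑ a ∈ Icc 1 l, (1 / 2 : ℝ) ^ a * nb n (l - a) := by
  unfold nb
  rw [a3_card, sum_comps_succ n l (fun _ => (1 : ℝ)), Finset.mul_sum]
  refine Finset.sum_congr rfl fun a ha => ?_
  rw [← a3_card, ← mul_assoc, ← pow_add]
  have h := (Finset.mem_Icc.1 ha).2
  rw [Nat.add_sub_cancel' h]

/-- From `sum_comps_add` with `f = 1`. -/
theorem nb_add (t n l : ℕ) : nb (t + n) l = ∑ s ∈ range (l + 1), nb t s * nb n (l - s) := by
  unfold nb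
  rw [a3_card, sum_comps_add t n l (fun _ => (1 : ℝ)), Finset.mul_sum]
  refine Finset.sum_congr rfl fun s hs => ?_
  have h : s ≤ l := Nat.lt_succ_iff.1 (Finset.mem_range.1 hs)
  have h1 : (1 / 2 : ℝ) ^ l = (1 / 2 : ℝ) ^ s * (1 / 2 : ℝ) ^ (l - s) := by
    rw [← pow_add, Nat.add_sub_cancel' h]
  rw [← a3_card, Finset.sum_const, nsmul_eq_mul, h1]
  ring

/-- exchange of the order of summation -/
theorem a3_swap (F : ℕ → ℕ → ℝ) (L : ℕ) :
    ∑ l ∈ range (L + 1), ∑ a ∈ Icc 1 l, F a (l - a) =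
      ∑ a ∈ Icc 1 L, ∑ l ∈ range (L - a + 1), F a l := by
  have h1 : ∑ l ∈ range (L + 1), ∑ a ∈ Icc 1 l, F a (l - a) =
      ∑ a ∈ Icc 1 L, ∑ l ∈ Ico a (L + 1), F a (l - a) := by
    refine Finset.sum_comm' ?_
    intro l a
    rw [Finset.mem_range, Finset.mem_Icc, Finset.mem_Icc, Finset.mem_Ico]
    omega
  rw [h1]
  refine Finset.sum_congr rfl fun a ha => ?_
  have ha' := Finset.mem_Icc.1 ha
  rw [Finset.sum_Ico_eq_sum_range]
  have h2 : L + 1 - a = L - a + 1 := by omega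
  rw [h2]
  refine Finset.sum_congr rfl fun i _ => ?_
  rw [Nat.add_sub_cancel_left]

/-- geometric sums -/
theorem a3_geom (y : ℝ) (hy : y ≠ 1) (L : ℕ) :
    ∑ a ∈ Icc 1 L, y ^ a = y * (1 - y ^ L) / (1 - y) := by
  have h1 : (1 - y) ≠ 0 := sub_ne_zero.2 (Ne.symm hy)
  induction L with
  | zero => simp
  | succ L ih =>
    rw [Finset.sum_Icc_succ_top (by omega), ih]
    field_simp
    ring

theorem a3_div_pow (x : ℝ) (a : ℕ) : (x / 2) ^ a = (1 / 2 : ℝ) ^ a * x ^ a := by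
  rw [← mul_pow, one_div_mul_eq_div]

theorem a3_half (L : ℕ) : ∑ a ∈ Icc 1 L, (1 / 2 : ℝ) ^ a = 1 - (1 / 2 : ℝ) ^ L := by
  rw [a3_geom (1 / 2) (by norm_num) L]
  ring

theorem a3_sum_zero (L : ℕ) : ∑ l ∈ range (L + 1), nb 0 l = 1 := by
  simp only [nb_zero]
  rw [Finset.sum_ite_eq' (range (L + 1)) 0 (fun _ => (1 : ℝ)),
    if_pos (Finset.mem_range.2 (Nat.succ_pos L))]

theorem a3_sum_succ (n L : ℕ) : ∑ l ∈ range (L + 1), nb (n + 1) l =
    ∑ a ∈ Icc 1 L, (1 / 2 : ℝ) ^ a * ∑ l ∈ range (L - a + 1), nb n l := by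
  have h := a3_swap (fun a l => (1 / 2 : ℝ) ^ a * nb n l) L
  simp only [nb_succ]
  rw [h]
  refine Finset.sum_congr rfl fun a _ => ?_
  rw [Finset.mul_sum]

/-- Induction on `n` from `nb_succ`: `∑_{l≤L} nb (n+1) l = ∑_{a=1}^L 2^{-a} ∑_{l' ≤ L-a} nb n l' ≤ ∑_a 2^{-a} ≤ 1`. -/
theorem sum_nb_le_one (n L : ℕ) : ∑ l ∈ range (L + 1), nb n l ≤ 1 := by
  induction n generalizing L with
  | zero => rw [a3_sum_zero]
  | succ n ih =>
    rw [a3_sum_succ]
    calc ∑ a ∈ Icc 1 L, (1 / 2 : ℝ) ^ a * ∑ l ∈ range (L - a + 1), nb n l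
        ≤ ∑ a ∈ Icc 1 L, (1 / 2 : ℝ) ^ a :=
          Finset.sum_le_sum fun a _ => mul_le_of_le_one_right (by positivity) (ih (L - a))
      _ = 1 - (1 / 2 : ℝ) ^ L := a3_half L
      _ ≤ 1 := sub_le_self _ (by positivity)

/-- Induction on `n`: `∑_{l≤L} nb (n+1) l x^l = ∑_{a=1}^L (x/2)^a ∑_{l'≤L-a} nb n l' x^{l'}
≤ (x/(2-x))^n ∑_{a=1}^L (x/2)^a ≤ (x/(2-x))^n (x/2)/(1-x/2)`. -/
theorem sum_nb_mul_pow_le (n L : ℕ) (x : ℝ) (hx0 : 0 < x) (hx2 : x < 2) :
    ∑ l ∈ range (L + 1), nb n l * x ^ l ≤ (x / (2 - x)) ^ n := by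
  have hG : 0 < x / (2 - x) := div_pos hx0 (by linarith)
  induction n generalizing L with
  | zero =>
    simp only [nb_zero, pow_zero]
    have h : ∀ l ∈ range (L + 1), (if l = 0 then (1 : ℝ) else 0) * x ^ l =
        if l = 0 then (1 : ℝ) else 0 := by
      intro l _
      by_cases hl : l = 0
      · subst hl
        simp
      · simp [hl]
    rw [Finset.sum_congr rfl h, Finset.sum_ite_eq' (range (L + 1)) 0 (fun _ => (1 : ℝ)),
      if_pos (Finset.mem_range.2 (Nat.succ_pos L))]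
  | succ n ih =>
    have h1 : ∑ l ∈ range (L + 1), nb (n + 1) l * x ^ l =
        ∑ a ∈ Icc 1 L, (x / 2) ^ a * ∑ l ∈ range (L - a + 1), nb n l * x ^ l := by
      have h := a3_swap (fun a l => (x / 2) ^ a * (nb n l * x ^ l)) L
      simp only [Finset.mul_sum]
      rw [← h]
      refine Finset.sum_congr rfl fun l _ => ?_
      rw [nb_succ, Finset.sum_mul]
      refine Finset.sum_congr rfl fun a ha => ?_
      have ha' := (Finset.mem_Icc.1 ha).2
      have h2 : x ^ l = x ^ a * x ^ (l - a) := by rw [← pow_add, Nat.add_sub_cancel' ha']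
      rw [h2, a3_div_pow]
      ring
    rw [h1]
    have hne : x / 2 ≠ 1 := by
      intro h
      linarith
    calc ∑ a ∈ Icc 1 L, (x / 2) ^ a * ∑ l ∈ range (L - a + 1), nb n l * x ^ l
        ≤ ∑ a ∈ Icc 1 L, (x / 2) ^ a * (x / (2 - x)) ^ n :=
          Finset.sum_le_sum fun a _ => mul_le_mul_of_nonneg_left (ih (L - a)) (by positivity)
      _ = (x / 2 * (1 - (x / 2) ^ L) / (1 - x / 2)) * (x / (2 - x)) ^ n := by
          rw [← Finset.sum_mul, a3_geom (x / 2) hne L]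
      _ = (x / (2 - x)) ^ (n + 1) * (1 - (x / 2) ^ L) := by
          have h2 : (2 - x) ≠ 0 := by linarith
          have h3 : (1 - x / 2) ≠ 0 := by
            intro h
            apply hne
            linarith
          have h4 : x / 2 * (1 - (x / 2) ^ L) / (1 - x / 2) =
              x / (2 - x) * (1 - (x / 2) ^ L) := by
            field_simp
          rw [h4, pow_succ]
          ring
      _ ≤ (x / (2 - x)) ^ (n + 1) := by
          refine mul_le_of_le_one_right (by positivity) ?_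
          have : 0 ≤ (x / 2) ^ L := by positivity
          linarith

/-- Let `U(n,L) = 1 - ∑_{l≤L} nb n l`, `G = x/(2-x) ≥ x ≥ 1`. `U(0,L) = 0`, and from `nb_succ`
`U(n+1,L) = 1 - ∑_{a=1}^L 2^{-a}(1 - U(n,L-a)) = 2^{-L} + ∑_{a=1}^L 2^{-a} U(n,L-a)`.
By induction (`U(n,L) ≤ x^{-(L+1)} G^n`) the sum is `≤ x^{-(L+1)} G^n ∑_{a=1}^L (x/2)^a = x^{-(L+1)} G^{n+1} (1-(x/2)^L)`, and
`2^{-L} ≤ x^{-(L+1)} G^{n+1} (x/2)^L` because `G^{n+1} ≥ G ≥ x`. -/
theorem one_sub_sum_nb_le (n L : ℕ) (x : ℝ) (hx1 : 1 ≤ x) (hx2 : x < 2) :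
    1 - ∑ l ∈ range (L + 1), nb n l ≤ (x⁻¹) ^ (L + 1) * (x / (2 - x)) ^ n := by
  have hx0 : 0 < x := by linarith
  have h2x : 0 < 2 - x := by linarith
  have hG : 0 < x / (2 - x) := div_pos hx0 h2x
  have hGx : x ≤ x / (2 - x) := by
    rw [le_div_iff₀ h2x]
    nlinarith
  have hne : x / 2 ≠ 1 := by
    intro h
    linarith
  induction n generalizing L with
  | zero =>
    rw [a3_sum_zero, sub_self]
    positivity
  | succ n ih =>
    rw [a3_sum_succ]
    have h1 : 1 - ∑ a ∈ Icc 1 L, (1 / 2 : ℝ) ^ a * ∑ l ∈ range (L - a + 1), nb n l =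
        (1 / 2 : ℝ) ^ L +
          ∑ a ∈ Icc 1 L, (1 / 2 : ℝ) ^ a * (1 - ∑ l ∈ range (L - a + 1), nb n l) := by
      simp only [mul_sub, mul_one]
      rw [Finset.sum_sub_distrib, a3_half]
      ring
    rw [h1]
    have h2 : ∑ a ∈ Icc 1 L, (1 / 2 : ℝ) ^ a * (1 - ∑ l ∈ range (L - a + 1), nb n l) ≤
        (x⁻¹) ^ (L + 1) * (x / (2 - x)) ^ (n + 1) * (1 - (x / 2) ^ L) := by
      calc ∑ a ∈ Icc 1 L, (1 / 2 : ℝ) ^ a * (1 - ∑ l ∈ range (L - a + 1), nb n l)
          ≤ ∑ a ∈ Icc 1 L, (x / 2) ^ a * ((x⁻¹) ^ (L + 1) * (x / (2 - x)) ^ n) := by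
            refine Finset.sum_le_sum fun a ha => ?_
            have ha' := (Finset.mem_Icc.1 ha).2
            refine (mul_le_mul_of_nonneg_left (ih (L - a)) (by positivity)).trans (le_of_eq ?_)
            have h3 : (x⁻¹) ^ (L - a + 1) = x ^ a * (x⁻¹) ^ (L + 1) := by
              have h4 : (x⁻¹) ^ (L + 1) = (x⁻¹) ^ a * (x⁻¹) ^ (L - a + 1) := by
                rw [← pow_add]
                have h5 : L + 1 = a + (L - a + 1) := by omega
                rw [← h5]
              rw [h4, ← mul_assoc, ← mul_pow, mul_inv_cancel₀ hx0.ne', one_pow, one_mul]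
            rw [h3, a3_div_pow]
            ring
        _ = (x / 2 * (1 - (x / 2) ^ L) / (1 - x / 2)) *
              ((x⁻¹) ^ (L + 1) * (x / (2 - x)) ^ n) := by
            rw [← Finset.sum_mul, a3_geom (x / 2) hne L]
        _ = (x⁻¹) ^ (L + 1) * (x / (2 - x)) ^ (n + 1) * (1 - (x / 2) ^ L) := by
            have h3 : (1 - x / 2) ≠ 0 := by
              intro h
              apply hne
              linarith
            have h5 : (2 - x) ≠ 0 := h2x.ne'
            have h4 : x / 2 * (1 - (x / 2) ^ L) / (1 - x / 2) =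
                x / (2 - x) * (1 - (x / 2) ^ L) := by
              field_simp
            rw [h4, pow_succ (x / (2 - x)) n]
            ring
    have h3 : (1 / 2 : ℝ) ^ L ≤
        (x⁻¹) ^ (L + 1) * (x / (2 - x)) ^ (n + 1) * (x / 2) ^ L := by
      have h4 : x ≤ (x / (2 - x)) ^ (n + 1) := by
        have h5 : (1 : ℝ) ≤ x / (2 - x) := hx1.trans hGx
        calc x ≤ x / (2 - x) := hGx
          _ = (x / (2 - x)) ^ 1 := (pow_one _).symm
          _ ≤ (x / (2 - x)) ^ (n + 1) := pow_le_pow_right₀ h5 (by omega)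
      have h6 : (x⁻¹) ^ (L + 1) * (x / (2 - x)) ^ (n + 1) * (x / 2) ^ L =
          (1 / 2 : ℝ) ^ L * (x⁻¹ * (x / (2 - x)) ^ (n + 1)) := by
        have h7 : (x⁻¹) ^ L * (x / 2) ^ L = (1 / 2 : ℝ) ^ L := by
          rw [← mul_pow]
          congr 1
          field_simp
        rw [pow_succ (x⁻¹) L, ← h7]
        ring
      rw [h6]
      refine le_mul_of_one_le_right (by positivity) ?_
      rw [inv_mul_eq_div, le_div_iff₀ hx0, one_mul]
      exact h4
    calc (1 / 2 : ℝ) ^ L +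
          ∑ a ∈ Icc 1 L, (1 / 2 : ℝ) ^ a * (1 - ∑ l ∈ range (L - a + 1), nb n l)
        ≤ (x⁻¹) ^ (L + 1) * (x / (2 - x)) ^ (n + 1) * (x / 2) ^ L +
          (x⁻¹) ^ (L + 1) * (x / (2 - x)) ^ (n + 1) * (1 - (x / 2) ^ L) := add_le_add h3 h2
      _ = (x⁻¹) ^ (L + 1) * (x / (2 - x)) ^ (n + 1) := by ring

end Pool.Agent.Lib.MP_d0d59f_nt.AA

end

section

/-! Row A4 (about 200 lines): the weights `pw b = (b-1) 2^{-b}` and `nb (2t) β`. -/

namespace Pool.Agent.Lib.MP_d0d59f_nt.AA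

open Finset

theorem pw_nonneg (b : ℕ) : 0 ≤ pw b := by
  unfold pw; positivity

theorem a4_pw_zero : pw 0 = 0 := by simp [pw]

theorem a4_pw_succ (k : ℕ) : pw (k + 1) = (k : ℝ) / 2 ^ (k + 1) := by
  unfold pw
  rw [Nat.add_sub_cancel, one_div, inv_pow]
  rfl

/-- Induction on `k`. -/
theorem sum_pw (k : ℕ) : ∑ b ∈ range (k + 1), pw b = 1 - ((k : ℝ) + 1) / 2 ^ k := by
  induction k with
  | zero => simp [a4_pw_zero]
  | succ k ih =>
    rw [sum_range_succ, ih, a4_pw_succ]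
    push_cast
    field_simp
    ring

theorem sum_pw_le_one (L : ℕ) : ∑ b ∈ range L, pw b ≤ 1 := by
  cases L with
  | zero => simp
  | succ k =>
    rw [sum_pw]
    have : 0 ≤ ((k : ℝ) + 1) / 2 ^ k := by positivity
    linarith

/-- `= (B+1)/2^B - (L+1)/2^L` if `B ≤ L`, and `0` otherwise. -/
theorem sum_pw_Ico_le (B L : ℕ) : ∑ b ∈ Ico (B + 1) (L + 1), pw b ≤ ((B : ℝ) + 1) / 2 ^ B := by
  rcases le_total B L with h | h
  · have h1 := sum_range_add_sum_Ico pw (Nat.succ_le_succ h)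
    simp only [Nat.succ_eq_add_one] at h1
    rw [sum_pw, sum_pw] at h1
    have : 0 ≤ ((L : ℝ) + 1) / 2 ^ L := by positivity
    linarith
  · rw [Ico_eq_empty_of_le (by omega), sum_empty]
    positivity

theorem a4_sum_mul_pw (k : ℕ) : ∑ b ∈ range (k + 1), (b : ℝ) * pw b =
    4 - ((k : ℝ) ^ 2 + 3 * k + 4) / 2 ^ k := by
  induction k with
  | zero => simp [a4_pw_zero]
  | succ k ih =>
    rw [sum_range_succ, ih, a4_pw_succ]
    push_cast
    field_simp
    ring

/-- `∑_{b≤k} b pw b = 4 - (k²+3k+4)/2^k` by induction on `k`. -/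
theorem sum_mul_pw_le (L : ℕ) : ∑ b ∈ range L, (b : ℝ) * pw b ≤ 4 := by
  cases L with
  | zero => simp
  | succ k =>
    rw [a4_sum_mul_pw]
    have : 0 ≤ ((k : ℝ) ^ 2 + 3 * k + 4) / 2 ^ k := by positivity
    linarith

theorem sum_mul_pw_Ico_le (B L : ℕ) :
    ∑ b ∈ Ico (B + 1) (L + 1), (b : ℝ) * pw b ≤ ((B : ℝ) ^ 2 + 3 * B + 4) / 2 ^ B := by
  rcases le_total B L with h | h
  · have h1 := sum_range_add_sum_Ico (fun b => (b : ℝ) * pw b) (Nat.succ_le_succ h)
    simp only [Nat.succ_eq_add_one] at h1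
    rw [a4_sum_mul_pw, a4_sum_mul_pw] at h1
    have : 0 ≤ ((L : ℝ) ^ 2 + 3 * L + 4) / 2 ^ L := by positivity
    linarith
  · rw [Ico_eq_empty_of_le (by omega), sum_empty]
    positivity

/-- `nb 2 l = pw l` (from `nb_succ` twice, or `card_comps`). -/
theorem nb_two (l : ℕ) : nb 2 l = pw l := by
  cases l with
  | zero => rw [nb_succ_zero, a4_pw_zero]
  | succ l =>
    unfold nb pw
    rw [card_comps, Nat.choose_one_right, Nat.add_sub_cancel, mul_comm]

/-- `nb_add` with `t = 2`, `n = 2 t`, and `nb_two`. -/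
theorem nb_two_add (t β : ℕ) :
    nb (2 * (t + 1)) β = ∑ b ∈ range (β + 1), pw b * nb (2 * t) (β - b) := by
  have h : 2 * (t + 1) = 2 + 2 * t := by ring
  rw [h, nb_add]
  exact sum_congr rfl fun b _ => by rw [nb_two]

/-- For `β = 0` only `t = 0` contributes (`nb 0 0 = 1`). For `β = β'+1`: `nb 0 β = 0` and
`nb (2t) β = 2^{-β} C(β', 2t-1)` (`card_comps`) for `t ≥ 1`; the numbers `2t-1` are distinct, so the sum is
`≤ 2^{-β} ∑_j C(β', j) = 1/2`. -/
theorem sum_nb_even_le_one (T β : ℕ) : ∑ t ∈ range T, nb (2 * t) β ≤ 1 := by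
  cases T with
  | zero => simp
  | succ T =>
    rw [sum_range_succ']
    cases β with
    | zero =>
      have h1 : ∑ k ∈ range T, nb (2 * (k + 1)) 0 = 0 := by
        apply sum_eq_zero
        intro k _
        have : 2 * (k + 1) = (2 * k + 1) + 1 := by ring
        rw [this, nb_succ_zero]
      rw [h1, mul_zero, nb_zero]
      simp
    | succ β =>
      rw [mul_zero, nb_zero, if_neg (Nat.succ_ne_zero β), add_zero]
      have h1 : ∀ k ∈ range T, nb (2 * (k + 1)) (β + 1) =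
          (1 / 2 : ℝ) ^ (β + 1) * ((β.choose (2 * k + 1) : ℕ) : ℝ) := by
        intro k _
        have : 2 * (k + 1) = (2 * k + 1) + 1 := by ring
        rw [this]
        unfold nb
        rw [card_comps]
      rw [sum_congr rfl h1, ← mul_sum]
      have h2 : ∑ k ∈ range T, β.choose (2 * k + 1) ≤ 2 ^ β := by
        rw [← Nat.sum_range_choose β]
        have h3 : ∑ k ∈ range T, β.choose (2 * k + 1) =
            ∑ j ∈ (range T).image (fun k => 2 * k + 1), β.choose j := by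
          rw [sum_image]
          intro a _ b _ hab
          simp only at hab
          omega
        rw [h3]
        apply sum_le_sum_of_ne_zero
        intro j _ hj
        rw [mem_range]
        by_contra hlt
        exact hj (Nat.choose_eq_zero_of_lt (by omega))
      have h4 : (∑ k ∈ range T, ((β.choose (2 * k + 1) : ℕ) : ℝ)) ≤ 2 ^ β := by
        exact_mod_cast h2
      calc (1 / 2 : ℝ) ^ (β + 1) * ∑ k ∈ range T, ((β.choose (2 * k + 1) : ℕ) : ℝ)
          ≤ (1 / 2 : ℝ) ^ (β + 1) * 2 ^ β := mul_le_mul_of_nonneg_left h4 (by positivity)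
        _ = 1 / 2 := by
          rw [pow_succ, mul_right_comm, ← mul_pow]
          norm_num
        _ ≤ 1 := by norm_num

end Pool.Agent.Lib.MP_d0d59f_nt.AA

end
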