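import Pool.Agent.Lib.MP_d0d59f_nt.PZ.K003
import Pool.Agent.Lib.MP_d0d59f_nt.PZ.K007

section

/-! Row A6 (about 150 lines): the offsets `C(e)`. -/

namespace Pool.Agent.Lib.MP_d0d59f_nt.AA

open Finset

/-- Induction on `e1`. -/
theorem cc_append (e1 e2 : List ℕ) :
    cc (e1 ++ e2) = 2 ^ e2.sum * cc e1 + 3 ^ e1.length * cc e2 := by
  induction e1 with
  | nil => simp [cc]
  | cons a e ih =>
    rw [List.cons_append, cc, cc, ih, List.sum_append, List.length_cons, pow_add, pow_succ]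
    ring

/-- Induction on `e`: `cc [a] = 1`; `cc (a :: e) = 2^{|e|} + 3 cc e` with `|e| ≥ 1` for `e ≠ []`. -/
theorem cc_odd {e : List ℕ} (hne : e ≠ []) (he : ∀ a ∈ e, 1 ≤ a) : Odd (cc e) := by
  induction e with
  | nil => exact absurd rfl hne
  | cons a e ih =>
    rw [cc]
    rcases e with _ | ⟨b, e⟩
    · simp [cc]
    · have h1 : Odd (cc (b :: e)) := ih (List.cons_ne_nil _ _) fun x hx =>
        he x (List.mem_cons_of_mem _ hx)
      have h2 : 1 ≤ (b :: e).sum := by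
        rw [List.sum_cons]
        have := he b (by simp)
        omega
      have h3 : Even (2 ^ (b :: e).sum) := by
        refine Nat.even_pow.2 ⟨even_two, by omega⟩
      exact h3.add_odd ((by decide : Odd 3).mul h1)

theorem a6_two {a b m n : ℕ} (hm : Odd m) (hn : Odd n) (h : 2 ^ a * m = 2 ^ b * n) : a = b := by
  have key : ∀ {a b m n : ℕ}, Odd m → Odd n → 2 ^ a * m = 2 ^ b * n → ¬ a < b := by
    intro a b m n hm _ h hab
    obtain ⟨c, rfl⟩ : ∃ c, b = a + (c + 1) := ⟨b - a - 1, by omega⟩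
    rw [pow_add, mul_assoc] at h
    have h1 := Nat.eq_of_mul_eq_mul_left (pow_pos two_pos a) h
    rw [h1, pow_succ] at hm
    have h2 : Even (2 ^ c * 2 * n) := by
      rw [mul_assoc, mul_left_comm]
      exact even_two_mul _
    exact (Nat.not_even_iff_odd.2 hm) h2
  rcases lt_trichotomy a b with h1 | h1 | h1
  · exact absurd h1 (key hm hn h)
  · exact h1
  · exact absurd h1 (key hn hm h.symm)

/-- Induction on `t` (generalizing `s e e'`), splitting off the LAST entry: `e = e1 ++ [a]`,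
`cc e = 2^a cc e1 + 3^t` with `t = e1.length`. If `t = 0` then `e = [s] = e'`. If `t ≥ 1`, from
`cc e = cc e'` we get `2^a cc e1 = 2^{a'} cc e1'` with both `cc` odd, so `a = a'` and `cc e1 = cc e1'`; the sums
of `e1, e1'` agree, so `e1 = e1'` by induction. (`List.eq_append_of_length...`, or use `e.reverse`,
`List.dropLast_append_getLast`.) -/
theorem cc_inj {t s : ℕ} {e e' : List ℕ} (he : e ∈ comps t s) (he' : e' ∈ comps t s)
    (h : cc e = cc e') : e = e' := by
  induction t generalizing s e e' with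
  | zero =>
    have h1 := (mem_comps.1 he).1
    have h2 := (mem_comps.1 he').1
    rw [List.length_eq_zero_iff] at h1 h2
    rw [h1, h2]
  | succ t ih =>
    obtain ⟨hl, hs, hp⟩ := mem_comps.1 he
    obtain ⟨hl', hs', hp'⟩ := mem_comps.1 he'
    have split : ∀ f : List ℕ, f.length = t + 1 → ∃ g : List ℕ, ∃ a, f = g ++ [a] ∧
        g.length = t := by
      intro f hf
      have hne : f ≠ [] := by
        intro h0
        rw [h0] at hf
        simp at hf
      refine ⟨f.dropLast, f.getLast hne, (List.dropLast_append_getLast hne).symm, ?_⟩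
      rw [List.length_dropLast, hf]
      rfl
    obtain ⟨g, a, rfl, hg⟩ := split e hl
    obtain ⟨g', a', rfl, hg'⟩ := split e' hl'
    rw [List.sum_append, List.sum_singleton] at hs hs'
    have hcc : ∀ (f : List ℕ) (b : ℕ), cc (f ++ [b]) = 2 ^ b * cc f + 3 ^ f.length := by
      intro f b
      rw [cc_append]
      simp [cc]
    rw [hcc, hcc, hg, hg'] at h
    have h1 : 2 ^ a * cc g = 2 ^ a' * cc g' := Nat.add_right_cancel h
    rcases Nat.eq_zero_or_pos t with h0 | h0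
    · rw [h0, List.length_eq_zero_iff] at hg hg'
      subst hg hg'
      simp only [List.sum_nil, zero_add] at hs hs'
      rw [hs, hs']
    · have hgne : g ≠ [] := by
        intro h2
        rw [h2] at hg
        simp at hg
        omega
      have hgne' : g' ≠ [] := by
        intro h2
        rw [h2] at hg'
        simp at hg'
        omega
      have hgp : ∀ x ∈ g, 1 ≤ x := fun x hx => hp x (List.mem_append_left _ hx)
      have hgp' : ∀ x ∈ g', 1 ≤ x := fun x hx => hp' x (List.mem_append_left _ hx)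
      have h2 : a = a' := a6_two (cc_odd hgne hgp) (cc_odd hgne' hgp') h1
      subst h2
      have h3 : cc g = cc g' := Nat.eq_of_mul_eq_mul_left (pow_pos two_pos a) h1
      have h4 : g.sum = g'.sum := by omega
      have h5 := ih (s := g.sum) (mem_comps.2 ⟨hg, rfl, hgp⟩)
        (mem_comps.2 ⟨hg', h4.symm, hgp'⟩) h3
      rw [h5]

/-- Induction on `e`: `cc (a :: e) = 2^{|e|} + 3 cc e ≤ 2^{|e|}(1 + 3(3/2)^n - 3) = 2^{|e|+1}((3/2)^{n+1} - 1)
≤ 2^{|e|+a}((3/2)^{n+1} - 1)`. -/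
theorem cc_le {e : List ℕ} (he : ∀ a ∈ e, 1 ≤ a) :
    (cc e : ℝ) ≤ 2 ^ e.sum * ((3 / 2 : ℝ) ^ e.length - 1) := by
  induction e with
  | nil => simp [cc]
  | cons a e ih =>
    have h1 := ih fun x hx => he x (List.mem_cons_of_mem _ hx)
    have ha : 1 ≤ a := he a (by simp)
    rw [cc, List.sum_cons, List.length_cons]
    push_cast
    have h2 : (1 : ℝ) ≤ (3 / 2 : ℝ) ^ (e.length + 1) := one_le_pow₀ (by norm_num)
    have h3 : (2 : ℝ) ^ (1 : ℕ) ≤ 2 ^ a := pow_le_pow_right₀ (by norm_num) ha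
    have h4 : (0 : ℝ) < 2 ^ e.sum := by positivity
    calc (2 : ℝ) ^ e.sum + 3 * (cc e : ℝ)
        ≤ 2 ^ e.sum + 3 * (2 ^ e.sum * ((3 / 2 : ℝ) ^ e.length - 1)) := by linarith
      _ = 2 ^ (1 : ℕ) * 2 ^ e.sum * ((3 / 2 : ℝ) ^ (e.length + 1) - 1) := by
          rw [pow_succ (3 / 2 : ℝ) e.length]; ring
      _ ≤ 2 ^ a * 2 ^ e.sum * ((3 / 2 : ℝ) ^ (e.length + 1) - 1) := by
          refine mul_le_mul_of_nonneg_right ?_ (by linarith)
          exact mul_le_mul_of_nonneg_right h3 h4.le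
      _ = _ := by rw [pow_add (2 : ℝ) a e.sum]

theorem a6_exch (L : ℕ) (F : ℕ → ℕ → ℝ) :
    ∑ l ∈ range (L + 1), ∑ a ∈ Icc 1 l, F a (l - a) =
      ∑ a ∈ Icc 1 L, ∑ m ∈ range (L - a + 1), F a m := by
  rw [Finset.sum_sigma', Finset.sum_sigma']
  refine Finset.sum_bij' (fun p _ => ⟨p.2, p.1 - p.2⟩) (fun p _ => ⟨p.1 + p.2, p.1⟩) ?_ ?_ ?_ ?_ ?_
  · rintro ⟨l, a⟩ h
    simp only [mem_sigma, mem_range, mem_Icc] at h ⊢
    omega
  · rintro ⟨a, m⟩ h
    simp only [mem_sigma, mem_range, mem_Icc] at h ⊢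
    omega
  · rintro ⟨l, a⟩ h
    simp only [mem_sigma, mem_range, mem_Icc] at h
    have : a + (l - a) = l := by omega
    simp only [this]
  · rintro ⟨a, m⟩ h
    have : a + m - a = m := by omega
    simp only [this]
  · rintro ⟨l, a⟩ h
    rfl

theorem a6_geom (L : ℕ) : ∑ a ∈ Icc 1 L, (1 / 4 : ℝ) ^ a = (1 - (1 / 4) ^ L) / 3 := by
  induction L with
  | zero => simp
  | succ L ih =>
    rw [Finset.sum_Icc_succ_top (by omega), ih, pow_succ]
    ring

/-- First moment. Induction on `t` (generalizing `L`): by `sum_comps_succ` the left side for `t+1` is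
`∑_{a=1}^L 4^{-a} ∑_{l' ≤ L-a} ∑_{e ∈ comps t l'} [2^{-l'} + 3 · 2^{-l'}·(cc e · 2^{-l'})]`
(`cc (a::e)·2^{-a-l'} = 2^{-a}(1 + 3 cc e 2^{-l'})` and `2^{-(a+l')} = 2^{-a} 2^{-l'}`), at most
`∑_{a≥1} 4^{-a} (1 + 3·t/3) ≤ (1/3)(1+t)`. Use `sum_nb_le_one`. -/
theorem cc_moment (t L : ℕ) :
    ∑ l ∈ range (L + 1), ∑ e ∈ comps t l, (1 / 2 : ℝ) ^ l * ((cc e : ℝ) * (1 / 2) ^ l) ≤
      (t : ℝ) / 3 := by
  induction t generalizing L with
  | zero =>
    refine le_of_eq ?_
    rw [Nat.cast_zero, zero_div]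
    refine Finset.sum_eq_zero fun l _ => ?_
    rw [sum_comps_zero]
    simp [cc]
  | succ t ih =>
    have h1 : ∀ l, ∑ e ∈ comps (t + 1) l, (1 / 2 : ℝ) ^ l * ((cc e : ℝ) * (1 / 2) ^ l) =
        ∑ a ∈ Icc 1 l, (fun a m => (1 / 4 : ℝ) ^ a * (nb t m + 3 * ∑ e ∈ comps t m,
          (1 / 2 : ℝ) ^ m * ((cc e : ℝ) * (1 / 2) ^ m))) a (l - a) := by
      intro l
      rw [sum_comps_succ]
      refine Finset.sum_congr rfl fun a ha => ?_
      rw [mem_Icc] at ha
      obtain ⟨m, rfl⟩ : ∃ m, l = a + m := ⟨l - a, by omega⟩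
      rw [Nat.add_sub_cancel_left]
      have h2 : nb t m = ∑ e ∈ comps t m, (1 / 2 : ℝ) ^ m := by
        rw [nb, Finset.sum_const, nsmul_eq_mul, mul_comm]
      dsimp only
      rw [h2, Finset.mul_sum, ← Finset.sum_add_distrib, Finset.mul_sum]
      refine Finset.sum_congr rfl fun e he => ?_
      rw [cc, (mem_comps.1 he).2.1]
      push_cast
      have h3 : (1 / 4 : ℝ) ^ a = (1 / 2) ^ a * (1 / 2) ^ a := by rw [← mul_pow]; norm_num
      have h4 : (2 : ℝ) ^ m * (1 / 2) ^ m = 1 := by rw [← mul_pow]; norm_num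
      rw [h3, pow_add]
      calc (1 / 2 : ℝ) ^ a * (1 / 2) ^ m * ((2 ^ m + 3 * (cc e : ℝ)) * ((1 / 2) ^ a * (1 / 2) ^ m))
          = (1 / 2) ^ a * (1 / 2) ^ a * ((1 / 2) ^ m * (2 ^ m * (1 / 2) ^ m) +
            3 * ((1 / 2) ^ m * ((cc e : ℝ) * (1 / 2) ^ m))) := by ring
        _ = _ := by rw [h4, mul_one]
    rw [Finset.sum_congr rfl fun l _ => h1 l, a6_exch L (fun a m => (1 / 4 : ℝ) ^ a *
      (nb t m + 3 * ∑ e ∈ comps t m, (1 / 2 : ℝ) ^ m * ((cc e : ℝ) * (1 / 2) ^ m)))]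
    calc _ ≤ ∑ a ∈ Icc 1 L, (1 / 4 : ℝ) ^ a * (1 + 3 * ((t : ℝ) / 3)) := by
          refine Finset.sum_le_sum fun a _ => ?_
          rw [← Finset.mul_sum]
          refine mul_le_mul_of_nonneg_left ?_ (by positivity)
          rw [Finset.sum_add_distrib, ← Finset.mul_sum]
          have h5 := sum_nb_le_one t (L - a)
          have h6 := ih (L - a)
          linarith
      _ = (1 - (1 / 4) ^ L) / 3 * (1 + 3 * ((t : ℝ) / 3)) := by rw [← Finset.sum_mul, a6_geom]
      _ ≤ 1 / 3 * (1 + 3 * ((t : ℝ) / 3)) := by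
          refine mul_le_mul_of_nonneg_right ?_ (by positivity)
          have : (0 : ℝ) ≤ (1 / 4) ^ L := by positivity
          linarith
      _ = _ := by push_cast; ring

end Pool.Agent.Lib.MP_d0d59f_nt.AA

end

section

/-! Row pd-P02a. -/

namespace Pool.Agent.Lib.MP_d0d59f_nt.PD

open Finset

theorem vd_nil (x : ℤ) : vd [] x := by
  unfold vd
  simp

theorem nd_nil (x : ℤ) : nd [] x = x := by
  unfold nd
  simp [AA.cc]

/-- `Int.mul_ediv_cancel'`. -/
theorem nd_mul {α : List ℕ} {x : ℤ} (h : vd α x) :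
    3 ^ α.length * nd α x = 2 ^ α.sum * x - (AA.cc α : ℤ) := by
  unfold nd
  exact Int.mul_ediv_cancel' h

theorem p02a_key (α β : List ℕ) (x : ℤ) :
    (2 : ℤ) ^ (α ++ β).sum * x - (AA.cc (α ++ β) : ℤ) =
      2 ^ β.sum * (2 ^ α.sum * x - (AA.cc α : ℤ)) - 3 ^ α.length * (AA.cc β : ℤ) := by
  rw [AA.cc_append, List.sum_append, pow_add]
  push_cast
  ring

/-- `AA.cc_append`: `cc (α ++ β) = 2^{|β|} cc α + 3^n cc β`, so
`2^{|α|+|β|} x - cc (α ++ β) = 2^{|β|} (2^{|α|} x - cc α) - 3^n cc β`; `2^{|β|}` is prime to `3`. -/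
theorem vd_append {α β : List ℕ} {x : ℤ} : vd (α ++ β) x ↔ vd α x ∧ vd β (nd α x) := by
  have key := p02a_key α β x
  have hpos : (3 : ℤ) ^ α.length ≠ 0 := by positivity
  constructor
  · intro h
    unfold vd at h
    rw [key, List.length_append, pow_add] at h
    have h1 : (3 : ℤ) ^ α.length ∣ 2 ^ β.sum * (2 ^ α.sum * x - (AA.cc α : ℤ)) := by
      have h2 := (Dvd.intro _ rfl : (3 : ℤ) ^ α.length ∣ 3 ^ α.length * 3 ^ β.length).trans h
      have h3 := dvd_add h2 (Dvd.intro (AA.cc β : ℤ) rfl)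
      rw [sub_add_cancel] at h3
      exact h3
    have hco : IsCoprime ((3 : ℤ) ^ α.length) (2 ^ β.sum) := by
      apply IsCoprime.pow
      norm_num
    have h4 : (3 : ℤ) ^ α.length ∣ 2 ^ α.sum * x - (AA.cc α : ℤ) := hco.dvd_of_dvd_mul_left h1
    refine ⟨h4, ?_⟩
    have h5 := nd_mul (α := α) (x := x) h4
    rw [← h5, show (2 : ℤ) ^ β.sum * (3 ^ α.length * nd α x) - 3 ^ α.length * (AA.cc β : ℤ) =
      3 ^ α.length * (2 ^ β.sum * nd α x - (AA.cc β : ℤ)) by ring] at h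
    exact (mul_dvd_mul_iff_left hpos).1 h
  · rintro ⟨h1, h2⟩
    unfold vd
    rw [key, List.length_append, pow_add]
    have h5 := nd_mul (α := α) (x := x) h1
    rw [← h5, show (2 : ℤ) ^ β.sum * (3 ^ α.length * nd α x) - 3 ^ α.length * (AA.cc β : ℤ) =
      3 ^ α.length * (2 ^ β.sum * nd α x - (AA.cc β : ℤ)) by ring]
    exact mul_dvd_mul_left _ h2

/-- The same identity, `Int.mul_ediv_mul_of_pos`. -/
theorem nd_append {α β : List ℕ} {x : ℤ} (h : vd α x) : nd (α ++ β) x = nd β (nd α x) := by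
  have key := p02a_key α β x
  have h5 := nd_mul (α := α) (x := x) h
  rw [nd, key, List.length_append, pow_add, ← h5,
    show (2 : ℤ) ^ β.sum * (3 ^ α.length * nd α x) - 3 ^ α.length * (AA.cc β : ℤ) =
      3 ^ α.length * (2 ^ β.sum * nd α x - (AA.cc β : ℤ)) by ring,
    Int.mul_ediv_mul_of_pos _ _ (by positivity)]
  rfl

theorem wt_append (α β : List ℕ) : wt (α ++ β) = wt α * wt β := by
  unfold wt
  rw [List.length_append, List.sum_append, pow_add, pow_add, div_mul_div_comm]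

theorem wt_pos (α : List ℕ) : 0 < wt α := by
  unfold wt
  positivity

theorem vd_one (a : ℕ) (x : ℤ) : vd [a] x ↔ (3 : ℤ) ∣ 2 ^ a * x - 1 := by
  unfold vd
  simp [AA.cc]

end Pool.Agent.Lib.MP_d0d59f_nt.PD

end
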