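import Pool.Agent.Lib.MP_d0d59f_nt.PZ.K004
import Pool.Agent.Lib.MP_d0d59f_nt.PZ.K008
import Pool.Agent.Lib.MP_d0d59f_nt.PZ.K009

section

/-! Row px-X02: cosines along skeletons. -/

namespace Pool.Agent.Lib.MP_d0d59f_nt.PX

open Finset
open Pool.Agent.Lib.MP_b27257_nt.BT (st ee)

theorem cosP_nonneg (P v : ℤ) (r i : ℕ) (l : List ℕ) : 0 ≤ cosP P v r i l := by
  induction l generalizing r i with
  | nil => simp [cosP]
  | cons c cs ih =>
    rw [cosP]
    refine mul_nonneg ?_ (ih _ _)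
    split_ifs
    · exact abs_nonneg _
    · exact zero_le_one

theorem cosP_le_one (P v : ℤ) (r i : ℕ) (l : List ℕ) : cosP P v r i l ≤ 1 := by
  induction l generalizing r i with
  | nil => simp [cosP]
  | cons c cs ih =>
    rw [cosP]
    refine mul_le_one₀ ?_ (cosP_nonneg _ _ _ _ _) (ih _ _)
    split_ifs
    · exact Real.abs_cos_le_one _
    · exact le_refl _

theorem cosP_append (P v : ℤ) (r i : ℕ) (l l' : List ℕ) :
    cosP P v r i (l ++ l') = cosP P v r i l * cosP P v (r - 2 * l.length) (i + l.sum) l' := by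
  induction l generalizing r i with
  | nil => simp [cosP]
  | cons c cs ih =>
    have e1 : r - 2 * (c :: cs).length = r - 2 - 2 * cs.length := by
      rw [List.length_cons]
      omega
    have e2 : i + (c :: cs).sum = i + c + cs.sum := by
      rw [List.sum_cons]
      omega
    rw [List.cons_append, cosP, cosP, ih, e1, e2, mul_assoc]

end Pool.Agent.Lib.MP_d0d59f_nt.PX

end

section

/-! Row px-X12: weights of the atypical skeletons. -/

namespace Pool.Agent.Lib.MP_d0d59f_nt.PX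

open Finset
open Pool.Agent.Lib.MP_b27257_nt.BT (st ee)

theorem x12_wl_cons (lam : ℝ) (c : ℕ) (l : List ℕ) : wl lam (c :: l) = om lam c * wl lam l := by
  simp [wl]

theorem x12_om0 (lam : ℝ) : om lam 0 = 1 := by simp [om]

theorem x12_om1 (lam : ℝ) : om lam 1 = 2 * lam := by simp [om]

theorem x12_om2 (lam : ℝ) : om lam 2 = lam ^ 2 := by simp [om]

/-- The lists without `1` have total weight `(1 + lam²)^n`. -/
theorem x12_no_one (lam : ℝ) (n : ℕ) :
    ∑ l ∈ Sk n, (if 1 ∈ l then 0 else wl lam l) = (1 + lam ^ 2) ^ n := by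
  induction n with
  | zero => simp [Sk, wl]
  | succ n ih =>
    rw [sum_Sk_succ]
    have h0 : ∀ l : List ℕ, (if (1 : ℕ) ∈ (0 :: l) then (0 : ℝ) else wl lam (0 :: l)) =
        (if 1 ∈ l then 0 else wl lam l) := by
      intro l
      rw [x12_wl_cons, x12_om0]
      simp
    have h1 : ∀ l : List ℕ, (if (1 : ℕ) ∈ (1 :: l) then (0 : ℝ) else wl lam (1 :: l)) = 0 := by
      intro l
      simp
    have h2 : ∀ l : List ℕ, (if (1 : ℕ) ∈ (2 :: l) then (0 : ℝ) else wl lam (2 :: l)) =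
        lam ^ 2 * (if 1 ∈ l then 0 else wl lam l) := by
      intro l
      rw [x12_wl_cons, x12_om2]
      by_cases h : 1 ∈ l
      · simp [h]
      · simp [h]
    simp_rw [h0, h1, h2]
    rw [← Finset.mul_sum, ih]
    simp
    ring

theorem x12_cell_zero {G : ℕ} {c l : List ℕ} (hc : c.length = G) : cell G (c ++ l) 0 = c := by
  simp [cell, ← hc]

theorem x12_cell_succ {G : ℕ} {c l : List ℕ} (hc : c.length = G) (s : ℕ) :
    cell G (c ++ l) (s + 1) = cell G l s := by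
  unfold cell
  have h : (s + 1) * G = c.length + s * G := by rw [hc]; ring
  rw [h, List.drop_append, Nat.add_sub_cancel_left, List.drop_of_length_le (Nat.le_add_right _ _),
    List.nil_append]

theorem x12_nbad_succ {G : ℕ} {c l : List ℕ} (hc : c.length = G) (R : ℕ) :
    nbad G (R + 1) (c ++ l) = (if 1 ∈ c then 0 else 1) + nbad G R l := by
  unfold nbad
  rw [Finset.card_filter, Finset.card_filter, Finset.sum_range_succ']
  simp_rw [x12_cell_succ hc, x12_cell_zero hc]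
  by_cases h : 1 ∈ c
  · simp [h]
  · simp [h, add_comm]

theorem x12_induct {lam : ℝ} (hlam : 0 < lam) {G : ℕ} {Y : ℝ} (hY : 0 ≤ Y) (R : ℕ) :
    ∑ l ∈ Sk (R * G), wl lam l * Y ^ nbad G R l ≤
      ((1 + lam) ^ (2 * G) + Y * (1 + lam ^ 2) ^ G) ^ R := by
  induction R with
  | zero => simp [Sk, wl, nbad]
  | succ R ih =>
    have hG : (R + 1) * G = G + R * G := by ring
    rw [hG, sum_Sk_add]
    have h1 : ∀ c ∈ Sk G, ∑ l' ∈ Sk (R * G), wl lam (c ++ l') * Y ^ nbad G (R + 1) (c ++ l') ≤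
        (wl lam c + Y * (if 1 ∈ c then 0 else wl lam c)) *
          ∑ l' ∈ Sk (R * G), wl lam l' * Y ^ nbad G R l' := by
      intro c hc
      rw [Finset.mul_sum]
      apply Finset.sum_le_sum
      intro l' _
      have hlen : c.length = G := (mem_Sk.1 hc).1
      rw [wl_append, x12_nbad_succ hlen, pow_add]
      have hw : 0 ≤ wl lam c := wl_nonneg hlam.le c
      have hw' : 0 ≤ wl lam l' * Y ^ nbad G R l' :=
        mul_nonneg (wl_nonneg hlam.le l') (pow_nonneg hY _)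
      by_cases h : 1 ∈ c
      · simp only [h, if_true, pow_zero, mul_zero, add_zero, one_mul]
        apply le_of_eq
        ring
      · simp only [h, if_false, pow_one]
        nlinarith [mul_nonneg hw hw']
    refine (Finset.sum_le_sum h1).trans ?_
    rw [← Finset.sum_mul, Finset.sum_add_distrib, ← Finset.mul_sum, x12_no_one, sum_wl, pow_succ,
      mul_comm]
    apply mul_le_mul_of_nonneg_right ih
    positivity

/-- For `Y ≥ 1`: `∑_{l ∈ Sk (R G)} wl l Y^(nbad G R l) ≤ ((1+lam)^(2G) + Y (1+lam²)^G)^R` (induction on `R`, cell by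
cell: `sum_Sk_add`; the lists without `1` have weight `(1+lam²)^G`). Take `Y = ((1+lam)²/(1+lam²))^G ≥ 1`. -/
theorem bad_weight {lam : ℝ} (hlam : 0 < lam) {G : ℕ} (hG : 1 ≤ G) (R K : ℕ) :
    ∑ l ∈ Sk (R * G), (if K < nbad G R l then wl lam l else 0) ≤
      (1 + lam) ^ (2 * (R * G)) * (2 ^ R * ((1 + lam ^ 2) / (1 + lam) ^ 2) ^ (G * (K + 1))) := by
  have hU : 0 < 1 + lam ^ 2 := by positivity
  have hW : 0 < (1 + lam) ^ 2 := by positivity
  have hYge : 1 ≤ (1 + lam) ^ 2 / (1 + lam ^ 2) := by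
    rw [one_le_div hU]
    nlinarith
  obtain ⟨Y, hY⟩ : ∃ Y : ℝ, Y = ((1 + lam) ^ 2 / (1 + lam ^ 2)) ^ G := ⟨_, rfl⟩
  have hY1 : 1 ≤ Y := by rw [hY]; exact one_le_pow₀ hYge
  have hY0 : 0 < Y := by linarith
  have hYU : Y * (1 + lam ^ 2) ^ G = (1 + lam) ^ (2 * G) := by
    rw [hY, ← mul_pow, div_mul_cancel₀ _ hU.ne', pow_mul]
  have hYinv : ((1 + lam ^ 2) / (1 + lam) ^ 2) ^ (G * (K + 1)) = (Y ^ (K + 1))⁻¹ := by
    rw [hY, ← pow_mul, ← inv_pow, inv_div]
  have h1 : ∀ l ∈ Sk (R * G), (if K < nbad G R l then wl lam l else 0) ≤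
      (Y ^ (K + 1))⁻¹ * (wl lam l * Y ^ nbad G R l) := by
    intro l _
    have hw : 0 ≤ wl lam l := wl_nonneg hlam.le l
    split_ifs with h
    · have hp : Y ^ (K + 1) ≤ Y ^ nbad G R l := pow_le_pow_right₀ hY1 h
      have hpos : 0 < Y ^ (K + 1) := pow_pos hY0 _
      rw [inv_mul_eq_div, le_div_iff₀ hpos]
      exact mul_le_mul_of_nonneg_left hp hw
    · positivity
  refine (Finset.sum_le_sum h1).trans ?_
  rw [← Finset.mul_sum]
  have h2 := x12_induct hlam (G := G) hY0.le R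
  rw [hYU] at h2
  rw [hYinv]
  calc (Y ^ (K + 1))⁻¹ * ∑ l ∈ Sk (R * G), wl lam l * Y ^ nbad G R l
      ≤ (Y ^ (K + 1))⁻¹ * ((1 + lam) ^ (2 * G) + (1 + lam) ^ (2 * G)) ^ R :=
        mul_le_mul_of_nonneg_left h2 (by positivity)
    _ = (1 + lam) ^ (2 * (R * G)) * (2 ^ R * (Y ^ (K + 1))⁻¹) := by
        rw [← two_mul, mul_pow, ← pow_mul]
        have : 2 * G * R = 2 * (R * G) := by ring
        rw [this]
        ring

theorem x12_half (lam : ℝ) (n : ℕ) :
    ∑ l ∈ Sk n, wl lam l * (1 / 2 : ℝ) ^ l.sum = (1 + lam / 2) ^ (2 * n) := by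
  induction n with
  | zero => simp [Sk, wl]
  | succ n ih =>
    rw [sum_Sk_succ]
    simp_rw [x12_wl_cons, x12_om0, x12_om1, x12_om2, List.sum_cons, pow_add]
    have h0 : ∀ l : List ℕ, 1 * wl lam l * ((1 / 2 : ℝ) ^ 0 * (1 / 2 : ℝ) ^ l.sum) =
        wl lam l * (1 / 2 : ℝ) ^ l.sum := by intro l; ring
    have h1 : ∀ l : List ℕ, 2 * lam * wl lam l * ((1 / 2 : ℝ) ^ 1 * (1 / 2 : ℝ) ^ l.sum) =
        lam * (wl lam l * (1 / 2 : ℝ) ^ l.sum) := by intro l; ring
    have h2 : ∀ l : List ℕ, lam ^ 2 * wl lam l * ((1 / 2 : ℝ) ^ 2 * (1 / 2 : ℝ) ^ l.sum) =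
        lam ^ 2 / 4 * (wl lam l * (1 / 2 : ℝ) ^ l.sum) := by intro l; ring
    simp_rw [h0, h1, h2]
    rw [← Finset.mul_sum, ← Finset.mul_sum, ih]
    ring

/-- `[l.sum < i0] ≤ 2^(i0 - l.sum)`, `∑ wl l 2^(-l.sum) = (1 + lam + lam²/4)^n = (1 + lam/2)^(2n)`. -/
theorem early_weight {lam : ℝ} (hlam : 0 < lam) (n i0 : ℕ) :
    ∑ l ∈ Sk n, (if l.sum < i0 then wl lam l else 0) ≤ 2 ^ i0 * (1 + lam / 2) ^ (2 * n) := by
  rw [← x12_half, Finset.mul_sum]
  apply Finset.sum_le_sum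
  intro l _
  have hw : 0 ≤ wl lam l := wl_nonneg hlam.le l
  split_ifs with h
  · have h1 : (1 : ℝ) ≤ 2 ^ i0 * (1 / 2 : ℝ) ^ l.sum := by
      rw [one_div, inv_pow, ← div_eq_mul_inv, one_le_div (by positivity)]
      exact pow_le_pow_right₀ (by norm_num) h.le
    calc wl lam l = wl lam l * 1 := by ring
      _ ≤ wl lam l * (2 ^ i0 * (1 / 2 : ℝ) ^ l.sum) := mul_le_mul_of_nonneg_left h1 hw
      _ = 2 ^ i0 * (wl lam l * (1 / 2 : ℝ) ^ l.sum) := by ring
  · positivity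

end Pool.Agent.Lib.MP_d0d59f_nt.PX

end

section

/-! Row px-X13: iteration over the segments. -/

namespace Pool.Agent.Lib.MP_d0d59f_nt.PX

open Finset
open Pool.Agent.Lib.MP_b27257_nt.BT (st ee)

theorem x13_sum_le (l : List ℕ) (h : ∀ c ∈ l, c < 3) : l.sum ≤ 2 * l.length := by
  induction l with
  | nil => simp
  | cons a t ih =>
    have h1 : a < 3 := h a (by simp)
    have h2 := ih (fun c hc => h c (by simp [hc]))
    simp only [List.sum_cons, List.length_cons]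
    omega

open Classical in
/-- one list `l1` with few bad cells -/
theorem x13_good {P : ℤ} {r i r' i' : ℕ} {B τ : ℝ} (hτ : 0 ≤ τ) (V : Finset ℤ) (l1 l2 : List ℕ)
    (hB : ((V.filter fun v => τ < cosP P v r i l1).card : ℝ) ≤ B) :
    ∑ v ∈ V, cosP P v r i l1 * cosP P v r' i' l2 ≤ B + τ * ∑ v ∈ V, cosP P v r' i' l2 := by
  have h : ∀ v ∈ V, cosP P v r i l1 * cosP P v r' i' l2 ≤
      (if τ < cosP P v r i l1 then (1 : ℝ) else 0) + τ * cosP P v r' i' l2 := by
    intro v _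
    have h1 := cosP_nonneg P v r i l1
    have h2 := cosP_nonneg P v r' i' l2
    have h3 := cosP_le_one P v r i l1
    have h4 := cosP_le_one P v r' i' l2
    split_ifs with hc
    · have : cosP P v r i l1 * cosP P v r' i' l2 ≤ 1 := mul_le_one₀ h3 h2 h4
      have : 0 ≤ τ * cosP P v r' i' l2 := mul_nonneg hτ h2
      linarith
    · have : cosP P v r i l1 * cosP P v r' i' l2 ≤ τ * cosP P v r' i' l2 :=
        mul_le_mul_of_nonneg_right (not_lt.mp hc) h2
      linarith only [this]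
  calc ∑ v ∈ V, cosP P v r i l1 * cosP P v r' i' l2
      ≤ ∑ v ∈ V, ((if τ < cosP P v r i l1 then (1 : ℝ) else 0) + τ * cosP P v r' i' l2) :=
        Finset.sum_le_sum h
    _ = ((V.filter fun v => τ < cosP P v r i l1).card : ℝ) + τ * ∑ v ∈ V, cosP P v r' i' l2 := by
        rw [Finset.sum_add_distrib, ← Finset.mul_sum, Finset.sum_ite, Finset.sum_const_zero, add_zero,
          Finset.sum_const, nsmul_eq_mul, mul_one]
    _ ≤ B + τ * ∑ v ∈ V, cosP P v r' i' l2 := by linarith only [hB]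

theorem x13_any {P : ℤ} {r i r' i' : ℕ} (V : Finset ℤ) (l1 l2 : List ℕ) :
    ∑ v ∈ V, cosP P v r i l1 * cosP P v r' i' l2 ≤ ∑ v ∈ V, cosP P v r' i' l2 := by
  refine Finset.sum_le_sum fun v _ => ?_
  have h2 := cosP_nonneg P v r' i' l2
  have h3 := cosP_le_one P v r i l1
  nlinarith only [h2, h3]

open Classical in
/-- Induction on `J`: `Sk ((J+1) (R G)) ∋ l1 ++ l2`, `l1 ∈ Sk (R G)` (`sum_Sk_add`, `cosP_append`). If
`nbad G R l1 ≤ K`: `∑_v cosP l1 cosP l2 ≤ #{v : τ < cosP l1} + τ ∑_v cosP l2 ≤ B + τ ∑_v cosP l2`; otherwise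
`∑_v cosP l1 cosP l2 ≤ ∑_v cosP l2`. Sum with the weights (`sum_wl`, `hbad`), `τ + π ≤ 1`. -/
theorem iter_sum {lam : ℝ} (hlam : 0 < lam) {P : ℤ} {m G R K i0 : ℕ} {B τ π : ℝ} (hB : 0 ≤ B) (hτ : 0 ≤ τ)
    (hπ : 0 ≤ π) (hτπ : τ + π ≤ 1) (V : Finset ℤ)
    (hseg : ∀ r i : ℕ, ∀ l ∈ Sk (R * G), i0 ≤ i → i + r ≤ m → 2 * (R * G) ≤ r → nbad G R l ≤ K →
      ((V.filter fun v => τ < cosP P v r i l).card : ℝ) ≤ B)
    (hbad : ∑ l ∈ Sk (R * G), (if K < nbad G R l then wl lam l else 0) ≤ (1 + lam) ^ (2 * (R * G)) * π) :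
    ∀ J r i : ℕ, i0 ≤ i → i + r ≤ m → 2 * (J * (R * G)) ≤ r →
      ∑ l ∈ Sk (J * (R * G)), wl lam l * ∑ v ∈ V, cosP P v r i l ≤
        (1 + lam) ^ (2 * (J * (R * G))) * (J * B + (τ + π) ^ J * V.card) := by
  intro J
  induction J with
  | zero =>
    intro r i _ _ _
    simp [Sk, wl, cosP]
  | succ J ih =>
    intro r i hi him hr
    have hJ : (J + 1) * (R * G) = R * G + J * (R * G) := by ring
    rw [hJ] at hr ⊢
    set n := R * G with hn
    set W : ℝ := (1 + lam) ^ (2 * (J * n)) with hW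
    set X : ℝ := J * B + (τ + π) ^ J * V.card with hX
    have hW0 : 0 ≤ W := by positivity
    have hX0 : 0 ≤ X := by positivity
    rw [sum_Sk_add]
    -- bound for one l1
    have hl1 : ∀ l1 ∈ Sk n,
        ∑ l2 ∈ Sk (J * n), wl lam (l1 ++ l2) * ∑ v ∈ V, cosP P v r i (l1 ++ l2) ≤
          wl lam l1 * (W * B + τ * (W * X)) + (if K < nbad G R l1 then wl lam l1 else 0) * (W * X) := by
      intro l1 hl1
      obtain ⟨hlen, hlt⟩ := mem_Sk.mp hl1
      have hsum : l1.sum ≤ 2 * n := by rw [← hlen]; exact x13_sum_le l1 hlt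
      have hrec := ih (r - 2 * n) (i + l1.sum) (by omega) (by omega) (by omega)
      have hw1 : 0 ≤ wl lam l1 := wl_nonneg hlam.le l1
      have hexp : ∑ l2 ∈ Sk (J * n), wl lam (l1 ++ l2) * ∑ v ∈ V, cosP P v r i (l1 ++ l2) =
          wl lam l1 * ∑ l2 ∈ Sk (J * n), wl lam l2 *
            ∑ v ∈ V, cosP P v r i l1 * cosP P v (r - 2 * n) (i + l1.sum) l2 := by
        rw [Finset.mul_sum]
        refine Finset.sum_congr rfl fun l2 _ => ?_
        rw [wl_append, mul_assoc]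
        congr 2
        refine Finset.sum_congr rfl fun v _ => ?_
        rw [cosP_append, hlen]
      rw [hexp]
      by_cases hb : K < nbad G R l1
      · rw [if_pos hb]
        have h1 : ∑ l2 ∈ Sk (J * n), wl lam l2 *
            ∑ v ∈ V, cosP P v r i l1 * cosP P v (r - 2 * n) (i + l1.sum) l2 ≤ W * X := by
          refine le_trans (Finset.sum_le_sum fun l2 _ => ?_) hrec
          exact mul_le_mul_of_nonneg_left (x13_any V l1 l2) (wl_nonneg hlam.le l2)
        have h2 : 0 ≤ wl lam l1 * (W * B + τ * (W * X)) := by positivity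
        have h3 := mul_le_mul_of_nonneg_left h1 hw1
        linarith only [h2, h3]
      · rw [if_neg hb, zero_mul, add_zero]
        have hc := hseg r i l1 hl1 hi him (by omega) (not_lt.mp hb)
        have h1 : ∑ l2 ∈ Sk (J * n), wl lam l2 *
            ∑ v ∈ V, cosP P v r i l1 * cosP P v (r - 2 * n) (i + l1.sum) l2 ≤ W * B + τ * (W * X) := by
          calc ∑ l2 ∈ Sk (J * n), wl lam l2 *
                ∑ v ∈ V, cosP P v r i l1 * cosP P v (r - 2 * n) (i + l1.sum) l2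
              ≤ ∑ l2 ∈ Sk (J * n), wl lam l2 *
                  (B + τ * ∑ v ∈ V, cosP P v (r - 2 * n) (i + l1.sum) l2) := by
                refine Finset.sum_le_sum fun l2 _ => ?_
                exact mul_le_mul_of_nonneg_left (x13_good hτ V l1 l2 hc) (wl_nonneg hlam.le l2)
            _ = (∑ l2 ∈ Sk (J * n), wl lam l2) * B + τ * ∑ l2 ∈ Sk (J * n), wl lam l2 *
                  ∑ v ∈ V, cosP P v (r - 2 * n) (i + l1.sum) l2 := by
                rw [Finset.sum_mul, Finset.mul_sum, ← Finset.sum_add_distrib]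
                refine Finset.sum_congr rfl fun l2 _ => ?_
                ring
            _ ≤ W * B + τ * (W * X) := by
                rw [sum_wl]
                have := mul_le_mul_of_nonneg_left hrec hτ
                linarith only [this]
        exact mul_le_mul_of_nonneg_left h1 hw1
    refine le_trans (Finset.sum_le_sum hl1) ?_
    rw [Finset.sum_add_distrib, ← Finset.sum_mul, ← Finset.sum_mul, sum_wl]
    have hbad' := mul_le_mul_of_nonneg_right hbad (mul_nonneg hW0 hX0)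
    have hpow : (1 + lam) ^ (2 * (n + J * n)) = (1 + lam) ^ (2 * n) * W := by
      rw [hW, ← pow_add]; congr 1; ring
    rw [hpow]
    set U : ℝ := (1 + lam) ^ (2 * n) with hU
    have hU0 : 0 ≤ U := by positivity
    have hfin : B + (τ + π) * X ≤ ((J + 1 : ℕ) : ℝ) * B + (τ + π) ^ (J + 1) * V.card := by
      have h1 : (τ + π) * (J * B) ≤ 1 * (J * B) :=
        mul_le_mul_of_nonneg_right hτπ (by positivity)
      rw [hX, pow_succ]
      push_cast
      nlinarith only [h1]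
    have hfin' := mul_le_mul_of_nonneg_left hfin (mul_nonneg hU0 hW0)
    calc U * (W * B + τ * (W * X)) +
          (∑ l ∈ Sk n, if K < nbad G R l then wl lam l else 0) * (W * X)
        ≤ U * (W * B + τ * (W * X)) + U * π * (W * X) := by linarith only [hbad']
      _ = U * W * (B + (τ + π) * X) := by ring
      _ ≤ U * W * (((J + 1 : ℕ) : ℝ) * B + (τ + π) ^ (J + 1) * V.card) := hfin'

end Pool.Agent.Lib.MP_d0d59f_nt.PX

end

section

/-! Row pd-P09a. -/

namespace Pool.Agent.Lib.MP_d0d59f_nt.PD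

open Finset

private theorem p09a_mem {m l : ℕ} {β : List ℕ} (h : β ∈ AA.comps m l) :
    β.length = m ∧ β.sum = l := by
  have := AA.mem_comps.1 h
  exact ⟨this.1, by tauto⟩

open Classical in
/-- `2^{|β|} z ≡ cc β` modulo `3^m` says `hz 1 r m β = z` for any `r` (`AA.hz_eq_iff`, `3^m r ≡ 0`). -/
theorem sum_comps_vd (m l r : ℕ) (z : ℤ) :
    ∑ β ∈ AA.comps m l, (if vd β z then wt β else 0) =
      3 ^ m * AA.pz 1 (r : ℤ) m m l (z : ZMod (3 ^ m)) := by
  have h1 : ∑ β ∈ AA.comps m l, (if vd β z then wt β else 0) =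
      ∑ β ∈ AA.comps m l, (if AA.hz 1 (r : ℤ) m β = (z : ZMod (3 ^ m)) then
        (3 ^ m * (1 / 2) ^ l : ℝ) else 0) := by
    refine Finset.sum_congr rfl fun β hβ => ?_
    obtain ⟨hlen, hsum⟩ := p09a_mem hβ
    have hw : wt β = 3 ^ m * (1 / 2) ^ l := by
      rw [wt, hlen, hsum, one_div, inv_pow]
      rfl
    have hiff : vd β z ↔ AA.hz 1 (r : ℤ) m β = (z : ZMod (3 ^ m)) := by
      rw [AA.hz_eq_iff, vd, hlen, hsum, one_mul, Int.modEq_comm, Int.modEq_iff_dvd]
      have e : (2 : ℤ) ^ l * z - (3 ^ m * (r : ℤ) + (AA.cc β : ℤ)) =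
          (2 ^ l * z - (AA.cc β : ℤ)) - 3 ^ m * (r : ℤ) := by ring
      rw [e]
      constructor
      · intro h
        exact dvd_sub h (Dvd.intro _ rfl)
      · intro h
        have := dvd_add h (Dvd.intro (r : ℤ) rfl : (3 : ℤ) ^ m ∣ 3 ^ m * (r : ℤ))
        rwa [sub_add_cancel] at this
    rw [hw]
    by_cases hv : vd β z
    · rw [if_pos hv, if_pos (hiff.1 hv)]
    · rw [if_neg hv, if_neg (fun h => hv (hiff.2 h))]
  rw [h1, AA.pz, ← Finset.sum_filter, Finset.sum_const, nsmul_eq_mul]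
  ring

open Classical in
/-- `vd β z ∧ nd β z ≡ r mod 3` iff `2^{|β|} z - cc β ≡ 3^m r` modulo `3^(m+1)` iff `hz 1 r (m+1) β = z`
(`AA.hz_eq_iff`). -/
theorem sum_comps_vd_class (m l r : ℕ) (z : ℤ) :
    ∑ β ∈ AA.comps m l, (if vd β z ∧ nd β z ≡ r [ZMOD 3] then wt β else 0) =
      3 ^ m * AA.pz 1 (r : ℤ) (m + 1) m l (z : ZMod (3 ^ (m + 1))) := by
  have h1 : ∑ β ∈ AA.comps m l, (if vd β z ∧ nd β z ≡ r [ZMOD 3] then wt β else 0) =
      ∑ β ∈ AA.comps m l, (if AA.hz 1 (r : ℤ) (m + 1) β = (z : ZMod (3 ^ (m + 1))) then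
        (3 ^ m * (1 / 2) ^ l : ℝ) else 0) := by
    refine Finset.sum_congr rfl fun β hβ => ?_
    obtain ⟨hlen, hsum⟩ := p09a_mem hβ
    have hw : wt β = 3 ^ m * (1 / 2) ^ l := by
      rw [wt, hlen, hsum, one_div, inv_pow]
      rfl
    have hiff : (vd β z ∧ nd β z ≡ r [ZMOD 3]) ↔
        AA.hz 1 (r : ℤ) (m + 1) β = (z : ZMod (3 ^ (m + 1))) := by
      have h30 : (3 : ℤ) ^ m ≠ 0 := pow_ne_zero _ (by norm_num)
      have e : (2 : ℤ) ^ l * z - (3 ^ m * (r : ℤ) + (AA.cc β : ℤ)) =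
          (2 ^ l * z - (AA.cc β : ℤ)) - 3 ^ m * (r : ℤ) := by ring
      have e2 : (2 ^ l * z ≡ 3 ^ m * (r : ℤ) + (AA.cc β : ℤ) [ZMOD 3 ^ (m + 1)]) ↔
          (3 : ℤ) ^ (m + 1) ∣ (2 ^ l * z - (AA.cc β : ℤ)) - 3 ^ m * (r : ℤ) := by
        rw [Int.modEq_comm, Int.modEq_iff_dvd, e]
      rw [AA.hz_eq_iff, vd, nd, hlen, hsum, one_mul, e2]
      constructor
      · rintro ⟨⟨q, hq⟩, h⟩
        rw [hq, Int.mul_ediv_cancel_left _ h30] at h
        rw [hq, ← mul_sub, pow_succ]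
        exact mul_dvd_mul_left _ ((Int.modEq_iff_dvd.1 h.symm))
      · intro h
        have hd : (3 : ℤ) ^ m ∣ 2 ^ l * z - (AA.cc β : ℤ) := by
          have h' : (3 : ℤ) ^ m ∣ (2 ^ l * z - (AA.cc β : ℤ)) - 3 ^ m * (r : ℤ) :=
            (Dvd.intro _ (pow_succ (3 : ℤ) m).symm).trans h
          have := dvd_add h' (Dvd.intro (r : ℤ) rfl : (3 : ℤ) ^ m ∣ 3 ^ m * (r : ℤ))
          rwa [sub_add_cancel] at this
        refine ⟨hd, ?_⟩
        obtain ⟨q, hq⟩ := hd
        rw [hq, Int.mul_ediv_cancel_left _ h30]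
        rw [hq, ← mul_sub, pow_succ] at h
        exact (Int.modEq_iff_dvd.2 ((mul_dvd_mul_iff_left h30).1 h)).symm
    rw [hw]
    by_cases hv : vd β z ∧ nd β z ≡ r [ZMOD 3]
    · rw [if_pos hv, if_pos (hiff.1 hv)]
    · rw [if_neg hv, if_neg (fun h => hv (hiff.2 h))]
  rw [h1, AA.pz, ← Finset.sum_filter, Finset.sum_const, nsmul_eq_mul]
  ring

end Pool.Agent.Lib.MP_d0d59f_nt.PD

end
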