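import Mathlib

section

/-! Row pw-Q10a: elementary bounds. -/

namespace Pool.Agent.Lib.MP_d0d59f_nt.PW

open Finset

/-- `(k + 1)^j r^k` is bounded for `0 ≤ r < 1`. -/
theorem q10a_bdd (j : ℕ) (r : ℝ) (hr0 : 0 ≤ r) (hr : r < 1) :
    ∃ K : ℝ, 0 ≤ K ∧ ∀ k : ℕ, ((k : ℝ) + 1) ^ j * r ^ k ≤ K := by
  set t : ℝ := max r (1 / 2) with ht
  have ht0 : 0 < t := lt_of_lt_of_le (by norm_num) (le_max_right _ _)
  have ht1 : t < 1 := max_lt hr (by norm_num)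
  have hlim : Filter.Tendsto (fun n : ℕ => (n : ℝ) ^ j * t ^ n) Filter.atTop (nhds 0) :=
    tendsto_pow_const_mul_const_pow_of_abs_lt_one j (by rw [abs_of_pos ht0]; exact ht1)
  obtain ⟨B, hB⟩ := hlim.bddAbove_range
  have hB' : ∀ n : ℕ, (n : ℝ) ^ j * t ^ n ≤ B := fun n => hB ⟨n, rfl⟩
  refine ⟨max B 0 / t, by positivity, fun k => ?_⟩
  rw [le_div_iff₀ ht0]
  have h1 : r ^ k ≤ t ^ k := pow_le_pow_left₀ hr0 (le_max_left _ _) k
  have h2 := hB' (k + 1)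
  push_cast at h2
  calc ((k : ℝ) + 1) ^ j * r ^ k * t ≤ ((k : ℝ) + 1) ^ j * t ^ k * t := by gcongr
    _ = ((k : ℝ) + 1) ^ j * t ^ (k + 1) := by ring
    _ ≤ B := h2
    _ ≤ max B 0 := le_max_left _ _

theorem q10a_div (N : ℕ) (hN : 21 ≤ N) (n : ℕ) :
    (n : ℝ) + 1 ≤ 10 * N * (((n / (10 * N) : ℕ) : ℝ) + 1) := by
  have h1 : n < 10 * N * (n / (10 * N) + 1) := by
    have h := Nat.div_add_mod n (10 * N)
    have h2 := Nat.mod_lt n (show 10 * N > 0 by omega)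
    rw [Nat.mul_add]
    omega
  have h3 : n + 1 ≤ 10 * N * (n / (10 * N) + 1) := h1
  exact_mod_cast h3

/-- `m = n/(10 N)`: `10 N (m + 1) ≥ n + 1`, so `(m+1)^5 ≥ (n+1)^5/(10 N)^5`, and `10 m + 1 ≤ n + 1`. -/
theorem poly_bound (N : ℕ) (hN : 21 ≤ N) (C : ℝ) (hC : 0 ≤ C) : ∃ K : ℝ, 0 ≤ K ∧ ∀ n : ℕ,
    11 * ((N : ℝ) + 2) * ((n : ℝ) + 1) *
      (C * ((10 * (n / (10 * N)) : ℕ) + 1) / (((n / (10 * N) : ℕ) : ℝ) + 1) ^ 5) ≤
      K / ((n : ℝ) + 1) ^ 2 := by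
  refine ⟨11 * ((N : ℝ) + 2) * C * (10 * N) ^ 5, by positivity, fun n => ?_⟩
  have hn := q10a_div N hN n
  set m : ℕ := n / (10 * N) with hm
  have hn1 : (0 : ℝ) < (n : ℝ) + 1 := by positivity
  have hm1 : (0 : ℝ) < (m : ℝ) + 1 := by positivity
  have h10 : ((10 * m : ℕ) : ℝ) + 1 ≤ (n : ℝ) + 1 := by
    have h1 : 10 * N * m ≤ n := Nat.mul_div_le n (10 * N)
    have h2 : 10 * m ≤ 10 * N * m := by
      have : 10 ≤ 10 * N := by omega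
      exact Nat.mul_le_mul_right m this
    have h3 : 10 * m ≤ n := le_trans h2 h1
    have h4 : ((10 * m : ℕ) : ℝ) ≤ (n : ℝ) := by exact_mod_cast h3
    linarith
  have h5 : ((n : ℝ) + 1) ^ 5 ≤ (10 * N) ^ 5 * ((m : ℝ) + 1) ^ 5 := by
    rw [← mul_pow]
    exact pow_le_pow_left₀ hn1.le hn 5
  have h6 : (((10 * m : ℕ) : ℝ) + 1) / ((m : ℝ) + 1) ^ 5 ≤ (10 * N) ^ 5 / ((n : ℝ) + 1) ^ 4 := by
    rw [div_le_div_iff₀ (by positivity) (by positivity)]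
    calc (((10 * m : ℕ) : ℝ) + 1) * ((n : ℝ) + 1) ^ 4
        ≤ ((n : ℝ) + 1) * ((n : ℝ) + 1) ^ 4 := by gcongr
      _ = ((n : ℝ) + 1) ^ 5 := by ring
      _ ≤ _ := h5
  calc 11 * ((N : ℝ) + 2) * ((n : ℝ) + 1) * (C * (((10 * m : ℕ) : ℝ) + 1) / ((m : ℝ) + 1) ^ 5)
      = 11 * ((N : ℝ) + 2) * ((n : ℝ) + 1) * C *
          ((((10 * m : ℕ) : ℝ) + 1) / ((m : ℝ) + 1) ^ 5) := by ring
    _ ≤ 11 * ((N : ℝ) + 2) * ((n : ℝ) + 1) * C * ((10 * N) ^ 5 / ((n : ℝ) + 1) ^ 4) := by gcongr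
    _ = 11 * ((N : ℝ) + 2) * C * (10 * N) ^ 5 / ((n : ℝ) + 1) ^ 3 := by
        field_simp
    _ ≤ 11 * ((N : ℝ) + 2) * C * (10 * N) ^ 5 / ((n : ℝ) + 1) ^ 2 := by
        apply div_le_div_of_nonneg_left (by positivity) (by positivity)
        exact pow_le_pow_right₀ (by linarith [Nat.cast_nonneg (α := ℝ) n]) (by norm_num)

/-- `(n+1)^3 r^(n/(10 N))` is bounded for `0 ≤ r < 1`. -/
theorem exp_bound (N : ℕ) (hN : 21 ≤ N) (r : ℝ) (hr0 : 0 ≤ r) (hr : r < 1) (C : ℝ) (hC : 0 ≤ C) :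
    ∃ K : ℝ, 0 ≤ K ∧ ∀ n : ℕ,
    11 * ((N : ℝ) + 2) * ((n : ℝ) + 1) * (C * r ^ (n / (10 * N))) ≤ K / ((n : ℝ) + 1) ^ 2 := by
  obtain ⟨K, hK0, hK⟩ := q10a_bdd 3 r hr0 hr
  refine ⟨11 * ((N : ℝ) + 2) * C * (10 * N) ^ 3 * K, by positivity, fun n => ?_⟩
  have hn := q10a_div N hN n
  set m : ℕ := n / (10 * N) with hm
  have hn1 : (0 : ℝ) < (n : ℝ) + 1 := by positivity
  rw [le_div_iff₀ (by positivity)]
  have h3 : ((n : ℝ) + 1) ^ 3 ≤ (10 * N) ^ 3 * ((m : ℝ) + 1) ^ 3 := by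
    rw [← mul_pow]
    exact pow_le_pow_left₀ hn1.le hn 3
  have hr' : (0 : ℝ) ≤ r ^ m := pow_nonneg hr0 m
  calc 11 * ((N : ℝ) + 2) * ((n : ℝ) + 1) * (C * r ^ m) * ((n : ℝ) + 1) ^ 2
      = 11 * ((N : ℝ) + 2) * C * (((n : ℝ) + 1) ^ 3 * r ^ m) := by ring
    _ ≤ 11 * ((N : ℝ) + 2) * C * (((10 * N) ^ 3 * ((m : ℝ) + 1) ^ 3) * r ^ m) := by gcongr
    _ = 11 * ((N : ℝ) + 2) * C * (10 * N) ^ 3 * (((m : ℝ) + 1) ^ 3 * r ^ m) := by ring
    _ ≤ 11 * ((N : ℝ) + 2) * C * (10 * N) ^ 3 * K := by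
        have := hK m
        gcongr

/-- With `m = n/(10 N)`: `(1/5)^(n - 2 m) 9^m` times `(n+1)^2` is bounded (`2 m ≤ n/100`,
`(1/5)^(n-2m) 9^m = (1/5)^n 225^m`, `225^m ≤ (225^(1/210))^n`; e.g. `225 ≤ 2^8`, `8 m ≤ n/26`). -/
theorem small_bound (N : ℕ) (hN : 21 ≤ N) : ∃ K : ℝ, 0 ≤ K ∧ ∀ n : ℕ,
    (1 / 5 : ℝ) ^ (n - 2 * (n / (10 * N))) * (5 * 9 ^ (n / (10 * N))) ≤ K / ((n : ℝ) + 1) ^ 2 := by
  obtain ⟨K, hK0, hK⟩ := q10a_bdd 2 (1 / 5) (by norm_num) (by norm_num)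
  refine ⟨20 * K, by positivity, fun n => ?_⟩
  set m : ℕ := n / (10 * N) with hm
  have hmn : 10 * N * m ≤ n := Nat.mul_div_le n (10 * N)
  have h210 : 210 * m ≤ n := by
    have h2 : 210 * m ≤ 10 * N * m := Nat.mul_le_mul_right m (by omega)
    exact le_trans h2 hmn
  set k : ℕ := n / 2 with hk
  have hk1 : k ≤ n - 4 * m := by omega
  have hk2 : n + 1 ≤ 2 * (k + 1) := by omega
  have hk2' : (n : ℝ) + 1 ≤ 2 * ((k : ℝ) + 1) := by exact_mod_cast hk2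
  rw [le_div_iff₀ (by positivity)]
  have h9 : (9 : ℝ) ^ m ≤ 5 ^ (2 * m) := by
    rw [pow_mul]
    exact pow_le_pow_left₀ (by norm_num) (by norm_num) m
  have h1 : (1 / 5 : ℝ) ^ (n - 2 * m) * 5 ^ (2 * m) = (1 / 5 : ℝ) ^ (n - 4 * m) := by
    have e : n - 2 * m = (n - 4 * m) + 2 * m := by omega
    rw [e, pow_add, mul_assoc, ← mul_pow]
    norm_num
  have h2 : (1 / 5 : ℝ) ^ (n - 4 * m) ≤ (1 / 5 : ℝ) ^ k :=
    pow_le_pow_of_le_one (by norm_num) (by norm_num) hk1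
  calc (1 / 5 : ℝ) ^ (n - 2 * m) * (5 * 9 ^ m) * ((n : ℝ) + 1) ^ 2
      ≤ (1 / 5 : ℝ) ^ (n - 2 * m) * (5 * 5 ^ (2 * m)) * (2 * ((k : ℝ) + 1)) ^ 2 := by gcongr
    _ = 20 * (((k : ℝ) + 1) ^ 2 * ((1 / 5 : ℝ) ^ (n - 2 * m) * 5 ^ (2 * m))) := by ring
    _ ≤ 20 * (((k : ℝ) + 1) ^ 2 * (1 / 5 : ℝ) ^ k) := by
        rw [h1]
        gcongr
    _ ≤ 20 * K := by
        have := hK k
        gcongr

end Pool.Agent.Lib.MP_d0d59f_nt.PW

end

section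

/-! Row bt-B06: few frequencies have few white sites. -/

namespace Pool.Agent.Lib.MP_b27257_nt.BT

open Finset

/-- the representative in `[0, 1)` -/
noncomputable def b06_val (z : UnitAddCircle) : ℝ := (AddCircle.equivIco (1 : ℝ) 0 z : ℝ)

theorem b06_val_mem (z : UnitAddCircle) : 0 ≤ b06_val z ∧ b06_val z < 1 := by
  have h := (AddCircle.equivIco (1 : ℝ) 0 z).2
  have h2 : b06_val z < 0 + 1 := h.2
  rw [zero_add] at h2
  exact ⟨h.1, h2⟩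

theorem b06_coe_val (z : UnitAddCircle) : ((b06_val z : ℝ) : UnitAddCircle) = z :=
  AddCircle.coe_equivIco

open Classical in
/-- the code of a point -/
noncomputable def b06_code (Q : ℕ) (z : UnitAddCircle) : ℕ :=
  if 1 / (Q : ℝ) < ‖z‖ then 1 + ⌊(Q : ℝ) * b06_val z⌋₊ else 0

theorem b06_code_lt {Q : ℕ} (hQ : 1 ≤ Q) (z : UnitAddCircle) : b06_code Q z < Q + 1 := by
  have hQ0 : (0 : ℝ) < Q := by exact_mod_cast hQ
  rw [b06_code]
  split_ifs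
  · have h1 : ⌊(Q : ℝ) * b06_val z⌋₊ < Q := by
      rw [Nat.floor_lt (mul_nonneg hQ0.le (b06_val_mem z).1)]
      calc (Q : ℝ) * b06_val z < Q * 1 := mul_lt_mul_of_pos_left (b06_val_mem z).2 hQ0
        _ = Q := mul_one _
    omega
  · omega

theorem b06_code_eq {Q : ℕ} (hQ : 1 ≤ Q) (z z' : UnitAddCircle)
    (h : b06_code Q z = b06_code Q z') : ‖z - z'‖ ≤ 2 / Q := by
  have hQ0 : (0 : ℝ) < Q := by exact_mod_cast hQ
  rw [b06_code, b06_code] at h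
  split_ifs at h with h1 h2 h3
  · have h4 : ⌊(Q : ℝ) * b06_val z⌋₊ = ⌊(Q : ℝ) * b06_val z'⌋₊ := by omega
    have h5 := Nat.floor_le (mul_nonneg hQ0.le (b06_val_mem z).1)
    have h6 := Nat.lt_floor_add_one ((Q : ℝ) * b06_val z)
    have h7 := Nat.floor_le (mul_nonneg hQ0.le (b06_val_mem z').1)
    have h8 := Nat.lt_floor_add_one ((Q : ℝ) * b06_val z')
    rw [h4] at h5 h6
    have h9 : |(Q : ℝ) * b06_val z - Q * b06_val z'| ≤ 1 := by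
      rw [abs_le]
      constructor <;> linarith
    have h10 : |b06_val z - b06_val z'| ≤ 1 / Q := by
      rw [← mul_sub, abs_mul, abs_of_pos hQ0] at h9
      rw [le_div_iff₀ hQ0, mul_comm]
      exact h9
    have h11 : ‖z - z'‖ ≤ |b06_val z - b06_val z'| := by
      conv_lhs => rw [← b06_coe_val z, ← b06_coe_val z', ← AddCircle.coe_sub]
      rw [UnitAddCircle.norm_eq]
      have h12 := round_le (b06_val z - b06_val z') 0
      simpa using h12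
    refine h11.trans (h10.trans ?_)
    apply div_le_div_of_nonneg_right _ hQ0.le
    norm_num
  · omega
  · omega
  · push Not at h1
    have h3' := not_lt.1 ‹¬ 1 / (Q : ℝ) < ‖z'‖›
    calc ‖z - z'‖ ≤ ‖z‖ + ‖z'‖ := norm_sub_le _ _
      _ ≤ 1 / Q + 1 / Q := add_le_add h1 h3'
      _ = 2 / Q := by ring

open Classical in
/-- Map `v` to `g : Fin ℓ → Fin (Q + 1)`: `0` at the black `j` (`‖x j v‖ ≤ 1/Q`), `1 + ⌊Q y⌋` at the white ones,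
`y ∈ [0, 1)` the representative of `x j v` (`AddCircle.equivIco`). Two `v, v'` of the set with the same `g` have
`‖x j v - x j v'‖ ≤ 2/Q` for all `j < ℓ`, so are equal. The number of `g` with at most `K` nonzero values is at
most `∑_g y^(#nonzero - K) = (1 + Q y)^ℓ / y^K` (`Finset.prod_univ_sum`). -/
theorem card_few_white {ℓ K Q : ℕ} (hQ : 1 ≤ Q) (V : Finset ℤ) (x : ℕ → ℤ → UnitAddCircle)
    (hsep : ∀ v ∈ V, ∀ v' ∈ V, (∀ j < ℓ, ‖x j v - x j v'‖ ≤ 2 / Q) → v = v') {y : ℝ} (hy0 : 0 < y)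
    (hy1 : y ≤ 1) :
    ((V.filter fun v => ((range ℓ).filter fun j => 1 / (Q : ℝ) < ‖x j v‖).card ≤ K).card : ℝ) ≤
      (1 + Q * y) ^ ℓ / y ^ K := by
  set g : ℤ → Fin ℓ → Fin (Q + 1) := fun v j => ⟨b06_code Q (x j v), b06_code_lt hQ _⟩ with hg
  set φ : Fin (Q + 1) → ℝ := fun a => if a = 0 then 1 else y with hφ
  set W := V.filter fun v => ((range ℓ).filter fun j => 1 / (Q : ℝ) < ‖x j v‖).card ≤ K with hW
  have hφ0 : ∀ a, 0 ≤ φ a := by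
    intro a
    simp only [hφ]
    split_ifs
    · norm_num
    · exact hy0.le
  have hinj : Set.InjOn g (W : Set ℤ) := by
    intro v hv v' hv' hvv
    have hv1 : v ∈ V := (mem_filter.1 hv).1
    have hv2 : v' ∈ V := (mem_filter.1 hv').1
    apply hsep v hv1 v' hv2
    intro j hj
    apply b06_code_eq hQ
    have h1 := congrFun hvv ⟨j, hj⟩
    exact congrArg Fin.val h1
  have hcode : ∀ z : UnitAddCircle, 1 / (Q : ℝ) < ‖z‖ ↔ b06_code Q z ≠ 0 := by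
    intro z
    rw [b06_code]
    split_ifs with h
    · simp only [h, ne_eq, true_iff]
      omega
    · simp only [h, ne_eq, not_true_eq_false]
  have hprod : ∀ v ∈ W, y ^ K ≤ ∏ j, φ (g v j) := by
    intro v hv
    have h1 : ((range ℓ).filter fun j => 1 / (Q : ℝ) < ‖x j v‖).card ≤ K := (mem_filter.1 hv).2
    have h2 : ∏ j, φ (g v j) = y ^ ((univ : Finset (Fin ℓ)).filter fun j => ¬ g v j = 0).card := by
      simp only [hφ]
      rw [prod_ite, prod_const_one, one_mul, prod_const]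
    have h3 : ((univ : Finset (Fin ℓ)).filter fun j => ¬ g v j = 0).card =
        ((range ℓ).filter fun j => 1 / (Q : ℝ) < ‖x j v‖).card := by
      rw [card_filter, card_filter, Finset.sum_range]
      apply sum_congr rfl
      intro j _
      have h4 : (¬ g v j = 0) ↔ 1 / (Q : ℝ) < ‖x j v‖ := by
        rw [hcode, ne_eq, not_iff_not, Fin.ext_iff]
        rfl
      by_cases h5 : 1 / (Q : ℝ) < ‖x j v‖
      · rw [if_pos h5, if_pos (h4.2 h5)]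
      · rw [if_neg h5, if_neg (fun h => h5 (h4.1 h))]
    rw [h2, h3]
    exact pow_le_pow_of_le_one hy0.le hy1 h1
  have hsum : ∑ a, φ a = 1 + Q * y := by
    rw [Fin.sum_univ_succ]
    simp only [hφ]
    simp [Fin.succ_ne_zero]
  rw [le_div_iff₀ (pow_pos hy0 K)]
  calc (W.card : ℝ) * y ^ K = ∑ v ∈ W, y ^ K := by rw [sum_const, nsmul_eq_mul]
    _ ≤ ∑ v ∈ W, ∏ j, φ (g v j) := sum_le_sum hprod
    _ = ∑ f ∈ W.image g, ∏ j, φ (f j) := by rw [sum_image hinj]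
    _ ≤ ∑ f : Fin ℓ → Fin (Q + 1), ∏ j, φ (f j) :=
        sum_le_univ_sum_of_nonneg fun f => prod_nonneg fun j _ => hφ0 _
    _ = (∑ a, φ a) ^ ℓ := (Fintype.sum_pow φ ℓ).symm
    _ = (1 + Q * y) ^ ℓ := by rw [hsum]

end Pool.Agent.Lib.MP_b27257_nt.BT

end
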