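import Pool.Agent.Lib.MP_d0d59f_nt.PZ.K006
import Pool.Agent.Lib.MP_d0d59f_nt.PZ.K010
import Pool.Agent.Lib.MP_d0d59f_nt.PZ.K011
import Pool.Agent.Lib.MP_d0d59f_nt.PZ.K012

section

/-! Row px-X05: the Fejer inequality for the integers with many odd steps. -/

namespace Pool.Agent.Lib.MP_d0d59f_nt.PX

open Finset
open Pool.Agent.Lib.MP_b27257_nt.BT (st ee)
open Pool.Agent.Lib.MP_b27257_nt.BT (fejer_low b09_add b09_int b09_conj b09_zero b09_norm_sq)

private lemma x05_succ (d x : ℤ) (n : ℕ) :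
    ones d x (n + 1) = (if x % 2 = 1 then 1 else 0) + ones d (T d x) n := by
  induction n with
  | zero =>
    rw [ones_succ, ones_zero, ones_zero, zero_add, add_zero]
    rfl
  | succ n ih =>
    rw [ones_succ, ih, ones_succ d (T d x) n, Function.iterate_succ_apply]
    ring

private lemma x05_congr {d : ℤ} (hd : Odd d) :
    ∀ (n : ℕ) (x y : ℤ), (2 : ℤ) ^ n ∣ x - y → ones d x n = ones d y n := by
  intro n
  induction n with
  | zero => intro x y _; rw [ones_zero, ones_zero]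
  | succ n ih =>
    intro x y h
    have h2 : (2 : ℤ) ∣ x - y := (dvd_pow_self 2 (Nat.succ_ne_zero n)).trans h
    have hxy : x % 2 = y % 2 := by omega
    have hT : (2 : ℤ) ^ n ∣ T d x - T d y := by
      obtain ⟨c, hc⟩ := h
      rw [pow_succ] at hc
      rcases Int.emod_two_eq_zero_or_one x with hx | hx
      · have e1 := T_even (d := d) hx
        have e2 := T_even (d := d) (y := y) (by omega)
        refine ⟨c, ?_⟩
        have : 2 * (T d x - T d y) = 2 * (2 ^ n * c) := by linarith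
        exact mul_left_cancel₀ (by norm_num) this
      · have e1 := T_odd hd hx
        have e2 := T_odd hd (y := y) (by omega)
        refine ⟨3 * c, ?_⟩
        have : 2 * (T d x - T d y) = 2 * (2 ^ n * (3 * c)) := by linarith
        exact mul_left_cancel₀ (by norm_num) this
    rw [x05_succ, x05_succ, hxy, ih _ _ hT]

private lemma x05_F (d : ℤ) (m Y s0 : ℕ) :
    ({z : ℤ | |z| ≤ Y ∧ s0 ≤ ones d z m} : Set ℤ) =
      ((Finset.Icc (-(Y : ℤ)) Y).filter fun z => s0 ≤ ones d z m : Finset ℤ) := by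
  ext z
  simp only [Set.mem_ofPred_eq, Finset.coe_filter, Finset.mem_Icc, abs_le]

private lemma x05_mod {d : ℤ} (hd : Odd d) (m : ℕ) (z : ℤ) :
    ones d (((z % 2 ^ m).toNat : ℕ) : ℤ) m = ones d z m := by
  have hp : (0 : ℤ) < 2 ^ m := by positivity
  rw [Int.toNat_of_nonneg (Int.emod_nonneg _ hp.ne')]
  apply x05_congr hd
  exact ⟨-(z / 2 ^ m), by have := Int.emod_add_mul_ediv z (2 ^ m); linarith⟩

private lemma x05_lt (m : ℕ) (z : ℤ) : (z % 2 ^ m).toNat ∈ range (2 ^ m) := by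
  have hp : (0 : ℤ) < 2 ^ m := by positivity
  rw [Finset.mem_range]
  zify
  rw [Int.toNat_of_nonneg (Int.emod_nonneg _ hp.ne')]
  exact Int.emod_lt_of_pos _ hp

private lemma x05_ee (m b : ℕ) (z : ℤ) :
    ee ((b : ℝ) * ((((z % 2 ^ m).toNat : ℕ) : ℝ) / 2 ^ m)) = ee ((b : ℝ) * ((z : ℝ) / 2 ^ m)) := by
  have hp : (0 : ℤ) < 2 ^ m := by positivity
  have h1 : (((z % 2 ^ m).toNat : ℕ) : ℤ) = z % 2 ^ m := Int.toNat_of_nonneg (Int.emod_nonneg _ hp.ne')
  have h2 : (((z % 2 ^ m).toNat : ℕ) : ℝ) = ((z % 2 ^ m : ℤ) : ℝ) := by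
    rw [← h1]; norm_cast
  have h3 : (z : ℝ) = ((z % 2 ^ m : ℤ) : ℝ) + 2 ^ m * ((z / 2 ^ m : ℤ) : ℝ) := by
    have := Int.emod_add_mul_ediv z (2 ^ m)
    exact_mod_cast this.symm
  rw [h2]
  generalize ((z % 2 ^ m : ℤ) : ℝ) = u at h3 ⊢
  have h4 : (b : ℝ) * ((z : ℝ) / 2 ^ m) = b * (u / 2 ^ m) + (((b : ℤ) * (z / 2 ^ m) : ℤ) : ℝ) := by
    rw [Int.cast_mul]
    generalize ((z / 2 ^ m : ℤ) : ℝ) = k at h3 ⊢
    rw [h3]
    push_cast
    field_simp
  rw [h4, b09_add, b09_int, mul_one]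

private lemma x05_low {V : ℕ} {θ : ℝ} (h : 8 * V * |θ| ≤ 1) :
    (V : ℝ) ^ 2 / 2 ≤ ‖∑ b ∈ range V, ee (b * θ)‖ ^ 2 := by
  rcases le_total 0 θ with h0 | h0
  · rw [abs_of_nonneg h0] at h
    exact fejer_low h0 h
  · rw [abs_of_nonpos h0] at h
    have := fejer_low (neg_nonneg.2 h0) h
    have e : (∑ b ∈ range V, ee ((b : ℝ) * -θ)) = (starRingEnd ℂ) (∑ b ∈ range V, ee (b * θ)) := by
      rw [map_sum]
      refine Finset.sum_congr rfl fun b _ => ?_
      rw [b09_conj]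
      congr 1
      ring
    rw [e, RCLike.norm_conj] at this
    exact this

/-- The `z` of the set are distinct modulo `2^m` (`2 Y < 2^m` by `hV`, `V ≥ 1`), `ones` depends on the class, so with
`BT.fejer_low` (`θ = |z|/2^m`, complex conjugate for `z < 0`)
`card * lam^s0 * V²/2 ≤ ∑_{z < 2^m} lam^(ones z) |∑_{b<V} ee (b z/2^m)|² = ∑_{b,b'} Ph lam d m (b - b')`. -/
theorem fejer_ones {d : ℤ} (hd : Odd d) {lam : ℝ} (hlam : 1 ≤ lam) {m V Y s0 : ℕ} (hV1 : 1 ≤ V)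
    (hV : 8 * V * Y ≤ 2 ^ m) :
    (Set.ncard {z : ℤ | |z| ≤ Y ∧ s0 ≤ ones d z m} : ℝ) * lam ^ s0 * (V : ℝ) ^ 2 / 2 ≤
      ∑ b ∈ range V, ∑ b' ∈ range V, ‖Ph lam d m ((b' : ℤ) - b)‖ := by
  have hp : (0 : ℤ) < 2 ^ m := by positivity
  have hpR : (0 : ℝ) < 2 ^ m := by positivity
  rw [x05_F, Set.ncard_coe_finset]
  set F := (Finset.Icc (-(Y : ℤ)) Y).filter fun z => s0 ≤ ones d z m with hF
  set g : ℕ → ℝ := fun x => lam ^ ones d (x : ℤ) m * ‖∑ b ∈ range V, ee ((b : ℝ) * ((x : ℝ) / 2 ^ m))‖ ^ 2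
    with hg
  have hg0 : ∀ x, 0 ≤ g x := fun x => by
    have : 0 ≤ lam := by linarith
    positivity
  have h2Y : (2 : ℤ) * Y < 2 ^ m := by
    have h1 : 8 * Y ≤ 2 ^ m := le_trans (by nlinarith) hV
    have h2 : 0 < 2 ^ m := by positivity
    have h3 : 2 * Y < 2 ^ m := by omega
    exact_mod_cast h3
  have hinj : Set.InjOn (fun z : ℤ => (z % 2 ^ m).toNat) F := by
    intro z hz w hw hzw
    simp only [hF, Finset.coe_filter, Finset.mem_Icc, Set.mem_ofPred_eq] at hz hw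
    have h1 : z % 2 ^ m = w % 2 ^ m := by
      have := congrArg (fun n : ℕ => (n : ℤ)) hzw
      simp only at this
      rwa [Int.toNat_of_nonneg (Int.emod_nonneg _ hp.ne'),
        Int.toNat_of_nonneg (Int.emod_nonneg _ hp.ne')] at this
    have h2 : (2 : ℤ) ^ m ∣ w - z := (Int.modEq_iff_dvd).1 h1
    have h3 : |w - z| < 2 ^ m := by
      rw [abs_lt]
      constructor <;> linarith [hz.1.1, hz.1.2, hw.1.1, hw.1.2]
    have := Int.eq_zero_of_abs_lt_dvd h2 h3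
    linarith
  have hlow : ∀ z ∈ F, lam ^ s0 * ((V : ℝ) ^ 2 / 2) ≤ g (z % 2 ^ m).toNat := by
    intro z hz
    simp only [hF, Finset.mem_filter, Finset.mem_Icc] at hz
    simp only [hg]
    rw [x05_mod hd]
    have e : ∑ b ∈ range V, ee ((b : ℝ) * ((((z % 2 ^ m).toNat : ℕ) : ℝ) / 2 ^ m)) =
        ∑ b ∈ range V, ee ((b : ℝ) * ((z : ℝ) / 2 ^ m)) :=
      Finset.sum_congr rfl fun b _ => x05_ee m b z
    rw [e]
    have hθ : 8 * (V : ℝ) * |(z : ℝ) / 2 ^ m| ≤ 1 := by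
      rw [abs_div, abs_of_pos hpR, ← mul_div_assoc, div_le_one hpR]
      have h1 : |(z : ℝ)| ≤ Y := by
        rw [abs_le]
        exact ⟨by exact_mod_cast hz.1.1, by exact_mod_cast hz.1.2⟩
      have h2 : 8 * (V : ℝ) * Y ≤ 2 ^ m := by exact_mod_cast hV
      exact (mul_le_mul_of_nonneg_left h1 (by positivity)).trans h2
    exact mul_le_mul (pow_le_pow_right₀ hlam hz.2) (x05_low hθ) (by positivity)
      (by have : 0 ≤ lam := by linarith
          positivity)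
  have hstep1 : (F.card : ℝ) * lam ^ s0 * (V : ℝ) ^ 2 / 2 ≤ ∑ x ∈ range (2 ^ m), g x := by
    calc (F.card : ℝ) * lam ^ s0 * (V : ℝ) ^ 2 / 2 = ∑ _z ∈ F, lam ^ s0 * ((V : ℝ) ^ 2 / 2) := by
          rw [Finset.sum_const, nsmul_eq_mul]; ring
      _ ≤ ∑ z ∈ F, g (z % 2 ^ m).toNat := Finset.sum_le_sum hlow
      _ = ∑ x ∈ F.image (fun z : ℤ => (z % 2 ^ m).toNat), g x := (Finset.sum_image hinj).symm
      _ ≤ ∑ x ∈ range (2 ^ m), g x := by
          apply Finset.sum_le_sum_of_subset_of_nonneg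
          · intro x hx
            obtain ⟨z, _, rfl⟩ := Finset.mem_image.1 hx
            exact x05_lt m z
          · intro x _ _
            exact hg0 x
  refine hstep1.trans ?_
  have hid : ((∑ x ∈ range (2 ^ m), g x : ℝ) : ℂ) =
      ∑ b ∈ range V, ∑ b' ∈ range V, Ph lam d m ((b : ℤ) - b') := by
    rw [Complex.ofReal_sum]
    have e1 : ∀ x ∈ range (2 ^ m), ((g x : ℝ) : ℂ) = ∑ b ∈ range V, ∑ b' ∈ range V,
        (lam : ℂ) ^ ones d (x : ℤ) m * ee ((((b : ℤ) - (b' : ℤ) : ℤ) : ℝ) * x / 2 ^ m) := by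
      intro x _
      simp only [hg]
      rw [Complex.ofReal_mul, b09_norm_sq, Complex.ofReal_pow, Finset.mul_sum]
      refine Finset.sum_congr rfl fun b _ => ?_
      rw [Finset.mul_sum]
      refine Finset.sum_congr rfl fun b' _ => ?_
      rw [mul_div_assoc]
    rw [Finset.sum_congr rfl e1, Finset.sum_comm]
    refine Finset.sum_congr rfl fun b _ => ?_
    rw [Finset.sum_comm]
    rfl
  have hnorm : (∑ x ∈ range (2 ^ m), g x : ℝ) ≤
      ‖∑ b ∈ range V, ∑ b' ∈ range V, Ph lam d m ((b : ℤ) - b')‖ := by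
    rw [← hid, Complex.norm_real]
    exact le_abs_self _
  refine hnorm.trans ?_
  refine (norm_sum_le _ _).trans ?_
  refine (Finset.sum_le_sum fun b _ => norm_sum_le _ _).trans ?_
  rw [Finset.sum_comm]

/-- Every class modulo `2^m` has at most `2 Y/2^m + 1` elements with `|z| ≤ Y`; `∑_{z<2^m} lam^ones = (1+lam)^m`
(`Ph_zero`). -/
theorem trivial_ones {d : ℤ} (hd : Odd d) {lam : ℝ} (hlam : 1 ≤ lam) (m Y s0 : ℕ) :
    (Set.ncard {z : ℤ | |z| ≤ Y ∧ s0 ≤ ones d z m} : ℝ) * lam ^ s0 ≤ (2 * Y / 2 ^ m + 1) * (1 + lam) ^ m := by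
  have hp : (0 : ℤ) < 2 ^ m := by positivity
  have hpR : (0 : ℝ) < 2 ^ m := by positivity
  rw [x05_F, Set.ncard_coe_finset]
  set F := (Finset.Icc (-(Y : ℤ)) Y).filter fun z => s0 ≤ ones d z m with hF
  have hsum : ∑ x ∈ range (2 ^ m), lam ^ ones d (x : ℤ) m = (1 + lam) ^ m := by
    have h := Ph_zero hd lam m
    unfold Ph at h
    have e : ∀ z ∈ range (2 ^ m), (lam : ℂ) ^ ones d (z : ℤ) m * ee (((0 : ℤ) : ℝ) * z / 2 ^ m) =
        ((lam ^ ones d (z : ℤ) m : ℝ) : ℂ) := by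
      intro z _
      rw [Int.cast_zero, zero_mul, zero_div, b09_zero, mul_one, Complex.ofReal_pow]
    rw [Finset.sum_congr rfl e, ← Complex.ofReal_sum] at h
    have h' : ((∑ x ∈ range (2 ^ m), lam ^ ones d (x : ℤ) m : ℝ) : ℂ) = (((1 + lam) ^ m : ℝ) : ℂ) := by
      rw [h]; push_cast; ring
    exact_mod_cast h'
  have hfib : ∀ x ∈ range (2 ^ m), (((F.filter fun z : ℤ => (z % 2 ^ m).toNat = x).card : ℕ) : ℝ) ≤
      2 * Y / 2 ^ m + 1 := by
    intro x hx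
    -- the map `z ↦ (z + Y) / 2^m` is injective on the fibre, with values in `[0, 2 Y / 2^m]`
    have hc : (F.filter fun z : ℤ => (z % 2 ^ m).toNat = x).card ≤ (range (2 * Y / 2 ^ m + 1)).card := by
      apply Finset.card_le_card_of_injOn (fun z : ℤ => ((z + Y) / 2 ^ m).toNat)
      · intro z hz
        simp only [hF, Finset.coe_filter, Finset.mem_filter, Finset.mem_Icc, Set.mem_ofPred_eq] at hz
        simp only [Finset.coe_range, Set.mem_Iio]
        have h1 : (z + Y) / 2 ^ m ≤ (2 * Y : ℤ) / 2 ^ m :=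
          Int.ediv_le_ediv hp (by linarith [hz.1.1.2])
        have h2 : 0 ≤ (z + Y) / 2 ^ m := Int.ediv_nonneg (by linarith [hz.1.1.1]) hp.le
        have h3 : ((2 * Y / 2 ^ m : ℕ) : ℤ) = (2 * Y : ℤ) / 2 ^ m := by push_cast; rfl
        zify
        rw [Int.toNat_of_nonneg h2]
        linarith
      · intro z hz w hw hzw
        simp only [hF, Finset.coe_filter, Finset.mem_filter, Finset.mem_Icc, Set.mem_ofPred_eq] at hz hw
        have hz2 : 0 ≤ (z + Y) / 2 ^ m := Int.ediv_nonneg (by linarith [hz.1.1.1]) hp.le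
        have hw2 : 0 ≤ (w + Y) / 2 ^ m := Int.ediv_nonneg (by linarith [hw.1.1.1]) hp.le
        have h1 : (z + Y) / 2 ^ m = (w + Y) / 2 ^ m := by
          have := congrArg (fun n : ℕ => (n : ℤ)) hzw
          simp only at this
          rwa [Int.toNat_of_nonneg hz2, Int.toNat_of_nonneg hw2] at this
        have h2 : z % 2 ^ m = w % 2 ^ m := by
          have := congrArg (fun n : ℕ => (n : ℤ)) (hz.2.trans hw.2.symm)
          rwa [Int.toNat_of_nonneg (Int.emod_nonneg _ hp.ne'),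
            Int.toNat_of_nonneg (Int.emod_nonneg _ hp.ne')] at this
        have h3 : (z + Y) % 2 ^ m = (w + Y) % 2 ^ m := Int.ModEq.add_right (Y : ℤ) h2
        have e1 := Int.emod_add_mul_ediv (z + Y) (2 ^ m)
        have e2 := Int.emod_add_mul_ediv (w + Y) (2 ^ m)
        rw [h1, h3] at e1
        linarith
    rw [Finset.card_range] at hc
    have h4 : (((F.filter fun z : ℤ => (z % 2 ^ m).toNat = x).card : ℕ) : ℝ) ≤
        ((2 * Y / 2 ^ m + 1 : ℕ) : ℝ) := by exact_mod_cast hc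
    refine h4.trans ?_
    have h5 : (((2 * Y / 2 ^ m : ℕ)) : ℝ) ≤ ((2 * Y : ℕ) : ℝ) / ((2 ^ m : ℕ) : ℝ) := Nat.cast_div_le
    push_cast at h5 ⊢
    linarith
  have hcard : (F.card : ℝ) * lam ^ s0 ≤ ∑ x ∈ range (2 ^ m),
      ∑ z ∈ F.filter (fun z : ℤ => (z % 2 ^ m).toNat = x), lam ^ ones d (x : ℤ) m := by
    have h1 : (F.card : ℝ) * lam ^ s0 ≤ ∑ z ∈ F, lam ^ ones d (((z % 2 ^ m).toNat : ℕ) : ℤ) m := by
      rw [← nsmul_eq_mul, ← Finset.sum_const]
      refine Finset.sum_le_sum fun z hz => ?_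
      rw [x05_mod hd]
      simp only [hF, Finset.mem_filter, Finset.mem_Icc] at hz
      exact pow_le_pow_right₀ hlam hz.2
    refine h1.trans (le_of_eq ?_)
    rw [← Finset.sum_fiberwise_of_maps_to (s := F) (t := range (2 ^ m))
      (g := fun z : ℤ => (z % 2 ^ m).toNat) (fun z _ => x05_lt m z)]
    refine Finset.sum_congr rfl fun x _ => ?_
    refine Finset.sum_congr rfl fun z hz => ?_
    rw [(Finset.mem_filter.1 hz).2]
  refine hcard.trans ?_
  rw [← hsum, Finset.mul_sum]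
  refine Finset.sum_le_sum fun x hx => ?_
  rw [Finset.sum_const, nsmul_eq_mul]
  exact mul_le_mul_of_nonneg_right (hfib x hx) (by have : 0 ≤ lam := by linarith
                                                   positivity)

end Pool.Agent.Lib.MP_d0d59f_nt.PX

end

section

/-! Row px-X14: the sum over all skeletons. -/

namespace Pool.Agent.Lib.MP_d0d59f_nt.PX

open Finset
open Pool.Agent.Lib.MP_b27257_nt.BT (st ee)

theorem x14_sum_le {n : ℕ} {l : List ℕ} (h : l ∈ Sk n) : l.sum ≤ 2 * n := by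
  obtain ⟨h1, h2⟩ := mem_Sk.mp h
  have := List.sum_le_card_nsmul l 2 (fun x hx => by have := h2 x hx; omega)
  rw [h1, smul_eq_mul] at this
  omega

open Classical in
/-- `l = l0 ++ l1 ++ l2` with lengths `n0`, `J (R G)`, `n2`; `cosP l0, cosP l2 ≤ 1`. If `l0.sum ≥ i0` use `iter_sum`
(`r = m - 2 n0`, `i = l0.sum ≤ 2 n0`), otherwise the trivial bound `V.card`, `early_weight`. -/
theorem total_sum {lam : ℝ} (hlam : 0 < lam) {P : ℤ} {G R K i0 : ℕ} {B τ π : ℝ} (hB : 0 ≤ B) (hτ : 0 ≤ τ)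
    (hπ : 0 ≤ π) (hτπ : τ + π ≤ 1) (V : Finset ℤ) {n n0 J n2 : ℕ} (hn : n = n0 + J * (R * G) + n2)
    (hseg : ∀ r i : ℕ, ∀ l ∈ Sk (R * G), i0 ≤ i → i + r ≤ 2 * n → 2 * (R * G) ≤ r → nbad G R l ≤ K →
      ((V.filter fun v => τ < cosP P v r i l).card : ℝ) ≤ B)
    (hbad : ∑ l ∈ Sk (R * G), (if K < nbad G R l then wl lam l else 0) ≤ (1 + lam) ^ (2 * (R * G)) * π) :
    ∑ l ∈ Sk n, wl lam l * ∑ v ∈ V, cosP P v (2 * n) 0 l ≤
      (1 + lam) ^ (2 * n) *
        (J * B + ((τ + π) ^ J + 2 ^ i0 * ((1 + lam / 2) / (1 + lam)) ^ (2 * n0)) * V.card) := by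
  have hw : ∀ l : List ℕ, 0 ≤ wl lam l := fun l => wl_nonneg hlam.le l
  have hpos : (0 : ℝ) < 1 + lam := by linarith
  set A : ℝ := J * B + (τ + π) ^ J * V.card with hA
  have hA0 : 0 ≤ A := by positivity
  set N1 : ℕ := J * (R * G) with hN1
  -- inner bound
  have inner : ∀ l0 ∈ Sk n0, ∑ l1 ∈ Sk N1, wl lam l1 * ∑ v ∈ V, cosP P v (2 * n - 2 * n0) l0.sum l1 ≤
      (1 + lam) ^ (2 * N1) * (A + if l0.sum < i0 then (V.card : ℝ) else 0) := by
    intro l0 hl0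
    by_cases hc : l0.sum < i0
    · rw [if_pos hc]
      calc ∑ l1 ∈ Sk N1, wl lam l1 * ∑ v ∈ V, cosP P v (2 * n - 2 * n0) l0.sum l1
          ≤ ∑ l1 ∈ Sk N1, wl lam l1 * (V.card : ℝ) := by
            refine Finset.sum_le_sum fun l1 _ => mul_le_mul_of_nonneg_left ?_ (hw l1)
            calc ∑ v ∈ V, cosP P v (2 * n - 2 * n0) l0.sum l1 ≤ ∑ v ∈ V, (1 : ℝ) :=
                  Finset.sum_le_sum fun v _ => cosP_le_one _ _ _ _ _
              _ = V.card := by simp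
        _ = (1 + lam) ^ (2 * N1) * V.card := by rw [← Finset.sum_mul, sum_wl]
        _ ≤ _ := by
            refine mul_le_mul_of_nonneg_left ?_ (by positivity)
            linarith
    · rw [if_neg hc, add_zero]
      have h2 := x14_sum_le hl0
      exact iter_sum (m := 2 * n) hlam hB hτ hπ hτπ V hseg hbad J (2 * n - 2 * n0) l0.sum (by omega)
        (by omega) (by omega)
  -- the sum over the first and the last part
  have split : ∑ l ∈ Sk n, wl lam l * ∑ v ∈ V, cosP P v (2 * n) 0 l ≤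
      ∑ l0 ∈ Sk n0, ∑ l1 ∈ Sk N1, ∑ l2 ∈ Sk n2,
        wl lam l0 * (wl lam l2 * (wl lam l1 * ∑ v ∈ V, cosP P v (2 * n - 2 * n0) l0.sum l1)) := by
    have e1 : ∑ l ∈ Sk n, wl lam l * ∑ v ∈ V, cosP P v (2 * n) 0 l =
        ∑ l ∈ Sk (n0 + N1 + n2), wl lam l * ∑ v ∈ V, cosP P v (2 * n) 0 l := by rw [← hn]
    rw [e1, sum_Sk_add (n0 + N1) n2, sum_Sk_add n0 N1]
    refine Finset.sum_le_sum fun l0 hl0 => Finset.sum_le_sum fun l1 _ => Finset.sum_le_sum fun l2 _ => ?_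
    have hlen : l0.length = n0 := (mem_Sk.mp hl0).1
    rw [wl_append, wl_append]
    have h3 : ∑ v ∈ V, cosP P v (2 * n) 0 (l0 ++ l1 ++ l2) ≤
        ∑ v ∈ V, cosP P v (2 * n - 2 * n0) l0.sum l1 := by
      refine Finset.sum_le_sum fun v _ => ?_
      rw [cosP_append, cosP_append, hlen, zero_add]
      have a1 := cosP_nonneg P v (2 * n) 0 l0
      have a2 := cosP_le_one P v (2 * n) 0 l0
      have b1 := cosP_nonneg P v (2 * n - 2 * n0) l0.sum l1
      have c1 := cosP_nonneg P v (2 * n - 2 * (l0 ++ l1).length) (0 + (l0 ++ l1).sum) l2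
      have c2 := cosP_le_one P v (2 * n - 2 * (l0 ++ l1).length) (0 + (l0 ++ l1).sum) l2
      have d1 : cosP P v (2 * n) 0 l0 * cosP P v (2 * n - 2 * n0) l0.sum l1 ≤
          cosP P v (2 * n - 2 * n0) l0.sum l1 := mul_le_of_le_one_left b1 a2
      have d2 : 0 ≤ cosP P v (2 * n) 0 l0 * cosP P v (2 * n - 2 * n0) l0.sum l1 := mul_nonneg a1 b1
      have d3 := mul_le_of_le_one_right d2 c2
      simp only [zero_add] at d3 ⊢
      exact d3.trans d1
    calc wl lam l0 * wl lam l1 * wl lam l2 * ∑ v ∈ V, cosP P v (2 * n) 0 (l0 ++ l1 ++ l2)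
        ≤ wl lam l0 * wl lam l1 * wl lam l2 * ∑ v ∈ V, cosP P v (2 * n - 2 * n0) l0.sum l1 :=
          mul_le_mul_of_nonneg_left h3 (mul_nonneg (mul_nonneg (hw _) (hw _)) (hw _))
      _ = _ := by ring
  have step2 : ∀ l0 ∈ Sk n0, ∑ l1 ∈ Sk N1, ∑ l2 ∈ Sk n2,
        wl lam l0 * (wl lam l2 * (wl lam l1 * ∑ v ∈ V, cosP P v (2 * n - 2 * n0) l0.sum l1)) ≤
      (1 + lam) ^ (2 * n2) * (1 + lam) ^ (2 * N1) *
        (wl lam l0 * A + (if l0.sum < i0 then wl lam l0 else 0) * V.card) := by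
    intro l0 hl0
    have e2 : ∑ l1 ∈ Sk N1, ∑ l2 ∈ Sk n2,
        wl lam l0 * (wl lam l2 * (wl lam l1 * ∑ v ∈ V, cosP P v (2 * n - 2 * n0) l0.sum l1)) =
        (1 + lam) ^ (2 * n2) * (wl lam l0 *
          ∑ l1 ∈ Sk N1, wl lam l1 * ∑ v ∈ V, cosP P v (2 * n - 2 * n0) l0.sum l1) := by
      rw [← sum_wl lam n2, Finset.sum_mul, Finset.sum_comm]
      refine Finset.sum_congr rfl fun l2 _ => ?_
      rw [← Finset.mul_sum, ← Finset.mul_sum]
      ring
    rw [e2]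
    have h4 := mul_le_mul_of_nonneg_left (inner l0 hl0) (hw l0)
    have h5 := mul_le_mul_of_nonneg_left h4 (by positivity : (0 : ℝ) ≤ (1 + lam) ^ (2 * n2))
    refine h5.trans (le_of_eq ?_)
    split_ifs <;> ring
  have hearly := early_weight hlam n0 i0
  calc ∑ l ∈ Sk n, wl lam l * ∑ v ∈ V, cosP P v (2 * n) 0 l
      ≤ _ := split
    _ ≤ ∑ l0 ∈ Sk n0, (1 + lam) ^ (2 * n2) * (1 + lam) ^ (2 * N1) *
        (wl lam l0 * A + (if l0.sum < i0 then wl lam l0 else 0) * V.card) := Finset.sum_le_sum step2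
    _ = (1 + lam) ^ (2 * n2) * (1 + lam) ^ (2 * N1) * ((1 + lam) ^ (2 * n0) * A +
        (∑ l0 ∈ Sk n0, if l0.sum < i0 then wl lam l0 else 0) * V.card) := by
        rw [← Finset.mul_sum, Finset.sum_add_distrib, ← Finset.sum_mul, ← Finset.sum_mul, sum_wl]
    _ ≤ (1 + lam) ^ (2 * n2) * (1 + lam) ^ (2 * N1) * ((1 + lam) ^ (2 * n0) * A +
        (2 ^ i0 * (1 + lam / 2) ^ (2 * n0)) * V.card) := by
        refine mul_le_mul_of_nonneg_left ?_ (by positivity)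
        have := mul_le_mul_of_nonneg_right hearly (Nat.cast_nonneg (α := ℝ) V.card)
        linarith
    _ = _ := by
        have e3 : (1 + lam / 2) ^ (2 * n0) = (1 + lam) ^ (2 * n0) * ((1 + lam / 2) / (1 + lam)) ^ (2 * n0) := by
          rw [← mul_pow, mul_div_cancel₀ _ hpos.ne']
        have e4 : (1 + lam) ^ (2 * n) = (1 + lam) ^ (2 * n2) * (1 + lam) ^ (2 * N1) * (1 + lam) ^ (2 * n0) := by
          rw [← pow_add, ← pow_add]
          congr 1
          omega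
        rw [e3, e4, hA]
        ring

end Pool.Agent.Lib.MP_d0d59f_nt.PX

end

section

/-! Row pd-P09b. -/

namespace Pool.Agent.Lib.MP_d0d59f_nt.PD

open Finset

open Classical in
/-- the sum over the words of a given sum -/
theorem p09b_inner {D : ℤ → ℝ} (hper : ∀ z z' : ℤ, z ≡ z' [ZMOD 3] → D z = D z')
    (h0 : D 0 + D 1 + D 2 = 0) (m l : ℕ) (z : ℤ) :
    ∑ β ∈ AA.comps m l, (if vd β z then wt β * D (nd β z) else 0) =
      ∑ r ∈ range 3, D r * (3 ^ m * (AA.pz 1 (r : ℤ) (m + 1) m l (z : ZMod (3 ^ (m + 1)))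
        - (3 : ℝ) ^ m / 3 ^ (m + 1) * AA.pz 1 (r : ℤ) m m l (z : ZMod (3 ^ m)))) := by
  have h1 : ∀ r : ℕ, D r * (3 ^ m * (AA.pz 1 (r : ℤ) (m + 1) m l (z : ZMod (3 ^ (m + 1)))
        - (3 : ℝ) ^ m / 3 ^ (m + 1) * AA.pz 1 (r : ℤ) m m l (z : ZMod (3 ^ m)))) =
      (∑ β ∈ AA.comps m l, if vd β z ∧ nd β z ≡ r [ZMOD 3] then wt β * D r else 0) -
        1 / 3 * (∑ β ∈ AA.comps m l, (if vd β z then wt β else 0)) * D r := by
    intro r
    have e1 := sum_comps_vd_class m l r z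
    have e2 := sum_comps_vd m l r z
    have e3 : (3 : ℝ) ^ m / 3 ^ (m + 1) = 1 / 3 := by
      rw [pow_succ]
      field_simp
    have e4 : (∑ β ∈ AA.comps m l, if vd β z ∧ nd β z ≡ r [ZMOD 3] then wt β * D r else 0) =
        (∑ β ∈ AA.comps m l, if vd β z ∧ nd β z ≡ r [ZMOD 3] then wt β else 0) * D r := by
      rw [Finset.sum_mul]
      refine Finset.sum_congr rfl fun β _ => ?_
      split_ifs
      · rfl
      · rw [zero_mul]
    rw [e4, e1, e2, e3]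
    ring
  rw [Finset.sum_congr rfl fun r _ => h1 r, Finset.sum_sub_distrib, ← Finset.mul_sum]
  have h2 : ∑ r ∈ range 3, D (r : ℤ) = 0 := by
    rw [Finset.sum_range_succ, Finset.sum_range_succ, Finset.sum_range_one]
    push_cast
    exact h0
  rw [h2, mul_zero, sub_zero, Finset.sum_comm]
  refine Finset.sum_congr rfl fun β _ => ?_
  by_cases hv : vd β z
  · rw [if_pos hv]
    have hr : ∃ r : ℕ, r < 3 ∧ nd β z ≡ r [ZMOD 3] := by
      refine ⟨(nd β z % 3).toNat, ?_, ?_⟩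
      · omega
      · unfold Int.ModEq
        omega
    obtain ⟨r, hr3, hr⟩ := hr
    rw [Finset.sum_eq_single r]
    · rw [if_pos ⟨hv, hr⟩, hper _ _ hr]
    · intro r' hr' hne
      rw [if_neg]
      rintro ⟨_, h⟩
      have h3 := Finset.mem_range.1 hr'
      have h4 := hr.symm.trans h
      unfold Int.ModEq at h4
      omega
    · intro h
      exact absurd (Finset.mem_range.2 hr3) h
  · rw [if_neg hv]
    refine (Finset.sum_eq_zero fun r _ => ?_).symm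
    rw [if_neg fun h => hv h.1]

open Classical in
/-- By `sum_Wd` the sum is `∑_l ∑_{r<3} D (j+l) r * 3^m pz 1 r (m+1) m l z` (each node is `≡ r` mod `3` for exactly
one `r < 3`), subtract `∑_r D (j+l) r * (1/3) 3^m pz 1 r m m l z = 0` (`pz 1 r m m l z` does not depend on `r` by
`sum_comps_vd`); `|D| ≤ 2`. -/
theorem hm_dom {D : ℕ → ℤ → ℝ} (hD : ∀ j z, |D j z| ≤ 2)
    (hper : ∀ j, ∀ z z' : ℤ, z ≡ z' [ZMOD 3] → D j z = D j z')
    (h0 : ∀ j, D j 0 + D j 1 + D j 2 = 0) (m L j : ℕ) (z : ℤ) :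
    |∑ β ∈ Wd m L, if vd β z then wt β * D (j + β.sum) (nd β z) else 0| ≤ 2 * hm m L z := by
  rw [sum_Wd]
  have h1 : ∀ l ∈ range (L + 1), ∑ β ∈ AA.comps m l, (if vd β z then wt β * D (j + β.sum) (nd β z) else 0) =
      ∑ r ∈ range 3, D (j + l) r * (3 ^ m * (AA.pz 1 (r : ℤ) (m + 1) m l (z : ZMod (3 ^ (m + 1)))
        - (3 : ℝ) ^ m / 3 ^ (m + 1) * AA.pz 1 (r : ℤ) m m l (z : ZMod (3 ^ m)))) := by
    intro l _
    rw [← p09b_inner (hper (j + l)) (h0 (j + l)) m l z]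
    refine Finset.sum_congr rfl fun β hβ => ?_
    rw [(AA.mem_comps.1 hβ).2.1]
  rw [Finset.sum_congr rfl h1]
  refine (Finset.abs_sum_le_sum_abs _ _).trans ?_
  unfold hm
  rw [Finset.sum_comm, Finset.mul_sum, Finset.mul_sum]
  refine Finset.sum_le_sum fun l _ => ?_
  refine (Finset.abs_sum_le_sum_abs _ _).trans ?_
  rw [Finset.mul_sum, Finset.mul_sum]
  refine Finset.sum_le_sum fun r _ => ?_
  rw [abs_mul, abs_mul, abs_of_pos (by positivity : (0 : ℝ) < 3 ^ m)]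
  exact mul_le_mul_of_nonneg_right (hD _ _) (by positivity)

end Pool.Agent.Lib.MP_d0d59f_nt.PD

end

section

/-! Row pw-Q04b: offsets in the barrier (compare PD/P04b). -/

namespace Pool.Agent.Lib.MP_d0d59f_nt.PW

open Finset

theorem q04b_aux {N e L : ℕ} (hN : 21 ≤ N) : ∀ (n : ℕ) (α : List ℕ), α ∈ Rq N e n L →
    (AA.cc α : ℝ) ≤ 2 ^ e * (N * (1 - (1 - 1 / (2 * (N : ℝ))) ^ n)) * 2 ^ α.sum := by
  intro n
  induction n with
  | zero =>
    intro α h
    have h1 : α.length = 0 := (mem_Rq.1 h).1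
    rw [List.length_eq_zero_iff] at h1
    rw [h1, pow_zero, sub_self, mul_zero, mul_zero, zero_mul]
    exact le_of_eq Nat.cast_zero
  | succ n ih =>
    intro α h
    obtain ⟨hl, hs, hp, hb⟩ := mem_Rq.1 h
    have hne : α ≠ [] := by
      intro h0
      rw [h0] at hl
      simp at hl
    obtain ⟨g, a, hga, hg⟩ : ∃ g : List ℕ, ∃ a, α = g ++ [a] ∧ g.length = n := by
      refine ⟨α.dropLast, α.getLast hne, (List.dropLast_append_getLast hne).symm, ?_⟩
      rw [List.length_dropLast, hl]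
      rfl
    have hρ := wt_le_rho hN h
    subst hga
    have hsum : (g ++ [a]).sum = g.sum + a := by
      rw [List.sum_append, List.sum_singleton]
    have hgR : g ∈ Rq N e n L :=
      mem_Rq.2 ⟨hg, by omega, fun x hx => hp x (List.mem_append_left _ hx), lbar_prefix hb⟩
    have h1 := ih g hgR
    have hcc : (AA.cc (g ++ [a]) : ℝ) = 2 ^ a * (AA.cc g : ℝ) + 3 ^ n := by
      rw [AA.cc_append, hg]
      simp [AA.cc]
    rw [hcc]
    unfold PD.wt at hρ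
    rw [hl, hsum] at hρ
    rw [hsum]
    have hpos : (0 : ℝ) < 2 ^ (g.sum + a) := by positivity
    rw [div_le_iff₀ hpos, pow_succ (3 : ℝ) n] at hρ
    have hN0 : (0 : ℝ) < N := by
      have : 0 < N := by omega
      exact_mod_cast this
    have hN1 : (1 : ℝ) / (2 * (N : ℝ)) ≤ 1 := by
      rw [div_le_one (by positivity)]
      have : (21 : ℝ) ≤ N := by exact_mod_cast hN
      linarith
    have hNm : (N : ℝ) * (1 / (2 * (N : ℝ))) = 1 / 2 := by
      field_simp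
    generalize hρdef : (1 : ℝ) - 1 / (2 * (N : ℝ)) = ρ at hρ h1 ⊢
    have hρ0 : 0 ≤ ρ := by rw [← hρdef]; linarith
    have hNρ : (N : ℝ) * (1 - ρ) = 1 / 2 := by
      rw [← hρdef]
      rw [← hNm]
      ring
    have hρ1 : ρ ≤ 1 := by
      rw [← hρdef]
      have : (0 : ℝ) ≤ 1 / (2 * (N : ℝ)) := by positivity
      linarith
    have hr : (0 : ℝ) ≤ ρ ^ n := by positivity
    have h2 : (2 : ℝ) ^ a * (AA.cc g : ℝ) ≤
        2 ^ e * (N * (1 - ρ ^ n)) * 2 ^ (g.sum + a) := by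
      have h3 := mul_le_mul_of_nonneg_left h1 (by positivity : (0 : ℝ) ≤ 2 ^ a)
      refine h3.trans (le_of_eq ?_)
      rw [pow_add]
      ring
    have h4 : (3 : ℝ) ^ n ≤ 2 ^ e * (1 / 3 * ρ ^ (n + 1)) * 2 ^ (g.sum + a) := by
      linarith
    have h5 : 2 ^ e * (1 / 3 * ρ ^ (n + 1)) * 2 ^ (g.sum + a) ≤
        2 ^ e * (N * (ρ ^ n - ρ ^ (n + 1))) * 2 ^ (g.sum + a) := by
      refine mul_le_mul_of_nonneg_right ?_ hpos.le
      refine mul_le_mul_of_nonneg_left ?_ (by positivity)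
      have h6 : (N : ℝ) * (ρ ^ n - ρ ^ (n + 1)) = 1 / 2 * ρ ^ n := by
        rw [← hNρ]
        ring
      rw [h6, pow_succ]
      have h7 : ρ ^ n * ρ ≤ ρ ^ n := mul_le_of_le_one_right hr hρ1
      linarith
    have h6 : 2 ^ e * (N * (1 - ρ ^ n)) * (2 : ℝ) ^ (g.sum + a) +
        2 ^ e * (N * (ρ ^ n - ρ ^ (n + 1))) * 2 ^ (g.sum + a) =
        2 ^ e * (N * (1 - ρ ^ (n + 1))) * 2 ^ (g.sum + a) := by ring
    linarith

/-- By induction on the length, appending a letter at the END (`AA.cc_append`: `cc (α ++ [a]) = 2^a cc α + 3^n`),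
with `ρ = 1 - 1/(2N)`: `cc α ≤ 2^α.sum * 2^e * N * (1 - ρ^n)`: the new term is
`3^n/2^(sum) = wt (α ++ [a])/3 ≤ 2^e ρ^(n+1)/3 ≤ 2^e N (ρ^n - ρ^(n+1)) = 2^e ρ^n/2` (`wt_le_rho`). -/
theorem cc_le_Rq {N e n L : ℕ} (hN : 21 ≤ N) {α : List ℕ} (h : α ∈ Rq N e n L) :
    (AA.cc α : ℝ) ≤ N * 2 ^ e * 2 ^ α.sum := by
  refine (q04b_aux hN n α h).trans ?_
  refine mul_le_mul_of_nonneg_right ?_ (by positivity)
  have hN0 : (0 : ℝ) < N := by
    have : 0 < N := by omega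
    exact_mod_cast this
  have hN1 : (1 : ℝ) / (2 * (N : ℝ)) ≤ 1 := by
    rw [div_le_one (by positivity)]
    have : (21 : ℝ) ≤ N := by exact_mod_cast hN
    linarith
  have hr : (0 : ℝ) ≤ (1 - 1 / (2 * (N : ℝ))) ^ n := pow_nonneg (by linarith) n
  have h2 : (N : ℝ) * (1 - (1 - 1 / (2 * (N : ℝ))) ^ n) ≤ N := by nlinarith
  calc (2 : ℝ) ^ e * (N * (1 - (1 - 1 / (2 * (N : ℝ))) ^ n)) ≤ 2 ^ e * N :=
        mul_le_mul_of_nonneg_left h2 (by positivity)
    _ = N * 2 ^ e := mul_comm _ _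

end Pool.Agent.Lib.MP_d0d59f_nt.PW

end

section

/-! Row px-X10: exceptional frequencies of a segment. -/

namespace Pool.Agent.Lib.MP_d0d59f_nt.PX

open Finset
open Pool.Agent.Lib.MP_b27257_nt.BT (st ee)

open Classical in
/-- `BT.card_few_white` with `ℓ = R`, `K := K + nbad G R l`, `x s v = v • st P 2 (mI G i l s) (mR G r l s)`, `Q = Qf G`:
the white `s` of `v` are in `gw` or are bad cells. Separation: `w = v - v' ≠ 0` with all marks `≤ 2/Q` contradicts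
`no_black_chain` with `η = 2/Qf G`, `L1 = 4 G` (`4 * 3^(4G) * 2/(8 * 6^(4G)) ≤ 1`), `n = R - 1`, and `marks`:
`ρ 0 - ρ (R-1) ≥ 2 R G - 4 G`, `i ≤ I (R-1) ≤ i + 2 R G ≤ i + r ≤ m`. -/
theorem seg_except (hRid : RidoutProp) (C ε : ℝ) (hε : 0 < ε) {G : ℕ} (hG : 1 ≤ G) : ∃ h0 : ℕ, ∀ h : ℕ, h0 ≤ h → ∀ m : ℕ,
    (m : ℝ) ≤ C * h → ∀ P : ℤ, P * 3 ≡ 1 [ZMOD 2 ^ m] → ∀ R r i K : ℕ, 1 ≤ R → 2 * (R * G) ≤ r → i + r ≤ m →
    ∀ l ∈ Sk (R * G), ∀ (V : Finset ℤ) (D : ℝ), (∀ v ∈ V, ∀ v' ∈ V, |((v - v' : ℤ) : ℝ)| ≤ D) →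
    D * Real.exp (ε * h) * 2 ^ (4 * G) ≤ 2 ^ (2 * (R * G)) → D < 3 ^ i → ∀ y : ℝ, 0 < y → y ≤ 1 →
      ((V.filter fun v => (gw P G R (Qf G) r i l v).card ≤ K).card : ℝ) ≤
        (1 + Qf G * y) ^ R / y ^ (K + nbad G R l) := by
  have hQ1 : 1 ≤ Qf G := by
    unfold Qf
    exact Nat.one_le_iff_ne_zero.2 (by positivity)
  have hη0 : (0 : ℝ) ≤ 2 / (Qf G : ℝ) := by positivity
  have hη : 4 * 3 ^ (4 * G) * (2 / (Qf G : ℝ)) ≤ 1 := by
    unfold Qf
    push_cast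
    have h3 : (3 : ℝ) ^ (4 * G) ≤ 6 ^ (4 * G) := by
      apply pow_le_pow_left₀ <;> norm_num
    have h6 : (0 : ℝ) < 6 ^ (4 * G) := by positivity
    rw [mul_div_assoc', div_le_one (by positivity)]
    linarith
  obtain ⟨h0, hh0⟩ := no_black_chain hRid C ε hε (4 * G) hη0 hη
  refine ⟨h0, fun h hh m hm P hP R r i K hR hr him l hl V D hVD hD1 hD2 y hy0 hy1 => ?_⟩
  obtain ⟨m1, m2, m3⟩ := marks (i := i) hG hl hr
  have hsep : ∀ v ∈ V, ∀ v' ∈ V, (∀ j < R,
      ‖v • st P 2 (mI G i l j) (mR G r l j) - v' • st P 2 (mI G i l j) (mR G r l j)‖ ≤ 2 / (Qf G : ℝ)) →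
      v = v' := by
    intro v hv v' hv' hall
    by_contra hne
    have hw : v - v' ≠ 0 := sub_ne_zero.2 hne
    have hwD := hVD v hv v' hv'
    have hR1 : R - 1 < R := by omega
    have h0R : 0 < R := by omega
    have c1 : mR G r l 0 ≤ m := le_trans (m2 0 h0R).2.2 (by omega)
    have c2 : mI G i l (R - 1) ≤ m := by
      have := (m2 (R - 1) hR1).2.1
      omega
    have c3 : |((v - v' : ℤ) : ℝ)| * Real.exp (ε * h) ≤ 2 ^ (mR G r l 0 - mR G r l (R - 1)) := by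
      have e0 : (0 : ℝ) < Real.exp (ε * h) := Real.exp_pos _
      have h1 : |((v - v' : ℤ) : ℝ)| * Real.exp (ε * h) ≤ D * Real.exp (ε * h) :=
        mul_le_mul_of_nonneg_right hwD e0.le
      have h2 : (2 : ℝ) ^ (2 * (R * G)) ≤ 2 ^ (mR G r l 0 - mR G r l (R - 1)) * 2 ^ (4 * G) := by
        rw [← pow_add]
        apply pow_le_pow_right₀ (by norm_num)
        have := m3 hR
        omega
      have h3 : (0 : ℝ) < 2 ^ (4 * G) := by positivity
      exact h1.trans (le_of_mul_le_mul_right (hD1.trans h2) h3)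
    have c4 : |((v - v' : ℤ) : ℝ)| < 3 ^ mI G i l (R - 1) := by
      refine lt_of_le_of_lt hwD (lt_of_lt_of_le hD2 ?_)
      apply pow_le_pow_right₀ (by norm_num)
      exact (m2 (R - 1) hR1).1
    obtain ⟨s, hs, hsw⟩ := hh0 h hh m hm P hP (v - v') hw (fun s => mI G i l s) (fun s => mR G r l s) (R - 1)
      c1 c2 (fun s hs => m1 s (by omega)) c3 c4
    have h4 := hall s (by omega)
    rw [← sub_smul] at h4
    exact absurd hsw (not_lt.2 h4)
  have key := Pool.Agent.Lib.MP_b27257_nt.BT.card_few_white (ℓ := R) (K := K + nbad G R l) hQ1 V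
    (fun j v => v • st P 2 (mI G i l j) (mR G r l j)) hsep hy0 hy1
  refine le_trans ?_ key
  have hsub : (V.filter fun v => (gw P G R (Qf G) r i l v).card ≤ K) ⊆
      (V.filter fun v => ((range R).filter fun j => 1 / (Qf G : ℝ) <
        ‖v • st P 2 (mI G i l j) (mR G r l j)‖).card ≤ K + nbad G R l) := by
    intro v hv
    rw [mem_filter] at hv ⊢
    refine ⟨hv.1, ?_⟩
    have h5 : ((range R).filter fun j => 1 / (Qf G : ℝ) < ‖v • st P 2 (mI G i l j) (mR G r l j)‖) ⊆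
        gw P G R (Qf G) r i l v ∪ ((range R).filter fun s => 1 ∉ cell G l s) := by
      intro s hs
      rw [mem_filter] at hs
      rw [mem_union]
      by_cases hc : 1 ∈ cell G l s
      · left
        unfold gw
        rw [mem_filter]
        exact ⟨hs.1, hc, hs.2⟩
      · right
        rw [mem_filter]
        exact ⟨hs.1, hc⟩
    calc ((range R).filter fun j => 1 / (Qf G : ℝ) < ‖v • st P 2 (mI G i l j) (mR G r l j)‖).card
        ≤ (gw P G R (Qf G) r i l v ∪ ((range R).filter fun s => 1 ∉ cell G l s)).card := card_le_card h5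
      _ ≤ (gw P G R (Qf G) r i l v).card + ((range R).filter fun s => 1 ∉ cell G l s).card := card_union_le _ _
      _ ≤ K + nbad G R l := by
        have : ((range R).filter fun s => 1 ∉ cell G l s).card = nbad G R l := by
          unfold nbad
          exact congrArg Finset.card (Finset.filter_congr fun _ _ => Iff.rfl)
        rw [this]
        exact Nat.add_le_add_right hv.2 _
  exact_mod_cast card_le_card hsub

end Pool.Agent.Lib.MP_d0d59f_nt.PX

end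

section

/-! Row pw-Q24b: the barrier from the heights. -/

namespace Pool.Agent.Lib.MP_d0d59f_nt.PW

open Finset

/-- Offset of a word whose proper prefixes are in the barrier. -/
theorem q24b_cc {N e : ℕ} (hN : 21 ≤ N) {β : List ℕ} {a : ℕ} (hpos : ∀ b ∈ β, 1 ≤ b) (_ha : 1 ≤ a)
    (hb : lbar N e β) : (AA.cc (β ++ [a]) : ℝ) ≤ (N + 1) * 2 ^ e * 2 ^ (β ++ [a]).sum := by
  have hmem : β ∈ Rq N e β.length β.sum := mem_Rq.mpr ⟨rfl, le_rfl, hpos, hb⟩
  have h1 := cc_le_Rq hN hmem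
  have h2 := wt_le_rho hN hmem
  have hNr : (21 : ℝ) ≤ N := by exact_mod_cast hN
  have hρ : (1 - 1 / (2 * (N : ℝ))) ^ β.length ≤ 1 := by
    apply pow_le_one₀
    · have : 1 / (2 * (N : ℝ)) ≤ 1 := by
        rw [div_le_one (by positivity)]
        linarith
      linarith
    · have : 0 ≤ 1 / (2 * (N : ℝ)) := by positivity
      linarith
  have h3 : (3 : ℝ) ^ β.length ≤ 2 ^ e * 2 ^ β.sum := by
    unfold PD.wt at h2
    have h4 : (2 : ℝ) ^ e * (1 - 1 / (2 * (N : ℝ))) ^ β.length ≤ 2 ^ e * 1 :=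
      mul_le_mul_of_nonneg_left hρ (by positivity)
    have h5 := h2.trans h4
    rw [div_le_iff₀ (by positivity)] at h5
    linarith
  rw [AA.cc_append]
  have hsum : (β ++ [a]).sum = β.sum + a := by simp
  rw [hsum]
  have hc1 : AA.cc [a] = 1 := by simp [AA.cc]
  have hsa : [a].sum = a := by simp
  rw [hc1, hsa]
  push_cast
  have ha2 : (1 : ℝ) ≤ 2 ^ a := one_le_pow₀ (by norm_num)
  have hP : (0 : ℝ) ≤ 2 ^ e * 2 ^ β.sum := by positivity
  have hA : (2 : ℝ) ^ a * (AA.cc β : ℝ) ≤ 2 ^ a * (N * 2 ^ e * 2 ^ β.sum) :=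
    mul_le_mul_of_nonneg_left h1 (by positivity)
  have hB : (2 : ℝ) ^ e * 2 ^ β.sum ≤ 2 ^ a * (2 ^ e * 2 ^ β.sum) := by
    nlinarith
  rw [pow_add]
  nlinarith

end Pool.Agent.Lib.MP_d0d59f_nt.PW

end

section

/-! Row px-X15a: integers with many odd steps, core inequality. -/

namespace Pool.Agent.Lib.MP_d0d59f_nt.PX

open Finset
open Pool.Agent.Lib.MP_b27257_nt.BT (st ee)

theorem x15a_inv (m : ℕ) : ∃ P : ℤ, P * 3 ≡ 1 [ZMOD 2 ^ m] := by
  have hc : IsCoprime (3 : ℤ) (2 ^ m) := by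
    apply IsCoprime.pow_right
    exact ⟨1, -1, by norm_num⟩
  obtain ⟨a, b, hab⟩ := hc
  refine ⟨a, ?_⟩
  rw [Int.modEq_iff_dvd]
  exact ⟨b, by linarith⟩

theorem x15a_seg {G : ℕ} (hG : 1 ≤ G) {P v : ℤ} {R r i K : ℕ} {l : List ℕ} (hl : l ∈ Sk (R * G))
    (hr : 2 * (R * G) ≤ r) (hv : Real.exp (-(2 / (Qf G : ℝ) ^ 2)) ^ (K + 1) < cosP P v r i l) :
    (gw P G R (Qf G) r i l v).card ≤ K := by
  by_contra hcon
  have hK : K + 1 ≤ (gw P G R (Qf G) r i l v).card := by omega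
  have hQ : 2 ≤ Qf G := by
    unfold Qf
    have : 1 ≤ 6 ^ (4 * G) := Nat.one_le_pow _ _ (by norm_num)
    omega
  have h1 := cosP_le_gw (P := P) (v := v) (i := i) hG hQ hl hr
  have h2 : Real.exp (-(2 / (Qf G : ℝ) ^ 2)) ^ (gw P G R (Qf G) r i l v).card ≤
      Real.exp (-(2 / (Qf G : ℝ) ^ 2)) ^ (K + 1) := by
    apply pow_le_pow_of_le_one (Real.exp_pos _).le _ hK
    apply Real.exp_le_one_iff.2
    have : 0 ≤ 2 / (Qf G : ℝ) ^ 2 := by positivity
    linarith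
  linarith

/-- `m = 2 n ≤ 2 h` (`C = 2` in `seg_except`); `P` with `P * 3 ≡ 1` modulo `2^m`. `fejer_ones` with `Y = 2^(h+1) |d|`
(`8 V Y ≤ 2^(h+e)`), `Ph_le` (`i = 0`), and for each `b` `total_sum` with the set `{(b' - b) d : b' < V}` of `V`
integers (`D = V |d| ≤ 2^(e-4)`), `i0 = e`, `n0 = n/2`, `τ, π` as given. `hseg`: the `v` with `τ < cosP` have
`(gw ..).card ≤ K` (`cosP_le_gw`), `nbad ≤ K`, so `seg_except` and `hB` with `K' = K + nbad ≤ 2 K`;
`D exp(ε1 h) 2^(4G) ≤ 2^e 2^e 2^(4G) ≤ 2^(2 R G)`, `D < 3^e ≤ 3^i`. `hbad`: `bad_weight`. -/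
theorem core_count (hRid : RidoutProp) {lam : ℝ} (hlam : 1 ≤ lam) {G : ℕ} (hG : 1 ≤ G) {ε1 : ℝ} (hε1 : 0 < ε1) : ∃ h0 : ℕ,
    ∀ h : ℕ, h0 ≤ h → ∀ n e R K J n2 : ℕ, 2 * n = h + e → n ≤ h → n = n / 2 + J * (R * G) + n2 → 1 ≤ R →
    2 * e + 4 * G ≤ 2 * (R * G) → Real.exp (ε1 * h) ≤ 2 ^ e → ∀ y B : ℝ, 0 < y → y ≤ 1 →
    (∀ K' ≤ 2 * K, (1 + Qf G * y) ^ R / y ^ K' ≤ B) → ∀ τ π : ℝ,
    τ = Real.exp (-(2 / (Qf G : ℝ) ^ 2)) ^ (K + 1) →
    π = 2 ^ R * ((1 + lam ^ 2) / (1 + lam) ^ 2) ^ (G * (K + 1)) → τ + π ≤ 1 →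
    ∀ d : ℤ, Odd d → ∀ V : ℕ, 1 ≤ V → 16 * (V * |(d : ℝ)|) ≤ 2 ^ e → ∀ s0 : ℕ,
      (Set.ncard {z : ℤ | |z| ≤ 2 ^ (h + 1) * |d| ∧ s0 ≤ ones d z (2 * n)} : ℝ) * lam ^ s0 ≤
        2 * (1 + lam) ^ (2 * n) *
          (J * B / V + ((τ + π) ^ J + 2 ^ e * ((1 + lam / 2) / (1 + lam)) ^ (2 * (n / 2)))) := by
  classical
  obtain ⟨h0, hseg0⟩ := seg_except hRid 2 ε1 hε1 hG
  refine ⟨h0, ?_⟩
  intro h hh n e R K J n2 h2n hnh hdec hR he hexp y B hy0 hy1 hB τ π hτ hπ hτπ d hd V hV hVd s0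
  have hlam0 : 0 < lam := by linarith
  have hd0 : d ≠ 0 := by rintro rfl; simp at hd
  have hV0 : (0 : ℝ) < V := by exact_mod_cast hV
  have hdabs : (1 : ℝ) ≤ |(d : ℝ)| := by
    have : (1 : ℤ) ≤ |d| := Int.one_le_abs hd0
    exact_mod_cast this
  obtain ⟨P, hP⟩ := x15a_inv (2 * n)
  -- Fejer
  have hY : 8 * V * (2 ^ (h + 1) * d.natAbs) ≤ 2 ^ (2 * n) := by
    have h1 : (16 * (V * d.natAbs) : ℕ) ≤ 2 ^ e := by
      have : ((16 * (V * d.natAbs) : ℕ) : ℝ) ≤ ((2 ^ e : ℕ) : ℝ) := by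
        push_cast
        rw [Nat.cast_natAbs]
        push_cast
        exact hVd
      exact_mod_cast this
    calc 8 * V * (2 ^ (h + 1) * d.natAbs) = 2 ^ h * (16 * (V * d.natAbs)) := by rw [pow_succ]; ring
      _ ≤ 2 ^ h * 2 ^ e := Nat.mul_le_mul_left _ h1
      _ = 2 ^ (2 * n) := by rw [← pow_add, h2n]
  have hF := fejer_ones hd hlam (m := 2 * n) (V := V) (Y := 2 ^ (h + 1) * d.natAbs) (s0 := s0) hV hY
  have hset : {z : ℤ | |z| ≤ ((2 ^ (h + 1) * d.natAbs : ℕ) : ℤ) ∧ s0 ≤ ones d z (2 * n)} =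
      {z : ℤ | |z| ≤ 2 ^ (h + 1) * |d| ∧ s0 ≤ ones d z (2 * n)} := by
    ext z
    rw [Set.mem_ofPred_eq, Set.mem_ofPred_eq]
    push_cast
    rfl
  rw [hset] at hF
  -- constants
  have hB0 : 0 ≤ B := by
    have h1 := hB 0 (Nat.zero_le _)
    refine le_trans ?_ h1
    positivity
  have hτ0 : 0 ≤ τ := by rw [hτ]; positivity
  have hπ0 : 0 ≤ π := by rw [hπ]; positivity
  -- one b
  have hone : ∀ b ∈ range V, ∑ b' ∈ range V, ‖Ph lam d (2 * n) ((b' : ℤ) - b)‖ ≤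
      (1 + lam) ^ (2 * n) *
        (J * B + ((τ + π) ^ J + 2 ^ e * ((1 + lam / 2) / (1 + lam)) ^ (2 * (n / 2))) * V) := by
    intro b hb
    have hinj : Function.Injective (fun b' : ℕ => ((b' : ℤ) - b) * d) := by
      intro x x' hx
      have := mul_right_cancel₀ hd0 hx
      omega
    set W : Finset ℤ := (range V).image (fun b' : ℕ => ((b' : ℤ) - b) * d) with hW
    have hWcard : W.card = V := by
      rw [hW, card_image_of_injective _ hinj, card_range]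
    have hWD : ∀ v ∈ W, ∀ v' ∈ W, |((v - v' : ℤ) : ℝ)| ≤ V * |(d : ℝ)| := by
      intro v hv v' hv'
      rw [hW, mem_image] at hv hv'
      obtain ⟨x, hx, rfl⟩ := hv
      obtain ⟨x', hx', rfl⟩ := hv'
      rw [mem_range] at hx hx'
      have e1 : (((((x : ℤ) - b) * d - ((x' : ℤ) - b) * d : ℤ)) : ℝ) = ((x : ℝ) - x') * d := by
        push_cast; ring
      rw [e1, abs_mul]
      apply mul_le_mul_of_nonneg_right _ (abs_nonneg _)
      rw [abs_le]
      have hxr : (x : ℝ) ≤ V := by exact_mod_cast hx.le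
      have hxr' : (x' : ℝ) ≤ V := by exact_mod_cast hx'.le
      have hx0 : (0 : ℝ) ≤ x := Nat.cast_nonneg _
      have hx0' : (0 : ℝ) ≤ x' := Nat.cast_nonneg _
      constructor <;> linarith
    have hD1 : V * |(d : ℝ)| ≤ 2 ^ e := by
      have : 0 ≤ V * |(d : ℝ)| := by positivity
      linarith
    have hDlt : V * |(d : ℝ)| < 2 ^ e := by
      have : 0 < V * |(d : ℝ)| := by positivity
      linarith
    have hDexp : V * |(d : ℝ)| * Real.exp (ε1 * h) * 2 ^ (4 * G) ≤ 2 ^ (2 * (R * G)) := by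
      calc V * |(d : ℝ)| * Real.exp (ε1 * h) * 2 ^ (4 * G) ≤ 2 ^ e * 2 ^ e * 2 ^ (4 * G) := by
            apply mul_le_mul_of_nonneg_right _ (by positivity)
            exact mul_le_mul hD1 hexp (Real.exp_pos _).le (by positivity)
        _ = 2 ^ (2 * e + 4 * G) := by rw [← pow_add, ← pow_add]; congr 1; ring
        _ ≤ 2 ^ (2 * (R * G)) := pow_le_pow_right₀ (by norm_num) he
    have hsegW : ∀ r i : ℕ, ∀ l ∈ Sk (R * G), e ≤ i → i + r ≤ 2 * n → 2 * (R * G) ≤ r → nbad G R l ≤ K →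
        ((W.filter fun v => τ < cosP P v r i l).card : ℝ) ≤ B := by
      intro r i l hl hi hir hr hnb
      have hm : ((2 * n : ℕ) : ℝ) ≤ 2 * h := by exact_mod_cast (by omega : 2 * n ≤ 2 * h)
      have hDi : V * |(d : ℝ)| < 3 ^ i := by
        calc V * |(d : ℝ)| < 2 ^ e := hDlt
          _ ≤ 3 ^ e := pow_le_pow_left₀ (by norm_num) (by norm_num) _
          _ ≤ 3 ^ i := pow_le_pow_right₀ (by norm_num) hi
      have h1 := hseg0 h hh (2 * n) hm P hP R r i K hR hr hir l hl W (V * |(d : ℝ)|) hWD hDexp hDi y hy0 hy1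
      have h2 := hB (K + nbad G R l) (by omega)
      refine le_trans ?_ (h1.trans h2)
      have hsub : (W.filter fun v => τ < cosP P v r i l) ⊆
          (W.filter fun v => (gw P G R (Qf G) r i l v).card ≤ K) := by
        intro v hv
        rw [mem_filter] at hv ⊢
        refine ⟨hv.1, ?_⟩
        apply x15a_seg hG hl hr
        rw [← hτ]
        exact hv.2
      exact_mod_cast card_le_card hsub
    have hbadW : ∑ l ∈ Sk (R * G), (if K < nbad G R l then wl lam l else 0) ≤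
        (1 + lam) ^ (2 * (R * G)) * π := by
      rw [hπ]
      exact bad_weight hlam0 hG R K
    have htot := total_sum hlam0 (P := P) (G := G) (R := R) (K := K) (i0 := e) (B := B) (τ := τ) (π := π)
      hB0 hτ0 hπ0 hτπ W hdec hsegW hbadW
    rw [hWcard] at htot
    refine le_trans ?_ htot
    -- the sum of norms
    have hPh : ∀ b' ∈ range V, ‖Ph lam d (2 * n) ((b' : ℤ) - b)‖ ≤
        ∑ l ∈ Sk n, wl lam l * cosP P (((b' : ℤ) - b) * d) (2 * n) 0 l := by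
      intro b' _
      have := Ph_le hd hlam0.le n hP ((b' : ℤ) - b) 0
      rwa [pow_zero, mul_one] at this
    refine (sum_le_sum hPh).trans (le_of_eq ?_)
    rw [sum_comm]
    apply sum_congr rfl
    intro l _
    rw [← mul_sum]
    congr 1
    rw [hW, sum_image (fun x _ x' _ hx => hinj hx)]
  set Xc : ℝ := (τ + π) ^ J + 2 ^ e * ((1 + lam / 2) / (1 + lam)) ^ (2 * (n / 2)) with hXc
  have hsum : ∑ b ∈ range V, ∑ b' ∈ range V, ‖Ph lam d (2 * n) ((b' : ℤ) - b)‖ ≤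
      V * ((1 + lam) ^ (2 * n) * (J * B + Xc * V)) := by
    refine (sum_le_sum hone).trans (le_of_eq ?_)
    rw [sum_const, card_range, nsmul_eq_mul]
  have hfin := hF.trans hsum
  have hV2 : 0 < (V : ℝ) ^ 2 / 2 := by positivity
  have e1 : (Set.ncard {z : ℤ | |z| ≤ 2 ^ (h + 1) * |d| ∧ s0 ≤ ones d z (2 * n)} : ℝ) * lam ^ s0 ≤
      (V * ((1 + lam) ^ (2 * n) * (J * B + Xc * V))) / ((V : ℝ) ^ 2 / 2) := by
    rw [le_div_iff₀ hV2]
    linarith
  refine e1.trans (le_of_eq ?_)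
  field_simp

end Pool.Agent.Lib.MP_d0d59f_nt.PX

end

section

/-! Row pw-Q08: mean zero functions over all words. -/

namespace Pool.Agent.Lib.MP_d0d59f_nt.PW

open Finset

open Classical in
/-- Words with sum `≤ 10 m`: `PD.hm_dom` with `L := 10 m` (`Wd m (10 m)` is the set of words of `Wd m L` with sum
`≤ 10 m`); the others: `|D| ≤ 2`. -/
theorem dom_tl {D : ℕ → ℤ → ℝ} (hD : ∀ j z, |D j z| ≤ 2)
    (hper : ∀ j, ∀ z z' : ℤ, z ≡ z' [ZMOD 3] → D j z = D j z')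
    (h0 : ∀ j, D j 0 + D j 1 + D j 2 = 0) {m L : ℕ} (hL : 10 * m ≤ L) (j : ℕ) (z : ℤ) :
    |∑ β ∈ PD.Wd m L, if PD.vd β z then PD.wt β * D (j + β.sum) (PD.nd β z) else 0| ≤
      2 * PD.hm m (10 * m) z + 2 * tl m L z := by
  have h1 := PD.hm_dom hD hper h0 m (10 * m) j z
  have h2 : (PD.Wd m L).filter (fun β => β.sum ≤ 10 * m) = PD.Wd m (10 * m) := by
    ext β
    rw [Finset.mem_filter, PD.mem_Wd, PD.mem_Wd]
    constructor
    · rintro ⟨⟨ha, hb, hc⟩, hd⟩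
      exact ⟨ha, hd, hc⟩
    · rintro ⟨ha, hb, hc⟩
      exact ⟨⟨ha, hb.trans hL, hc⟩, hb⟩
  rw [← Finset.sum_filter_add_sum_filter_not (PD.Wd m L) (fun β => β.sum ≤ 10 * m), h2]
  refine (abs_add_le _ _).trans (add_le_add h1 ?_)
  refine (Finset.abs_sum_le_sum_abs _ _).trans ?_
  unfold tl
  rw [Finset.mul_sum, Finset.sum_filter]
  refine Finset.sum_le_sum fun β _ => ?_
  by_cases hs : β.sum ≤ 10 * m
  · rw [if_neg (not_not.2 hs)]
    split_ifs
    · exact mul_nonneg (by norm_num) (PD.wt_pos β).le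
    · simp
  · rw [if_pos hs]
    by_cases hv : PD.vd β z
    · rw [if_pos hv, if_pos ⟨hv, not_le.1 hs⟩, abs_mul, abs_of_pos (PD.wt_pos β)]
      have := hD (j + β.sum) (PD.nd β z)
      have hw := (PD.wt_pos β).le
      nlinarith [mul_le_mul_of_nonneg_left this hw]
    · rw [if_neg hv, if_neg (fun h => hv h.1)]
      simp

end Pool.Agent.Lib.MP_d0d59f_nt.PW

end
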