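import Mathlib
import Pool.Agent.Lib.MP_d0d59f_nt.PZ.K013

section

/-! Row px-X11: choice of the proportion, uniformly in the cell length. -/

namespace Pool.Agent.Lib.MP_d0d59f_nt.PX

open Finset
open Pool.Agent.Lib.MP_b27257_nt.BT (st ee)

/-- `y = min 1 (κ/(2 Qf G))`, `ω = κ'/(2 (log (16/κ') + 4 log 6))`, `κ' = min κ 1`: `(1 + Q y)^R ≤ exp(κ' R/2)`,
`y^(-K) ≤ exp(K (log (16/κ') + 4 G log 6)) ≤ exp(K G (log (16/κ') + 4 log 6))`. -/
theorem omega_G {κ : ℝ} (hκ : 0 < κ) : ∃ ω : ℝ, 0 < ω ∧ ∀ G : ℕ, 1 ≤ G → ∃ y : ℝ, 0 < y ∧ y ≤ 1 ∧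
    ∀ R K : ℕ, (K : ℝ) ≤ ω * R → (1 + Qf G * y) ^ R / y ^ K ≤ Real.exp (κ * (G * R)) := by
  set κ' : ℝ := min κ 1 with hκ'
  have hk0 : 0 < κ' := lt_min hκ one_pos
  have hk1 : κ' ≤ 1 := min_le_right _ _
  have hkκ : κ' ≤ κ := min_le_left _ _
  set L : ℝ := Real.log (16 / κ') + 4 * Real.log 6 with hL
  have hlog6 : 0 < Real.log 6 := Real.log_pos (by norm_num)
  have hlog16 : 0 < Real.log (16 / κ') := by
    apply Real.log_pos
    rw [lt_div_iff₀ hk0]
    linarith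
  have hL0 : 0 < L := by positivity
  refine ⟨κ' / (2 * L), by positivity, fun G hG => ?_⟩
  have hQ8 : (8 : ℝ) ≤ (Qf G : ℝ) := by
    have : (8 : ℕ) ≤ Qf G := by
      unfold Qf
      exact Nat.le_mul_of_pos_right 8 (by positivity)
    exact_mod_cast this
  have hQ0 : (0 : ℝ) < (Qf G : ℝ) := by linarith
  refine ⟨κ' / (2 * Qf G), by positivity, ?_, fun R K hK => ?_⟩
  · rw [div_le_one (by positivity)]
    linarith
  have hy0 : (0 : ℝ) < κ' / (2 * Qf G) := by positivity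
  have h1 : (1 + (Qf G : ℝ) * (κ' / (2 * Qf G))) ^ R ≤ Real.exp (κ' / 2 * R) := by
    have h2 : (Qf G : ℝ) * (κ' / (2 * Qf G)) = κ' / 2 := by
      field_simp
    rw [h2]
    have h3 : 1 + κ' / 2 ≤ Real.exp (κ' / 2) := by
      have := Real.add_one_le_exp (κ' / 2)
      linarith
    calc (1 + κ' / 2) ^ R ≤ (Real.exp (κ' / 2)) ^ R := pow_le_pow_left₀ (by positivity) h3 R
      _ = Real.exp (κ' / 2 * R) := by rw [← Real.exp_nat_mul, mul_comm]
  have hlogy : -Real.log (κ' / (2 * Qf G)) ≤ G * L := by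
    have h2 : κ' / (2 * (Qf G : ℝ)) = (16 / κ' * 6 ^ (4 * G))⁻¹ := by
      unfold Qf
      push_cast
      field_simp
      norm_num
    rw [h2, Real.log_inv, neg_neg, Real.log_mul (by positivity) (by positivity), Real.log_pow]
    have h3 : (1 : ℝ) ≤ G := by exact_mod_cast hG
    push_cast
    have h4 : Real.log (16 / κ') ≤ G * Real.log (16 / κ') := le_mul_of_one_le_left hlog16.le h3
    rw [hL]
    linarith
  have h5 : 1 / (κ' / (2 * (Qf G : ℝ))) ^ K ≤ Real.exp (κ' / 2 * (G * R)) := by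
    have h6 : 1 / (κ' / (2 * (Qf G : ℝ))) ^ K = Real.exp (K * -Real.log (κ' / (2 * Qf G))) := by
      rw [mul_neg, Real.exp_neg, ← Real.log_pow, Real.exp_log (by positivity), one_div]
    rw [h6]
    apply Real.exp_le_exp.2
    have h7 : (K : ℝ) * -Real.log (κ' / (2 * Qf G)) ≤ K * (G * L) :=
      mul_le_mul_of_nonneg_left hlogy (by positivity)
    have h8 : (K : ℝ) * (G * L) ≤ κ' / (2 * L) * R * (G * L) :=
      mul_le_mul_of_nonneg_right hK (by positivity)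
    have h9 : κ' / (2 * L) * R * (G * L) = κ' / 2 * (G * R) := by
      field_simp
    linarith
  have h10 : (1 + (Qf G : ℝ) * (κ' / (2 * Qf G))) ^ R / (κ' / (2 * (Qf G : ℝ))) ^ K ≤
      Real.exp (κ' / 2 * R) * Real.exp (κ' / 2 * (G * R)) := by
    rw [div_eq_mul_one_div]
    exact mul_le_mul h1 h5 (by positivity) (by positivity)
  refine h10.trans ?_
  rw [← Real.exp_add]
  apply Real.exp_le_exp.2
  have h3 : (1 : ℝ) ≤ G := by exact_mod_cast hG
  have hR : (0 : ℝ) ≤ R := by positivity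
  have h11 : (R : ℝ) ≤ G * R := le_mul_of_one_le_left hR h3
  have h12 : κ' / 2 * R ≤ κ' / 2 * (G * R) := mul_le_mul_of_nonneg_left h11 (by positivity)
  have h13 : κ' * (G * R) ≤ κ * (G * R) := mul_le_mul_of_nonneg_right hkκ (by positivity)
  linarith

end Pool.Agent.Lib.MP_d0d59f_nt.PX

end

section

/-! Row px-X17: the entropy. -/

namespace Pool.Agent.Lib.MP_d0d59f_nt.PX

open Finset
open Pool.Agent.Lib.MP_b27257_nt.BT (st ee)

theorem rho0_pos : 0 < rho0 := by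
  unfold rho0
  positivity

/-- `2 < 3`, and `rho0 > 1/2` since `4 > 3`. -/
theorem rho0_bounds : 1 / 2 < rho0 ∧ rho0 < 1 := by
  have h3 : 0 < Real.log 3 := Real.log_pos (by norm_num)
  have h23 : Real.log 2 < Real.log 3 := Real.log_lt_log (by norm_num) (by norm_num)
  have h34 : Real.log 3 < 2 * Real.log 2 := by
    have : 2 * Real.log 2 = Real.log 4 := by
      rw [show (4:ℝ) = 2 ^ 2 by norm_num, Real.log_pow]; norm_num
    rw [this]; exact Real.log_lt_log (by norm_num) (by norm_num)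
  unfold rho0
  constructor
  · rw [lt_div_iff₀ h3]; linarith
  · rw [div_lt_one h3]; exact h23

theorem one_le_lam0 : 1 ≤ lam0 := by
  obtain ⟨h1, h2⟩ := rho0_bounds
  unfold lam0
  rw [le_div_iff₀ (by linarith)]
  linarith

/-- `(1 + lam0) = 1/(1 - rho0)`; `log (1+lam0) - rho0 log lam0 = binEntropy rho0`. -/
theorem entropy_eq : Real.log (1 + lam0) - rho0 * Real.log lam0 = Real.binEntropy rho0 := by
  obtain ⟨h1, h2⟩ := rho0_bounds
  have ha : 0 < rho0 := rho0_pos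
  have hb : 0 < 1 - rho0 := by linarith
  have e1 : 1 + lam0 = (1 - rho0)⁻¹ := by
    unfold lam0; field_simp; ring
  have e2 : Real.log lam0 = Real.log rho0 - Real.log (1 - rho0) := by
    unfold lam0; rw [Real.log_div ha.ne' hb.ne']
  rw [e1, e2, Real.binEntropy, Real.log_inv, Real.log_inv]
  ring

/-- `binEntropy x < log 2` for `x ≠ 1/2` (`Real.binEntropy_lt_log_two`). -/
theorem entropy_lt : Real.binEntropy rho0 < Real.log 2 := by
  obtain ⟨h1, h2⟩ := rho0_bounds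
  rw [Real.binEntropy_lt_log_two]
  intro h
  rw [h] at h1
  norm_num at h1

end Pool.Agent.Lib.MP_d0d59f_nt.PX

end

section

/-! Row px-X15b: integers with many odd steps, choice of the parameters. -/

namespace Pool.Agent.Lib.MP_d0d59f_nt.PX

open Finset
open Pool.Agent.Lib.MP_b27257_nt.BT (st ee)

/-- the linear factor is absorbed -/
theorem x15b_lin {κ ε h e g : ℝ} (hκ : 0 < κ) (hε : 0 < ε) (he : ε * h ≤ e) (he0 : 0 ≤ e) :
    h * Real.exp (κ / 8 * (e + g)) ≤ 2 / (κ * ε) * Real.exp (κ / 8 * g) * Real.exp (κ * e) := by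
  have h1 : κ * ε * h / 2 ≤ Real.exp (κ * ε * h / 2) := by
    have := Real.add_one_le_exp (κ * ε * h / 2)
    linarith only [this]
  have h2 : Real.exp (κ * ε * h / 2) ≤ Real.exp (κ * e / 2) := by
    apply Real.exp_le_exp.2
    nlinarith only [hκ, he]
  have h3 : h ≤ 2 / (κ * ε) * Real.exp (κ * e / 2) := by
    have h4 : κ * ε * h / 2 ≤ Real.exp (κ * e / 2) := h1.trans h2
    have h5 : h = 2 / (κ * ε) * (κ * ε * h / 2) := by field_simp
    rw [h5]
    exact mul_le_mul_of_nonneg_left h4 (by positivity)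
  calc h * Real.exp (κ / 8 * (e + g)) ≤ (2 / (κ * ε) * Real.exp (κ * e / 2)) * Real.exp (κ / 8 * (e + g)) :=
        mul_le_mul_of_nonneg_right h3 (Real.exp_pos _).le
    _ = 2 / (κ * ε) * Real.exp (κ / 8 * g) * Real.exp (κ * e / 2 + κ / 8 * e) := by
        rw [Real.exp_add, mul_add (κ / 8), Real.exp_add]
        ring
    _ ≤ 2 / (κ * ε) * Real.exp (κ / 8 * g) * Real.exp (κ * e) := by
        apply mul_le_mul_of_nonneg_left _ (by positivity)
        apply Real.exp_le_exp.2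
        nlinarith only [hκ, he0]

/-- the quantity `τ` -/
theorem x15b_tau {ω Q : ℝ} {R K : ℕ} (hQ : 0 < Q) (hK : ω * R / 2 ≤ (K : ℝ) + 1) :
    Real.exp (-(2 / Q ^ 2)) ^ (K + 1) ≤ Real.exp (-(ω / Q ^ 2 * R)) := by
  rw [← Real.exp_nat_mul]
  apply Real.exp_le_exp.2
  push_cast
  have h1 : ω / Q ^ 2 * R = ω * R / 2 * (2 / Q ^ 2) := by field_simp
  rw [h1]
  have h2 : 0 < 2 / Q ^ 2 := by positivity
  nlinarith only [hK, h2]

/-- the quantity `π` -/
theorem x15b_pi {ω a : ℝ} {G R K : ℕ} (ha : 0 < a) (hK : ω * R / 2 ≤ (K : ℝ) + 1)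
    (hGa : 3 * Real.log 2 ≤ G * ω * a / 2) :
    2 ^ R * (Real.exp (-a)) ^ (G * (K + 1)) ≤ Real.exp (-(2 * Real.log 2 * R)) := by
  have h1 : (2 : ℝ) ^ R = Real.exp (R * Real.log 2) := by
    rw [Real.exp_nat_mul, Real.exp_log (by norm_num)]
  rw [h1, ← Real.exp_nat_mul, ← Real.exp_add]
  apply Real.exp_le_exp.2
  push_cast
  have hR0 : (0 : ℝ) ≤ R := Nat.cast_nonneg _
  have hG0 : (0 : ℝ) ≤ G := Nat.cast_nonneg _
  have h2 : (G : ℝ) * (ω * R / 2) * a ≤ G * (K + 1) * a := by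
    apply mul_le_mul_of_nonneg_right _ ha.le
    exact mul_le_mul_of_nonneg_left hK hG0
  have h3 : 3 * Real.log 2 * R ≤ G * ω * a / 2 * R := mul_le_mul_of_nonneg_right hGa hR0
  nlinarith only [h2, h3]

/-- the power of `τ + π` -/
theorem x15b_pow {c1 x h g : ℝ} {R J : ℕ} (hc1 : 0 < c1) (hx0 : 0 ≤ x)
    (hx : x ≤ 2 * Real.exp (-(c1 * R))) (hR : 2 ≤ c1 * R) (hg : 0 < g) (hJ : h / 8 ≤ J * (R * g)) :
    x ≤ 1 ∧ x ^ J ≤ Real.exp (-(c1 / (16 * g) * h)) := by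
  have h2 : (2 : ℝ) ≤ Real.exp (c1 * R / 2) := by
    have := Real.add_one_le_exp (c1 * R / 2)
    linarith only [hR, this]
  have hx1 : x ≤ Real.exp (-(c1 * R / 2)) := by
    calc x ≤ 2 * Real.exp (-(c1 * R)) := hx
      _ ≤ Real.exp (c1 * R / 2) * Real.exp (-(c1 * R)) := mul_le_mul_of_nonneg_right h2 (Real.exp_pos _).le
      _ = Real.exp (-(c1 * R / 2)) := by rw [← Real.exp_add]; congr 1; ring
  refine ⟨hx1.trans (Real.exp_le_one_iff.2 (by linarith only [hR])), ?_⟩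
  refine (pow_le_pow_left₀ hx0 hx1 J).trans ?_
  rw [← Real.exp_nat_mul]
  apply Real.exp_le_exp.2
  have e1 : c1 / (16 * g) * h = c1 / (2 * g) * (h / 8) := by field_simp; ring
  have e2 : (J : ℝ) * -(c1 * R / 2) = -(c1 / (2 * g) * (J * (R * g))) := by field_simp
  rw [e1, e2]
  apply neg_le_neg
  exact mul_le_mul_of_nonneg_left hJ (by positivity)

theorem x15b_two (e : ℕ) : (2 : ℝ) ^ e = Real.exp (Real.log 2 * e) := by
  rw [mul_comm, Real.exp_nat_mul, Real.exp_log (by norm_num)]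

theorem x15b_four : (4 : ℝ) = Real.exp (Real.log 2 * 2) := by
  rw [Real.exp_mul, Real.exp_log (by norm_num)]
  norm_num

theorem x15b_sixteen : (16 : ℝ) = Real.exp (Real.log 2 * 4) := by
  rw [Real.exp_mul, Real.exp_log (by norm_num)]
  norm_num

theorem x15b_nat1 {e G R : ℕ} (hG : 1 ≤ G) (hR : R = e / G + 3) :
    1 ≤ R ∧ 2 * e + 4 * G ≤ 2 * (R * G) ∧ R * G ≤ e + 3 * G ∧ e ≤ R * G ∧ 0 < R * G := by
  have hGdiv := Nat.div_add_mod e G
  have hGmod := Nat.mod_lt e hG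
  have hRG : R * G = G * (e / G) + 3 * G := by rw [hR]; ring
  have hR3 : 3 ≤ R := by rw [hR]; exact Nat.le_add_left _ _
  rw [hRG]
  refine ⟨by omega, ?_, ?_, ?_, ?_⟩ <;> omega

theorem x15b_nat2 {n S J : ℕ} (hS : 0 < S) (hJ : J = (n - n / 2) / S) :
    n = n / 2 + J * S + (n - n / 2) % S ∧ n ≤ 2 * (J * S + S) ∧ J ≤ n := by
  have h1 := Nat.div_add_mod (n - n / 2) S
  have h2 := Nat.mod_lt (n - n / 2) hS
  rw [← hJ] at h1
  have h3 : J * S = S * J := Nat.mul_comm _ _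
  have h4 : n / 2 ≤ n := Nat.div_le_self _ _
  have h5 : J ≤ n - n / 2 := by rw [hJ]; exact Nat.div_le_self _ _
  refine ⟨by omega, by omega, by omega⟩

theorem x15b_nat3 {e D V : ℕ} (he5 : 5 ≤ e) (hD0 : 0 < D) (hD : D ≤ 2 ^ (e - 5)) (hV : V = 2 ^ (e - 4) / D) :
    1 ≤ V ∧ 16 * (V * D) ≤ 2 ^ e ∧ 2 ^ e ≤ 32 * D * V := by
  have h45 : 2 ^ (e - 4) = 2 * 2 ^ (e - 5) := by
    rw [← pow_succ']
    congr 1
    omega
  have h16 : (2 : ℕ) ^ e = 16 * 2 ^ (e - 4) := by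
    rw [show (16 : ℕ) = 2 ^ 4 by norm_num, ← pow_add]
    congr 1
    omega
  have hV2 : 2 ≤ V := by
    rw [hV, Nat.le_div_iff_mul_le hD0]
    omega
  have hVd : V * D ≤ 2 ^ (e - 4) := by rw [hV]; exact Nat.div_mul_le_self _ _
  have h2 := Nat.div_add_mod (2 ^ (e - 4)) D
  have h3 := Nat.mod_lt (2 ^ (e - 4)) hD0
  rw [← hV] at h2
  refine ⟨by omega, by omega, ?_⟩
  rw [h16]
  nlinarith only [hD, h45, h2, h3]

/-- the choice of `n` -/
theorem x15b_n {ε : ℝ} {h n : ℕ} (hε0 : 0 < ε) (hε16 : ε ≤ 1 / 16) (hh4 : 4 ≤ h)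
    (hn : n = ⌊(1 + ε) * h / 2⌋₊ + 1) :
    (1 + ε) * h ≤ 2 * n ∧ 2 * (n : ℝ) ≤ (1 + ε) * h + 2 ∧ h ≤ 2 * n ∧ n ≤ h := by
  have hhr4 : (4 : ℝ) ≤ h := by exact_mod_cast hh4
  have hn1 : (1 + ε) * h / 2 < n := by
    rw [hn]
    push_cast
    exact Nat.lt_floor_add_one _
  have hn2 : (n : ℝ) ≤ (1 + ε) * h / 2 + 1 := by
    rw [hn]
    push_cast
    have := Nat.floor_le (show 0 ≤ (1 + ε) * (h : ℝ) / 2 by positivity)
    linarith only [this]
  refine ⟨by linarith only [hn1], by linarith only [hn2], ?_, ?_⟩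
  · have h1 : (h : ℝ) ≤ 2 * n := by nlinarith only [hn1, hε0]
    exact_mod_cast h1
  · have h1 : (n : ℝ) ≤ h := by nlinarith only [hε0, hε16, hhr4, hn2]
    exact_mod_cast h1

/-- Parameters, in this order: `κ1 = κ/8`; `ω` from `omega_G κ1`; `β = (1+lam²)/(1+lam)² < 1`, `G ≥ 1` with
`β^(G ω/2) ≤ 1/8`; `Q = Qf G`, `y`; `τ0 = exp(-2/Q²)`. For `ε < 1/8` small and `h` large: `n = ⌊(1+ε) h/2⌋ + 1`,
`e = 2 n - h`, `R = e/G + 3` (natural division), `K = ⌊ω R/2⌋`, `τ = τ0^(K+1) ≤ exp(-ω R/Q²)`,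
`π = 2^R β^(G (K+1)) ≤ 4^(-R)`, `B = exp(κ1 G R)`, `J = (n - n/2)/(R G)`, `n2` the rest; `ε1 = ε/2`.
If `|d| > 2^(e-5)` use `trivial_ones` (`Y = 2^(h+1) |d|`, `2 Y/2^(2n) + 1 ≤ 40 |d|/2^e`). Otherwise
`V = ⌊2^(e-4)/|d|⌋ ≥ 2^(e-5)/|d|` and `core_count`. `J R G ≥ n/2 - R G ≥ h/8`, so `(τ + π)^J ≤ (2 exp(-c1 R))^J ≤
exp(-c1 R J/2) ≤ exp(-c h)`, `c1 = min (ω/Q²) (log 4)`, `c = c1/(16 G)`; the last term is at most
`2^e r^(h/2 - 2)`, `r = (1+lam/2)/(1+lam)`. Choose `ε` with `2 ε log 2 ≤ min c (log(1/r)/4)`: both are at most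
`C 2^(-e)`. `J B/V ≤ 32 |d| h exp(κ1 (e + 3 G)) 2^(-e) ≤ C |d| exp(κ e) 2^(-e)` (`e ≥ ε h`). -/
theorem count_ones (hRid : RidoutProp) {lam κ : ℝ} (hlam : 1 ≤ lam) (hκ : 0 < κ) : ∃ (ε C : ℝ) (h0 : ℕ), 0 < ε ∧ ε ≤ 1 / 2 ∧ 0 ≤ C ∧
    ∀ h : ℕ, h0 ≤ h → ∃ n : ℕ, (1 + ε) * h - 3 ≤ 2 * (n : ℝ) ∧ 2 * (n : ℝ) ≤ (1 + ε) * h + 3 ∧ h ≤ 2 * n ∧
      2 * n ≤ 2 * h ∧ ∀ d : ℤ, Odd d → ∀ s0 : ℕ,
      (Set.ncard {z : ℤ | |z| ≤ 2 ^ (h + 1) * |d| ∧ s0 ≤ ones d z (2 * n)} : ℝ) * lam ^ s0 ≤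
        C * |(d : ℝ)| * (1 + lam) ^ (2 * n) * Real.exp (-(Real.log 2 - κ) * (2 * (n : ℝ) - h)) := by
  have hlam0 : 0 < lam := by linarith only [hlam]
  have hlog2 : 1 / 2 ≤ Real.log 2 := by have := Real.log_two_gt_d9; linarith only [this]
  have hlog2' : Real.log 2 ≤ 1 := by have := Real.log_two_lt_d9; linarith only [this]
  -- parameters
  obtain ⟨ω, hω, hωG⟩ := omega_G (show 0 < κ / 8 by positivity)
  set β : ℝ := (1 + lam ^ 2) / (1 + lam) ^ 2 with hβ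
  have hβ0 : 0 < β := by positivity
  have hβ1 : β < 1 := by
    rw [hβ, div_lt_one (by positivity)]
    nlinarith only [hlam]
  set a : ℝ := -Real.log β with ha
  have ha0 : 0 < a := by
    have := Real.log_neg hβ0 hβ1
    linarith only [this]
  have hβa : β = Real.exp (-a) := by rw [ha, neg_neg, Real.exp_log hβ0]
  obtain ⟨G, hG⟩ := exists_nat_ge (6 * Real.log 2 / (ω * a) + 1)
  have hq0 : 0 ≤ 6 * Real.log 2 / (ω * a) := by positivity
  have hG1 : 1 ≤ G := by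
    have : (1 : ℝ) ≤ G := by linarith only [hG, hq0]
    exact_mod_cast this
  have hGr : (1 : ℝ) ≤ G := by exact_mod_cast hG1
  have hGa : 3 * Real.log 2 ≤ G * ω * a / 2 := by
    have h1 : 6 * Real.log 2 / (ω * a) ≤ G := by linarith only [hβ0, hβ1, hG]
    rw [div_le_iff₀ (by positivity)] at h1
    linarith only [h1]
  obtain ⟨y, hy0, hy1, hyB⟩ := hωG G hG1
  set Q : ℝ := (Qf G : ℝ) with hQ
  have hQ0 : 0 < Q := by
    rw [hQ]
    unfold Qf
    positivity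
  set c1 : ℝ := min (ω / Q ^ 2) (2 * Real.log 2) with hc1
  have hc10 : 0 < c1 := lt_min (by positivity) (by positivity)
  set c : ℝ := c1 / (16 * G) with hc
  have hc0 : 0 < c := by positivity
  set r : ℝ := (1 + lam / 2) / (1 + lam) with hr
  have hr0 : 0 < r := by positivity
  have hr1 : r < 1 := by
    rw [hr, div_lt_one (by positivity)]
    linarith only [hlam, hβ0, hβ1]
  set ℓ : ℝ := -Real.log r with hℓ
  have hℓ0 : 0 < ℓ := by
    have := Real.log_neg hr0 hr1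
    linarith only [this]
  have hrℓ : r = Real.exp (-ℓ) := by rw [hℓ, neg_neg, Real.exp_log hr0]
  set ε : ℝ := min (1 / 16) (min c (ℓ / 4)) with hε
  have hε0 : 0 < ε := lt_min (by norm_num) (lt_min hc0 (by positivity))
  have hε16 : ε ≤ 1 / 16 := min_le_left _ _
  have hεc : ε ≤ c := (min_le_right _ _).trans (min_le_left _ _)
  have hεℓ : ε ≤ ℓ / 4 := (min_le_right _ _).trans (min_le_right _ _)
  obtain ⟨hcore0, hcore⟩ := core_count hRid hlam hG1 (show 0 < ε / 2 by positivity)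
  -- thresholds
  obtain ⟨N1, hN1⟩ := exists_nat_ge (5 / ε)
  obtain ⟨N2, hN2⟩ := exists_nat_ge (2 * G / (c1 * ε))
  set h0 : ℕ := max (max hcore0 4) (max (max N1 N2) (16 * (2 + 3 * G))) with hh0
  set C1 : ℝ := 2 / (κ * ε) * Real.exp (κ / 8 * (3 * G)) with hC1
  have hC10 : 0 ≤ C1 := by positivity
  set C : ℝ := 64 * C1 + 40 + 2 * (4 + 16 * Real.exp ℓ) with hC
  refine ⟨ε, C, h0, hε0, by linarith only [hε0, hε16], by positivity, ?_⟩
  intro h hh
  have hh1 : hcore0 ≤ h := (le_max_left _ _).trans ((le_max_left _ _).trans hh)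
  have hh4 : 4 ≤ h := (le_max_right _ _).trans ((le_max_left _ _).trans hh)
  have hhN1 : N1 ≤ h := (le_max_left _ _).trans ((le_max_left _ _).trans ((le_max_right _ _).trans hh))
  have hhN2 : N2 ≤ h := (le_max_right _ _).trans ((le_max_left _ _).trans ((le_max_right _ _).trans hh))
  have hhG : 16 * (2 + 3 * G) ≤ h := (le_max_right _ _).trans ((le_max_right _ _).trans hh)
  have hhr4 : (4 : ℝ) ≤ h := by exact_mod_cast hh4
  have hhrG : 16 * (2 + 3 * (G : ℝ)) ≤ h := by exact_mod_cast hhG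
  have hεh5 : 5 ≤ ε * h := by
    have h1 : 5 / ε ≤ h := hN1.trans (by exact_mod_cast hhN1)
    rw [div_le_iff₀ hε0] at h1
    linarith only [h1]
  have hc1h : 2 * G ≤ c1 * ε * h := by
    have h1 : 2 * G / (c1 * ε) ≤ h := hN2.trans (by exact_mod_cast hhN2)
    rw [div_le_iff₀ (by positivity)] at h1
    linarith only [h1]
  set n : ℕ := ⌊(1 + ε) * h / 2⌋₊ + 1 with hn
  clear_value n
  obtain ⟨hn1, hn2, hn2h, hn2h'⟩ := x15b_n hε0 hε16 hh4 hn
  refine ⟨n, by linarith only [hε0, hε16, hn1], by linarith only [hε0, hε16, hn2], hn2h, by omega, ?_⟩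
  -- e
  set e : ℕ := 2 * n - h with he
  have he2 : 2 * n = h + e := by omega
  have her : (2 : ℝ) * n = h + e := by exact_mod_cast he2
  have heε : ε * h ≤ e := by linarith only [hn1, her]
  have heε' : (e : ℝ) ≤ ε * h + 2 := by linarith only [hn2, her]
  have he5 : 5 ≤ e := by
    have h1 : (5 : ℝ) ≤ e := by linarith only [hεh5, hn1, her]
    exact_mod_cast h1
  have he0 : (0 : ℝ) ≤ e := Nat.cast_nonneg _
  have hexpe : Real.exp (-(Real.log 2 - κ) * (2 * (n : ℝ) - h)) = Real.exp (κ * e) / 2 ^ e := by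
    rw [her, x15b_two, ← Real.exp_sub]
    congr 1
    ring
  have hκe : 1 ≤ Real.exp (κ * e) := Real.one_le_exp (by positivity)
  intro d hd s0
  have hd0 : d ≠ 0 := by rintro rfl; simp at hd
  have hdabs : (1 : ℝ) ≤ |(d : ℝ)| := by
    have : (1 : ℤ) ≤ |d| := Int.one_le_abs hd0
    exact_mod_cast this
  have hdn : ((d.natAbs : ℕ) : ℝ) = |(d : ℝ)| := by
    rw [Nat.cast_natAbs]
    push_cast
    rfl
  rw [hexpe]
  have h2e : (0 : ℝ) < 2 ^ e := by positivity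
  have hlamn : (0 : ℝ) < (1 + lam) ^ (2 * n) := by positivity
  by_cases hdbig : 2 ^ (e - 5) < d.natAbs
  · -- trivial bound
    have ht := trivial_ones hd hlam (2 * n) (2 ^ (h + 1) * d.natAbs) s0
    have hset : {z : ℤ | |z| ≤ ((2 ^ (h + 1) * d.natAbs : ℕ) : ℤ) ∧ s0 ≤ ones d z (2 * n)} =
        {z : ℤ | |z| ≤ 2 ^ (h + 1) * |d| ∧ s0 ≤ ones d z (2 * n)} := by
      ext z
      rw [Set.mem_ofPred_eq, Set.mem_ofPred_eq]
      push_cast
      rfl
    rw [hset] at ht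
    refine ht.trans ?_
    have hd5 : (2 : ℝ) ^ e ≤ 32 * |(d : ℝ)| := by
      have h1 : 2 ^ e ≤ 32 * d.natAbs := by
        calc 2 ^ e = 32 * 2 ^ (e - 5) := by
              rw [show (32 : ℕ) = 2 ^ 5 by norm_num, ← pow_add]
              congr 1
              omega
          _ ≤ 32 * d.natAbs := Nat.mul_le_mul_left _ hdbig.le
      rw [← hdn]
      exact_mod_cast h1
    have e1 : 2 * ((2 ^ (h + 1) * d.natAbs : ℕ) : ℝ) / 2 ^ (2 * n) = 4 * |(d : ℝ)| / 2 ^ e := by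
      push_cast
      rw [hdn, he2, pow_add (2 : ℝ) h e, pow_succ]
      field_simp
      ring
    rw [e1]
    have e2 : 4 * |(d : ℝ)| / 2 ^ e + 1 ≤ 40 * |(d : ℝ)| / 2 ^ e := by
      rw [div_add_one h2e.ne']
      apply div_le_div_of_nonneg_right _ h2e.le
      linarith only [hε0, hε16, hdabs, hd5]
    have e3 : 40 ≤ C := by
      rw [hC]
      have := Real.exp_pos ℓ
      linarith only [hε0, hε16, hC10, this]
    calc (4 * |(d : ℝ)| / 2 ^ e + 1) * (1 + lam) ^ (2 * n) ≤ (40 * |(d : ℝ)| / 2 ^ e) * (1 + lam) ^ (2 * n) :=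
          mul_le_mul_of_nonneg_right e2 hlamn.le
      _ ≤ (C * |(d : ℝ)| * Real.exp (κ * e) / 2 ^ e) * (1 + lam) ^ (2 * n) := by
          apply mul_le_mul_of_nonneg_right _ hlamn.le
          apply div_le_div_of_nonneg_right _ h2e.le
          calc 40 * |(d : ℝ)| ≤ C * |(d : ℝ)| := mul_le_mul_of_nonneg_right e3 (abs_nonneg _)
            _ = C * |(d : ℝ)| * 1 := by ring
            _ ≤ C * |(d : ℝ)| * Real.exp (κ * e) := by
                apply mul_le_mul_of_nonneg_left hκe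
                positivity
      _ = _ := by ring
  -- core
  have hdn0 : 0 < d.natAbs := Int.natAbs_pos.2 hd0
  have hdle : d.natAbs ≤ 2 ^ (e - 5) := not_lt.1 hdbig
  obtain ⟨hV1, hV16, hV32⟩ := x15b_nat3 he5 hdn0 hdle rfl
  generalize 2 ^ (e - 4) / d.natAbs = V at hV1 hV16 hV32
  have hVd16 : 16 * (V * |(d : ℝ)|) ≤ 2 ^ e := by
    rw [← hdn]
    exact_mod_cast hV16
  have hVlow : (2 : ℝ) ^ e ≤ 32 * |(d : ℝ)| * V := by
    rw [← hdn]
    exact_mod_cast hV32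
  -- R, K, J
  set R : ℕ := e / G + 3 with hR
  set K : ℕ := ⌊ω * R / 2⌋₊ with hK
  have hK1 : ω * R / 2 ≤ (K : ℝ) + 1 := (Nat.lt_floor_add_one _).le
  have hK2 : (K : ℝ) ≤ ω * R / 2 := Nat.floor_le (by positivity)
  obtain ⟨hR1, hRG1, hRG2, hRe', hRGpos⟩ := x15b_nat1 hG1 hR
  have hRG2r : (R : ℝ) * G ≤ e + 3 * G := by exact_mod_cast hRG2
  have hRe : (e : ℝ) ≤ R * G := by exact_mod_cast hRe'
  set J : ℕ := (n - n / 2) / (R * G) with hJ
  obtain ⟨hdec, hJn, hJle⟩ := x15b_nat2 hRGpos hJ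
  clear_value J R
  have hJlow : (h : ℝ) / 8 ≤ J * (R * G) := by
    have h3 : (n : ℝ) ≤ 2 * (J * (R * G) + R * G) := by exact_mod_cast hJn
    have h4 : (h : ℝ) ≤ 2 * n := by exact_mod_cast hn2h
    have h5 : ε * h ≤ 1 / 16 * h := mul_le_mul_of_nonneg_right hε16 (by positivity)
    linarith only [hG, hq0, hε0, hε16, hhrG, hn2, her, hRG2r, h3, h5]
  have hJup : (J : ℝ) ≤ h := by exact_mod_cast hJle.trans hn2h'
  set B : ℝ := Real.exp (κ / 8 * (G * R)) with hB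
  have hBall : ∀ K' ≤ 2 * K, (1 + Qf G * y) ^ R / y ^ K' ≤ B := by
    intro K' hK'
    apply hyB
    have h1 : (K' : ℝ) ≤ 2 * K := by exact_mod_cast hK'
    linarith only [hK2, h1]
  set τ : ℝ := Real.exp (-(2 / (Qf G : ℝ) ^ 2)) ^ (K + 1) with hτ
  set π : ℝ := 2 ^ R * ((1 + lam ^ 2) / (1 + lam) ^ 2) ^ (G * (K + 1)) with hπ
  have hτ1 : τ ≤ Real.exp (-(c1 * R)) := by
    have h1 := x15b_tau (ω := ω) (R := R) (K := K) hQ0 hK1
    refine h1.trans (Real.exp_le_exp.2 (neg_le_neg ?_))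
    exact mul_le_mul_of_nonneg_right (min_le_left _ _) (Nat.cast_nonneg _)
  have hπ1 : π ≤ Real.exp (-(c1 * R)) := by
    have h1 := x15b_pi (ω := ω) (G := G) (R := R) (K := K) ha0 hK1 hGa
    rw [← hβa] at h1
    refine h1.trans (Real.exp_le_exp.2 (neg_le_neg ?_))
    exact mul_le_mul_of_nonneg_right (min_le_right _ _) (Nat.cast_nonneg _)
  have hτ0 : 0 ≤ τ := by positivity
  have hπ0 : 0 ≤ π := by positivity
  have hc1R : 2 ≤ c1 * R := by
    have h1 : c1 * (ε * h) ≤ c1 * (R * G) := mul_le_mul_of_nonneg_left (heε.trans hRe) hc10.le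
    have h2 : 2 * (G : ℝ) ≤ c1 * R * G := by linarith only [hc1h, h1]
    exact le_of_mul_le_mul_right h2 (by positivity)
  have hpow := x15b_pow (x := τ + π) (h := h) (g := G) (R := R) (J := J) hc10 (by linarith only [hτ0, hπ0]) (by linarith only [hτ1, hπ1]) hc1R
    (by positivity) hJlow
  obtain ⟨hτπ1, hτπJ⟩ := hpow
  have hexpε : Real.exp (ε / 2 * h) ≤ 2 ^ e := by
    rw [x15b_two]
    apply Real.exp_le_exp.2
    have : 1 / 2 * (e : ℝ) ≤ Real.log 2 * e := mul_le_mul_of_nonneg_right hlog2 he0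
    linarith only [hn1, her, this]
  have hmain := hcore h hh1 n e R K J ((n - n / 2) % (R * G)) he2 hn2h' hdec hR1 hRG1 hexpε y B hy0 hy1 hBall τ π rfl rfl hτπ1
    d hd V hV1 hVd16 s0
  refine hmain.trans ?_
  -- the three terms
  have hVr : (0 : ℝ) < V := by exact_mod_cast hV1
  have t1 : J * B / V ≤ 32 * C1 * |(d : ℝ)| * Real.exp (κ * e) / 2 ^ e := by
    have h1 : J * B ≤ C1 * Real.exp (κ * e) := by
      have hB' : B ≤ Real.exp (κ / 8 * (e + 3 * G)) := by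
        rw [hB]
        apply Real.exp_le_exp.2
        apply mul_le_mul_of_nonneg_left _ (by positivity)
        linarith only [hRG2r]
      have h2 := x15b_lin (h := h) (e := e) (g := 3 * G) hκ hε0 heε he0
      calc J * B ≤ h * Real.exp (κ / 8 * (e + 3 * G)) :=
            mul_le_mul hJup hB' (Real.exp_pos _).le (by positivity)
        _ ≤ C1 * Real.exp (κ * e) := h2
    rw [div_le_div_iff₀ hVr h2e]
    calc J * B * 2 ^ e ≤ (C1 * Real.exp (κ * e)) * (32 * |(d : ℝ)| * V) :=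
          mul_le_mul h1 hVlow h2e.le (by positivity)
      _ = 32 * C1 * |(d : ℝ)| * Real.exp (κ * e) * V := by ring
  have t2 : (τ + π) ^ J ≤ 4 / 2 ^ e := by
    refine hτπJ.trans ?_
    rw [x15b_two, x15b_four, ← Real.exp_sub]
    apply Real.exp_le_exp.2
    have h1 : Real.log 2 * (e - 2) ≤ 1 * (ε * h) := by
      apply mul_le_mul hlog2' (by linarith only [hn2, her]) _ zero_le_one
      have : (5 : ℝ) ≤ e := by exact_mod_cast he5
      linarith only [hε0, hε16, hεh5, hn1, her]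
    have h2 : ε * h ≤ c * h := mul_le_mul_of_nonneg_right hεc (by positivity)
    have h3 : c1 / (16 * G) * h = c * h := rfl
    rw [h3]
    linarith only [h1, h2]
  have t3 : 2 ^ e * r ^ (2 * (n / 2)) ≤ 16 * Real.exp ℓ / 2 ^ e := by
    have h1 : r ^ (2 * (n / 2)) ≤ Real.exp (-(ℓ * (h / 2 - 1))) := by
      rw [hrℓ, ← Real.exp_nat_mul]
      apply Real.exp_le_exp.2
      have h2 : (n : ℝ) ≤ ((2 * (n / 2) : ℕ) : ℝ) + 1 := by
        have : n ≤ 2 * (n / 2) + 1 := by omega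
        exact_mod_cast this
      have h3 : (h : ℝ) ≤ 2 * n := by exact_mod_cast hn2h
      have h4 : (h : ℝ) / 2 - 1 ≤ ((2 * (n / 2) : ℕ) : ℝ) := by linarith only [hε0, hε16, hεh5, hn1, h2]
      have h5 : ℓ * (h / 2 - 1) ≤ ℓ * ((2 * (n / 2) : ℕ) : ℝ) := mul_le_mul_of_nonneg_left h4 hℓ0.le
      rw [mul_neg]
      linarith only [h5]
    rw [x15b_sixteen, ← Real.exp_add, x15b_two, ← Real.exp_sub]
    rw [← x15b_two e]
    calc (2 : ℝ) ^ e * r ^ (2 * (n / 2)) ≤ 2 ^ e * Real.exp (-(ℓ * (h / 2 - 1))) :=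
          mul_le_mul_of_nonneg_left h1 h2e.le
      _ = Real.exp (Real.log 2 * e - ℓ * (h / 2 - 1)) := by
          rw [x15b_two, ← Real.exp_add]
          congr 1
      _ ≤ _ := by
          apply Real.exp_le_exp.2
          have h6 : Real.log 2 * (e - 2) ≤ 1 * (ε * h) := by
            apply mul_le_mul hlog2' (by linarith only [hn2, her]) _ zero_le_one
            have : (5 : ℝ) ≤ e := by exact_mod_cast he5
            linarith only [hε0, hε16, hεh5, hn1, her]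
          have h7 : ε * h ≤ ℓ / 4 * h := mul_le_mul_of_nonneg_right hεℓ (by positivity)
          linarith only [h6, h7]
  have hsum3 : J * B / V + ((τ + π) ^ J + 2 ^ e * r ^ (2 * (n / 2))) ≤
      (32 * C1 + (4 + 16 * Real.exp ℓ)) * (|(d : ℝ)| * Real.exp (κ * e) / 2 ^ e) := by
    have hw : 1 / 2 ^ e ≤ |(d : ℝ)| * Real.exp (κ * e) / 2 ^ e := by
      apply div_le_div_of_nonneg_right _ h2e.le
      calc (1 : ℝ) = 1 * 1 := by ring
        _ ≤ |(d : ℝ)| * Real.exp (κ * e) := mul_le_mul hdabs hκe zero_le_one (abs_nonneg _)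
    have h23 : (τ + π) ^ J + 2 ^ e * r ^ (2 * (n / 2)) ≤ (4 + 16 * Real.exp ℓ) * (1 / 2 ^ e) := by
      calc (τ + π) ^ J + 2 ^ e * r ^ (2 * (n / 2)) ≤ 4 / 2 ^ e + 16 * Real.exp ℓ / 2 ^ e := add_le_add t2 t3
        _ = _ := by ring
    have h24 : (4 + 16 * Real.exp ℓ) * (1 / 2 ^ e) ≤
        (4 + 16 * Real.exp ℓ) * (|(d : ℝ)| * Real.exp (κ * e) / 2 ^ e) :=
      mul_le_mul_of_nonneg_left hw (by positivity)
    calc J * B / V + ((τ + π) ^ J + 2 ^ e * r ^ (2 * (n / 2)))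
        ≤ 32 * C1 * |(d : ℝ)| * Real.exp (κ * e) / 2 ^ e +
          (4 + 16 * Real.exp ℓ) * (|(d : ℝ)| * Real.exp (κ * e) / 2 ^ e) := add_le_add t1 (h23.trans h24)
      _ = _ := by ring
  calc 2 * (1 + lam) ^ (2 * n) * (J * B / V + ((τ + π) ^ J + 2 ^ e * r ^ (2 * (n / 2))))
      ≤ 2 * (1 + lam) ^ (2 * n) * ((32 * C1 + (4 + 16 * Real.exp ℓ)) *
        (|(d : ℝ)| * Real.exp (κ * e) / 2 ^ e)) := mul_le_mul_of_nonneg_left hsum3 (by positivity)
    _ = (64 * C1 + 2 * (4 + 16 * Real.exp ℓ)) * (|(d : ℝ)| * Real.exp (κ * e) / 2 ^ e) * (1 + lam) ^ (2 * n) := by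
        ring
    _ ≤ C * (|(d : ℝ)| * Real.exp (κ * e) / 2 ^ e) * (1 + lam) ^ (2 * n) := by
        apply mul_le_mul_of_nonneg_right _ hlamn.le
        apply mul_le_mul_of_nonneg_right _ (by positivity)
        rw [hC]
        linarith only [hε0, hε16]
    _ = _ := by ring

end Pool.Agent.Lib.MP_d0d59f_nt.PX

end

section

/-! Row px-X18: number of bad integers. -/

namespace Pool.Agent.Lib.MP_d0d59f_nt.PX

open Finset
open Pool.Agent.Lib.MP_b27257_nt.BT (st ee)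

theorem x18_pow_ge {k : ℕ} (hk : 6 ≤ k) : 8 * k + 4 ≤ 2 ^ k := by
  induction k, hk using Nat.le_induction with
  | base => norm_num
  | succ k hk ih =>
    rw [pow_succ]
    omega

theorem x18_gg_ge {N h : ℕ} (hN : 21 ≤ N) : h / 2 ≤ PW.gg N h := by
  unfold PW.gg
  rw [Nat.le_div_iff_mul_le (by omega)]
  have h1 : h / 2 * 2 ≤ h := Nat.div_mul_le_self h 2
  nlinarith only [h1, hN]

theorem x18_four_le {N h : ℕ} (hN : 21 ≤ N) (hh : 12 ≤ h) : 4 * h ≤ 2 ^ PW.gg N h := by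
  have h1 : 6 ≤ h / 2 := by omega
  have h2 := x18_pow_ge h1
  have h3 : 2 ^ (h / 2) ≤ 2 ^ PW.gg N h := Nat.pow_le_pow_right (by norm_num) (x18_gg_ge hN)
  omega

theorem x18_gap (N h : ℕ) : (h : ℝ) - PW.gg N h ≤ h / (N + 1) + 1 := by
  have h1 : N * h < (PW.gg N h + 1) * (N + 1) := by
    unfold PW.gg
    have h0 := Nat.lt_div_mul_add (a := N * h) (b := N + 1) (by omega)
    rw [add_mul, one_mul]
    exact h0
  have h2 : (N : ℝ) * h < (PW.gg N h + 1) * (N + 1) := by exact_mod_cast h1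
  have hN : (0 : ℝ) < (N : ℝ) + 1 := by positivity
  rw [← sub_nonneg]
  have : (h : ℝ) / (N + 1) + 1 - (h - PW.gg N h) =
      ((PW.gg N h + 1) * (N + 1) - N * h) / (N + 1) := by
    field_simp
    ring
  rw [this]
  apply div_nonneg _ hN.le
  linarith only [h2]

theorem x18_finite (B : ℤ) : {z : ℤ | |z| ≤ B}.Finite := by
  refine (Set.finite_Icc (-B) B).subset ?_
  intro z hz
  exact abs_le.mp hz

theorem x18_trivial {d : ℤ} (hd : d ≠ 0) (h : ℕ) (S : Set ℤ) (hS : ∀ z ∈ S, PW.ht d z = h) :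
    (S.ncard : ℝ) ≤ 2 ^ (h + 2) * |(d : ℝ)| := by
  have h1 : S ⊆ ((Finset.Ioo (-(2 ^ (h + 1) * |d|)) (2 ^ (h + 1) * |d|) : Finset ℤ) : Set ℤ) := by
    intro z hz
    have := PW.abs_lt_of_ht hd z
    rw [hS z hz] at this
    rw [Finset.coe_Ioo]
    exact abs_lt.mp this
  have h2 := Set.ncard_le_ncard h1 (Finset.finite_toSet _)
  rw [Set.ncard_coe_finset, Int.card_Ioo] at h2
  have hdp : 0 < |d| := abs_pos.mpr hd
  have h3 : ((2 ^ (h + 1) * |d| - -(2 ^ (h + 1) * |d|) - 1).toNat : ℤ) ≤ 2 ^ (h + 2) * |d| := by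
    have : 0 < 2 ^ (h + 1) * |d| := by positivity
    rw [Int.toNat_of_nonneg (by linarith only [this])]
    rw [pow_succ 2 (h + 1)]
    linarith only []
  have h4 : (S.ncard : ℤ) ≤ 2 ^ (h + 2) * |d| := le_trans (by exact_mod_cast h2) h3
  exact_mod_cast h4

theorem x18_ones {d : ℤ} (hd : Odd d) {N h m : ℕ} (hN : 21 ≤ N) (hh : 12 ≤ h) (hm : m ≤ 2 * h) {z : ℤ}
    (hz : PW.ht d z = h) (hb : isBad2 d N z) :
    rho0 * ((m : ℝ) + PW.gg N h - h - 2) ≤ ones d z m := by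
  have h1 : 1 ≤ PW.gg N h := PW.one_le_gg (by omega) (by omega)
  have h2 := ones_of_high (m := m) hd h1 hz
    (fun k hk => by
      have := hb k (by rw [hz]; omega)
      rwa [hz] at this)
    (by have := x18_four_le hN hh; omega)
  have h3 : (2 : ℝ) ^ (m + PW.gg N h) ≤ 3 ^ ones d z m * 2 ^ (h + 2) := by exact_mod_cast h2
  have h4 := Real.log_le_log (by positivity) h3
  rw [Real.log_mul (by positivity) (by positivity), Real.log_pow, Real.log_pow, Real.log_pow] at h4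
  push_cast at h4
  have h5 : 0 < Real.log 3 := Real.log_pos (by norm_num)
  unfold rho0
  rw [div_mul_eq_mul_div, div_le_iff₀ h5]
  linarith only [h4]

/-- `κ = (log 2 - H)/2`, `H = binEntropy rho0`, `lam = lam0`. Let `h ≥ h0(N)` large, `g = gg N h` (`4 h ≤ 2^g`),
`m = 2 n ≤ 2 h` from `count_ones`. A bad `z` of height `h` has `3^(ones d z m) ≥ 2^(m + g - h - 2)` (`ones_of_high`),
so `ones ≥ s0 = ⌈rho0 (m + g - h - 2)⌉` and the number is at most
`C |d| exp(m log (1+lam) - s0 log lam - (log 2 - κ) (m - h))`; `s0 ≥ rho0 (m - (h - g) - 2)`,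
`h - g ≤ h/(N+1) + 1`, `entropy_eq`: `≤ C' |d| exp(H m + rho0 (log lam) h/(N+1) - (log 2 - κ) (m - h))
≤ C'' |d| exp(H h - (log 2 - κ - H) ε h + C1 h/(N+1))`, `δ = (log 2 - H) ε/2`. For `h < h0(N)` the constant
(`#{z : ht d z = h} ≤ 2^(h+2) |d| + 1`). -/
theorem bad2_count (hRid : RidoutProp) : ∃ δ C1 : ℝ, 0 < δ ∧ 0 ≤ C1 ∧ ∀ N : ℕ, 21 ≤ N → ∃ C : ℝ, 0 ≤ C ∧ ∀ d : ℤ, Odd d → ∀ h : ℕ,
    (Set.ncard {z : ℤ | PW.ht d z = h ∧ isBad2 d N z} : ℝ) ≤
      C * |(d : ℝ)| * Real.exp ((Real.binEntropy rho0 - δ + C1 / (N + 1)) * h) := by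
  have hent := entropy_lt
  have hκ0 : 0 < (Real.log 2 - Real.binEntropy rho0) / 2 := by linarith only [hent]
  obtain ⟨ε, C0, h0, hε, hε1, hC0, hmain⟩ := count_ones hRid one_le_lam0 hκ0
  obtain ⟨κ, hκ⟩ : ∃ κ, κ = (Real.log 2 - Real.binEntropy rho0) / 2 := ⟨_, rfl⟩
  rw [← hκ] at hmain hκ0
  obtain ⟨L, hL⟩ : ∃ L, L = Real.log lam0 := ⟨_, rfl⟩
  have hL0 : 0 ≤ L := by rw [hL]; exact Real.log_nonneg one_le_lam0
  have hrho := rho0_pos
  have hlam0 : 0 < lam0 := lt_of_lt_of_le one_pos one_le_lam0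
  refine ⟨κ * ε, rho0 * L, by positivity, by positivity, fun N hN => ?_⟩
  obtain ⟨E, hE⟩ : ∃ E, E = Real.binEntropy rho0 - κ * ε + rho0 * L / (N + 1) := ⟨_, rfl⟩
  rw [← hE]
  refine ⟨C0 * Real.exp (3 * κ + 3 * (rho0 * L)) +
    ∑ h ∈ range (max h0 12), 2 ^ (h + 2) * Real.exp (-(E * h)), by positivity, fun d hd h => ?_⟩
  have hd0 : d ≠ 0 := by
    intro h0
    rw [h0] at hd
    exact absurd hd (by decide)
  have hdp : (0 : ℝ) ≤ |(d : ℝ)| := abs_nonneg _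
  rw [add_mul, add_mul]
  by_cases hh : h < max h0 12
  · have h1 := x18_trivial hd0 h {z : ℤ | PW.ht d z = h ∧ isBad2 d N z} (fun z hz => hz.1)
    refine h1.trans ?_
    have h2 : 2 ^ (h + 2) * Real.exp (-(E * h)) ≤
        ∑ h ∈ range (max h0 12), 2 ^ (h + 2) * Real.exp (-(E * h)) :=
      Finset.single_le_sum (f := fun h : ℕ => (2 : ℝ) ^ (h + 2) * Real.exp (-(E * h)))
        (fun i _ => by positivity) (Finset.mem_range.mpr hh)
    have h3 : (2 : ℝ) ^ (h + 2) * |(d : ℝ)| =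
        2 ^ (h + 2) * Real.exp (-(E * h)) * |(d : ℝ)| * Real.exp (E * h) := by
      have : Real.exp (-(E * h)) * Real.exp (E * h) = 1 := by
        rw [← Real.exp_add]; simp
      calc (2 : ℝ) ^ (h + 2) * |(d : ℝ)| = 2 ^ (h + 2) * |(d : ℝ)| * 1 := by ring
        _ = _ := by rw [← this]; ring
    have h4 : 2 ^ (h + 2) * Real.exp (-(E * h)) * |(d : ℝ)| * Real.exp (E * h) ≤
        (∑ h ∈ range (max h0 12), 2 ^ (h + 2) * Real.exp (-(E * h))) * |(d : ℝ)| * Real.exp (E * h) := by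
      gcongr
    rw [h3]
    refine h4.trans ?_
    have : 0 ≤ C0 * Real.exp (3 * κ + 3 * (rho0 * L)) * |(d : ℝ)| * Real.exp (E * h) := by positivity
    linarith only [this]
  · push Not at hh
    have hh0 : h0 ≤ h := le_trans (le_max_left _ _) hh
    have hh12 : 12 ≤ h := le_trans (le_max_right _ _) hh
    obtain ⟨n, hn1, hn2, hn3, hn4, hn5⟩ := hmain h hh0
    obtain ⟨s0, hs0⟩ : ∃ s0, s0 = ⌈rho0 * (((2 * n : ℕ) : ℝ) + PW.gg N h - h - 2)⌉₊ := ⟨_, rfl⟩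
    have h1 := hn5 d hd s0
    have h2 : (Set.ncard {z : ℤ | PW.ht d z = h ∧ isBad2 d N z} : ℝ) ≤
        Set.ncard {z : ℤ | |z| ≤ 2 ^ (h + 1) * |d| ∧ s0 ≤ ones d z (2 * n)} := by
      have hsub : {z : ℤ | PW.ht d z = h ∧ isBad2 d N z} ⊆
          {z : ℤ | |z| ≤ 2 ^ (h + 1) * |d| ∧ s0 ≤ ones d z (2 * n)} := by
        rintro z ⟨hz1, hz2⟩
        refine ⟨?_, ?_⟩
        · have := PW.abs_lt_of_ht hd0 z
          rw [hz1] at this
          exact this.le
        · rw [hs0]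
          exact Nat.ceil_le.mpr (x18_ones hd hN hh12 hn4 hz1 hz2)
      have hfin : {z : ℤ | |z| ≤ 2 ^ (h + 1) * |d| ∧ s0 ≤ ones d z (2 * n)}.Finite :=
        (x18_finite (2 ^ (h + 1) * |d|)).subset (fun z hz => hz.1)
      exact_mod_cast Set.ncard_le_ncard hsub hfin
    have h3 : Real.exp (rho0 * L * (2 * (n : ℝ) + PW.gg N h - h - 2)) ≤ lam0 ^ s0 := by
      have h31 : (rho0 * (((2 * n : ℕ) : ℝ) + PW.gg N h - h - 2)) ≤ s0 := by
        rw [hs0]; exact Nat.le_ceil _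
      push_cast at h31
      rw [← Real.exp_log (pow_pos hlam0 s0), Real.log_pow, ← hL]
      apply Real.exp_le_exp.mpr
      nlinarith only [hε, hε1, hL0, h31]
    have h4 : (1 + lam0) ^ (2 * n) = Real.exp (2 * (n : ℝ) * (Real.binEntropy rho0 + rho0 * L)) := by
      have h41 := entropy_eq
      rw [← hL] at h41
      have h42 : Real.binEntropy rho0 + rho0 * L = Real.log (1 + lam0) := by linarith only [h41]
      rw [h42]
      have : (0 : ℝ) < (1 + lam0) ^ (2 * n) := by positivity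
      rw [← Real.exp_log this, Real.log_pow]
      push_cast
      ring_nf
    have h5 : (Set.ncard {z : ℤ | PW.ht d z = h ∧ isBad2 d N z} : ℝ) *
        Real.exp (rho0 * L * (2 * (n : ℝ) + PW.gg N h - h - 2)) ≤
        C0 * |(d : ℝ)| * (Real.exp (2 * (n : ℝ) * (Real.binEntropy rho0 + rho0 * L)) *
          Real.exp (-(Real.log 2 - κ) * (2 * (n : ℝ) - h))) := by
      refine (mul_le_mul h2 h3 (by positivity) (by positivity)).trans (h1.trans (le_of_eq ?_))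
      rw [h4]
      ring
    rw [← Real.exp_add] at h5
    have h6 : (Set.ncard {z : ℤ | PW.ht d z = h ∧ isBad2 d N z} : ℝ) ≤
        C0 * |(d : ℝ)| * Real.exp (2 * (n : ℝ) * (Real.binEntropy rho0 + rho0 * L) +
          -(Real.log 2 - κ) * (2 * (n : ℝ) - h) - rho0 * L * (2 * (n : ℝ) + PW.gg N h - h - 2)) := by
      rw [Real.exp_sub, mul_div_assoc', le_div_iff₀ (Real.exp_pos _)]
      exact h5
    have h7 : 2 * (n : ℝ) * (Real.binEntropy rho0 + rho0 * L) +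
          -(Real.log 2 - κ) * (2 * (n : ℝ) - h) - rho0 * L * (2 * (n : ℝ) + PW.gg N h - h - 2) ≤
        (3 * κ + 3 * (rho0 * L)) + E * h := by
      have h71 := x18_gap N h
      have h72 : rho0 * L * ((h : ℝ) - PW.gg N h) ≤ rho0 * L * (h / (N + 1) + 1) :=
        mul_le_mul_of_nonneg_left h71 (by positivity)
      have h73 : κ * ((1 + ε) * h - 3) ≤ κ * (2 * (n : ℝ)) := mul_le_mul_of_nonneg_left hn1 hκ0.le
      have h74 : E * h = Real.binEntropy rho0 * h - κ * ε * h + rho0 * L * (h / (N + 1)) := by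
        rw [hE]; ring
      have h75 : Real.log 2 = 2 * κ + Real.binEntropy rho0 := by rw [hκ]; ring
      rw [h74, h75]
      nlinarith only [h72, h73]
    have h8 : (Set.ncard {z : ℤ | PW.ht d z = h ∧ isBad2 d N z} : ℝ) ≤
        C0 * |(d : ℝ)| * Real.exp ((3 * κ + 3 * (rho0 * L)) + E * h) :=
      h6.trans (mul_le_mul_of_nonneg_left (Real.exp_le_exp.mpr h7) (by positivity))
    rw [Real.exp_add] at h8
    have h9 : 0 ≤ (∑ h ∈ range (max h0 12), 2 ^ (h + 2) * Real.exp (-(E * h))) * |(d : ℝ)| *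
        Real.exp (E * h) := by positivity
    calc (Set.ncard {z : ℤ | PW.ht d z = h ∧ isBad2 d N z} : ℝ) ≤
        C0 * |(d : ℝ)| * (Real.exp (3 * κ + 3 * (rho0 * L)) * Real.exp (E * h)) := h8
      _ = C0 * Real.exp (3 * κ + 3 * (rho0 * L)) * |(d : ℝ)| * Real.exp (E * h) := by ring
      _ ≤ _ := by linarith only [h9]

end Pool.Agent.Lib.MP_d0d59f_nt.PX

end
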