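import Pool.Agent.Lib.MP_d0d59f_nt.PZ.K013

section

/-! Row B1 (about 200 lines): paths of the accelerated map. -/

namespace Pool.Agent.Lib.MP_d0d59f_nt.AA

open Finset

theorem isPath_odd_left {d : ℤ} {e : List ℕ} {N M : ℤ} (h : isPath d e N M) : Odd N := by
  induction e generalizing M with
  | nil => exact h.1
  | cons a e ih =>
    obtain ⟨M', h1, _⟩ := h
    exact ih h1

theorem isPath_odd_right {d : ℤ} {e : List ℕ} {N M : ℤ} (h : isPath d e N M) : Odd M := by
  cases e with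
  | nil =>
    obtain ⟨h1, h2⟩ := h
    rw [h2]
    exact h1
  | cons a e =>
    obtain ⟨M', _, _, _, h4⟩ := h
    exact h4

theorem isPath_pos {d : ℤ} {e : List ℕ} {N M : ℤ} (h : isPath d e N M) : ∀ a ∈ e, 1 ≤ a := by
  induction e generalizing M with
  | nil => simp
  | cons a e ih =>
    obtain ⟨M', h1, h2, _⟩ := h
    intro b hb
    rcases List.mem_cons.mp hb with rfl | hb
    · exact h2
    · exact ih h1 b hb

/-- Induction on `e`: `2^{a+|e|} M = 2^{|e|}(3 M' + d) = 3(3^n N + d cc e) + d 2^{|e|}`. -/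
theorem isPath_identity {d : ℤ} {e : List ℕ} {N M : ℤ} (h : isPath d e N M) :
    2 ^ e.sum * M = 3 ^ e.length * N + d * (cc e : ℤ) := by
  induction e generalizing M with
  | nil =>
    obtain ⟨_, h2⟩ := h
    simp [cc, h2]
  | cons a e ih =>
    obtain ⟨M', h1, _, h3, _⟩ := h
    have h := ih h1
    simp only [List.sum_cons, List.length_cons, cc]
    push_cast
    calc (2 : ℤ) ^ (a + e.sum) * M = 2 ^ e.sum * (2 ^ a * M) := by rw [pow_add]; ring
      _ = 3 * (2 ^ e.sum * M') + d * 2 ^ e.sum := by rw [h3]; ring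
      _ = 3 ^ (e.length + 1) * N + d * (2 ^ e.sum + 3 * (cc e : ℤ)) := by rw [h]; ring

/-- For odd `M'` with `2^a M = 3M' + d`, `a ≥ 1`: `T^a M' = M`. -/
theorem b1_step {d : ℤ} (hd : Odd d) {a : ℕ} {M M' : ℤ} (ha : 1 ≤ a) (hM' : Odd M')
    (h : 2 ^ a * M = 3 * M' + d) : (T d)^[a] M' = M := by
  have hhalf : ∀ j : ℕ, (T d)^[j] (2 ^ j * M) = M := by
    intro j
    induction j with
    | zero => simp
    | succ j ih =>
      rw [Function.iterate_succ_apply]
      have h0 : (2 : ℤ) ^ (j + 1) * M % 2 = 0 := by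
        rw [pow_succ]
        have : (2 : ℤ) ^ j * 2 * M = 2 * (2 ^ j * M) := by ring
        rw [this]
        exact Int.mul_emod_right 2 _
      have h1 := T_even (d := d) h0
      have h2 : T d (2 ^ (j + 1) * M) = 2 ^ j * M := by
        have h3 : (2 : ℤ) ^ (j + 1) * M = 2 * (2 ^ j * M) := by rw [pow_succ]; ring
        rw [h3] at h1 ⊢
        linarith
      rw [h2, ih]
  obtain ⟨b, rfl⟩ : ∃ b, a = b + 1 := ⟨a - 1, by omega⟩
  rw [Function.iterate_succ_apply]
  have h1 := T_odd hd (Int.odd_iff.mp hM')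
  have h2 : T d M' = 2 ^ b * M := by
    rw [← h, pow_succ] at h1
    have h3 : (2 : ℤ) ^ b * 2 * M = 2 * (2 ^ b * M) := by ring
    rw [h3] at h1
    linarith
  rw [h2, hhalf b]

/-- Induction on `e`. For odd `M'` with `2^a M = 3M' + d`, `a ≥ 1`: `T^a M' = M`, since
`T M' = (3M'+d)/2 = 2^{a-1} M` and then `a - 1` halvings. (`Function.iterate_add_apply`.) -/
theorem isPath_iterate {d : ℤ} (hd : Odd d) {e : List ℕ} {N M : ℤ} (h : isPath d e N M) :
    (T d)^[e.sum] N = M := by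
  induction e generalizing M with
  | nil =>
    obtain ⟨_, h2⟩ := h
    simp [h2]
  | cons a e ih =>
    obtain ⟨M', h1, h2, h3, _⟩ := h
    rw [List.sum_cons, Function.iterate_add_apply, ih h1]
    exact b1_step hd h2 (isPath_odd_right h1) h3

/-- the odd part -/
theorem b1_oddpart {x : ℤ} (hx : x ≠ 0) (he : Even x) :
    ∃ (a : ℕ) (M : ℤ), 1 ≤ a ∧ 2 ^ a * M = x ∧ Odd M := by
  have h1 : x.natAbs ≠ 0 := Int.natAbs_ne_zero.mpr hx
  obtain ⟨a, m, hm, hxm⟩ := Nat.exists_eq_two_pow_mul_odd h1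
  refine ⟨a, x.sign * m, ?_, ?_, ?_⟩
  · by_contra ha
    have ha0 : a = 0 := by omega
    rw [ha0, pow_zero, one_mul] at hxm
    have h2 : Even x.natAbs := Int.natAbs_even.mpr he
    rw [hxm] at h2
    exact (Nat.not_even_iff_odd.mpr hm) h2
  · calc (2 : ℤ) ^ a * (x.sign * m) = x.sign * ((2 ^ a * m : ℕ) : ℤ) := by push_cast; ring
      _ = x.sign * (x.natAbs : ℤ) := by rw [← hxm]
      _ = x := Int.sign_mul_natAbs x
  · have h3 : Odd x.sign := by
      rcases lt_or_gt_of_ne hx with h | h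
      · rw [Int.sign_eq_neg_one_of_neg h]; decide
      · rw [Int.sign_eq_one_of_pos h]; exact odd_one
    exact h3.mul ((Int.odd_coe_nat m).mpr hm)

/-- Induction on `n`: `3M' + d ≠ 0` as `3 ∤ d`, and it is even; write it as `2^a M` with `M` odd
(`Int.exists_eq_pow_mul_and_not_dvd` or `padicValInt`, `Nat.exists_eq_two_pow_mul_odd`). -/
theorem exists_path {d : ℤ} (hd : Odd d) (h3 : ¬ (3 : ℤ) ∣ d) {N : ℤ} (hN : Odd N) (n : ℕ) :
    ∃ (e : List ℕ) (M : ℤ), e.length = n ∧ isPath d e N M := by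
  induction n with
  | zero => exact ⟨[], N, rfl, hN, rfl⟩
  | succ n ih =>
    obtain ⟨e, M', hl, hp⟩ := ih
    have h0 : 3 * M' + d ≠ 0 := by
      intro h
      exact h3 ⟨-M', by linarith⟩
    have hev : Even (3 * M' + d) := by
      have h1 : Odd (3 * M') := (by decide : Odd (3 : ℤ)).mul (isPath_odd_right hp)
      exact h1.add_odd hd
    obtain ⟨a, M, ha, hM, hodd⟩ := b1_oddpart h0 hev
    exact ⟨a :: e, M, by simp [hl], M', hp, ha, hM, hodd⟩

theorem b1_pow_inj {a a' : ℕ} {M M' : ℤ} (hM : Odd M) (hM' : Odd M')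
    (h : (2 : ℤ) ^ a * M = 2 ^ a' * M') : a = a' ∧ M = M' := by
  have key : ∀ {a a' : ℕ} {M M' : ℤ}, Odd M → Odd M' → (2 : ℤ) ^ a * M = 2 ^ a' * M' →
      ¬ a < a' := by
    intro a a' M M' hM _ h hlt
    obtain ⟨c, rfl⟩ : ∃ c, a' = a + (c + 1) := ⟨a' - a - 1, by omega⟩
    rw [pow_add, mul_assoc] at h
    have h1 : M = 2 ^ (c + 1) * M' := mul_left_cancel₀ (pow_ne_zero a two_ne_zero) h
    rw [h1, pow_succ] at hM
    have h2 : Even ((2 : ℤ) ^ c * 2 * M') := by
      rw [show (2 : ℤ) ^ c * 2 * M' = 2 * (2 ^ c * M') by ring]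
      exact even_two_mul _
    exact (Int.not_even_iff_odd.mpr hM) h2
  have e : a = a' := by
    have h1 := key hM hM' h
    have h2 := key hM' hM h.symm
    omega
  subst e
  exact ⟨rfl, mul_left_cancel₀ (pow_ne_zero a two_ne_zero) h⟩

/-- Induction on `e`; `2^a M = 2^{a'} M'` with `M, M'` odd gives `a = a'`. -/
theorem isPath_unique {d : ℤ} {e e' : List ℕ} {N M M' : ℤ} (h : isPath d e N M)
    (h' : isPath d e' N M') (hl : e.length = e'.length) : e = e' ∧ M = M' := by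
  induction e generalizing e' M M' with
  | nil =>
    cases e' with
    | nil =>
      obtain ⟨_, h2⟩ := h
      obtain ⟨_, h2'⟩ := h'
      exact ⟨rfl, by rw [h2, h2']⟩
    | cons a e' => simp at hl
  | cons a e ih =>
    cases e' with
    | nil => simp at hl
    | cons a' e' =>
      obtain ⟨P, h1, _, h3, h4⟩ := h
      obtain ⟨P', h1', _, h3', h4'⟩ := h'
      obtain ⟨he, hP⟩ := ih h1 h1' (by simpa using hl)
      subst he
      subst hP
      obtain ⟨ha, hM⟩ := b1_pow_inj h4 h4' (h3.trans h3'.symm)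
      exact ⟨by rw [ha], hM⟩

/-- Induction on `e` generalizing `M`. `[]`: `M = N`. `a :: e`: the hypothesis is
`2^{a+|e|} M = 3^{n+1} N + d 2^{|e|} + 3 d cc e`, so `3 ∣ 2^{|e|}(2^a M - d)`, so `2^a M - d = 3 M'`, and
`2^{|e|} M' = 3^n N + d cc e`; `M'` is odd as `3M' = 2^a M - d` is odd (`a ≥ 1`). -/
theorem isPath_of_identity {d : ℤ} (hd : Odd d) {e : List ℕ} (he : ∀ a ∈ e, 1 ≤ a) {N M : ℤ}
    (hM : Odd M) (h : 2 ^ e.sum * M = 3 ^ e.length * N + d * (cc e : ℤ)) : isPath d e N M := by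
  induction e generalizing M with
  | nil =>
    simp only [List.sum_nil, pow_zero, one_mul, List.length_nil, cc, Nat.cast_zero, mul_zero,
      add_zero] at h
    subst h
    exact ⟨hM, rfl⟩
  | cons a e ih =>
    simp only [List.sum_cons, List.length_cons, cc] at h
    push_cast at h
    have ha : 1 ≤ a := he a (by simp)
    have hdvd : (3 : ℤ) ∣ 2 ^ e.sum * (2 ^ a * M - d) := by
      refine ⟨3 ^ e.length * N + d * (cc e : ℤ), ?_⟩
      have h1 : (2 : ℤ) ^ e.sum * (2 ^ a * M - d) = 2 ^ (a + e.sum) * M - d * 2 ^ e.sum := by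
        rw [pow_add]; ring
      rw [h1, h]
      ring
    have hcop : IsCoprime (3 : ℤ) (2 ^ e.sum) :=
      IsCoprime.pow_right (by norm_num : IsCoprime (3 : ℤ) 2)
    obtain ⟨M', hM'⟩ := hcop.dvd_of_dvd_mul_left hdvd
    have h3 : 2 ^ a * M = 3 * M' + d := by linarith
    have hodd : Odd M' := by
      obtain ⟨b, rfl⟩ : ∃ b, a = b + 1 := ⟨a - 1, by omega⟩
      have hev : Even ((2 : ℤ) ^ (b + 1) * M) := by
        rw [pow_succ, show (2 : ℤ) ^ b * 2 * M = 2 * (2 ^ b * M) by ring]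
        exact even_two_mul _
      rw [h3] at hev
      by_contra hne
      rw [Int.not_odd_iff_even] at hne
      have h5 : Even (3 * M') := hne.mul_left 3
      have h6 : Odd (3 * M' + d) := h5.add_odd hd
      exact (Int.not_even_iff_odd.mpr h6) hev
    refine ⟨M', ih (fun b hb => he b (by simp [hb])) hodd ?_, ha, h3, hM⟩
    have h7 : (3 : ℤ) * (2 ^ e.sum * M') = 3 * (3 ^ e.length * N + d * (cc e : ℤ)) := by
      have h8 : (2 : ℤ) ^ (a + e.sum) * M = 2 ^ e.sum * (3 * M' + d) := by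
        rw [← h3, pow_add]; ring
      rw [h8] at h
      have h9 : (2 : ℤ) ^ e.sum * (3 * M' + d) = 3 * (2 ^ e.sum * M') + d * 2 ^ e.sum := by ring
      rw [h9] at h
      have h10 : (3 : ℤ) ^ (e.length + 1) * N + d * (2 ^ e.sum + 3 * (cc e : ℤ))
          = 3 * (3 ^ e.length * N + d * (cc e : ℤ)) + d * 2 ^ e.sum := by ring
      rw [h10] at h
      linarith
    exact mul_left_cancel₀ three_ne_zero h7

end Pool.Agent.Lib.MP_d0d59f_nt.AA

end

section

/-! Row pw-Q24a: orbits between odd elements are words. -/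

namespace Pool.Agent.Lib.MP_d0d59f_nt.PW

open Finset

/-- If `w` is odd, `T^t w = y` odd, there is a word `α` with `isPath d α w y` and sum `t`: induction on `t`
(strong): for `t > 0` the first step from `w` is `3 w + d = 2^a w'` with `w'` odd, `a ≤ t` (`AA.b1_step`,
`AA.b1_oddpart`, `AA.exists_path`), `T^a w = w'`; `isPath d (a' :: e)` peels off the LAST step in time, so use
`AA.exists_path` for the number of steps needed, or an append lemma. Note `3 w + d ≠ 0` (`3` does not divide `d`). -/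
theorem exists_word {d : ℤ} (hd : Odd d) (h3 : ¬ (3 : ℤ) ∣ d) {w y : ℤ} {t : ℕ} (hw : Odd w) (hy : Odd y)
    (h : (T d)^[t] w = y) : ∃ α : List ℕ, AA.isPath d α w y ∧ α.sum = t := by
  classical
  induction t using Nat.strong_induction_on generalizing y with
  | _ t ih =>
    rcases Nat.eq_zero_or_pos t with h0 | hpos
    · subst h0
      exact ⟨[], ⟨hw, by simpa using h.symm⟩, rfl⟩
    · have hne : ((Finset.range t).filter (fun s => Odd ((T d)^[s] w))).Nonempty :=
        ⟨0, by simp [hpos, hw]⟩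
      obtain ⟨s, hs, hmax⟩ := Finset.exists_max_image _ id hne
      rw [Finset.mem_filter, Finset.mem_range] at hs
      obtain ⟨hst, hodd⟩ := hs
      have hmax' : ∀ j, s < j → j < t → ¬ Odd ((T d)^[j] w) := by
        intro j hj hjt ho
        have := hmax j (by rw [Finset.mem_filter, Finset.mem_range]; exact ⟨hjt, ho⟩)
        simp only [id] at this
        omega
      obtain ⟨e, hpe, hse⟩ := ih s hst hodd rfl
      set M' := (T d)^[s] w with hM'
      have hne0 : 3 * M' + d ≠ 0 := by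
        intro h0
        exact h3 ⟨-M', by linarith⟩
      have hev : Even (3 * M' + d) := by
        have h31 : Odd (3 * M') := Odd.mul (by decide) hodd
        exact h31.add_odd hd
      obtain ⟨a, M, ha, haM, hMo⟩ := AA.b1_oddpart hne0 hev
      have hit : ∀ j, 1 ≤ j → j ≤ a → (T d)^[s + j] w = 2 ^ (a - j) * M := by
        intro j hj1 hja
        rw [add_comm, Function.iterate_add_apply, ← hM']
        apply AA.b1_step hd hj1 hodd
        rw [← mul_assoc, ← pow_add, Nat.add_sub_cancel' hja]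
        exact haM
      have hta : s + a = t := by
        rcases lt_trichotomy (s + a) t with hlt | heq | hgt
        · exfalso
          have h1 := hit a ha le_rfl
          rw [Nat.sub_self, pow_zero, one_mul] at h1
          apply hmax' (s + a) (by omega) hlt
          rw [h1]
          exact hMo
        · exact heq
        · exfalso
          have h1 := hit (t - s) (by omega) (by omega)
          rw [Nat.add_sub_cancel' hst.le, h] at h1
          have h2 : Even y := by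
            rw [h1]
            apply Even.mul_right
            exact (even_two).pow_of_ne_zero (by omega)
          exact (Int.not_even_iff_odd.mpr hy) h2
      have hMy : M = y := by
        have h1 := hit a ha le_rfl
        rw [Nat.sub_self, pow_zero, one_mul, hta, h] at h1
        exact h1.symm
      refine ⟨a :: e, ⟨M', hpe, ha, ?_, hy⟩, ?_⟩
      · rw [← hMy]
        exact haM
      · rw [List.sum_cons, hse]
        omega

/-- Prefixes of a word are paths to the same end `y`, from an element of the orbit of `w`: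
`isPath d (α.take i) z y` with `T^(s) w = z`, `s = (α.drop i).sum`. Induction on `i`/`α`; `AA.isPath_iterate`. -/
theorem path_take {d : ℤ} (hd : Odd d) {α : List ℕ} {w y : ℤ} (h : AA.isPath d α w y) (i : ℕ)
    (hi : i ≤ α.length) : ∃ z : ℤ, AA.isPath d (α.take i) z y ∧ (T d)^[(α.drop i).sum] w = z := by
  induction α generalizing y i with
  | nil =>
    have hi0 : i = 0 := by simpa using hi
    subst hi0
    exact ⟨y, ⟨AA.isPath_odd_right h, rfl⟩, by simpa using h.2.symm⟩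
  | cons a e ih =>
    rcases i with _ | i
    · exact ⟨y, ⟨AA.isPath_odd_right h, rfl⟩, by simpa using AA.isPath_iterate hd h⟩
    · obtain ⟨M', h1, h2, h3, h4⟩ := h
      obtain ⟨z, hz1, hz2⟩ := ih h1 i (by simpa using hi)
      exact ⟨z, ⟨M', hz1, h2, h3, h4⟩, by simpa using hz2⟩

end Pool.Agent.Lib.MP_d0d59f_nt.PW

end

section

/-! Row px-X21: the barrier from the heights (compare PW/Q24b). -/

namespace Pool.Agent.Lib.MP_d0d59f_nt.PX

open Finset
open Pool.Agent.Lib.MP_b27257_nt.BT (st ee)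
open PW (ht le_ht_iff abs_lt_of_ht q24b_cc path_take lbar)

/-- The size estimate `2 |d| (N+1) 2^e ≤ |y|`. -/
theorem x21_size {d : ℤ} (hd : d ≠ 0) {M : ℕ} (hM : 42 ≤ M) {y : ℤ}
    (hsize : 64 * (M + 1) ≤ 2 ^ (ht d y / 2)) :
    2 * (|(d : ℝ)| * ((M + 1) * 2 ^ (2 * ht d y / (M - 1) + 4))) ≤ |(y : ℝ)| := by
  set h := ht d y with hh
  have hh1 : 1 ≤ h := by
    by_contra hcon
    have h0 : h = 0 := by omega
    rw [h0] at hsize
    norm_num at hsize
    omega
  have hy : 2 ^ h * |d| ≤ |y| := (le_ht_iff hd hh1).mp le_rfl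
  have hyr : (2 : ℝ) ^ h * |(d : ℝ)| ≤ |(y : ℝ)| := by exact_mod_cast hy
  have hs : (64 : ℝ) * (M + 1) ≤ 2 ^ (h / 2) := by exact_mod_cast hsize
  have hdiv : 2 * h / (M - 1) ≤ h / 2 := by
    have e1 : 2 * h / (M - 1) ≤ 2 * h / 4 := Nat.div_le_div_left (by omega) (by norm_num)
    omega
  have hdp : (0 : ℝ) ≤ |(d : ℝ)| := abs_nonneg _
  have hkey : (2 : ℝ) * ((M + 1) * 2 ^ (2 * h / (M - 1) + 4)) ≤ 2 ^ h := by
    have e1 : (2 : ℝ) ^ (2 * h / (M - 1)) ≤ 2 ^ (h / 2) := pow_le_pow_right₀ (by norm_num) hdiv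
    have e2 : (2 : ℝ) ^ (h / 2) * 2 ^ (h / 2) ≤ 2 ^ h := by
      rw [← pow_add]
      exact pow_le_pow_right₀ (by norm_num) (by omega)
    have e3 : (0 : ℝ) ≤ (M : ℝ) + 1 := by positivity
    have e4 : (0 : ℝ) ≤ 2 ^ (2 * h / (M - 1)) := by positivity
    have e5 : (64 : ℝ) * (M + 1) * 2 ^ (2 * h / (M - 1)) ≤ 2 ^ (h / 2) * 2 ^ (h / 2) :=
      mul_le_mul hs e1 e4 (by positivity)
    rw [pow_add]
    norm_num
    nlinarith
  have h6 : |(d : ℝ)| * (2 * ((M + 1) * 2 ^ (2 * h / (M - 1) + 4))) ≤ |(d : ℝ)| * 2 ^ h :=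
    mul_le_mul_of_nonneg_left hkey hdp
  nlinarith

/-- Comparison of the sizes of a node and the root. -/
theorem x21_node {d : ℤ} (hd : d ≠ 0) {M : ℕ} (hM : 42 ≤ M) {y z : ℤ}
    (hsize : 64 * (M + 1) ≤ 2 ^ (ht d y / 2)) {β : List ℕ} (hp : AA.isPath d β z y)
    (hcc : (AA.cc β : ℝ) ≤ (M + 1) * 2 ^ (2 * ht d y / (M - 1) + 4) * 2 ^ β.sum) :
    (3 : ℝ) ^ β.length * |(z : ℝ)| ≤ 2 * (2 ^ β.sum * |(y : ℝ)|) ∧
      (2 : ℝ) ^ β.sum * |(y : ℝ)| ≤ 2 * 3 ^ β.length * |(z : ℝ)| := by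
  have hid := AA.isPath_identity hp
  have hidr : (2 : ℝ) ^ β.sum * (y : ℝ) = 3 ^ β.length * (z : ℝ) + (d : ℝ) * (AA.cc β : ℝ) := by
    exact_mod_cast hid
  have hsz := x21_size hd hM hsize
  set P : ℝ := (M + 1) * 2 ^ (2 * ht d y / (M - 1) + 4) with hP
  have hdp : (0 : ℝ) ≤ |(d : ℝ)| := abs_nonneg _
  have h2 : (0 : ℝ) < 2 ^ β.sum := by positivity
  have h3 : (0 : ℝ) < 3 ^ β.length := by positivity
  have hdc : 2 * |(d : ℝ) * (AA.cc β : ℝ)| ≤ 2 ^ β.sum * |(y : ℝ)| := by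
    rw [abs_mul, Nat.abs_cast]
    have a1 : |(d : ℝ)| * (AA.cc β : ℝ) ≤ |(d : ℝ)| * (P * 2 ^ β.sum) :=
      mul_le_mul_of_nonneg_left hcc hdp
    have a2 : 2 * (|(d : ℝ)| * P) * 2 ^ β.sum ≤ |(y : ℝ)| * 2 ^ β.sum :=
      mul_le_mul_of_nonneg_right hsz h2.le
    nlinarith
  have e1 : (2 : ℝ) ^ β.sum * |(y : ℝ)| = |3 ^ β.length * (z : ℝ) + (d : ℝ) * (AA.cc β : ℝ)| := by
    rw [← hidr, abs_mul, abs_of_pos h2]
  have e2 : (3 : ℝ) ^ β.length * |(z : ℝ)| = |3 ^ β.length * (z : ℝ)| := by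
    rw [abs_mul, abs_of_pos h3]
  have e3 : |3 ^ β.length * (z : ℝ) + (d : ℝ) * (AA.cc β : ℝ)| ≤
      |3 ^ β.length * (z : ℝ)| + |(d : ℝ) * (AA.cc β : ℝ)| := abs_add_le _ _
  have e4 : |3 ^ β.length * (z : ℝ)| ≤
      |3 ^ β.length * (z : ℝ) + (d : ℝ) * (AA.cc β : ℝ)| + |(d : ℝ) * (AA.cc β : ℝ)| := by
    have := abs_add_le (3 ^ β.length * (z : ℝ) + (d : ℝ) * (AA.cc β : ℝ))
      (-((d : ℝ) * (AA.cc β : ℝ)))
    rw [abs_neg] at this
    have e5 : 3 ^ β.length * (z : ℝ) + (d : ℝ) * (AA.cc β : ℝ) + -((d : ℝ) * (AA.cc β : ℝ)) =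
      3 ^ β.length * (z : ℝ) := by ring
    rw [e5] at this
    exact this
  constructor
  · rw [e2]
    linarith
  · have : 2 * 3 ^ β.length * |(z : ℝ)| = 2 * (3 ^ β.length * |(z : ℝ)|) := by ring
    rw [this, e2]
    linarith

/-- The barrier inequality for one prefix. -/
theorem x21_step {d : ℤ} (hd : d ≠ 0) {M : ℕ} (hM : 42 ≤ M) {y z : ℤ}
    (hsize : 64 * (M + 1) ≤ 2 ^ (ht d y / 2)) {n s : ℕ}
    (hz : (3 : ℝ) ^ n * |(z : ℝ)| ≤ 2 * (2 ^ s * |(y : ℝ)|))
    (hh : s + (M - 2) * ht d y ≤ M * ht d z) :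
    3 ^ (M * n) ≤ 2 ^ ((M - 1) * (2 * ht d y / (M - 1) + 4 + s)) := by
  set h := ht d y with hhdef
  have hh1 : 1 ≤ h := by
    by_contra hcon
    have h0 : h = 0 := by omega
    rw [h0] at hsize
    norm_num at hsize
    omega
  have hz1 : 1 ≤ ht d z := by
    by_contra hcon
    have h0 : ht d z = 0 := by omega
    rw [h0] at hh
    have : 1 * 1 ≤ (M - 2) * h := Nat.mul_le_mul (by omega) hh1
    omega
  have hzl : 2 ^ (ht d z) * |d| ≤ |z| := (le_ht_iff hd hz1).mp le_rfl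
  have hyu := abs_lt_of_ht hd y
  rw [← hhdef] at hyu
  have hzl' : (2 : ℝ) ^ (ht d z) * |(d : ℝ)| ≤ |(z : ℝ)| := by exact_mod_cast hzl
  have hyu' : |(y : ℝ)| < 2 ^ (h + 1) * |(d : ℝ)| := by exact_mod_cast hyu
  have hdp : (0 : ℝ) < |(d : ℝ)| := abs_pos.mpr (by exact_mod_cast hd)
  have hmain : (3 : ℝ) ^ n * 2 ^ (ht d z) ≤ 2 ^ (s + h + 2) := by
    have a1 : (3 : ℝ) ^ n * (2 ^ (ht d z) * |(d : ℝ)|) ≤ 3 ^ n * |(z : ℝ)| :=
      mul_le_mul_of_nonneg_left hzl' (by positivity)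
    have a2 : (2 : ℝ) ^ s * |(y : ℝ)| ≤ 2 ^ s * (2 ^ (h + 1) * |(d : ℝ)|) :=
      mul_le_mul_of_nonneg_left hyu'.le (by positivity)
    have a3 : (3 : ℝ) ^ n * 2 ^ (ht d z) * |(d : ℝ)| ≤ 2 ^ (s + h + 2) * |(d : ℝ)| := by
      calc (3 : ℝ) ^ n * 2 ^ (ht d z) * |(d : ℝ)| = 3 ^ n * (2 ^ (ht d z) * |(d : ℝ)|) := by ring
        _ ≤ 2 * (2 ^ s * (2 ^ (h + 1) * |(d : ℝ)|)) := by linarith
        _ = 2 ^ (s + h + 2) * |(d : ℝ)| := by ring
    exact le_of_mul_le_mul_right a3 hdp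
  have hnat : 3 ^ n * 2 ^ (ht d z) ≤ 2 ^ (s + h + 2) := by exact_mod_cast hmain
  have hpow := Nat.pow_le_pow_left hnat M
  rw [mul_pow, ← pow_mul, ← pow_mul, ← pow_mul] at hpow
  -- 3^(n M) 2^(ht z M) ≤ 2^((s+h+2) M)
  have h4 : 3 ^ (n * M) * 2 ^ (s + (M - 2) * h) ≤ 2 ^ ((s + h + 2) * M) := by
    refine le_trans (Nat.mul_le_mul_left _ (Nat.pow_le_pow_right (by norm_num) ?_)) hpow
    rw [Nat.mul_comm (ht d z) M]
    exact hh
  obtain ⟨K, rfl⟩ : ∃ K, M = K + 2 := ⟨M - 2, by omega⟩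
  have hK1 : K + 2 - 1 = K + 1 := by omega
  have hK2 : K + 2 - 2 = K := by omega
  rw [hK2] at h4
  rw [hK1]
  have h5 : (s + h + 2) * (K + 2) = ((K + 1) * s + 2 * h + 2 * (K + 2)) + (s + K * h) := by ring
  rw [h5, pow_add 2 ((K + 1) * s + 2 * h + 2 * (K + 2))] at h4
  have h6 : 3 ^ (n * (K + 2)) ≤ 2 ^ ((K + 1) * s + 2 * h + 2 * (K + 2)) :=
    Nat.le_of_mul_le_mul_right h4 (by positivity)
  rw [Nat.mul_comm (K + 2) n]
  refine le_trans h6 (Nat.pow_le_pow_right (by norm_num) ?_)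
  have h7 : (K + 1) * (2 * h / (K + 1)) + 2 * h % (K + 1) = 2 * h := Nat.div_add_mod _ _
  have h8 : 2 * h % (K + 1) < K + 1 := Nat.mod_lt _ (by omega)
  have h9 : (K + 1) * (2 * h / (K + 1) + 4 + s) =
    (K + 1) * (2 * h / (K + 1)) + 4 * (K + 1) + (K + 1) * s := by ring
  rw [h9]
  omega

/-- As `PW.bar_of_heights` with `N := M`, `e = 2 h/(M-1) + 4` (`2 h/(M-1) ≤ h/20` for `M ≥ 42`):
`3^(M i) 2^(M ht z_i) ≤ 2^(M (s_i + h + 2))`, `M ht z_i ≥ s_i + (M-2) h`, so
`3^(M i) ≤ 2^((M-1) s_i + 2 h + 2 M) ≤ 2^((M-1)(s_i + e))`. -/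
theorem bar_of_heights2 {d : ℤ} (hd : Odd d) (h3 : ¬ (3 : ℤ) ∣ d) {M : ℕ} (hM : 42 ≤ M) {w y : ℤ}
    (hsize : 64 * (M + 1) ≤ 2 ^ (PW.ht d y / 2)) {α : List ℕ} (hp : AA.isPath d α w y)
    (hh : ∀ i ≤ α.length, ∀ z : ℤ, AA.isPath d (α.take i) z y →
      (α.take i).sum + (M - 2) * PW.ht d y ≤ M * PW.ht d z) :
    PW.lbar M (2 * PW.ht d y / (M - 1) + 4) α ∧
      (2 : ℝ) ^ α.sum * |(y : ℝ)| ≤ 2 * 3 ^ α.length * |(w : ℝ)| := by
  have hd0 : d ≠ 0 := by
    rintro rfl
    exact h3 (dvd_zero _)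
  have hpos := AA.isPath_pos hp
  -- offsets and barrier for the prefixes
  have key : ∀ i ≤ α.length, (∀ j ≤ i, 3 ^ (M * j) ≤
        2 ^ ((M - 1) * (2 * ht d y / (M - 1) + 4 + (α.take j).sum))) ∧
      (AA.cc (α.take i) : ℝ) ≤
        (M + 1) * 2 ^ (2 * ht d y / (M - 1) + 4) * 2 ^ (α.take i).sum := by
    intro i
    induction i with
    | zero =>
      intro _
      refine ⟨?_, ?_⟩
      · intro j hj
        have : j = 0 := by omega
        subst this
        rw [Nat.mul_zero, pow_zero]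
        exact Nat.one_le_pow _ _ (by norm_num)
      · simp only [List.take_zero, AA.cc, Nat.cast_zero]
        positivity
    | succ i ih =>
      intro hi
      obtain ⟨ih1, ih2⟩ := ih (by omega)
      have hi' : i < α.length := by omega
      have htake : α.take (i + 1) = α.take i ++ [α[i]] := by
        rw [List.take_add_one, List.getElem?_eq_getElem hi']
        rfl
      have hlb : lbar M (2 * ht d y / (M - 1) + 4) (α.take i) := by
        intro j hj
        have hj' : j ≤ i := by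
          rw [List.length_take] at hj
          omega
        have h1 := ih1 j hj'
        rw [List.take_take, Nat.min_eq_left hj']
        exact h1
      have hcc : (AA.cc (α.take (i + 1)) : ℝ) ≤
          (M + 1) * 2 ^ (2 * ht d y / (M - 1) + 4) * 2 ^ (α.take (i + 1)).sum := by
        rw [htake]
        exact q24b_cc (by omega) (fun b hb => hpos b (List.mem_of_mem_take hb))
          (hpos _ (List.getElem_mem hi')) hlb
      refine ⟨?_, hcc⟩
      intro j hj
      rcases Nat.lt_or_ge j (i + 1) with hlt | hge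
      · exact ih1 j (by omega)
      · have hji : j = i + 1 := by omega
        subst hji
        obtain ⟨z, hz, _⟩ := path_take hd hp (i + 1) hi
        have hnode := (x21_node hd0 hM hsize hz hcc).1
        have hlen : (α.take (i + 1)).length = i + 1 := by
          rw [List.length_take]
          omega
        rw [hlen] at hnode
        exact x21_step hd0 hM hsize hnode (hh (i + 1) hi z hz)
  obtain ⟨k1, k2⟩ := key α.length le_rfl
  rw [List.take_length] at k2
  exact ⟨fun j hj => k1 j hj, (x21_node hd0 hM hsize hp k2).2⟩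

end Pool.Agent.Lib.MP_d0d59f_nt.PX

end
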