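import Pool.Agent.Lib.MP_d0d59f_nt.PZ.K004
import Pool.Agent.Lib.MP_d0d59f_nt.PZ.K008
import Pool.Agent.Lib.MP_d0d59f_nt.PZ.K009

/-! Row C4 (about 200 lines): `L¹` bound for the words with a front in a set `Φ`. -/

namespace Pool.Agent.Lib.MP_d0d59f_nt.AA

open Finset

/-- transform of a push-forward -/
theorem c4_transform {ι : Type*} (K : ℕ) (S : Finset ι) (g : ι → ZMod (3 ^ K)) (c : ℝ)
    (ξ : ZMod (3 ^ K)) :
    ∑ Y : ZMod (3 ^ K), ((c * ((S.filter fun p => g p = Y).card : ℝ) : ℝ) : ℂ) * ps K (ξ * Y) =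
      (c : ℂ) * ∑ p ∈ S, ps K (ξ * g p) := by
  rw [← Finset.sum_fiberwise S g (fun p => ps K (ξ * g p)), Finset.mul_sum]
  apply Finset.sum_congr rfl
  intro Y _
  have h : ∑ p ∈ S with g p = Y, ps K (ξ * g p) = ∑ p ∈ S with g p = Y, ps K (ξ * Y) := by
    apply Finset.sum_congr rfl
    intro p hp
    rw [(Finset.mem_filter.1 hp).2]
  rw [h, Finset.sum_const, nsmul_eq_mul]
  push_cast
  ring

/-- the offsets of the fronts are distinct -/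
theorem c4_distinct {d : ℤ} (h3 : ¬ (3 : ℤ) ∣ d) (K t s : ℕ)
    (Φ : Finset (List ℕ)) (hΦ : ∀ e ∈ Φ, e ∈ comps t s ∧ cc e < 3 ^ (K + 1))
    (Y : ZMod (3 ^ (K + 1))) :
    (Φ.filter fun e => (d : ZMod (3 ^ (K + 1))) *
      (i2 (K + 1) ^ s * (cc e : ZMod (3 ^ (K + 1)))) = Y).card ≤ 1 := by
  rw [Finset.card_le_one]
  intro a ha b hb
  rw [Finset.mem_filter] at ha hb
  have h1 : (d : ZMod (3 ^ (K + 1))) * (i2 (K + 1) ^ s * (cc a : ZMod (3 ^ (K + 1)))) =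
    (d : ZMod (3 ^ (K + 1))) * (i2 (K + 1) ^ s * (cc b : ZMod (3 ^ (K + 1)))) := ha.2.trans hb.2.symm
  have hdu : IsUnit (d : ZMod (3 ^ (K + 1))) := by
    have h2 : IsCoprime d (3 : ℤ) := by
      have h4 : IsCoprime (3 : ℤ) d := (Int.prime_three.coprime_iff_not_dvd).2 h3
      exact h4.symm
    have h5 : IsCoprime d ((3 : ℤ) ^ (K + 1)) := h2.pow_right
    obtain ⟨u, v, huv⟩ := h5
    refine IsUnit.of_mul_eq_one (u : ZMod (3 ^ (K + 1))) ?_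
    have h6 := congrArg (fun z : ℤ => (z : ZMod (3 ^ (K + 1)))) huv
    push_cast at h6
    have h7 : (3 : ZMod (3 ^ (K + 1))) ^ (K + 1) = 0 := by
      have := ZMod.natCast_self (3 ^ (K + 1))
      push_cast at this
      exact this
    rw [h7, mul_zero, add_zero] at h6
    rw [mul_comm]
    exact h6
  have hiu : IsUnit (i2 (K + 1) ^ s) :=
    IsUnit.of_mul_eq_one _ ((mul_comm _ _).trans (two_pow_mul_i2_pow (K + 1) s))
  have h2 := hiu.mul_left_cancel (hdu.mul_left_cancel h1)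
  have h3' : cc a = cc b := by
    have h4 := (ZMod.natCast_eq_natCast_iff' (cc a) (cc b) (3 ^ (K + 1))).1 h2
    rwa [Nat.mod_eq_of_lt (hΦ a ha.1).2, Nat.mod_eq_of_lt (hΦ b hb.1).2] at h4
  exact cc_inj (hΦ a ha.1).1 (hΦ b hb.1).1 h3'

/-- Fourier transform of `F Y = 2^{-l} #{(e1,e2) ∈ Φ × comps (n-t) (l-s) : hz (e1 ++ e2) = Y}`:
by `hz_append` it is `A(ξ) · bh d r (K+1) (n-t) (l-s) (3^t i2^s ξ)`,
`A(ξ) = 2^{-s} ∑_{e1 ∈ Φ} ps(ξ d i2^s cc e1)`; so on the frequencies with `3^K ξ ≠ 0` it is at most `b |A(ξ)|`.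
By `l1_pr_le` and `plancherel` (for `a Y = 2^{-s} #{e1 ∈ Φ : d i2^s cc e1 = Y}`, whose transform is `A`),
the left side is `≤ b sqrt(∑_ξ |A ξ|²) = b sqrt(3^(K+1) ∑ a²)`. Finally `a ≤ 2^{-s}` pointwise: if
`d i2^s cc e1 = d i2^s cc e1'` then `cc e1 ≡ cc e1' mod 3^(K+1)` (`3 ∤ d`), both are `< 3^(K+1)`, so they are equal and
`e1 = e1'` (`cc_inj`); and `∑ a = 2^{-s} card Φ ≤ 2^{-s} card (comps t s) ≤ 1`. So `∑ a² ≤ 2^{-s}`. -/
theorem front_l1 {d : ℤ} (h3 : ¬ (3 : ℤ) ∣ d) (r : ℤ) (K n l t s : ℕ) (ht : t ≤ n) (hs : s ≤ l)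
    (Φ : Finset (List ℕ)) (hΦ : ∀ e ∈ Φ, e ∈ comps t s ∧ cc e < 3 ^ (K + 1)) (b : ℝ)
    (hb0 : 0 ≤ b)
    (hb : ∀ ξ : ZMod (3 ^ (K + 1)), (3 : ZMod (3 ^ (K + 1))) ^ K * ξ ≠ 0 →
      ‖bh d r (K + 1) (n - t) (l - s) (3 ^ t * i2 (K + 1) ^ s * ξ)‖ ≤ b)
    (F : ZMod (3 ^ (K + 1)) → ℝ)
    (hF : ∀ Y, F Y = (1 / 2 : ℝ) ^ l *
      (((Φ ×ˢ comps (n - t) (l - s)).filter fun p => hz d r (K + 1) (p.1 ++ p.2) = Y).card : ℝ)) :
    ∑ Y : ZMod (3 ^ (K + 1)), |F Y - pr K F Y| ≤ b * Real.sqrt (3 ^ (K + 1) / 2 ^ s) := by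
  classical
  set a : ZMod (3 ^ (K + 1)) → ℝ := fun Y => (1 / 2 : ℝ) ^ s * ((Φ.filter fun e =>
    (d : ZMod (3 ^ (K + 1))) * (i2 (K + 1) ^ s * (cc e : ZMod (3 ^ (K + 1)))) = Y).card : ℝ)
    with ha
  set A : ZMod (3 ^ (K + 1)) → ℂ := fun ξ => ∑ Y : ZMod (3 ^ (K + 1)),
    (a Y : ℂ) * ps (K + 1) (ξ * Y) with hA
  have hA' : ∀ ξ, A ξ = ((1 / 2 : ℝ) ^ s : ℝ) * ∑ e ∈ Φ, ps (K + 1) (ξ *
      ((d : ZMod (3 ^ (K + 1))) * (i2 (K + 1) ^ s * (cc e : ZMod (3 ^ (K + 1)))))) := by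
    intro ξ
    exact c4_transform (K + 1) Φ (fun e =>
      (d : ZMod (3 ^ (K + 1))) * (i2 (K + 1) ^ s * (cc e : ZMod (3 ^ (K + 1))))) ((1 / 2 : ℝ) ^ s) ξ
  have hFt : ∀ ξ, ∑ Y : ZMod (3 ^ (K + 1)), (F Y : ℂ) * ps (K + 1) (ξ * Y) =
      A ξ * bh d r (K + 1) (n - t) (l - s) (3 ^ t * i2 (K + 1) ^ s * ξ) := by
    intro ξ
    have h1 : ∑ Y : ZMod (3 ^ (K + 1)), (F Y : ℂ) * ps (K + 1) (ξ * Y) =
        (((1 / 2 : ℝ) ^ l : ℝ) : ℂ) * ∑ p ∈ Φ ×ˢ comps (n - t) (l - s),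
          ps (K + 1) (ξ * hz d r (K + 1) (p.1 ++ p.2)) := by
      rw [← c4_transform (K + 1) (Φ ×ˢ comps (n - t) (l - s))
        (fun p => hz d r (K + 1) (p.1 ++ p.2)) ((1 / 2 : ℝ) ^ l) ξ]
      apply Finset.sum_congr rfl
      intro Y _
      rw [hF Y]
    rw [h1, Finset.sum_product, hA' ξ]
    unfold bh
    have h2 : ∀ e1 ∈ Φ, ∑ e2 ∈ comps (n - t) (l - s), ps (K + 1) (ξ * hz d r (K + 1) (e1 ++ e2)) =
        ps (K + 1) (ξ * ((d : ZMod (3 ^ (K + 1))) *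
          (i2 (K + 1) ^ s * (cc e1 : ZMod (3 ^ (K + 1)))))) *
        ∑ e2 ∈ comps (n - t) (l - s),
          ps (K + 1) (3 ^ t * i2 (K + 1) ^ s * ξ * hz d r (K + 1) e2) := by
      intro e1 he1
      rw [Finset.mul_sum]
      apply Finset.sum_congr rfl
      intro e2 _
      have h3 := mem_comps.1 (hΦ e1 he1).1
      rw [hz_append, h3.1, h3.2.1, ← ps_add]
      congr 1
      ring
    rw [Finset.sum_congr rfl h2, ← Finset.sum_mul]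
    have h3 : ((1 / 2 : ℝ) ^ l : ℝ) = (1 / 2 : ℝ) ^ s * (1 / 2 : ℝ) ^ (l - s) := by
      rw [← pow_add]
      congr 1
      omega
    rw [h3]
    push_cast
    ring
  -- sum of squares of a
  have ha0 : ∀ Y, 0 ≤ a Y := fun Y => by simp only [ha]; positivity
  have ha1 : ∀ Y, a Y ≤ (1 / 2 : ℝ) ^ s := by
    intro Y
    have h1 : ((Φ.filter fun e => (d : ZMod (3 ^ (K + 1))) *
      (i2 (K + 1) ^ s * (cc e : ZMod (3 ^ (K + 1)))) = Y).card : ℝ) ≤ 1 := by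
      exact_mod_cast c4_distinct h3 K t s Φ hΦ Y
    calc a Y ≤ (1 / 2 : ℝ) ^ s * 1 := mul_le_mul_of_nonneg_left h1 (by positivity)
      _ = _ := mul_one _
  have ha2 : ∑ Y, a Y ≤ 1 := by
    have h1 : ∑ Y, a Y = (1 / 2 : ℝ) ^ s * (Φ.card : ℝ) := by
      simp only [ha]
      rw [← Finset.mul_sum]
      congr 1
      rw [← Nat.cast_sum]
      congr 1
      exact (Finset.card_eq_sum_card_fiberwise (fun e _ => Finset.mem_univ _)).symm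
    have h2 : Φ.card ≤ (comps t s).card := Finset.card_le_card fun e he => (hΦ e he).1
    have h4 : (Φ.card : ℝ) ≤ 2 ^ s := by exact_mod_cast h2.trans (card_comps_le t s)
    rw [h1]
    calc (1 / 2 : ℝ) ^ s * (Φ.card : ℝ) ≤ (1 / 2 : ℝ) ^ s * 2 ^ s :=
          mul_le_mul_of_nonneg_left h4 (by positivity)
      _ = 1 := by rw [← mul_pow]; norm_num
  have ha3 : ∑ Y, a Y ^ 2 ≤ (1 / 2 : ℝ) ^ s := by
    calc ∑ Y, a Y ^ 2 ≤ ∑ Y, (1 / 2 : ℝ) ^ s * a Y := by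
          apply Finset.sum_le_sum
          intro Y _
          rw [sq]
          exact mul_le_mul_of_nonneg_right (ha1 Y) (ha0 Y)
      _ = (1 / 2 : ℝ) ^ s * ∑ Y, a Y := by rw [Finset.mul_sum]
      _ ≤ (1 / 2 : ℝ) ^ s * 1 := mul_le_mul_of_nonneg_left ha2 (by positivity)
      _ = _ := mul_one _
  have hpl := plancherel (K + 1) a
  have h5 : (∑ ξ : ZMod (3 ^ (K + 1)), if (3 : ZMod (3 ^ (K + 1))) ^ K * ξ = 0 then (0 : ℝ)
      else ‖∑ Y : ZMod (3 ^ (K + 1)), (F Y : ℂ) * ps (K + 1) (ξ * Y)‖ ^ 2) ≤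
      b ^ 2 * (3 ^ (K + 1) / 2 ^ s) := by
    calc _ ≤ ∑ ξ : ZMod (3 ^ (K + 1)), b ^ 2 * ‖A ξ‖ ^ 2 := by
          apply Finset.sum_le_sum
          intro ξ _
          split_ifs with hξ
          · positivity
          · rw [hFt ξ, norm_mul, mul_pow, mul_comm]
            apply mul_le_mul_of_nonneg_right _ (by positivity)
            exact pow_le_pow_left₀ (norm_nonneg _) (hb ξ hξ) 2
      _ = b ^ 2 * ((3 : ℝ) ^ (K + 1) * ∑ Y, a Y ^ 2) := by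
          rw [← Finset.mul_sum, ← hpl]
      _ ≤ b ^ 2 * ((3 : ℝ) ^ (K + 1) * (1 / 2 : ℝ) ^ s) := by
          apply mul_le_mul_of_nonneg_left _ (by positivity)
          exact mul_le_mul_of_nonneg_left ha3 (by positivity)
      _ = _ := by
          rw [one_div, inv_pow, ← div_eq_mul_inv]
  refine (l1_pr_le K F).trans ?_
  calc _ ≤ Real.sqrt (b ^ 2 * (3 ^ (K + 1) / 2 ^ s)) := Real.sqrt_le_sqrt h5
    _ = b * Real.sqrt (3 ^ (K + 1) / 2 ^ s) := by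
        rw [Real.sqrt_mul (by positivity), Real.sqrt_sq hb0]

end Pool.Agent.Lib.MP_d0d59f_nt.AA
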