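import Pool.Agent.Lib.MP_d0d59f_nt.PZ.K020
import Pool.Agent.Lib.MP_d0d59f_nt.PZ.K021

/-! Row C5 (about 250 lines): decomposition of the words by their fronts. -/

namespace Pool.Agent.Lib.MP_d0d59f_nt.AA

open Finset

lemma c5_take_sum_mono (e : List ℕ) {t t' : ℕ} (h : t ≤ t') : (e.take t).sum ≤ (e.take t').sum := by
  obtain ⟨k, rfl⟩ := Nat.exists_eq_add_of_le h
  rw [List.take_add, List.sum_append]
  exact Nat.le_add_right _ _

lemma c5_front_lt {K L0 : ℕ} {e : List ℕ} {t t' : ℕ} (ht' : t' ≤ e.length)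
    (h : frontOK K L0 (e.take t)) (h' : frontOK K L0 (e.take t')) : ¬ t < t' := by
  intro hlt
  have h1 : (e.take t').dropLast = e.take (t' - 1) := by
    rw [List.dropLast_eq_take, List.take_take, List.length_take]
    congr 1
    omega
  have h2 := h'.2.1
  rw [h1] at h2
  have h3 := c5_take_sum_mono e (show t ≤ t' - 1 by omega)
  have h4 := h.1
  omega

/-- The front is unique: if `t < t'`, then `e.take t` is a prefix of `(e.take t').dropLast = e.take (t'-1)`, of sum
`≤ L0`. (`t, t' ≤ e.length`.) -/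
theorem front_unique {K L0 : ℕ} {e : List ℕ} {t t' : ℕ} (ht : t ≤ e.length) (ht' : t' ≤ e.length)
    (h : frontOK K L0 (e.take t)) (h' : frontOK K L0 (e.take t')) : t = t' := by
  have h1 := c5_front_lt ht' h h'
  have h2 := c5_front_lt ht h' h
  omega

lemma c5_pr_add (K : ℕ) (f g : ZMod (3 ^ (K + 1)) → ℝ) (Y : ZMod (3 ^ (K + 1))) :
    pr K (fun Y => f Y + g Y) Y = pr K f Y + pr K g Y := by
  unfold pr
  rw [Finset.sum_add_distrib, mul_add]

lemma c5_pr_sum (K : ℕ) {ι : Type*} (S : Finset ι) (f : ι → ZMod (3 ^ (K + 1)) → ℝ)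
    (Y : ZMod (3 ^ (K + 1))) :
    pr K (fun Y => ∑ i ∈ S, f i Y) Y = ∑ i ∈ S, pr K (f i) Y := by
  unfold pr
  rw [Finset.sum_comm, Finset.mul_sum]

/-- indicator identity for a single word -/
lemma c5_ind {K τ L0 h n l : ℕ} (hτ : τ ≤ n) {e : List ℕ} (he : e ∈ comps n l) (P : Prop)
    [Decidable P] :
    (if P then (1 : ℝ) else 0) =
      (∑ t ∈ Icc 1 τ, ∑ s ∈ Icc (L0 + 1) (L0 + h),
        (if ((e.take t).sum = s ∧ frontOK K L0 (e.take t)) ∧ P then (1 : ℝ) else 0))
      + (if ¬ good K τ L0 h e ∧ P then (1 : ℝ) else 0) := by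
  have hlen := (mem_comps.1 he).1
  by_cases hP : P
  · by_cases hg : good K τ L0 h e
    · obtain ⟨t0, ht0, hs0, hf0⟩ := id hg
      rw [Finset.sum_eq_single_of_mem t0 ht0]
      · rw [Finset.sum_eq_single_of_mem (e.take t0).sum]
        · simp [hP, hg, hf0]
        · rw [Finset.mem_Icc]
          exact ⟨hf0.1, hs0⟩
        · intro s _ hs
          rw [if_neg]
          rintro ⟨⟨h1, -⟩, -⟩
          exact hs h1.symm
      · intro t ht hne
        apply Finset.sum_eq_zero
        intro s _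
        rw [if_neg]
        rintro ⟨⟨-, h2⟩, -⟩
        rw [Finset.mem_Icc] at ht ht0
        exact hne (front_unique (by omega) (by omega) h2 hf0)
    · rw [Finset.sum_eq_zero, zero_add, if_pos hP, if_pos ⟨hg, hP⟩]
      intro t ht
      apply Finset.sum_eq_zero
      intro s hs
      rw [if_neg]
      rintro ⟨⟨h1, h2⟩, -⟩
      apply hg
      refine ⟨t, ht, ?_, h2⟩
      rw [h1]
      exact (Finset.mem_Icc.1 hs).2
  · simp [hP]

/-- the words with a given front, as pairs -/
lemma c5_pairs (d r : ℤ) {K L0 n l t s : ℕ} (ht : t ≤ n) (hs : s ≤ l) (Y : ZMod (3 ^ (K + 1))) :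
    ∑ e ∈ comps n l, (if ((e.take t).sum = s ∧ frontOK K L0 (e.take t)) ∧
        hz d r (K + 1) e = Y then (1 : ℝ) else 0) =
      (((((comps t s).filter (frontOK K L0)) ×ˢ comps (n - t) (l - s)).filter
        fun p => hz d r (K + 1) (p.1 ++ p.2) = Y).card : ℝ) := by
  obtain ⟨m, rfl⟩ := Nat.exists_eq_add_of_le ht
  rw [sum_comps_add, Nat.add_sub_cancel_left]
  rw [Finset.sum_eq_single_of_mem s (Finset.mem_range.2 (by omega))]
  · rw [Finset.card_filter, Finset.sum_product, Finset.sum_filter]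
    push_cast
    apply Finset.sum_congr rfl
    intro e1 he1
    have h1 := mem_comps.1 he1
    split_ifs with hf
    · apply Finset.sum_congr rfl
      intro e2 _
      have h2 : (e1 ++ e2).take t = e1 := by
        rw [← h1.1]; exact List.take_left
      rw [h2]
      simp [h1.2.1, hf]
    · apply Finset.sum_eq_zero
      intro e2 _
      have h2 : (e1 ++ e2).take t = e1 := by
        rw [← h1.1]; exact List.take_left
      rw [h2, if_neg]
      rintro ⟨⟨-, h3⟩, -⟩
      exact hf h3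
  · intro s' _ hs'
    apply Finset.sum_eq_zero
    intro e1 he1
    apply Finset.sum_eq_zero
    intro e2 _
    have h1 := mem_comps.1 he1
    have h2 : (e1 ++ e2).take t = e1 := by
      rw [← h1.1]; exact List.take_left
    rw [h2, if_neg]
    rintro ⟨⟨h3, -⟩, -⟩
    exact hs' (h1.2.1.symm.trans h3)

/-- for `s > l` there are no such words -/
lemma c5_empty (d r : ℤ) {K L0 n l t s : ℕ} (hs : l < s) (Y : ZMod (3 ^ (K + 1))) :
    ∑ e ∈ comps n l, (if ((e.take t).sum = s ∧ frontOK K L0 (e.take t)) ∧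
        hz d r (K + 1) e = Y then (1 : ℝ) else 0) = 0 := by
  apply Finset.sum_eq_zero
  intro e he
  rw [if_neg]
  rintro ⟨⟨h1, -⟩, -⟩
  have h2 := (mem_comps.1 he).2.1
  have h3 : (e.take t).sum ≤ e.sum := by
    conv_rhs => rw [← List.take_append_drop t e, List.sum_append]
    exact Nat.le_add_right _ _
  omega

/-- Fix `l ≤ L`. `comps n l` is the disjoint union of the bad words (`¬ good`) and, for `t ∈ [1,τ]`,
`s ∈ [L0+1, L0+h]`, of the words `e` with `e.take t ∈ Φ_{t,s} := (comps t s).filter (frontOK K L0)`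
(disjoint by `front_unique`; `s = (e.take t).sum > L0` is automatic). The map `e ↦ (e.take t, e.drop t)` is a bijection of
the latter onto `Φ_{t,s} × comps (n-t) (l-s)` (empty if `s > l`). So `pz d r (K+1) n l = ∑_{t,s} F_{t,s} + F_bad`
pointwise, `pr K` is linear, and by `front_l1` and `l1_pr_le_two`
`∑_Y |pz - pr pz| ≤ ∑_{t,s} b sqrt(3^(K+1)/2^s) + 2 ∑_Y F_bad Y`, `2^s ≥ 2^L0`, `∑_Y F_bad Y = 2^{-l} #{bad}`.
Sum over `l ≤ L` with `osc_succ_eq`. -/
theorem osc_front {d : ℤ} (h3 : ¬ (3 : ℤ) ∣ d) (r : ℤ) (K n τ L0 h L : ℕ) (hτ : τ ≤ n) (b : ℝ)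
    (hb0 : 0 ≤ b)
    (hb : ∀ t ∈ Icc 1 τ, ∀ s ∈ Icc (L0 + 1) (L0 + h), ∀ l ≤ L, s ≤ l →
      ∀ ξ : ZMod (3 ^ (K + 1)), (3 : ZMod (3 ^ (K + 1))) ^ K * ξ ≠ 0 →
      ‖bh d r (K + 1) (n - t) (l - s) (3 ^ t * i2 (K + 1) ^ s * ξ)‖ ≤ b) :
    osc d r (K + 1) K n L ≤ ((L : ℝ) + 1) * τ * h * (b * Real.sqrt (3 ^ (K + 1) / 2 ^ L0))
      + 2 * ∑ l ∈ range (L + 1), (1 / 2 : ℝ) ^ l *
          (((comps n l).filter fun e => ¬ good K τ L0 h e).card : ℝ) := by
  rw [osc_succ_eq]
  have key : ∀ l ∈ range (L + 1), ∑ Y : ZMod (3 ^ (K + 1)),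
      |pz d r (K + 1) n l Y - pr K (pz d r (K + 1) n l) Y| ≤
      (τ : ℝ) * h * (b * Real.sqrt (3 ^ (K + 1) / 2 ^ L0)) + 2 * ((1 / 2 : ℝ) ^ l *
          (((comps n l).filter fun e => ¬ good K τ L0 h e).card : ℝ)) := by
    intro l hl
    have hlL : l ≤ L := by
      have := Finset.mem_range.1 hl
      omega
    set F : ℕ × ℕ → ZMod (3 ^ (K + 1)) → ℝ := fun p Y => (1 / 2 : ℝ) ^ l *
      ∑ e ∈ comps n l, (if ((e.take p.1).sum = p.2 ∧ frontOK K L0 (e.take p.1)) ∧
        hz d r (K + 1) e = Y then (1 : ℝ) else 0) with hF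
    set Fb : ZMod (3 ^ (K + 1)) → ℝ := fun Y => (1 / 2 : ℝ) ^ l *
      ∑ e ∈ comps n l, (if ¬ good K τ L0 h e ∧ hz d r (K + 1) e = Y then (1 : ℝ) else 0) with hFb
    set I := Icc 1 τ ×ˢ Icc (L0 + 1) (L0 + h) with hI
    have hpz : pz d r (K + 1) n l = fun Y => (∑ p ∈ I, F p Y) + Fb Y := by
      funext Y
      unfold pz
      rw [Finset.card_filter]
      push_cast
      rw [Finset.sum_congr rfl (fun e he => c5_ind (K := K) (τ := τ) (L0 := L0) (h := h) hτ he
        (hz d r (K + 1) e = Y)), Finset.sum_add_distrib, mul_add]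
      congr 1
      rw [hI, Finset.sum_product, Finset.sum_comm, Finset.mul_sum]
      apply Finset.sum_congr rfl
      intro t _
      rw [Finset.sum_comm, Finset.mul_sum]
    have hdiff : ∀ Y, pz d r (K + 1) n l Y - pr K (pz d r (K + 1) n l) Y =
        (∑ p ∈ I, (F p Y - pr K (F p) Y)) + (Fb Y - pr K Fb Y) := by
      intro Y
      rw [hpz]
      have h1 := c5_pr_add K (fun Y => ∑ p ∈ I, F p Y) Fb Y
      rw [h1, c5_pr_sum, Finset.sum_sub_distrib]
      ring
    have hFp : ∀ p ∈ I, ∑ Y : ZMod (3 ^ (K + 1)), |F p Y - pr K (F p) Y| ≤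
        b * Real.sqrt (3 ^ (K + 1) / 2 ^ L0) := by
      intro p hp
      obtain ⟨hp1, hp2⟩ := Finset.mem_product.1 (hI ▸ hp)
      by_cases hsl : p.2 ≤ l
      · have htn : p.1 ≤ n := (Finset.mem_Icc.1 hp1).2.trans hτ
        refine (front_l1 h3 r K n l p.1 p.2 htn hsl ((comps p.1 p.2).filter (frontOK K L0))
          (fun e he => ?_) b hb0 (hb p.1 hp1 p.2 hp2 l hlL hsl) (F p) (fun Y => ?_)).trans ?_
        · rw [Finset.mem_filter] at he
          exact ⟨he.1, he.2.2.2⟩
        · rw [hF]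
          simp only
          rw [c5_pairs d r htn hsl]
        · apply mul_le_mul_of_nonneg_left _ hb0
          apply Real.sqrt_le_sqrt
          apply div_le_div_of_nonneg_left (by positivity) (by positivity)
          apply pow_le_pow_right₀ (by norm_num)
          have := (Finset.mem_Icc.1 hp2).1
          omega
      · have hz0 : F p = fun _ => 0 := by
          funext Y
          rw [hF]
          simp only
          rw [c5_empty d r (not_le.1 hsl), mul_zero]
        rw [hz0]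
        simp only [pr, Finset.sum_const_zero, mul_zero, sub_zero, abs_zero]
        positivity
    have hFb1 : ∑ Y : ZMod (3 ^ (K + 1)), |Fb Y| = (1 / 2 : ℝ) ^ l *
          (((comps n l).filter fun e => ¬ good K τ L0 h e).card : ℝ) := by
      have h1 : ∀ Y, |Fb Y| = Fb Y := by
        intro Y
        apply abs_of_nonneg
        rw [hFb]
        apply mul_nonneg (by positivity)
        apply Finset.sum_nonneg
        intro e _
        split_ifs <;> norm_num
      rw [Finset.sum_congr rfl (fun Y _ => h1 Y)]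
      simp only [hFb]
      rw [← Finset.mul_sum, Finset.sum_comm, Finset.card_filter]
      push_cast
      congr 1
      apply Finset.sum_congr rfl
      intro e _
      by_cases hg : good K τ L0 h e
      · simp [hg]
      · simp [hg]
    calc ∑ Y : ZMod (3 ^ (K + 1)), |pz d r (K + 1) n l Y - pr K (pz d r (K + 1) n l) Y|
        ≤ ∑ Y : ZMod (3 ^ (K + 1)), ((∑ p ∈ I, |F p Y - pr K (F p) Y|) + |Fb Y - pr K Fb Y|) := by
          apply Finset.sum_le_sum
          intro Y _
          rw [hdiff Y]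
          exact (abs_add_le _ _).trans (add_le_add (Finset.abs_sum_le_sum_abs _ _) le_rfl)
      _ = (∑ p ∈ I, ∑ Y : ZMod (3 ^ (K + 1)), |F p Y - pr K (F p) Y|)
            + ∑ Y : ZMod (3 ^ (K + 1)), |Fb Y - pr K Fb Y| := by
          rw [Finset.sum_add_distrib, Finset.sum_comm]
      _ ≤ (∑ p ∈ I, b * Real.sqrt (3 ^ (K + 1) / 2 ^ L0))
            + 2 * ∑ Y : ZMod (3 ^ (K + 1)), |Fb Y| :=
          add_le_add (Finset.sum_le_sum hFp) (l1_pr_le_two K Fb)
      _ = _ := by
          rw [hFb1, Finset.sum_const, nsmul_eq_mul, hI, Finset.card_product, Nat.card_Icc,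
            Nat.card_Icc]
          have e1 : τ + 1 - 1 = τ := by omega
          have e2 : L0 + h + 1 - (L0 + 1) = h := by omega
          rw [e1, e2]
          push_cast
          ring
  refine (Finset.sum_le_sum key).trans (le_of_eq ?_)
  rw [Finset.sum_add_distrib, Finset.sum_const, Finset.card_range, nsmul_eq_mul, ← Finset.mul_sum]
  push_cast
  ring

end Pool.Agent.Lib.MP_d0d59f_nt.AA
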